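import Mathlib
import Pool.Agent.Lib.MP_04add8_pr.Gen.Defs

open MeasureTheory ProbabilityTheory Filter Topology
open scoped ENNReal

set_option linter.unusedSectionVars false

namespace Pool.Agent.Lib.MP_04add8_pr.Cv

open Pool.Agent.Lib.MP_04add8_pr.Gen

/-- `h` is a concave hazard function with derivative `h'` (nonincreasing, tending to `0`, with
`x h'(x) → ∞` and `x ^ C h'(x)` nondecreasing for some `C`), extended by its value at `0` to the
negative numbers. No regular variation. -/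
structure HazC (h h' : ℝ → ℝ) : Prop where
  cont : Continuous h
  neg : ∀ x, x ≤ 0 → h x = h 0
  zero : 0 ≤ h 0
  measd : Measurable h'
  deriv : ∀ x, 0 < x → HasDerivAt h (h' x) x
  pos : ∀ x, 0 < x → 0 < h' x
  anti : ∀ x y, 0 < x → x ≤ y → h' y ≤ h' x
  curv : ∃ C : ℝ, 0 ≤ C ∧ ∀ x y : ℝ, 0 < x → x ≤ y → x ^ C * h' x ≤ y ^ C * h' y
  tendsto_deriv : Tendsto h' atTop (𝓝 0)
  big : Tendsto (fun x : ℝ => x * h' x) atTop atTop

/-- the standing hypotheses -/
structure StdC (μ ν : Measure ℝ) (h h' : ℝ → ℝ) : Prop where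
  haz : HazC h h'
  law : Law μ h
  hν : ν (Set.Iio 0) = 0
  hνi : Integrable (fun t : ℝ => t) ν
  hm : 0 < ∫ t, t ∂ν
  hgt : (∫ t, t ∂ν) < ∫ s, s ∂μ
  hlt : (∫ s, s ∂μ) < 2 * ∫ t, t ∂ν

end Pool.Agent.Lib.MP_04add8_pr.Cv
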