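import Mathlib
import Pool.Agent.Lib.MP_04add8_pr.Cv.Defs
import Pool.Agent.Lib.MP_04add8_pr.Cv.BaseA

open MeasureTheory ProbabilityTheory Filter Topology
open scoped ENNReal

set_option linter.unusedSectionVars false

namespace Pool.Agent.Lib.MP_04add8_pr.Cv

open Pool.Agent.Lib.MP_04add8_pr.Gen

variable {h h' : ℝ → ℝ}

private lemma BaseB_ratio (H : HazC h h') : ∃ C : ℝ, 0 ≤ C ∧ ∀ x y : ℝ, 0 < x → x ≤ y →
    h' x ≤ (y / x) ^ C * h' y := by
  obtain ⟨C, hC, hc⟩ := H.curv
  refine ⟨C, hC, fun x y hx hxy => ?_⟩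
  have hy : 0 < y := lt_of_lt_of_le hx hxy
  have h1 := hc x y hx hxy
  have hxC : 0 < x ^ C := Real.rpow_pos_of_pos hx C
  rw [Real.div_rpow hy.le hx.le, div_mul_eq_mul_div, le_div_iff₀ hxC]
  linarith

/-- a monotone derivative is continuous (Darboux property) -/
lemma HazC.deriv_cont (H : HazC h h') : ContinuousOn h' (Set.Ioi 0) := by
  obtain ⟨C, hC, hc⟩ := BaseB_ratio H
  intro x₀ hx₀
  have hx₀' : (0 : ℝ) < x₀ := hx₀
  refine ContinuousAt.continuousWithinAt ?_
  have hcont : Tendsto (fun x : ℝ => (x₀ / x) ^ C) (𝓝 x₀) (𝓝 1) := by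
    have h1 : Tendsto (fun x : ℝ => x₀ / x) (𝓝 x₀) (𝓝 1) := by
      have h2 : Tendsto (fun x : ℝ => x₀ / x) (𝓝 x₀) (𝓝 (x₀ / x₀)) :=
        tendsto_const_nhds.div tendsto_id hx₀'.ne'
      rwa [div_self hx₀'.ne'] at h2
    have h3 := h1.rpow_const (p := C) (Or.inl one_ne_zero)
    rwa [Real.one_rpow] at h3
  have hl : Tendsto (fun x : ℝ => min 1 ((x₀ / x) ^ C) * h' x₀) (𝓝 x₀) (𝓝 (h' x₀)) := by
    have := (tendsto_const_nhds (x := (1 : ℝ)) (f := 𝓝 x₀)).min hcont
    simpa using this.mul_const (h' x₀)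
  have hu : Tendsto (fun x : ℝ => max 1 ((x₀ / x) ^ C) * h' x₀) (𝓝 x₀) (𝓝 (h' x₀)) := by
    have := (tendsto_const_nhds (x := (1 : ℝ)) (f := 𝓝 x₀)).max hcont
    simpa using this.mul_const (h' x₀)
  have hp := (H.pos x₀ hx₀).le
  refine tendsto_of_tendsto_of_tendsto_of_le_of_le' hl hu ?_ ?_
  · filter_upwards [lt_mem_nhds hx₀'] with x hx
    rcases le_total x x₀ with h1 | h1
    · calc min 1 ((x₀ / x) ^ C) * h' x₀ ≤ 1 * h' x₀ :=
            mul_le_mul_of_nonneg_right (min_le_left _ _) hp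
        _ = h' x₀ := one_mul _
        _ ≤ h' x := H.anti x x₀ hx h1
    · have h2 := hc x₀ x hx₀' h1
      have h3 : 0 < (x / x₀) ^ C := Real.rpow_pos_of_pos (div_pos hx hx₀') C
      have h4 : (x₀ / x) ^ C * (x / x₀) ^ C = 1 := by
        rw [← Real.mul_rpow (div_pos hx₀' hx).le (div_pos hx hx₀').le]
        have : x₀ / x * (x / x₀) = 1 := by field_simp
        rw [this, Real.one_rpow]
      have h5 : 0 ≤ (x₀ / x) ^ C := Real.rpow_nonneg (div_pos hx₀' hx).le C
      calc min 1 ((x₀ / x) ^ C) * h' x₀ ≤ (x₀ / x) ^ C * h' x₀ :=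
            mul_le_mul_of_nonneg_right (min_le_right _ _) hp
        _ ≤ (x₀ / x) ^ C * ((x / x₀) ^ C * h' x) := mul_le_mul_of_nonneg_left h2 h5
        _ = h' x := by rw [← mul_assoc, h4, one_mul]
  · filter_upwards [lt_mem_nhds hx₀'] with x hx
    rcases le_total x x₀ with h1 | h1
    · exact (hc x x₀ hx h1).trans (mul_le_mul_of_nonneg_right (le_max_right _ _) hp)
    · calc h' x ≤ h' x₀ := H.anti x₀ x hx₀' h1
        _ = 1 * h' x₀ := (one_mul _).symm
        _ ≤ _ := mul_le_mul_of_nonneg_right (le_max_left _ _) hp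

/-- from the monotonicity of `x ^ C h' x` -/
lemma HazC.doubling (H : HazC h h') : ∃ C : ℝ, 0 ≤ C ∧ ∀ x l : ℝ, 0 < x → 1 ≤ l →
    h' x ≤ l ^ C * h' (l * x) := by
  obtain ⟨C, hC, hc⟩ := BaseB_ratio H
  refine ⟨C, hC, fun x l hx hl => ?_⟩
  have h1 := hc x (l * x) hx (by nlinarith)
  rwa [mul_div_cancel_right₀ _ hx.ne'] at h1

/-- quadratic lower bound from the curvature hypothesis: for `0 ≤ D`,
`h' (X+s) ≥ (1+s/X)^(-C) h' X ≥ (1 - C s/X) h' X`; for `D < 0`,
`h' (X-s) ≤ (1-s/X)^(-C) h' X ≤ (1 + C' s/X) h' X` for `s ≤ X/2`; integrate. -/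
lemma HazC.curv_low (H : HazC h h') : ∃ C : ℝ, 0 < C ∧ ∀ X D : ℝ, 0 < X → |D| ≤ X / 2 →
    h X + h' X * D - C * (h' X / X) * D ^ 2 ≤ h (X + D) := by
  obtain ⟨C, hC, hc⟩ := BaseB_ratio H
  have he1 : 1 ≤ Real.exp C := Real.one_le_exp hC
  refine ⟨2 * C * Real.exp C + 1, by positivity, fun X D hX hD => ?_⟩
  have hpX : 0 < h' X := H.pos X hX
  have hmvt : ∀ x y : ℝ, 0 ≤ x → x < y → ∃ c, x < c ∧ c < y ∧ h y - h x = h' c * (y - x) := by
    intro x y hx hxy
    obtain ⟨c, hc, hc'⟩ := exists_hasDerivAt_eq_slope h h' hxy H.cont.continuousOn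
      (fun z hz => H.deriv z (lt_of_le_of_lt hx hz.1))
    refine ⟨c, hc.1, hc.2, ?_⟩
    rw [hc', div_mul_cancel₀ _ (sub_pos.2 hxy).ne']
  rcases lt_trichotomy D 0 with h0 | h0 | h0
  · rw [abs_of_neg h0] at hD
    have hs : 0 < -D / X := div_pos (neg_pos.2 h0) hX
    have hs2 : -D / X ≤ 1 / 2 := by
      rw [div_le_iff₀ hX]
      linarith
    obtain ⟨c, hc1, hc2, hcc⟩ := hmvt (X + D) X (by linarith) (by linarith)
    have hc0 : 0 < c := by linarith
    have h1 := hc c X hc0 hc2.le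
    -- `(X / c) ^ C ≤ exp (2 C s) ≤ 1 + 2 C s e ^ C`
    have h2 : X / c ≤ Real.exp (2 * (-D / X)) := by
      have h3 : X / c ≤ X / (X + D) := div_le_div_of_nonneg_left hX.le (by linarith) hc1.le
      refine h3.trans ?_
      have h4 : X / (X + D) ≤ 1 + 2 * (-D / X) := by
        rw [div_le_iff₀ (by linarith)]
        have h5 : (1 + 2 * (-D / X)) * (X + D) = X + (-D) * (1 - 2 * (-D / X)) := by
          field_simp
          ring
        rw [h5]
        have h6 : 0 ≤ (-D) * (1 - 2 * (-D / X)) := mul_nonneg (by linarith) (by linarith)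
        linarith
      refine h4.trans ?_
      have := Real.add_one_le_exp (2 * (-D / X))
      linarith
    have h3 : (X / c) ^ C ≤ Real.exp (2 * C * (-D / X)) := by
      calc (X / c) ^ C ≤ (Real.exp (2 * (-D / X))) ^ C :=
            Real.rpow_le_rpow (div_pos hX hc0).le h2 hC
        _ = Real.exp (2 * C * (-D / X)) := by
            rw [← Real.exp_mul]
            congr 1
            ring
    have h4 : Real.exp (2 * C * (-D / X)) ≤ 1 + 2 * C * (-D / X) * Real.exp C := by
      have ht : 0 ≤ 2 * C * (-D / X) := by positivity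
      have ht2 : 2 * C * (-D / X) ≤ C := by nlinarith
      have h5 := Real.add_one_le_exp (-(2 * C * (-D / X)))
      have h6 : Real.exp (2 * C * (-D / X)) * Real.exp (-(2 * C * (-D / X))) = 1 := by
        rw [← Real.exp_add]
        simp
      have h7 : 0 < Real.exp (2 * C * (-D / X)) := Real.exp_pos _
      have h8 : Real.exp (2 * C * (-D / X)) ≤ Real.exp C := Real.exp_le_exp.2 ht2
      have h9 : Real.exp (2 * C * (-D / X)) * (-(2 * C * (-D / X)) + 1) ≤ 1 := by
        exact (mul_le_mul_of_nonneg_left h5 h7.le).trans h6.le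
      have h10 : 2 * C * (-D / X) * Real.exp (2 * C * (-D / X)) ≤
          2 * C * (-D / X) * Real.exp C := mul_le_mul_of_nonneg_left h8 ht
      linarith
    have h5 : h' c ≤ (1 + 2 * C * (-D / X) * Real.exp C) * h' X :=
      h1.trans (mul_le_mul_of_nonneg_right (h3.trans h4) hpX.le)
    have h6 : h' c * (-D) ≤ (1 + 2 * C * (-D / X) * Real.exp C) * h' X * (-D) :=
      mul_le_mul_of_nonneg_right h5 (by linarith)
    have h7 : (1 + 2 * C * (-D / X) * Real.exp C) * h' X * (-D) =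
        -(h' X * D) + 2 * C * Real.exp C * (h' X / X) * D ^ 2 := by
      field_simp
      ring
    have h8 : 0 ≤ (h' X / X) * D ^ 2 := by positivity
    have h9 : h X - h (X + D) = h' c * (-D) := by
      rw [hcc]
      ring
    nlinarith
  · subst h0
    simp
  · rw [abs_of_pos h0] at hD
    obtain ⟨c, hc1, hc2, hcc⟩ := hmvt X (X + D) hX.le (by linarith)
    have hc0 : 0 < c := by linarith
    have h1 := hc X c hX hc1.le
    have hs : 0 < D / X := div_pos h0 hX
    have h2 : c / X ≤ Real.exp (D / X) := by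
      have h3 : c / X ≤ 1 + D / X := by
        rw [div_le_iff₀ hX]
        have : (1 + D / X) * X = X + D := by field_simp
        rw [this]
        exact hc2.le
      have := Real.add_one_le_exp (D / X)
      linarith
    have h3 : (c / X) ^ C ≤ Real.exp (C * (D / X)) := by
      calc (c / X) ^ C ≤ (Real.exp (D / X)) ^ C :=
            Real.rpow_le_rpow (div_pos hc0 hX).le h2 hC
        _ = Real.exp (C * (D / X)) := by
            rw [← Real.exp_mul]
            congr 1
            ring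
    have hpc : 0 < h' c := H.pos c hc0
    have h4 : h' X ≤ Real.exp (C * (D / X)) * h' c :=
      h1.trans (mul_le_mul_of_nonneg_right h3 hpc.le)
    have h5 : (1 - C * (D / X)) * h' X ≤ h' c := by
      have h6 := Real.add_one_le_exp (-(C * (D / X)))
      have h7 : Real.exp (-(C * (D / X))) * Real.exp (C * (D / X)) = 1 := by
        rw [← Real.exp_add]
        simp
      calc (1 - C * (D / X)) * h' X ≤ Real.exp (-(C * (D / X))) * h' X :=
            mul_le_mul_of_nonneg_right (by linarith) hpX.le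
        _ ≤ Real.exp (-(C * (D / X))) * (Real.exp (C * (D / X)) * h' c) :=
            mul_le_mul_of_nonneg_left h4 (Real.exp_pos _).le
        _ = h' c := by rw [← mul_assoc, h7, one_mul]
    have h6 := mul_le_mul_of_nonneg_right h5 h0.le
    have h7 : (1 - C * (D / X)) * h' X * D = h' X * D - C * (h' X / X) * D ^ 2 := by
      field_simp
    have h8 : h (X + D) - h X = h' c * D := by
      rw [hcc]
      ring
    have h9 : 0 ≤ (h' X / X) * D ^ 2 := by positivity
    have h10 : C * ((h' X / X) * D ^ 2) ≤ (2 * C * Real.exp C + 1) * ((h' X / X) * D ^ 2) :=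
      mul_le_mul_of_nonneg_right (by nlinarith) h9
    nlinarith

end Pool.Agent.Lib.MP_04add8_pr.Cv
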