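import Mathlib
import Pool.Agent.Lib.MP_04add8_pr.Cv.Defs

open MeasureTheory ProbabilityTheory Filter Topology
open scoped ENNReal

set_option linter.unusedSectionVars false

namespace Pool.Agent.Lib.MP_04add8_pr.Cv

open Pool.Agent.Lib.MP_04add8_pr.Gen

/-- `g(y) = h(y) - y h'(y)` -/
def gg (h h' : ℝ → ℝ) (y : ℝ) : ℝ := h y - y * h' y

/-- thresholds: `B` bounds the small jobs, `v` is the low level -/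
structure Thr (h h' B v : ℝ → ℝ) : Prop where
  pos : ∀ᶠ x : ℝ in atTop, 0 < B x
  le : ∀ᶠ x : ℝ in atTop, B x ≤ v x
  sq : ∀ᶠ x : ℝ in atTop, v x ≤ √x
  g : ∀ K : ℝ, ∀ᶠ x : ℝ in atTop, K * Real.log x ≤ gg h h' (B x)
  r1 : ∀ K : ℝ, ∀ᶠ x : ℝ in atTop, K * h' (v x) ≤ h' (B x)
  r2 : ∀ K : ℝ, ∀ᶠ x : ℝ in atTop, K * h' x ≤ h' (v x)

/-- a slope function for the potentials; `e` is the decay rate -/
structure Pot (μ ν : Measure ℝ) [IsProbabilityMeasure μ] [IsProbabilityMeasure ν] (h : ℝ → ℝ)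
    (β : ℝ → ℝ) (θ0 c C e : ℝ) : Prop where
  pθ : 0 < θ0
  pc : 0 < c
  pC : 1 + c ≤ C
  pe : 0 ≤ e
  low : ∀ θ : ℝ, 0 < θ → θ ≤ θ0 → (1 + c) * θ ≤ β θ
  up : ∀ θ : ℝ, 0 < θ → θ ≤ θ0 → β θ ≤ C * θ
  mono : ∀ θ θ' : ℝ, 0 < θ → θ ≤ θ' → θ' ≤ θ0 → β θ ≤ β θ'
  lapl : ∀ θ : ℝ, 0 < θ → θ ≤ θ0 → 2 * (e * θ) ≤ 1 - lap ν θ
  sub : ∀ θ B : ℝ, 0 < θ → θ ≤ θ0 → Tilt h (C * θ) B →
    trPhi μ ν B (β θ) θ ≤ ENNReal.ofReal (1 - e * θ)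

/-- `e^{θ w₂} (e^{β w₁} + D)` -/
noncomputable def HF (β D θ : ℝ) (w : ℝ × ℝ) : ℝ :=
  Real.exp (θ * w.2) * (Real.exp (β * w.1) + D)

/-- `e^{hG(θ)} H_θ(w)` -/
noncomputable def cT (h : ℝ → ℝ) (β : ℝ → ℝ) (D θ : ℝ) (w : ℝ × ℝ) : ℝ :=
  Real.exp (hG h θ) * HF (β θ) D θ w

/-- the one-job potential `inf_{0 < θ ≤ θ0} e^{hG(θ)} H_θ(w)` -/
noncomputable def VV (h : ℝ → ℝ) (β : ℝ → ℝ) (D θ0 : ℝ) (w : ℝ × ℝ) : ℝ≥0∞ :=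
  ⨅ θ : Set.Ioc (0 : ℝ) θ0, ENNReal.ofReal (cT h β D θ.1 w)

/-- the two-jobs potential -/
noncomputable def WW (h : ℝ → ℝ) (B : ℝ) (w : ℝ × ℝ) : ℝ≥0∞ :=
  ENNReal.ofReal (Real.exp (h (max w.1 B) + h w.2))

/-- the combined potential `min (e^{-g1} V) (e^{-g2} W_B)` -/
noncomputable def UU (h : ℝ → ℝ) (β : ℝ → ℝ) (D θ0 g1 g2 B : ℝ) (w : ℝ × ℝ) : ℝ≥0∞ :=
  min (ENNReal.ofReal (Real.exp (-g1)) * VV h β D θ0 w)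
    (ENNReal.ofReal (Real.exp (-g2)) * WW h B w)

/-- the a priori potential `min V e^{h(w₁)+h(w₂)}` -/
noncomputable def EP (h : ℝ → ℝ) (β : ℝ → ℝ) (D θ0 : ℝ) (w : ℝ × ℝ) : ℝ≥0∞ :=
  min (VV h β D θ0 w) (ENNReal.ofReal (Real.exp (h w.1 + h w.2)))

/-- level conditions: low level `v`, small jobs `≤ B`, gap `γ` -/
structure Lev (h h' : ℝ → ℝ) (C v1 G0 γ v B : ℝ) : Prop where
  lv : v1 ≤ v
  lB : 0 < B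
  lBv : 4 * B ≤ v
  lh : 8 * C * h' (v / 4) ≤ h' B
  lγ : 0 ≤ γ
  lg : 8 * γ + G0 ≤ gg h h' B

/-- weight of a small job that keeps the workload above `v` -/
noncomputable def smW (B v : ℝ) (w p : ℝ × ℝ) : ℝ≥0∞ :=
  if p.1 ≤ B ∧ v < (kwStep w p.1 p.2).2 then 1 else 0

/-- weight of a nonsmall job of size at most `Y` that keeps the workload above `v` -/
noncomputable def bgW (B Y v : ℝ) (w p : ℝ × ℝ) : ℝ≥0∞ :=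
  if B < p.1 ∧ p.1 ≤ Y ∧ v < (kwStep w p.1 p.2).2 then 1 else 0

end Pool.Agent.Lib.MP_04add8_pr.Cv
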