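import Mathlib
import Pool.Agent.Lib.MP_04add8_pr.Cv.BaseA
import Pool.Agent.Lib.MP_04add8_pr.Cv.BaseB

open MeasureTheory ProbabilityTheory Filter Topology
open scoped ENNReal

set_option linter.unusedSectionVars false

namespace Pool.Agent.Lib.MP_04add8_pr.Cv

open Pool.Agent.Lib.MP_04add8_pr.Gen

variable {h h' : ℝ → ℝ}

/-- `M ≤ x h' x` eventually, so `h x - h x0 ≥ M log (x/x0)` -/
theorem HazC.log_le (H : HazC h h') (M : ℝ) : ∀ᶠ x : ℝ in atTop, M * Real.log x ≤ h x := by
  obtain ⟨x1, hx1⟩ := (H.big.eventually_ge_atTop (|M| + 1)).exists_forall_of_atTop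
  set x0 : ℝ := max x1 1 with hx0
  have hx01 : 1 ≤ x0 := le_max_right _ _
  have hx0pos : 0 < x0 := by linarith
  have hM : 0 ≤ |M| := abs_nonneg M
  have hmono : MonotoneOn (fun x => h x - (|M| + 1) * Real.log x) (Set.Ici x0) := by
    apply monotoneOn_of_hasDerivWithinAt_nonneg (f' := fun x => h' x - (|M| + 1) * x⁻¹)
      (convex_Ici x0)
    · apply ContinuousOn.sub H.cont.continuousOn
      apply ContinuousOn.mul continuousOn_const
      apply Real.continuousOn_log.mono
      intro x hx
      have : x0 ≤ x := hx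
      simp only [Set.mem_compl_iff, Set.mem_singleton_iff]
      linarith
    · intro x hx
      rw [interior_Ici] at hx
      have hxpos : 0 < x := lt_trans hx0pos hx
      exact ((H.deriv x hxpos).sub ((Real.hasDerivAt_log hxpos.ne').const_mul _)).hasDerivWithinAt
    · intro x hx
      rw [interior_Ici] at hx
      have hxpos : 0 < x := lt_trans hx0pos hx
      have h1 := hx1 x ((le_max_left _ _).trans (le_of_lt hx))
      have h2 : (|M| + 1) * x⁻¹ ≤ h' x := by
        rw [mul_inv_le_iff₀ hxpos, mul_comm]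
        exact h1
      linarith
  have hlog : ∀ᶠ x : ℝ in atTop, (|M| + 1) * Real.log x0 ≤ Real.log x :=
    Real.tendsto_log_atTop.eventually_ge_atTop _
  filter_upwards [hlog, eventually_ge_atTop x0] with x h1 h2
  have h3 := hmono (Set.mem_Ici.2 le_rfl) (Set.mem_Ici.2 h2) h2
  simp only at h3
  have h4 := H.nonneg x0
  have h5 : 0 ≤ Real.log x := Real.log_nonneg (by linarith)
  have h6 : M * Real.log x ≤ |M| * Real.log x := mul_le_mul_of_nonneg_right (le_abs_self M) h5
  nlinarith

theorem HazC.tendsto_h (H : HazC h h') : Tendsto h atTop atTop := by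
  refine tendsto_atTop_mono' _ (H.log_le 1) ?_
  simpa using Real.tendsto_log_atTop

theorem HazC.tendsto_div (H : HazC h h') : Tendsto (fun x : ℝ => h x / x) atTop (𝓝 0) := by
  rw [Metric.tendsto_nhds]
  intro η hη
  have h1 : ∀ᶠ x : ℝ in atTop, h' x < η / 2 :=
    H.tendsto_deriv.eventually_lt_const (by positivity)
  obtain ⟨x0, hx0, hx0pos⟩ := (h1.and (eventually_gt_atTop (0 : ℝ))).exists
  have h2 : ∀ᶠ x : ℝ in atTop, h x0 / (η / 4) ≤ x := eventually_ge_atTop _
  filter_upwards [h2, eventually_ge_atTop x0] with x hx1 hx2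
  have hxpos : 0 < x := by linarith
  have h3 := H.upper_deriv hx0pos hx2
  have h4 := H.nonneg x
  rw [Real.dist_eq, sub_zero, abs_of_nonneg (div_nonneg h4 hxpos.le), div_lt_iff₀ hxpos]
  rw [div_le_iff₀ (by positivity)] at hx1
  have h5 : (x - x0) * h' x0 ≤ x * (η / 2) := by
    have h6 := (H.pos x0 hx0pos).le
    calc (x - x0) * h' x0 ≤ x * h' x0 := mul_le_mul_of_nonneg_right (by linarith) h6
      _ ≤ x * (η / 2) := mul_le_mul_of_nonneg_left hx0.le hxpos.le
  nlinarith

/-- exponentials of `h` beat every power -/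
theorem HazC.rpow_exp (H : HazC h h') (p : ℝ) {c : ℝ} (hc : 0 < c) :
    Tendsto (fun x : ℝ => x ^ p * Real.exp (-(c * h x))) atTop (𝓝 0) := by
  have h1 := H.log_le ((p + 1) / c)
  refine tendsto_of_tendsto_of_tendsto_of_le_of_le' tendsto_const_nhds tendsto_inv_atTop_zero ?_ ?_
  · filter_upwards [eventually_gt_atTop 0] with x hx
    exact mul_nonneg (Real.rpow_nonneg hx.le _) (Real.exp_pos _).le
  · filter_upwards [h1, eventually_gt_atTop 0] with x hx hx0
    have h2 : (p + 1) * Real.log x ≤ c * h x := by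
      rw [div_mul_eq_mul_div, div_le_iff₀ hc] at hx
      linarith
    calc x ^ p * Real.exp (-(c * h x)) ≤ x ^ p * Real.exp (-((p + 1) * Real.log x)) :=
          mul_le_mul_of_nonneg_left (Real.exp_le_exp.2 (by linarith)) (Real.rpow_nonneg hx0.le _)
      _ = x⁻¹ := by
          rw [Real.rpow_def_of_pos hx0, ← Real.exp_add]
          have : Real.log x * p + -((p + 1) * Real.log x) = -Real.log x := by ring
          rw [this, Real.exp_neg, Real.exp_log hx0]

/-- consequence of `x h' x → ∞` -/
theorem HazC.deriv_ge (H : HazC h h') (M : ℝ) : ∀ᶠ x : ℝ in atTop, M / x ≤ h' x := by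
  filter_upwards [H.big.eventually_ge_atTop M, eventually_gt_atTop 0] with x hx hx0
  rw [div_le_iff₀ hx0]
  linarith

/-- windows of size `exp (σ h x)` are long: `h y ≥ (M + 1)/σ log y` for large `y`. -/
theorem HazC.window (H : HazC h h') {σ c M : ℝ} (hσ : 0 < σ) (hc : 0 < c) :
    ∀ᶠ x : ℝ in atTop, M * h x ≤ h (c * Real.exp (σ * h x)) := by
  have hy : Tendsto (fun x : ℝ => c * Real.exp (σ * h x)) atTop atTop :=
    (Real.tendsto_exp_atTop.comp (H.tendsto_h.const_mul_atTop hσ)).const_mul_atTop hc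
  have h1 := hy.eventually (H.log_le ((|M| + 1) / σ))
  have h2 := H.tendsto_h.eventually_ge_atTop (-((|M| + 1) / σ * Real.log c))
  filter_upwards [h1, h2] with x hx1 hx2
  rw [Real.log_mul hc.ne' (Real.exp_pos _).ne', Real.log_exp] at hx1
  have h3 : (|M| + 1) / σ * (Real.log c + σ * h x) =
      (|M| + 1) / σ * Real.log c + (|M| + 1) * h x := by
    field_simp
  rw [h3] at hx1
  have h4 : M * h x ≤ |M| * h x := mul_le_mul_of_nonneg_right (le_abs_self M) (H.nonneg x)
  linarith

/-- comparison of `h` at two proportional points, additive form with `x h' x`: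
lower (upper) bound of the increment by the derivative at the right (left) end and doubling -/
theorem HazC.diff_two (H : HazC h h') : ∃ c : ℝ, 0 < c ∧ ∀ x : ℝ, 0 < x →
    c * (x * h' x) ≤ h (2 * x) - h x := by
  obtain ⟨C, -, hC⟩ := H.doubling
  have h2C : (0 : ℝ) < 2 ^ C := Real.rpow_pos_of_pos two_pos _
  refine ⟨1 / 2 ^ C, by positivity, fun x hx => ?_⟩
  have h1 := H.lower_deriv hx.le (show x ≤ 2 * x by linarith) (by linarith)
  have h2 := hC x 2 hx (by norm_num)
  calc 1 / 2 ^ C * (x * h' x) ≤ 1 / 2 ^ C * (x * (2 ^ C * h' (2 * x))) := by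
        refine mul_le_mul_of_nonneg_left (mul_le_mul_of_nonneg_left h2 hx.le) (by positivity)
    _ = (2 * x - x) * h' (2 * x) := by
        field_simp
        ring
    _ ≤ _ := h1

end Pool.Agent.Lib.MP_04add8_pr.Cv
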