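import Mathlib
import Pool.Agent.Lib.MP_04add8_pr.Cv.DefsP
import Pool.Agent.Lib.MP_04add8_pr.Cv.Base
import Pool.Agent.Lib.MP_04add8_pr.Cv.RV

/-!
Facts about `hG h θ = sup_{y ≥ 0} (h y - θ y)` and `gg h h' y = h y - y h' y` for a hazard function of class
`HazC` (tools: `HazC.tangent`, `HazC.lower_deriv`, `HazC.upper_deriv`, `HazC.mono`, `HazC.tendsto_div`,
`HazC.tendsto_h`).
-/

open MeasureTheory ProbabilityTheory Filter Topology
open scoped ENNReal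

set_option linter.unusedSectionVars false

namespace Pool.Agent.Lib.MP_04add8_pr.Cv

open Pool.Agent.Lib.MP_04add8_pr.Gen

variable {h h' : ℝ → ℝ} {μ ν : Measure ℝ} [IsProbabilityMeasure μ]
  [IsProbabilityMeasure ν]

/-- `h y ≤ h y0 + (y - y0) h' y0` and `h' y0 < θ` for large `y0` -/
theorem hG_bdd (H : HazC h h') {θ : ℝ} (hθ : 0 < θ) :
    BddAbove ((fun y : ℝ => h y - θ * y) '' Set.Ici 0) := by
  obtain ⟨y0, hy0, hy0pos⟩ :=
    ((H.tendsto_deriv.eventually_lt_const hθ).and (eventually_gt_atTop (0 : ℝ))).exists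
  refine ⟨h y0, ?_⟩
  rintro _ ⟨y, hy, rfl⟩
  have hy' : (0 : ℝ) ≤ y := hy
  have h1 := H.tangent hy0pos (show 0 ≤ y0 + (y - y0) by linarith)
  rw [add_sub_cancel] at h1
  have h2 : 0 ≤ h' y0 * y0 := (mul_pos (H.pos y0 hy0pos) hy0pos).le
  have h3 : 0 ≤ (θ - h' y0) * y := mul_nonneg (by linarith) hy'
  show h y - θ * y ≤ h y0
  nlinarith

theorem hG_ge (H : HazC h h') {θ y : ℝ} (hθ : 0 < θ) (hy : 0 ≤ y) : h y ≤ hG h θ + θ * y := by
  have h1 : h y - θ * y ≤ hG h θ := le_csSup (hG_bdd H hθ) ⟨y, hy, rfl⟩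
  linarith

/-- tangent line: the supremum is attained at `y` -/
theorem hG_at (H : HazC h h') {y : ℝ} (hy : 0 < y) : hG h (h' y) = gg h h' y := by
  have hθ := H.pos y hy
  apply le_antisymm
  · refine csSup_le ⟨h 0 - h' y * 0, 0, Set.mem_Ici.2 le_rfl, rfl⟩ ?_
    rintro _ ⟨z, hz, rfl⟩
    have hz' : (0 : ℝ) ≤ z := hz
    have h1 := H.tangent hy (show 0 ≤ y + (z - y) by linarith)
    rw [add_sub_cancel] at h1
    show h z - h' y * z ≤ h y - y * h' y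
    nlinarith
  · have h1 := hG_ge H hθ hy.le
    show h y - y * h' y ≤ hG h (h' y)
    nlinarith

theorem hG_anti (H : HazC h h') {θ θ' : ℝ} (hθ : 0 < θ) (h1 : θ ≤ θ') : hG h θ' ≤ hG h θ := by
  refine csSup_le ⟨h 0 - θ' * 0, 0, Set.mem_Ici.2 le_rfl, rfl⟩ ?_
  rintro _ ⟨y, hy, rfl⟩
  have hy' : (0 : ℝ) ≤ y := hy
  have h2 := hG_ge H hθ hy'
  have h3 : 0 ≤ (θ' - θ) * y := mul_nonneg (by linarith) hy'
  show h y - θ' * y ≤ hG h θ
  nlinarith

theorem hG_nonneg (H : HazC h h') {θ : ℝ} (hθ : 0 < θ) : 0 ≤ hG h θ := by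
  have h1 := hG_ge H hθ (le_refl (0 : ℝ))
  have h2 := H.zero
  simp only [mul_zero, add_zero] at h1
  linarith

/-- `g y - g x ≥ (y - x) h' y - y h' y + x h' x = x (h' x - h' y)` -/
theorem gg_mono (H : HazC h h') {x y : ℝ} (hx : 0 < x) (hxy : x ≤ y) :
    gg h h' x ≤ gg h h' y := by
  have h1 := H.lower_deriv hx.le hxy (lt_of_lt_of_le hx hxy)
  have h2 := H.anti x y hx hxy
  have h3 : 0 ≤ x * (h' x - h' y) := mul_nonneg hx.le (by linarith)
  show h x - x * h' x ≤ h y - y * h' y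
  nlinarith

theorem gg_nonneg (H : HazC h h') {x : ℝ} (hx : 0 < x) : 0 ≤ gg h h' x := by
  have h1 := H.mul_deriv_le hx
  show 0 ≤ h x - x * h' x
  linarith

theorem gg_le (H : HazC h h') {x : ℝ} (hx : 0 < x) : gg h h' x ≤ h x := by
  have h1 := mul_pos hx (H.pos x hx)
  show h x - x * h' x ≤ h x
  linarith

/-- `h (M + m) ≤ h M + m h' M ≤ h M + m h' m` -/
theorem add_gg_le (H : HazC h h') {M m : ℝ} (hm : 0 < m) (hmM : m ≤ M) :
    h (M + m) + gg h h' m ≤ h M + h m := by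
  have hM : 0 < M := lt_of_lt_of_le hm hmM
  have h1 := H.tangent hM (show 0 ≤ M + m by linarith)
  have h2 := H.anti m M hm hmM
  have h3 : 0 ≤ m * (h' m - h' M) := mul_nonneg hm.le (by linarith)
  show h (M + m) + (h m - m * h' m) ≤ h M + h m
  nlinarith

/-- `h x ≤ h 1 + (x - 1) h' 1` for `x ≥ 1` -/
theorem h_lin (H : HazC h h') : ∃ C : ℝ, 1 ≤ C ∧ ∀ x : ℝ, 0 ≤ x → h x ≤ C * (1 + x) := by
  have h1 := H.nonneg 1
  have h2 := (H.pos 1 one_pos).le
  refine ⟨1 + h 1 + h' 1, by linarith, fun x hx => ?_⟩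
  have h3 := H.tangent (one_pos) (show 0 ≤ 1 + (x - 1) by linarith)
  rw [add_sub_cancel] at h3
  have h4 : 0 ≤ h 1 * x := mul_nonneg h1 hx
  nlinarith

/-- `g → ∞`: `g y ≥ h (εy) - εy h' y ≥ ...`; for fixed `z`, `g y ≥ h z - z h' y` (same proof as
`gg_mono`: `h y - y h' y ≥ h z - z h' y`), and `h' y → 0`, `h z → ∞`. -/
theorem gg_tendsto (H : HazC h h') : Tendsto (gg h h') atTop atTop := by
  rw [tendsto_atTop]
  intro K
  obtain ⟨z, hz, hzpos⟩ :=
    ((H.tendsto_h.eventually_ge_atTop (K + 1)).and (eventually_gt_atTop (0 : ℝ))).exists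
  have h1 : ∀ᶠ y : ℝ in atTop, h' y < 1 / z :=
    H.tendsto_deriv.eventually_lt_const (by positivity)
  filter_upwards [h1, eventually_gt_atTop (0 : ℝ)] with y hy1 hy2
  have h2 := H.tangent hy2 (show 0 ≤ y + (z - y) by linarith)
  rw [add_sub_cancel] at h2
  rw [lt_div_iff₀ hzpos] at hy1
  show K ≤ h y - y * h' y
  nlinarith

end Pool.Agent.Lib.MP_04add8_pr.Cv
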