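import Mathlib
import Pool.Agent.Lib.MP_04add8_pr.Cv.GF

/-!
Elementary facts about the potentials of `DefsP`.
-/

open MeasureTheory ProbabilityTheory Filter Topology
open scoped ENNReal

set_option linter.unusedSectionVars false

namespace Pool.Agent.Lib.MP_04add8_pr.Cv

open Pool.Agent.Lib.MP_04add8_pr.Gen

variable {h h' : ℝ → ℝ} {μ ν : Measure ℝ} [IsProbabilityMeasure μ]
  [IsProbabilityMeasure ν]

/-- each `cT` is continuous in `w`, an infimum of continuous functions is upper semicontinuous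
(`upperSemicontinuous_iInf`), hence measurable (`UpperSemicontinuous.measurable`) -/
theorem measurable_VV (β : ℝ → ℝ) (D θ0 : ℝ) : Measurable (VV h β D θ0) := by
  have hc : ∀ θ : Set.Ioc (0 : ℝ) θ0,
      UpperSemicontinuous (fun w : ℝ × ℝ => ENNReal.ofReal (cT h β D θ.1 w)) := by
    intro θ
    refine Continuous.upperSemicontinuous ?_
    refine ENNReal.continuous_ofReal.comp ?_
    unfold cT HF
    fun_prop
  exact (upperSemicontinuous_iInf hc).measurable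

theorem measurable_WW (H : HazC h h') (B : ℝ) : Measurable (WW h B) := by
  have hc : Continuous (WW h B) := by
    refine ENNReal.continuous_ofReal.comp (Real.continuous_exp.comp ?_)
    exact (H.cont.comp (continuous_fst.max continuous_const)).add (H.cont.comp continuous_snd)
  exact hc.measurable

theorem measurable_UU (H : HazC h h') (β : ℝ → ℝ) (D θ0 g1 g2 B : ℝ) :
    Measurable (UU h β D θ0 g1 g2 B) := by
  exact ((measurable_VV β D θ0).const_mul _).min ((measurable_WW H B).const_mul _)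

theorem measurable_EP (H : HazC h h') (β : ℝ → ℝ) (D θ0 : ℝ) : Measurable (EP h β D θ0) := by
  refine (measurable_VV β D θ0).min ?_
  have hc : Continuous (fun w : ℝ × ℝ => ENNReal.ofReal (Real.exp (h w.1 + h w.2))) := by
    refine ENNReal.continuous_ofReal.comp (Real.continuous_exp.comp ?_)
    exact (H.cont.comp continuous_fst).add (H.cont.comp continuous_snd)
  exact hc.measurable

theorem VV_le (β : ℝ → ℝ) (D : ℝ) {θ0 θ : ℝ} (hθ : 0 < θ) (hθ0 : θ ≤ θ0) (w : ℝ × ℝ) :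
    VV h β D θ0 w ≤ ENNReal.ofReal (cT h β D θ w) := by
  exact iInf_le (fun θ : Set.Ioc (0 : ℝ) θ0 => ENNReal.ofReal (cT h β D θ.1 w)) ⟨θ, hθ, hθ0⟩

theorem HF_mono {β D θ : ℝ} (hβ : 0 ≤ β) (hD : 0 ≤ D) (hθ : 0 ≤ θ) {w w' : ℝ × ℝ}
    (h1 : w.1 ≤ w'.1) (h2 : w.2 ≤ w'.2) : HF β D θ w ≤ HF β D θ w' := by
  unfold HF
  refine mul_le_mul ?_ ?_ ?_ (Real.exp_pos _).le
  · exact Real.exp_le_exp.2 (mul_le_mul_of_nonneg_left h2 hθ)
  · have := Real.exp_le_exp.2 (mul_le_mul_of_nonneg_left h1 hβ)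
    linarith
  · have := Real.exp_pos (β * w.1)
    linarith

theorem VV_mono {β : ℝ → ℝ} {D θ0 c C e : ℝ} (P : Pot μ ν h β θ0 c C e) (hD : 0 ≤ D)
    {w w' : ℝ × ℝ} (h1 : w.1 ≤ w'.1) (h2 : w.2 ≤ w'.2) : VV h β D θ0 w ≤ VV h β D θ0 w' := by
  refine iInf_mono fun θ => ?_
  refine ENNReal.ofReal_le_ofReal ?_
  have hθ := θ.2
  have hb : 0 ≤ β θ.1 := by
    have h3 := P.low θ.1 hθ.1 hθ.2
    have h4 : 0 < (1 + c) * θ.1 := mul_pos (by have := P.pc; linarith) hθ.1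
    linarith
  exact mul_le_mul_of_nonneg_left (HF_mono hb hD hθ.1.le h1 h2) (Real.exp_pos _).le

theorem WW_mono (H : HazC h h') {B : ℝ} {w w' : ℝ × ℝ} (h1 : w.1 ≤ w'.1) (h2 : w.2 ≤ w'.2) :
    WW h B w ≤ WW h B w' := by
  refine ENNReal.ofReal_le_ofReal (Real.exp_le_exp.2 ?_)
  exact add_le_add (H.mono (max_le_max h1 le_rfl)) (H.mono h2)

/-- `cT ≥ e^{hG + θ w₂} e^{β w₁} ≥ e^{h w₂ + β w₁}` (`hG_ge`) -/
theorem cT_ge (H : HazC h h') {β : ℝ → ℝ} {D θ : ℝ} (hD : 0 ≤ D) (hθ : 0 < θ) {w : ℝ × ℝ}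
    (h0 : 0 ≤ w.2) : Real.exp (h w.2 + β θ * w.1) ≤ cT h β D θ w := by
  unfold cT HF
  have h1 := hG_ge H hθ h0
  have h2 : Real.exp (h w.2 + β θ * w.1) ≤
      Real.exp (hG h θ) * (Real.exp (θ * w.2) * Real.exp (β θ * w.1)) := by
    rw [← Real.exp_add, ← Real.exp_add]
    exact Real.exp_le_exp.2 (by linarith)
  refine h2.trans ?_
  refine mul_le_mul_of_nonneg_left ?_ (Real.exp_pos _).le
  refine mul_le_mul_of_nonneg_left ?_ (Real.exp_pos _).le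
  linarith

theorem VV_ge (H : HazC h h') {β : ℝ → ℝ} {D θ0 c C e : ℝ} (P : Pot μ ν h β θ0 c C e)
    (hD : 0 ≤ D) {w : ℝ × ℝ} (h0 : 0 ≤ w.1) (h1 : w.1 ≤ w.2) :
    ENNReal.ofReal (Real.exp (h w.2)) ≤ VV h β D θ0 w := by
  refine le_iInf fun θ => ENNReal.ofReal_le_ofReal ?_
  have hθ := θ.2
  have hb : 0 ≤ β θ.1 := by
    have h3 := P.low θ.1 hθ.1 hθ.2
    have h4 : 0 < (1 + c) * θ.1 := mul_pos (by have := P.pc; linarith) hθ.1
    linarith
  refine le_trans (Real.exp_le_exp.2 ?_) (cT_ge H hD hθ.1 (h0.trans h1))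
  have h5 : 0 ≤ β θ.1 * w.1 := mul_nonneg hb h0
  linarith

theorem EP_ge (H : HazC h h') {β : ℝ → ℝ} {D θ0 c C e : ℝ} (P : Pot μ ν h β θ0 c C e)
    (hD : 0 ≤ D) {w : ℝ × ℝ} (h0 : 0 ≤ w.1) (h1 : w.1 ≤ w.2) :
    ENNReal.ofReal (Real.exp (h w.2)) ≤ EP h β D θ0 w := by
  refine le_min (VV_ge H P hD h0 h1) (ENNReal.ofReal_le_ofReal (Real.exp_le_exp.2 ?_))
  have := H.nonneg w.1
  linarith

theorem one_le_EP (H : HazC h h') {β : ℝ → ℝ} {D θ0 c C e : ℝ} (P : Pot μ ν h β θ0 c C e)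
    (hD : 0 ≤ D) {w : ℝ × ℝ} (h0 : 0 ≤ w.1) (h1 : w.1 ≤ w.2) : 1 ≤ EP h β D θ0 w := by
  refine le_trans ?_ (EP_ge H P hD h0 h1)
  rw [ENNReal.one_le_ofReal]
  exact Real.one_le_exp (H.nonneg w.2)

theorem UU_ge (H : HazC h h') {β : ℝ → ℝ} {D θ0 c C e : ℝ} (P : Pot μ ν h β θ0 c C e)
    (hD : 0 ≤ D) {g1 g2 B : ℝ} (hg : g1 ≤ g2) {w : ℝ × ℝ} (h0 : 0 ≤ w.1) (h1 : w.1 ≤ w.2) :
    ENNReal.ofReal (Real.exp (h w.2 - g2)) ≤ UU h β D θ0 g1 g2 B w := by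
  refine le_min ?_ ?_
  · refine le_trans ?_ (mul_le_mul_right (VV_ge H P hD h0 h1) _)
    rw [← ENNReal.ofReal_mul (Real.exp_pos _).le, ← Real.exp_add]
    exact ENNReal.ofReal_le_ofReal (Real.exp_le_exp.2 (by linarith))
  · unfold WW
    rw [← ENNReal.ofReal_mul (Real.exp_pos _).le, ← Real.exp_add]
    refine ENNReal.ofReal_le_ofReal (Real.exp_le_exp.2 ?_)
    have := H.nonneg (max w.1 B)
    linarith

/-- `V ≤ e^{g1} U` or so: `EP ≤ e^{max g1 g2} U`, since `W_B ≥ e^{h w₁ + h w₂}` -/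
theorem EP_le_UU (H : HazC h h') {β : ℝ → ℝ} {D θ0 : ℝ} {g1 g2 B : ℝ} (hg : g1 ≤ g2)
    (w : ℝ × ℝ) :
    EP h β D θ0 w ≤ ENNReal.ofReal (Real.exp g2) * UU h β D θ0 g1 g2 B w := by
  have hA : EP h β D θ0 w ≤
      ENNReal.ofReal (Real.exp g2) * (ENNReal.ofReal (Real.exp (-g1)) * VV h β D θ0 w) := by
    rw [← mul_assoc, ← ENNReal.ofReal_mul (Real.exp_pos _).le, ← Real.exp_add]
    refine (min_le_left _ _).trans ?_
    refine le_mul_of_one_le_left zero_le ?_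
    rw [ENNReal.one_le_ofReal]
    exact Real.one_le_exp (by linarith)
  have hB : EP h β D θ0 w ≤
      ENNReal.ofReal (Real.exp g2) * (ENNReal.ofReal (Real.exp (-g2)) * WW h B w) := by
    rw [← mul_assoc, ← ENNReal.ofReal_mul (Real.exp_pos _).le, ← Real.exp_add, add_neg_cancel,
      Real.exp_zero, ENNReal.ofReal_one, one_mul]
    refine (min_le_right _ _).trans ?_
    refine ENNReal.ofReal_le_ofReal (Real.exp_le_exp.2 ?_)
    have := H.mono (le_max_left w.1 B)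
    linarith
  unfold UU
  rcases min_choice (ENNReal.ofReal (Real.exp (-g1)) * VV h β D θ0 w)
    (ENNReal.ofReal (Real.exp (-g2)) * WW h B w) with h1 | h1
  · rw [h1]; exact hA
  · rw [h1]; exact hB

theorem VV_ne_top {β : ℝ → ℝ} {D θ0 : ℝ} (hθ0 : 0 < θ0) (w : ℝ × ℝ) : VV h β D θ0 w ≠ ∞ := by
  exact ne_top_of_le_ne_top ENNReal.ofReal_ne_top (VV_le β D hθ0 le_rfl w)

end Pool.Agent.Lib.MP_04add8_pr.Cv
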