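import Mathlib
import Pool.Agent.Lib.MP_04add8_pr.Cv.VMeas

open MeasureTheory ProbabilityTheory Filter Topology
open scoped ENNReal

set_option linter.unusedSectionVars false

namespace Pool.Agent.Lib.MP_04add8_pr.Cv

open Pool.Agent.Lib.MP_04add8_pr.Gen

variable {h h' : ℝ → ℝ} {μ ν : Measure ℝ} [IsProbabilityMeasure μ]
  [IsProbabilityMeasure ν]

/-- The step is coordinatewise below the sorted pair `(w1 + u, w2)`. -/
private lemma JZero_fst {u t : ℝ} {w : ℝ × ℝ} (hu : 0 ≤ u) (ht : 0 ≤ t) (h0 : 0 ≤ w.1)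
    (h1 : w.1 ≤ w.2) : (kwStep w u t).1 ≤ min (w.1 + u) w.2 :=
  min_le_min (max_le (by linarith) (by linarith)) (max_le (by linarith) (h0.trans h1))

private lemma JZero_snd {u t : ℝ} {w : ℝ × ℝ} (hu : 0 ≤ u) (ht : 0 ≤ t) (h0 : 0 ≤ w.1)
    (h1 : w.1 ≤ w.2) : (kwStep w u t).2 ≤ max (w.1 + u) w.2 :=
  max_le_max (max_le (by linarith) (by linarith)) (max_le (by linarith) (h0.trans h1))

private lemma JZero_WW (H : HazC h h') {B u t : ℝ} {w : ℝ × ℝ} (hB : 0 < B) (hBw : B ≤ w.2)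
    (hBu : B ≤ u) (ht : 0 ≤ t) (h0 : 0 ≤ w.1) (h1 : w.1 ≤ w.2) :
    WW h B (kwStep w u t) ≤ ENNReal.ofReal (Real.exp (h (w.1 + u) + h w.2)) := by
  have hu : 0 ≤ u := hB.le.trans hBu
  refine (WW_mono H (w' := (min (w.1 + u) w.2, max (w.1 + u) w.2))
    (JZero_fst hu ht h0 h1) (JZero_snd hu ht h0 h1)).trans (le_of_eq ?_)
  have hm : max (min (w.1 + u) w.2) B = min (w.1 + u) w.2 :=
    max_eq_left (le_min (by linarith) hBw)
  simp only [WW, hm]
  rcases le_total (w.1 + u) w.2 with hc | hc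
  · rw [min_eq_left hc, max_eq_right hc]
  · rw [min_eq_right hc, max_eq_left hc, add_comm (h w.2)]

private lemma JZero_HF {b D θ u : ℝ} {w : ℝ × ℝ} (hθ : 0 < θ) (hb : θ ≤ b) (hD : 0 ≤ D)
    (hu : 0 ≤ u) (h1 : w.1 ≤ w.2) :
    HF b D θ (min (w.1 + u) w.2, max (w.1 + u) w.2) ≤ Real.exp (b * u) * HF b D θ w := by
  have hb0 : 0 ≤ b := hθ.le.trans hb
  unfold HF
  rcases le_total (w.1 + u) w.2 with hc | hc
  · simp only [min_eq_left hc, max_eq_right hc]
    have e1 : Real.exp (b * (w.1 + u)) = Real.exp (b * u) * Real.exp (b * w.1) := by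
      rw [← Real.exp_add]; ring_nf
    have e2 : D ≤ Real.exp (b * u) * D :=
      le_mul_of_one_le_left hD (Real.one_le_exp (mul_nonneg hb0 hu))
    calc Real.exp (θ * w.2) * (Real.exp (b * (w.1 + u)) + D)
        ≤ Real.exp (θ * w.2) * (Real.exp (b * u) * Real.exp (b * w.1) +
            Real.exp (b * u) * D) :=
          mul_le_mul_of_nonneg_left (by rw [e1]; linarith) (Real.exp_nonneg _)
      _ = Real.exp (b * u) * (Real.exp (θ * w.2) * (Real.exp (b * w.1) + D)) := by ring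
  · simp only [min_eq_right hc, max_eq_left hc]
    have e1 : Real.exp (θ * (w.1 + u)) * Real.exp (b * w.2) ≤
        Real.exp (b * u) * Real.exp (θ * w.2) * Real.exp (b * w.1) := by
      rw [← Real.exp_add, ← Real.exp_add, ← Real.exp_add]
      apply Real.exp_le_exp.2
      nlinarith [mul_nonneg (sub_nonneg.2 hb) (sub_nonneg.2 hc)]
    have e2 : Real.exp (θ * (w.1 + u)) * D ≤ Real.exp (b * u) * Real.exp (θ * w.2) * D := by
      refine mul_le_mul_of_nonneg_right ?_ hD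
      rw [← Real.exp_add]
      apply Real.exp_le_exp.2
      nlinarith [mul_nonneg (sub_nonneg.2 hb) hu, mul_nonneg hθ.le (sub_nonneg.2 h1)]
    calc Real.exp (θ * (w.1 + u)) * (Real.exp (b * w.2) + D)
        = Real.exp (θ * (w.1 + u)) * Real.exp (b * w.2) + Real.exp (θ * (w.1 + u)) * D := by ring
      _ ≤ Real.exp (b * u) * Real.exp (θ * w.2) * Real.exp (b * w.1) +
          Real.exp (b * u) * Real.exp (θ * w.2) * D := add_le_add e1 e2
      _ = Real.exp (b * u) * (Real.exp (θ * w.2) * (Real.exp (b * w.1) + D)) := by ring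

/-- **A nonsmall job, one tilt**. `t = 0` without loss (`HF_mono`, `WW_mono`: `kwStep w u t` is
coordinatewise below `(min (w1+u) w2, max (w1+u) w2)`).
If `β θ u ≤ h u - s`: `HF (β θ) D θ (min (w1+u) w2, max (w1+u) w2) ≤ e^{β θ u} HF (β θ) D θ w`:
if `w1 + u ≤ w2` this is `e^{β(w1+u)} + D ≤ e^{β u}(e^{β w1} + D)`; if `w1+u > w2`:
`e^{θ(w1+u) + β w2} ≤ e^{θ w2 + β(w1+u)}` (`θ ≤ β`) and `D e^{θ(w1+u)} ≤ D e^{β u + θ w2}` (`w1 ≤ w2`). First alternative.
Otherwise `β θ > (h u - s)/u = h' u + (gg u - s)/u`. `WW h B (kwStep w u t) ≤ e^{h(w1+u) + h w2}`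
(both `w1+u ≥ B` and `w2 ≥ B`; sorted pairs), `h (w1+u) ≤ h u + w1 h' u` (tangent at `u`), and
`cT θ w ≥ e^{h w2 + β θ w1}` (`cT_ge`). Second alternative. -/
theorem J_zero (H : HazC h h') {β : ℝ → ℝ} {θ0 c C e D : ℝ} (P : Pot μ ν h β θ0 c C e)
    (hD : 0 ≤ D) {B u t s θ : ℝ} {w : ℝ × ℝ} (hB : 0 < B) (hBw : B ≤ w.2) (hBu : B ≤ u)
    (ht : 0 ≤ t) (hθ : 0 < θ) (hθ0 : θ ≤ θ0) (h0 : 0 ≤ w.1) (h1 : w.1 ≤ w.2) :
    VV h β D θ0 (kwStep w u t) ≤ ENNReal.ofReal (Real.exp (h u - s) * cT h β D θ w) ∨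
    WW h B (kwStep w u t) ≤
      ENNReal.ofReal (Real.exp (h u - w.1 * (gg h h' u - s) / u) * cT h β D θ w) := by
  have hu0 : 0 < u := lt_of_lt_of_le hB hBu
  have hlow := P.low θ hθ hθ0
  have hb : θ ≤ β θ := by nlinarith [P.pc, mul_pos P.pc hθ]
  have hb0 : 0 ≤ β θ := hθ.le.trans hb
  by_cases hc : β θ * u ≤ h u - s
  · left
    refine (VV_le β D hθ hθ0 _).trans (ENNReal.ofReal_le_ofReal ?_)
    have e1 : HF (β θ) D θ (kwStep w u t) ≤ Real.exp (h u - s) * HF (β θ) D θ w := by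
      calc HF (β θ) D θ (kwStep w u t)
          ≤ HF (β θ) D θ (min (w.1 + u) w.2, max (w.1 + u) w.2) :=
            HF_mono hb0 hD hθ.le (JZero_fst hu0.le ht h0 h1) (JZero_snd hu0.le ht h0 h1)
        _ ≤ Real.exp (β θ * u) * HF (β θ) D θ w := JZero_HF hθ hb hD hu0.le h1
        _ ≤ Real.exp (h u - s) * HF (β θ) D θ w :=
            mul_le_mul_of_nonneg_right (Real.exp_le_exp.2 hc)
              (mul_nonneg (Real.exp_nonneg _) (add_nonneg (Real.exp_nonneg _) hD))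
    unfold cT
    calc Real.exp (hG h θ) * HF (β θ) D θ (kwStep w u t)
        ≤ Real.exp (hG h θ) * (Real.exp (h u - s) * HF (β θ) D θ w) :=
          mul_le_mul_of_nonneg_left e1 (Real.exp_nonneg _)
      _ = Real.exp (h u - s) * (Real.exp (hG h θ) * HF (β θ) D θ w) := by ring
  · right
    push Not at hc
    refine (JZero_WW H hB hBw hBu ht h0 h1).trans (ENNReal.ofReal_le_ofReal ?_)
    have e1 := cT_ge H (β := β) hD hθ (w := w) (h0.trans h1)
    have e2 := H.tangent hu0 (show 0 ≤ u + w.1 by linarith)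
    rw [add_comm u w.1] at e2
    have e3 : h' u * w.1 + w.1 * (gg h h' u - s) / u ≤ β θ * w.1 := by
      have e4 : h' u * w.1 + w.1 * (gg h h' u - s) / u = w.1 * ((h u - s) / u) := by
        unfold gg
        field_simp
        ring
      rw [e4, mul_comm (β θ)]
      exact mul_le_mul_of_nonneg_left ((div_le_iff₀ hu0).2 hc.le) h0
    calc Real.exp (h (w.1 + u) + h w.2)
        ≤ Real.exp ((h u - w.1 * (gg h h' u - s) / u) + (h w.2 + β θ * w.1)) :=
          Real.exp_le_exp.2 (by linarith)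
      _ = Real.exp (h u - w.1 * (gg h h' u - s) / u) * Real.exp (h w.2 + β θ * w.1) :=
          Real.exp_add _ _
      _ ≤ _ := mul_le_mul_of_nonneg_left e1 (Real.exp_nonneg _)

/-- `h (w1 + u) ≤ h u - gg B + h (max w1 B)`: for `w1 ≥ B` by `add_gg_le` and `gg_mono`
(`min u w1 ≥ B`); for `w1 < B`: `h (w1+u) ≤ h u + w1 h' u ≤ h u + B h' B = h u + h B - gg B`. -/
theorem J_W (H : HazC h h') {B u t : ℝ} {w : ℝ × ℝ} (hB : 0 < B) (hBw : B ≤ w.2) (hBu : B ≤ u)
    (ht : 0 ≤ t) (h0 : 0 ≤ w.1) (h1 : w.1 ≤ w.2) :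
    WW h B (kwStep w u t) ≤ ENNReal.ofReal (Real.exp (h u - gg h h' B)) * WW h B w := by
  have hu0 : 0 < u := lt_of_lt_of_le hB hBu
  refine (JZero_WW H hB hBw hBu ht h0 h1).trans ?_
  unfold WW
  rw [← ENNReal.ofReal_mul (Real.exp_nonneg _), ← Real.exp_add]
  refine ENNReal.ofReal_le_ofReal (Real.exp_le_exp.2 ?_)
  rcases le_total B w.1 with hc | hc
  · rw [max_eq_left hc]
    rcases le_total w.1 u with hd | hd
    · have e1 := add_gg_le H (lt_of_lt_of_le hB hc) hd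
      have e2 := gg_mono H hB hc
      rw [add_comm u w.1] at e1
      linarith
    · have e1 := add_gg_le H hu0 hd
      have e2 := gg_mono H hB hBu
      linarith
  · rw [max_eq_right hc]
    have e2 := H.tangent hu0 (show 0 ≤ u + w.1 by linarith)
    rw [add_comm u w.1] at e2
    have e3 : h' u * w.1 ≤ h' B * B :=
      mul_le_mul (H.anti B u hB hBu) hc h0 (H.pos B hB).le
    unfold gg
    linarith

end Pool.Agent.Lib.MP_04add8_pr.Cv
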