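import Mathlib
import Pool.Agent.Lib.MP_04add8_pr.Cv.JZero

open MeasureTheory ProbabilityTheory Filter Topology
open scoped ENNReal

set_option linter.unusedSectionVars false

namespace Pool.Agent.Lib.MP_04add8_pr.Cv

open Pool.Agent.Lib.MP_04add8_pr.Gen

variable {h h' : ℝ → ℝ} {μ ν : Measure ℝ} [IsProbabilityMeasure μ]
  [IsProbabilityMeasure ν]

private theorem JComb_exp {a b c d : ℝ} (x : ℝ≥0∞) (hh : a + b ≤ c + d) :
    ENNReal.ofReal (Real.exp a) * (ENNReal.ofReal (Real.exp b) * x) ≤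
      ENNReal.ofReal (Real.exp c) * (ENNReal.ofReal (Real.exp d) * x) := by
  rw [← mul_assoc, ← mul_assoc, ← ENNReal.ofReal_mul (Real.exp_nonneg a),
    ← ENNReal.ofReal_mul (Real.exp_nonneg c), ← Real.exp_add, ← Real.exp_add]
  exact mul_le_mul_left (ENNReal.ofReal_le_ofReal (Real.exp_le_exp.2 hh)) x

/-- **A nonsmall job**, combined. If `UU g1 g2 w = e^{-g2} W`: `J_W` and `c3`. Otherwise for every
`θ ∈ (0, θ0]`, `J_zero` gives `UU g1' g2' (kwStep) ≤ e^{h u - γ} e^{-g1} cT θ w` (first alternative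
with `c1`, second with `c2`); take the infimum over `θ`. -/
theorem J_comb (H : HazC h h') {β : ℝ → ℝ} {θ0 c C e D : ℝ} (P : Pot μ ν h β θ0 c C e)
    (hD : 0 ≤ D) {B u t s γ g1 g2 g1' g2' : ℝ} {w : ℝ × ℝ} (hB : 0 < B) (hBw : B ≤ w.2)
    (hBu : B ≤ u) (ht : 0 ≤ t) (h0 : 0 ≤ w.1) (h1 : w.1 ≤ w.2)
    (c1 : γ + g1 ≤ s + g1') (c2 : γ + g1 ≤ w.1 * (gg h h' u - s) / u + g2')
    (c3 : γ + g2 ≤ gg h h' B + g2') :
    UU h β D θ0 g1' g2' B (kwStep w u t) ≤
      ENNReal.ofReal (Real.exp (h u - γ)) * UU h β D θ0 g1 g2 B w := by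
  have hne0 : ∀ x : ℝ, ENNReal.ofReal (Real.exp x) ≠ 0 := fun x =>
    (ENNReal.ofReal_pos.2 (Real.exp_pos x)).ne'
  -- the one-job side
  have hV : UU h β D θ0 g1' g2' B (kwStep w u t) ≤
      ENNReal.ofReal (Real.exp (h u - γ)) *
        (ENNReal.ofReal (Real.exp (-g1)) * VV h β D θ0 w) := by
    unfold VV
    rw [ENNReal.mul_iInf_of_ne (hne0 _) ENNReal.ofReal_ne_top,
      ENNReal.mul_iInf_of_ne (hne0 _) ENNReal.ofReal_ne_top]
    refine le_iInf fun θ => ?_
    rcases J_zero H P hD hB hBw hBu ht θ.2.1 θ.2.2 h0 h1 (s := s) (t := t) with hz | hz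
    · refine (min_le_left _ _).trans ?_
      refine (mul_le_mul_right hz _).trans ?_
      rw [ENNReal.ofReal_mul (Real.exp_nonneg _)]
      exact JComb_exp _ (by linarith)
    · refine (min_le_right _ _).trans ?_
      refine (mul_le_mul_right hz _).trans ?_
      rw [ENNReal.ofReal_mul (Real.exp_nonneg _)]
      exact JComb_exp _ (by linarith)
  -- the two-jobs side
  have hW : UU h β D θ0 g1' g2' B (kwStep w u t) ≤
      ENNReal.ofReal (Real.exp (h u - γ)) *
        (ENNReal.ofReal (Real.exp (-g2)) * WW h B w) := by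
    refine (min_le_right _ _).trans ?_
    refine (mul_le_mul_right (J_W H hB hBw hBu ht h0 h1) _).trans ?_
    exact JComb_exp _ (by linarith)
  unfold UU at hV hW ⊢
  rcases min_choice (ENNReal.ofReal (Real.exp (-g1)) * VV h β D θ0 w)
    (ENNReal.ofReal (Real.exp (-g2)) * WW h B w) with hm | hm
  · rw [hm]; exact hV
  · rw [hm]; exact hW

end Pool.Agent.Lib.MP_04add8_pr.Cv
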