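import Mathlib
import Pool.Agent.Lib.MP_04add8_pr.Cv.RV
import Pool.Agent.Lib.MP_04add8_pr.DriftInt

open MeasureTheory ProbabilityTheory Filter Topology
open scoped ENNReal

set_option linter.unusedSectionVars false

namespace Pool.Agent.Lib.MP_04add8_pr.Cv

open Pool.Agent.Lib.MP_04add8_pr.Gen

variable {h h' : ℝ → ℝ} {μ ν : Measure ℝ} [IsProbabilityMeasure μ]
  [IsProbabilityMeasure ν]

private lemma lawM_tail (H : HazC h h') {C : ℝ} (hC0 : 0 ≤ C)
    (hC : ∀ x : ℝ, μ (Set.Ioi x) ≤ ENNReal.ofReal (C * Real.exp (-(h x)))) (t : ℝ) :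
    μ {s : ℝ | t < h s} ≤ ENNReal.ofReal ((C + Real.exp (h 0)) * Real.exp (-t)) := by
  rcases lt_or_ge t (h 0) with ht | ht
  · have h1 : (1 : ℝ) ≤ (C + Real.exp (h 0)) * Real.exp (-t) := by
      have h2 : 1 ≤ Real.exp (h 0) * Real.exp (-t) := by
        rw [← Real.exp_add]
        exact Real.one_le_exp (by linarith)
      have h3 := mul_nonneg hC0 (Real.exp_pos (-t)).le
      nlinarith
    calc μ {s : ℝ | t < h s} ≤ 1 := prob_le_one
      _ = ENNReal.ofReal 1 := ENNReal.ofReal_one.symm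
      _ ≤ _ := ENNReal.ofReal_le_ofReal h1
  · obtain ⟨x1, hx1⟩ := (H.tendsto_h.eventually_ge_atTop t).exists
    obtain ⟨x, hx⟩ := mem_range_of_exists_le_of_exists_ge H.cont ⟨0, ht⟩ ⟨x1, hx1⟩
    have hsub : {s : ℝ | t < h s} ⊆ Set.Ioi x := by
      intro s hs
      by_contra hcon
      have h1 := H.mono (not_lt.1 hcon)
      rw [hx] at h1
      exact absurd (show t < h s from hs) (not_lt.2 h1)
    refine (measure_mono hsub).trans ((hC x).trans (ENNReal.ofReal_le_ofReal ?_))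
    rw [hx]
    exact mul_le_mul_of_nonneg_right (by linarith [Real.exp_pos (h 0)]) (Real.exp_pos _).le

private lemma lawM_exp (H : HazC h h') (L : Law μ h) {c : ℝ} (hc0 : 0 ≤ c) (hc1 : c < 1) :
    Integrable (fun s : ℝ => Real.exp (c * h s)) μ := by
  obtain ⟨C, hC0, hC⟩ := L.up
  have hcont := H.cont
  have hlc := lintegral_comp_eq_lintegral_meas_lt_mul μ (f := h)
    (g := fun t => c * Real.exp (c * t))
    (Eventually.of_forall H.nonneg) hcont.measurable.aemeasurable
    (by intro t ht; exact (by fun_prop : Continuous fun t => c * Real.exp (c * t)).intervalIntegrable _ _)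
    (by filter_upwards with t; positivity)
  have hint : ∀ u : ℝ, ∫ t in (0 : ℝ)..u, c * Real.exp (c * t) = Real.exp (c * u) - 1 := by
    intro u
    have : ∀ x ∈ Set.uIcc 0 u, HasDerivAt (fun t => Real.exp (c * t)) (c * Real.exp (c * x)) x := by
      intro x _
      have := ((hasDerivAt_id x).const_mul c).exp
      simpa [mul_comm] using this
    rw [intervalIntegral.integral_eq_sub_of_hasDerivAt this
      ((by fun_prop : Continuous fun t => c * Real.exp (c * t)).intervalIntegrable _ _)]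
    simp
  simp only [hint] at hlc
  set D : ℝ := (C + Real.exp (h 0)) * c with hD
  have hD0 : 0 ≤ D := by
    have := Real.exp_pos (h 0)
    positivity
  have hR : ∫⁻ t in Set.Ioi (0 : ℝ), μ {s : ℝ | t < h s} * ENNReal.ofReal (c * Real.exp (c * t))
      ≤ ∫⁻ t in Set.Ioi (0 : ℝ), ENNReal.ofReal (D * Real.exp (-(1 - c) * t)) := by
    apply lintegral_mono
    intro t
    refine (mul_le_mul_left (lawM_tail H hC0 hC t) _).trans (le_of_eq ?_)
    rw [← ENNReal.ofReal_mul (by
      have := Real.exp_pos (h 0)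
      have := Real.exp_pos (-t)
      positivity)]
    congr 1
    have e1 : Real.exp (-(1 - c) * t) = Real.exp (-t) * Real.exp (c * t) := by
      rw [← Real.exp_add]
      congr 1
      ring
    rw [e1, hD]
    ring
  have hfin : ∫⁻ t in Set.Ioi (0 : ℝ), ENNReal.ofReal (D * Real.exp (-(1 - c) * t)) < ⊤ := by
    have h1 : IntegrableOn (fun t : ℝ => D * Real.exp (-(1 - c) * t)) (Set.Ioi 0) :=
      (exp_neg_integrableOn_Ioi (b := 1 - c) 0 (by linarith)).const_mul D
    have h2 := h1.hasFiniteIntegral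
    rwa [hasFiniteIntegral_iff_ofReal (Eventually.of_forall fun t => by
      have := Real.exp_pos (-(1 - c) * t)
      exact mul_nonneg hD0 this.le)] at h2
  have hI : Integrable (fun s : ℝ => Real.exp (c * h s) - 1) μ := by
    refine ⟨(by fun_prop : Continuous fun s : ℝ => Real.exp (c * h s) - 1).aestronglyMeasurable, ?_⟩
    rw [hasFiniteIntegral_iff_ofReal (Eventually.of_forall fun s => by
      have h1 : 0 ≤ c * h s := mul_nonneg hc0 (H.nonneg s)
      have h2 := Real.one_le_exp h1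
      show 0 ≤ Real.exp (c * h s) - 1
      linarith)]
    rw [hlc]
    exact lt_of_le_of_lt hR hfin
  have h3 := hI.add (integrable_const (1 : ℝ))
  refine h3.congr (Eventually.of_forall fun s => ?_)
  simp

private lemma lawM_poly (H : HazC h h') (k : ℕ) {d : ℝ} (hd : 0 < d) :
    ∃ D : ℝ, 0 ≤ D ∧ ∀ s : ℝ, 0 ≤ s → s ^ k ≤ D * Real.exp (d * h s) := by
  obtain ⟨x1, hx1⟩ := (H.log_le (k / d)).exists_forall_of_atTop
  set x0 : ℝ := max x1 1 with hx0
  have hx01 : 1 ≤ x0 := le_max_right _ _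
  refine ⟨x0 ^ k, by positivity, ?_⟩
  intro s hs
  have h1 : 1 ≤ Real.exp (d * h s) := Real.one_le_exp (mul_nonneg hd.le (H.nonneg s))
  rcases le_total s x0 with h2 | h2
  · calc s ^ k ≤ x0 ^ k := pow_le_pow_left₀ hs h2 k
      _ ≤ x0 ^ k * Real.exp (d * h s) := le_mul_of_one_le_right (by positivity) h1
  · have hspos : 0 < s := by linarith
    have h3 := hx1 s ((le_max_left _ _).trans h2)
    have h4 : k * Real.log s ≤ d * h s := by
      have h5 := mul_le_mul_of_nonneg_left h3 hd.le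
      have h6 : d * (k / d * Real.log s) = k * Real.log s := by field_simp
      rwa [h6] at h5
    have h7 : s ^ k = Real.exp (k * Real.log s) := by
      rw [Real.exp_nat_mul, Real.exp_log hspos]
    rw [h7]
    calc Real.exp (k * Real.log s) ≤ Real.exp (d * h s) := Real.exp_le_exp.2 h4
      _ ≤ x0 ^ k * Real.exp (d * h s) :=
        le_mul_of_one_le_left (Real.exp_pos _).le (one_le_pow₀ hx01)

/-- all moments of `exp (c h)`, `c < 1`, with polynomial factors. Original: `Weibull.lean`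
(`weibull_lintegral_exp`, `weibull_integrable_pow`). Layer cake formula with
`μ (Ioi x) ≤ C exp (-h x)`; `s ^ k exp (c h s) ≤ C' exp (c' h s)`, `c < c' < 1`, by
`HazC.log_le`. Measurability: `h` is continuous. -/
theorem law_integrable (H : HazC h h') (L : Law μ h) {c : ℝ} (hc : c < 1) (k : ℕ) :
    Integrable (fun s : ℝ => s ^ k * Real.exp (c * h s)) μ := by
  have hcont := H.cont
  set c0 : ℝ := max c 0 with hc0
  have hc01 : c0 < 1 := max_lt hc one_pos
  have hc00 : 0 ≤ c0 := le_max_right _ _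
  obtain ⟨D, hD0, hD⟩ := lawM_poly H k (d := (1 - c0) / 2) (by linarith)
  have hI := (lawM_exp H L (c := (1 + c0) / 2) (by linarith) (by linarith)).const_mul D
  refine hI.mono' (by fun_prop : Continuous fun s : ℝ =>
    s ^ k * Real.exp (c * h s)).aestronglyMeasurable ?_
  filter_upwards [L.nn] with s hs
  rw [Real.norm_of_nonneg (mul_nonneg (pow_nonneg hs k) (Real.exp_pos _).le)]
  have h1 : Real.exp (c * h s) ≤ Real.exp (c0 * h s) :=
    Real.exp_le_exp.2 (mul_le_mul_of_nonneg_right (le_max_left _ _) (H.nonneg s))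
  calc s ^ k * Real.exp (c * h s) ≤ (D * Real.exp ((1 - c0) / 2 * h s)) * Real.exp (c0 * h s) :=
        mul_le_mul (hD s hs) h1 (Real.exp_pos _).le
          (mul_nonneg hD0 (Real.exp_pos _).le)
    _ = D * Real.exp ((1 + c0) / 2 * h s) := by
        rw [mul_assoc, ← Real.exp_add]
        congr 2
        ring

theorem law_integrable_exp (H : HazC h h') (L : Law μ h) {c : ℝ} (hc : c < 1) :
    Integrable (fun s : ℝ => Real.exp (c * h s)) μ := by
  have h1 := law_integrable H L hc 0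
  simpa using h1

theorem law_integrable_pow (H : HazC h h') (L : Law μ h) (k : ℕ) :
    Integrable (fun s : ℝ => s ^ k) μ := by
  have h1 := law_integrable H L (c := 0) one_pos k
  simpa using h1

lemma law_prod_nonneg (L : Law μ h) (hν : ν (Set.Iio 0) = 0) :
    ∀ᵐ p ∂(μ.prod ν), 0 ≤ p.1 ∧ 0 ≤ p.2 := by
  have h1 : ∀ᵐ p ∂(μ.prod ν), 0 ≤ p.1 := by
    have := (Measure.quasiMeasurePreserving_fst (μ := μ) (ν := ν)).ae L.nn
    exact this
  have h2 : ∀ᵐ p ∂(μ.prod ν), 0 ≤ p.2 := by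
    have := (Measure.quasiMeasurePreserving_snd (μ := μ) (ν := ν)).ae (ae_nonneg_of_Iio hν)
    exact this
  filter_upwards [h1, h2] with p hp1 hp2 using ⟨hp1, hp2⟩

lemma law_noise_nonneg (L : Law μ h) (hν : ν (Set.Iio 0) = 0) :
    ∀ᵐ z ∂(noise μ ν), ∀ k, 0 ≤ (z k).1 ∧ 0 ≤ (z k).2 := by
  exact ae_noise (p := fun p : ℝ × ℝ => 0 ≤ p.1 ∧ 0 ≤ p.2) (law_prod_nonneg L hν)

lemma law_path (L : Law μ h) (hν : ν (Set.Iio 0) = 0) {π : Measure (ℝ × ℝ)}
    (hπ : IsStationaryKW μ ν π) :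
    ∀ᵐ q ∂(π.prod (noise μ ν)), (0 ≤ q.1.1 ∧ q.1.1 ≤ q.1.2) ∧
      ∀ k, 0 ≤ (q.2 k).1 ∧ 0 ≤ (q.2 k).2 := by
  have hp : IsProbabilityMeasure π := hπ.1
  have h1 : ∀ᵐ q ∂(π.prod (noise μ ν)), 0 ≤ q.1.1 ∧ q.1.1 ≤ q.1.2 := by
    have := (Measure.quasiMeasurePreserving_fst (μ := π) (ν := noise μ ν)).ae hπ.ae_ordered
    exact this
  have h2 : ∀ᵐ q ∂(π.prod (noise μ ν)), ∀ k, 0 ≤ (q.2 k).1 ∧ 0 ≤ (q.2 k).2 := by
    have := (Measure.quasiMeasurePreserving_snd (μ := π) (ν := noise μ ν)).ae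
      (law_noise_nonneg L hν)
    exact this
  filter_upwards [h1, h2] with q hq1 hq2 using ⟨hq1, hq2⟩

/-- closed half lines: `Ici x ⊆ Ioi x'` for `x' < x`, continuity of `h` -/
lemma law_Ici (H : HazC h h') {C : ℝ}
    (hC : ∀ x : ℝ, μ (Set.Ioi x) ≤ ENNReal.ofReal (C * Real.exp (-(h x)))) (hC0 : 0 ≤ C) (x : ℝ) :
    μ (Set.Ici x) ≤ ENNReal.ofReal (C * Real.exp (-(h x))) := by
  have hcont := H.cont
  have hlim : Tendsto (fun n : ℕ => ENNReal.ofReal
      (C * Real.exp (-(h (x - 1 / ((n : ℝ) + 1)))))) atTop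
      (𝓝 (ENNReal.ofReal (C * Real.exp (-(h x))))) := by
    apply ENNReal.tendsto_ofReal
    have h1 : Tendsto (fun n : ℕ => x - 1 / ((n : ℝ) + 1)) atTop (𝓝 (x - 0)) :=
      tendsto_const_nhds.sub tendsto_one_div_add_atTop_nhds_zero_nat
    rw [sub_zero] at h1
    have h2 : Continuous fun y : ℝ => C * Real.exp (-(h y)) := by fun_prop
    exact (h2.tendsto x).comp h1
  refine ge_of_tendsto' hlim fun n => ?_
  refine le_trans (measure_mono ?_) (hC _)
  intro s hs
  have h3 : (0 : ℝ) < 1 / ((n : ℝ) + 1) := by positivity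
  have h4 : x ≤ s := hs
  show x - 1 / ((n : ℝ) + 1) < s
  linarith

end Pool.Agent.Lib.MP_04add8_pr.Cv
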