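import Mathlib
import Pool.Agent.Lib.MP_04add8_pr.Cv.GF
import Pool.Agent.Lib.MP_04add8_pr.Cv.LawM

open MeasureTheory ProbabilityTheory Filter Topology
open scoped ENNReal

set_option linter.unusedSectionVars false

namespace Pool.Agent.Lib.MP_04add8_pr.Cv

open Pool.Agent.Lib.MP_04add8_pr.Gen

variable {h h' : ℝ → ℝ} {μ ν : Measure ℝ} [IsProbabilityMeasure μ]
  [IsProbabilityMeasure ν]

private lemma MY_tail (H : HazC h h') {C : ℝ} (hC0 : 0 ≤ C)
    (hC : ∀ x : ℝ, μ (Set.Ioi x) ≤ ENNReal.ofReal (C * Real.exp (-(h x)))) (t : ℝ) :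
    μ {s : ℝ | t < h s} ≤ ENNReal.ofReal ((C + Real.exp (h 0)) * Real.exp (-t)) := by
  rcases lt_or_ge t (h 0) with ht | ht
  · have h1 : (1 : ℝ) ≤ (C + Real.exp (h 0)) * Real.exp (-t) := by
      have h2 : 1 ≤ Real.exp (h 0) * Real.exp (-t) := by
        rw [← Real.exp_add]
        exact Real.one_le_exp (by linarith)
      have h3 := mul_nonneg hC0 (Real.exp_pos (-t)).le
      nlinarith
    calc μ {s : ℝ | t < h s} ≤ 1 := prob_le_one
      _ = ENNReal.ofReal 1 := ENNReal.ofReal_one.symm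
      _ ≤ _ := ENNReal.ofReal_le_ofReal h1
  · obtain ⟨x1, hx1⟩ := (H.tendsto_h.eventually_ge_atTop t).exists
    obtain ⟨x, hx⟩ := mem_range_of_exists_le_of_exists_ge H.cont ⟨0, ht⟩ ⟨x1, hx1⟩
    have hsub : {s : ℝ | t < h s} ⊆ Set.Ioi x := by
      intro s hs
      by_contra hcon
      have h1 := H.mono (not_lt.1 hcon)
      rw [hx] at h1
      exact absurd (show t < h s from hs) (not_lt.2 h1)
    refine (measure_mono hsub).trans ((hC x).trans (ENNReal.ofReal_le_ofReal ?_))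
    rw [hx]
    exact mul_le_mul_of_nonneg_right (by linarith [Real.exp_pos (h 0)]) (Real.exp_pos _).le

private lemma MY_aux (H : HazC h h') {C : ℝ} (hC0 : 0 ≤ C)
    (hC : ∀ x : ℝ, μ (Set.Ioi x) ≤ ENNReal.ofReal (C * Real.exp (-(h x)))) {Y : ℝ} (hY : 0 ≤ Y) :
    ∫⁻ s, (Set.Iic Y).indicator (fun _ => (1 : ℝ≥0∞)) s * ENNReal.ofReal (Real.exp (h s)) ∂μ ≤
      ENNReal.ofReal (1 + (C + Real.exp (h 0)) * h Y) := by
  have hcont := H.cont
  have hYn := H.nonneg Y
  have hE := Real.exp_pos (h 0)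
  have hf0 : ∀ s, 0 ≤ min (h s) (h Y) := fun s => le_min (H.nonneg s) hYn
  have hfm : Measurable fun s : ℝ => min (h s) (h Y) := by
    exact (hcont.min continuous_const).measurable
  have hlc := lintegral_comp_eq_lintegral_meas_lt_mul μ (f := fun s => min (h s) (h Y))
    (g := fun t => Real.exp t)
    (Eventually.of_forall hf0) hfm.aemeasurable
    (by intro t ht; exact Real.continuous_exp.intervalIntegrable _ _)
    (by filter_upwards with t; exact (Real.exp_pos t).le)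
  simp only [integral_exp, Real.exp_zero] at hlc
  have hR : ∫⁻ t in Set.Ioi (0 : ℝ), μ {s : ℝ | t < min (h s) (h Y)} *
      ENNReal.ofReal (Real.exp t) ≤ ENNReal.ofReal ((C + Real.exp (h 0)) * h Y) := by
    calc ∫⁻ t in Set.Ioi (0 : ℝ), μ {s : ℝ | t < min (h s) (h Y)} * ENNReal.ofReal (Real.exp t)
        ≤ ∫⁻ t in Set.Ioi (0 : ℝ), (Set.Iio (h Y)).indicator
            (fun _ => ENNReal.ofReal (C + Real.exp (h 0))) t := by
          apply lintegral_mono
          intro t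
          by_cases ht : t < h Y
          · rw [Set.indicator_of_mem (by exact ht)]
            have h1 : μ {s : ℝ | t < min (h s) (h Y)} ≤
                ENNReal.ofReal ((C + Real.exp (h 0)) * Real.exp (-t)) := by
              have h0 : {s : ℝ | t < min (h s) (h Y)} ⊆ {s : ℝ | t < h s} := fun s hs =>
                lt_of_lt_of_le (show t < min (h s) (h Y) from hs) (min_le_left _ _)
              exact (measure_mono h0).trans (MY_tail H hC0 hC t)
            refine (mul_le_mul_left h1 _).trans (le_of_eq ?_)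
            rw [← ENNReal.ofReal_mul (by positivity)]
            congr 1
            rw [mul_assoc, ← Real.exp_add]
            simp
          · have h2 : {s : ℝ | t < min (h s) (h Y)} = ∅ := by
              ext s
              simp only [Set.mem_setOf_eq, Set.mem_empty_iff_false, iff_false, not_lt]
              exact (min_le_right _ _).trans (not_lt.1 ht)
            show μ {s : ℝ | t < min (h s) (h Y)} * ENNReal.ofReal (Real.exp t) ≤ _
            rw [h2]
            simp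
      _ = ∫⁻ t in Set.Ioi (0 : ℝ) ∩ Set.Iio (h Y), ENNReal.ofReal (C + Real.exp (h 0)) := by
          rw [lintegral_indicator measurableSet_Iio, Measure.restrict_restrict measurableSet_Iio,
            Set.inter_comm]
      _ = ENNReal.ofReal (C + Real.exp (h 0)) * ENNReal.ofReal (h Y) := by
          rw [setLIntegral_const, Set.Ioi_inter_Iio, Real.volume_Ioo, sub_zero]
      _ = ENNReal.ofReal ((C + Real.exp (h 0)) * h Y) := by
          rw [← ENNReal.ofReal_mul (by positivity)]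
      _ ≤ _ := le_rfl
  have hpt : ∀ s : ℝ, (Set.Iic Y).indicator (fun _ => (1 : ℝ≥0∞)) s *
      ENNReal.ofReal (Real.exp (h s)) ≤ 1 + ENNReal.ofReal (Real.exp (min (h s) (h Y)) - 1) := by
    intro s
    by_cases hs : s ≤ Y
    · rw [Set.indicator_of_mem (by exact hs), one_mul]
      have h1 : min (h s) (h Y) = h s := min_eq_left (H.mono hs)
      rw [h1, ← ENNReal.ofReal_one, ← ENNReal.ofReal_add zero_le_one (by
        linarith [Real.one_le_exp (H.nonneg s)])]
      apply ENNReal.ofReal_le_ofReal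
      linarith
    · rw [Set.indicator_of_notMem (by exact hs)]
      simp
  calc ∫⁻ s, (Set.Iic Y).indicator (fun _ => (1 : ℝ≥0∞)) s * ENNReal.ofReal (Real.exp (h s)) ∂μ
      ≤ ∫⁻ s, (1 + ENNReal.ofReal (Real.exp (min (h s) (h Y)) - 1)) ∂μ := lintegral_mono hpt
    _ = 1 + ∫⁻ s, ENNReal.ofReal (Real.exp (min (h s) (h Y)) - 1) ∂μ := by
        rw [lintegral_add_left measurable_const]
        simp
    _ ≤ 1 + ENNReal.ofReal ((C + Real.exp (h 0)) * h Y) := by
        rw [hlc]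
        gcongr
    _ = ENNReal.ofReal (1 + (C + Real.exp (h 0)) * h Y) := by
        rw [ENNReal.ofReal_add zero_le_one (by positivity), ENNReal.ofReal_one]

/-- For `k ∈ ℕ`, `μ {s | h s ≥ k} ≤ C e^{-k}` (`{h ≥ k}` is a closed half line or everything;
`law_Ici`), and `e^{h s} ≤ Σ_{k ≤ h s} e^{k+1}`-type bound: `e^{h s} ≤ e (1 + Σ_{k=1}^{⌊h s⌋} (e^k - e^{k-1}))`.
So `∫_{s ≤ Y} e^{h} dμ ≤ e (1 + Σ_{k=1}^{⌊h Y⌋} e^k μ(h ≥ k)) ≤ e (1 + C h Y)`. -/
theorem law_exp_trunc (H : HazC h h') (L : Law μ h) : ∃ C : ℝ, 1 ≤ C ∧ ∀ Y : ℝ, 0 ≤ Y →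
    ∫⁻ s, (Set.Iic Y).indicator (fun _ => (1 : ℝ≥0∞)) s * ENNReal.ofReal (Real.exp (h s)) ∂μ ≤
      ENNReal.ofReal (C * (1 + h Y)) := by
  obtain ⟨C, hC0, hC⟩ := L.up
  have hE := Real.exp_pos (h 0)
  refine ⟨1 + (C + Real.exp (h 0)), by linarith, fun Y hY => ?_⟩
  refine (MY_aux H hC0 hC hY).trans (ENNReal.ofReal_le_ofReal ?_)
  have h1 := H.nonneg Y
  nlinarith

/-- with `h Y ≤ C (1 + Y)` -/
theorem law_exp_trunc_lin (H : HazC h h') (L : Law μ h) : ∃ C : ℝ, 1 ≤ C ∧ ∀ Y : ℝ, 0 ≤ Y →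
    ∫⁻ s, (Set.Iic Y).indicator (fun _ => (1 : ℝ≥0∞)) s * ENNReal.ofReal (Real.exp (h s)) ∂μ ≤
      ENNReal.ofReal (C * (1 + Y)) := by
  obtain ⟨C, hC1, hC⟩ := law_exp_trunc (μ := μ) H L
  obtain ⟨D, hD1, hD⟩ := h_lin H
  refine ⟨C * (1 + D), by nlinarith, fun Y hY => ?_⟩
  refine (hC Y hY).trans (ENNReal.ofReal_le_ofReal ?_)
  have h1 := hD Y hY
  have h2 : 1 + h Y ≤ (1 + D) * (1 + Y) := by nlinarith
  calc C * (1 + h Y) ≤ C * ((1 + D) * (1 + Y)) :=
        mul_le_mul_of_nonneg_left h2 (by linarith)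
    _ = C * (1 + D) * (1 + Y) := by ring

end Pool.Agent.Lib.MP_04add8_pr.Cv
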