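import Mathlib
import Pool.Agent.Lib.MP_04add8_pr.Cv.GF

open MeasureTheory ProbabilityTheory Filter Topology
open scoped ENNReal

set_option linter.unusedSectionVars false

namespace Pool.Agent.Lib.MP_04add8_pr.Cv

open Pool.Agent.Lib.MP_04add8_pr.Gen

variable {h h' : ℝ → ℝ} {μ ν : Measure ℝ} [IsProbabilityMeasure μ]
  [IsProbabilityMeasure ν]

/-- With `φ(Λ y) = Λ y h' (Λ y) ≥ 2 a Λ` (true for `y ≥ v1`), i.e. `h' (Λ y) ≥ 2 a / y`.
For `0 ≤ z ≤ Λ y`: `h (Λ y) - h z ≥ (Λ y - z) h' (Λ y) ≥ (Λ y - z) 2 a / y`, so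
`h z - 2 a z / y ≤ h (Λ y) - 2 a Λ = (h (Λ y) - (a/y) (Λ y)) - a Λ ≤ hG (a/y) - a Λ`.
For `z ≥ Λ y`: `h z - 2 a z / y = (h z - a z / y) - a z / y ≤ hG (a/y) - a Λ`. Take the supremum
over `z` (`csSup_le`). -/
theorem hG_near (H : HazC h h') {a Λ : ℝ} (ha : 0 < a) (hΛ : 1 ≤ Λ) :
    ∃ v1 : ℝ, 0 < v1 ∧ ∀ y : ℝ, v1 ≤ y → hG h (2 * a / y) + a * Λ ≤ hG h (a / y) := by
  obtain ⟨x1, hx1⟩ := (H.big.eventually_ge_atTop (2 * a * Λ)).exists_forall_of_atTop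
  refine ⟨max x1 1, lt_of_lt_of_le one_pos (le_max_right _ _), fun y hy => ?_⟩
  have hy1 : 1 ≤ y := (le_max_right _ _).trans hy
  have hy0 : 0 < y := by linarith
  have hx : x1 ≤ y := (le_max_left _ _).trans hy
  have hΛ0 : 0 < Λ := by linarith
  have hyΛ : y ≤ Λ * y := by nlinarith
  have hYpos : 0 < Λ * y := mul_pos hΛ0 hy0
  have hbig : 2 * a * Λ ≤ Λ * y * h' (Λ * y) := hx1 (Λ * y) (hx.trans hyΛ)
  -- `h' (Λ y) ≥ 2 a / y`
  have hder : 2 * a / y ≤ h' (Λ * y) := by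
    rw [div_le_iff₀ hy0]
    have h1 : Λ * (2 * a) ≤ Λ * (h' (Λ * y) * y) := by
      calc Λ * (2 * a) = 2 * a * Λ := by ring
        _ ≤ Λ * y * h' (Λ * y) := hbig
        _ = Λ * (h' (Λ * y) * y) := by ring
    exact le_of_mul_le_mul_left h1 hΛ0
  have ht1 : 0 < a / y := div_pos ha hy0
  have hkey : ∀ z : ℝ, 0 ≤ z → h z - 2 * a / y * z ≤ hG h (a / y) - a * Λ := by
    intro z hz
    have e2 : 2 * a / y = 2 * (a / y) := by ring
    rcases le_total z (Λ * y) with h0 | h0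
    · have h1 := H.lower_deriv hz h0 hYpos
      have h2 : (Λ * y - z) * (2 * a / y) ≤ (Λ * y - z) * h' (Λ * y) :=
        mul_le_mul_of_nonneg_left hder (sub_nonneg.2 h0)
      have h3 := hG_ge H ht1 hYpos.le
      have h4 : a / y * (Λ * y) = a * Λ := by field_simp
      have h5 : (Λ * y - z) * (2 * a / y) = 2 * (a / y * (Λ * y)) - 2 * a / y * z := by ring
      rw [h4] at h3 h5
      linarith
    · have h3 := hG_ge H ht1 hz
      have h4 : a / y * (Λ * y) = a * Λ := by field_simp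
      have h5 : a / y * (Λ * y) ≤ a / y * z := mul_le_mul_of_nonneg_left h0 ht1.le
      rw [h4] at h5
      have h6 : 2 * a / y * z = a / y * z + a / y * z := by ring
      linarith
  have hsup : hG h (2 * a / y) ≤ hG h (a / y) - a * Λ := by
    unfold hG
    refine csSup_le ⟨_, ⟨0, Set.mem_Ici.2 le_rfl, rfl⟩⟩ ?_
    rintro _ ⟨z, hz, rfl⟩
    exact hkey z hz
  linarith

end Pool.Agent.Lib.MP_04add8_pr.Cv
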