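import Mathlib
import Pool.Agent.Lib.MP_04add8_pr.Cv.DefsP
import Pool.Agent.Lib.MP_04add8_pr.Cv.LawM

/-!
Elementary facts about the Laplace transform `lap ν θ = ∫ t, exp (-(θ t)) ∂ν` of the interarrival law.
-/

open MeasureTheory ProbabilityTheory Filter Topology
open scoped ENNReal

set_option linter.unusedSectionVars false

namespace Pool.Agent.Lib.MP_04add8_pr.Cv

open Pool.Agent.Lib.MP_04add8_pr.Gen

variable {h h' : ℝ → ℝ} {μ ν : Measure ℝ} [IsProbabilityMeasure μ]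
  [IsProbabilityMeasure ν]

private lemma lapl_meas (θ : ℝ) : Continuous fun t : ℝ => Real.exp (-(θ * t)) := by fun_prop

private lemma lapl_bd (hν : ν (Set.Iio 0) = 0) {θ : ℝ} (hθ : 0 ≤ θ) :
    ∀ᵐ t ∂ν, 0 ≤ t ∧ Real.exp (-(θ * t)) ≤ 1 := by
  filter_upwards [ae_nonneg_of_Iio hν] with t ht
  refine ⟨ht, ?_⟩
  rw [Real.exp_le_one_iff]
  have := mul_nonneg hθ ht
  linarith

private lemma lapl_int (hν : ν (Set.Iio 0) = 0) {θ : ℝ} (hθ : 0 ≤ θ) :
    Integrable (fun t : ℝ => Real.exp (-(θ * t))) ν := by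
  refine (integrable_const (1 : ℝ)).mono' (lapl_meas θ).aestronglyMeasurable ?_
  filter_upwards [lapl_bd hν hθ] with t ht
  rw [Real.norm_of_nonneg (Real.exp_pos _).le]
  exact ht.2

private lemma lapl_one_sub (hν : ν (Set.Iio 0) = 0) {θ : ℝ} (hθ : 0 ≤ θ) :
    1 - lap ν θ = ∫ t, (1 - Real.exp (-(θ * t))) ∂ν := by
  rw [integral_sub (integrable_const _) (lapl_int hν hθ)]
  simp [lap]

private lemma lapl_one_sub_lint (hν : ν (Set.Iio 0) = 0) {θ : ℝ} (hθ : 0 ≤ θ) :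
    ENNReal.ofReal (1 - lap ν θ) = ∫⁻ t, ENNReal.ofReal (1 - Real.exp (-(θ * t))) ∂ν := by
  rw [lapl_one_sub hν hθ]
  apply ofReal_integral_eq_lintegral_ofReal
  · exact (integrable_const _).sub (lapl_int hν hθ)
  · filter_upwards [lapl_bd hν hθ] with t ht
    show (0 : ℝ) ≤ 1 - Real.exp (-(θ * t))
    linarith [ht.2]

/-- the Laplace transform as a lower integral (`0 ≤ t` a.e., the integrand is `≤ 1`) -/
theorem lap_lintegral (hν : ν (Set.Iio 0) = 0) {θ : ℝ} (hθ : 0 ≤ θ) :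
    ∫⁻ t, ENNReal.ofReal (Real.exp (-(θ * t))) ∂ν = ENNReal.ofReal (lap ν θ) := by
  refine (ofReal_integral_eq_lintegral_ofReal (lapl_int hν hθ) ?_).symm
  exact Eventually.of_forall fun t => (Real.exp_pos _).le

theorem lap_le_one (hν : ν (Set.Iio 0) = 0) {θ : ℝ} (hθ : 0 ≤ θ) : lap ν θ ≤ 1 := by
  have h1 : ∫ t, Real.exp (-(θ * t)) ∂ν ≤ ∫ _t : ℝ, (1 : ℝ) ∂ν := by
    apply integral_mono_ae (lapl_int hν hθ) (integrable_const _)
    filter_upwards [lapl_bd hν hθ] with t ht using ht.2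
  simpa [lap] using h1

theorem lap_pos (hν : ν (Set.Iio 0) = 0) {θ : ℝ} (hθ : 0 ≤ θ) : 0 < lap ν θ := by
  have h1 := integral_exp_pos (μ := ν) (f := fun t : ℝ => -(θ * t)) (lapl_int hν hθ)
  exact h1

/-- `1 - e^{-x} ≥ x e^{-x}` integrated -/
theorem lap_mul_le (hν : ν (Set.Iio 0) = 0) {θ : ℝ} (hθ : 0 ≤ θ) :
    ∫⁻ t, ENNReal.ofReal (θ * (t * Real.exp (-(θ * t)))) ∂ν ≤ ENNReal.ofReal (1 - lap ν θ) := by
  rw [lapl_one_sub_lint hν hθ]
  apply lintegral_mono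
  intro t
  apply ENNReal.ofReal_le_ofReal
  have h1 := Real.add_one_le_exp (θ * t)
  have h2 : Real.exp (θ * t) * Real.exp (-(θ * t)) = 1 := by
    rw [← Real.exp_add]
    simp
  have h3 := mul_le_mul_of_nonneg_right h1 (Real.exp_pos (-(θ * t))).le
  rw [h2] at h3
  nlinarith

/-- `1 - e^{-θ t} ≥ (1 - e^{-θ y}) 1{t > y}` integrated -/
theorem lap_tail (hν : ν (Set.Iio 0) = 0) {θ y : ℝ} (hθ : 0 ≤ θ) (hy : 0 ≤ y) :
    ν (Set.Ioi y) * ENNReal.ofReal (1 - Real.exp (-(θ * y))) ≤ ENNReal.ofReal (1 - lap ν θ) := by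
  rw [lapl_one_sub_lint hν hθ, mul_comm, ← lintegral_indicator_const measurableSet_Ioi]
  apply lintegral_mono_ae
  filter_upwards [lapl_bd hν hθ] with t ht
  by_cases h1 : t ∈ Set.Ioi y
  · rw [Set.indicator_of_mem h1]
    apply ENNReal.ofReal_le_ofReal
    have h2 : y < t := h1
    have h3 : Real.exp (-(θ * t)) ≤ Real.exp (-(θ * y)) := by
      apply Real.exp_le_exp.2
      have := mul_le_mul_of_nonneg_left h2.le hθ
      linarith
    linarith
  · rw [Set.indicator_of_notMem h1]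
    exact bot_le

/-- `1 - e^{-θ t} ≥ (θ/θ0) (1 - e^{-θ0 t})` for `0 ≤ θ ≤ θ0` (concavity), and
`1 - lap ν θ0 > 0` because `∫ t ∂ν > 0` -/
theorem lap_lin (hν : ν (Set.Iio 0) = 0) (hm : 0 < ∫ t, t ∂ν) {θ0 : ℝ} (h0 : 0 < θ0) :
    ∃ cL : ℝ, 0 < cL ∧ ∀ θ : ℝ, 0 < θ → θ ≤ θ0 → cL * θ ≤ 1 - lap ν θ := by
  have hpos : 0 < 1 - lap ν θ0 := by
    have hnn : 0 ≤ᵐ[ν] fun t : ℝ => 1 - Real.exp (-(θ0 * t)) := by
      filter_upwards [lapl_bd hν h0.le] with t ht
      show (0 : ℝ) ≤ 1 - Real.exp (-(θ0 * t))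
      linarith [ht.2]
    have hI : Integrable (fun t : ℝ => 1 - Real.exp (-(θ0 * t))) ν :=
      (integrable_const _).sub (lapl_int hν h0.le)
    have h1 : 0 ≤ 1 - lap ν θ0 := by
      have := lap_le_one hν h0.le
      linarith
    rcases h1.lt_or_eq with h2 | h2
    · exact h2
    · exfalso
      rw [lapl_one_sub hν h0.le] at h2
      have h3 := (integral_eq_zero_iff_of_nonneg_ae hnn hI).1 h2.symm
      have h4 : (fun t : ℝ => t) =ᵐ[ν] fun _ => (0 : ℝ) := by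
        filter_upwards [h3] with t ht
        have h5 : 1 - Real.exp (-(θ0 * t)) = 0 := ht
        have h6 : Real.exp (-(θ0 * t)) = 1 := by linarith
        rw [Real.exp_eq_one_iff] at h6
        have h7 : θ0 * t = 0 := by linarith
        rcases mul_eq_zero.1 h7 with h8 | h8
        · exact absurd h8 h0.ne'
        · exact h8
      rw [integral_congr_ae h4] at hm
      simp at hm
  refine ⟨(1 - lap ν θ0) / θ0, by positivity, ?_⟩
  intro θ hθ hle
  have hl : 0 ≤ θ / θ0 := by positivity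
  have hl1 : θ / θ0 ≤ 1 := by
    rw [div_le_one h0]
    exact hle
  have h1 : ∫ t, (θ / θ0) * (1 - Real.exp (-(θ0 * t))) ∂ν
      ≤ ∫ t, (1 - Real.exp (-(θ * t))) ∂ν := by
    apply integral_mono_ae
    · exact ((integrable_const _).sub (lapl_int hν h0.le)).const_mul _
    · exact (integrable_const _).sub (lapl_int hν hθ.le)
    · refine Eventually.of_forall fun t => ?_
      show (θ / θ0) * (1 - Real.exp (-(θ0 * t))) ≤ 1 - Real.exp (-(θ * t))
      have h2 := convexOn_exp.2 (Set.mem_univ (0 : ℝ)) (Set.mem_univ (-(θ0 * t)))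
        (sub_nonneg.2 hl1) hl (by ring : (1 - θ / θ0) + θ / θ0 = 1)
      simp only [smul_eq_mul, Real.exp_zero, mul_zero, mul_one, zero_add] at h2
      have h3 : θ / θ0 * (-(θ0 * t)) = -(θ * t) := by field_simp
      rw [h3] at h2
      linarith
  rw [integral_const_mul, ← lapl_one_sub hν h0.le, ← lapl_one_sub hν hθ.le] at h1
  calc (1 - lap ν θ0) / θ0 * θ = θ / θ0 * (1 - lap ν θ0) := by ring
    _ ≤ 1 - lap ν θ := h1

end Pool.Agent.Lib.MP_04add8_pr.Cv
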