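import Mathlib
import Pool.Agent.Lib.MP_04add8_pr.Cv.Lapl
import Pool.Agent.Lib.MP_04add8_pr.Cv.RV

/-!
`HF β D θ w = e^{θ w2} (e^{β w1} + D)`, `L = lap ν θ`, `Ce = ∫ e^{h/4} dμ ≥ 1` (finite by `law_integrable_exp`).
`C8 = max 1 (2 log 2) (2 log (D/c)) (2 log (16 Ce))`.
Let `s ≤ B`, `s, t ≥ 0` (a.e. by `law_prod_nonneg`), `X = (w1+s-t)^+`, `Y = (w2-t)^+`, so that
`kwStep w s t = (min X Y, max X Y)`. By `Tilt h β B` and `θ ≤ β`: `e^{θ s} ≤ e^{β s} ≤ e^{h(s)/4}`.
Pointwise `HF (kwStep w s t) ≤ T1 + T2 + T3 + T4` where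
  T1 = e^{θ w2 + β w1} e^{β (s - t) - θ t},   T2 = D e^{θ w2} e^{-θ t},
  T3 = e^{θ w2} β t e^{-θ t},                T4 = 1{t > w2/2} (1 + D) e^{β s} e^{θ w2/2}.
* t ≤ w2/2 and X ≤ Y (then Y = w2 - t): HF = e^{θ Y + β X} + D e^{θ Y}. The second is T2. If w1+s ≥ t the first
  is T1. Otherwise X = 0 and it is e^{θ(w2-t)} = e^{θ (w2-t)} e^{-β (t-w1-s)} + e^{θ(w2-t)} (1 - e^{-β (t-w1-s)})
  ≤ T1 + e^{θ(w2-t)} β t = T1 + T3 (1 - e^{-x} ≤ x, t - w1 - s ≤ t).
* t ≤ w2/2 and X > Y (so X = w1+s-t, Y = w2-t, r = X - Y > 0): HF = e^{θ X}(e^{β Y} + D) ≤ e^{θ Y + β X} + D e^{θ Y}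
  = T1 + T2, because e^{β Y}(e^{β r} - e^{θ r}) ≥ e^{β Y} e^{θ r} (e^{(β-θ) r} - 1) ≥ e^{β Y} e^{θ r} c θ r
  ≥ e^{β Y} c (e^{θ r} - 1) ≥ D (e^{θ r} - 1); used: β - θ ≥ c θ, e^x - 1 ≤ x e^x, and
  β Y ≥ θ w2/2 ≥ C8/2 ≥ log (D/c).  (Multiply by e^{θ Y}: e^{θY+βX} - e^{θX+βY} = e^{(θ+β)Y}(e^{βr}-e^{θr}).)
* t > w2/2: e^{θ max + β min} ≤ e^{θ Y + β X} (β ≥ θ). If w1+s ≥ t and w2 ≥ t this is T1. If w2 ≥ t > w1+s: X = 0,
  e^{θ Y} ≤ e^{θ w2/2}. If t > w2: Y = 0, X ≤ s, e^{β X} ≤ e^{β s}. Moreover D e^{θ max X Y} ≤ D e^{θ w2/2} e^{β s}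
  (X ≤ w2/2 + s, Y ≤ w2/2). So HF ≤ T1 + T4.
Integrals over {s ≤ B}: ∫T1 = e^{θ w2 + β w1} trPhi ≤ (1 - e θ) e^{θ w2+β w1}. ∫T2 ≤ D e^{θ w2} L.
∫T3 ≤ e^{θ w2} (β/θ) (1 - L) ≤ (D/4) (1-L) e^{θ w2} (`lap_mul_le`, β ≤ Cθ ≤ (D/4) θ).
∫T4 ≤ (1+D) Ce e^{θ w2/2} ν(t > w2/2), and ν(t > w2/2) (1 - e^{-θ w2/2}) ≤ 1 - L (`lap_tail`), 1 - e^{-θ w2/2} ≥ 1/2, so
∫T4 ≤ 2 (1+D) Ce e^{θ w2/2} (1-L) ≤ (D/4) (1-L) e^{θ w2} as e^{θ w2/2} ≥ 16 Ce ≥ 8 (1+D) Ce / D (D ≥ 4).
Sum ≤ (1-eθ) e^{θ w2+β w1} + D e^{θ w2} (L + (1-L)/2) = (1-eθ)(..) + D e^{θ w2} (1 - (1-L)/2) ≤ (1 - eθ) HF w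
because eθ ≤ (1-L)/2.
-/

open MeasureTheory ProbabilityTheory Filter Topology
open scoped ENNReal

set_option linter.unusedSectionVars false

namespace Pool.Agent.Lib.MP_04add8_pr.Cv

open Pool.Agent.Lib.MP_04add8_pr.Gen

variable {h h' : ℝ → ℝ} {μ ν : Measure ℝ} [IsProbabilityMeasure μ]
  [IsProbabilityMeasure ν]

/-- the pointwise bound -/
private lemma vOne_pt {c D β θ s t : ℝ} {w : ℝ × ℝ} (hc : 0 < c) (hD : 0 < D) (hθ : 0 < θ)
    (hβ : (1 + c) * θ ≤ β) (hs : 0 ≤ s) (ht : 0 ≤ t) (h1 : 0 ≤ w.1) (h2 : w.1 ≤ w.2)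
    (hL : D ≤ c * Real.exp (θ * w.2 / 2)) :
    HF β D θ (kwStep w s t) ≤
      Real.exp (θ * w.2 + β * w.1) * Real.exp (β * (s - t) - θ * t) +
      D * Real.exp (θ * w.2) * Real.exp (-(θ * t)) +
      Real.exp (θ * w.2) * (β * (t * Real.exp (-(θ * t)))) +
      (if w.2 / 2 < t then (1 + D) * Real.exp (θ * w.2 / 2) * Real.exp (β * s) else 0) := by
  have hcθ : 0 < c * θ := mul_pos hc hθ
  have hβ0 : 0 < β := by nlinarith
  have hθβ : θ ≤ β := by nlinarith
  have hw2 : 0 ≤ w.2 := h1.trans h2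
  set X : ℝ := max (w.1 + s - t) 0 with hX
  set Y : ℝ := max (w.2 - t) 0 with hY
  have hX0 : 0 ≤ X := le_max_right _ _
  have hY0 : 0 ≤ Y := le_max_right _ _
  have hkw : kwStep w s t = (min X Y, max X Y) := rfl
  have hHF : HF β D θ (kwStep w s t) =
      Real.exp (θ * max X Y + β * min X Y) + D * Real.exp (θ * max X Y) := by
    rw [hkw, HF, mul_add, Real.exp_add]
    ring
  have hT1 : Real.exp (θ * w.2 + β * w.1) * Real.exp (β * (s - t) - θ * t) =
      Real.exp (θ * (w.2 - t) + β * (w.1 + s - t)) := by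
    rw [← Real.exp_add]
    congr 1
    ring
  have hT2 : D * Real.exp (θ * w.2) * Real.exp (-(θ * t)) = D * Real.exp (θ * (w.2 - t)) := by
    rw [mul_assoc, ← Real.exp_add]
    congr 2
    ring
  have hT3 : Real.exp (θ * w.2) * (β * (t * Real.exp (-(θ * t)))) =
      Real.exp (θ * (w.2 - t)) * (β * t) := by
    have : Real.exp (θ * (w.2 - t)) = Real.exp (θ * w.2) * Real.exp (-(θ * t)) := by
      rw [← Real.exp_add]
      congr 1
      ring
    rw [this]
    ring
  have hT3n : 0 ≤ Real.exp (θ * (w.2 - t)) * (β * t) := by positivity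
  rw [hHF, hT1, hT2, hT3]
  rcases le_or_gt t (w.2 / 2) with ht2 | ht2
  · rw [if_neg (not_lt.2 ht2), add_zero]
    have hYe : Y = w.2 - t := by
      rw [hY]
      exact max_eq_left (by linarith)
    rcases le_or_gt X Y with hXY | hXY
    · rw [max_eq_right hXY, min_eq_left hXY, hYe]
      rcases le_total t (w.1 + s) with hts | hts
      · have hXe : X = w.1 + s - t := by
          rw [hX]
          exact max_eq_left (by linarith)
        rw [hXe]
        linarith
      · have hXe : X = 0 := by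
          rw [hX]
          exact max_eq_right (by linarith)
        rw [hXe, mul_zero, add_zero]
        have e1 : Real.exp (θ * (w.2 - t) + β * (w.1 + s - t)) =
            Real.exp (θ * (w.2 - t)) * Real.exp (-(β * (t - w.1 - s))) := by
          rw [← Real.exp_add]
          congr 1
          ring
        have e2 : 1 - β * (t - w.1 - s) ≤ Real.exp (-(β * (t - w.1 - s))) := by
          have := Real.add_one_le_exp (-(β * (t - w.1 - s)))
          linarith
        have e3 : 1 ≤ Real.exp (-(β * (t - w.1 - s))) + β * t := by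
          have : β * (t - w.1 - s) ≤ β * t := mul_le_mul_of_nonneg_left (by linarith) hβ0.le
          linarith
        rw [e1]
        have e4 := mul_le_mul_of_nonneg_left e3 (Real.exp_pos (θ * (w.2 - t))).le
        rw [mul_one, mul_add] at e4
        linarith
    · have hXe : X = w.1 + s - t := by
        rcases le_total (w.1 + s - t) 0 with h0 | h0
        · exfalso
          have : X = 0 := max_eq_right h0
          linarith
        · exact max_eq_left h0
      rw [max_eq_left hXY.le, min_eq_right hXY.le]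
      set r : ℝ := X - Y with hr
      have hr0 : 0 < r := by rw [hr]; linarith
      have hXr : X = Y + r := by rw [hr]; ring
      have f1 : Real.exp (θ * r) - 1 ≤ θ * r * Real.exp (θ * r) := by
        have h3 := Real.add_one_le_exp (-(θ * r))
        have h4 : Real.exp (-(θ * r)) * Real.exp (θ * r) = 1 := by
          rw [← Real.exp_add]
          simp
        have h5 := mul_le_mul_of_nonneg_right h3 (Real.exp_pos (θ * r)).le
        rw [h4] at h5
        linarith
      have f2 : c * (Real.exp (θ * r) - 1) ≤ Real.exp (β * r) - Real.exp (θ * r) := by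
        have h3 := Real.add_one_le_exp ((β - θ) * r)
        have h4 : Real.exp (β * r) = Real.exp ((β - θ) * r) * Real.exp (θ * r) := by
          rw [← Real.exp_add]
          congr 1
          ring
        have h5 := mul_le_mul_of_nonneg_right h3 (Real.exp_pos (θ * r)).le
        rw [← h4] at h5
        have h6 : c * θ * r ≤ (β - θ) * r := mul_le_mul_of_nonneg_right (by linarith) hr0.le
        have h7 := mul_le_mul_of_nonneg_right h6 (Real.exp_pos (θ * r)).le
        have h8 := mul_le_mul_of_nonneg_left f1 hc.le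
        nlinarith
      have f3 : D ≤ c * Real.exp (β * Y) := by
        refine hL.trans (mul_le_mul_of_nonneg_left (Real.exp_le_exp.2 ?_) hc.le)
        have h3 : w.2 / 2 ≤ Y := by rw [hYe]; linarith
        calc θ * w.2 / 2 = θ * (w.2 / 2) := by ring
          _ ≤ β * Y := mul_le_mul hθβ h3 (by linarith) hβ0.le
      have f4 : 0 ≤ Real.exp (θ * r) - 1 := by
        have := Real.one_le_exp (mul_nonneg hθ.le hr0.le)
        linarith
      have f5 : D * (Real.exp (θ * r) - 1) ≤
          Real.exp (β * Y) * (Real.exp (β * r) - Real.exp (θ * r)) := by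
        calc D * (Real.exp (θ * r) - 1) ≤ c * Real.exp (β * Y) * (Real.exp (θ * r) - 1) :=
              mul_le_mul_of_nonneg_right f3 f4
          _ = Real.exp (β * Y) * (c * (Real.exp (θ * r) - 1)) := by ring
          _ ≤ _ := mul_le_mul_of_nonneg_left f2 (Real.exp_pos _).le
      have f6 := mul_le_mul_of_nonneg_left f5 (Real.exp_pos (θ * Y)).le
      have g1 : Real.exp (θ * X + β * Y) =
          Real.exp (θ * Y) * (Real.exp (β * Y) * Real.exp (θ * r)) := by
        rw [hXr, ← Real.exp_add, ← Real.exp_add]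
        congr 1
        ring
      have g2 : Real.exp (θ * X) = Real.exp (θ * Y) * Real.exp (θ * r) := by
        rw [hXr, ← Real.exp_add]
        congr 1
        ring
      have g3 : Real.exp (θ * (w.2 - t) + β * (w.1 + s - t)) =
          Real.exp (θ * Y) * (Real.exp (β * Y) * Real.exp (β * r)) := by
        rw [← hYe, ← hXe, hXr, ← Real.exp_add, ← Real.exp_add]
        congr 1
        ring
      rw [g1, g2, g3, ← hYe]
      rw [← hYe] at hT3n
      nlinarith
  · rw [if_pos ht2]
    have hT1n : 0 < Real.exp (θ * (w.2 - t) + β * (w.1 + s - t)) := Real.exp_pos _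
    have hT2n : 0 < D * Real.exp (θ * (w.2 - t)) := mul_pos hD (Real.exp_pos _)
    have hE1 : 1 ≤ Real.exp (β * s) := Real.one_le_exp (mul_nonneg hβ0.le hs)
    have hE2 : 0 < Real.exp (θ * w.2 / 2) := Real.exp_pos _
    have hmm : θ * max X Y + β * min X Y ≤ θ * Y + β * X := by
      rcases le_total X Y with hXY | hXY
      · rw [max_eq_right hXY, min_eq_left hXY]
      · rw [max_eq_left hXY, min_eq_right hXY]
        nlinarith
    have k1 : Real.exp (θ * max X Y + β * min X Y) ≤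
        Real.exp (θ * (w.2 - t) + β * (w.1 + s - t)) +
          Real.exp (θ * w.2 / 2) * Real.exp (β * s) := by
      refine (Real.exp_le_exp.2 hmm).trans ?_
      rcases le_total t w.2 with htw | htw
      · have hYe : Y = w.2 - t := max_eq_left (by linarith)
        rcases le_total t (w.1 + s) with hts | hts
        · have hXe : X = w.1 + s - t := max_eq_left (by linarith)
          rw [hXe, hYe]
          have : 0 < Real.exp (θ * w.2 / 2) * Real.exp (β * s) := by positivity
          linarith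
        · have hXe : X = 0 := max_eq_right (by linarith)
          rw [hXe, hYe, mul_zero, add_zero]
          have k2 : Real.exp (θ * (w.2 - t)) ≤ Real.exp (θ * w.2 / 2) := by
            apply Real.exp_le_exp.2
            nlinarith
          have k3 : Real.exp (θ * w.2 / 2) ≤ Real.exp (θ * w.2 / 2) * Real.exp (β * s) :=
            le_mul_of_one_le_right hE2.le hE1
          linarith
      · have hYe : Y = 0 := max_eq_right (by linarith)
        have hXs : X ≤ s := max_le (by linarith) hs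
        rw [hYe, mul_zero, zero_add]
        have k2 : Real.exp (β * X) ≤ Real.exp (β * s) :=
          Real.exp_le_exp.2 (mul_le_mul_of_nonneg_left hXs hβ0.le)
        have k3 : 1 ≤ Real.exp (θ * w.2 / 2) := Real.one_le_exp (by positivity)
        have k4 : Real.exp (β * s) ≤ Real.exp (θ * w.2 / 2) * Real.exp (β * s) :=
          le_mul_of_one_le_left (Real.exp_pos _).le k3
        linarith
    have k5 : Real.exp (θ * max X Y) ≤ Real.exp (θ * w.2 / 2) * Real.exp (β * s) := by
      rw [← Real.exp_add]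
      apply Real.exp_le_exp.2
      have k6 : max X Y ≤ w.2 / 2 + s := by
        refine max_le (max_le (by linarith) (by linarith)) (max_le (by linarith) (by linarith))
      have k7 : θ * max X Y ≤ θ * (w.2 / 2 + s) := mul_le_mul_of_nonneg_left k6 hθ.le
      have k8 : θ * s ≤ β * s := mul_le_mul_of_nonneg_right hθβ hs
      nlinarith
    have k9 : D * Real.exp (θ * max X Y) ≤ D * (Real.exp (θ * w.2 / 2) * Real.exp (β * s)) :=
      mul_le_mul_of_nonneg_left k5 hD.le
    nlinarith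

/-- **One tilt**. See the header for the proof. -/
theorem V_one (S : StdC μ ν h h') {c C D : ℝ} (hc : 0 < c) (hC : 1 + c ≤ C) (hD : 4 * C ≤ D) :
    ∃ C8 : ℝ, 1 ≤ C8 ∧ ∀ (β θ e B : ℝ) (w : ℝ × ℝ), 0 < θ → (1 + c) * θ ≤ β → β ≤ C * θ →
      0 ≤ e → 2 * (e * θ) ≤ 1 - lap ν θ → Tilt h β B →
      trPhi μ ν B β θ ≤ ENNReal.ofReal (1 - e * θ) → 0 ≤ w.1 → w.1 ≤ w.2 → C8 ≤ θ * w.2 →
      ∫⁻ p, (Set.Iic B).indicator (fun _ => (1 : ℝ≥0∞)) p.1 *
        ENNReal.ofReal (HF β D θ (kwStep w p.1 p.2)) ∂(μ.prod ν) ≤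
        ENNReal.ofReal ((1 - e * θ) * HF β D θ w) := by
  classical
  obtain ⟨hH, hL, hν, -, -, -, -⟩ := S
  have hC0 : 0 < C := by linarith
  have hD0 : 0 < D := by linarith
  have hD4 : 4 ≤ D := by linarith
  have hIe : Integrable (fun s : ℝ => Real.exp (1 / 4 * h s)) μ :=
    law_integrable_exp hH hL (by norm_num)
  set Ce : ℝ := ∫ s, Real.exp (1 / 4 * h s) ∂μ with hCe
  have hCe1 : 1 ≤ Ce := by
    have h1 : ∫ s, (1 : ℝ) ∂μ ≤ Ce := by
      refine integral_mono (integrable_const _) hIe fun s => ?_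
      exact Real.one_le_exp (by have := hH.nonneg s; linarith)
    simpa using h1
  have hDc : 0 < D / c := div_pos hD0 hc
  refine ⟨max (max 1 (2 * Real.log 2)) (max (2 * Real.log (D / c)) (2 * Real.log (16 * Ce))),
    (le_max_left _ _).trans (le_max_left _ _), ?_⟩
  intro β θ e B w hθ hβ hβC he heL hT htr h1 h2 h8
  have q1 : 1 ≤ θ * w.2 := ((le_max_left _ _).trans (le_max_left _ _)).trans h8
  have q2 : 2 * Real.log 2 ≤ θ * w.2 := ((le_max_right _ _).trans (le_max_left _ _)).trans h8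
  have q3 : 2 * Real.log (D / c) ≤ θ * w.2 := ((le_max_left _ _).trans (le_max_right _ _)).trans h8
  have q4 : 2 * Real.log (16 * Ce) ≤ θ * w.2 :=
    ((le_max_right _ _).trans (le_max_right _ _)).trans h8
  have hβ0 : 0 < β := by nlinarith [mul_pos hc hθ]
  have hθβ : θ ≤ β := by nlinarith [mul_pos hc hθ]
  have hw2 : 0 ≤ w.2 := h1.trans h2
  set L : ℝ := lap ν θ with hLdef
  have hL1 : L ≤ 1 := lap_le_one hν hθ.le
  have hL0 : 0 < L := lap_pos hν hθ.le
  have r2 : 2 ≤ Real.exp (θ * w.2 / 2) := by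
    rw [← Real.log_le_iff_le_exp (by norm_num)]
    linarith
  have r3 : D ≤ c * Real.exp (θ * w.2 / 2) := by
    have h3 : D / c ≤ Real.exp (θ * w.2 / 2) := by
      rw [← Real.log_le_iff_le_exp hDc]
      linarith
    rwa [div_le_iff₀' hc] at h3
  have r4 : 16 * Ce ≤ Real.exp (θ * w.2 / 2) := by
    rw [← Real.log_le_iff_le_exp (by positivity)]
    linarith
  have heθ : e * θ ≤ 1 / 2 := by linarith
  set T1 : ℝ × ℝ → ℝ := fun p =>
    Real.exp (θ * w.2 + β * w.1) * Real.exp (β * (p.1 - p.2) - θ * p.2) with hT1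
  set T2 : ℝ → ℝ := fun t => D * Real.exp (θ * w.2) * Real.exp (-(θ * t)) with hT2
  set T3 : ℝ → ℝ := fun t => Real.exp (θ * w.2) * (β * (t * Real.exp (-(θ * t)))) with hT3
  set K4 : ℝ := (1 + D) * Real.exp (θ * w.2 / 2) with hK4
  have hK4n : 0 ≤ K4 := by positivity
  set ind : ℝ → ℝ≥0∞ := (Set.Iic B).indicator (fun _ => (1 : ℝ≥0∞)) with hind
  have hindm : Measurable ind := measurable_const.indicator measurableSet_Iic
  have hind1 : ∀ s, ind s ≤ 1 := by
    intro s
    by_cases hs : s ∈ Set.Iic B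
    · rw [hind, Set.indicator_of_mem hs]
    · rw [hind, Set.indicator_of_notMem hs]
      exact bot_le
  -- the pointwise bound
  have hpt : ∀ᵐ p ∂(μ.prod ν), ind p.1 * ENNReal.ofReal (HF β D θ (kwStep w p.1 p.2)) ≤
      ((ind p.1 * ENNReal.ofReal (T1 p) + ENNReal.ofReal (T2 p.2)) + ENNReal.ofReal (T3 p.2)) +
        (ind p.1 * ENNReal.ofReal (Real.exp (β * p.1))) *
          ((Set.Ioi (w.2 / 2)).indicator (fun _ => ENNReal.ofReal K4) p.2) := by
    filter_upwards [law_prod_nonneg hL hν] with p hp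
    by_cases hs : p.1 ∈ Set.Iic B
    · have hi : ind p.1 = 1 := by rw [hind, Set.indicator_of_mem hs]
      rw [hi, one_mul, one_mul, one_mul]
      have h3 := vOne_pt (w := w) hc hD0 hθ hβ hp.1 hp.2 h1 h2 r3
      have hn1 : 0 ≤ T1 p := by simp only [hT1]; positivity
      have hn2 : 0 ≤ T2 p.2 := by simp only [hT2]; positivity
      have hn3 : 0 ≤ T3 p.2 := by
        have := hp.2
        simp only [hT3]
        positivity
      have hi4 : (Set.Ioi (w.2 / 2)).indicator (fun _ => ENNReal.ofReal K4) p.2 =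
          ENNReal.ofReal (if w.2 / 2 < p.2 then K4 else 0) := by
        by_cases ht : w.2 / 2 < p.2
        · rw [Set.indicator_of_mem (show p.2 ∈ Set.Ioi (w.2 / 2) from ht), if_pos ht]
        · rw [Set.indicator_of_notMem (show p.2 ∉ Set.Ioi (w.2 / 2) from ht), if_neg ht,
            ENNReal.ofReal_zero]
      have hn4 : 0 ≤ (if w.2 / 2 < p.2 then K4 else 0) := by
        split_ifs
        · exact hK4n
        · exact le_rfl
      rw [hi4, ← ENNReal.ofReal_mul (Real.exp_pos _).le, ← ENNReal.ofReal_add hn1 hn2,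
        ← ENNReal.ofReal_add (add_nonneg hn1 hn2) hn3,
        ← ENNReal.ofReal_add (add_nonneg (add_nonneg hn1 hn2) hn3)
          (mul_nonneg (Real.exp_pos _).le hn4)]
      refine ENNReal.ofReal_le_ofReal (h3.trans (le_of_eq ?_))
      simp only [hT1, hT2, hT3, hK4]
      split_ifs
      · ring
      · ring
    · have hi : ind p.1 = 0 := by rw [hind, Set.indicator_of_notMem hs]
      rw [hi, zero_mul]
      exact bot_le
  -- the four integrals
  have hm1 : Measurable (fun p : ℝ × ℝ => ind p.1 * ENNReal.ofReal (T1 p)) := by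
    refine (hindm.comp measurable_fst).mul ?_
    simp only [hT1]
    fun_prop
  have hm2 : Measurable (fun p : ℝ × ℝ => ENNReal.ofReal (T2 p.2)) := by
    simp only [hT2]
    fun_prop
  have hm3 : Measurable (fun p : ℝ × ℝ => ENNReal.ofReal (T3 p.2)) := by
    simp only [hT3]
    fun_prop
  have hI1 : ∫⁻ p, ind p.1 * ENNReal.ofReal (T1 p) ∂(μ.prod ν) ≤
      ENNReal.ofReal ((1 - e * θ) * Real.exp (θ * w.2 + β * w.1)) := by
    have h3 : (fun p : ℝ × ℝ => ind p.1 * ENNReal.ofReal (T1 p)) = fun p =>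
        ENNReal.ofReal (Real.exp (θ * w.2 + β * w.1)) *
          (ind p.1 * ENNReal.ofReal (Real.exp (β * (p.1 - p.2) - θ * p.2))) := by
      funext p
      simp only [hT1]
      rw [ENNReal.ofReal_mul (Real.exp_pos _).le]
      ring
    rw [h3, lintegral_const_mul _ (by
      refine (hindm.comp measurable_fst).mul ?_
      fun_prop)]
    calc ENNReal.ofReal (Real.exp (θ * w.2 + β * w.1)) *
          ∫⁻ p, ind p.1 * ENNReal.ofReal (Real.exp (β * (p.1 - p.2) - θ * p.2)) ∂(μ.prod ν)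
        ≤ ENNReal.ofReal (Real.exp (θ * w.2 + β * w.1)) * ENNReal.ofReal (1 - e * θ) :=
          mul_le_mul_right htr _
      _ = ENNReal.ofReal ((1 - e * θ) * Real.exp (θ * w.2 + β * w.1)) := by
          rw [← ENNReal.ofReal_mul (Real.exp_pos _).le, mul_comm]
  have hsnd : ∀ f : ℝ → ℝ≥0∞, Measurable f →
      ∫⁻ p, f p.2 ∂(μ.prod ν) = ∫⁻ t, f t ∂ν := by
    intro f hf
    exact (measurePreserving_snd (μ := μ) (ν := ν)).lintegral_comp hf
  have hI2 : ∫⁻ p, ENNReal.ofReal (T2 p.2) ∂(μ.prod ν) ≤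
      ENNReal.ofReal (D * Real.exp (θ * w.2) * L) := by
    rw [hsnd (fun t => ENNReal.ofReal (T2 t)) (by simp only [hT2]; fun_prop)]
    have h3 : (fun t : ℝ => ENNReal.ofReal (T2 t)) = fun t =>
        ENNReal.ofReal (D * Real.exp (θ * w.2)) * ENNReal.ofReal (Real.exp (-(θ * t))) := by
      funext t
      simp only [hT2]
      rw [ENNReal.ofReal_mul (by positivity)]
    rw [h3, lintegral_const_mul _ (by fun_prop), lap_lintegral hν hθ.le,
      ← ENNReal.ofReal_mul (by positivity)]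
  have hI3 : ∫⁻ p, ENNReal.ofReal (T3 p.2) ∂(μ.prod ν) ≤
      ENNReal.ofReal (Real.exp (θ * w.2) * (D / 4) * (1 - L)) := by
    rw [hsnd (fun t => ENNReal.ofReal (T3 t)) (by simp only [hT3]; fun_prop)]
    have h3 : (fun t : ℝ => ENNReal.ofReal (T3 t)) = fun t =>
        ENNReal.ofReal (Real.exp (θ * w.2) * (β / θ)) *
          ENNReal.ofReal (θ * (t * Real.exp (-(θ * t)))) := by
      funext t
      simp only [hT3]
      rw [← ENNReal.ofReal_mul (by positivity)]
      congr 1
      field_simp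
    rw [h3, lintegral_const_mul _ (by fun_prop)]
    calc ENNReal.ofReal (Real.exp (θ * w.2) * (β / θ)) *
          ∫⁻ t, ENNReal.ofReal (θ * (t * Real.exp (-(θ * t)))) ∂ν
        ≤ ENNReal.ofReal (Real.exp (θ * w.2) * (β / θ)) * ENNReal.ofReal (1 - L) :=
          mul_le_mul_right (lap_mul_le hν hθ.le) _
      _ = ENNReal.ofReal (Real.exp (θ * w.2) * (β / θ) * (1 - L)) := by
          rw [← ENNReal.ofReal_mul (by positivity)]
      _ ≤ ENNReal.ofReal (Real.exp (θ * w.2) * (D / 4) * (1 - L)) := by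
          refine ENNReal.ofReal_le_ofReal (mul_le_mul_of_nonneg_right
            (mul_le_mul_of_nonneg_left ?_ (Real.exp_pos _).le) (by linarith))
          rw [div_le_iff₀ hθ]
          have : C * θ ≤ D / 4 * θ := mul_le_mul_of_nonneg_right (by linarith) hθ.le
          linarith
  have hI4 : ∫⁻ p, (ind p.1 * ENNReal.ofReal (Real.exp (β * p.1))) *
          ((Set.Ioi (w.2 / 2)).indicator (fun _ => ENNReal.ofReal K4) p.2) ∂(μ.prod ν) ≤
      ENNReal.ofReal (Real.exp (θ * w.2) * (D / 4) * (1 - L)) := by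
    have hma : Measurable (fun s : ℝ => ind s * ENNReal.ofReal (Real.exp (β * s))) :=
      hindm.mul (by fun_prop)
    have hmb : Measurable ((Set.Ioi (w.2 / 2)).indicator (fun _ : ℝ => ENNReal.ofReal K4)) :=
      measurable_const.indicator measurableSet_Ioi
    rw [lintegral_prod_mul (μ := μ) (ν := ν)
      (f := fun s : ℝ => ind s * ENNReal.ofReal (Real.exp (β * s)))
      (g := (Set.Ioi (w.2 / 2)).indicator (fun _ : ℝ => ENNReal.ofReal K4))
      hma.aemeasurable hmb.aemeasurable, lintegral_indicator_const measurableSet_Ioi]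
    have ha : ∫⁻ s, ind s * ENNReal.ofReal (Real.exp (β * s)) ∂μ ≤ ENNReal.ofReal Ce := by
      have hb : ∫⁻ s, ENNReal.ofReal (Real.exp (1 / 4 * h s)) ∂μ = ENNReal.ofReal Ce := by
        rw [hCe, ofReal_integral_eq_lintegral_ofReal hIe
          (Eventually.of_forall fun s => (Real.exp_pos _).le)]
      rw [← hb]
      refine lintegral_mono_ae ?_
      filter_upwards [hL.nn] with s hs
      by_cases hsB : s ∈ Set.Iic B
      · have hi : ind s = 1 := by rw [hind, Set.indicator_of_mem hsB]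
        rw [hi, one_mul]
        refine ENNReal.ofReal_le_ofReal (Real.exp_le_exp.2 ?_)
        have := hT s hs hsB
        linarith
      · have hi : ind s = 0 := by rw [hind, Set.indicator_of_notMem hsB]
        rw [hi, zero_mul]
        exact bot_le
    have hν2 : ν (Set.Ioi (w.2 / 2)) ≤ ENNReal.ofReal (2 * (1 - L)) := by
      have h3 := lap_tail (θ := θ) (y := w.2 / 2) hν hθ.le (by linarith)
      have h4 : (1 : ℝ) / 2 ≤ 1 - Real.exp (-(θ * (w.2 / 2))) := by
        have h5 : Real.exp (-(θ * (w.2 / 2))) * Real.exp (θ * w.2 / 2) = 1 := by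
          rw [← Real.exp_add]
          have : -(θ * (w.2 / 2)) + θ * w.2 / 2 = 0 := by ring
          rw [this, Real.exp_zero]
        nlinarith [Real.exp_pos (-(θ * (w.2 / 2)))]
      have h5 : ν (Set.Ioi (w.2 / 2)) * ENNReal.ofReal (1 / 2) ≤ ENNReal.ofReal (1 - L) :=
        (mul_le_mul_right (ENNReal.ofReal_le_ofReal h4) _).trans h3
      calc ν (Set.Ioi (w.2 / 2)) = ν (Set.Ioi (w.2 / 2)) * ENNReal.ofReal (1 / 2) *
            ENNReal.ofReal 2 := by
              rw [mul_assoc, ← ENNReal.ofReal_mul (by norm_num)]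
              norm_num
        _ ≤ ENNReal.ofReal (1 - L) * ENNReal.ofReal 2 := mul_le_mul_left h5 _
        _ = ENNReal.ofReal (2 * (1 - L)) := by
            rw [← ENNReal.ofReal_mul (by linarith), mul_comm]
    calc (∫⁻ s, ind s * ENNReal.ofReal (Real.exp (β * s)) ∂μ) *
          (ENNReal.ofReal K4 * ν (Set.Ioi (w.2 / 2)))
        ≤ ENNReal.ofReal Ce * (ENNReal.ofReal K4 * ENNReal.ofReal (2 * (1 - L))) := by
          gcongr
      _ = ENNReal.ofReal (Ce * (K4 * (2 * (1 - L)))) := by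
          rw [← ENNReal.ofReal_mul hK4n, ← ENNReal.ofReal_mul (by linarith)]
      _ ≤ ENNReal.ofReal (Real.exp (θ * w.2) * (D / 4) * (1 - L)) := by
          refine ENNReal.ofReal_le_ofReal ?_
          have h3 : Real.exp (θ * w.2) = Real.exp (θ * w.2 / 2) * Real.exp (θ * w.2 / 2) := by
            rw [← Real.exp_add]
            congr 1
            ring
          have h4 : 8 * (1 + D) * Ce ≤ D * Real.exp (θ * w.2 / 2) := by
            have h5 : 1 + D ≤ 2 * D := by linarith
            have h6 : 8 * (1 + D) * Ce ≤ 8 * (2 * D) * Ce := by gcongr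
            have h7 : D * (16 * Ce) ≤ D * Real.exp (θ * w.2 / 2) :=
              mul_le_mul_of_nonneg_left r4 hD0.le
            linarith
          have h5 : 0 ≤ (1 - L) * Real.exp (θ * w.2 / 2) :=
            mul_nonneg (by linarith) (Real.exp_pos _).le
          have h6 := mul_le_mul_of_nonneg_left h4 h5
          rw [hK4, h3]
          nlinarith
  calc ∫⁻ p, ind p.1 * ENNReal.ofReal (HF β D θ (kwStep w p.1 p.2)) ∂(μ.prod ν)
      ≤ ∫⁻ p, ((ind p.1 * ENNReal.ofReal (T1 p) + ENNReal.ofReal (T2 p.2)) +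
          ENNReal.ofReal (T3 p.2)) +
        (ind p.1 * ENNReal.ofReal (Real.exp (β * p.1))) *
          ((Set.Ioi (w.2 / 2)).indicator (fun _ => ENNReal.ofReal K4) p.2) ∂(μ.prod ν) :=
        lintegral_mono_ae hpt
    _ = ((∫⁻ p, ind p.1 * ENNReal.ofReal (T1 p) ∂(μ.prod ν) +
          ∫⁻ p, ENNReal.ofReal (T2 p.2) ∂(μ.prod ν)) +
          ∫⁻ p, ENNReal.ofReal (T3 p.2) ∂(μ.prod ν)) +
        ∫⁻ p, (ind p.1 * ENNReal.ofReal (Real.exp (β * p.1))) *
          ((Set.Ioi (w.2 / 2)).indicator (fun _ => ENNReal.ofReal K4) p.2) ∂(μ.prod ν) := by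
        have hm12 : Measurable (fun p : ℝ × ℝ =>
            ind p.1 * ENNReal.ofReal (T1 p) + ENNReal.ofReal (T2 p.2)) := hm1.add hm2
        have hm123 : Measurable (fun p : ℝ × ℝ => ind p.1 * ENNReal.ofReal (T1 p) +
            ENNReal.ofReal (T2 p.2) + ENNReal.ofReal (T3 p.2)) := hm12.add hm3
        rw [lintegral_add_left hm123, lintegral_add_left hm12, lintegral_add_left hm1]
    _ ≤ ((ENNReal.ofReal ((1 - e * θ) * Real.exp (θ * w.2 + β * w.1)) +
          ENNReal.ofReal (D * Real.exp (θ * w.2) * L)) +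
          ENNReal.ofReal (Real.exp (θ * w.2) * (D / 4) * (1 - L))) +
          ENNReal.ofReal (Real.exp (θ * w.2) * (D / 4) * (1 - L)) := by
        gcongr
    _ = ENNReal.ofReal ((1 - e * θ) * Real.exp (θ * w.2 + β * w.1) +
          D * Real.exp (θ * w.2) * L + Real.exp (θ * w.2) * (D / 4) * (1 - L) +
          Real.exp (θ * w.2) * (D / 4) * (1 - L)) := by
        have a1 : 0 ≤ (1 - e * θ) * Real.exp (θ * w.2 + β * w.1) :=
          mul_nonneg (by linarith) (Real.exp_pos _).le
        have a2 : 0 ≤ D * Real.exp (θ * w.2) * L := by positivity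
        have a3 : 0 ≤ Real.exp (θ * w.2) * (D / 4) * (1 - L) :=
          mul_nonneg (by positivity) (by linarith)
        rw [← ENNReal.ofReal_add a1 a2, ← ENNReal.ofReal_add (add_nonneg a1 a2) a3,
          ← ENNReal.ofReal_add (add_nonneg (add_nonneg a1 a2) a3) a3]
    _ ≤ ENNReal.ofReal ((1 - e * θ) * HF β D θ w) := by
        refine ENNReal.ofReal_le_ofReal ?_
        have h3 : HF β D θ w = Real.exp (θ * w.2 + β * w.1) + D * Real.exp (θ * w.2) := by
          rw [HF, mul_add, Real.exp_add]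
          ring
        rw [h3]
        have h4 : 0 ≤ D * Real.exp (θ * w.2) := by positivity
        have h5 : e * θ ≤ (1 - L) / 2 := by linarith
        have h6 := mul_le_mul_of_nonneg_left h5 h4
        nlinarith

end Pool.Agent.Lib.MP_04add8_pr.Cv
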