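import Mathlib
import Pool.Agent.Lib.MP_04add8_pr.Cv.VOne
import Pool.Agent.Lib.MP_04add8_pr.Cv.VMeas
import Pool.Agent.Lib.MP_04add8_pr.Cv.GNear

/-!
Let `C8` be the constant of `V_one`. Choose `v1 ≥ 1` such that for `y ≥ v1`: `h' y ≤ θ0`, `y h' y ≥ 2 C8`,
and (`hG_near` with `a = C8`, `Λ = 2 + 2 C`) `hG (2 C8/y) + C8 (2 + 2C) ≤ hG (C8/y)`.
Claim: for every `θ ∈ (0, θ0]` there is `θ' ∈ [C8/w2, h' w2] ⊆ (0, θ0]` with `cT θ' w ≤ cT θ w`.
* `θ ∈ [C8/w2, h' w2]`: θ' = θ.
* `θ > h' w2`: θ' = h' w2: `hG θ + θ w2 ≥ h w2 = hG θ' + θ' w2` (`hG_ge`, `hG_at`) and `β θ' ≤ β θ` (`Pot.mono`), `w1 ≥ 0`.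
* `θ < C8/w2`: θ' = 2 C8/w2 (≤ h' w2): `cT θ' w ≤ e^{hG θ' + 2 C8} (1 + D) e^{β θ' w1} ≤ (1+D) e^{hG θ' + 2 C8 + 2 C C8}`
  (`w1 ≤ w2`, `β θ' ≤ C θ'`), `cT θ w ≥ (1 + D) e^{hG θ} ≥ (1+D) e^{hG (C8/w2)}` (`hG_anti`), and the choice of `Λ`.
For `θ' ∈ [C8/w2, h' w2]`: `Tilt h (C θ') B` because `θ' ≤ h' w2 ≤ h' v`; `Pot.sub`, `Pot.lapl` and `V_one`
(with `β := β θ'`; `Tilt h (β θ') B` follows from `β θ' ≤ C θ'`) give
`∫ 1{s≤B} cT θ' (kwStep) ≤ (1 - e θ') cT θ' w ≤ (1 - e/w2) cT θ' w` (`θ' ≥ C8/w2 ≥ 1/w2`; note `e θ' ≤ 1`).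
Hence for every θ: `∫ 1{s≤B} VV (kwStep) ≤ ∫ 1{s≤B} ofReal (cT θ' (kwStep)) ≤ ofReal (1 - e/w2) * ofReal (cT θ w)`;
take the infimum over θ (`ENNReal.mul_iInf_of_ne` or `ENNReal.mul_iInf'`). If `e/w2` might exceed 1 there is nothing
special: `e θ' ≤ 1/2` by `Pot.lapl`, so `e/w2 ≤ e θ' ≤ 1/2`.
-/

open MeasureTheory ProbabilityTheory Filter Topology
open scoped ENNReal

set_option linter.unusedSectionVars false

namespace Pool.Agent.Lib.MP_04add8_pr.Cv

open Pool.Agent.Lib.MP_04add8_pr.Gen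

variable {h h' : ℝ → ℝ} {μ ν : Measure ℝ} [IsProbabilityMeasure μ]
  [IsProbabilityMeasure ν]

/-- **The one-job potential is a supermartingale for small jobs**. See the header. -/
theorem V_two (S : StdC μ ν h h') {θ0 c C D : ℝ} (hθ0 : 0 < θ0) (hc : 0 < c) (hC : 1 + c ≤ C)
    (hD : 4 * C ≤ D) :
    ∃ v1 : ℝ, 1 ≤ v1 ∧ ∀ (β : ℝ → ℝ) (e v B : ℝ) (w : ℝ × ℝ), Pot μ ν h β θ0 c C e →
      v1 ≤ v → Tilt h (C * h' v) B → 0 ≤ w.1 → w.1 ≤ w.2 → v ≤ w.2 →
      ∫⁻ p, (Set.Iic B).indicator (fun _ => (1 : ℝ≥0∞)) p.1 *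
        VV h β D θ0 (kwStep w p.1 p.2) ∂(μ.prod ν) ≤
        ENNReal.ofReal (1 - e / w.2) * VV h β D θ0 w := by
  have H := S.haz
  obtain ⟨C8, hC8, hone⟩ := V_one S hc hC hD
  have hC80 : 0 < C8 := by linarith
  have hC0 : 0 < C := by linarith
  have hD0 : 0 < D := by linarith
  obtain ⟨va, hva0, hva⟩ := hG_near (h := h) H (a := C8) (Λ := 2 + 2 * C) hC80 (by linarith)
  obtain ⟨vb, hvb⟩ := (H.big.eventually_ge_atTop (2 * C8)).exists_forall_of_atTop
  obtain ⟨vc, hvc⟩ := (H.tendsto_deriv.eventually_le_const hθ0).exists_forall_of_atTop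
  refine ⟨max 1 (max va (max vb vc)), le_max_left _ _, ?_⟩
  intro β e v B w P hv hT h0 h1 hvw
  have hy1 : 1 ≤ w.2 := (le_max_left _ _).trans (hv.trans hvw)
  have hya : va ≤ w.2 := ((le_max_left _ _).trans (le_max_right _ _)).trans (hv.trans hvw)
  have hyb : vb ≤ w.2 := ((le_max_left _ _).trans
    ((le_max_right _ _).trans (le_max_right _ _))).trans (hv.trans hvw)
  have hyc : vc ≤ w.2 := ((le_max_right _ _).trans
    ((le_max_right _ _).trans (le_max_right _ _))).trans (hv.trans hvw)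
  have hv0 : 0 < v := lt_of_lt_of_le one_pos ((le_max_left _ _).trans hv)
  have hw0 : 0 < w.2 := by linarith
  have hd0 : h' w.2 ≤ θ0 := hvc _ hyc
  have hd1 : 2 * C8 ≤ w.2 * h' w.2 := hvb _ hyb
  have hdp : 0 < h' w.2 := H.pos _ hw0
  have hnear := hva _ hya
  have h2d : 2 * C8 / w.2 ≤ h' w.2 := by
    rw [div_le_iff₀ hw0]; linarith
  have h2c : C8 / w.2 ≤ 2 * C8 / w.2 := by
    apply div_le_div_of_nonneg_right _ hw0.le
    linarith
  have hcp : 0 < C8 / w.2 := div_pos hC80 hw0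
  -- the tilts between `C8 / w₂` and `h' w₂`
  have step : ∀ θ' : ℝ, C8 / w.2 ≤ θ' → θ' ≤ h' w.2 →
      ∫⁻ p, (Set.Iic B).indicator (fun _ => (1 : ℝ≥0∞)) p.1 *
        VV h β D θ0 (kwStep w p.1 p.2) ∂(μ.prod ν) ≤
        ENNReal.ofReal (1 - e / w.2) * ENNReal.ofReal (cT h β D θ' w) := by
    intro θ' ha hb
    have hp : 0 < θ' := lt_of_lt_of_le hcp ha
    have hq : θ' ≤ θ0 := hb.trans hd0
    have hlow := P.low θ' hp hq
    have hup := P.up θ' hp hq
    have hle : θ' ≤ h' v := hb.trans (H.anti _ _ hv0 hvw)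
    have hTc : Tilt h (C * θ') B := by
      intro s hs hsB
      have h3 := hT s hs hsB
      have h4 : C * θ' * s ≤ C * h' v * s := by
        apply mul_le_mul_of_nonneg_right _ hs
        exact mul_le_mul_of_nonneg_left hle hC0.le
      linarith
    have hTb : Tilt h (β θ') B := by
      intro s hs hsB
      have h3 := hTc s hs hsB
      have h4 : β θ' * s ≤ C * θ' * s := mul_le_mul_of_nonneg_right hup hs
      linarith
    have hC8w : C8 ≤ θ' * w.2 := (div_le_iff₀ hw0).1 ha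
    have h5 := hone (β θ') θ' e B w hp hlow hup P.pe (P.lapl θ' hp hq) hTb
      (P.sub θ' B hp hq hTc) h0 h1 hC8w
    have hHF : 0 ≤ HF (β θ') D θ' w := by
      unfold HF
      have := Real.exp_pos (β θ' * w.1)
      have := Real.exp_pos (θ' * w.2)
      positivity
    calc ∫⁻ p, (Set.Iic B).indicator (fun _ => (1 : ℝ≥0∞)) p.1 *
        VV h β D θ0 (kwStep w p.1 p.2) ∂(μ.prod ν)
        ≤ ∫⁻ p, ENNReal.ofReal (Real.exp (hG h θ')) *
            ((Set.Iic B).indicator (fun _ => (1 : ℝ≥0∞)) p.1 *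
              ENNReal.ofReal (HF (β θ') D θ' (kwStep w p.1 p.2))) ∂(μ.prod ν) := by
          refine lintegral_mono fun p => ?_
          have h6 := VV_le (h := h) β D hp hq (kwStep w p.1 p.2)
          have h7 : ENNReal.ofReal (cT h β D θ' (kwStep w p.1 p.2)) =
              ENNReal.ofReal (Real.exp (hG h θ')) *
                ENNReal.ofReal (HF (β θ') D θ' (kwStep w p.1 p.2)) := by
            unfold cT
            rw [ENNReal.ofReal_mul (Real.exp_pos _).le]
          rw [h7] at h6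
          calc (Set.Iic B).indicator (fun _ => (1 : ℝ≥0∞)) p.1 *
                VV h β D θ0 (kwStep w p.1 p.2)
              ≤ (Set.Iic B).indicator (fun _ => (1 : ℝ≥0∞)) p.1 *
                (ENNReal.ofReal (Real.exp (hG h θ')) *
                  ENNReal.ofReal (HF (β θ') D θ' (kwStep w p.1 p.2))) := by
                gcongr
            _ = _ := by ring
      _ = ENNReal.ofReal (Real.exp (hG h θ')) *
            ∫⁻ p, ((Set.Iic B).indicator (fun _ => (1 : ℝ≥0∞)) p.1 *
              ENNReal.ofReal (HF (β θ') D θ' (kwStep w p.1 p.2))) ∂(μ.prod ν) := by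
          rw [lintegral_const_mul' _ _ ENNReal.ofReal_ne_top]
      _ ≤ ENNReal.ofReal (Real.exp (hG h θ')) *
            ENNReal.ofReal ((1 - e * θ') * HF (β θ') D θ' w) := by
          gcongr
      _ ≤ ENNReal.ofReal (Real.exp (hG h θ')) *
            ENNReal.ofReal ((1 - e / w.2) * HF (β θ') D θ' w) := by
          gcongr
          rw [div_eq_mul_inv]
          apply mul_le_mul_of_nonneg_left _ P.pe
          have h8 : 1 / w.2 ≤ C8 / w.2 := div_le_div_of_nonneg_right hC8 hw0.le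
          rw [one_div] at h8
          exact h8.trans ha
      _ = ENNReal.ofReal (1 - e / w.2) * ENNReal.ofReal (cT h β D θ' w) := by
          unfold cT
          rw [ENNReal.ofReal_mul' hHF, ENNReal.ofReal_mul (Real.exp_pos _).le]
          ring
  -- every tilt can be replaced by one of them
  have move : ∀ θ : ℝ, 0 < θ → θ ≤ θ0 → ∃ θ' : ℝ, C8 / w.2 ≤ θ' ∧ θ' ≤ h' w.2 ∧
      cT h β D θ' w ≤ cT h β D θ w := by
    intro θ hp hq
    rcases lt_or_ge θ (C8 / w.2) with hlt | hge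
    · refine ⟨2 * C8 / w.2, h2c, h2d, ?_⟩
      have hθp : 0 < 2 * C8 / w.2 := lt_of_lt_of_le hcp h2c
      have hup := P.up (2 * C8 / w.2) hθp (h2d.trans hd0)
      have hlow := P.low θ hp hq
      have hbn : 0 ≤ β θ := by
        have : 0 < (1 + c) * θ := by positivity
        linarith
      have e1 : 2 * C8 / w.2 * w.2 = 2 * C8 := by field_simp
      have e2 : β (2 * C8 / w.2) * w.1 ≤ 2 * C * C8 := by
        have h3 : β (2 * C8 / w.2) * w.1 ≤ C * (2 * C8 / w.2) * w.1 :=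
          mul_le_mul_of_nonneg_right hup h0
        have h4 : C * (2 * C8 / w.2) * w.1 ≤ C * (2 * C8 / w.2) * w.2 :=
          mul_le_mul_of_nonneg_left h1 (by positivity)
        have h5 : C * (2 * C8 / w.2) * w.2 = 2 * C * C8 := by
          rw [mul_assoc, e1]; ring
        linarith
      have e3 : Real.exp (2 * C8 / w.2 * w.2) * (Real.exp (β (2 * C8 / w.2) * w.1) + D) ≤
          Real.exp (C8 * (2 + 2 * C)) * (1 + D) := by
        rw [e1]
        have h6 : Real.exp (β (2 * C8 / w.2) * w.1) ≤ Real.exp (2 * C * C8) :=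
          Real.exp_le_exp.2 e2
        have h7 : (1 : ℝ) ≤ Real.exp (2 * C * C8) := Real.one_le_exp (by positivity)
        have h8 : Real.exp (β (2 * C8 / w.2) * w.1) + D ≤ Real.exp (2 * C * C8) * (1 + D) := by
          have : D ≤ Real.exp (2 * C * C8) * D := le_mul_of_one_le_left hD0.le h7
          linarith [mul_add (Real.exp (2 * C * C8)) 1 D]
        calc Real.exp (2 * C8) * (Real.exp (β (2 * C8 / w.2) * w.1) + D)
            ≤ Real.exp (2 * C8) * (Real.exp (2 * C * C8) * (1 + D)) :=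
              mul_le_mul_of_nonneg_left h8 (Real.exp_pos _).le
          _ = Real.exp (C8 * (2 + 2 * C)) * (1 + D) := by
              rw [← mul_assoc, ← Real.exp_add]
              congr 2
              ring
      have e4 : hG h (C8 / w.2) ≤ hG h θ := hG_anti H hp hlt.le
      calc cT h β D (2 * C8 / w.2) w
          ≤ Real.exp (hG h (2 * C8 / w.2)) * (Real.exp (C8 * (2 + 2 * C)) * (1 + D)) := by
            unfold cT HF
            exact mul_le_mul_of_nonneg_left e3 (Real.exp_pos _).le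
        _ = Real.exp (hG h (2 * C8 / w.2) + C8 * (2 + 2 * C)) * (1 + D) := by
            rw [Real.exp_add]; ring
        _ ≤ Real.exp (hG h θ) * (1 + D) := by
            apply mul_le_mul_of_nonneg_right _ (by linarith)
            exact Real.exp_le_exp.2 (hnear.trans e4)
        _ ≤ cT h β D θ w := by
            unfold cT HF
            apply mul_le_mul_of_nonneg_left _ (Real.exp_pos _).le
            have h9 : (1 : ℝ) ≤ Real.exp (θ * w.2) := Real.one_le_exp (by positivity)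
            have h10 : (1 : ℝ) ≤ Real.exp (β θ * w.1) := Real.one_le_exp (mul_nonneg hbn h0)
            calc 1 + D ≤ Real.exp (β θ * w.1) + D := by linarith
              _ ≤ Real.exp (θ * w.2) * (Real.exp (β θ * w.1) + D) :=
                le_mul_of_one_le_left (by linarith) h9
    · rcases le_or_gt θ (h' w.2) with hle | hgt
      · exact ⟨θ, hge, hle, le_rfl⟩
      · refine ⟨h' w.2, h2c.trans h2d, le_rfl, ?_⟩
        have hmono := P.mono (h' w.2) θ hdp hgt.le hq
        have hat := hG_at H hw0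
        have hgeθ := hG_ge H hp hw0.le
        have h3 : hG h (h' w.2) + h' w.2 * w.2 ≤ hG h θ + θ * w.2 := by
          rw [hat]
          unfold gg
          linarith [mul_comm (h' w.2) w.2]
        have h4 : Real.exp (β (h' w.2) * w.1) + D ≤ Real.exp (β θ * w.1) + D := by
          have := Real.exp_le_exp.2 (mul_le_mul_of_nonneg_right hmono h0)
          linarith
        unfold cT HF
        calc Real.exp (hG h (h' w.2)) * (Real.exp (h' w.2 * w.2) *
              (Real.exp (β (h' w.2) * w.1) + D))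
            = Real.exp (hG h (h' w.2) + h' w.2 * w.2) *
              (Real.exp (β (h' w.2) * w.1) + D) := by
              rw [Real.exp_add]; ring
          _ ≤ Real.exp (hG h θ + θ * w.2) * (Real.exp (β θ * w.1) + D) := by
              apply mul_le_mul (Real.exp_le_exp.2 h3) h4 _ (Real.exp_pos _).le
              have := Real.exp_pos (β (h' w.2) * w.1)
              linarith
          _ = _ := by rw [Real.exp_add]; ring
  have : Nonempty (Set.Ioc (0 : ℝ) θ0) := ⟨⟨θ0, hθ0, le_rfl⟩⟩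
  have hfin : ENNReal.ofReal (1 - e / w.2) * VV h β D θ0 w =
      ⨅ θ : Set.Ioc (0 : ℝ) θ0, ENNReal.ofReal (1 - e / w.2) *
        ENNReal.ofReal (cT h β D θ.1 w) := by
    unfold VV
    exact ENNReal.mul_iInf (fun h => absurd h ENNReal.ofReal_ne_top)
  rw [hfin]
  refine le_iInf fun θ => ?_
  obtain ⟨θ', ha, hb, hle⟩ := move θ.1 θ.2.1 θ.2.2
  refine (step θ' ha hb).trans ?_
  gcongr

end Pool.Agent.Lib.MP_04add8_pr.Cv
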