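import Mathlib
import Pool.Agent.Lib.MP_04add8_pr.Cv.VTwo
import Pool.Agent.Lib.MP_04add8_pr.Cv.JComb
import Pool.Agent.Lib.MP_04add8_pr.Cv.MY

open MeasureTheory ProbabilityTheory Filter Topology
open scoped ENNReal

set_option linter.unusedSectionVars false

namespace Pool.Agent.Lib.MP_04add8_pr.Cv

open Pool.Agent.Lib.MP_04add8_pr.Gen

variable {h h' : ℝ → ℝ} {μ ν : Measure ℝ} [IsProbabilityMeasure μ]
  [IsProbabilityMeasure ν]

/-- both servers above `B` after adding `u` : the two-jobs potential grows at most by `e^{h u}` -/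
private lemma entry_W (H : HazC h h') {B u t : ℝ} {w : ℝ × ℝ} (hu : 0 ≤ u)
    (ht : 0 ≤ t) (h0 : 0 ≤ w.1) (h1 : w.1 ≤ w.2) (hBw : B ≤ w.2) (hBu : B ≤ w.1 + u) :
    WW h B (kwStep w u t) ≤
      ENNReal.ofReal (Real.exp (h u)) * ENNReal.ofReal (Real.exp (h w.1 + h w.2)) := by
  rw [← ENNReal.ofReal_mul (Real.exp_pos _).le, ← Real.exp_add]
  unfold WW
  refine ENNReal.ofReal_le_ofReal (Real.exp_le_exp.2 ?_)
  have hw2 : 0 ≤ w.2 := h0.trans h1
  have e1 : max (kwStep w u t).1 B ≤ min (w.1 + u) w.2 := by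
    refine max_le ?_ (le_min hBu hBw)
    unfold kwStep
    refine min_le_min ?_ ?_
    · exact max_le (by linarith) (by linarith)
    · exact max_le (by linarith) hw2
  have e2 : (kwStep w u t).2 ≤ max (w.1 + u) w.2 := by
    unfold kwStep
    refine max_le_max ?_ ?_
    · exact max_le (by linarith) (by linarith)
    · exact max_le (by linarith) hw2
  have e3 := H.mono e1
  have e4 := H.mono e2
  have e5 : h (min (w.1 + u) w.2) + h (max (w.1 + u) w.2) = h (w.1 + u) + h w.2 := by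
    rcases le_total (w.1 + u) w.2 with hh | hh
    · rw [min_eq_left hh, max_eq_right hh]
    · rw [min_eq_right hh, max_eq_left hh]
      ring
  have e6 := H.add_le h0 hu
  linarith

/-- `UU ≤ e^{- min g1 g2} min V W` -/
private lemma entry_UU (β : ℝ → ℝ) (D θ0 g1 g2 B : ℝ) (w : ℝ × ℝ) :
    UU h β D θ0 g1 g2 B w ≤ ENNReal.ofReal (Real.exp (-(min g1 g2))) *
      min (VV h β D θ0 w) (WW h B w) := by
  unfold UU
  have k1 : ENNReal.ofReal (Real.exp (-g1)) ≤ ENNReal.ofReal (Real.exp (-(min g1 g2))) :=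
    ENNReal.ofReal_le_ofReal (Real.exp_le_exp.2 (neg_le_neg (min_le_left _ _)))
  have k2 : ENNReal.ofReal (Real.exp (-g2)) ≤ ENNReal.ofReal (Real.exp (-(min g1 g2))) :=
    ENNReal.ofReal_le_ofReal (Real.exp_le_exp.2 (neg_le_neg (min_le_right _ _)))
  rcases min_choice (VV h β D θ0 w) (WW h B w) with hh | hh
  · rw [hh]
    exact (min_le_left _ _).trans (mul_le_mul' k1 le_rfl)
  · rw [hh]
    exact (min_le_right _ _).trans (mul_le_mul' k2 le_rfl)

/-- a large job when the second server is above `B` -/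
private lemma entry_A (H : HazC h h') {β : ℝ → ℝ} {θ0 c C e D : ℝ} (P : Pot μ ν h β θ0 c C e)
    (hD : 0 ≤ D) {B u t : ℝ} {w : ℝ × ℝ} (hB : 0 < B) (hBw : B ≤ w.2) (hBu : B ≤ u)
    (ht : 0 ≤ t) (h0 : 0 ≤ w.1) (h1 : w.1 ≤ w.2) :
    min (VV h β D θ0 (kwStep w u t)) (WW h B (kwStep w u t)) ≤
      ENNReal.ofReal (Real.exp (h u)) * EP h β D θ0 w := by
  have hu0 : 0 < u := lt_of_lt_of_le hB hBu
  have kA : min (VV h β D θ0 (kwStep w u t)) (WW h B (kwStep w u t)) ≤
      ENNReal.ofReal (Real.exp (h u)) * VV h β D θ0 w := by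
    unfold VV
    rw [ENNReal.mul_iInf_of_ne (by
      rw [Ne, ENNReal.ofReal_eq_zero, not_le]; exact Real.exp_pos _) ENNReal.ofReal_ne_top]
    refine le_iInf fun θ => ?_
    rw [← ENNReal.ofReal_mul (Real.exp_pos _).le]
    have hcT : 0 ≤ cT h β D θ.1 w := by
      refine le_trans (Real.exp_pos _).le (cT_ge H hD θ.2.1 (h0.trans h1))
    rcases J_zero H P hD (s := 0) hB hBw hBu ht θ.2.1 θ.2.2 h0 h1 with hh | hh
    · refine (min_le_left _ _).trans ?_
      rw [sub_zero] at hh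
      exact hh
    · refine (min_le_right _ _).trans (hh.trans ?_)
      refine ENNReal.ofReal_le_ofReal (mul_le_mul_of_nonneg_right ?_ hcT)
      refine Real.exp_le_exp.2 ?_
      have hg := gg_nonneg H hu0
      have : 0 ≤ w.1 * (gg h h' u - 0) / u := by
        rw [sub_zero]
        positivity
      linarith
  have kB : min (VV h β D θ0 (kwStep w u t)) (WW h B (kwStep w u t)) ≤
      ENNReal.ofReal (Real.exp (h u)) * ENNReal.ofReal (Real.exp (h w.1 + h w.2)) :=
    (min_le_right _ _).trans (entry_W H hu0.le ht h0 h1 hBw (by linarith))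
  unfold EP
  rcases min_choice (VV h β D θ0 w) (ENNReal.ofReal (Real.exp (h w.1 + h w.2))) with hh | hh
  · rw [hh]; exact kA
  · rw [hh]; exact kB

/-- a large job when the second server is below `B` -/
private lemma entry_B (H : HazC h h') {β : ℝ → ℝ} {θ0 c C e D : ℝ} (P : Pot μ ν h β θ0 c C e)
    (hD : 0 ≤ D) {v B u t : ℝ} {w : ℝ × ℝ} (hB : 0 < B) (hBv : 4 * B ≤ v)
    (hθv : h' v ≤ θ0) (hlh : 8 * C * h' (v / 4) ≤ h' B)
    (ht : 0 ≤ t) (h0 : 0 ≤ w.1) (h1 : w.1 ≤ w.2) (hw2 : w.2 < B)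
    (hv : v < w.1 + u) :
    VV h β D θ0 (kwStep w u t) ≤
      ENNReal.ofReal (1 + D) * (ENNReal.ofReal (Real.exp (h u)) * EP h β D θ0 w) := by
  have hv0 : 0 < v := by linarith
  have hC1 : 1 < C := by have := P.pC; have := P.pc; linarith
  set y : ℝ := w.1 + u with hy
  have hy0 : 0 < y := by linarith
  have hθ : 0 < h' y := H.pos y hy0
  have hθ1 : h' y ≤ h' v := H.anti v y hv0 hv.le
  have hθ2 : h' y ≤ θ0 := hθ1.trans hθv
  have hv4 : h' v ≤ h' (v / 4) := H.anti (v / 4) v (by linarith) (by linarith)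
  have hu4 : v / 4 ≤ u := by linarith
  have hu0 : 0 < u := by linarith
  have hw20 : 0 ≤ w.2 := h0.trans h1
  have e1 : (kwStep w u t).1 ≤ w.2 := by
    unfold kwStep
    exact (min_le_right _ _).trans (max_le (by linarith) hw20)
  have e2 : (kwStep w u t).2 ≤ y := by
    unfold kwStep
    refine max_le (max_le ?_ ?_) (max_le ?_ ?_) <;> simp only [hy] <;> linarith
  have s1 : VV h β D θ0 (kwStep w u t) ≤ VV h β D θ0 (w.2, y) := VV_mono P hD e1 e2
  refine s1.trans ((VV_le β D hθ hθ2 (w.2, y)).trans ?_)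
  refine le_trans ?_ (mul_le_mul' le_rfl (mul_le_mul' le_rfl (EP_ge H P hD h0 h1)))
  rw [← ENNReal.ofReal_mul (Real.exp_pos _).le, ← Real.exp_add, ← ENNReal.ofReal_mul (by linarith)]
  refine ENNReal.ofReal_le_ofReal ?_
  have hβ : β (h' y) ≤ C * h' y := P.up _ hθ hθ2
  have hβ0 : 0 ≤ β (h' y) := by
    have h3 := P.low _ hθ hθ2
    have h4 : 0 < (1 + c) * h' y := mul_pos (by have := P.pc; linarith) hθ
    linarith
  -- the exponent
  have k1 : β (h' y) * w.2 ≤ C * h' (v / 4) * w.2 := by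
    refine mul_le_mul_of_nonneg_right (hβ.trans ?_) hw20
    exact mul_le_mul_of_nonneg_left (hθ1.trans hv4) (by linarith)
  have k2 : h y ≤ h u + h' u * w.1 := by
    have := H.tangent hu0 (show 0 ≤ u + w.1 by linarith)
    have e3 : u + w.1 = y := by simp only [hy]; ring
    rw [e3] at this
    exact this
  have k3 : h' u * w.1 ≤ C * h' (v / 4) * w.2 := by
    have a1 : h' u ≤ h' (v / 4) := H.anti (v / 4) u (by linarith) hu4
    have a2 : 0 < h' (v / 4) := H.pos _ (by linarith)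
    calc h' u * w.1 ≤ h' (v / 4) * w.2 := mul_le_mul a1 h1 h0 a2.le
      _ ≤ C * (h' (v / 4) * w.2) := le_mul_of_one_le_left (by positivity) hC1.le
      _ = C * h' (v / 4) * w.2 := by ring
  have k4 : 8 * (C * h' (v / 4) * w.2) ≤ h w.2 := by
    rcases hw20.eq_or_lt with hz | hz
    · rw [← hz]
      have := H.nonneg 0
      simpa using this
    · have a1 : h' B ≤ h' w.2 := H.anti w.2 B hz hw2.le
      have a2 := H.mul_deriv_le hz
      have a3 : 8 * C * h' (v / 4) * w.2 ≤ h' w.2 * w.2 :=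
        mul_le_mul_of_nonneg_right (hlh.trans a1) hw20
      calc 8 * (C * h' (v / 4) * w.2) = 8 * C * h' (v / 4) * w.2 := by ring
        _ ≤ h' w.2 * w.2 := a3
        _ = w.2 * h' w.2 := by ring
        _ ≤ h w.2 := a2
  have k5 := H.nonneg w.2
  have k6 : 0 ≤ C * h' (v / 4) * w.2 := by
    have a2 : 0 < h' (v / 4) := H.pos _ (by linarith)
    positivity
  have k7 : Real.exp (β (h' y) * w.2) + D ≤ (1 + D) * Real.exp (C * h' (v / 4) * w.2) := by
    have b1 : Real.exp (β (h' y) * w.2) ≤ Real.exp (C * h' (v / 4) * w.2) :=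
      Real.exp_le_exp.2 k1
    have b2 : 1 ≤ Real.exp (C * h' (v / 4) * w.2) := Real.one_le_exp k6
    nlinarith
  unfold cT HF
  simp only
  rw [hG_at H hy0]
  have k8 : Real.exp (gg h h' y) * (Real.exp (h' y * y) * (Real.exp (β (h' y) * w.2) + D)) =
      Real.exp (h y) * (Real.exp (β (h' y) * w.2) + D) := by
    rw [← mul_assoc, ← Real.exp_add]
    congr 2
    unfold gg
    ring
  rw [k8]
  calc Real.exp (h y) * (Real.exp (β (h' y) * w.2) + D)
      ≤ Real.exp (h y) * ((1 + D) * Real.exp (C * h' (v / 4) * w.2)) :=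
        mul_le_mul_of_nonneg_left k7 (Real.exp_pos _).le
    _ = (1 + D) * Real.exp (h y + C * h' (v / 4) * w.2) := by
        rw [Real.exp_add]
        ring
    _ ≤ (1 + D) * Real.exp (h u + h w.2) := by
        refine mul_le_mul_of_nonneg_left (Real.exp_le_exp.2 ?_) (by linarith)
        linarith

/-- **Entry into the region above the low level**. Pointwise bounds, `u = p.1`, `w' = kwStep w u t`:
* `u > B`, `w₂ ≥ B`. If `EP w = V w`: `J_zero` with `s = 0` for every `θ`: either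
  `V w' ≤ e^{h u} cT θ w` or `W_B w' ≤ e^{h u} cT θ w` (`w₁ gg u / u ≥ 0`); infimum over `θ`. If
  `EP w = e^{h w₁ + h w₂}`: `W_B w' ≤ e^{h(w₁+u)+h w₂} ≤ e^{h u} e^{h w₁ + h w₂}`. So
  `UU g1 g2 w' ≤ e^{-min g1 g2} e^{h u} EP w`.
* `u > B`, `w₂ < B`: `v < w'₂ ≤ w₁ + u` forces `u ≥ v - B ≥ v/2`. With `θ = h'(w₁+u) ≤ h'(v/2) ≤ θ0`:
  `V w' ≤ V (w₂, w₁+u) ≤ e^{h(w₁+u)} (e^{β θ w₂} + D) ≤ (1+D) e^{h u + w₁ h' u + C h'(u) w₂}` and
  `(1 + C) h'(v/4) w₂ ≤ 2 C h'(v/4) w₂ ≤ w₂ h' B/4 ≤ h w₂ / 4`, so `V w' ≤ (1+D) e^{h u} e^{h w₂} ≤ (1+D) e^{h u} EP w`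
  (`EP_ge`).
* `u ≤ B`: `w'₂ > v ≥ w₂` forces `w₁ + u > v`, `w₁ ≥ v - B ≥ v/2`, `w₂ ≥ v/2`. If `EP w = V w`: `V_two` at the
  level `v/2` (`e/w₂ ≥ 0`): `∫_{u ≤ B} V w' ≤ V w`. Otherwise `W_B w' ≤ e^{h u} e^{h w₁ + h w₂}` as before.
Integrate with `law_exp_trunc_lin`. (`v1` from `V_two`, at least `2` times it, and `h' y ≤ θ0` for `y ≥ v1/2`.) -/
theorem entry (S : StdC μ ν h h') {θ0 c C D : ℝ} (hθ0 : 0 < θ0) (hc : 0 < c)
    (hC : 1 + c ≤ C) (hD : 4 * C ≤ D) :
    ∃ v1 G0 CE : ℝ, 1 ≤ v1 ∧ 0 < G0 ∧ 1 ≤ CE ∧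
      ∀ (β : ℝ → ℝ) (e v B γ g1 g2 Y : ℝ) (w : ℝ × ℝ), Pot μ ν h β θ0 c C e →
      Lev h h' C v1 G0 γ v B → 0 ≤ w.1 → w.1 ≤ w.2 → w.2 ≤ v → B ≤ Y →
      ∫⁻ p, (Set.Iic Y).indicator (fun _ => (1 : ℝ≥0∞)) p.1 *
        ({w' : ℝ × ℝ | v < w'.2}.indicator (UU h β D θ0 g1 g2 B) (kwStep w p.1 p.2)) ∂(μ.prod ν) ≤
        ENNReal.ofReal (CE * (1 + Y) * Real.exp (-(min g1 g2))) * EP h β D θ0 w := by
  have H := S.haz
  obtain ⟨v1, hv1, hV⟩ := V_two S hθ0 hc hC hD
  obtain ⟨CY, hCY, hY⟩ := law_exp_trunc_lin H S.law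
  obtain ⟨y0, hy0⟩ := (H.tendsto_deriv.eventually_lt_const hθ0).exists_forall_of_atTop
  have hC1 : 1 < C := by linarith
  have hD0 : 0 ≤ D := by linarith
  refine ⟨max (2 * v1) y0, 1, (1 + D) * CY + 1, ?_, one_pos, ?_, ?_⟩
  · exact le_trans (by linarith) (le_max_left _ _)
  · have : 0 ≤ (1 + D) * CY := by positivity
    linarith
  intro β e v B γ g1 g2 Y w P L h0 h1 hwv hBY
  have hvv1 : 2 * v1 ≤ v := (le_max_left _ _).trans L.lv
  have hvy0 : y0 ≤ v := (le_max_right _ _).trans L.lv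
  have hθv : h' v ≤ θ0 := (hy0 v hvy0).le
  have hB := L.lB
  have hBv := L.lBv
  have hv0 : 0 < v := by linarith
  have hw20 : 0 ≤ w.2 := h0.trans h1
  have hY0 : 0 ≤ Y := by linarith
  set m : ℝ≥0∞ := ENNReal.ofReal (Real.exp (-(min g1 g2))) with hm
  set E : ℝ≥0∞ := EP h β D θ0 w with hE
  have hEtop : E ≠ ∞ := by
    refine ne_top_of_le_ne_top (ENNReal.ofReal_ne_top (r := Real.exp (h w.1 + h w.2))) ?_
    exact min_le_right _ _
  classical
  -- the part of the small jobs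
  set R : ℝ × ℝ → ℝ≥0∞ := fun p => if E = VV h β D θ0 w ∧ v / 2 ≤ w.2 then
    (Set.Iic B).indicator (fun _ => (1 : ℝ≥0∞)) p.1 * VV h β D θ0 (kwStep w p.1 p.2) else 0 with hR
  have hRint : ∫⁻ p, R p ∂(μ.prod ν) ≤ E := by
    by_cases hcond : E = VV h β D θ0 w ∧ v / 2 ≤ w.2
    · have e1 : R = fun p => (Set.Iic B).indicator (fun _ => (1 : ℝ≥0∞)) p.1 *
          VV h β D θ0 (kwStep w p.1 p.2) := by
        funext p
        simp only [hR]
        rw [if_pos hcond]
      rw [e1]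
      have hT : Tilt h (C * h' (v / 2)) B := by
        intro s hs hsB
        rcases hs.eq_or_lt with hz | hz
        · rw [← hz]
          have := H.nonneg 0
          simp only [mul_zero]
          linarith
        · have a1 : h' (v / 2) ≤ h' (v / 4) := H.anti _ _ (by linarith) (by linarith)
          have a2 : h' B ≤ h' s := H.anti s B hz hsB
          have a3 := H.mul_deriv_le hz
          have a4 : 8 * (C * h' (v / 2)) ≤ h' s := by
            calc 8 * (C * h' (v / 2)) ≤ 8 * (C * h' (v / 4)) := by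
                  have := mul_le_mul_of_nonneg_left a1 (show 0 ≤ C by linarith)
                  linarith
              _ = 8 * C * h' (v / 4) := by ring
              _ ≤ h' B := L.lh
              _ ≤ h' s := a2
          have a5 : 8 * (C * h' (v / 2)) * s ≤ h' s * s := mul_le_mul_of_nonneg_right a4 hs
          have a6 := H.nonneg s
          linarith
      refine (hV β e (v / 2) B w P (by linarith) hT h0 h1 hcond.2).trans ?_
      rw [← hcond.1]
      refine mul_le_of_le_one_left zero_le ?_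
      rw [ENNReal.ofReal_le_one]
      have : 0 ≤ e / w.2 := div_nonneg P.pe hw20
      linarith
    · have e1 : R = fun _ => 0 := by
        funext p
        simp only [hR]
        rw [if_neg hcond]
      rw [e1, lintegral_zero]
      exact zero_le
  -- the part of the other jobs
  set T : ℝ → ℝ≥0∞ := fun s => (Set.Iic Y).indicator (fun _ => (1 : ℝ≥0∞)) s *
    ENNReal.ofReal (Real.exp (h s)) with hT
  have hTm : Measurable T := by
    refine Measurable.mul ?_ ?_
    · exact measurable_const.indicator measurableSet_Iic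
    · exact (ENNReal.continuous_ofReal.comp (Real.continuous_exp.comp H.cont)).measurable
  have hTint : ∫⁻ p, T p.1 ∂(μ.prod ν) ≤ ENNReal.ofReal (CY * (1 + Y)) := by
    have hTm2 : AEMeasurable (fun p : ℝ × ℝ => T p.1) (μ.prod ν) :=
      (hTm.comp measurable_fst).aemeasurable
    rw [lintegral_prod _ hTm2]
    simp only [lintegral_const, measure_univ, mul_one]
    exact hY Y hY0
  have hpt : ∀ᵐ p ∂(μ.prod ν), (Set.Iic Y).indicator (fun _ => (1 : ℝ≥0∞)) p.1 *
        ({w' : ℝ × ℝ | v < w'.2}.indicator (UU h β D θ0 g1 g2 B) (kwStep w p.1 p.2)) ≤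
      m * (ENNReal.ofReal (1 + D) * E * T p.1 + R p) := by
    filter_upwards [law_prod_nonneg S.law S.hν] with p hp
    obtain ⟨hu, ht⟩ := hp
    by_cases hpY : p.1 ≤ Y
    swap
    · rw [Set.indicator_of_notMem (by simpa using hpY), zero_mul]
      exact zero_le
    by_cases hvp : v < (kwStep w p.1 p.2).2
    swap
    · rw [Set.indicator_of_notMem (a := kwStep w p.1 p.2) (by simpa using hvp), mul_zero]
      exact zero_le
    rw [Set.indicator_of_mem (by simpa using hpY), one_mul,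
      Set.indicator_of_mem (a := kwStep w p.1 p.2) (by simpa using hvp)]
    have hTp : T p.1 = ENNReal.ofReal (Real.exp (h p.1)) := by
      simp only [hT]
      rw [Set.indicator_of_mem (by simpa using hpY), one_mul]
    have hvu : v < w.1 + p.1 := by
      unfold kwStep at hvp
      simp only [lt_max_iff] at hvp
      rcases hvp with (hh | hh) | (hh | hh) <;> linarith
    refine (entry_UU β D θ0 g1 g2 B (kwStep w p.1 p.2)).trans (mul_le_mul' le_rfl ?_)
    have hone : (1 : ℝ≥0∞) ≤ ENNReal.ofReal (1 + D) := by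
      rw [ENNReal.one_le_ofReal]
      linarith
    -- bound by the first term
    have first : ∀ X : ℝ≥0∞, X ≤ ENNReal.ofReal (Real.exp (h p.1)) * E →
        X ≤ ENNReal.ofReal (1 + D) * E * T p.1 + R p := by
      intro X hX
      refine le_trans (hX.trans ?_) le_self_add
      rw [hTp]
      calc ENNReal.ofReal (Real.exp (h p.1)) * E = 1 * E * ENNReal.ofReal (Real.exp (h p.1)) := by
            rw [one_mul, mul_comm]
        _ ≤ _ := mul_le_mul' (mul_le_mul' hone le_rfl) le_rfl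
    rcases lt_or_ge B p.1 with hBp | hBp
    · rcases le_or_gt B w.2 with hBw | hBw
      · exact first _ (entry_A H P hD0 hB hBw hBp.le ht h0 h1)
      · refine le_trans ((min_le_left _ _).trans
          (entry_B H P hD0 hB hBv hθv L.lh ht h0 h1 hBw hvu)) ?_
        refine le_trans (le_of_eq ?_) le_self_add
        rw [hTp, mul_comm (ENNReal.ofReal (Real.exp (h p.1))) E, ← mul_assoc]
    · have hw1 : v / 2 ≤ w.1 := by linarith
      have hw2 : v / 2 ≤ w.2 := hw1.trans h1
      rcases min_choice (VV h β D θ0 w) (ENNReal.ofReal (Real.exp (h w.1 + h w.2))) with hh | hh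
      · have hcond : E = VV h β D θ0 w ∧ v / 2 ≤ w.2 := ⟨hh, hw2⟩
        have hRp : R p = VV h β D θ0 (kwStep w p.1 p.2) := by
          simp only [hR]
          rw [if_pos hcond, Set.indicator_of_mem (by simpa using hBp), one_mul]
        rw [hRp]
        exact (min_le_left _ _).trans le_add_self
      · refine first _ ((min_le_right _ _).trans ?_)
        have hE2 : E = ENNReal.ofReal (Real.exp (h w.1 + h w.2)) := hh
        rw [hE2]
        exact entry_W H hu ht h0 h1 (by linarith) (by linarith)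
  refine (lintegral_mono_ae hpt).trans ?_
  rw [lintegral_const_mul' _ _ (by rw [hm]; exact ENNReal.ofReal_ne_top)]
  have hmeas : Measurable fun p : ℝ × ℝ => ENNReal.ofReal (1 + D) * E * T p.1 :=
    (hTm.comp measurable_fst).const_mul _
  rw [lintegral_add_left hmeas, lintegral_const_mul' _ _
    (ENNReal.mul_ne_top ENNReal.ofReal_ne_top hEtop)]
  have hY1 : 0 ≤ CY * (1 + Y) := by positivity
  calc m * (ENNReal.ofReal (1 + D) * E * ∫⁻ p, T p.1 ∂(μ.prod ν) + ∫⁻ p, R p ∂(μ.prod ν))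
      ≤ m * (ENNReal.ofReal (1 + D) * E * ENNReal.ofReal (CY * (1 + Y)) + E) := by
        gcongr
    _ = m * (ENNReal.ofReal ((1 + D) * (CY * (1 + Y)) + 1) * E) := by
        rw [ENNReal.ofReal_add (by positivity) zero_le_one, ENNReal.ofReal_one,
          ENNReal.ofReal_mul (show 0 ≤ 1 + D by linarith), add_mul, one_mul]
        ring
    _ ≤ m * (ENNReal.ofReal (((1 + D) * CY + 1) * (1 + Y)) * E) := by
        gcongr
        nlinarith
    _ = ENNReal.ofReal (((1 + D) * CY + 1) * (1 + Y) * Real.exp (-(min g1 g2))) * E := by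
        rw [ENNReal.ofReal_mul (show 0 ≤ ((1 + D) * CY + 1) * (1 + Y) by positivity), ← hm]
        ring

end Pool.Agent.Lib.MP_04add8_pr.Cv
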