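import Mathlib
import Pool.Agent.Lib.MP_04add8_pr.Cv.DefsP
import Pool.Agent.Lib.MP_04add8_pr.Basic

open MeasureTheory ProbabilityTheory Filter Topology
open scoped ENNReal

set_option linter.unusedSectionVars false

namespace Pool.Agent.Lib.MP_04add8_pr.Cv

open Pool.Agent.Lib.MP_04add8_pr.Gen

variable {h h' : ℝ → ℝ} {μ ν : Measure ℝ} [IsProbabilityMeasure μ]
  [IsProbabilityMeasure ν]

/-- **Foster–Lyapunov, bounded function**: integrate over `π`, use stationarity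
(`IsStationaryKW.lintegral`), and cancel the finite number `∫⁻ f ∂π` (`π` is a probability). -/
theorem fl_bound {π : Measure (ℝ × ℝ)} (hπ : IsStationaryKW μ ν π) {f g q : ℝ × ℝ → ℝ≥0∞}
    (hf : Measurable f) (hg : Measurable g) (hq : Measurable q) {M : ℝ≥0∞} (hM : M ≠ ∞)
    (hfM : ∀ w, f w ≤ M)
    (hd : ∀ w : ℝ × ℝ, 0 ≤ w.1 → w.1 ≤ w.2 →
      ∫⁻ p, f (kwStep w p.1 p.2) ∂(μ.prod ν) + g w ≤ f w + q w) :
    ∫⁻ w, g w ∂π ≤ ∫⁻ w, q w ∂π := by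
  have hp : IsProbabilityMeasure π := hπ.1
  have hfin : ∫⁻ w, f w ∂π ≠ ∞ := by
    apply ne_of_lt
    calc ∫⁻ w, f w ∂π ≤ ∫⁻ _, M ∂π := lintegral_mono fun w => hfM w
      _ = M := by simp
      _ < ∞ := lt_top_iff_ne_top.mpr hM
  have h1 := hπ.lintegral hf
  have h2 : ∫⁻ w, (∫⁻ p, f (kwStep w p.1 p.2) ∂(μ.prod ν)) ∂π + ∫⁻ w, g w ∂π
      ≤ ∫⁻ w, f w ∂π + ∫⁻ w, q w ∂π := by
    rw [← lintegral_add_right _ hg, ← lintegral_add_right _ hq]
    apply lintegral_mono_ae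
    filter_upwards [hπ.ae_ordered] with w hw
    exact hd w hw.1 hw.2
  rw [← h1] at h2
  exact (ENNReal.add_le_add_iff_left hfin).mp h2

end Pool.Agent.Lib.MP_04add8_pr.Cv
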