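import Mathlib
import Pool.Agent.Lib.MP_04add8_pr.Cv.RV

/-!
Consequences of `x h' x → ∞` for hazards of class `HazC`.
-/

open MeasureTheory ProbabilityTheory Filter Topology
open scoped ENNReal

set_option linter.unusedSectionVars false

namespace Pool.Agent.Lib.MP_04add8_pr.Cv

open Pool.Agent.Lib.MP_04add8_pr.Gen

variable {h h' : ℝ → ℝ} {μ ν : Measure ℝ} [IsProbabilityMeasure μ]
  [IsProbabilityMeasure ν]

/-- **Logarithmic gap**. `K ≤ 0`: `H.mono`. Otherwise take `y1 ≥ 1` with `x h' x ≥ K` for `x ≥ y1` (`H.big`); on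
`[y1, ∞)` the function `h x - K log x` has derivative `h' x - K / x ≥ 0`, so it is nondecreasing
(`monotoneOn_of_deriv_nonneg` or mean value theorem). -/
theorem HazC.gap (H : HazC h h') (K : ℝ) : ∃ y1 : ℝ, 1 ≤ y1 ∧ ∀ y z : ℝ, y1 ≤ y → y ≤ z →
    h y + K * (Real.log z - Real.log y) ≤ h z := by
  obtain ⟨x1, hx1⟩ := (H.big.eventually_ge_atTop |K|).exists_forall_of_atTop
  set x0 : ℝ := max x1 1 with hx0
  have hx01 : 1 ≤ x0 := le_max_right _ _
  have hx0pos : 0 < x0 := by linarith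
  have hmono : MonotoneOn (fun x => h x - |K| * Real.log x) (Set.Ici x0) := by
    apply monotoneOn_of_hasDerivWithinAt_nonneg (f' := fun x => h' x - |K| * x⁻¹)
      (convex_Ici x0)
    · apply ContinuousOn.sub H.cont.continuousOn
      apply ContinuousOn.mul continuousOn_const
      apply Real.continuousOn_log.mono
      intro x hx
      have : x0 ≤ x := hx
      simp only [Set.mem_compl_iff, Set.mem_singleton_iff]
      linarith
    · intro x hx
      rw [interior_Ici] at hx
      have hxpos : 0 < x := lt_trans hx0pos hx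
      exact ((H.deriv x hxpos).sub ((Real.hasDerivAt_log hxpos.ne').const_mul _)).hasDerivWithinAt
    · intro x hx
      rw [interior_Ici] at hx
      have hxpos : 0 < x := lt_trans hx0pos hx
      have h1 := hx1 x ((le_max_left _ _).trans (le_of_lt hx))
      have h2 : |K| * x⁻¹ ≤ h' x := by
        rw [mul_inv_le_iff₀ hxpos, mul_comm]
        exact h1
      linarith
  refine ⟨x0, hx01, fun y z hy hyz => ?_⟩
  have h3 := hmono (Set.mem_Ici.2 hy) (Set.mem_Ici.2 (hy.trans hyz)) hyz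
  simp only at h3
  have h4 : Real.log y ≤ Real.log z := Real.log_le_log (by linarith) hyz
  have h5 : K * (Real.log z - Real.log y) ≤ |K| * (Real.log z - Real.log y) :=
    mul_le_mul_of_nonneg_right (le_abs_self K) (by linarith)
  linarith

private lemma HLog_gap_gen (H : HazC h h') (K : ℝ) {f g : ℝ → ℝ} {c C : ℝ} (hc : 0 < c)
    (hf : Tendsto f atTop atTop) (hfg : ∀ᶠ x : ℝ in atTop, f x ≤ g x)
    (hlog : ∀ᶠ x : ℝ in atTop, c * Real.log x - C ≤ Real.log (g x) - Real.log (f x)) :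
    ∀ᶠ x : ℝ in atTop, h (f x) + K * Real.log x ≤ h (g x) := by
  obtain ⟨y1, -, hy1⟩ := H.gap ((|K| + 1) / c)
  have h1 : ∀ᶠ x : ℝ in atTop, (|K| + 1) / c * C ≤ Real.log x :=
    Real.tendsto_log_atTop.eventually_ge_atTop _
  filter_upwards [h1, hf.eventually_ge_atTop y1, hfg, hlog, eventually_ge_atTop 1] with
    x hx1 hx2 hx3 hx4 hx5
  have h2 := hy1 (f x) (g x) hx2 hx3
  have h3 : (|K| + 1) / c * (c * Real.log x - C) ≤
      (|K| + 1) / c * (Real.log (g x) - Real.log (f x)) :=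
    mul_le_mul_of_nonneg_left hx4 (by positivity)
  have h4 : (|K| + 1) / c * (c * Real.log x - C) =
      (|K| + 1) * Real.log x - (|K| + 1) / c * C := by
    field_simp
  have h5 : 0 ≤ Real.log x := Real.log_nonneg hx5
  have h6 : K * Real.log x ≤ |K| * Real.log x := mul_le_mul_of_nonneg_right (le_abs_self K) h5
  linarith

/-- `gap` with constant `2 |K|` between `max (a x) y1`-like point and `x²` (`a x ≤ x^(3/2)` eventually) -/
theorem HazC.gap_pow (H : HazC h h') (K a : ℝ) : ∀ᶠ x : ℝ in atTop,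
    h (a * x) + K * Real.log x ≤ h (x ^ 2) := by
  have hb : 0 < max |a| 1 := lt_of_lt_of_le one_pos (le_max_right _ _)
  have key := HLog_gap_gen H K (f := fun x => max |a| 1 * x) (g := fun x => x ^ 2) (c := 1)
    (C := Real.log (max |a| 1)) one_pos (tendsto_id.const_mul_atTop hb) ?_ ?_
  · filter_upwards [key, eventually_ge_atTop 1] with x hx hx1
    have h1 : h (a * x) ≤ h (max |a| 1 * x) :=
      H.mono (mul_le_mul_of_nonneg_right ((le_abs_self a).trans (le_max_left _ _)) (by linarith))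
    linarith
  · filter_upwards [eventually_ge_atTop (max |a| 1)] with x hx
    have hx0 : 0 < x := lt_of_lt_of_le hb hx
    nlinarith
  · filter_upwards [eventually_gt_atTop 0] with x hx
    rw [Real.log_mul hb.ne' hx.ne', Real.log_pow]
    push_cast
    linarith

theorem HazC.gap_cube (H : HazC h h') (K a : ℝ) : ∀ᶠ y : ℝ in atTop,
    h (a * y ^ 3) + K * Real.log y ≤ h (y ^ 4) := by
  have hb : 0 < max |a| 1 := lt_of_lt_of_le one_pos (le_max_right _ _)
  have key := HLog_gap_gen H K (f := fun x => max |a| 1 * x ^ 3) (g := fun x => x ^ 4) (c := 1)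
    (C := Real.log (max |a| 1)) one_pos
    ((tendsto_pow_atTop (by norm_num)).const_mul_atTop hb) ?_ ?_
  · filter_upwards [key, eventually_ge_atTop 1] with x hx hx1
    have h1 : h (a * x ^ 3) ≤ h (max |a| 1 * x ^ 3) :=
      H.mono (mul_le_mul_of_nonneg_right ((le_abs_self a).trans (le_max_left _ _))
        (by positivity))
    linarith
  · filter_upwards [eventually_ge_atTop (max |a| 1)] with x hx
    have hx0 : 0 < x := lt_of_lt_of_le hb hx
    have h3 : 0 < x ^ 3 := by positivity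
    nlinarith
  · filter_upwards [eventually_gt_atTop 0] with x hx
    have h3 : x ^ 3 ≠ 0 := by positivity
    rw [Real.log_mul hb.ne' h3, Real.log_pow, Real.log_pow]
    push_cast
    linarith

/-- `a y ≤ y ^ 2 ≤ y ^ 3` and the gap between `y ^ 2` and `y ^ 3` -/
theorem HazC.gap_cube' (H : HazC h h') (K a : ℝ) : ∀ᶠ y : ℝ in atTop,
    h (a * y) + K * Real.log y ≤ h (y ^ 3) := by
  have hb : 0 < max |a| 1 := lt_of_lt_of_le one_pos (le_max_right _ _)
  have key := HLog_gap_gen H K (f := fun x => max |a| 1 * x) (g := fun x => x ^ 3) (c := 2)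
    (C := Real.log (max |a| 1)) two_pos (tendsto_id.const_mul_atTop hb) ?_ ?_
  · filter_upwards [key, eventually_ge_atTop 1] with x hx hx1
    have h1 : h (a * x) ≤ h (max |a| 1 * x) :=
      H.mono (mul_le_mul_of_nonneg_right ((le_abs_self a).trans (le_max_left _ _)) (by linarith))
    linarith
  · filter_upwards [eventually_ge_atTop (max |a| 1), eventually_ge_atTop 1] with x hx hx1
    have h2 : max |a| 1 * x ≤ x * x := mul_le_mul_of_nonneg_right hx (by linarith)
    have h0 : (0 : ℝ) ≤ x * x := mul_self_nonneg x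
    have h3 : x * x ≤ x ^ 3 := by
      calc x * x = x * x * 1 := by ring
        _ ≤ x * x * x := mul_le_mul_of_nonneg_left hx1 h0
        _ = x ^ 3 := by ring
    exact h2.trans h3
  · filter_upwards [eventually_gt_atTop 0] with x hx
    rw [Real.log_mul hb.ne' hx.ne', Real.log_pow]
    push_cast
    linarith

theorem HazC.gap_sqrt (H : HazC h h') (K a : ℝ) : ∀ᶠ y : ℝ in atTop,
    h (a * √y) + K * Real.log y ≤ h y := by
  have hb : 0 < max |a| 1 := lt_of_lt_of_le one_pos (le_max_right _ _)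
  have key := HLog_gap_gen H K (f := fun x => max |a| 1 * √x) (g := fun x => x) (c := 1 / 2)
    (C := Real.log (max |a| 1)) (by norm_num)
    (Real.tendsto_sqrt_atTop.const_mul_atTop hb) ?_ ?_
  · filter_upwards [key, eventually_ge_atTop 1] with x hx hx1
    have h1 : h (a * √x) ≤ h (max |a| 1 * √x) :=
      H.mono (mul_le_mul_of_nonneg_right ((le_abs_self a).trans (le_max_left _ _))
        (Real.sqrt_nonneg x))
    linarith
  · filter_upwards [eventually_ge_atTop ((max |a| 1) ^ 2), eventually_ge_atTop 0] with x hx hx0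
    have h2 : max |a| 1 ≤ √x := Real.le_sqrt_of_sq_le hx
    calc max |a| 1 * √x ≤ √x * √x := mul_le_mul_of_nonneg_right h2 (Real.sqrt_nonneg x)
      _ = x := Real.mul_self_sqrt hx0
  · filter_upwards [eventually_gt_atTop 0] with x hx
    rw [Real.log_mul hb.ne' (Real.sqrt_pos.2 hx).ne', Real.log_sqrt hx.le]
    linarith

/-- for `1 ≤ A < A'`: `h (A' x) - h (A x) ≥ (A' - A) x h' (A' x) ≥ (A' - A) A'^(-C) x h' x`
(`H.lower_deriv`, `H.doubling`) -/
theorem HazC.gap_mul (H : HazC h h') {A A' : ℝ} (hA : 1 ≤ A) (hAA : A < A') :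
    ∃ c : ℝ, 0 < c ∧ ∀ x : ℝ, 0 < x → h (A * x) + c * (x * h' x) ≤ h (A' * x) := by
  obtain ⟨C, -, hC⟩ := H.doubling
  have hA' : 1 ≤ A' := by linarith
  have hA'0 : 0 < A' := by linarith
  have hp : 0 < A' ^ C := Real.rpow_pos_of_pos hA'0 C
  refine ⟨(A' - A) / A' ^ C, div_pos (by linarith) hp, fun x hx => ?_⟩
  have h1 := H.lower_deriv (x := A * x) (y := A' * x) (by positivity)
    (mul_le_mul_of_nonneg_right hAA.le hx.le) (by positivity)
  have h2 := hC x A' hx hA'
  have h3 : (A' - A) / A' ^ C * (x * h' x) ≤ (A' - A) * x * h' (A' * x) := by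
    rw [div_mul_eq_mul_div, div_le_iff₀ hp]
    calc (A' - A) * (x * h' x) ≤ (A' - A) * (x * (A' ^ C * h' (A' * x))) :=
          mul_le_mul_of_nonneg_left (mul_le_mul_of_nonneg_left h2 hx.le) (by linarith)
      _ = _ := by ring
  have h4 : (A' * x - A * x) * h' (A' * x) = (A' - A) * x * h' (A' * x) := by ring
  linarith

/-- for `0 < a ≤ 1`: `h' (a x) ≤ a ^ (-C) h' x`, in the form: for every `r > 1` there is `ε0 > 0` with
`h' ((1 - ε) x) ≤ r h' x` for `0 ≤ ε ≤ ε0` and `h' x ≤ r h' ((1 + ε) x)` (`H.doubling`, continuity of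
`l ↦ l ^ C` at `1`) -/
theorem HazC.near_one (H : HazC h h') {r : ℝ} (hr : 1 < r) : ∃ ε0 : ℝ, 0 < ε0 ∧ ε0 ≤ 1 / 2 ∧
    ∀ ε x : ℝ, 0 ≤ ε → ε ≤ ε0 → 0 < x →
      h' ((1 - ε) * x) ≤ r * h' x ∧ h' x ≤ r * h' ((1 + ε) * x) := by
  obtain ⟨C, hC0, hC⟩ := H.doubling
  have hC1 : 0 < C + 1 := by linarith
  set s : ℝ := r ^ (1 / (C + 1)) with hs
  have hr0 : 0 < r := by linarith
  have hs1 : 1 < s := Real.one_lt_rpow hr (by positivity)
  have hs0 : 0 < s := by linarith
  have hsr : s ^ (C + 1) = r := by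
    rw [hs, ← Real.rpow_mul hr0.le, one_div_mul_cancel hC1.ne', Real.rpow_one]
  have hbound : ∀ l : ℝ, 1 ≤ l → l ≤ s → l ^ C ≤ r := by
    intro l hl hls
    calc l ^ C ≤ s ^ C := Real.rpow_le_rpow (by linarith) hls hC0
      _ ≤ s ^ (C + 1) := Real.rpow_le_rpow_of_exponent_le hs1.le (by linarith)
      _ = r := hsr
  have hpos : 0 < 1 - 1 / s := by
    have : 1 / s < 1 := by
      rw [div_lt_one hs0]
      exact hs1
    linarith
  refine ⟨min (1 / 2) (1 - 1 / s), lt_min (by norm_num) hpos, min_le_left _ _,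
    fun ε x hε hε0 hx => ?_⟩
  have h1 : ε ≤ 1 / 2 := hε0.trans (min_le_left _ _)
  have h2 : 1 / s ≤ 1 - ε := by
    have := hε0.trans (min_le_right _ _)
    linarith
  have h3 : 0 < 1 - ε := by linarith
  have h4 : 1 / (1 - ε) ≤ s := by
    rw [div_le_iff₀ h3]
    rw [div_le_iff₀ hs0] at h2
    linarith
  have h5 : 1 ≤ 1 / (1 - ε) := by
    rw [le_div_iff₀ h3]
    linarith
  have h6 : 1 + ε ≤ 1 / (1 - ε) := by
    rw [le_div_iff₀ h3]
    nlinarith
  constructor
  · have h7 := hC ((1 - ε) * x) (1 / (1 - ε)) (by positivity) h5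
    have h8 : 1 / (1 - ε) * ((1 - ε) * x) = x := by field_simp
    rw [h8] at h7
    exact h7.trans (mul_le_mul_of_nonneg_right (hbound _ h5 h4) (H.pos x hx).le)
  · have h7 := hC x (1 + ε) hx (by linarith)
    exact h7.trans (mul_le_mul_of_nonneg_right (hbound _ (by linarith) (h6.trans h4))
      (H.pos _ (by positivity)).le)

/-- `h' (x / l) ≤ C' h' x` -/
theorem HazC.div_le (H : HazC h h') {l : ℝ} (hl : 1 ≤ l) : ∃ C' : ℝ, 1 ≤ C' ∧ ∀ x : ℝ, 0 < x →
    h' (x / l) ≤ C' * h' x := by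
  obtain ⟨C, hC0, hC⟩ := H.doubling
  refine ⟨l ^ C, Real.one_le_rpow hl hC0, fun x hx => ?_⟩
  have h1 := hC (x / l) l (by positivity) hl
  have h2 : l * (x / l) = x := by field_simp
  rwa [h2] at h1

/-- `√x h' (√x) → ∞` and `h (√x) ≤ C (1 + √x)`: `h (√x) ≤ ε x h' (√x)` -/
theorem HazC.sqrt_small (H : HazC h h') {ε : ℝ} (hε : 0 < ε) (K : ℝ) : ∀ᶠ x : ℝ in atTop,
    K * Real.log x + h (√x) ≤ ε * (x * h' (√x)) := by
  set M : ℝ := (2 * |K| + h 1 + h' 1) / ε with hM
  have h1 : ∀ᶠ x : ℝ in atTop, M ≤ √x * h' (√x) :=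
    Real.tendsto_sqrt_atTop.eventually (H.big.eventually_ge_atTop M)
  filter_upwards [h1, eventually_ge_atTop 1] with x hx hx1
  have hx0 : 0 ≤ x := by linarith
  set t : ℝ := √x with ht
  have ht1 : 1 ≤ t := by
    rw [ht]
    exact Real.one_le_sqrt.2 hx1
  have htt : x = t * t := (Real.mul_self_sqrt hx0).symm
  have h2 : h t ≤ h 1 + h' 1 * (t - 1) := by
    have := H.tangent (x := 1) (y := t - 1) one_pos (by linarith)
    rwa [add_sub_cancel] at this
  have h3 : Real.log x ≤ 2 * t := by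
    rw [htt, Real.log_mul (by linarith) (by linarith)]
    have := Real.log_le_sub_one_of_pos (show 0 < t by linarith)
    linarith
  have h4 : 0 ≤ Real.log x := Real.log_nonneg hx1
  have h5 : K * Real.log x ≤ |K| * (2 * t) :=
    (mul_le_mul_of_nonneg_right (le_abs_self K) h4).trans
      (mul_le_mul_of_nonneg_left h3 (abs_nonneg K))
  have h6 : h 1 ≤ h 1 * t := by
    have := H.nonneg 1
    nlinarith
  have h7 : 0 < h' 1 := H.pos 1 one_pos
  have h8 : ε * (x * h' t) = ε * t * (t * h' t) := by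
    rw [htt]
    ring
  have h9 : ε * t * M ≤ ε * t * (t * h' t) := mul_le_mul_of_nonneg_left hx (by positivity)
  have h10 : ε * t * M = (2 * |K| + h 1 + h' 1) * t := by
    rw [hM]
    field_simp
  rw [h8]
  nlinarith

end Pool.Agent.Lib.MP_04add8_pr.Cv
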