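import Mathlib
import Pool.Agent.Lib.MP_04add8_pr.Cv.Lapl

open MeasureTheory ProbabilityTheory Filter Topology
open scoped ENNReal

set_option linter.unusedSectionVars false

namespace Pool.Agent.Lib.MP_04add8_pr.Cv

open Pool.Agent.Lib.MP_04add8_pr.Gen

variable {h h' : ℝ → ℝ} {μ ν : Measure ℝ} [IsProbabilityMeasure μ]
  [IsProbabilityMeasure ν]

/-- the integrand of `trPhi μ ν B 0 θ` is `1{s ≤ B} e^{-θ t} ≤ e^{-θ t}`; Tonelli -/
theorem trPhi_zero_le (S : StdC μ ν h h') {θ : ℝ} (hθ : 0 ≤ θ) (B : ℝ) :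
    trPhi μ ν B 0 θ ≤ ENNReal.ofReal (lap ν θ) := by
  have h1 : trPhi μ ν B 0 θ ≤
      ∫⁻ p : ℝ × ℝ, ENNReal.ofReal (Real.exp (-(θ * p.2))) ∂(μ.prod ν) := by
    unfold trPhi
    apply lintegral_mono
    intro p
    have h2 : Real.exp (0 * (p.1 - p.2) - θ * p.2) = Real.exp (-(θ * p.2)) := by
      congr 1
      ring
    show (Set.Iic B).indicator (fun _ => (1 : ℝ≥0∞)) p.1 *
      ENNReal.ofReal (Real.exp (0 * (p.1 - p.2) - θ * p.2)) ≤ _
    rw [h2]
    have h3 : (Set.Iic B).indicator (fun _ => (1 : ℝ≥0∞)) p.1 ≤ 1 := by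
      by_cases hp : p.1 ∈ Set.Iic B
      · rw [Set.indicator_of_mem hp]
      · rw [Set.indicator_of_notMem hp]
        exact bot_le
    calc (Set.Iic B).indicator (fun _ => (1 : ℝ≥0∞)) p.1 *
          ENNReal.ofReal (Real.exp (-(θ * p.2)))
        ≤ 1 * ENNReal.ofReal (Real.exp (-(θ * p.2))) := by gcongr
      _ = ENNReal.ofReal (Real.exp (-(θ * p.2))) := one_mul _
  refine h1.trans (le_of_eq ?_)
  rw [← lap_lintegral S.hν hθ]
  have hm : Measurable fun t : ℝ => ENNReal.ofReal (Real.exp (-(θ * t))) := by fun_prop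
  exact (measurePreserving_snd (μ := μ) (ν := ν)).lintegral_comp hm

private lemma logConv_point {A l x y : ℝ} (hA : 0 < A) (hl0 : 0 ≤ l) (hl1 : l ≤ 1)
    (hx : 0 ≤ x) (hy : 0 ≤ y) :
    x ^ (1 - l) * y ^ l ≤ (1 - l) * A ^ (-l) * x + l * A ^ (1 - l) * y := by
  have h1 := Real.geom_mean_le_arith_mean2_weighted (sub_nonneg.2 hl1) hl0
    (mul_nonneg hx (Real.rpow_nonneg hA.le (-l))) (mul_nonneg hy (Real.rpow_nonneg hA.le (1 - l)))
    (by ring : (1 - l) + l = 1)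
  rw [Real.mul_rpow hx (Real.rpow_nonneg hA.le _), Real.mul_rpow hy (Real.rpow_nonneg hA.le _),
    ← Real.rpow_mul hA.le, ← Real.rpow_mul hA.le] at h1
  have h2 : x ^ (1 - l) * A ^ (-l * (1 - l)) * (y ^ l * A ^ ((1 - l) * l)) =
      x ^ (1 - l) * y ^ l := by
    have h3 : A ^ (-l * (1 - l)) * A ^ ((1 - l) * l) = 1 := by
      rw [← Real.rpow_add hA]
      have : -l * (1 - l) + (1 - l) * l = 0 := by ring
      rw [this, Real.rpow_zero]
    calc x ^ (1 - l) * A ^ (-l * (1 - l)) * (y ^ l * A ^ ((1 - l) * l))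
        = x ^ (1 - l) * y ^ l * (A ^ (-l * (1 - l)) * A ^ ((1 - l) * l)) := by ring
      _ = x ^ (1 - l) * y ^ l := by rw [h3, mul_one]
  rw [h2] at h1
  calc x ^ (1 - l) * y ^ l ≤ (1 - l) * (x * A ^ (-l)) + l * (y * A ^ (1 - l)) := h1
    _ = (1 - l) * A ^ (-l) * x + l * A ^ (1 - l) * y := by ring

/-- **log-convexity**. Put `l = a/β ∈ [0,1]`, `A = lap ν θ ∈ (0,1]`. Pointwise, for `x, y ≥ 0`,
`x^(1-l) y^l ≤ (1-l) x A^(-l) + l y A^(1-l)` (weighted AM-GM applied to `x A^(-l)`, `y A^(1-l)`: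
their weighted geometric mean is `x^(1-l) y^l A^(-l(1-l)) A^(l(1-l)) = x^(1-l) y^l`;
`Real.geom_mean_le_arith_mean2_weighted`). With `x = e^{-θ t}`, `y = e^{β (s - t) - θ t}` one has
`x^(1-l) y^l = e^{a (s - t) - θ t}`. Integrate over `s ≤ B`:
`trPhi a ≤ (1-l) A^(-l) trPhi 0 + l A^(1-l) trPhi β ≤ (1-l) A^(1-l) + l A^(1-l) = A^(1-l)`
and `A ≤ exp (-(1 - A))`, so `A^(1-l) ≤ exp (-(1-l)(1-A))`. -/
theorem trPhi_conv (S : StdC μ ν h h') {B a β θ : ℝ} (hθ : 0 ≤ θ) (ha : 0 ≤ a) (hab : a ≤ β)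
    (hβ : 0 < β) (h1 : trPhi μ ν B β θ ≤ 1) :
    trPhi μ ν B a θ ≤ ENNReal.ofReal (Real.exp (-((1 - a / β) * (1 - lap ν θ)))) := by
  obtain ⟨A, hAdef⟩ : ∃ A, A = lap ν θ := ⟨_, rfl⟩
  obtain ⟨l, hldef⟩ : ∃ l, l = a / β := ⟨_, rfl⟩
  have hA : 0 < A := hAdef ▸ lap_pos S.hν hθ
  have hl0 : 0 ≤ l := by rw [hldef]; positivity
  have hl1 : l ≤ 1 := by rw [hldef, div_le_one hβ]; exact hab
  have hlβ : l * β = a := by rw [hldef]; field_simp
  have hz : trPhi μ ν B 0 θ ≤ ENNReal.ofReal A := by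
    rw [hAdef]
    exact trPhi_zero_le S hθ B
  rw [← hAdef, ← hldef]
  have hc1 : 0 ≤ (1 - l) * A ^ (-l) := mul_nonneg (by linarith) (Real.rpow_nonneg hA.le _)
  have hc2 : 0 ≤ l * A ^ (1 - l) := mul_nonneg hl0 (Real.rpow_nonneg hA.le _)
  have hpt : ∀ p : ℝ × ℝ, (Set.Iic B).indicator (fun _ => (1 : ℝ≥0∞)) p.1 *
      ENNReal.ofReal (Real.exp (a * (p.1 - p.2) - θ * p.2)) ≤
      ENNReal.ofReal ((1 - l) * A ^ (-l)) *
        ((Set.Iic B).indicator (fun _ => (1 : ℝ≥0∞)) p.1 *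
          ENNReal.ofReal (Real.exp (0 * (p.1 - p.2) - θ * p.2))) +
      ENNReal.ofReal (l * A ^ (1 - l)) *
        ((Set.Iic B).indicator (fun _ => (1 : ℝ≥0∞)) p.1 *
          ENNReal.ofReal (Real.exp (β * (p.1 - p.2) - θ * p.2))) := by
    intro p
    have h2 := logConv_point hA hl0 hl1 (Real.exp_pos (0 * (p.1 - p.2) - θ * p.2)).le
      (Real.exp_pos (β * (p.1 - p.2) - θ * p.2)).le
    have h3 : Real.exp (0 * (p.1 - p.2) - θ * p.2) ^ (1 - l) *
        Real.exp (β * (p.1 - p.2) - θ * p.2) ^ l =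
        Real.exp (a * (p.1 - p.2) - θ * p.2) := by
      rw [← Real.exp_mul, ← Real.exp_mul, ← Real.exp_add]
      congr 1
      rw [← hlβ]
      ring
    rw [h3] at h2
    have h4 : ENNReal.ofReal (Real.exp (a * (p.1 - p.2) - θ * p.2)) ≤
        ENNReal.ofReal ((1 - l) * A ^ (-l)) *
          ENNReal.ofReal (Real.exp (0 * (p.1 - p.2) - θ * p.2)) +
        ENNReal.ofReal (l * A ^ (1 - l)) *
          ENNReal.ofReal (Real.exp (β * (p.1 - p.2) - θ * p.2)) := by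
      rw [← ENNReal.ofReal_mul hc1, ← ENNReal.ofReal_mul hc2,
        ← ENNReal.ofReal_add (mul_nonneg hc1 (Real.exp_pos _).le)
          (mul_nonneg hc2 (Real.exp_pos _).le)]
      exact ENNReal.ofReal_le_ofReal h2
    calc (Set.Iic B).indicator (fun _ => (1 : ℝ≥0∞)) p.1 *
          ENNReal.ofReal (Real.exp (a * (p.1 - p.2) - θ * p.2))
        ≤ (Set.Iic B).indicator (fun _ => (1 : ℝ≥0∞)) p.1 *
          (ENNReal.ofReal ((1 - l) * A ^ (-l)) *
            ENNReal.ofReal (Real.exp (0 * (p.1 - p.2) - θ * p.2)) +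
          ENNReal.ofReal (l * A ^ (1 - l)) *
            ENNReal.ofReal (Real.exp (β * (p.1 - p.2) - θ * p.2))) := by gcongr
      _ = _ := by ring
  have hm : Measurable fun p : ℝ × ℝ => ENNReal.ofReal ((1 - l) * A ^ (-l)) *
        ((Set.Iic B).indicator (fun _ => (1 : ℝ≥0∞)) p.1 *
          ENNReal.ofReal (Real.exp (0 * (p.1 - p.2) - θ * p.2))) := by
    apply Measurable.const_mul
    apply Measurable.mul
    · exact (measurable_const.indicator measurableSet_Iic).comp measurable_fst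
    · fun_prop
  have hint : trPhi μ ν B a θ ≤ ENNReal.ofReal ((1 - l) * A ^ (-l)) * trPhi μ ν B 0 θ +
      ENNReal.ofReal (l * A ^ (1 - l)) * trPhi μ ν B β θ := by
    unfold trPhi
    rw [← lintegral_const_mul' _ _ ENNReal.ofReal_ne_top,
      ← lintegral_const_mul' _ _ ENNReal.ofReal_ne_top, ← lintegral_add_left hm]
    exact lintegral_mono hpt
  have hAA : A ^ (-l) * A = A ^ (1 - l) := by
    nth_rewrite 2 [← Real.rpow_one A]
    rw [← Real.rpow_add hA]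
    congr 1
    ring
  have hfin : A ^ (1 - l) ≤ Real.exp (-((1 - l) * (1 - A))) := by
    rw [Real.rpow_def_of_pos hA]
    apply Real.exp_le_exp.2
    have h5 : Real.log A ≤ A - 1 := Real.log_le_sub_one_of_pos hA
    nlinarith [mul_le_mul_of_nonneg_left h5 (sub_nonneg.2 hl1)]
  calc trPhi μ ν B a θ ≤ ENNReal.ofReal ((1 - l) * A ^ (-l)) * trPhi μ ν B 0 θ +
        ENNReal.ofReal (l * A ^ (1 - l)) * trPhi μ ν B β θ := hint
    _ ≤ ENNReal.ofReal ((1 - l) * A ^ (-l)) * ENNReal.ofReal A +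
        ENNReal.ofReal (l * A ^ (1 - l)) * 1 := by gcongr
    _ = ENNReal.ofReal (A ^ (1 - l)) := by
        rw [mul_one, ← ENNReal.ofReal_mul hc1, ← ENNReal.ofReal_add
          (mul_nonneg hc1 hA.le) hc2]
        congr 1
        calc (1 - l) * A ^ (-l) * A + l * A ^ (1 - l)
            = (1 - l) * (A ^ (-l) * A) + l * A ^ (1 - l) := by ring
          _ = A ^ (1 - l) := by rw [hAA]; ring
    _ ≤ ENNReal.ofReal (Real.exp (-((1 - l) * (1 - A)))) := ENNReal.ofReal_le_ofReal hfin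

end Pool.Agent.Lib.MP_04add8_pr.Cv
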