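import Mathlib
import Pool.Agent.Lib.MP_04add8_pr.Cv.LogConv

open MeasureTheory ProbabilityTheory Filter Topology
open scoped ENNReal

set_option linter.unusedSectionVars false

namespace Pool.Agent.Lib.MP_04add8_pr.Cv

open Pool.Agent.Lib.MP_04add8_pr.Gen

variable {h h' : ℝ → ℝ} {μ ν : Measure ℝ} [IsProbabilityMeasure μ]
  [IsProbabilityMeasure ν]

/-- **Slack**. `cL` from `lap_lin`. `ε1 = min (1/2) (c / (2 (1 + c)))`, `κe = min (cL/4) (cL/4)`.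
`low`: `(1-ε)(1+c) ≥ 1 + c/2`. `up`, `mono`: clear. `pC`: `1 + c/2 ≤ C`. `lapl`: `2 κe ε θ ≤ cL θ ≤ 1 - lap`.
`sub`: `Tilt h (C θ) B` gives `trPhi μ ν B (β θ) θ ≤ 1` (`P.sub`, `e = 0`), so `trPhi_conv` with
`a = (1-ε) β θ`: `≤ exp (-(ε (1 - lap ν θ))) ≤ 1 - ε (1 - lap ν θ)/2 ≤ 1 - κe ε θ` (`ε (1-lap) ≤ 1`,
`e^{-x} ≤ 1 - x/2` on `[0,1]`). -/
theorem pot_slack (S : StdC μ ν h h') {β : ℝ → ℝ} {θ0 c C : ℝ} (P : Pot μ ν h β θ0 c C 0) :
    ∃ ε1 κe : ℝ, 0 < ε1 ∧ ε1 ≤ 1 / 2 ∧ 0 < κe ∧ ∀ ε : ℝ, 0 ≤ ε → ε ≤ ε1 →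
      Pot μ ν h (fun θ => (1 - ε) * β θ) θ0 (c / 2) C (κe * ε) := by
  obtain ⟨cL, hcL, hlin⟩ := lap_lin S.hν S.hm P.pθ
  have hc := P.pc
  refine ⟨min (1 / 2) (c / (2 * (1 + c))), cL / 4, lt_min (by norm_num) (by positivity),
    min_le_left _ _, by positivity, fun ε hε0 hε1 => ?_⟩
  have hε2 : ε ≤ 1 / 2 := hε1.trans (min_le_left _ _)
  have hε3 : ε ≤ c / (2 * (1 + c)) := hε1.trans (min_le_right _ _)
  have hε4 : ε * (2 * (1 + c)) ≤ c := (le_div_iff₀ (by positivity)).1 hε3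
  have hβpos : ∀ θ : ℝ, 0 < θ → θ ≤ θ0 → 0 < β θ := fun θ h1 h2 =>
    lt_of_lt_of_le (by positivity) (P.low θ h1 h2)
  refine ⟨P.pθ, by positivity, by linarith [P.pC], by positivity, ?_, ?_, ?_, ?_, ?_⟩
  · intro θ h1 h2
    have := P.low θ h1 h2
    show (1 + c / 2) * θ ≤ (1 - ε) * β θ
    calc (1 + c / 2) * θ ≤ ((1 - ε) * (1 + c)) * θ :=
          mul_le_mul_of_nonneg_right (by nlinarith) h1.le
      _ = (1 - ε) * ((1 + c) * θ) := by ring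
      _ ≤ (1 - ε) * β θ := mul_le_mul_of_nonneg_left this (by linarith)
  · intro θ h1 h2
    show (1 - ε) * β θ ≤ C * θ
    have h3 := hβpos θ h1 h2
    have h4 := P.up θ h1 h2
    nlinarith
  · intro θ θ' h1 h2 h3
    show (1 - ε) * β θ ≤ (1 - ε) * β θ'
    exact mul_le_mul_of_nonneg_left (P.mono θ θ' h1 h2 h3) (by linarith)
  · intro θ h1 h2
    have h3 := hlin θ h1 h2
    have h4 : 0 < cL * θ := by positivity
    show 2 * (cL / 4 * ε * θ) ≤ 1 - lap ν θ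
    have h5 : 2 * (cL / 4 * ε * θ) = (ε / 2) * (cL * θ) := by ring
    rw [h5]
    nlinarith
  · intro θ B h1 h2 hT
    show trPhi μ ν B ((1 - ε) * β θ) θ ≤ ENNReal.ofReal (1 - cL / 4 * ε * θ)
    have h3 := hβpos θ h1 h2
    have h4 : trPhi μ ν B (β θ) θ ≤ 1 := by
      have := P.sub θ B h1 h2 hT
      simpa using this
    have h5 := trPhi_conv S h1.le (mul_nonneg (by linarith : (0:ℝ) ≤ 1 - ε) h3.le)
      (show (1 - ε) * β θ ≤ β θ by nlinarith) h3 h4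
    refine h5.trans (ENNReal.ofReal_le_ofReal ?_)
    have h6 : 1 - (1 - ε) * β θ / β θ = ε := by
      rw [mul_div_assoc, div_self h3.ne']
      ring
    rw [h6]
    have h7 := lap_pos (ν := ν) S.hν h1.le
    have h8 := lap_le_one (ν := ν) S.hν h1.le
    have h9 := hlin θ h1 h2
    set x : ℝ := ε * (1 - lap ν θ) with hx
    have hx0 : 0 ≤ x := mul_nonneg hε0 (by linarith)
    have hx1 : x ≤ 1 := by
      calc x ≤ 1 / 2 * 1 := mul_le_mul hε2 (by linarith) (by linarith) (by norm_num)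
        _ ≤ 1 := by norm_num
    have h10 : Real.exp (-x) ≤ 1 - x / 2 := by
      have h11 : 1 + x ≤ Real.exp x := by linarith [Real.add_one_le_exp x]
      rw [Real.exp_neg]
      have h12 : (Real.exp x)⁻¹ ≤ (1 + x)⁻¹ := inv_anti₀ (by linarith) h11
      refine h12.trans ?_
      rw [inv_le_iff_one_le_mul₀ (by linarith)]
      nlinarith
    refine h10.trans ?_
    have h13 : cL / 4 * ε * θ = ε * (cL * θ) / 4 := by ring
    rw [h13]
    have h14 : ε * (cL * θ) ≤ x := mul_le_mul_of_nonneg_left h9 hε0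
    have h15 : 0 ≤ ε * (cL * θ) := by positivity
    linarith

end Pool.Agent.Lib.MP_04add8_pr.Cv
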