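import Mathlib
import Pool.Agent.Lib.MP_04add8_pr.Cv.VMeas
import Pool.Agent.Lib.MP_04add8_pr.Cv.GF

/-!
The one-job rate `RR` and bounds for the potentials of `DefsP` by it. In all proofs `cT h β D θ w =
exp (hG h θ) * (exp (θ w₂) * (exp (β θ w₁) + D))`; `VV` is the infimum of `ofReal (cT ..)` over `θ ∈ (0, θ0]`
(`le_iInf`, `VV_le`); the set in the definition of `RR` is nonempty (`θ0`) and bounded below by `0` for `x ≥ 0`
(`hG_nonneg`, `Pot.low`).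
-/

open MeasureTheory ProbabilityTheory Filter Topology
open scoped ENNReal

set_option linter.unusedSectionVars false

namespace Pool.Agent.Lib.MP_04add8_pr.Cv

open Pool.Agent.Lib.MP_04add8_pr.Gen

variable {h h' : ℝ → ℝ} {μ ν : Measure ℝ} [IsProbabilityMeasure μ]
  [IsProbabilityMeasure ν]

/-- the one-job rate of the potential `β` -/
noncomputable def RR (h : ℝ → ℝ) (β : ℝ → ℝ) (θ0 x : ℝ) : ℝ :=
  sInf ((fun θ : ℝ => hG h θ + x * (θ + β θ)) '' Set.Ioc 0 θ0)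

private lemma RRf_pos {β : ℝ → ℝ} {θ0 c C e : ℝ} (P : Pot μ ν h β θ0 c C e) {θ : ℝ}
    (hθ : 0 < θ) (hθ0 : θ ≤ θ0) : 0 ≤ β θ := by
  have h3 := P.low θ hθ hθ0
  have h4 : 0 < (1 + c) * θ := mul_pos (by have := P.pc; linarith) hθ
  linarith

private lemma RRf_C {β : ℝ → ℝ} {θ0 c C e : ℝ} (P : Pot μ ν h β θ0 c C e) : 1 ≤ C := by
  have h1 := P.pC
  have h2 := P.pc
  linarith

theorem RR_le (H : HazC h h') {β : ℝ → ℝ} {θ0 c C e : ℝ} (P : Pot μ ν h β θ0 c C e) {x θ : ℝ}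
    (hx : 0 ≤ x) (hθ : 0 < θ) (hθ0 : θ ≤ θ0) : RR h β θ0 x ≤ hG h θ + x * (θ + β θ) := by
  refine csInf_le ⟨0, ?_⟩ ⟨θ, ⟨hθ, hθ0⟩, rfl⟩
  rintro _ ⟨t, ht, rfl⟩
  have h1 := hG_nonneg H ht.1
  have h2 := RRf_pos P ht.1 ht.2
  have h3 : 0 ≤ x * (t + β t) := mul_nonneg hx (add_nonneg ht.1.le h2)
  show (0 : ℝ) ≤ hG h t + x * (t + β t)
  linarith

theorem le_RR (H : HazC h h') {β : ℝ → ℝ} {θ0 c C e : ℝ} (P : Pot μ ν h β θ0 c C e) {x R : ℝ}
    (hR : ∀ θ : ℝ, 0 < θ → θ ≤ θ0 → R ≤ hG h θ + x * (θ + β θ)) : R ≤ RR h β θ0 x := by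
  refine le_csInf ⟨_, θ0, ⟨P.pθ, le_rfl⟩, rfl⟩ ?_
  rintro _ ⟨t, ht, rfl⟩
  exact hR t ht.1 ht.2

theorem RR_nonneg (H : HazC h h') {β : ℝ → ℝ} {θ0 c C e : ℝ} (P : Pot μ ν h β θ0 c C e) {x : ℝ}
    (hx : 0 ≤ x) : 0 ≤ RR h β θ0 x := by
  refine le_RR H P fun t ht ht0 => ?_
  have h1 := hG_nonneg H ht
  have h2 := RRf_pos P ht ht0
  have h3 : 0 ≤ x * (t + β t) := mul_nonneg hx (add_nonneg ht.le h2)
  linarith

theorem RR_mono (H : HazC h h') {β : ℝ → ℝ} {θ0 c C e : ℝ} (P : Pot μ ν h β θ0 c C e) {x y : ℝ}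
    (hx : 0 ≤ x) (hxy : x ≤ y) : RR h β θ0 x ≤ RR h β θ0 y := by
  refine le_RR H P fun t ht ht0 => ?_
  have h1 := RR_le H P hx ht ht0
  have h2 := RRf_pos P ht ht0
  have h3 : x * (t + β t) ≤ y * (t + β t) :=
    mul_le_mul_of_nonneg_right hxy (add_nonneg ht.le h2)
  linarith

/-- `cT θ w ≥ e^{hG θ + θ w₂ + β θ w₁} ≥ e^{hG θ + x (θ + β θ)}`, infimum over `θ` -/
theorem VV_ge_RR (H : HazC h h') {β : ℝ → ℝ} {θ0 c C e D x : ℝ} (P : Pot μ ν h β θ0 c C e)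
    (hD : 0 ≤ D) (hx : 0 ≤ x) {w : ℝ × ℝ} (h0 : x ≤ w.1) (h1 : w.1 ≤ w.2) :
    ENNReal.ofReal (Real.exp (RR h β θ0 x)) ≤ VV h β D θ0 w := by
  refine le_iInf fun t => ENNReal.ofReal_le_ofReal ?_
  have ht := t.2
  have h2 := RRf_pos P ht.1 ht.2
  have h3 := RR_le H P hx ht.1 ht.2
  have h4 : t.1 * x ≤ t.1 * w.2 := mul_le_mul_of_nonneg_left (h0.trans h1) ht.1.le
  have h5 : β t.1 * x ≤ β t.1 * w.1 := mul_le_mul_of_nonneg_left h0 h2
  have h6 : RR h β θ0 x ≤ hG h t.1 + (t.1 * w.2 + β t.1 * w.1) := by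
    have h7 : x * (t.1 + β t.1) = t.1 * x + β t.1 * x := by ring
    linarith
  refine (Real.exp_le_exp.2 h6).trans ?_
  unfold cT HF
  rw [Real.exp_add, Real.exp_add]
  refine mul_le_mul_of_nonneg_left ?_ (Real.exp_pos _).le
  refine mul_le_mul_of_nonneg_left ?_ (Real.exp_pos _).le
  linarith

/-- final value of the combined potential: `min (e^{RR x - g1}) (e^{2 h x - g2})` -/
theorem UU_ge_final (H : HazC h h') {β : ℝ → ℝ} {θ0 c C e D x : ℝ} (P : Pot μ ν h β θ0 c C e)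
    (hD : 0 ≤ D) (hx : 0 ≤ x) {g1 g2 B : ℝ} {w : ℝ × ℝ} (h0 : x ≤ w.1) (h1 : w.1 ≤ w.2) :
    ENNReal.ofReal (min (Real.exp (RR h β θ0 x - g1)) (Real.exp (2 * h x - g2))) ≤
      UU h β D θ0 g1 g2 B w := by
  refine le_min ?_ ?_
  · refine le_trans ?_ (mul_le_mul_right (VV_ge_RR H P hD hx h0 h1) _)
    rw [← ENNReal.ofReal_mul (Real.exp_pos _).le, ← Real.exp_add]
    refine ENNReal.ofReal_le_ofReal ((min_le_left _ _).trans (le_of_eq ?_))
    congr 1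
    ring
  · unfold WW
    rw [← ENNReal.ofReal_mul (Real.exp_pos _).le, ← Real.exp_add]
    refine ENNReal.ofReal_le_ofReal ((min_le_right _ _).trans (Real.exp_le_exp.2 ?_))
    have h2 := H.mono (h0.trans (le_max_left w.1 B))
    have h3 := H.mono (h0.trans h1)
    linarith

/-- the tilt `θ = h' (w₂ + C w₁)`: `hG θ = gg (w₂ + C w₁)` (`hG_at`), `β θ ≤ C θ` -/
theorem VV_le_h (H : HazC h h') {β : ℝ → ℝ} {θ0 c C e D : ℝ} (P : Pot μ ν h β θ0 c C e)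
    (hD : 0 ≤ D) {w : ℝ × ℝ} (h0 : 0 ≤ w.1) (h1 : 0 < w.2) (hw : h' (w.2 + C * w.1) ≤ θ0) :
    VV h β D θ0 w ≤ ENNReal.ofReal ((1 + D) * Real.exp (h (w.2 + C * w.1))) := by
  have hC := RRf_C P
  have hy : 0 < w.2 + C * w.1 := by
    have : 0 ≤ C * w.1 := mul_nonneg (by linarith) h0
    linarith
  have hθ := H.pos _ hy
  refine (VV_le β D hθ hw w).trans (ENNReal.ofReal_le_ofReal ?_)
  have hg := hG_at H hy
  have hb := P.up _ hθ hw
  unfold cT HF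
  rw [hg]
  set y := w.2 + C * w.1 with hydef
  set t := h' y with htdef
  have h2 : Real.exp (β t * w.1) + D ≤ (1 + D) * Real.exp (C * t * w.1) := by
    have h3 : Real.exp (β t * w.1) ≤ Real.exp (C * t * w.1) :=
      Real.exp_le_exp.2 (mul_le_mul_of_nonneg_right hb h0)
    have h4 : 1 ≤ Real.exp (C * t * w.1) :=
      Real.one_le_exp (mul_nonneg (mul_nonneg (by linarith) hθ.le) h0)
    nlinarith
  calc Real.exp (gg h h' y) * (Real.exp (t * w.2) * (Real.exp (β t * w.1) + D))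
      ≤ Real.exp (gg h h' y) * (Real.exp (t * w.2) * ((1 + D) * Real.exp (C * t * w.1))) := by
        refine mul_le_mul_of_nonneg_left ?_ (Real.exp_pos _).le
        exact mul_le_mul_of_nonneg_left h2 (Real.exp_pos _).le
    _ = (1 + D) * (Real.exp (gg h h' y) * (Real.exp (t * w.2) * Real.exp (C * t * w.1))) := by
        ring
    _ = (1 + D) * Real.exp (h y) := by
        rw [← Real.exp_add, ← Real.exp_add]
        congr 2
        show h y - y * t + (t * w.2 + C * t * w.1) = h y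
        rw [hydef]
        ring

/-- the tilt `θ = h' ((1 + C) x)` -/
theorem RR_le_h (H : HazC h h') {β : ℝ → ℝ} {θ0 c C e : ℝ} (P : Pot μ ν h β θ0 c C e) {x : ℝ}
    (hx : 0 < x) (hw : h' ((1 + C) * x) ≤ θ0) : RR h β θ0 x ≤ h ((1 + C) * x) := by
  have hC := RRf_C P
  have hy : 0 < (1 + C) * x := mul_pos (by linarith) hx
  have hθ := H.pos _ hy
  have h1 := RR_le H P hx.le hθ hw
  rw [hG_at H hy] at h1
  have hb := P.up _ hθ hw
  have h2 : x * (h' ((1 + C) * x) + β (h' ((1 + C) * x))) ≤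
      x * (h' ((1 + C) * x) + C * h' ((1 + C) * x)) :=
    mul_le_mul_of_nonneg_left (by linarith) hx.le
  have h3 : gg h h' ((1 + C) * x) = h ((1 + C) * x) - (1 + C) * x * h' ((1 + C) * x) := rfl
  have h4 : x * (h' ((1 + C) * x) + C * h' ((1 + C) * x)) =
      (1 + C) * x * h' ((1 + C) * x) := by ring
  linarith

/-- `x β θ ε ≤ x C θ0 ε` -/
theorem RR_slack (H : HazC h h') {β : ℝ → ℝ} {θ0 c C c' e e' : ℝ} (P : Pot μ ν h β θ0 c C e)
    {ε : ℝ} (hε : 0 ≤ ε) (P' : Pot μ ν h (fun θ => (1 - ε) * β θ) θ0 c' C e') {x : ℝ} (hx : 0 ≤ x) :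
    RR h β θ0 x ≤ RR h (fun θ => (1 - ε) * β θ) θ0 x + ε * (C * θ0 * x) := by
  have hC := RRf_C P
  have h1 : RR h β θ0 x - ε * (C * θ0 * x) ≤ RR h (fun θ => (1 - ε) * β θ) θ0 x := by
    refine le_RR H P' fun t ht ht0 => ?_
    have h2 := RR_le H P hx ht ht0
    have h3 := P.up t ht ht0
    have h4 : β t ≤ C * θ0 := h3.trans (mul_le_mul_of_nonneg_left ht0 (by linarith))
    have h5 : ε * (x * β t) ≤ ε * (x * (C * θ0)) :=
      mul_le_mul_of_nonneg_left (mul_le_mul_of_nonneg_left h4 hx) hε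
    show RR h β θ0 x - ε * (C * θ0 * x) ≤ hG h t + x * (t + (1 - ε) * β t)
    have h6 : x * (t + (1 - ε) * β t) = x * (t + β t) - ε * (x * β t) := by ring
    have h7 : ε * (x * (C * θ0)) = ε * (C * θ0 * x) := by ring
    linarith
  linarith

/-- `cT` for `β` and `(1 - ε) β`: `e^{ε β w₁} ≤ e^{ε C θ0 w₁}` -/
theorem VV_slack (H : HazC h h') {β : ℝ → ℝ} {θ0 c C e D : ℝ} (P : Pot μ ν h β θ0 c C e)
    (hD : 0 ≤ D) {ε : ℝ} (hε : 0 ≤ ε) {w : ℝ × ℝ} (h0 : 0 ≤ w.1) :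
    VV h β D θ0 w ≤ ENNReal.ofReal (Real.exp (ε * (C * θ0 * w.1))) *
      VV h (fun θ => (1 - ε) * β θ) D θ0 w := by
  have hC := RRf_C P
  have hE0 : ENNReal.ofReal (Real.exp (ε * (C * θ0 * w.1))) ≠ 0 := by
    rw [Ne, ENNReal.ofReal_eq_zero, not_le]
    exact Real.exp_pos _
  show VV h β D θ0 w ≤ ENNReal.ofReal (Real.exp (ε * (C * θ0 * w.1))) *
    (⨅ θ : Set.Ioc (0 : ℝ) θ0, ENNReal.ofReal (cT h (fun θ => (1 - ε) * β θ) D θ.1 w))
  rw [ENNReal.mul_iInf_of_ne hE0 ENNReal.ofReal_ne_top]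
  refine le_iInf fun t => ?_
  have ht := t.2
  refine (VV_le β D ht.1 ht.2 w).trans ?_
  rw [← ENNReal.ofReal_mul (Real.exp_pos _).le]
  refine ENNReal.ofReal_le_ofReal ?_
  unfold cT HF
  have h3 := P.up t.1 ht.1 ht.2
  have h4 : β t.1 ≤ C * θ0 := h3.trans (mul_le_mul_of_nonneg_left ht.2 (by linarith))
  have hθ0 : 0 < θ0 := P.pθ
  have hE1 : 1 ≤ Real.exp (ε * (C * θ0 * w.1)) :=
    Real.one_le_exp (mul_nonneg hε (mul_nonneg (mul_nonneg (by linarith) hθ0.le) h0))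
  have h5 : Real.exp (β t.1 * w.1) ≤
      Real.exp (ε * (C * θ0 * w.1)) * Real.exp ((1 - ε) * β t.1 * w.1) := by
    rw [← Real.exp_add]
    refine Real.exp_le_exp.2 ?_
    have h6 : ε * (β t.1 * w.1) ≤ ε * (C * θ0 * w.1) :=
      mul_le_mul_of_nonneg_left (mul_le_mul_of_nonneg_right h4 h0) hε
    nlinarith
  have h7 : D ≤ Real.exp (ε * (C * θ0 * w.1)) * D := le_mul_of_one_le_left hD hE1
  calc Real.exp (hG h t.1) * (Real.exp (t.1 * w.2) * (Real.exp (β t.1 * w.1) + D))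
      ≤ Real.exp (hG h t.1) * (Real.exp (t.1 * w.2) *
        (Real.exp (ε * (C * θ0 * w.1)) * Real.exp ((1 - ε) * β t.1 * w.1) +
          Real.exp (ε * (C * θ0 * w.1)) * D)) := by
        refine mul_le_mul_of_nonneg_left ?_ (Real.exp_pos _).le
        exact mul_le_mul_of_nonneg_left (add_le_add h5 h7) (Real.exp_pos _).le
    _ = Real.exp (ε * (C * θ0 * w.1)) * (Real.exp (hG h t.1) *
        (Real.exp (t.1 * w.2) * (Real.exp ((1 - ε) * β t.1 * w.1) + D))) := by ring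

theorem VV_slack_le (H : HazC h h') {β : ℝ → ℝ} {θ0 c C e D : ℝ} (P : Pot μ ν h β θ0 c C e)
    {ε : ℝ} (hε : 0 ≤ ε) {w : ℝ × ℝ} (h0 : 0 ≤ w.1) :
    VV h (fun θ => (1 - ε) * β θ) D θ0 w ≤ VV h β D θ0 w := by
  refine iInf_mono fun t => ENNReal.ofReal_le_ofReal ?_
  have ht := t.2
  have h2 := RRf_pos P ht.1 ht.2
  unfold cT HF
  refine mul_le_mul_of_nonneg_left ?_ (Real.exp_pos _).le
  refine mul_le_mul_of_nonneg_left ?_ (Real.exp_pos _).le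
  have h3 : Real.exp ((1 - ε) * β t.1 * w.1) ≤ Real.exp (β t.1 * w.1) := by
    refine Real.exp_le_exp.2 ?_
    have h4 : 0 ≤ ε * (β t.1 * w.1) := mul_nonneg hε (mul_nonneg h2 h0)
    nlinarith
  show Real.exp ((1 - ε) * β t.1 * w.1) + D ≤ Real.exp (β t.1 * w.1) + D
  linarith

end Pool.Agent.Lib.MP_04add8_pr.Cv
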