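import Mathlib
import Pool.Agent.Lib.MP_04add8_pr.Cv.LogConv
import Pool.Agent.Lib.MP_04add8_pr.Cv.VMeas

/-!
Constants: `cL` from `lap_lin` for `θ0`; `κ1 = cL / (2 C)`; `cW = κ1 / 4`; `Ce = ∫ e^{h/4} dμ`, `m = ∫ t dν`; `v1 ≥ 1` such that
`h' y ≤ θ0` for `y ≥ v1`; `G0` large: `G0 ≥ 8 log (1 + D)`, `κ1 G0 / 4 ≥ 2 m Ce`, `G0 ≥ 1`, and so large that
`gg h h' s ≥ G0`, `s > 0` imply `κ1 h s ≤ s` (possible: `h s / s → 0` and `gg ≤ h`, so `gg s ≥ G0` forces `s` large).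
Proof. `θ1 = h' w2 ≤ h' v ≤ θ0`, `b1 = β θ1 ≤ C θ1 ≤ C h' v ≤ h' B / 8`. By `VV_le` and `hG_at`,
`VV w ≤ e^{gg(w2) + θ1 w2} (e^{b1 w1} + D) ≤ e^{h w2} (1 + D) e^{b1 w1}`, so the hypothesis gives
(1) `h (max w1 B) ≤ b1 w1 + γ'`, `γ' = γ + log (1+D) ≤ gg B / 8`... (in fact `γ' ≤ gg B/4`, as `8 γ + G0 ≤ gg B`, `8 log(1+D) ≤ G0`).
If `w1 < 2B`: `h B ≤ h (max w1 B) ≤ 2 b1 B + γ' ≤ B h' B / 4 + gg B / 4`, but `h B = gg B + B h' B`: contradiction (`gg B > 0`, `B h' B > 0`).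
So `2B ≤ w1`, and (1) reads `h w1 ≤ b1 w1 + γ'` with `γ' ≤ gg B/2 ≤ gg w1/2` (`gg_mono`). As `h w1 = gg w1 + w1 h' w1`:
`a1 := h' w1 ≤ b1 - gg w1 / (2 w1)`. Put `a2 = θ1`, `τ = min t (w1 - B)`.
Pointwise for `0 ≤ s ≤ B`, `0 ≤ t`: `WW h B (kwStep w s t) ≤ WW h B w * e^{a1 (s - τ) - a2 τ}`: with `X = (w1+s-t)^+`, `Y = (w2-t)^+`,
`h (max (min X Y) B) + h (max X Y) ≤ h (max X B) + h (max Y B)`; `max X B ≤ w1 + s - τ` and `max Y B ≤ w2 - τ` (both cases of τ; `w1 ≤ w2`),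
and the tangents `h y ≤ h w1 + a1 (y - w1)`, `h y ≤ h w2 + a2 (y - w2)` (`HazC.tangent`), `max w1 B = w1`.
Integral over `s ≤ B`: on `t ≤ w1 - B` it is at most `trPhi μ ν B a1 a2`, and `trPhi μ ν B b1 a2 ≤ 1` (`Pot.sub`, `Tilt h (C θ1) B`:
`C θ1 s ≤ h' B s / 8 ≤ s h' s / 8 ≤ h s / 8`), so `trPhi_conv` gives `≤ exp (-(1 - a1/b1)(1 - lap ν θ1)) ≤ exp (-q)`,
`q = κ1 gg w1 / w1` (`1 - a1/b1 ≥ gg w1/(2 w1 b1) ≥ gg w1/(2 w1 C θ1)`, `1 - lap ≥ cL θ1`). On `t > w1 - B`, `τ = w1 - B` and the integrand is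
`≤ e^{a1 s} ≤ e^{h s/4}`, `ν (t > w1 - B) ≤ ν (t ≥ w1/2) ≤ 2 m / w1` (Markov, `w1 - B ≥ w1/2`): contribution `≤ 2 m Ce / w1`.
`q ≤ 1` by the choice of `G0` (`gg w1 ≥ G0`, `κ1 gg w1 ≤ κ1 h w1 ≤ w1`), so `e^{-q} ≤ 1 - q/2`, and
`1 - q/2 + 2 m Ce / w1 ≤ 1 - κ1 gg w1/(4 w1)` since `κ1 gg w1 / 4 ≥ κ1 G0/4 ≥ 2 m Ce`.
-/

open MeasureTheory ProbabilityTheory Filter Topology
open scoped ENNReal

set_option linter.unusedSectionVars false

namespace Pool.Agent.Lib.MP_04add8_pr.Cv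

open Pool.Agent.Lib.MP_04add8_pr.Gen

variable {h h' : ℝ → ℝ} {μ ν : Measure ℝ} [IsProbabilityMeasure μ]
  [IsProbabilityMeasure ν]

/-- threshold for `gg` which forces `κ h s ≤ s` -/
private lemma WOneC_thr (H : HazC h h') {κ : ℝ} (hκ : 0 < κ) :
    ∃ G : ℝ, ∀ s : ℝ, 0 < s → G ≤ gg h h' s → κ * h s ≤ s := by
  have h1 : ∀ᶠ s : ℝ in atTop, h s / s < 1 / κ :=
    H.tendsto_div.eventually_lt_const (by positivity)
  obtain ⟨s0, hs0⟩ := h1.exists_forall_of_atTop
  refine ⟨h s0 + 1, fun s hs hg => ?_⟩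
  have h2 : s0 ≤ s := by
    by_contra hcon
    have h3 := H.mono (not_le.1 hcon).le
    have h4 := gg_le H hs
    linarith
  have h3 := hs0 s h2
  rw [div_lt_div_iff₀ hs hκ] at h3
  linarith

/-- pointwise bound of one step -/
private lemma WOneC_pt (H : HazC h h') {B w1 w2 s t : ℝ} (hB : 0 < B) (hs : 0 ≤ s)
    (h2B : 2 * B ≤ w1) (h12 : w1 ≤ w2) {τ : ℝ} (hτ1 : τ ≤ t) (hτ2 : τ ≤ w1 - B) :
    WW h B (kwStep (w1, w2) s t) ≤
      WW h B (w1, w2) * ENNReal.ofReal (Real.exp (h' w1 * (s - τ) - h' w2 * τ)) := by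
  have hw1 : 0 < w1 := by linarith
  have hw2 : 0 < w2 := by linarith
  have hmx : max w1 B = w1 := max_eq_left (by linarith)
  unfold WW
  rw [← ENNReal.ofReal_mul (Real.exp_pos _).le, ← Real.exp_add]
  refine ENNReal.ofReal_le_ofReal (Real.exp_le_exp.2 ?_)
  set X : ℝ := max (w1 + s - t) 0 with hX
  set Y : ℝ := max (w2 - t) 0 with hY
  have hX1 : max X B ≤ w1 + s - τ := by
    refine max_le (max_le ?_ ?_) ?_ <;> linarith
  have hY1 : max Y B ≤ w2 - τ := by
    refine max_le (max_le ?_ ?_) ?_ <;> linarith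
  have e1 : h (w1 + s - τ) ≤ h w1 + h' w1 * (s - τ) := by
    have := H.tangent (x := w1) (y := s - τ) hw1 (by linarith)
    rwa [show w1 + (s - τ) = w1 + s - τ by ring] at this
  have e2 : h (w2 - τ) ≤ h w2 + h' w2 * (-τ) := by
    have := H.tangent (x := w2) (y := -τ) hw2 (by linarith)
    rwa [show w2 + -τ = w2 - τ by ring] at this
  have hk : h (max (kwStep (w1, w2) s t).1 B) + h (kwStep (w1, w2) s t).2 ≤
      h (max X B) + h (max Y B) := by
    have hk1 : kwStep (w1, w2) s t = (min X Y, max X Y) := rfl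
    rw [hk1]
    simp only
    rcases le_total X Y with hXY | hXY
    · rw [min_eq_left hXY, max_eq_right hXY]
      have := H.mono (le_max_left Y B)
      linarith
    · rw [min_eq_right hXY, max_eq_left hXY]
      have := H.mono (le_max_left X B)
      linarith
  have f1 := H.mono hX1
  have f2 := H.mono hY1
  simp only [hmx]
  linarith

/-- the small-job exponential -/
private lemma WOneC_small (H : HazC h h') {B b s : ℝ} (hb : b ≤ h' B / 8) (hs : 0 ≤ s)
    (hsB : s ≤ B) : b * s ≤ h s / 4 := by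
  rcases hs.eq_or_lt with rfl | hs0
  · rw [mul_zero]
    have := H.nonneg 0
    linarith
  · have h1 := H.anti s B hs0 hsB
    have h2 := H.mul_deriv_le hs0
    have h3 := H.nonneg s
    have h4 : b * s ≤ h' B / 8 * s := mul_le_mul_of_nonneg_right hb hs
    have h5 : h' B / 8 * s ≤ h' s / 8 * s := mul_le_mul_of_nonneg_right (by linarith) hs
    nlinarith

/-- Markov inequality for the interarrival law -/
private lemma WOneC_markov (hν : ν (Set.Iio 0) = 0) (hνi : Integrable (fun t : ℝ => t) ν)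
    {y w1 : ℝ} (hw : 0 < w1) (hy : w1 / 2 ≤ y) :
    ν (Set.Ioi y) ≤ ENNReal.ofReal (2 * (∫ t, t ∂ν) / w1) := by
  have hnn : 0 ≤ᵐ[ν] (fun t : ℝ => t) := ae_nonneg_of_Iio hν
  have h1 := mul_meas_ge_le_integral_of_nonneg hnn hνi (w1 / 2)
  have h2 : ν.real {x | w1 / 2 ≤ x} ≤ 2 * (∫ t, t ∂ν) / w1 := by
    rw [le_div_iff₀ hw]
    linarith
  calc ν (Set.Ioi y) ≤ ν {x | w1 / 2 ≤ x} := by
        refine measure_mono fun x hx => ?_
        have : y < x := hx
        show w1 / 2 ≤ x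
        linarith
    _ = ENNReal.ofReal (ν.real {x | w1 / 2 ≤ x}) := by
        rw [measureReal_def, ENNReal.ofReal_toReal (measure_ne_top _ _)]
    _ ≤ _ := ENNReal.ofReal_le_ofReal h2

/-- **The two-jobs potential in its own branch**. See the header. -/
theorem W_one (S : StdC μ ν h h') {θ0 c C D : ℝ} (hθ0 : 0 < θ0) (hc : 0 < c) (hC : 1 + c ≤ C)
    (hD : 4 * C ≤ D) :
    ∃ v1 cW G0 : ℝ, 1 ≤ v1 ∧ 0 < cW ∧ 0 < G0 ∧
      ∀ (β : ℝ → ℝ) (e v B γ : ℝ) (w : ℝ × ℝ), Pot μ ν h β θ0 c C e →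
      v1 ≤ v → 0 < B → B ≤ v → 8 * C * h' v ≤ h' B → 0 ≤ γ → 8 * γ + G0 ≤ gg h h' B →
      0 ≤ w.1 → w.1 ≤ w.2 → v ≤ w.2 →
      WW h B w ≤ ENNReal.ofReal (Real.exp γ) * VV h β D θ0 w →
      2 * B ≤ w.1 ∧ cW * gg h h' w.1 ≤ w.1 ∧
      ∫⁻ p, (Set.Iic B).indicator (fun _ => (1 : ℝ≥0∞)) p.1 *
        WW h B (kwStep w p.1 p.2) ∂(μ.prod ν) ≤
        ENNReal.ofReal (1 - cW * gg h h' w.1 / w.1) * WW h B w := by
  have H := S.haz
  obtain ⟨cL, hcL, hcL'⟩ := lap_lin S.hν S.hm hθ0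
  have hC0 : 0 < C := by linarith
  have hD0 : 0 ≤ D := by linarith
  set κ : ℝ := cL / (2 * C) with hκd
  have hκ : 0 < κ := by positivity
  set m : ℝ := ∫ t, t ∂ν with hm
  have hmpos : 0 < m := S.hm
  set Ce : ℝ := ∫ s, Real.exp (1 / 4 * h s) ∂μ with hCe
  have hCei : Integrable (fun s : ℝ => Real.exp (1 / 4 * h s)) μ :=
    law_integrable_exp H S.law (by norm_num)
  have hCe0 : 0 ≤ Ce := integral_nonneg fun s => (Real.exp_pos _).le
  obtain ⟨G1, hG1⟩ := WOneC_thr H hκ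
  obtain ⟨v0, hv0⟩ := (H.tendsto_deriv.eventually_le_const hθ0).exists_forall_of_atTop
  set G0 : ℝ := max (max 1 (8 * Real.log (1 + D))) (max (8 * m * Ce / κ) G1) with hG0
  have g1 : 1 ≤ G0 := (le_max_left _ _).trans (le_max_left _ _)
  have g2 : 8 * Real.log (1 + D) ≤ G0 := (le_max_right _ _).trans (le_max_left _ _)
  have g3 : 8 * m * Ce / κ ≤ G0 := (le_max_left _ _).trans (le_max_right _ _)
  have g4 : G1 ≤ G0 := (le_max_right _ _).trans (le_max_right _ _)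
  refine ⟨max v0 1, κ / 4, G0, le_max_right _ _, by positivity, by linarith, ?_⟩
  rintro β e v B γ ⟨w1, w2⟩ P hv hB hBv h8 hγ hg hw0 hw12 hvw hW
  simp only at hw0 hw12 hvw ⊢
  have hv1 : 1 ≤ v := (le_max_right _ _).trans hv
  have hv2 : v0 ≤ v := (le_max_left _ _).trans hv
  have hvpos : 0 < v := by linarith
  have hw2 : 0 < w2 := by linarith
  set θ : ℝ := h' w2 with hθ
  have hθpos : 0 < θ := H.pos w2 hw2
  have hθv : θ ≤ h' v := H.anti v w2 hvpos hvw
  have hθ0' : θ ≤ θ0 := hθv.trans (hv0 v hv2)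
  set b : ℝ := β θ with hb
  have hb1 : (1 + c) * θ ≤ b := P.low θ hθpos hθ0'
  have hb2 : b ≤ C * θ := P.up θ hθpos hθ0'
  have hbpos : 0 < b := lt_of_lt_of_le (by positivity) hb1
  have hCθ : C * θ ≤ h' B / 8 := by
    have : C * θ ≤ C * h' v := mul_le_mul_of_nonneg_left hθv hC0.le
    linarith
  have hbB : b ≤ h' B / 8 := hb2.trans hCθ
  have hBd : 0 < h' B := H.pos B hB
  have hggB : h B = gg h h' B + B * h' B := by
    unfold gg
    ring
  -- the exponential inequality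
  have hlog : h (max w1 B) ≤ b * w1 + (γ + Real.log (1 + D)) := by
    have e1 := hW.trans (mul_le_mul_right (VV_le (h := h) β D hθpos hθ0' (w1, w2)) _)
    unfold WW cT HF at e1
    rw [← ENNReal.ofReal_mul (Real.exp_pos _).le] at e1
    simp only at e1
    have e2 := (ENNReal.ofReal_le_ofReal_iff (by
      have := Real.exp_pos (b * w1)
      positivity)).1 e1
    have e3 : hG h θ = gg h h' w2 := hG_at H hw2
    have e4 : 1 ≤ Real.exp (b * w1) := Real.one_le_exp (by positivity)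
    have e5 : Real.exp (b * w1) + D ≤ (1 + D) * Real.exp (b * w1) := by nlinarith
    have e6 : Real.exp (h (max w1 B) + h w2) ≤
        Real.exp (γ + h w2 + Real.log (1 + D) + b * w1) := by
      refine e2.trans ?_
      rw [e3, Real.exp_add, Real.exp_add, Real.exp_add, Real.exp_log (by linarith)]
      have e7 : Real.exp (h w2) = Real.exp (gg h h' w2) * Real.exp (θ * w2) := by
        rw [← Real.exp_add]
        congr 1
        unfold gg
        rw [hθ]
        ring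
      rw [e7]
      calc Real.exp γ * (Real.exp (gg h h' w2) * (Real.exp (θ * w2) * (Real.exp (b * w1) + D)))
          ≤ Real.exp γ * (Real.exp (gg h h' w2) * (Real.exp (θ * w2) *
            ((1 + D) * Real.exp (b * w1)))) := by gcongr
        _ = _ := by ring
    have e8 := Real.exp_le_exp.1 e6
    linarith
  set γ' : ℝ := γ + Real.log (1 + D) with hγ'
  have hγB : γ' ≤ gg h h' B / 8 := by
    rw [hγ']
    linarith
  have hggBpos : 0 < gg h h' B := by linarith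
  have h2B : 2 * B ≤ w1 := by
    by_contra hcon
    have hcon' : w1 < 2 * B := not_le.1 hcon
    have e1 := H.mono (le_max_right w1 B)
    have e2 : b * w1 ≤ b * (2 * B) := mul_le_mul_of_nonneg_left hcon'.le hbpos.le
    have e3 : b * (2 * B) ≤ h' B / 8 * (2 * B) := mul_le_mul_of_nonneg_right hbB (by linarith)
    have e4 : 0 < B * h' B := mul_pos hB hBd
    nlinarith
  have hw1 : 0 < w1 := by linarith
  rw [max_eq_left (show B ≤ w1 by linarith)] at hlog
  have hggw : gg h h' B ≤ gg h h' w1 := gg_mono H hB (by linarith)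
  have hggw0 : G0 ≤ gg h h' w1 := by linarith
  have hggwpos : 0 < gg h h' w1 := by linarith
  have hkh : κ * h w1 ≤ w1 := hG1 w1 hw1 (g4.trans hggw0)
  have hkg : κ * gg h h' w1 ≤ w1 :=
    (mul_le_mul_of_nonneg_left (gg_le H hw1) hκ.le).trans hkh
  set a : ℝ := h' w1 with ha
  have hapos : 0 < a := H.pos w1 hw1
  have hggw' : h w1 = gg h h' w1 + w1 * a := by
    unfold gg
    rw [ha]
    ring
  have hab : gg h h' w1 / 2 ≤ (b - a) * w1 := by nlinarith
  have hab' : a ≤ b := by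
    by_contra hcon
    have : (b - a) * w1 < 0 := mul_neg_of_neg_of_pos (by linarith) hw1
    linarith
  refine ⟨h2B, by nlinarith, ?_⟩
  -- the transform
  set q : ℝ := κ * gg h h' w1 / w1 with hq
  have hq0 : 0 ≤ q := by positivity
  have hq1 : q ≤ 1 := by
    rw [hq, div_le_one hw1]
    exact hkg
  have hTilt : Tilt h (C * θ) B := fun s hs hsB => WOneC_small H hCθ hs hsB
  have htr1 : trPhi μ ν B b θ ≤ 1 := by
    refine (P.sub θ B hθpos hθ0' hTilt).trans ?_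
    rw [← ENNReal.ofReal_one]
    refine ENNReal.ofReal_le_ofReal ?_
    have := mul_nonneg P.pe hθpos.le
    linarith
  have htr2 := trPhi_conv S hθpos.le hapos.le hab' hbpos htr1
  have hlapl := hcL' θ hθpos hθ0'
  have hexp : q ≤ (1 - a / b) * (1 - lap ν θ) := by
    have e1 : gg h h' w1 / (2 * w1 * (C * θ)) ≤ 1 - a / b := by
      rw [one_sub_div hbpos.ne', div_le_div_iff₀ (by positivity) hbpos]
      have e2 : gg h h' w1 * b ≤ gg h h' w1 * (C * θ) :=
        mul_le_mul_of_nonneg_left hb2 hggwpos.le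
      have e3 : gg h h' w1 / 2 * (2 * (C * θ)) ≤ (b - a) * w1 * (2 * (C * θ)) :=
        mul_le_mul_of_nonneg_right hab (by positivity)
      nlinarith
    have e2 : q = gg h h' w1 / (2 * w1 * (C * θ)) * (cL * θ) := by
      rw [hq, hκd]
      field_simp
    rw [e2]
    have e3 : 0 ≤ gg h h' w1 / (2 * w1 * (C * θ)) := by positivity
    exact mul_le_mul e1 hlapl (by positivity) (e3.trans e1)
  have hexpq : Real.exp (-q) ≤ 1 - q / 2 := by
    have e1 : Real.exp (-q) * (1 + q) ≤ 1 := by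
      have e2 := Real.add_one_le_exp q
      have e3 : Real.exp (-q) * Real.exp q = 1 := by
        rw [← Real.exp_add]
        simp
      nlinarith [Real.exp_pos (-q)]
    have e4 : 1 ≤ (1 - q / 2) * (1 + q) := by nlinarith
    have e5 : Real.exp (-q) * (1 + q) ≤ (1 - q / 2) * (1 + q) := e1.trans e4
    exact le_of_mul_le_mul_right e5 (by linarith)
  have htr3 : trPhi μ ν B a θ ≤ ENNReal.ofReal (1 - q / 2) := by
    refine htr2.trans (ENNReal.ofReal_le_ofReal ?_)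
    refine (Real.exp_le_exp.2 ?_).trans hexpq
    linarith
  -- pointwise bound
  have hpt : ∀ᵐ p ∂(μ.prod ν), (Set.Iic B).indicator (fun _ => (1 : ℝ≥0∞)) p.1 *
      WW h B (kwStep (w1, w2) p.1 p.2) ≤ WW h B (w1, w2) *
        ((Set.Iic B).indicator (fun _ => (1 : ℝ≥0∞)) p.1 *
          ENNReal.ofReal (Real.exp (a * (p.1 - p.2) - θ * p.2)) +
        ENNReal.ofReal (Real.exp (1 / 4 * h p.1)) *
          (Set.Ioi (w1 - B)).indicator (fun _ => (1 : ℝ≥0∞)) p.2) := by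
    filter_upwards [law_prod_nonneg S.law S.hν] with p hp
    by_cases hpB : p.1 ≤ B
    · rw [Set.indicator_of_mem (show p.1 ∈ Set.Iic B from hpB), one_mul, one_mul]
      by_cases hpt : p.2 ≤ w1 - B
      · refine (WOneC_pt H hB hp.1 h2B hw12 (le_refl p.2) hpt).trans ?_
        exact mul_le_mul_right (le_add_of_nonneg_right zero_le) _
      · have hpt' : w1 - B < p.2 := not_le.1 hpt
        rw [Set.indicator_of_mem (show p.2 ∈ Set.Ioi (w1 - B) from hpt'), mul_one]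
        refine (WOneC_pt H hB hp.1 h2B hw12 hpt'.le (le_refl (w1 - B))).trans ?_
        refine mul_le_mul_right (le_add_of_nonneg_of_le zero_le ?_) _
        refine ENNReal.ofReal_le_ofReal (Real.exp_le_exp.2 ?_)
        have e1 : a * p.1 ≤ h p.1 / 4 := WOneC_small H (hab'.trans hbB) hp.1 hpB
        have e2 : 0 ≤ a * (w1 - B) := mul_nonneg hapos.le (by linarith)
        have e3 : 0 ≤ θ * (w1 - B) := mul_nonneg hθpos.le (by linarith)
        linarith
    · rw [Set.indicator_of_notMem (show p.1 ∉ Set.Iic B from hpB), zero_mul]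
      exact zero_le
  have hcont := H.cont
  have hm1 : Measurable (fun p : ℝ × ℝ => (Set.Iic B).indicator (fun _ => (1 : ℝ≥0∞)) p.1 *
      ENNReal.ofReal (Real.exp (a * (p.1 - p.2) - θ * p.2))) := by
    refine Measurable.mul ?_ (by fun_prop)
    exact (measurable_const.indicator measurableSet_Iic).comp measurable_fst
  have hm2 : Measurable (fun s : ℝ => ENNReal.ofReal (Real.exp (1 / 4 * h s))) := by fun_prop
  have hm3 : Measurable (fun t : ℝ => (Set.Ioi (w1 - B)).indicator (fun _ => (1 : ℝ≥0∞)) t) :=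
    measurable_const.indicator measurableSet_Ioi
  refine (lintegral_mono_ae hpt).trans ?_
  have hm23 : Measurable (fun p : ℝ × ℝ => ENNReal.ofReal (Real.exp (1 / 4 * h p.1)) *
      (Set.Ioi (w1 - B)).indicator (fun _ => (1 : ℝ≥0∞)) p.2) :=
    (hm2.comp measurable_fst).mul (hm3.comp measurable_snd)
  have hsplit : ∫⁻ p, WW h B (w1, w2) *
        ((Set.Iic B).indicator (fun _ => (1 : ℝ≥0∞)) p.1 *
          ENNReal.ofReal (Real.exp (a * (p.1 - p.2) - θ * p.2)) +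
        ENNReal.ofReal (Real.exp (1 / 4 * h p.1)) *
          (Set.Ioi (w1 - B)).indicator (fun _ => (1 : ℝ≥0∞)) p.2) ∂(μ.prod ν) =
      WW h B (w1, w2) * (trPhi μ ν B a θ +
        (∫⁻ s, ENNReal.ofReal (Real.exp (1 / 4 * h s)) ∂μ) *
          ∫⁻ t, (Set.Ioi (w1 - B)).indicator (fun _ => (1 : ℝ≥0∞)) t ∂ν) := by
    have e0 := lintegral_const_mul (μ := μ.prod ν) (WW h B (w1, w2)) (hm1.add hm23)
    have e1 := lintegral_add_left (μ := μ.prod ν) hm1 (fun p : ℝ × ℝ =>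
      ENNReal.ofReal (Real.exp (1 / 4 * h p.1)) *
      (Set.Ioi (w1 - B)).indicator (fun _ => (1 : ℝ≥0∞)) p.2)
    have e2 := lintegral_prod_mul (μ := μ) (ν := ν) hm2.aemeasurable hm3.aemeasurable
    refine e0.trans ?_
    congr 1
    refine e1.trans ?_
    rw [e2]
    rfl
  rw [hsplit, mul_comm]
  refine mul_le_mul_left ?_ _
  have hI : ∫⁻ s, ENNReal.ofReal (Real.exp (1 / 4 * h s)) ∂μ = ENNReal.ofReal Ce := by
    rw [hCe, ofReal_integral_eq_lintegral_ofReal hCei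
      (Eventually.of_forall fun s => (Real.exp_pos _).le)]
  have hN : ∫⁻ t, (Set.Ioi (w1 - B)).indicator (fun _ => (1 : ℝ≥0∞)) t ∂ν ≤
      ENNReal.ofReal (2 * m / w1) := by
    rw [lintegral_indicator measurableSet_Ioi, setLIntegral_const, one_mul]
    exact WOneC_markov S.hν S.hνi hw1 (by linarith)
  have hsum : ENNReal.ofReal (1 - q / 2) + ENNReal.ofReal Ce * ENNReal.ofReal (2 * m / w1) ≤
      ENNReal.ofReal (1 - κ / 4 * gg h h' w1 / w1) := by
    rw [← ENNReal.ofReal_mul hCe0, ← ENNReal.ofReal_add (by linarith) (by positivity)]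
    refine ENNReal.ofReal_le_ofReal ?_
    have e1 : 8 * m * Ce ≤ κ * gg h h' w1 := by
      have e2 : 8 * m * Ce / κ ≤ gg h h' w1 := g3.trans hggw0
      rw [div_le_iff₀ hκ] at e2
      linarith
    have e3 : Ce * (2 * m / w1) ≤ κ / 4 * gg h h' w1 / w1 := by
      rw [← mul_div_assoc]
      refine div_le_div_of_nonneg_right ?_ hw1.le
      linarith
    have e4 : q / 2 = κ / 4 * gg h h' w1 / w1 + κ / 4 * gg h h' w1 / w1 := by
      rw [hq]
      ring
    linarith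
  refine le_trans (add_le_add htr3 (mul_le_mul' hI.le hN)) hsum

end Pool.Agent.Lib.MP_04add8_pr.Cv
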