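import Mathlib
import Pool.Agent.Lib.MP_04add8_pr.Cv.VTwo
import Pool.Agent.Lib.MP_04add8_pr.Cv.WOneC
import Pool.Agent.Lib.MP_04add8_pr.Cv.JComb
import Pool.Agent.Lib.MP_04add8_pr.Cv.MY

open MeasureTheory ProbabilityTheory Filter Topology
open scoped ENNReal

set_option linter.unusedSectionVars false

namespace Pool.Agent.Lib.MP_04add8_pr.Cv

open Pool.Agent.Lib.MP_04add8_pr.Gen

variable {h h' : ℝ → ℝ} {μ ν : Measure ℝ} [IsProbabilityMeasure μ]
  [IsProbabilityMeasure ν]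

private lemma stepC_left (β : ℝ → ℝ) (D θ0 g1 g2 B : ℝ) (w : ℝ × ℝ) :
    ∫⁻ p, (Set.Iic B).indicator (fun _ => (1 : ℝ≥0∞)) p.1 *
        UU h β D θ0 g1 g2 B (kwStep w p.1 p.2) ∂(μ.prod ν) ≤
      ENNReal.ofReal (Real.exp (-g1)) *
        ∫⁻ p, (Set.Iic B).indicator (fun _ => (1 : ℝ≥0∞)) p.1 *
          VV h β D θ0 (kwStep w p.1 p.2) ∂(μ.prod ν) := by
  rw [← lintegral_const_mul' _ _ ENNReal.ofReal_ne_top]
  refine lintegral_mono fun p => ?_
  calc (Set.Iic B).indicator (fun _ => (1 : ℝ≥0∞)) p.1 *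
        UU h β D θ0 g1 g2 B (kwStep w p.1 p.2)
      ≤ (Set.Iic B).indicator (fun _ => (1 : ℝ≥0∞)) p.1 *
        (ENNReal.ofReal (Real.exp (-g1)) * VV h β D θ0 (kwStep w p.1 p.2)) :=
        mul_le_mul' le_rfl (min_le_left _ _)
    _ = _ := by ring

private lemma stepC_right (β : ℝ → ℝ) (D θ0 g1 g2 B : ℝ) (w : ℝ × ℝ) :
    ∫⁻ p, (Set.Iic B).indicator (fun _ => (1 : ℝ≥0∞)) p.1 *
        UU h β D θ0 g1 g2 B (kwStep w p.1 p.2) ∂(μ.prod ν) ≤
      ENNReal.ofReal (Real.exp (-g2)) *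
        ∫⁻ p, (Set.Iic B).indicator (fun _ => (1 : ℝ≥0∞)) p.1 *
          WW h B (kwStep w p.1 p.2) ∂(μ.prod ν) := by
  rw [← lintegral_const_mul' _ _ ENNReal.ofReal_ne_top]
  refine lintegral_mono fun p => ?_
  calc (Set.Iic B).indicator (fun _ => (1 : ℝ≥0∞)) p.1 *
        UU h β D θ0 g1 g2 B (kwStep w p.1 p.2)
      ≤ (Set.Iic B).indicator (fun _ => (1 : ℝ≥0∞)) p.1 *
        (ENNReal.ofReal (Real.exp (-g2)) * WW h B (kwStep w p.1 p.2)) :=
        mul_le_mul' le_rfl (min_le_right _ _)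
    _ = _ := by ring

/-- **Small jobs, combined potential** (valid for `w₂ ≥ v/2`). (a): if `UU w = e^{-g1} V w`, use
`V_two` at the level `v/2` (`Tilt h (C h'(v/2)) B`: `C h'(v/2) s ≤ C h'(v/4) s ≤ s h' B / 8 ≤ h s/8`);
otherwise `e^{-g2} W w < e^{-g1} V w`, so `W w ≤ e^{γ} V w` (`g2 - g1 ≤ γ`) and `W_one` applies at
the level `v/2`, with `cW gg(w1)/w1 ≥ cW gg(B)/w2`. (b): in the first case as before; in the second
`e^{-(g2-r)} (1 - cW gg(B)/w2) W ≤ e^{-g2} W` because `e^r (1 - r) ≤ 1`. -/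
theorem step_small (S : StdC μ ν h h') {θ0 c C D : ℝ} (hθ0 : 0 < θ0) (hc : 0 < c)
    (hC : 1 + c ≤ C) (hD : 4 * C ≤ D) :
    ∃ v1 cW G0 : ℝ, 1 ≤ v1 ∧ 0 < cW ∧ 0 < G0 ∧
      ∀ (β : ℝ → ℝ) (e v B γ g1 g2 : ℝ) (w : ℝ × ℝ), Pot μ ν h β θ0 c C e →
      Lev h h' C v1 G0 γ v B → g2 - g1 ≤ γ → 0 ≤ w.1 → w.1 ≤ w.2 → v / 2 ≤ w.2 →
      (∫⁻ p, (Set.Iic B).indicator (fun _ => (1 : ℝ≥0∞)) p.1 *
        UU h β D θ0 g1 g2 B (kwStep w p.1 p.2) ∂(μ.prod ν) ≤
        ENNReal.ofReal (1 - min e (cW * gg h h' B) / w.2) * UU h β D θ0 g1 g2 B w) ∧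
      ∀ r : ℝ, 0 ≤ r → r ≤ cW * gg h h' B / w.2 →
        ∫⁻ p, (Set.Iic B).indicator (fun _ => (1 : ℝ≥0∞)) p.1 *
        UU h β D θ0 g1 (g2 - r) B (kwStep w p.1 p.2) ∂(μ.prod ν) ≤ UU h β D θ0 g1 g2 B w := by
  obtain ⟨vV, hvV, HV⟩ := V_two S hθ0 hc hC hD
  obtain ⟨vW, cW, G0, hvW, hcW, hG0, HW⟩ := W_one S hθ0 hc hC hD
  have hC0 : 0 < C := by linarith
  have hm1 := le_max_left vV vW
  have hm2 := le_max_right vV vW
  refine ⟨2 * max vV vW, cW, G0, by linarith, hcW, hG0, ?_⟩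
  intro β e v B γ g1 g2 w P L hg hw0 hw1 hvw
  have hlv := L.lv
  have hlB := L.lB
  have hlBv := L.lBv
  have hv1 : vV ≤ v / 2 := by linarith
  have hv2 : vW ≤ v / 2 := by linarith
  have hv0 : 0 < v / 2 := by linarith
  have hw2 : 0 < w.2 := lt_of_lt_of_le hv0 hvw
  have hhv : h' (v / 2) ≤ h' (v / 4) := S.haz.anti _ _ (by linarith) (by linarith)
  have hT : 8 * C * h' (v / 2) ≤ h' B :=
    (mul_le_mul_of_nonneg_left hhv (by positivity)).trans L.lh
  have hTilt : Tilt h (C * h' (v / 2)) B := by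
    intro s hs hsB
    rcases hs.eq_or_lt with h0 | hs
    · have h1 := S.haz.nonneg s
      rw [← h0] at h1 ⊢
      linarith
    · have h1 : h' B ≤ h' s := S.haz.anti s B hs hsB
      have h2 := S.haz.mul_deriv_le hs
      have h3 : 8 * C * h' (v / 2) * s ≤ h' s * s :=
        mul_le_mul_of_nonneg_right (hT.trans h1) hs.le
      have h4 := S.haz.nonneg s
      linarith
  have hVi := HV β e (v / 2) B w P hv1 hTilt hw0 hw1 hvw
  have hgB0 : 0 < gg h h' B := by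
    have h1 := L.lg
    have h2 := L.lγ
    linarith
  by_cases hcase : ENNReal.ofReal (Real.exp (-g1)) * VV h β D θ0 w ≤
      ENNReal.ofReal (Real.exp (-g2)) * WW h B w
  · have hU : UU h β D θ0 g1 g2 B w = ENNReal.ofReal (Real.exp (-g1)) * VV h β D θ0 w :=
      min_eq_left hcase
    constructor
    · have hre : 1 - e / w.2 ≤ 1 - min e (cW * gg h h' B) / w.2 := by
        have h1 : min e (cW * gg h h' B) / w.2 ≤ e / w.2 :=
          div_le_div_of_nonneg_right (min_le_left _ _) hw2.le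
        linarith
      refine (stepC_left β D θ0 g1 g2 B w).trans ?_
      calc ENNReal.ofReal (Real.exp (-g1)) *
            ∫⁻ p, (Set.Iic B).indicator (fun _ => (1 : ℝ≥0∞)) p.1 *
              VV h β D θ0 (kwStep w p.1 p.2) ∂(μ.prod ν)
          ≤ ENNReal.ofReal (Real.exp (-g1)) *
            (ENNReal.ofReal (1 - min e (cW * gg h h' B) / w.2) * VV h β D θ0 w) :=
            mul_le_mul' le_rfl
              (hVi.trans (mul_le_mul' (ENNReal.ofReal_le_ofReal hre) le_rfl))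
        _ = _ := by rw [hU]; ring
    · intro r hr0 hr1
      have hre : ENNReal.ofReal (1 - e / w.2) ≤ 1 := by
        rw [← ENNReal.ofReal_one]
        refine ENNReal.ofReal_le_ofReal ?_
        have h1 : 0 ≤ e / w.2 := div_nonneg P.pe hw2.le
        linarith
      refine (stepC_left β D θ0 g1 (g2 - r) B w).trans ?_
      calc ENNReal.ofReal (Real.exp (-g1)) *
            ∫⁻ p, (Set.Iic B).indicator (fun _ => (1 : ℝ≥0∞)) p.1 *
              VV h β D θ0 (kwStep w p.1 p.2) ∂(μ.prod ν)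
          ≤ ENNReal.ofReal (Real.exp (-g1)) * (1 * VV h β D θ0 w) :=
            mul_le_mul' le_rfl (hVi.trans (mul_le_mul' hre le_rfl))
        _ = _ := by rw [hU, one_mul]
  · have hcase' := (not_le.1 hcase).le
    have hU : UU h β D θ0 g1 g2 B w = ENNReal.ofReal (Real.exp (-g2)) * WW h B w :=
      min_eq_right hcase'
    have hWV : WW h B w ≤ ENNReal.ofReal (Real.exp γ) * VV h β D θ0 w := by
      have h1 : ENNReal.ofReal (Real.exp g2) * (ENNReal.ofReal (Real.exp (-g2)) * WW h B w) ≤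
          ENNReal.ofReal (Real.exp g2) *
            (ENNReal.ofReal (Real.exp (-g1)) * VV h β D θ0 w) := mul_le_mul' le_rfl hcase'
      rw [← mul_assoc, ← mul_assoc, ← ENNReal.ofReal_mul (Real.exp_pos _).le,
        ← ENNReal.ofReal_mul (Real.exp_pos _).le, ← Real.exp_add, ← Real.exp_add,
        add_neg_cancel, Real.exp_zero, ENNReal.ofReal_one, one_mul] at h1
      refine h1.trans (mul_le_mul' (ENNReal.ofReal_le_ofReal (Real.exp_le_exp.2 ?_)) le_rfl)
      linarith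
    obtain ⟨hB2, -, hWi⟩ := HW β e (v / 2) B γ w P hv2 hlB (by linarith) hT L.lγ L.lg hw0 hw1
      hvw hWV
    have hw1pos : 0 < w.1 := by linarith
    have hq : cW * gg h h' B / w.2 ≤ cW * gg h h' w.1 / w.1 := by
      have h1 : gg h h' B ≤ gg h h' w.1 := gg_mono S.haz hlB (by linarith)
      have h2 : 0 ≤ cW * gg h h' B := by positivity
      calc cW * gg h h' B / w.2 ≤ cW * gg h h' B / w.1 :=
            div_le_div_of_nonneg_left h2 hw1pos hw1
        _ ≤ _ := div_le_div_of_nonneg_right (mul_le_mul_of_nonneg_left h1 hcW.le) hw1pos.le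
    constructor
    · have hre : 1 - cW * gg h h' w.1 / w.1 ≤ 1 - min e (cW * gg h h' B) / w.2 := by
        have h1 : min e (cW * gg h h' B) / w.2 ≤ cW * gg h h' B / w.2 :=
          div_le_div_of_nonneg_right (min_le_right _ _) hw2.le
        linarith
      refine (stepC_right β D θ0 g1 g2 B w).trans ?_
      calc ENNReal.ofReal (Real.exp (-g2)) *
            ∫⁻ p, (Set.Iic B).indicator (fun _ => (1 : ℝ≥0∞)) p.1 *
              WW h B (kwStep w p.1 p.2) ∂(μ.prod ν)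
          ≤ ENNReal.ofReal (Real.exp (-g2)) *
            (ENNReal.ofReal (1 - min e (cW * gg h h' B) / w.2) * WW h B w) :=
            mul_le_mul' le_rfl
              (hWi.trans (mul_le_mul' (ENNReal.ofReal_le_ofReal hre) le_rfl))
        _ = _ := by rw [hU]; ring
    · intro r hr0 hr1
      have hre : 1 - cW * gg h h' w.1 / w.1 ≤ Real.exp (-r) := by
        have h1 := Real.add_one_le_exp (-r)
        linarith
      refine (stepC_right β D θ0 g1 (g2 - r) B w).trans ?_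
      calc ENNReal.ofReal (Real.exp (-(g2 - r))) *
            ∫⁻ p, (Set.Iic B).indicator (fun _ => (1 : ℝ≥0∞)) p.1 *
              WW h B (kwStep w p.1 p.2) ∂(μ.prod ν)
          ≤ ENNReal.ofReal (Real.exp (-(g2 - r))) *
            (ENNReal.ofReal (Real.exp (-r)) * WW h B w) :=
            mul_le_mul' le_rfl
              (hWi.trans (mul_le_mul' (ENNReal.ofReal_le_ofReal hre) le_rfl))
        _ = ENNReal.ofReal (Real.exp (-g2)) * WW h B w := by
            rw [← mul_assoc, ← ENNReal.ofReal_mul (Real.exp_pos _).le, ← Real.exp_add]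
            congr 3
            ring
        _ = _ := hU.symm

/-- **A nonsmall job, integrated**: `J_comb` with `g1 = g1' = γ`, `g2 = g2' = 2 γ`, `s = γ`
(`gg u ≥ gg B ≥ γ`) and `law_exp_trunc_lin`. -/
theorem step_big (S : StdC μ ν h h') : ∃ CM : ℝ, 1 ≤ CM ∧
      ∀ (β : ℝ → ℝ) (θ0 c C D e B γ Y : ℝ) (w : ℝ × ℝ), Pot μ ν h β θ0 c C e → 0 ≤ D →
      0 < B → 0 ≤ γ → γ ≤ gg h h' B → 0 ≤ w.1 → w.1 ≤ w.2 → B ≤ w.2 → 0 ≤ Y →
      ∫⁻ p, (Set.Ioc B Y).indicator (fun _ => (1 : ℝ≥0∞)) p.1 *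
        UU h β D θ0 γ (2 * γ) B (kwStep w p.1 p.2) ∂(μ.prod ν) ≤
        ENNReal.ofReal (CM * (1 + Y) * Real.exp (-γ)) * UU h β D θ0 γ (2 * γ) B w := by
  obtain ⟨CM, hCM, HM⟩ := law_exp_trunc_lin S.haz S.law
  refine ⟨CM, hCM, ?_⟩
  intro β θ0 c C D e B γ Y w P hD hB hγ hγB hw0 hw1 hBw hY
  have hFm : Measurable (fun s : ℝ => (Set.Iic Y).indicator (fun _ => (1 : ℝ≥0∞)) s *
      ENNReal.ofReal (Real.exp (h s))) :=
    (measurable_const.indicator measurableSet_Iic).mul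
      (Real.measurable_exp.comp S.haz.cont.measurable).ennreal_ofReal
  have hmono : ∀ᵐ p ∂(μ.prod ν), (Set.Ioc B Y).indicator (fun _ => (1 : ℝ≥0∞)) p.1 *
        UU h β D θ0 γ (2 * γ) B (kwStep w p.1 p.2) ≤
        (ENNReal.ofReal (Real.exp (-γ)) * UU h β D θ0 γ (2 * γ) B w) *
          ((Set.Iic Y).indicator (fun _ => (1 : ℝ≥0∞)) p.1 *
            ENNReal.ofReal (Real.exp (h p.1))) := by
    filter_upwards [law_prod_nonneg S.law S.hν] with p hp
    by_cases hpm : p.1 ∈ Set.Ioc B Y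
    · have hBu : B ≤ p.1 := hpm.1.le
      have hgu : gg h h' B ≤ gg h h' p.1 := gg_mono S.haz hB hBu
      have hc2 : γ + γ ≤ w.1 * (gg h h' p.1 - γ) / p.1 + 2 * γ := by
        have h1 : 0 ≤ w.1 * (gg h h' p.1 - γ) / p.1 :=
          div_nonneg (mul_nonneg hw0 (by linarith)) (by linarith)
        linarith
      have hJ := J_comb S.haz P hD (u := p.1) (t := p.2) (s := γ) (γ := γ) (g1 := γ)
        (g2 := 2 * γ) (g1' := γ) (g2' := 2 * γ) (w := w) hB hBw hBu hp.2 hw0 hw1 (le_refl _)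
        hc2 (by linarith)
      rw [Set.indicator_of_mem hpm, Set.indicator_of_mem (show p.1 ∈ Set.Iic Y from hpm.2),
        one_mul, one_mul]
      refine hJ.trans (le_of_eq ?_)
      rw [sub_eq_add_neg, Real.exp_add, ENNReal.ofReal_mul (Real.exp_pos _).le]
      ring
    · rw [Set.indicator_of_notMem hpm, zero_mul]
      exact zero_le
  have hint : ∫⁻ p, (Set.Iic Y).indicator (fun _ => (1 : ℝ≥0∞)) p.1 *
      ENNReal.ofReal (Real.exp (h p.1)) ∂(μ.prod ν) =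
      ∫⁻ s, (Set.Iic Y).indicator (fun _ => (1 : ℝ≥0∞)) s *
      ENNReal.ofReal (Real.exp (h s)) ∂μ :=
    (measurePreserving_fst (μ := μ) (ν := ν)).lintegral_comp hFm
  calc ∫⁻ p, (Set.Ioc B Y).indicator (fun _ => (1 : ℝ≥0∞)) p.1 *
        UU h β D θ0 γ (2 * γ) B (kwStep w p.1 p.2) ∂(μ.prod ν)
      ≤ ∫⁻ p, (ENNReal.ofReal (Real.exp (-γ)) * UU h β D θ0 γ (2 * γ) B w) *
          ((Set.Iic Y).indicator (fun _ => (1 : ℝ≥0∞)) p.1 *
            ENNReal.ofReal (Real.exp (h p.1))) ∂(μ.prod ν) := lintegral_mono_ae hmono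
    _ = (ENNReal.ofReal (Real.exp (-γ)) * UU h β D θ0 γ (2 * γ) B w) *
          ∫⁻ p, (Set.Iic Y).indicator (fun _ => (1 : ℝ≥0∞)) p.1 *
            ENNReal.ofReal (Real.exp (h p.1)) ∂(μ.prod ν) :=
        lintegral_const_mul _ (hFm.comp measurable_fst)
    _ ≤ (ENNReal.ofReal (Real.exp (-γ)) * UU h β D θ0 γ (2 * γ) B w) *
          ENNReal.ofReal (CM * (1 + Y)) := by
        rw [hint]
        exact mul_le_mul' le_rfl (HM Y hY)
    _ = _ := by
        rw [ENNReal.ofReal_mul (show 0 ≤ CM * (1 + Y) by positivity)]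
        ring

end Pool.Agent.Lib.MP_04add8_pr.Cv
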