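import Mathlib
import Pool.Agent.Lib.MP_04add8_pr.Cv.HLog
import Pool.Agent.Lib.MP_04add8_pr.Cv.GF

open MeasureTheory ProbabilityTheory Filter Topology
open scoped ENNReal

set_option linter.unusedSectionVars false

namespace Pool.Agent.Lib.MP_04add8_pr.Cv

open Pool.Agent.Lib.MP_04add8_pr.Gen

variable {h h' : ℝ → ℝ} {μ ν : Measure ℝ} [IsProbabilityMeasure μ]
  [IsProbabilityMeasure ν]

variable {B v : ℝ → ℝ}

/-- `log x ≤ gg (B x) ≤ h (B x) ≤ C (1 + B x)` (`gg_le`, `h_lin`) -/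
theorem Thr.tendsto_B (T : Thr h h' B v) (H : HazC h h') : Tendsto B atTop atTop := by
  obtain ⟨C, hC1, hC⟩ := h_lin H
  have hC0 : 0 < C := by linarith
  have h1 : Tendsto (fun x : ℝ => Real.log x / C - 1) atTop atTop :=
    tendsto_atTop_add_const_right _ _ (Real.tendsto_log_atTop.atTop_div_const hC0)
  refine tendsto_atTop_mono' _ ?_ h1
  filter_upwards [T.g 1, T.pos] with x hx hp
  have h2 := gg_le H hp
  have h3 := hC (B x) hp.le
  rw [sub_le_iff_le_add, div_le_iff₀ hC0]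
  linarith

theorem Thr.tendsto_v (T : Thr h h' B v) (H : HazC h h') : Tendsto v atTop atTop :=
  tendsto_atTop_mono' _ T.le (T.tendsto_B H)

/-- if `v < K B` then `h' B ≤ K ^ C h' v` (`H.doubling` and monotonicity), against `T.r1 (K ^ C + 1)` -/
theorem Thr.mul_le (T : Thr h h' B v) (H : HazC h h') (K : ℝ) : ∀ᶠ x : ℝ in atTop,
    K * B x ≤ v x := by
  obtain ⟨C, hC0, hC⟩ := H.doubling
  set L : ℝ := max K 1 with hL
  have hL1 : 1 ≤ L := le_max_right _ _
  filter_upwards [T.r1 (L ^ C + 1), T.pos, T.le] with x h1 hp hle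
  by_contra hcon
  push Not at hcon
  have hvL : v x ≤ L * B x := by
    have : K * B x ≤ L * B x := mul_le_mul_of_nonneg_right (le_max_left _ _) hp.le
    linarith
  have hvp : 0 < v x := by linarith
  have h2 := hC (B x) L hp hL1
  have h3 : h' (L * B x) ≤ h' (v x) := H.anti _ _ hvp hvL
  have h4 : 0 < h' (v x) := H.pos _ hvp
  have h5 : L ^ C * h' (L * B x) ≤ L ^ C * h' (v x) :=
    mul_le_mul_of_nonneg_left h3 (Real.rpow_nonneg (by linarith) _)
  nlinarith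

/-- monotone form of `r1` at a level `y ≥ v x` -/
private lemma thr_r1_at (T : Thr h h' B v) (H : HazC h h') (K : ℝ) : ∀ᶠ x : ℝ in atTop,
    ∀ y : ℝ, v x ≤ y → K * h' (y / 4) ≤ h' (B x) := by
  obtain ⟨C', hC1, hC'⟩ := H.div_le (l := 4) (by norm_num)
  filter_upwards [T.r1 (|K| * C'), T.pos, T.le] with x h1 hp hle y hy
  have hvp : 0 < v x := by linarith
  have hyp : 0 < y := by linarith
  have h2 := hC' y hyp
  have h3 : h' y ≤ h' (v x) := H.anti _ _ hvp hy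
  have h4 : 0 ≤ h' (y / 4) := (H.pos _ (by positivity)).le
  calc K * h' (y / 4) ≤ |K| * h' (y / 4) := mul_le_mul_of_nonneg_right (le_abs_self K) h4
    _ ≤ |K| * (C' * h' y) := mul_le_mul_of_nonneg_left h2 (abs_nonneg K)
    _ ≤ |K| * (C' * h' (v x)) := by gcongr
    _ = |K| * C' * h' (v x) := by ring
    _ ≤ _ := h1

private lemma thr_lev_at (T : Thr h h' B v) (H : HazC h h') {C v1 G0 K0 : ℝ} (hC : 0 ≤ C)
    (hK : 0 ≤ K0) {y : ℝ → ℝ} (hy : ∀ᶠ x : ℝ in atTop, v x ≤ y x) :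
    ∀ᶠ x : ℝ in atTop, Lev h h' C v1 G0 (K0 * Real.log x) (y x) (B x) := by
  filter_upwards [hy, (T.tendsto_v H).eventually_ge_atTop v1, T.pos, T.mul_le H 4,
    thr_r1_at T H (8 * C), T.g (8 * K0 + 1), Real.tendsto_log_atTop.eventually_ge_atTop |G0|,
    eventually_ge_atTop 1] with x e1 e2 e3 e4 e5 e6 e7 e8
  refine ⟨e2.trans e1, e3, e4.trans e1, e5 _ e1, mul_nonneg hK (Real.log_nonneg e8), ?_⟩
  have := le_abs_self G0
  nlinarith

/-- level conditions at the low level `v x` (`h' (v/4) ≤ C' h' v` by `H.div_le`, `T.r1`, `T.g`) -/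
theorem Thr.lev (T : Thr h h' B v) (H : HazC h h') {C v1 G0 K0 : ℝ} (hC : 0 ≤ C) (hK : 0 ≤ K0) :
    ∀ᶠ x : ℝ in atTop, Lev h h' C v1 G0 (K0 * Real.log x) (v x) (B x) :=
  thr_lev_at T H hC hK (Eventually.of_forall fun _ => le_rfl)

/-- level conditions at the level `√x ≥ v x` -/
theorem Thr.lev_sqrt (T : Thr h h' B v) (H : HazC h h') {C v1 G0 K0 : ℝ} (hC : 0 ≤ C)
    (hK : 0 ≤ K0) : ∀ᶠ x : ℝ in atTop, Lev h h' C v1 G0 (K0 * Real.log x) (√x) (B x) :=
  thr_lev_at T H hC hK T.sq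

/-- `K h' (v x) s ≤ h' (B x) s / 4 ≤ s h' s / 4 ≤ h s / 4` for `0 < s ≤ B x` (`T.r1`, `H.anti`, `H.mul_deriv_le`) -/
theorem Thr.tilt (T : Thr h h' B v) (H : HazC h h') (K : ℝ) : ∀ᶠ x : ℝ in atTop,
    Tilt h (K * h' (v x)) (B x) := by
  filter_upwards [T.r1 (4 * K)] with x h1
  intro s hs hsB
  rcases hs.eq_or_lt with rfl | hs
  · have := H.nonneg 0
    rw [mul_zero]
    linarith
  · have h2 := H.mul_deriv_le hs
    have h3 := H.anti s (B x) hs hsB
    have h4 : 4 * K * h' (v x) * s ≤ h' s * s := mul_le_mul_of_nonneg_right (h1.trans h3) hs.le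
    nlinarith

/-- `K h' x w ≤ h w` for `0 ≤ w ≤ v x` (`K h' x ≤ h' v ≤ h' w`, `w h' w ≤ h w`) -/
theorem Thr.lin_le (T : Thr h h' B v) (H : HazC h h') (K : ℝ) : ∀ᶠ x : ℝ in atTop,
    ∀ w : ℝ, 0 ≤ w → w ≤ v x → K * h' x * w ≤ h w := by
  filter_upwards [T.r2 K] with x h1
  intro w hw hwv
  rcases hw.eq_or_lt with rfl | hw
  · have := H.nonneg 0
    rw [mul_zero]
    linarith
  · have h2 := H.mul_deriv_le hw
    have h3 := H.anti w (v x) hw hwv
    have h4 : K * h' x * w ≤ h' w * w := mul_le_mul_of_nonneg_right (h1.trans h3) hw.le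
    nlinarith

/-- `h' (√x) ≤ h' (B x)` -/
private lemma thr_sqrt_le (T : Thr h h' B v) (H : HazC h h') : ∀ᶠ x : ℝ in atTop,
    h' (√x) ≤ h' (B x) := by
  filter_upwards [T.pos, T.le, T.sq] with x h1 h2 h3
  exact H.anti _ _ h1 (h2.trans h3)

/-- **Large deviation comparison**: `h (a x) ≤ h v + a x h' v` (tangent at `v`), `h v ≤ h (√x)`,
`K log x + h (√x) ≤ (ε/2) x h' (√x) ≤ (ε/2) x h' (B x)` (`H.sqrt_small`), `a h' v ≤ (ε/2) h' (B x)` (`T.r1`) -/
theorem Thr.ld (T : Thr h h' B v) (H : HazC h h') (K a : ℝ) {ε : ℝ} (hε : 0 < ε) :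
    ∀ᶠ x : ℝ in atTop, K * Real.log x + h (a * x) ≤ ε * (x * h' (B x)) := by
  filter_upwards [H.sqrt_small (show 0 < ε / 2 by positivity) K, thr_sqrt_le T H,
    T.r1 (2 * |a| / ε), T.pos, T.le, T.sq, eventually_gt_atTop 0] with x h1 h2 h3 h4 h5 h6 h7
  have hvp : 0 < v x := by linarith
  have e1 : h (a * x) ≤ h (v x) + h' (v x) * (|a| * x) := by
    have f1 : h (a * x) ≤ h (v x + |a| * x) := by
      apply H.mono
      have : a * x ≤ |a| * x := mul_le_mul_of_nonneg_right (le_abs_self a) h7.le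
      linarith
    have f2 := H.tangent (x := v x) (y := |a| * x) hvp (by positivity)
    linarith
  have e2 : h (v x) ≤ h (√x) := H.mono h6
  have e3 : h' (v x) * (|a| * x) ≤ ε / 2 * (x * h' (B x)) := by
    have f1 : 2 * |a| / ε * h' (v x) * (ε / 2 * x) ≤ h' (B x) * (ε / 2 * x) :=
      mul_le_mul_of_nonneg_right h3 (by positivity)
    have f2 : 2 * |a| / ε * h' (v x) * (ε / 2 * x) = h' (v x) * (|a| * x) := by
      field_simp
    rw [f2] at f1
    linarith
  have e4 : ε / 2 * (x * h' (√x)) ≤ ε / 2 * (x * h' (B x)) := by gcongr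
  linarith

/-- `√x h' (B x) ≤ ε x h' (B x)`, and `1 ≤ x h' (B x)` -/
theorem Thr.ld_aux (T : Thr h h' B v) (H : HazC h h') (K : ℝ) : ∀ᶠ x : ℝ in atTop,
    K ≤ v x * h' (B x) ∧ K * v x ≤ x := by
  have hs : ∀ᶠ x : ℝ in atTop, |K| ≤ √x :=
    Real.tendsto_sqrt_atTop.eventually (eventually_ge_atTop |K|)
  filter_upwards [(H.big.comp (T.tendsto_v H)).eventually_ge_atTop K, T.pos, T.le, T.sq, hs,
    eventually_gt_atTop 0] with x h1 h2 h3 h4 h5 h6
  have hvp : 0 < v x := by linarith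
  simp only [Function.comp_apply] at h1
  refine ⟨h1.trans (mul_le_mul_of_nonneg_left (H.anti _ _ h2 h3) hvp.le), ?_⟩
  calc K * v x ≤ |K| * v x := mul_le_mul_of_nonneg_right (le_abs_self K) hvp.le
    _ ≤ √x * √x := mul_le_mul h5 h4 hvp.le (Real.sqrt_nonneg _)
    _ = x := Real.mul_self_sqrt h6.le

/-- **Thresholds from a separation function.** -/
theorem Thr.of_pair (H : HazC h h') {B0 : ℝ → ℝ} (h0 : ∀ᶠ x : ℝ in atTop, 0 < B0 x)
    (h1 : ∀ K : ℝ, ∀ᶠ x : ℝ in atTop, K * Real.log x ≤ gg h h' (B0 x))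
    (h2 : ∀ K : ℝ, ∀ᶠ x : ℝ in atTop, K * h' x ≤ h' (B0 x)) :
    ∃ B v : ℝ → ℝ, Thr h h' B v := by
  classical
  set B : ℝ → ℝ := fun x => min (B0 x) (B0 (√x)) with hB
  have hsq := Real.tendsto_sqrt_atTop
  have hpos : ∀ᶠ x : ℝ in atTop, 0 < B x := by
    filter_upwards [h0, hsq.eventually h0] with x e1 e2 using lt_min e1 e2
  have hs2 : ∀ K : ℝ, ∀ᶠ x : ℝ in atTop, K * h' (√x) ≤ h' (B x) := by
    intro K
    filter_upwards [hpos, hsq.eventually (h2 K)] with x e1 e2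
    exact e2.trans (H.anti _ _ e1 (min_le_right _ _))
  have hs1 : ∀ K : ℝ, ∀ᶠ x : ℝ in atTop, K * h' x ≤ h' (B x) := by
    intro K
    filter_upwards [hpos, h2 K] with x e1 e2
    exact e2.trans (H.anti _ _ e1 (min_le_left _ _))
  have hBs : ∀ᶠ x : ℝ in atTop, B x ≤ √x := by
    filter_upwards [hs2 2, hpos, eventually_gt_atTop 0] with x e1 e2 e3
    by_contra hcon
    push Not at hcon
    have hsx : 0 < √x := Real.sqrt_pos.2 e3
    have e4 := H.anti _ _ hsx hcon.le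
    have e5 := H.pos _ hsx
    linarith
  -- the intermediate point
  have key : ∀ x : ℝ, 1 ≤ x → 0 < B x → B x ≤ √x → ∃ y : ℝ, B x ≤ y ∧ y ≤ √x ∧
      h' y = max (h' (√x)) (√(h' (B x) * h' x)) := by
    intro x hx hBp hBx
    have hsx : 0 < √x := Real.sqrt_pos.2 (by linarith)
    have hcont : ContinuousOn h' (Set.Icc (B x) (√x)) :=
      H.deriv_cont.mono fun y hy => lt_of_lt_of_le hBp hy.1
    have hsxx : √x ≤ x := by
      rw [Real.sqrt_le_left (by linarith)]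
      nlinarith
    have e1 : h' x ≤ h' (B x) := H.anti _ _ hBp (hBx.trans hsxx)
    have e2 : 0 < h' x := H.pos x (by linarith)
    have e3 : √(h' (B x) * h' x) ≤ h' (B x) := by
      rw [Real.sqrt_le_left (by linarith)]
      nlinarith
    have hmem : max (h' (√x)) (√(h' (B x) * h' x)) ∈ Set.Icc (h' (√x)) (h' (B x)) :=
      ⟨le_max_left _ _, max_le (H.anti _ _ hBp hBx) e3⟩
    obtain ⟨y, hy, hy2⟩ := intermediate_value_Icc' hBx hcont hmem
    exact ⟨y, hy.1, hy.2, hy2⟩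
  set v : ℝ → ℝ := fun x => if hc : 1 ≤ x ∧ 0 < B x ∧ B x ≤ √x then
    Classical.choose (key x hc.1 hc.2.1 hc.2.2) else B x with hv
  have hvs : ∀ x : ℝ, 1 ≤ x → 0 < B x → B x ≤ √x → B x ≤ v x ∧ v x ≤ √x ∧
      h' (v x) = max (h' (√x)) (√(h' (B x) * h' x)) := by
    intro x c1 c2 c3
    have := Classical.choose_spec (key x c1 c2 c3)
    simp only [hv, dif_pos (show 1 ≤ x ∧ 0 < B x ∧ B x ≤ √x from ⟨c1, c2, c3⟩)]
    exact this
  have hall : ∀ᶠ x : ℝ in atTop, B x ≤ v x ∧ v x ≤ √x ∧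
      h' (v x) = max (h' (√x)) (√(h' (B x) * h' x)) := by
    filter_upwards [eventually_ge_atTop 1, hpos, hBs] with x c1 c2 c3 using hvs x c1 c2 c3
  refine ⟨B, v, ⟨hpos, ?_, ?_, ?_, ?_, ?_⟩⟩
  · filter_upwards [hall] with x e using e.1
  · filter_upwards [hall] with x e using e.2.1
  · intro K
    filter_upwards [h1 K, hsq.eventually (h1 (2 * K)), h0, hsq.eventually h0,
      eventually_gt_atTop 0] with x e1 e2 e3 e4 e5
    have e6 : 2 * K * Real.log (√x) = K * Real.log x := by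
      rw [Real.log_sqrt e5.le]; ring
    rw [e6] at e2
    simp only [hB]
    rcases min_choice (B0 x) (B0 (√x)) with hc | hc
    · rw [hc]; exact e1
    · rw [hc]; exact e2
  · intro K
    set L : ℝ := max K 1 with hL
    have hL1 : 1 ≤ L := le_max_right _ _
    filter_upwards [hall, hs2 L, hs1 (L ^ 2), hpos, eventually_gt_atTop 0] with x e1 e2 e3 e4 e5
    have hx' : 0 < h' x := H.pos x e5
    have hBx' : 0 < h' (B x) := H.pos _ e4
    have hvx' : 0 ≤ h' (v x) := by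
      rw [e1.2.2]
      exact le_max_of_le_right (Real.sqrt_nonneg _)
    have e6 : K * h' (v x) ≤ L * h' (v x) := mul_le_mul_of_nonneg_right (le_max_left _ _) hvx'
    refine e6.trans ?_
    rw [e1.2.2, mul_max_of_nonneg _ _ (by linarith)]
    refine max_le e2 ?_
    have e7 : √(L ^ 2 * (h' (B x) * h' x)) = L * √(h' (B x) * h' x) := by
      rw [Real.sqrt_mul (sq_nonneg L), Real.sqrt_sq (by linarith)]
    rw [← e7, Real.sqrt_le_left hBx'.le]
    nlinarith
  · intro K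
    set L : ℝ := max K 1 with hL
    have hL1 : 1 ≤ L := le_max_right _ _
    filter_upwards [hall, hs1 (L ^ 2), hpos, eventually_gt_atTop 0] with x e1 e3 e4 e5
    have hx' : 0 < h' x := H.pos x e5
    have e6 : K * h' x ≤ L * h' x := mul_le_mul_of_nonneg_right (le_max_left _ _) hx'.le
    refine e6.trans ?_
    rw [e1.2.2]
    refine le_max_of_le_right ?_
    apply Real.le_sqrt_of_sq_le
    nlinarith

end Pool.Agent.Lib.MP_04add8_pr.Cv
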