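import Mathlib
import Pool.Agent.Lib.MP_04add8_pr.Cv.StepC
import Pool.Agent.Lib.MP_04add8_pr.Cv.Entry
import Pool.Agent.Lib.MP_04add8_pr.Cv.FL
import Pool.Agent.Lib.MP_04add8_pr.Cv.PotE
import Pool.Agent.Lib.MP_04add8_pr.Cv.RRf
import Pool.Agent.Lib.MP_04add8_pr.Cv.ThrF
import Pool.Agent.Lib.MP_04add8_pr.Cv.HLog

/-!
**One step of the a priori bound.** `v = √y`, `B = B y`, `γ = 12 log y`, `ε = y⁻²`, `Y = y³`, `cap = e^{h Y}`, `βε = (1-ε) β`
with `e = κe ε` (`pot_slack`; `Pot` with `c/2`), `U = UU h βε D θ0 γ (2γ) B`, `v1`, `cW`, `G0`, `CM`, `CE` from `step_small`,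
`step_big`, `entry` (all with `c/2` in place of `c`), `Lev h h' C v1 G0 γ (√y) B` from `Thr.lev_sqrt` (take the maximum of
the two constants `v1` and of the two `G0`; `Lev` is monotone in them).
`f w = 1{√y < w₂} min (U w) cap` (bounded by `cap`). Drift, for ordered `w`:
(1) `√y < w₂`, `U w < cap`. `e^{h w₂ - 2γ} ≤ U w < e^{h (y³)}` (`UU_ge`), so `h w₂ < h (y³) + 24 log y ≤ h (y⁴)` (`gap_cube`)
 and `w₂ ≤ y⁴`. `step_small`(a): `∫_{s≤B} U w' ≤ (1 - min e (cW gg B)/w₂) U w ≤ (1 - κe y⁻⁶) U w`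
 (`min = e` eventually). `step_big`: `∫_{B<s≤Y} U w' ≤ CM (1+y³) y⁻¹² U w ≤ y⁻⁸ U w`. `s > Y`: at most
 `cap μ(s > Y) ≤ C₁` (`Law.up`) `≤ y⁻⁸ U w`, because `U w ≥ e^{h(√y) - 24 log y}` and `h (√y) ≥ 33 log y` eventually.
 So `∫ f w' ≤ (1 - κe y⁻⁶ + 2 y⁻⁸) U w ≤ (1 - y⁻⁸) U w`, and `f w = U w`.
(2) `√y < w₂`, `cap ≤ U w`: `∫ f w' ≤ cap = f w`.
(3) `w₂ ≤ √y`: `f w = 0`; `∫ f w' ≤ ∫_{s≤Y} 1{w'₂ > √y} U w' + cap μ(s > Y) ≤ CE (1+y³) y⁻¹² EP_ε w + C₁ ≤ (CE + C₁) EP w`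
 (`EP_ε ≤ EP` by `VV_slack_le`, `1 ≤ EP w` by `one_le_EP`; `CE (1+y³) y⁻¹² ≤ CE`).
Apply `fl_bound` with `g w = y⁻⁸ U w 1{√y < w₂ ≤ y}` and `q w = (CE + C₁) EP w 1{w₂ ≤ √y}`; on `√y < w₂ ≤ y` one has `U w < cap`
since `U w ≤ VV_ε w ≤ (1+D) e^{h (w₂ + C w₁)} ≤ (1+D) e^{h ((1+C) y)} < e^{h (y³)}` (`VV_le_h`; `h' (w₂ + C w₁) ≤ h' (√y) ≤ θ0`;
`gap_cube'`), which is case (1).
Finally `EP w ≤ e · e^{2γ} U w` on `w₂ ≤ y` (`VV_slack`: `ε C θ0 w₁ ≤ y⁻² C θ0 y ≤ 1`; `EP_le_UU` for `βε`), `e^{2γ} = y²⁴`, so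
`∫_{√y<w₂≤y} EP ≤ e y²⁴ y⁸ (CE + C₁) ∫_{w₂≤√y} EP ≤ y³⁴ ∫_{w₂≤√y} EP`. (Use ENNReal carefully: `fl_bound` is in ENNReal.)
-/

open MeasureTheory ProbabilityTheory Filter Topology
open scoped ENNReal

set_option linter.unusedSectionVars false

namespace Pool.Agent.Lib.MP_04add8_pr.Cv

open Pool.Agent.Lib.MP_04add8_pr.Gen

variable {h h' : ℝ → ℝ} {μ ν : Measure ℝ} [IsProbabilityMeasure μ]
  [IsProbabilityMeasure ν]

variable {B v : ℝ → ℝ}


private lemma aps_exp (n : ℕ) {y : ℝ} (hy : 0 < y) :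
    Real.exp ((n : ℝ) * Real.log y) = y ^ n := by
  rw [Real.exp_nat_mul, Real.exp_log hy]

private lemma aps_tail {CU : ℝ}
    (hup : ∀ x : ℝ, μ (Set.Ioi x) ≤ ENNReal.ofReal (CU * Real.exp (-(h x)))) (Y : ℝ) :
    ∫⁻ p : ℝ × ℝ, (Set.Ioi Y).indicator (fun _ => (1 : ℝ≥0∞)) p.1 *
      ENNReal.ofReal (Real.exp (h Y)) ∂(μ.prod ν) ≤ ENNReal.ofReal CU := by
  have hm1 : Measurable (fun s : ℝ => (Set.Ioi Y).indicator (fun _ => (1 : ℝ≥0∞)) s) :=
    measurable_const.indicator measurableSet_Ioi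
  have hm : Measurable (fun s : ℝ => (Set.Ioi Y).indicator (fun _ => (1 : ℝ≥0∞)) s *
      ENNReal.ofReal (Real.exp (h Y))) := hm1.mul measurable_const
  have hint : ∫⁻ p : ℝ × ℝ, (Set.Ioi Y).indicator (fun _ => (1 : ℝ≥0∞)) p.1 *
      ENNReal.ofReal (Real.exp (h Y)) ∂(μ.prod ν) =
      ∫⁻ s, (Set.Ioi Y).indicator (fun _ => (1 : ℝ≥0∞)) s *
        ENNReal.ofReal (Real.exp (h Y)) ∂μ :=
    (measurePreserving_fst (μ := μ) (ν := ν)).lintegral_comp hm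
  rw [hint, lintegral_mul_const _ hm1, lintegral_indicator measurableSet_Ioi, lintegral_const,
    one_mul, Measure.restrict_apply_univ]
  calc μ (Set.Ioi Y) * ENNReal.ofReal (Real.exp (h Y))
      ≤ ENNReal.ofReal (CU * Real.exp (-(h Y))) * ENNReal.ofReal (Real.exp (h Y)) :=
        mul_le_mul' (hup Y) le_rfl
    _ = ENNReal.ofReal CU := by
        rw [← ENNReal.ofReal_mul' (Real.exp_pos _).le, mul_assoc, ← Real.exp_add,
          neg_add_cancel, Real.exp_zero, mul_one]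

/-- the kernel integral of a function below `U` and below `cap`, from above the level -/
private lemma aps_split3 {f U : ℝ × ℝ → ℝ≥0∞} (hU : Measurable U) {cap : ℝ≥0∞}
    (hfU : ∀ w, f w ≤ U w) (hfc : ∀ w, f w ≤ cap) (b Y : ℝ) (w : ℝ × ℝ) :
    ∫⁻ p, f (kwStep w p.1 p.2) ∂(μ.prod ν) ≤
      ∫⁻ p, (Set.Iic b).indicator (fun _ => (1 : ℝ≥0∞)) p.1 * U (kwStep w p.1 p.2) ∂(μ.prod ν) +
      ∫⁻ p, (Set.Ioc b Y).indicator (fun _ => (1 : ℝ≥0∞)) p.1 * U (kwStep w p.1 p.2)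
        ∂(μ.prod ν) +
      ∫⁻ p : ℝ × ℝ, (Set.Ioi Y).indicator (fun _ => (1 : ℝ≥0∞)) p.1 * cap ∂(μ.prod ν) := by
  have hUm : Measurable (fun p : ℝ × ℝ => U (kwStep w p.1 p.2)) :=
    hU.comp (measurable_kwStep_right w)
  have h1 : Measurable (fun p : ℝ × ℝ => (Set.Iic b).indicator (fun _ => (1 : ℝ≥0∞)) p.1 *
      U (kwStep w p.1 p.2)) :=
    ((measurable_const.indicator measurableSet_Iic).comp measurable_fst).mul hUm
  have h2 : Measurable (fun p : ℝ × ℝ => (Set.Ioc b Y).indicator (fun _ => (1 : ℝ≥0∞)) p.1 *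
      U (kwStep w p.1 p.2)) :=
    ((measurable_const.indicator measurableSet_Ioc).comp measurable_fst).mul hUm
  have h12 : Measurable (fun p : ℝ × ℝ => (Set.Iic b).indicator (fun _ => (1 : ℝ≥0∞)) p.1 *
      U (kwStep w p.1 p.2) + (Set.Ioc b Y).indicator (fun _ => (1 : ℝ≥0∞)) p.1 *
      U (kwStep w p.1 p.2)) := h1.add h2
  rw [← lintegral_add_left h1, ← lintegral_add_left h12]
  refine lintegral_mono fun p => ?_
  rcases le_or_gt p.1 b with hb | hb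
  · rw [Set.indicator_of_mem (show p.1 ∈ Set.Iic b from hb), one_mul]
    exact (hfU _).trans (le_self_add.trans le_self_add)
  · rcases le_or_gt p.1 Y with hY | hY
    · rw [Set.indicator_of_mem (show p.1 ∈ Set.Ioc b Y from ⟨hb, hY⟩), one_mul]
      exact (hfU _).trans (le_add_self.trans le_self_add)
    · rw [Set.indicator_of_mem (show p.1 ∈ Set.Ioi Y from hY), one_mul]
      exact (hfc _).trans le_add_self

/-- the kernel integral from below the level -/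
private lemma aps_split2 {f G : ℝ × ℝ → ℝ≥0∞} (hG : Measurable G) {cap : ℝ≥0∞}
    (hfG : ∀ w, f w ≤ G w) (hfc : ∀ w, f w ≤ cap) (Y : ℝ) (w : ℝ × ℝ) :
    ∫⁻ p, f (kwStep w p.1 p.2) ∂(μ.prod ν) ≤
      ∫⁻ p, (Set.Iic Y).indicator (fun _ => (1 : ℝ≥0∞)) p.1 * G (kwStep w p.1 p.2) ∂(μ.prod ν) +
      ∫⁻ p : ℝ × ℝ, (Set.Ioi Y).indicator (fun _ => (1 : ℝ≥0∞)) p.1 * cap ∂(μ.prod ν) := by
  have hGm : Measurable (fun p : ℝ × ℝ => G (kwStep w p.1 p.2)) :=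
    hG.comp (measurable_kwStep_right w)
  have h1 : Measurable (fun p : ℝ × ℝ => (Set.Iic Y).indicator (fun _ => (1 : ℝ≥0∞)) p.1 *
      G (kwStep w p.1 p.2)) :=
    ((measurable_const.indicator measurableSet_Iic).comp measurable_fst).mul hGm
  rw [← lintegral_add_left h1]
  refine lintegral_mono fun p => ?_
  rcases le_or_gt p.1 Y with hY | hY
  · rw [Set.indicator_of_mem (show p.1 ∈ Set.Iic Y from hY), one_mul]
    exact (hfG _).trans le_self_add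
  · rw [Set.indicator_of_mem (show p.1 ∈ Set.Ioi Y from hY), one_mul]
    exact (hfc _).trans le_add_self

/-- arithmetic of the drift -/
private lemma aps_coef {y κ CM w2 e : ℝ} (hy : 2 ≤ y) (hκ : 3 ≤ κ * y ^ 2) (hκ0 : 0 < κ)
    (hCM : 1 ≤ CM) (hCMy : 2 * CM ≤ y) (hw : 0 < w2) (hwy : w2 ≤ y ^ 4)
    (he : e = κ * (y ^ 2)⁻¹) :
    ENNReal.ofReal (1 - e / w2) + ENNReal.ofReal (CM * (1 + y ^ 3) * (y ^ 12)⁻¹) +
      ENNReal.ofReal (y ^ 8)⁻¹ + ENNReal.ofReal (y ^ 8)⁻¹ ≤ 1 := by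
  have hy0 : 0 < y := by linarith
  have h8 : 0 < (y ^ 8)⁻¹ := by positivity
  have h1 : 3 * (y ^ 8)⁻¹ ≤ e / w2 := by
    rw [he, le_div_iff₀ hw]
    calc 3 * (y ^ 8)⁻¹ * w2 ≤ (κ * y ^ 2) * (y ^ 8)⁻¹ * y ^ 4 := by
          apply mul_le_mul _ hwy hw.le (by positivity)
          exact mul_le_mul_of_nonneg_right hκ h8.le
      _ = κ * (y ^ 2)⁻¹ := by
          field_simp
  have h2 : CM * (1 + y ^ 3) * (y ^ 12)⁻¹ ≤ (y ^ 8)⁻¹ := by
    have h3 : (1:ℝ) ≤ y ^ 3 := one_le_pow₀ (by linarith)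
    have h4 : CM * (1 + y ^ 3) ≤ y ^ 4 := by
      calc CM * (1 + y ^ 3) ≤ CM * (y ^ 3 + y ^ 3) :=
            mul_le_mul_of_nonneg_left (by linarith) (by linarith)
        _ = (2 * CM) * y ^ 3 := by ring
        _ ≤ y * y ^ 3 := mul_le_mul_of_nonneg_right hCMy (by positivity)
        _ = y ^ 4 := by ring
    calc CM * (1 + y ^ 3) * (y ^ 12)⁻¹ ≤ y ^ 4 * (y ^ 12)⁻¹ :=
          mul_le_mul_of_nonneg_right h4 (by positivity)
      _ = (y ^ 8)⁻¹ := by field_simp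
  have h5 : 3 * (y ^ 8)⁻¹ ≤ 1 := by
    have h6 : (256:ℝ) ≤ y ^ 8 := by
      calc (256:ℝ) = 2 ^ 8 := by norm_num
        _ ≤ y ^ 8 := pow_le_pow_left₀ (by norm_num) hy 8
    have h7 : (y ^ 8)⁻¹ ≤ 1 / 256 := by
      rw [inv_eq_one_div]
      exact one_div_le_one_div_of_le (by norm_num) h6
    linarith
  calc ENNReal.ofReal (1 - e / w2) + ENNReal.ofReal (CM * (1 + y ^ 3) * (y ^ 12)⁻¹) +
      ENNReal.ofReal (y ^ 8)⁻¹ + ENNReal.ofReal (y ^ 8)⁻¹
      ≤ ENNReal.ofReal (1 - 3 * (y ^ 8)⁻¹) + ENNReal.ofReal (y ^ 8)⁻¹ +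
        ENNReal.ofReal (y ^ 8)⁻¹ + ENNReal.ofReal (y ^ 8)⁻¹ := by
        gcongr
    _ = ENNReal.ofReal (1 - 3 * (y ^ 8)⁻¹ + (y ^ 8)⁻¹ + (y ^ 8)⁻¹ + (y ^ 8)⁻¹) := by
        rw [← ENNReal.ofReal_add (by linarith) h8.le, ← ENNReal.ofReal_add (by linarith) h8.le,
          ← ENNReal.ofReal_add (by linarith) h8.le]
    _ = 1 := by
        rw [show 1 - 3 * (y ^ 8)⁻¹ + (y ^ 8)⁻¹ + (y ^ 8)⁻¹ + (y ^ 8)⁻¹ = 1 by ring,
          ENNReal.ofReal_one]

private lemma aps_lev {C v1 v1' G0 G0' γ v b : ℝ} (L : Lev h h' C v1 G0 γ v b)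
    (h1 : v1' ≤ v1) (h2 : G0' ≤ G0) : Lev h h' C v1' G0' γ v b :=
  ⟨h1.trans L.lv, L.lB, L.lBv, L.lh, L.lγ, by linarith [L.lg]⟩


/-- the statement for a fixed `y`, from the numerical conditions -/
private lemma aps_core (S : StdC μ ν h h') {β : ℝ → ℝ} {θ0 c C D : ℝ}
    (P : Pot μ ν h β θ0 c C 0) (hD : 4 * C ≤ D) {κ v1 cW G0 CM v1' G0' CE CU y b : ℝ}
    (hκ0 : 0 < κ) (hcW : 0 < cW) (hG0 : 0 < G0) (hCM : 1 ≤ CM) (hCE : 1 ≤ CE) (hCU : 0 ≤ CU)
    (P' : Pot μ ν h (fun θ => (1 - (y ^ 2)⁻¹) * β θ) θ0 (c / 2) C (κ * (y ^ 2)⁻¹))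
    (L : Lev h h' C v1 G0 (12 * Real.log y) (√y) b)
    (L' : Lev h h' C v1' G0' (12 * Real.log y) (√y) b)
    (Hs : ∀ (β : ℝ → ℝ) (e v B γ g1 g2 : ℝ) (w : ℝ × ℝ), Pot μ ν h β θ0 (c / 2) C e →
      Lev h h' C v1 G0 γ v B → g2 - g1 ≤ γ → 0 ≤ w.1 → w.1 ≤ w.2 → v / 2 ≤ w.2 →
      (∫⁻ p, (Set.Iic B).indicator (fun _ => (1 : ℝ≥0∞)) p.1 *
        UU h β D θ0 g1 g2 B (kwStep w p.1 p.2) ∂(μ.prod ν) ≤
        ENNReal.ofReal (1 - min e (cW * gg h h' B) / w.2) * UU h β D θ0 g1 g2 B w))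
    (Hb : ∀ (β : ℝ → ℝ) (θ0 c C D e B γ Y : ℝ) (w : ℝ × ℝ), Pot μ ν h β θ0 c C e → 0 ≤ D →
      0 < B → 0 ≤ γ → γ ≤ gg h h' B → 0 ≤ w.1 → w.1 ≤ w.2 → B ≤ w.2 → 0 ≤ Y →
      ∫⁻ p, (Set.Ioc B Y).indicator (fun _ => (1 : ℝ≥0∞)) p.1 *
        UU h β D θ0 γ (2 * γ) B (kwStep w p.1 p.2) ∂(μ.prod ν) ≤
        ENNReal.ofReal (CM * (1 + Y) * Real.exp (-γ)) * UU h β D θ0 γ (2 * γ) B w)
    (He : ∀ (β : ℝ → ℝ) (e v B γ g1 g2 Y : ℝ) (w : ℝ × ℝ), Pot μ ν h β θ0 (c / 2) C e →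
      Lev h h' C v1' G0' γ v B → 0 ≤ w.1 → w.1 ≤ w.2 → w.2 ≤ v → B ≤ Y →
      ∫⁻ p, (Set.Iic Y).indicator (fun _ => (1 : ℝ≥0∞)) p.1 *
        ({w' : ℝ × ℝ | v < w'.2}.indicator (UU h β D θ0 g1 g2 B) (kwStep w p.1 p.2)) ∂(μ.prod ν) ≤
        ENNReal.ofReal (CE * (1 + Y) * Real.exp (-(min g1 g2))) * EP h β D θ0 w)
    (hup : ∀ x : ℝ, μ (Set.Ioi x) ≤ ENNReal.ofReal (CU * Real.exp (-(h x))))
    (hy : 2 ≤ y) (hyM : 2 * CM ≤ y) (hyD : 1 + D < y) (hyκ : 3 ≤ κ * y ^ 2)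
    (hyG : κ * (y ^ 2)⁻¹ ≤ cW * G0) (hyθ : C * θ0 ≤ y) (hyU : CU ≤ y)
    (hye : Real.exp 1 * (CE + CU) ≤ y ^ 2) (hg1 : h (1 * y ^ 3) + 24 * Real.log y ≤ h (y ^ 4))
    (hg2 : h ((1 + C) * y) + 1 * Real.log y ≤ h (y ^ 3)) (hθ : h' (√y) ≤ θ0)
    (hl : 33 * Real.log y ≤ h (√y)) {π : Measure (ℝ × ℝ)} (hπ : IsStationaryKW μ ν π) :
    ∫⁻ w, ({w : ℝ × ℝ | √y < w.2 ∧ w.2 ≤ y}).indicator (EP h β D θ0) w ∂π ≤
        ENNReal.ofReal (y ^ 34) *
          ∫⁻ w, ({w : ℝ × ℝ | w.2 ≤ √y}).indicator (EP h β D θ0) w ∂π := by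
  have H := S.haz
  have hy0 : 0 < y := by linarith
  have hy1 : 1 ≤ y := by linarith
  have hLog : 0 ≤ Real.log y := Real.log_nonneg hy1
  have hC0 : 0 < C := by linarith [P.pC, P.pc]
  have hD0 : 0 ≤ D := by linarith
  have hs0 : 0 < √y := Real.sqrt_pos.2 hy0
  have hsy : √y ≤ y := by
    rw [Real.sqrt_le_left hy0.le]
    nlinarith
  have hb0 : 0 < b := L.lB
  have hbs : b ≤ √y := by linarith [L.lBv]
  have hy3 : y ≤ y ^ 3 := by
    calc y = y ^ 1 := (pow_one y).symm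
      _ ≤ y ^ 3 := pow_le_pow_right₀ hy1 (by norm_num)
  have hε0 : 0 ≤ (y ^ 2)⁻¹ := by positivity
  set γ : ℝ := 12 * Real.log y with hγ
  have hγ0 : 0 ≤ γ := by positivity
  have hexpγ : Real.exp γ = y ^ 12 := by
    have := aps_exp 12 hy0
    rw [hγ]
    exact_mod_cast this
  have hexp2γ : Real.exp (2 * γ) = y ^ 24 := by
    have := aps_exp 24 hy0
    rw [hγ, show 2 * (12 * Real.log y) = 24 * Real.log y by ring]
    exact_mod_cast this
  have hexpnγ : Real.exp (-γ) = (y ^ 12)⁻¹ := by rw [Real.exp_neg, hexpγ]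
  set U : ℝ × ℝ → ℝ≥0∞ := UU h (fun θ => (1 - (y ^ 2)⁻¹) * β θ) D θ0 γ (2 * γ) b with hUdef
  set cap : ℝ≥0∞ := ENNReal.ofReal (Real.exp (h (y ^ 3))) with hcap
  have hUm : Measurable U := measurable_UU H _ _ _ _ _ _
  have hEm : Measurable (EP h β D θ0) := measurable_EP H _ _ _
  have hmS : MeasurableSet {w : ℝ × ℝ | √y < w.2} := measurableSet_lt measurable_const measurable_snd
  have hmS' : MeasurableSet {w : ℝ × ℝ | w.2 ≤ √y} :=
    measurableSet_le measurable_snd measurable_const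
  have hmI : MeasurableSet {w : ℝ × ℝ | √y < w.2 ∧ w.2 ≤ y} :=
    hmS.inter (measurableSet_le measurable_snd measurable_const)
  set f : ℝ × ℝ → ℝ≥0∞ := {w : ℝ × ℝ | √y < w.2}.indicator (fun w => min (U w) cap) with hf
  set g : ℝ × ℝ → ℝ≥0∞ := {w : ℝ × ℝ | √y < w.2 ∧ w.2 ≤ y}.indicator
    (fun w => ENNReal.ofReal (y ^ 8)⁻¹ * U w) with hg
  set q : ℝ × ℝ → ℝ≥0∞ := {w : ℝ × ℝ | w.2 ≤ √y}.indicator
    (fun w => ENNReal.ofReal (CE + CU) * EP h β D θ0 w) with hq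
  have hfm : Measurable f := (hUm.min measurable_const).indicator hmS
  have hgm : Measurable g := (hUm.const_mul _).indicator hmI
  have hqm : Measurable q := (hEm.const_mul _).indicator hmS'
  have hfU : ∀ w, f w ≤ U w := fun w => by
    rw [hf]
    refine (Set.indicator_le_self' (fun _ _ => zero_le) w).trans (min_le_left _ _)
  have hfc : ∀ w, f w ≤ cap := fun w => by
    rw [hf]
    refine (Set.indicator_le_self' (fun _ _ => zero_le) w).trans (min_le_right _ _)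
  have hfG : ∀ w, f w ≤ {w' : ℝ × ℝ | √y < w'.2}.indicator U w := fun w => by
    rw [hf]
    exact Set.indicator_le_indicator (min_le_left _ _)
  -- on `√y < w₂ ≤ y` the potential is below the cap
  have hlow : ∀ w : ℝ × ℝ, 0 ≤ w.1 → w.1 ≤ w.2 → √y < w.2 → w.2 ≤ y → U w < cap := by
    intro w h0 h1 h2 h3
    have hw2 : 0 < w.2 := hs0.trans h2
    have hCw : 0 ≤ C * w.1 := mul_nonneg hC0.le h0
    have hV := VV_le_h H P' hD0 h0 hw2 ((H.anti _ _ hs0 (by linarith)).trans hθ)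
    have hUV : U w ≤ VV h (fun θ => (1 - (y ^ 2)⁻¹) * β θ) D θ0 w := by
      rw [hUdef]
      calc UU h (fun θ => (1 - (y ^ 2)⁻¹) * β θ) D θ0 γ (2 * γ) b w
          ≤ ENNReal.ofReal (Real.exp (-γ)) * VV h (fun θ => (1 - (y ^ 2)⁻¹) * β θ) D θ0 w :=
            min_le_left _ _
        _ ≤ 1 * VV h (fun θ => (1 - (y ^ 2)⁻¹) * β θ) D θ0 w := by
            refine mul_le_mul' ?_ le_rfl
            rw [← ENNReal.ofReal_one]
            refine ENNReal.ofReal_le_ofReal ?_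
            rw [← Real.exp_zero]
            exact Real.exp_le_exp.2 (by linarith)
        _ = _ := one_mul _
    refine (hUV.trans hV).trans_lt ?_
    rw [hcap, ENNReal.ofReal_lt_ofReal_iff (Real.exp_pos _)]
    have hle : w.2 + C * w.1 ≤ (1 + C) * y := by nlinarith
    have h4 : h (w.2 + C * w.1) ≤ h (y ^ 3) - Real.log y := by
      have := H.mono hle
      linarith
    calc (1 + D) * Real.exp (h (w.2 + C * w.1))
        ≤ (1 + D) * Real.exp (h (y ^ 3) - Real.log y) :=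
          mul_le_mul_of_nonneg_left (Real.exp_le_exp.2 h4) (by linarith)
      _ < y * Real.exp (h (y ^ 3) - Real.log y) :=
          mul_lt_mul_of_pos_right hyD (Real.exp_pos _)
      _ = Real.exp (h (y ^ 3)) := by
          rw [Real.exp_sub, Real.exp_log hy0]
          field_simp
  -- the drift inequality
  have hd : ∀ w : ℝ × ℝ, 0 ≤ w.1 → w.1 ≤ w.2 →
      ∫⁻ p, f (kwStep w p.1 p.2) ∂(μ.prod ν) + g w ≤ f w + q w := by
    intro w h0 h1
    have htail := aps_tail (μ := μ) (ν := ν) hup (y ^ 3)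
    rw [← hcap] at htail
    rcases le_or_gt w.2 (√y) with hw | hw
    · -- case (3)
      have hg0 : g w = 0 := by
        rw [hg]
        exact Set.indicator_of_notMem (fun hm => absurd hm.1 (not_lt.2 hw)) _
      have hqv : q w = ENNReal.ofReal (CE + CU) * EP h β D θ0 w := by
        rw [hq]
        exact Set.indicator_of_mem (show w ∈ {w : ℝ × ℝ | w.2 ≤ √y} from hw) _
      rw [hg0, add_zero, hqv]
      refine le_trans ?_ le_add_self
      have hE := He _ _ (√y) b γ γ (2 * γ) (y ^ 3) w P' L' h0 h1 hw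
        (hbs.trans (hsy.trans hy3))
      rw [min_eq_left (by linarith), hexpnγ, ← hUdef] at hE
      have hEE : EP h (fun θ => (1 - (y ^ 2)⁻¹) * β θ) D θ0 w ≤ EP h β D θ0 w :=
        min_le_min (VV_slack_le H P hε0 h0) le_rfl
      have hc1 : CE * (1 + y ^ 3) * (y ^ 12)⁻¹ ≤ CE := by
        have h12 : (1 + y ^ 3) ≤ y ^ 12 := by
          have a1 : (1:ℝ) ≤ y ^ 3 := one_le_pow₀ hy1
          calc 1 + y ^ 3 ≤ 2 * y ^ 3 := by linarith
            _ ≤ y * y ^ 3 := mul_le_mul_of_nonneg_right hy (by positivity)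
            _ = y ^ 4 := by ring
            _ ≤ y ^ 12 := pow_le_pow_right₀ hy1 (by norm_num)
        rw [mul_assoc]
        have h13 : (1 + y ^ 3) * (y ^ 12)⁻¹ ≤ 1 := by
          rw [mul_inv_le_iff₀ (by positivity), one_mul]
          exact h12
        calc CE * ((1 + y ^ 3) * (y ^ 12)⁻¹) ≤ CE * 1 :=
              mul_le_mul_of_nonneg_left h13 (by linarith)
          _ = CE := mul_one _
      have h1E := one_le_EP H P hD0 h0 h1
      calc ∫⁻ p, f (kwStep w p.1 p.2) ∂(μ.prod ν)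
          ≤ _ := aps_split2 (hUm.indicator hmS) hfG hfc (y ^ 3) w
        _ ≤ ENNReal.ofReal CE * EP h β D θ0 w + ENNReal.ofReal CU * EP h β D θ0 w := by
            refine add_le_add (hE.trans (mul_le_mul' (ENNReal.ofReal_le_ofReal hc1) hEE)) ?_
            calc _ ≤ ENNReal.ofReal CU := htail
              _ = ENNReal.ofReal CU * 1 := (mul_one _).symm
              _ ≤ _ := mul_le_mul' le_rfl h1E
        _ = ENNReal.ofReal (CE + CU) * EP h β D θ0 w := by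
            rw [ENNReal.ofReal_add (by linarith) hCU, add_mul]
    · have hq0 : q w = 0 := by
        rw [hq]
        exact Set.indicator_of_notMem
          (show w ∉ {w : ℝ × ℝ | w.2 ≤ √y} from fun hm => absurd hm (not_le.2 hw)) _
      have hfv : f w = min (U w) cap := by
        rw [hf]
        exact Set.indicator_of_mem (show w ∈ {w : ℝ × ℝ | √y < w.2} from hw) _
      rw [hq0, add_zero]
      have hw2 : 0 < w.2 := hs0.trans hw
      rcases lt_or_ge (U w) cap with hUc | hUc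
      · -- case (1)
        rw [hfv, min_eq_left hUc.le]
        have hge := UU_ge H P' hD0 (g1 := γ) (g2 := 2 * γ) (B := b) (by linarith) h0 h1
        rw [← hUdef] at hge
        have hw4 : w.2 ≤ y ^ 4 := by
          by_contra hcon
          have hcon := (not_le.1 hcon).le
          have h5 := hge.trans_lt hUc
          rw [hcap, ENNReal.ofReal_lt_ofReal_iff (Real.exp_pos _), Real.exp_lt_exp] at h5
          have h6 := H.mono hcon
          rw [one_mul] at hg1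
          have : 2 * γ = 24 * Real.log y := by rw [hγ]; ring
          linarith
        have hgB : G0 ≤ gg h h' b := by linarith [L.lg]
        have hgγ : γ ≤ gg h h' b := by linarith [L.lg]
        have hsm := Hs _ _ (√y) b γ γ (2 * γ) w P' L (by linarith) h0 h1 (by linarith)
        have hmin : min (κ * (y ^ 2)⁻¹) (cW * gg h h' b) = κ * (y ^ 2)⁻¹ :=
          min_eq_left (hyG.trans (mul_le_mul_of_nonneg_left hgB hcW.le))
        rw [hmin, ← hUdef] at hsm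
        have hbg := Hb _ _ _ _ _ _ b γ (y ^ 3) w P' hD0 hb0 hγ0 hgγ h0 h1 (hbs.trans hw.le)
          (by positivity)
        rw [hexpnγ, ← hUdef] at hbg
        have hCUU : ENNReal.ofReal CU ≤ ENNReal.ofReal (y ^ 8)⁻¹ * U w := by
          calc ENNReal.ofReal CU ≤ ENNReal.ofReal ((y ^ 8)⁻¹ * Real.exp (h w.2 - 2 * γ)) := by
                refine ENNReal.ofReal_le_ofReal ?_
                have h7 : y ^ 9 ≤ Real.exp (h w.2 - 2 * γ) := by
                  have h8 := aps_exp 9 hy0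
                  push_cast at h8
                  rw [← h8]
                  refine Real.exp_le_exp.2 ?_
                  have h9 := H.mono hw.le
                  have : 2 * γ = 24 * Real.log y := by rw [hγ]; ring
                  linarith
                calc CU ≤ y := hyU
                  _ = (y ^ 8)⁻¹ * y ^ 9 := by field_simp
                  _ ≤ _ := mul_le_mul_of_nonneg_left h7 (by positivity)
            _ = ENNReal.ofReal (y ^ 8)⁻¹ * ENNReal.ofReal (Real.exp (h w.2 - 2 * γ)) :=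
                ENNReal.ofReal_mul (by positivity)
            _ ≤ _ := mul_le_mul' le_rfl hge
        have hgle : g w ≤ ENNReal.ofReal (y ^ 8)⁻¹ * U w := by
          rw [hg]
          exact Set.indicator_le_self' (fun _ _ => zero_le) w
        calc ∫⁻ p, f (kwStep w p.1 p.2) ∂(μ.prod ν) + g w
            ≤ (ENNReal.ofReal (1 - κ * (y ^ 2)⁻¹ / w.2) * U w +
              ENNReal.ofReal (CM * (1 + y ^ 3) * (y ^ 12)⁻¹) * U w +
              ENNReal.ofReal (y ^ 8)⁻¹ * U w) + ENNReal.ofReal (y ^ 8)⁻¹ * U w := by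
              refine add_le_add ((aps_split3 hUm hfU hfc b (y ^ 3) w).trans ?_) hgle
              exact add_le_add (add_le_add hsm hbg) (htail.trans hCUU)
          _ = (ENNReal.ofReal (1 - κ * (y ^ 2)⁻¹ / w.2) +
              ENNReal.ofReal (CM * (1 + y ^ 3) * (y ^ 12)⁻¹) +
              ENNReal.ofReal (y ^ 8)⁻¹ + ENNReal.ofReal (y ^ 8)⁻¹) * U w := by ring
          _ ≤ 1 * U w := mul_le_mul' (aps_coef hy hyκ hκ0 hCM hyM hw2 hw4 rfl) le_rfl
          _ = U w := one_mul _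
      · -- case (2)
        rw [hfv, min_eq_right hUc]
        have hg0 : g w = 0 := by
          rw [hg]
          exact Set.indicator_of_notMem
            (fun hm => absurd (hlow w h0 h1 hm.1 hm.2) (not_lt.2 hUc)) _
        rw [hg0, add_zero]
        calc ∫⁻ p, f (kwStep w p.1 p.2) ∂(μ.prod ν) ≤ ∫⁻ _, cap ∂(μ.prod ν) :=
              lintegral_mono fun p => hfc _
          _ = cap := by simp
  have hFL := fl_bound hπ hfm hgm hqm (M := cap) ENNReal.ofReal_ne_top hfc hd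
  -- conclusion
  have hEU : ∀ᵐ w ∂π, ({w : ℝ × ℝ | √y < w.2 ∧ w.2 ≤ y}).indicator (EP h β D θ0) w ≤
      ENNReal.ofReal (Real.exp 1 * y ^ 32) * g w := by
    filter_upwards [hπ.ae_ordered] with w hw
    by_cases hm : w ∈ {w : ℝ × ℝ | √y < w.2 ∧ w.2 ≤ y}
    · rw [hg, Set.indicator_of_mem hm, Set.indicator_of_mem hm]
      have hsl := VV_slack H P hD0 hε0 (w := w) hw.1
      have hexp1 : (y ^ 2)⁻¹ * (C * θ0 * w.1) ≤ 1 := by
        have a1 : w.1 ≤ y := hw.2.trans hm.2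
        have a2 : C * θ0 * w.1 ≤ y * y :=
          mul_le_mul hyθ a1 hw.1 hy0.le
        rw [inv_mul_le_iff₀ (by positivity)]
        nlinarith
      have hEe : EP h β D θ0 w ≤ ENNReal.ofReal (Real.exp 1) *
          EP h (fun θ => (1 - (y ^ 2)⁻¹) * β θ) D θ0 w := by
        rw [EP, EP, mul_min]
        refine min_le_min (hsl.trans (mul_le_mul' (ENNReal.ofReal_le_ofReal
          (Real.exp_le_exp.2 hexp1)) le_rfl)) ?_
        calc ENNReal.ofReal (Real.exp (h w.1 + h w.2))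
            = 1 * ENNReal.ofReal (Real.exp (h w.1 + h w.2)) := (one_mul _).symm
          _ ≤ _ := by
              refine mul_le_mul' ?_ le_rfl
              rw [← ENNReal.ofReal_one]
              exact ENNReal.ofReal_le_ofReal (Real.one_le_exp zero_le_one)
      have hEU' := EP_le_UU H (β := fun θ => (1 - (y ^ 2)⁻¹) * β θ) (D := D) (θ0 := θ0)
        (g1 := γ) (g2 := 2 * γ) (B := b) (by linarith) w
      rw [hexp2γ, ← hUdef] at hEU'
      calc EP h β D θ0 w ≤ ENNReal.ofReal (Real.exp 1) *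
            (ENNReal.ofReal (y ^ 24) * U w) := hEe.trans (mul_le_mul' le_rfl hEU')
        _ = ENNReal.ofReal (Real.exp 1 * y ^ 32) * (ENNReal.ofReal (y ^ 8)⁻¹ * U w) := by
            rw [← mul_assoc, ← mul_assoc, ← ENNReal.ofReal_mul (Real.exp_pos _).le,
              ← ENNReal.ofReal_mul (by positivity)]
            congr 2
            field_simp
    · rw [Set.indicator_of_notMem hm]
      exact zero_le
  calc ∫⁻ w, ({w : ℝ × ℝ | √y < w.2 ∧ w.2 ≤ y}).indicator (EP h β D θ0) w ∂π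
      ≤ ∫⁻ w, ENNReal.ofReal (Real.exp 1 * y ^ 32) * g w ∂π := lintegral_mono_ae hEU
    _ = ENNReal.ofReal (Real.exp 1 * y ^ 32) * ∫⁻ w, g w ∂π := lintegral_const_mul _ hgm
    _ ≤ ENNReal.ofReal (Real.exp 1 * y ^ 32) * ∫⁻ w, q w ∂π := mul_le_mul' le_rfl hFL
    _ = ENNReal.ofReal (Real.exp 1 * y ^ 32) * (ENNReal.ofReal (CE + CU) *
          ∫⁻ w, ({w : ℝ × ℝ | w.2 ≤ √y}).indicator (EP h β D θ0) w ∂π) := by
        congr 1
        rw [← lintegral_const_mul _ (hEm.indicator hmS')]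
        refine lintegral_congr fun w => ?_
        rw [hq]
        by_cases hm : w ∈ {w : ℝ × ℝ | w.2 ≤ √y}
        · rw [Set.indicator_of_mem hm, Set.indicator_of_mem hm]
        · rw [Set.indicator_of_notMem hm, Set.indicator_of_notMem hm, mul_zero]
    _ = ENNReal.ofReal (Real.exp 1 * (CE + CU) * y ^ 32) *
          ∫⁻ w, ({w : ℝ × ℝ | w.2 ≤ √y}).indicator (EP h β D θ0) w ∂π := by
        rw [← mul_assoc, ← ENNReal.ofReal_mul (by positivity)]
        congr 2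
        ring
    _ ≤ _ := by
        refine mul_le_mul' (ENNReal.ofReal_le_ofReal ?_) le_rfl
        calc Real.exp 1 * (CE + CU) * y ^ 32 ≤ y ^ 2 * y ^ 32 :=
              mul_le_mul_of_nonneg_right hye (by positivity)
          _ = y ^ 34 := by ring


theorem ap_step (S : StdC μ ν h h') (T : Thr h h' B v) {β : ℝ → ℝ} {θ0 c C D : ℝ}
    (P : Pot μ ν h β θ0 c C 0) (hD : 4 * C ≤ D) :
    ∀ᶠ y : ℝ in atTop, ∀ π : Measure (ℝ × ℝ), IsStationaryKW μ ν π →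
      ∫⁻ w, ({w : ℝ × ℝ | √y < w.2 ∧ w.2 ≤ y}).indicator (EP h β D θ0) w ∂π ≤
        ENNReal.ofReal (y ^ 34) *
          ∫⁻ w, ({w : ℝ × ℝ | w.2 ≤ √y}).indicator (EP h β D θ0) w ∂π := by
  have H := S.haz
  have hc := P.pc
  have hC : 1 + c / 2 ≤ C := by linarith [P.pC]
  have hC0 : 0 ≤ C := by linarith
  obtain ⟨ε1, κ, hε1, -, hκ, hPot⟩ := pot_slack S P
  obtain ⟨v1, cW, G0, -, hcW, hG0, Hs⟩ := step_small S P.pθ (half_pos hc) hC hD
  obtain ⟨CM, hCM, Hb⟩ := step_big S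
  obtain ⟨v1', G0', CE, -, -, hCE, He⟩ := entry S P.pθ (half_pos hc) hC hD
  obtain ⟨CU, hCU, hup⟩ := S.law.up
  have e1 := T.lev_sqrt H (v1 := max v1 v1') (G0 := max G0 G0') hC0
    (show (0:ℝ) ≤ 12 by norm_num)
  have e2 := H.gap_cube 24 1
  have e3 := H.gap_cube' 1 (1 + C)
  have hsq : Tendsto (fun y : ℝ => √y) atTop atTop := Real.tendsto_sqrt_atTop
  have e4 : ∀ᶠ y : ℝ in atTop, h' (√y) ≤ θ0 := by
    have := (H.tendsto_deriv.comp hsq).eventually (eventually_le_nhds P.pθ)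
    exact this
  have e5 : ∀ᶠ y : ℝ in atTop, 66 * Real.log (√y) ≤ h (√y) :=
    hsq.eventually (H.log_le 66)
  have hpow : Tendsto (fun y : ℝ => y ^ 2) atTop atTop := tendsto_pow_atTop (by norm_num)
  have hinv : Tendsto (fun y : ℝ => (y ^ 2)⁻¹) atTop (𝓝 0) := hpow.inv_tendsto_atTop
  have e6 : ∀ᶠ y : ℝ in atTop, (y ^ 2)⁻¹ ≤ ε1 := hinv.eventually (eventually_le_nhds hε1)
  have e7 : ∀ᶠ y : ℝ in atTop, κ * (y ^ 2)⁻¹ ≤ cW * G0 := by
    have h1 : Tendsto (fun y : ℝ => κ * (y ^ 2)⁻¹) atTop (𝓝 (κ * 0)) := hinv.const_mul κ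
    rw [mul_zero] at h1
    exact h1.eventually (eventually_le_nhds (by positivity))
  have e8 : ∀ᶠ y : ℝ in atTop, 3 ≤ κ * y ^ 2 :=
    (hpow.const_mul_atTop hκ).eventually_ge_atTop 3
  have e9 : ∀ᶠ y : ℝ in atTop, Real.exp 1 * (CE + CU) ≤ y ^ 2 :=
    hpow.eventually_ge_atTop _
  filter_upwards [e1, e2, e3, e4, e5, e6, e7, e8, e9, eventually_ge_atTop 2,
    eventually_ge_atTop (2 * CM), eventually_gt_atTop (1 + D), eventually_ge_atTop (C * θ0),
    eventually_ge_atTop CU] with y f1 f2 f3 f4 f5 f6 f7 f8 f9 g1 g2 g3 g4 g5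
  intro π hπ
  have hy0 : 0 < y := by linarith
  refine aps_core S P hD hκ hcW hG0 hCM hCE hCU (hPot _ (by positivity) f6)
    (aps_lev f1 (le_max_left _ _) (le_max_left _ _))
    (aps_lev f1 (le_max_right _ _) (le_max_right _ _))
    (fun β e v B γ g1 g2 w a1 a2 a3 a4 a5 a6 => (Hs β e v B γ g1 g2 w a1 a2 a3 a4 a5 a6).1)
    Hb He hup g1 g2 g3 f8 f7 g4 g5 f9 f2 f3 f4 ?_ hπ
  rw [Real.log_sqrt hy0.le] at f5
  linarith

end Pool.Agent.Lib.MP_04add8_pr.Cv
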