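import Mathlib
import Pool.Agent.Lib.MP_04add8_pr.Cv.APStep

open MeasureTheory ProbabilityTheory Filter Topology
open scoped ENNReal

set_option linter.unusedSectionVars false

namespace Pool.Agent.Lib.MP_04add8_pr.Cv

open Pool.Agent.Lib.MP_04add8_pr.Gen

variable {h h' : ℝ → ℝ} {μ ν : Measure ℝ} [IsProbabilityMeasure μ]
  [IsProbabilityMeasure ν]

variable {B v : ℝ → ℝ}

/-- **Polynomial a priori bound.** Let `y0 ≥ 2` be such that `ap_step` holds for `y ≥ y0` and `√y0 ≥ 1`; `M0` a bound of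
`VV h β D θ0 w ≤ cT θ0 w` on `0 ≤ w₁ ≤ w₂ ≤ y0²`: `M0 = e^{hG θ0} e^{θ0 y0²} (e^{β θ0 y0²} + D)`. Let `KA ≥ 70` with
`y0 ^ KA ≥ M0`. Claim for all `n` and all `y ∈ [y0, y0^(2^n)]`, by induction on `n`: for `y ≤ y0²` the bound is
`M0 ≤ y0 ^ KA ≤ y ^ KA` (`π` probability); for `y > y0²`, `√y ∈ [y0, y0^(2^(n-1))]` and
`∫_{w₂≤y} = ∫_{w₂≤√y} + ∫_{√y<w₂≤y} ≤ (1 + y³⁴) (√y)^KA ≤ y^(35 + KA/2) ≤ y^KA`. -/
theorem ap_bound (S : StdC μ ν h h') (T : Thr h h' B v) {β : ℝ → ℝ} {θ0 c C D : ℝ}
    (P : Pot μ ν h β θ0 c C 0) (hD : 4 * C ≤ D) : ∃ KA y0 : ℝ, 1 ≤ KA ∧ 1 ≤ y0 ∧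
    ∀ y : ℝ, y0 ≤ y → ∀ π : Measure (ℝ × ℝ), IsStationaryKW μ ν π →
      ∫⁻ w, ({w : ℝ × ℝ | w.2 ≤ y}).indicator (EP h β D θ0) w ∂π ≤ ENNReal.ofReal (y ^ KA) := by
  obtain ⟨y1, hy1⟩ := eventually_atTop.1 (ap_step S T P hD)
  set y0 : ℝ := max y1 2 with hy0
  have hy02 : 2 ≤ y0 := le_max_right _ _
  have hθ := P.pθ
  have hc := P.pc
  have hCc := P.pC
  have hD0 : 0 ≤ D := by nlinarith
  have hβ : 0 ≤ β θ0 := by
    have := P.low θ0 hθ le_rfl
    nlinarith
  set M0 : ℝ := Real.exp (hG h θ0) * (Real.exp (θ0 * y0 ^ 2) * (Real.exp (β θ0 * y0 ^ 2) + D))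
    with hM0
  obtain ⟨N0, hN0⟩ := pow_unbounded_of_one_lt M0 (show (1 : ℝ) < y0 by linarith)
  set N : ℕ := max N0 70 with hN
  have hN70 : 70 ≤ N := le_max_right _ _
  have hMN : M0 ≤ y0 ^ N := hN0.le.trans (pow_le_pow_right₀ (by linarith) (le_max_left _ _))
  refine ⟨(N : ℝ), y0, ?_, by linarith, ?_⟩
  · exact_mod_cast (show 1 ≤ N by omega)
  -- the base bound
  have base : ∀ y : ℝ, y0 ≤ y → y ≤ y0 ^ 2 → ∀ π : Measure (ℝ × ℝ), IsStationaryKW μ ν π →
      ∫⁻ w, ({w : ℝ × ℝ | w.2 ≤ y}).indicator (EP h β D θ0) w ∂π ≤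
        ENNReal.ofReal (y ^ N) := by
    intro y hy hy2 π hπ
    have := hπ.1
    calc ∫⁻ w, ({w : ℝ × ℝ | w.2 ≤ y}).indicator (EP h β D θ0) w ∂π
        ≤ ∫⁻ _w, ENNReal.ofReal M0 ∂π := by
          apply lintegral_mono_ae
          filter_upwards [hπ.ae_ordered] with w hw
          by_cases hwy : w.2 ≤ y
          · rw [Set.indicator_of_mem (by exact hwy)]
            refine (min_le_left _ _).trans ?_
            refine (iInf_le _ (⟨θ0, hθ, le_rfl⟩ : Set.Ioc (0 : ℝ) θ0)).trans ?_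
            apply ENNReal.ofReal_le_ofReal
            unfold cT HF
            rw [hM0]
            have h1 : Real.exp (θ0 * w.2) ≤ Real.exp (θ0 * y0 ^ 2) := by
              apply Real.exp_le_exp.2
              exact mul_le_mul_of_nonneg_left (hwy.trans hy2) hθ.le
            have h2 : Real.exp (β θ0 * w.1) ≤ Real.exp (β θ0 * y0 ^ 2) := by
              apply Real.exp_le_exp.2
              exact mul_le_mul_of_nonneg_left ((hw.2.trans hwy).trans hy2) hβ
            have h3 : 0 ≤ Real.exp (β θ0 * w.1) + D := by positivity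
            apply mul_le_mul_of_nonneg_left _ (Real.exp_pos _).le
            exact mul_le_mul h1 (by linarith) h3 (Real.exp_pos _).le
          · rw [Set.indicator_of_notMem (by exact hwy)]
            exact zero_le
      _ = ENNReal.ofReal M0 := by simp
      _ ≤ ENNReal.ofReal (y ^ N) := by
          apply ENNReal.ofReal_le_ofReal
          exact hMN.trans (pow_le_pow_left₀ (by linarith) hy N)
  -- induction
  have key : ∀ n : ℕ, ∀ y : ℝ, y0 ≤ y → y ≤ y0 ^ (2 ^ n) → ∀ π : Measure (ℝ × ℝ),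
      IsStationaryKW μ ν π →
      ∫⁻ w, ({w : ℝ × ℝ | w.2 ≤ y}).indicator (EP h β D θ0) w ∂π ≤
        ENNReal.ofReal (y ^ N) := by
    intro n
    induction n with
    | zero =>
      intro y hy hyn π hπ
      refine base y hy ?_ π hπ
      have : y ≤ y0 := by simpa using hyn
      nlinarith
    | succ n ih =>
      intro y hy hyn π hπ
      by_cases hy2 : y ≤ y0 ^ 2
      · exact base y hy hy2 π hπ
      push Not at hy2
      have hy0' : 0 ≤ y := by linarith
      have hs0 : 0 ≤ √y := Real.sqrt_nonneg y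
      have hsq : √y ^ 2 = y := Real.sq_sqrt hy0'
      have hsy0 : y0 ≤ √y := by
        apply Real.le_sqrt_of_sq_le
        exact hy2.le
      have hsy : √y ≤ y := by nlinarith
      have hsn : √y ≤ y0 ^ (2 ^ n) := by
        rw [Real.sqrt_le_left (by positivity)]
        calc y ≤ y0 ^ (2 ^ (n + 1)) := hyn
          _ = (y0 ^ (2 ^ n)) ^ 2 := by rw [← pow_mul, pow_succ]
      have IH := ih (√y) hsy0 hsn π hπ
      have ST := hy1 y ((le_max_left _ _).trans hy) π hπ
      have hA : MeasurableSet {w : ℝ × ℝ | w.2 ≤ y} :=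
        measurableSet_le measurable_snd measurable_const
      have hA1 : MeasurableSet {w : ℝ × ℝ | w.2 ≤ √y} :=
        measurableSet_le measurable_snd measurable_const
      have hA2 : MeasurableSet {w : ℝ × ℝ | √y < w.2 ∧ w.2 ≤ y} :=
        (measurableSet_lt measurable_const measurable_snd).inter hA
      rw [lintegral_indicator hA]
      rw [lintegral_indicator hA1] at IH ST
      rw [lintegral_indicator hA2] at ST
      have hU : {w : ℝ × ℝ | w.2 ≤ y} =
          {w : ℝ × ℝ | w.2 ≤ √y} ∪ {w : ℝ × ℝ | √y < w.2 ∧ w.2 ≤ y} := by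
        ext w
        simp only [Set.mem_ofPred_eq, Set.mem_union]
        constructor
        · intro hw
          by_cases h1 : w.2 ≤ √y
          · exact Or.inl h1
          · exact Or.inr ⟨not_le.1 h1, hw⟩
        · rintro (h1 | h1)
          · exact h1.trans hsy
          · exact h1.2
      rw [hU]
      have hp34 : 0 ≤ y ^ 34 := by positivity
      calc ∫⁻ w in {w : ℝ × ℝ | w.2 ≤ √y} ∪ {w : ℝ × ℝ | √y < w.2 ∧ w.2 ≤ y}, EP h β D θ0 w ∂π
          ≤ ∫⁻ w in {w : ℝ × ℝ | w.2 ≤ √y}, EP h β D θ0 w ∂π +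
            ∫⁻ w in {w : ℝ × ℝ | √y < w.2 ∧ w.2 ≤ y}, EP h β D θ0 w ∂π :=
            lintegral_union_le _ _ _
        _ ≤ ENNReal.ofReal (√y ^ N) + ENNReal.ofReal (y ^ 34) * ENNReal.ofReal (√y ^ N) := by
            refine add_le_add IH (ST.trans ?_)
            exact mul_le_mul_right IH _
        _ = ENNReal.ofReal (√y ^ N + y ^ 34 * √y ^ N) := by
            rw [← ENNReal.ofReal_mul hp34, ← ENNReal.ofReal_add (by positivity) (by positivity)]
        _ ≤ ENNReal.ofReal (y ^ N) := by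
            apply ENNReal.ofReal_le_ofReal
            have hy1' : 1 ≤ y := by linarith
            have hs1 : 1 ≤ √y := by linarith
            have e1 : √y ^ N + y ^ 34 * √y ^ N ≤ y ^ 35 * √y ^ N := by
              have : 1 + y ^ 34 ≤ y ^ 35 := by
                have h2 : 1 ≤ y ^ 34 := one_le_pow₀ hy1'
                have h3 : (2 : ℝ) ≤ y := by linarith
                calc 1 + y ^ 34 ≤ 2 * y ^ 34 := by linarith
                  _ ≤ y * y ^ 34 := by nlinarith
                  _ = y ^ 35 := by ring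
              nlinarith [pow_nonneg hs0 N]
            have e2 : y ^ 35 * √y ^ N ≤ y ^ N := by
              have : y ^ 35 * √y ^ N = √y ^ (70 + N) := by
                conv_lhs => rw [← hsq]
                rw [Real.sqrt_sq hs0, ← pow_mul, ← pow_add]
              rw [this]
              have : y ^ N = √y ^ (2 * N) := by
                conv_lhs => rw [← hsq]
                rw [← pow_mul]
              rw [this]
              exact pow_le_pow_right₀ hs1 (by omega)
            exact e1.trans e2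
  intro y hy π hπ
  rw [Real.rpow_natCast]
  obtain ⟨n, hn⟩ := pow_unbounded_of_one_lt y (show (1 : ℝ) < y0 by linarith)
  refine key n y hy (hn.le.trans ?_) π hπ
  exact pow_le_pow_right₀ (by linarith) (Nat.lt_two_pow_self).le

end Pool.Agent.Lib.MP_04add8_pr.Cv
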