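import Mathlib
import Pool.Agent.Lib.MP_04add8_pr.Cv.LawM
import Pool.Agent.Lib.MP_04add8_pr.One.BetaA
import Pool.Agent.Lib.MP_04add8_pr.One.BetaB

open MeasureTheory ProbabilityTheory Filter Topology
open scoped ENNReal

set_option linter.unusedSectionVars false

namespace Pool.Agent.Lib.MP_04add8_pr.Cv

open Pool.Agent.Lib.MP_04add8_pr.Gen

open BetaAux

variable {h h' : ℝ → ℝ} {μ ν : Measure ℝ} [IsProbabilityMeasure μ]
  [IsProbabilityMeasure ν]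

/-! Originals: `One/BetaA.lean`, `One/BetaB.lean`; the proofs there only use
`∀ᵐ s ∂μ, 0 ≤ s` (`basic`, `F_gt`, `F_lt`, `expand_core`, ... are stated with that hypothesis and
are reused). -/

theorem gbeta_basic (S : StdC μ ν h h') {K : ℕ} (hK : 1 ≤ K) :
    ∃ θ0 : ℝ, 0 < θ0 ∧ ∀ θ, 0 < θ → θ < θ0 →
      θ ≤ cramerRoot μ ν K θ ∧
      momPoly μ K (cramerRoot μ ν K θ) * lap ν (cramerRoot μ ν K θ + θ) = 1 ∧
      ∀ β : ℝ, 0 ≤ β → β ≤ cramerRoot μ ν K θ →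
        momPoly μ K β * lap ν (β + θ) ≤
          1 - ((∫ s, s ∂μ) - ∫ t, t ∂ν) / 2 * (cramerRoot μ ν K θ - β) := by
  obtain ⟨β0, hb0, hb1, hsl, hev⟩ := basic S.law.nn (ae_nonneg S.hν) S.hνi S.hgt S.hlt hK
  obtain ⟨θ0, hθ0, hθ⟩ := (mem_nhdsGT_iff_exists_Ioo_subset).1 hev
  refine ⟨θ0, hθ0, ?_⟩
  intro θ h1 h2
  obtain ⟨g1, g2, g3, g4⟩ := hθ ⟨h1, h2⟩
  refine ⟨g2, g4, ?_⟩
  intro β hβ hβr
  have := hsl θ β _ h1.le g1 hβ hβr g3
  rw [g4] at this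
  linarith

theorem gbeta_limit (S : StdC μ ν h h') {K : ℕ} (hK : 1 ≤ K) :
    Tendsto (fun θ => cramerRoot μ ν K θ / θ) (𝓝[>] 0) (𝓝 (eta μ ν - 1)) := by
  unfold eta
  have hμ0 := S.law.nn
  have hν0 := ae_nonneg S.hν
  have hνi := S.hνi
  have hm := S.hm
  have hgt := S.hgt
  have hlt := S.hlt
  obtain ⟨β0, hb0, hb1, hsl, hev⟩ := basic hμ0 hν0 hνi hgt hlt hK
  set E := ∫ s, s ∂μ with hE
  set m := ∫ t, t ∂ν with hmdef
  have hgt' : 0 < E - m := by linarith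
  have hid : Tendsto (fun θ : ℝ => θ) (𝓝[>] (0 : ℝ)) (𝓝 0) :=
    (continuous_id.tendsto 0).mono_left nhdsWithin_le_nhds
  have hval : E / (E - m) - 1 = m / (E - m) := by field_simp; ring
  rw [hval]
  have hpos : 0 < m / (E - m) := by positivity
  rw [tendsto_order]
  constructor
  · intro l hl
    -- a number r with max l 0 < r < m/(E-m)
    obtain ⟨r, hr1, hr2⟩ := exists_between (max_lt hl hpos)
    have hr0 : 0 < r := (le_max_right _ _).trans_lt hr1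
    have hneg : E * r - m * (r + 1) < 0 := by
      rw [lt_div_iff₀ hgt'] at hr2
      linarith
    have h3 : ∀ᶠ θ in 𝓝[>] (0 : ℝ), r * θ < β0 := by
      have : Tendsto (fun θ : ℝ => r * θ) (𝓝[>] (0 : ℝ)) (𝓝 (r * 0)) := hid.const_mul r
      rw [mul_zero] at this
      exact this.eventually (gt_mem_nhds hb0)
    filter_upwards [F_lt hμ0 hν0 hνi hK hr0.le hneg, hev, h3, self_mem_nhdsWithin] with
      θ g1 ⟨g2, g3, g4, g5⟩ g6 hθ
    have hθ : 0 < θ := hθ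
    have : r * θ < cramerRoot μ ν K θ := by
      by_contra hcon
      push Not at hcon
      have := hsl θ _ (r * θ) hθ.le g2 (cramerRoot_nonneg K θ) hcon g6.le
      rw [g5] at this
      have h6 : 0 ≤ (E - m) / 2 * (r * θ - cramerRoot μ ν K θ) := by
        have : 0 ≤ r * θ - cramerRoot μ ν K θ := by linarith
        positivity
      linarith
    calc l ≤ max l 0 := le_max_left _ _
      _ < r := hr1
      _ ≤ cramerRoot μ ν K θ / θ := by rw [le_div_iff₀ hθ]; exact this.le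
  · intro u hu
    obtain ⟨r, hr1, hr2⟩ := exists_between hu
    have hr0 : 0 < r := hpos.trans hr1
    have hp : 0 < E * r - m * (r + 1) := by
      rw [div_lt_iff₀ hgt'] at hr1
      linarith
    filter_upwards [F_gt hμ0 hν0 hνi hK hr0.le hp, self_mem_nhdsWithin] with θ g1 hθ
    have hθ : 0 < θ := hθ
    have : cramerRoot μ ν K θ ≤ r * θ := root_le (by positivity) g1.le
    calc cramerRoot μ ν K θ / θ ≤ r := by rw [div_le_iff₀ hθ]; exact this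
      _ < u := hr2

theorem gbeta_expand (S : StdC μ ν h h') {K : ℕ} (hK : 1 ≤ K) :
    ∃ β1 : ℝ → ℝ, ∀ ω : ℝ, 0 < ω → ∃ θ0 : ℝ, 0 < θ0 ∧ ∀ θ, 0 < θ → θ < θ0 →
      ∀ u : ℝ, |u| ≤ θ / 2 →
        |cramerRoot μ ν K (θ + u) - cramerRoot μ ν K θ - β1 θ * u| ≤ ω / θ * u ^ 2 := by
  have hμ0 := S.law.nn
  have hν0 := ae_nonneg S.hν
  have hνi := S.hνi
  have hm := S.hm
  have hgt := S.hgt
  have hlt := S.hlt
  obtain ⟨β0, hb0, hb1, hsl, hev⟩ := basic hμ0 hν0 hνi hgt hlt hK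
  have hlim := gbeta_limit S hK
  unfold eta at hlim
  have hgt' : 0 < (∫ s, s ∂μ) - ∫ t, t ∂ν := by linarith
  have hval : (∫ s, s ∂μ) / ((∫ s, s ∂μ) - ∫ t, t ∂ν) - 1 =
      (∫ t, t ∂ν) / ((∫ s, s ∂μ) - ∫ t, t ∂ν) := by field_simp; ring
  rw [hval] at hlim
  refine ⟨bB μ ν K, ?_⟩
  intro ω hω
  -- reduce to small ω
  set ω' := min ω (1 / 4) with hω'
  have hω'0 : 0 < ω' := by positivity
  have hcore := expand_core hμ0 hν0 hνi hgt hlt hK hlim hb0 hb1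
    (hev.mono fun θ h => h.2.2.2) hω'0 (min_le_right _ _)
  have hbD := bD_bB hμ0 hν0 hνi hgt hK hlim
    (r := (∫ t, t ∂ν) / ((∫ s, s ∂μ) - ∫ t, t ∂ν) + 1) (by linarith)
  obtain ⟨θ1, hθ1, h1⟩ := (mem_nhdsGT_iff_exists_Ioo_subset).1 hev
  have hθ1 : 0 < θ1 := hθ1
  obtain ⟨θ2, hθ2, h2⟩ := (mem_nhdsGT_iff_exists_Ioo_subset).1 hcore
  have hθ2 : 0 < θ2 := hθ2
  obtain ⟨θ3, hθ3, h3⟩ := (mem_nhdsGT_iff_exists_Ioo_subset).1 hbD
  have hθ3 : 0 < θ3 := hθ3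
  refine ⟨min (θ1 / 2) (min θ2 θ3), by positivity, ?_⟩
  intro θ hθ0 hθ u hu
  have k1 : θ < θ1 / 2 := hθ.trans_le (min_le_left _ _)
  have k2 : θ < θ2 := hθ.trans_le ((min_le_right _ _).trans (min_le_left _ _))
  have k3 : θ < θ3 := hθ.trans_le ((min_le_right _ _).trans (min_le_right _ _))
  have hu' := abs_le.1 hu
  rcases eq_or_ne u 0 with rfl | hu0
  · simp
  have hu2 : 0 < u ^ 2 := by positivity
  obtain ⟨a1, a2, a3, a4⟩ := h1 (⟨by linarith, by linarith⟩ : θ + u ∈ Set.Ioo 0 θ1)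
  obtain ⟨d1, -, -, -⟩ := h3 (⟨hθ0, k3⟩ : θ ∈ Set.Ioo 0 θ3)
  have c := h2 (⟨hθ0, k2⟩ : θ ∈ Set.Ioo 0 θ2) u hu
  set σ := ω' / θ * u ^ 2 with hσ
  have hσ0 : 0 < σ := by positivity
  have hσle : σ ≤ ω / θ * u ^ 2 := by
    rw [hσ]
    have : ω' ≤ ω := min_le_left _ _
    gcongr
  obtain ⟨p1, p2, p3⟩ := c σ (abs_of_pos hσ0)
  obtain ⟨m1, m2, m3⟩ := c (-σ) (by rw [abs_neg, abs_of_pos hσ0])
  have up : cramerRoot μ ν K (θ + u) ≤ cramerRoot μ ν K θ + (bB μ ν K θ * u + σ) := by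
    apply root_le p1
    have := (abs_le.1 p3).1
    have : ((∫ s, s ∂μ) - ∫ t, t ∂ν) / 2 * σ ≤ bD μ ν K θ * σ :=
      mul_le_mul_of_nonneg_right d1 hσ0.le
    have : 0 ≤ ((∫ s, s ∂μ) - ∫ t, t ∂ν) / 4 * σ := by positivity
    linarith
  have low : cramerRoot μ ν K θ + (bB μ ν K θ * u + -σ) ≤ cramerRoot μ ν K (θ + u) := by
    by_contra hcon
    push Not at hcon
    have hF := hsl (θ + u) _ _ (by linarith) a1 (cramerRoot_nonneg K (θ + u)) hcon.le m2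
    rw [a4] at hF
    have h4 : 0 ≤ ((∫ s, s ∂μ) - ∫ t, t ∂ν) / 2 *
        (cramerRoot μ ν K θ + (bB μ ν K θ * u + -σ) - cramerRoot μ ν K (θ + u)) := by
      apply mul_nonneg (by linarith) (by linarith)
    have h5 := (abs_le.1 m3).2
    have h6 : ((∫ s, s ∂μ) - ∫ t, t ∂ν) / 2 * σ ≤ bD μ ν K θ * σ :=
      mul_le_mul_of_nonneg_right d1 hσ0.le
    have h7 : 0 < ((∫ s, s ∂μ) - ∫ t, t ∂ν) / 4 * σ := by positivity
    linarith
  rw [abs_le]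
  constructor <;> linarith

/-- `2 < η` because `E < 2 m` -/
lemma two_lt_eta (S : StdC μ ν h h') : 2 < eta μ ν := by
  have h1 := S.hgt
  have h2 := S.hlt
  unfold eta
  rw [lt_div_iff₀ (by linarith)]
  linarith

end Pool.Agent.Lib.MP_04add8_pr.Cv
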