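import Mathlib
import Pool.Agent.Lib.MP_04add8_pr.Cv.DefsP
import Pool.Agent.Lib.MP_04add8_pr.Cv.LawM
import Pool.Agent.Lib.MP_04add8_pr.Two.Defs
import Pool.Agent.Lib.MP_04add8_pr.Two.UpperTwo
import Pool.Agent.Lib.MP_04add8_pr.Two.MainSum

/-!
Path events of the upper bound.
-/

open MeasureTheory ProbabilityTheory Filter Topology
open scoped ENNReal

set_option linter.unusedSectionVars false

namespace Pool.Agent.Lib.MP_04add8_pr.Cv

open Pool.Agent.Lib.MP_04add8_pr.Gen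

variable {h h' : ℝ → ℝ} {μ ν : Measure ℝ} [IsProbabilityMeasure μ]
  [IsProbabilityMeasure ν]

/-- ordered nonnegative start and nonnegative noise -/
def Okq : Set ((ℝ × ℝ) × (ℕ → ℝ × ℝ)) :=
  {q | 0 ≤ q.1.1 ∧ q.1.1 ≤ q.1.2 ∧ ∀ i, 0 ≤ (q.2 i).1 ∧ 0 ≤ (q.2 i).2}

/-- an excursion of length `n` above the level `v`, below `Y`, that ends with `x < w₁` -/
def Gn (x v Y : ℝ) (n : ℕ) : Set ((ℝ × ℝ) × (ℕ → ℝ × ℝ)) :=
  {q | q ∈ Okq ∧ q.1.2 ≤ v ∧
    (∀ k < n, v < (pIter q.1 q.2 (k + 1)).2 ∧ (pIter q.1 q.2 (k + 1)).2 ≤ Y ∧ (q.2 k).1 ≤ Y) ∧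
    x < (pIter q.1 q.2 n).1}

/-- at most one nonsmall job -/
def Cone (x v B Y : ℝ) (n : ℕ) : Set ((ℝ × ℝ) × (ℕ → ℝ × ℝ)) :=
  {q | q ∈ Gn x v Y n ∧ ∀ i < n, ∀ j < n, B < (q.2 i).1 → B < (q.2 j).1 → i = j}

/-- at least two nonsmall jobs at the steps `1, …, n - 1` -/
def Cfour (x v B Y : ℝ) (n : ℕ) : Set ((ℝ × ℝ) × (ℕ → ℝ × ℝ)) :=
  {q | q ∈ Gn x v Y n ∧ ∃ i j : ℕ, i < j ∧ j + 1 < n ∧ B < (q.2 (i + 1)).1 ∧ B < (q.2 (j + 1)).1}

/-- nonsmall jobs exactly at the steps `0` and `n1 + 1` -/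
def Ctwo (x v B Y : ℝ) (n1 n2 : ℕ) : Set ((ℝ × ℝ) × (ℕ → ℝ × ℝ)) :=
  {q | q ∈ Gn x v Y (n1 + n2 + 2) ∧ q.2 ∈ twoBig B n1 n2}

/-- no visit below the level `v` up to time `N` -/
def NoLow (v Y : ℝ) (N : ℕ) : Set ((ℝ × ℝ) × (ℕ → ℝ × ℝ)) :=
  {q | q ∈ Okq ∧ v < q.1.2 ∧ q.1.2 ≤ Y ∧
    ∀ k < N, v < (pIter q.1 q.2 (k + 1)).2 ∧ (pIter q.1 q.2 (k + 1)).2 ≤ Y ∧ (q.2 k).1 ≤ Y}

theorem measurableSet_Okq : MeasurableSet Okq := by
  have h1 : MeasurableSet {q : (ℝ × ℝ) × (ℕ → ℝ × ℝ) | 0 ≤ q.1.1} :=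
    measurableSet_le measurable_const (by fun_prop)
  have h2 : MeasurableSet {q : (ℝ × ℝ) × (ℕ → ℝ × ℝ) | q.1.1 ≤ q.1.2} :=
    measurableSet_le (by fun_prop) (by fun_prop)
  have h3 : MeasurableSet {q : (ℝ × ℝ) × (ℕ → ℝ × ℝ) | ∀ i, 0 ≤ (q.2 i).1 ∧ 0 ≤ (q.2 i).2} := by
    simp only [Set.setOf_forall, Set.setOf_and]
    refine MeasurableSet.iInter fun i => ?_
    exact (measurableSet_le measurable_const (by fun_prop)).inter
      (measurableSet_le measurable_const (by fun_prop))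
  exact h1.inter (h2.inter h3)

private lemma pd_meas_path (v Y : ℝ) (n : ℕ) :
    MeasurableSet {q : (ℝ × ℝ) × (ℕ → ℝ × ℝ) | ∀ k < n, v < (pIter q.1 q.2 (k + 1)).2 ∧
      (pIter q.1 q.2 (k + 1)).2 ≤ Y ∧ (q.2 k).1 ≤ Y} := by
  have : {q : (ℝ × ℝ) × (ℕ → ℝ × ℝ) | ∀ k < n, v < (pIter q.1 q.2 (k + 1)).2 ∧
      (pIter q.1 q.2 (k + 1)).2 ≤ Y ∧ (q.2 k).1 ≤ Y} =
      ⋂ k : ℕ, ⋂ _ : k < n, {q : (ℝ × ℝ) × (ℕ → ℝ × ℝ) | v < (pIter q.1 q.2 (k + 1)).2 ∧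
      (pIter q.1 q.2 (k + 1)).2 ≤ Y ∧ (q.2 k).1 ≤ Y} := by
    ext q
    simp only [Set.mem_setOf_eq, Set.mem_iInter]
  rw [this]
  refine MeasurableSet.iInter fun k => MeasurableSet.iInter fun _ => ?_
  have hm : Measurable (fun q : (ℝ × ℝ) × (ℕ → ℝ × ℝ) => (pIter q.1 q.2 (k + 1)).2) :=
    measurable_snd.comp (measurable_pIter (k + 1))
  have hj : Measurable (fun q : (ℝ × ℝ) × (ℕ → ℝ × ℝ) => (q.2 k).1) := by fun_prop
  exact (measurableSet_lt measurable_const hm).inter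
    ((measurableSet_le hm measurable_const).inter
      (measurableSet_le hj measurable_const))

theorem measurableSet_Gn (x v Y : ℝ) (n : ℕ) : MeasurableSet (Gn x v Y n) := by
  have h2 : MeasurableSet {q : (ℝ × ℝ) × (ℕ → ℝ × ℝ) | q.1.2 ≤ v} :=
    measurableSet_le (by fun_prop) measurable_const
  have h4 : MeasurableSet {q : (ℝ × ℝ) × (ℕ → ℝ × ℝ) | x < (pIter q.1 q.2 n).1} :=
    measurableSet_lt measurable_const (measurable_fst.comp (measurable_pIter n))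
  exact measurableSet_Okq.inter (h2.inter ((pd_meas_path v Y n).inter h4))

private lemma pd_meas_job (B : ℝ) (i : ℕ) :
    MeasurableSet {q : (ℝ × ℝ) × (ℕ → ℝ × ℝ) | B < (q.2 i).1} :=
  measurableSet_lt measurable_const (by fun_prop)

theorem measurableSet_Cone (x v B Y : ℝ) (n : ℕ) : MeasurableSet (Cone x v B Y n) := by
  have h1 : {q : (ℝ × ℝ) × (ℕ → ℝ × ℝ) |
      ∀ i < n, ∀ j < n, B < (q.2 i).1 → B < (q.2 j).1 → i = j} =
      ⋂ i : ℕ, ⋂ _ : i < n, ⋂ j : ℕ, ⋂ _ : j < n, ⋂ _ : i ≠ j,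
        ({q : (ℝ × ℝ) × (ℕ → ℝ × ℝ) | B < (q.2 i).1} ∩ {q | B < (q.2 j).1})ᶜ := by
    ext q
    simp only [Set.mem_setOf_eq, Set.mem_iInter, Set.mem_compl_iff, Set.mem_inter_iff]
    constructor
    · intro h i hi j hj hij hB
      exact hij (h i hi j hj hB.1 hB.2)
    · intro h i hi j hj hB hB'
      by_contra hij
      exact h i hi j hj hij ⟨hB, hB'⟩
  refine (measurableSet_Gn x v Y n).inter ?_
  have h2 : MeasurableSet {q : (ℝ × ℝ) × (ℕ → ℝ × ℝ) |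
      ∀ i < n, ∀ j < n, B < (q.2 i).1 → B < (q.2 j).1 → i = j} := by
    rw [h1]
    exact MeasurableSet.iInter fun i => MeasurableSet.iInter fun _ => MeasurableSet.iInter fun j =>
      MeasurableSet.iInter fun _ => MeasurableSet.iInter fun _ =>
        ((pd_meas_job B i).inter (pd_meas_job B j)).compl
  exact h2

theorem measurableSet_Cfour (x v B Y : ℝ) (n : ℕ) : MeasurableSet (Cfour x v B Y n) := by
  have h1 : {q : (ℝ × ℝ) × (ℕ → ℝ × ℝ) |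
      ∃ i j : ℕ, i < j ∧ j + 1 < n ∧ B < (q.2 (i + 1)).1 ∧ B < (q.2 (j + 1)).1} =
      ⋃ i : ℕ, ⋃ j : ℕ, ⋃ _ : i < j, ⋃ _ : j + 1 < n,
        ({q : (ℝ × ℝ) × (ℕ → ℝ × ℝ) | B < (q.2 (i + 1)).1} ∩ {q | B < (q.2 (j + 1)).1}) := by
    ext q
    simp only [Set.mem_setOf_eq, Set.mem_iUnion, Set.mem_inter_iff, exists_prop]
  refine (measurableSet_Gn x v Y n).inter ?_
  have h2 : MeasurableSet {q : (ℝ × ℝ) × (ℕ → ℝ × ℝ) |
      ∃ i j : ℕ, i < j ∧ j + 1 < n ∧ B < (q.2 (i + 1)).1 ∧ B < (q.2 (j + 1)).1} := by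
    rw [h1]
    exact MeasurableSet.iUnion fun i => MeasurableSet.iUnion fun j =>
      MeasurableSet.iUnion fun _ => MeasurableSet.iUnion fun _ =>
        (pd_meas_job B (i + 1)).inter (pd_meas_job B (j + 1))
  exact h2

theorem measurableSet_twoBig (B : ℝ) (n1 n2 : ℕ) : MeasurableSet (twoBig B n1 n2) := by
  have hs : ∀ (n : ℕ) (f : ℕ → ℕ), MeasurableSet {z : ℕ → ℝ × ℝ | ∀ i < n, (z (f i)).1 ≤ B} := by
    intro n f
    have : {z : ℕ → ℝ × ℝ | ∀ i < n, (z (f i)).1 ≤ B} =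
        ⋂ i : ℕ, ⋂ _ : i < n, {z : ℕ → ℝ × ℝ | (z (f i)).1 ≤ B} := by
      ext z
      simp only [Set.mem_setOf_eq, Set.mem_iInter]
    rw [this]
    exact MeasurableSet.iInter fun i => MeasurableSet.iInter fun _ =>
      measurableSet_le (by fun_prop) measurable_const
  have h1 : MeasurableSet {z : ℕ → ℝ × ℝ | B < (z 0).1} :=
    measurableSet_lt measurable_const (by fun_prop)
  have h3 : MeasurableSet {z : ℕ → ℝ × ℝ | B < (z (n1 + 1)).1} :=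
    measurableSet_lt measurable_const (by fun_prop)
  exact h1.inter ((hs n1 (fun i => i + 1)).inter (h3.inter (hs n2 (fun i => n1 + (i + 1) + 1))))

theorem measurableSet_Ctwo (x v B Y : ℝ) (n1 n2 : ℕ) : MeasurableSet (Ctwo x v B Y n1 n2) := by
  exact (measurableSet_Gn x v Y (n1 + n2 + 2)).inter
    (measurable_snd (measurableSet_twoBig B n1 n2))

theorem measurableSet_NoLow (v Y : ℝ) (N : ℕ) : MeasurableSet (NoLow v Y N) := by
  have h2 : MeasurableSet {q : (ℝ × ℝ) × (ℕ → ℝ × ℝ) | v < q.1.2} :=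
    measurableSet_lt measurable_const (by fun_prop)
  have h3 : MeasurableSet {q : (ℝ × ℝ) × (ℕ → ℝ × ℝ) | q.1.2 ≤ Y} :=
    measurableSet_le (by fun_prop) measurable_const
  exact measurableSet_Okq.inter (h2.inter (h3.inter (pd_meas_path v Y N)))

/-- Let `q ∈ Gn`. If two different steps among `1, …, n-1` are nonsmall: `Cfour`. Otherwise, if step `0` is
nonsmall and some step `n1 + 1 < n` is nonsmall: `Ctwo n1 (n - n1 - 2)`. Otherwise `Cone`. -/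
theorem Gn_cover (x v B Y : ℝ) {n N : ℕ} (hn : n ≤ N) :
    Gn x v Y n ⊆ Cone x v B Y n ∪ Cfour x v B Y n ∪
      ⋃ p ∈ (Finset.range N ×ˢ Finset.range N).filter (fun p => p.1 + p.2 + 2 = n),
        Ctwo x v B Y p.1 p.2 := by
  intro q hq
  by_cases h4 : ∃ i j : ℕ, i < j ∧ j + 1 < n ∧ B < (q.2 (i + 1)).1 ∧ B < (q.2 (j + 1)).1
  · exact Or.inl (Or.inr ⟨hq, h4⟩)
  by_cases h0 : B < (q.2 0).1 ∧ ∃ m : ℕ, m + 1 < n ∧ B < (q.2 (m + 1)).1
  · obtain ⟨h00, m, hm, hmB⟩ := h0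
    right
    have hk : m + (n - m - 2) + 2 = n := by omega
    refine Set.mem_biUnion (x := (m, n - m - 2)) ?_ ?_
    · simp only [Finset.coe_filter, Finset.mem_product, Finset.mem_range, Set.mem_setOf_eq]
      omega
    · refine ⟨?_, h00, ?_, hmB, ?_⟩
      · show q ∈ Gn x v Y (m + (n - m - 2) + 2)
        rw [hk]
        exact hq
      · intro i hi
        by_contra hcon
        exact h4 ⟨i, m, hi, hm, not_le.1 hcon, hmB⟩
      · intro i hi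
        by_contra hcon
        refine h4 ⟨m, m + (i + 1), by omega, ?_, hmB, not_le.1 hcon⟩
        have hi' : i < n - m - 2 := hi
        omega
  · left
    left
    refine ⟨hq, ?_⟩
    intro i hi j hj hBi hBj
    rcases Nat.eq_zero_or_pos i with hi0 | hi0
    · rcases Nat.eq_zero_or_pos j with hj0 | hj0
      · rw [hi0, hj0]
      · exfalso
        obtain ⟨m, rfl⟩ : ∃ m, j = m + 1 := ⟨j - 1, by omega⟩
        subst hi0
        exact h0 ⟨hBi, m, hj, hBj⟩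
    · obtain ⟨m, rfl⟩ : ∃ m, i = m + 1 := ⟨i - 1, by omega⟩
      rcases Nat.eq_zero_or_pos j with hj0 | hj0
      · exfalso
        subst hj0
        exact h0 ⟨hBj, m, hi, hBi⟩
      · obtain ⟨m', rfl⟩ : ∃ m', j = m' + 1 := ⟨j - 1, by omega⟩
        rcases lt_trichotomy m m' with h | h | h
        · exact absurd ⟨m, m', h, hj, hBi, hBj⟩ h4
        · rw [h]
        · exact absurd ⟨m', m, h, hi, hBj, hBi⟩ h4

/-- summed over `n`; the double sum runs over all pairs with `p.1 + p.2 + 2 ≤ N` -/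
theorem Gn_sum (P : Measure ((ℝ × ℝ) × (ℕ → ℝ × ℝ))) (x v B Y : ℝ) (N : ℕ) :
    ∑ n ∈ Finset.Icc 1 N, P (Gn x v Y n) ≤ ∑ n ∈ Finset.Icc 1 N, P (Cone x v B Y n) +
      ∑ n ∈ Finset.Icc 1 N, P (Cfour x v B Y n) +
      ∑ p ∈ (Finset.range N ×ˢ Finset.range N).filter (fun p => p.1 + p.2 + 2 ≤ N),
        P (Ctwo x v B Y p.1 p.2) := by
  have hstep : ∀ n ∈ Finset.Icc 1 N, P (Gn x v Y n) ≤ P (Cone x v B Y n) + P (Cfour x v B Y n) +
      ∑ p ∈ (Finset.range N ×ˢ Finset.range N).filter (fun p => p.1 + p.2 + 2 = n),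
        P (Ctwo x v B Y p.1 p.2) := by
    intro n hn
    refine (measure_mono (Gn_cover x v B Y (Finset.mem_Icc.1 hn).2)).trans ?_
    refine (measure_union_le _ _).trans ?_
    refine add_le_add (measure_union_le _ _) ?_
    exact measure_biUnion_finset_le _ _
  refine (Finset.sum_le_sum hstep).trans ?_
  rw [Finset.sum_add_distrib, Finset.sum_add_distrib]
  refine add_le_add le_rfl (le_of_eq ?_)
  simp only [Finset.sum_filter]
  rw [Finset.sum_comm]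
  refine Finset.sum_congr rfl fun p _ => ?_
  rw [Finset.sum_ite_eq]
  refine if_congr ?_ rfl rfl
  rw [Finset.mem_Icc]
  omega

end Pool.Agent.Lib.MP_04add8_pr.Cv
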