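import Mathlib
import Pool.Agent.Lib.MP_04add8_pr.Cv.PathDefs

open MeasureTheory ProbabilityTheory Filter Topology
open scoped ENNReal

set_option linter.unusedSectionVars false

namespace Pool.Agent.Lib.MP_04add8_pr.Cv

open Pool.Agent.Lib.MP_04add8_pr.Gen

variable {h h' : ℝ → ℝ} {μ ν : Measure ℝ} [IsProbabilityMeasure μ]
  [IsProbabilityMeasure ν]

private theorem Det_nonneg {w : ℝ × ℝ} (h0 : 0 ≤ w.1) (z : ℕ → ℝ × ℝ) (n : ℕ) :
    0 ≤ (pIter w z n).1 := by
  cases n with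
  | zero => exact h0
  | succ n => exact kwStep_fst_nonneg _ _ _

private theorem Det_step {w : ℝ × ℝ} {s t B : ℝ} (h1 : w.1 ≤ w.2) (h2 : 0 ≤ w.2)
    (hs0 : 0 ≤ s) (hs : s ≤ B) (ht : 0 ≤ t)
    (hgap : B < (kwStep w s t).2 - (kwStep w s t).1) :
    B < w.2 - w.1 ∧ (kwStep w s t).2 ≤ w.2 := by
  simp only [kwStep] at hgap ⊢
  rcases le_total (w.1 + s) w.2 with hle | hle
  · have e1 : max (w.1 + s - t) 0 ≤ max (w.2 - t) 0 := max_le_max (by linarith) le_rfl
    rw [min_eq_left e1, max_eq_right e1] at hgap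
    rw [max_eq_right e1]
    refine ⟨?_, max_le (by linarith) h2⟩
    rcases le_total (w.2 - t) 0 with h | h
    · rw [max_eq_right h] at hgap
      have := le_max_right (w.1 + s - t) 0
      linarith
    · rw [max_eq_left h] at hgap
      have := le_max_left (w.1 + s - t) 0
      linarith
  · exfalso
    have e1 : max (w.2 - t) 0 ≤ max (w.1 + s - t) 0 := max_le_max (by linarith) le_rfl
    rw [min_eq_right e1, max_eq_left e1] at hgap
    rcases le_total (w.1 + s - t) 0 with h | h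
    · rw [max_eq_right h] at hgap
      have := le_max_right (w.2 - t) 0
      linarith
    · rw [max_eq_left h] at hgap
      have := le_max_left (w.2 - t) 0
      linarith

/-- one step: `(kwStep w s t).1 ≤ (w₁ + s - t)^+ ≤ w₁ + s` -/
theorem pIter_fst_le_sum {w : ℝ × ℝ} (h0 : 0 ≤ w.1) {z : ℕ → ℝ × ℝ}
    (hz : ∀ i, 0 ≤ (z i).1 ∧ 0 ≤ (z i).2) (n : ℕ) : (pIter w z n).1 ≤ w.1 + sumS z n := by
  induction n with
  | zero => simp [pIter_zero, sumS]
  | succ n ih =>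
    have h1 : 0 ≤ (pIter w z n).1 := Det_nonneg h0 z n
    have hz1 := hz n
    rw [sumS_succ, pIter_succ]
    refine (min_le_left _ _).trans (max_le (by linarith) (by linarith))

theorem kwStep_fst_le_snd' {w : ℝ × ℝ} {s t : ℝ} (h1 : 0 ≤ w.2) (ht : 0 ≤ t) :
    (kwStep w s t).1 ≤ w.2 := by
  exact (min_le_right _ _).trans (max_le (by linarith) h1)

/-- small jobs: the gap `w₂ - w₁` after a step is at most `max (gap) s`; in fact if `w₁ + s ≤ w₂` the new larger workload is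
`(w₂ - t)^+` and the new gap is at most the old one, and if `w₂ < w₁ + s` the new gap is at most `s ≤ B`. So if the final gap
exceeds `B`, then at every step `w₁ + s ≤ w₂`, hence `w₂` is nonincreasing along the path. -/
theorem no_swap {w : ℝ × ℝ} (h0 : 0 ≤ w.1) (h1 : w.1 ≤ w.2) {B : ℝ} (hB : 0 ≤ B)
    {z : ℕ → ℝ × ℝ} (hz : ∀ i, 0 ≤ (z i).1 ∧ 0 ≤ (z i).2) (n : ℕ) (hs : ∀ i < n, (z i).1 ≤ B)
    (hgap : B < (pIter w z n).2 - (pIter w z n).1) :
    ∀ k ≤ n, (pIter w z n).2 ≤ (pIter w z k).2 ∧ (pIter w z k).2 ≤ w.2 := by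
  induction n with
  | zero =>
    intro k hk
    have : k = 0 := by omega
    subst this
    exact ⟨le_rfl, le_rfl⟩
  | succ n ih =>
    have ho := pIter_ordered h0 h1 z n
    have hst := Det_step (w := pIter w z n) (s := (z n).1) (t := (z n).2) ho.2
      (ho.1.trans ho.2) (hz n).1 (hs n (Nat.lt_succ_self n)) (hz n).2 hgap
    have ih' := ih (fun i hi => hs i (Nat.lt_succ_of_lt hi)) hst.1
    intro k hk
    rcases Nat.lt_or_ge k (n + 1) with hk1 | hk1
    · have := ih' k (Nat.lt_succ_iff.mp hk1)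
      exact ⟨hst.2.trans this.1, this.2⟩
    · have hkn : k = n + 1 := le_antisymm hk hk1
      subst hkn
      exact ⟨le_rfl, hst.2.trans (ih' n le_rfl).2⟩

/-- In `Ctwo`, if the sum of the last `n2` jobs is at most `r`, then the state `y = pIter q.1 q.2 (n1 + 1)` before the
second nonsmall job has `x - r < y₂`: apply `pIter_fst_le_sum` after time `n1 + 2` (`pIter_add`) and
`kwStep_fst_le_snd'`. -/
theorem ctwo_state {x v B Y r : ℝ} {n1 n2 : ℕ} {q : (ℝ × ℝ) × (ℕ → ℝ × ℝ)}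
    (hq : q ∈ Ctwo x v B Y n1 n2)
    (hr : ∑ i ∈ Finset.range n2, (q.2 (n1 + (i + 1) + 1)).1 ≤ r) :
    x - r < (pIter q.1 q.2 (n1 + 1)).2 := by
  obtain ⟨hG, -⟩ := hq
  obtain ⟨hok, -, -, hx⟩ := hG
  obtain ⟨h0, h1, hz⟩ := hok
  have ho := pIter_ordered h0 h1 q.2 (n1 + 1)
  have e1 : n1 + n2 + 2 = (n1 + 1 + 1) + n2 := by ring
  rw [e1, pIter_add] at hx
  have h2 : 0 ≤ (pIter q.1 q.2 (n1 + 1 + 1)).1 := Det_nonneg h0 _ _
  have h3 := pIter_fst_le_sum (w := pIter q.1 q.2 (n1 + 1 + 1)) h2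
    (z := fun k => q.2 (n1 + 1 + 1 + k)) (fun i => hz _) n2
  have h4 : sumS (fun k => q.2 (n1 + 1 + 1 + k)) n2 =
      ∑ i ∈ Finset.range n2, (q.2 (n1 + (i + 1) + 1)).1 := by
    unfold sumS
    refine Finset.sum_congr rfl (fun i _ => ?_)
    have : n1 + 1 + 1 + i = n1 + (i + 1) + 1 := by ring
    simp only [this]
  have h5 : (pIter q.1 q.2 (n1 + 1 + 1)).1 ≤ (pIter q.1 q.2 (n1 + 1)).2 := by
    rw [pIter_succ]
    exact kwStep_fst_le_snd' (ho.1.trans ho.2) (hz _).2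
  linarith

end Pool.Agent.Lib.MP_04add8_pr.Cv
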