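import Mathlib
import Pool.Agent.Lib.MP_04add8_pr.Cv.DefsP
import Pool.Agent.Lib.MP_04add8_pr.Two.Defs

open MeasureTheory ProbabilityTheory Filter Topology
open scoped ENNReal

set_option linter.unusedSectionVars false

namespace Pool.Agent.Lib.MP_04add8_pr.Cv

open Pool.Agent.Lib.MP_04add8_pr.Gen

variable {h h' : ℝ → ℝ} {μ ν : Measure ℝ} [IsProbabilityMeasure μ]
  [IsProbabilityMeasure ν]

/-- **Path bound**. Induction on `n`, generalizing `a, U, k, w`: `lintegral_noise_cons`,
`pIter_gcons`, `Finset.prod_range_succ'`; the inner integral over the remaining noise is bounded by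
the induction hypothesis for the shifted sequences at `kwStep w p.1 p.2` (ordered by
`kwStep_fst_nonneg`, `kwStep_fst_le_snd`). -/
theorem path_bound (n : ℕ) : ∀ {a : ℕ → ℝ × ℝ → ℝ × ℝ → ℝ≥0∞} {U : ℕ → ℝ × ℝ → ℝ≥0∞}
    {k : ℕ → ℝ≥0∞} (_ : ∀ i, Measurable (fun q : (ℝ × ℝ) × (ℝ × ℝ) => a i q.1 q.2))
    (_ : ∀ i, Measurable (U i))
    (_ : ∀ i < n, ∀ w : ℝ × ℝ, 0 ≤ w.1 → w.1 ≤ w.2 →
      ∫⁻ p, a i w p * U (i + 1) (kwStep w p.1 p.2) ∂(μ.prod ν) ≤ k i * U i w)
    (w : ℝ × ℝ), 0 ≤ w.1 → w.1 ≤ w.2 →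
    ∫⁻ z, (∏ i ∈ Finset.range n, a i (pIter w z i) (z i)) * U n (pIter w z n) ∂(noise μ ν) ≤
      (∏ i ∈ Finset.range n, k i) * U 0 w := by
  induction n with
  | zero =>
    intro a U k _ _ _ w _ _
    have : IsProbabilityMeasure (noise μ ν) := inferInstance
    simp [pIter_zero]
  | succ n ih =>
    intro a U k ha hU hk w h0 h1
    have hpw : ∀ (v : ℝ × ℝ) (j : ℕ), Measurable (fun z : ℕ → ℝ × ℝ => pIter v z j) := fun v j =>
      (measurable_pIter j).comp (measurable_const.prodMk measurable_id)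
    have hprod : ∀ (b : ℕ → ℝ × ℝ → ℝ × ℝ → ℝ≥0∞)
        (_ : ∀ i, Measurable (fun q : (ℝ × ℝ) × (ℝ × ℝ) => b i q.1 q.2)) (v : ℝ × ℝ) (m : ℕ),
        Measurable (fun z : ℕ → ℝ × ℝ => ∏ i ∈ Finset.range m, b i (pIter v z i) (z i)) := by
      intro b hb v m
      refine Finset.measurable_prod _ (fun i _ => ?_)
      exact (hb i).comp ((hpw v i).prodMk (measurable_pi_apply i))
    have hmeas : Measurable (fun z : ℕ → ℝ × ℝ =>
        (∏ i ∈ Finset.range (n + 1), a i (pIter w z i) (z i)) * U (n + 1) (pIter w z (n + 1))) :=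
      (hprod a ha w (n + 1)).mul ((hU (n + 1)).comp (hpw w (n + 1)))
    rw [lintegral_noise_cons hmeas]
    have hstep : ∀ p : ℝ × ℝ,
        ∫⁻ z, (∏ i ∈ Finset.range (n + 1), a i (pIter w (gcons p z) i) (gcons p z i)) *
          U (n + 1) (pIter w (gcons p z) (n + 1)) ∂(noise μ ν) ≤
        (∏ i ∈ Finset.range n, k (i + 1)) * (a 0 w p * U 1 (kwStep w p.1 p.2)) := by
      intro p
      have hre : ∀ z : ℕ → ℝ × ℝ,
          (∏ i ∈ Finset.range (n + 1), a i (pIter w (gcons p z) i) (gcons p z i)) *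
            U (n + 1) (pIter w (gcons p z) (n + 1)) =
          a 0 w p * ((∏ i ∈ Finset.range n, a (i + 1) (pIter (kwStep w p.1 p.2) z i) (z i)) *
            U (n + 1) (pIter (kwStep w p.1 p.2) z n)) := by
        intro z
        rw [Finset.prod_range_succ', pIter_gcons]
        have hz : a 0 (pIter w (gcons p z) 0) (gcons p z 0) = a 0 w p := rfl
        have hs : ∀ i, a (i + 1) (pIter w (gcons p z) (i + 1)) (gcons p z (i + 1)) =
            a (i + 1) (pIter (kwStep w p.1 p.2) z i) (z i) := by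
          intro i
          rw [pIter_gcons]
          rfl
        rw [hz]
        simp only [hs]
        ring
      simp only [hre]
      have hm2 : Measurable (fun z : ℕ → ℝ × ℝ =>
          (∏ i ∈ Finset.range n, a (i + 1) (pIter (kwStep w p.1 p.2) z i) (z i)) *
            U (n + 1) (pIter (kwStep w p.1 p.2) z n)) :=
        (hprod (fun i => a (i + 1)) (fun i => ha (i + 1)) _ n).mul
          ((hU (n + 1)).comp (hpw _ n))
      rw [lintegral_const_mul _ hm2]
      have h := ih (a := fun i => a (i + 1)) (U := fun i => U (i + 1)) (k := fun i => k (i + 1))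
        (fun i => ha (i + 1)) (fun i => hU (i + 1))
        (fun i hi v hv0 hv1 => hk (i + 1) (Nat.succ_lt_succ hi) v hv0 hv1)
        (kwStep w p.1 p.2) (kwStep_fst_nonneg _ _ _) (kwStep_fst_le_snd _ _ _)
      calc a 0 w p * ∫⁻ z, (∏ i ∈ Finset.range n,
              a (i + 1) (pIter (kwStep w p.1 p.2) z i) (z i)) *
            U (n + 1) (pIter (kwStep w p.1 p.2) z n) ∂(noise μ ν)
          ≤ a 0 w p * ((∏ i ∈ Finset.range n, k (i + 1)) * U 1 (kwStep w p.1 p.2)) := by
            gcongr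
        _ = _ := by ring
    have hm3 : Measurable (fun p : ℝ × ℝ => a 0 w p * U 1 (kwStep w p.1 p.2)) := by
      refine Measurable.mul ?_ ?_
      · exact (ha 0).comp (measurable_const.prodMk measurable_id)
      · refine (hU 1).comp ?_
        exact measurable_kwStep.comp (measurable_const.prodMk measurable_id)
    calc ∫⁻ p, ∫⁻ z, (∏ i ∈ Finset.range (n + 1),
            a i (pIter w (gcons p z) i) (gcons p z i)) *
          U (n + 1) (pIter w (gcons p z) (n + 1)) ∂(noise μ ν) ∂(μ.prod ν)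
        ≤ ∫⁻ p, (∏ i ∈ Finset.range n, k (i + 1)) *
            (a 0 w p * U 1 (kwStep w p.1 p.2)) ∂(μ.prod ν) := lintegral_mono hstep
      _ = (∏ i ∈ Finset.range n, k (i + 1)) *
            ∫⁻ p, a 0 w p * U 1 (kwStep w p.1 p.2) ∂(μ.prod ν) := lintegral_const_mul _ hm3
      _ ≤ (∏ i ∈ Finset.range n, k (i + 1)) * (k 0 * U 0 w) := by
          gcongr
          exact hk 0 (Nat.succ_pos n) w h0 h1
      _ = (∏ i ∈ Finset.range (n + 1), k i) * U 0 w := by
          rw [Finset.prod_range_succ' k n]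
          ring

end Pool.Agent.Lib.MP_04add8_pr.Cv
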