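import Mathlib
import Pool.Agent.Lib.MP_04add8_pr.Cv.PathB
import Pool.Agent.Lib.MP_04add8_pr.Cv.PathDefs

open MeasureTheory ProbabilityTheory Filter Topology
open scoped ENNReal

set_option linter.unusedSectionVars false

namespace Pool.Agent.Lib.MP_04add8_pr.Cv

open Pool.Agent.Lib.MP_04add8_pr.Gen

variable {h h' : ℝ → ℝ} {μ ν : Measure ℝ} [IsProbabilityMeasure μ]
  [IsProbabilityMeasure ν]

private theorem PathEv_bound (n : ℕ) {v : ℝ}
    {a : ℕ → ℝ × ℝ → ℝ × ℝ → ℝ≥0∞} {U : ℕ → ℝ × ℝ → ℝ≥0∞} {k : ℕ → ℝ≥0∞}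
    (ha : ∀ i, Measurable (fun q : (ℝ × ℝ) × (ℝ × ℝ) => a i q.1 q.2))
    (hU : ∀ i, Measurable (U i)) (hk : k 0 ≠ 0)
    (hstep : ∀ i < n, ∀ w : ℝ × ℝ, 0 ≤ w.1 → w.1 ≤ w.2 → (i = 0 → w.2 ≤ v) →
      ∫⁻ p, a i w p * U (i + 1) (kwStep w p.1 p.2) ∂(μ.prod ν) ≤ k i * U i w)
    (w : ℝ × ℝ) (h0 : 0 ≤ w.1) (h1 : w.1 ≤ w.2) (hv : w.2 ≤ v) :
    ∫⁻ z, (∏ i ∈ Finset.range n, a i (pIter w z i) (z i)) * U n (pIter w z n) ∂(noise μ ν) ≤
      (∏ i ∈ Finset.range n, k i) * U 0 w := by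
  classical
  rcases Nat.eq_zero_or_pos n with rfl | hn
  · simp [pIter_zero]
  let U' : ℕ → ℝ × ℝ → ℝ≥0∞ := fun j => if j = 0 then
    (fun w : ℝ × ℝ => if w.2 ≤ v then U 0 w else ∞) else U j
  have hU'0 : ∀ w : ℝ × ℝ, U' 0 w = if w.2 ≤ v then U 0 w else ∞ := fun w => by
    simp [U']
  have hU's : ∀ j : ℕ, j ≠ 0 → U' j = U j := fun j hj => by
    simp [U', hj]
  have hV : MeasurableSet {w : ℝ × ℝ | w.2 ≤ v} :=
    measurableSet_le measurable_snd measurable_const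
  have hU' : ∀ i, Measurable (U' i) := by
    intro i
    by_cases hi : i = 0
    · subst hi
      have : U' 0 = fun w : ℝ × ℝ => if w.2 ≤ v then U 0 w else ∞ := by
        funext w
        exact hU'0 w
      rw [this]
      exact Measurable.ite hV (hU 0) measurable_const
    · rw [hU's i hi]
      exact hU i
  have hb := path_bound (μ := μ) (ν := ν) n (a := a) (U := U') (k := k) ha hU' (by
    intro i hi w' h0' h1'
    rw [hU's (i + 1) (Nat.succ_ne_zero i)]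
    by_cases hi0 : i = 0
    · subst hi0
      rw [hU'0]
      by_cases hc : w'.2 ≤ v
      · rw [if_pos hc]
        exact hstep 0 hi w' h0' h1' (fun _ => hc)
      · rw [if_neg hc, ENNReal.mul_top hk]
        exact le_top
    · rw [hU's i hi0]
      exact hstep i hi w' h0' h1' (fun h => absurd h hi0)) w h0 h1
  rw [hU's n hn.ne', hU'0, if_pos hv] at hb
  exact hb

/-- **Markov inequality along a path.** For ordered `w` with `w₂ ≤ v`, `path_bound` from `w`; to use it with the step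
inequality at `i = 0` only for `w₂ ≤ v`, replace `U 0` by `fun w => if w.2 ≤ v then U 0 w else ∞` (`k 0 ≠ 0`). Then integrate
`L * 1_A ≤ 1{w₂ ≤ v} * (∏ a_i) * U_n` over `π.prod noise` (`lintegral_prod`, `hπ.ae_ordered`). For `n = 0` the claim is
`L P(A) ≤ ∫ 1{w₂ ≤ v} U 0 dπ`. -/
theorem path_event {π : Measure (ℝ × ℝ)} (hπ : IsStationaryKW μ ν π)
    {A : Set ((ℝ × ℝ) × (ℕ → ℝ × ℝ))} (hA : MeasurableSet A) {v : ℝ}
    (hAv : ∀ q ∈ A, q.1.2 ≤ v) (n : ℕ)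
    {a : ℕ → ℝ × ℝ → ℝ × ℝ → ℝ≥0∞} {U : ℕ → ℝ × ℝ → ℝ≥0∞} {k : ℕ → ℝ≥0∞} {L : ℝ≥0∞}
    (ha : ∀ i, Measurable (fun q : (ℝ × ℝ) × (ℝ × ℝ) => a i q.1 q.2))
    (hU : ∀ i, Measurable (U i)) (hk : k 0 ≠ 0)
    (hstep : ∀ i < n, ∀ w : ℝ × ℝ, 0 ≤ w.1 → w.1 ≤ w.2 → (i = 0 → w.2 ≤ v) →
      ∫⁻ p, a i w p * U (i + 1) (kwStep w p.1 p.2) ∂(μ.prod ν) ≤ k i * U i w)
    (hL : ∀ q ∈ A, L ≤ (∏ i ∈ Finset.range n, a i (pIter q.1 q.2 i) (q.2 i)) *
      U n (pIter q.1 q.2 n)) :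
    L * (π.prod (noise μ ν)) A ≤
      (∏ i ∈ Finset.range n, k i) * ∫⁻ w, ({w : ℝ × ℝ | w.2 ≤ v}).indicator (U 0) w ∂π := by
  have hp : IsProbabilityMeasure π := hπ.1
  have hV : MeasurableSet {w : ℝ × ℝ | w.2 ≤ v} :=
    measurableSet_le measurable_snd measurable_const
  rw [Measure.prod_apply hA, ← lintegral_const_mul _ (measurable_measure_prodMk_left hA)]
  have hms : Measurable (({w : ℝ × ℝ | w.2 ≤ v}).indicator (U 0)) := (hU 0).indicator hV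
  rw [← lintegral_const_mul _ hms]
  apply lintegral_mono_ae
  filter_upwards [hπ.ae_ordered] with w hw
  have hmp : MeasurableSet (Prod.mk w ⁻¹' A) := measurable_prodMk_left hA
  by_cases hwv : w.2 ≤ v
  · have hin : ({w : ℝ × ℝ | w.2 ≤ v}).indicator (U 0) w = U 0 w :=
      Set.indicator_of_mem (s := {w : ℝ × ℝ | w.2 ≤ v}) hwv _
    rw [hin]
    have hb := PathEv_bound (μ := μ) (ν := ν) n ha hU hk hstep w hw.1 hw.2 hwv
    refine le_trans ?_ hb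
    rw [← lintegral_indicator_const hmp]
    apply lintegral_mono
    intro z
    by_cases hz : z ∈ Prod.mk w ⁻¹' A
    · rw [Set.indicator_of_mem hz]
      exact hL (w, z) hz
    · rw [Set.indicator_of_notMem hz]
      exact bot_le
  · have he : Prod.mk w ⁻¹' A = ∅ := by
      ext z
      simp only [Set.mem_preimage, Set.mem_empty_iff_false, iff_false]
      intro hz
      exact hwv (hAv _ hz)
    rw [he, measure_empty, mul_zero]
    exact bot_le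

end Pool.Agent.Lib.MP_04add8_pr.Cv
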