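import Mathlib
import Pool.Agent.Lib.MP_04add8_pr.Cv.StepC
import Pool.Agent.Lib.MP_04add8_pr.Cv.Entry
import Pool.Agent.Lib.MP_04add8_pr.Cv.AP
import Pool.Agent.Lib.MP_04add8_pr.Cv.RRf
import Pool.Agent.Lib.MP_04add8_pr.Cv.ThrF
import Pool.Agent.Lib.MP_04add8_pr.Cv.PathDefs

/-!
Weights and step inequalities along an excursion above the low level.
-/

open MeasureTheory ProbabilityTheory Filter Topology
open scoped ENNReal

set_option linter.unusedSectionVars false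

namespace Pool.Agent.Lib.MP_04add8_pr.Cv

open Pool.Agent.Lib.MP_04add8_pr.Gen

variable {h h' : ℝ → ℝ} {μ ν : Measure ℝ} [IsProbabilityMeasure μ]
  [IsProbabilityMeasure ν]

/-- weight of the entry step -/
noncomputable def enW (Y v : ℝ) (w p : ℝ × ℝ) : ℝ≥0∞ :=
  if p.1 ≤ Y ∧ v < (kwStep w p.1 p.2).2 then 1 else 0

/-- weight of a small job in a state between `v` and `Z` -/
noncomputable def smZ (B v Z : ℝ) (w p : ℝ × ℝ) : ℝ≥0∞ :=
  if v < w.2 ∧ w.2 ≤ Z ∧ p.1 ≤ B then 1 else 0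

/-- weight of a nonsmall job `≤ J` in a state between `v` and `Z` -/
noncomputable def bgZ (B J v Z : ℝ) (w p : ℝ × ℝ) : ℝ≥0∞ :=
  if v < w.2 ∧ w.2 ≤ Z ∧ B < p.1 ∧ p.1 ≤ J then 1 else 0

theorem measurable_enW (Y v : ℝ) :
    Measurable (fun q : (ℝ × ℝ) × (ℝ × ℝ) => enW Y v q.1 q.2) := by
  unfold enW
  refine Measurable.ite ?_ measurable_const measurable_const
  exact (measurableSet_le measurable_snd.fst measurable_const).inter
    (measurableSet_lt measurable_const measurable_kwStep.snd)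

theorem measurable_smZ (B v Z : ℝ) :
    Measurable (fun q : (ℝ × ℝ) × (ℝ × ℝ) => smZ B v Z q.1 q.2) := by
  unfold smZ
  refine Measurable.ite ?_ measurable_const measurable_const
  exact (measurableSet_lt measurable_const measurable_fst.snd).inter
    ((measurableSet_le measurable_fst.snd measurable_const).inter
      (measurableSet_le measurable_snd.fst measurable_const))

theorem measurable_bgZ (B J v Z : ℝ) :
    Measurable (fun q : (ℝ × ℝ) × (ℝ × ℝ) => bgZ B J v Z q.1 q.2) := by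
  unfold bgZ
  refine Measurable.ite ?_ measurable_const measurable_const
  exact (measurableSet_lt measurable_const measurable_fst.snd).inter
    ((measurableSet_le measurable_fst.snd measurable_const).inter
      ((measurableSet_lt measurable_const measurable_snd.fst).inter
        (measurableSet_le measurable_snd.fst measurable_const)))

/-- all step inequalities along an excursion, for the combined potential -/
structure PathC (μ ν : Measure ℝ) [IsProbabilityMeasure μ] [IsProbabilityMeasure ν]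
    (h h' β : ℝ → ℝ) (D θ0 KA cW γ x v B : ℝ) : Prop where
  hx : 2 ≤ x
  hγ : 0 ≤ γ
  hB : 1 ≤ B
  hBv : 8 * B ≤ v
  hv : v ≤ √x
  hvx : 8 * v ≤ x
  hg : 8 * γ ≤ gg h h' B
  my : ∫⁻ s, (Set.Iic (x ^ 2)).indicator (fun _ => (1 : ℝ≥0∞)) s *
    ENNReal.ofReal (Real.exp (h s)) ∂μ ≤ ENNReal.ofReal (x ^ 3)
  ent : ∀ (g1 g2 : ℝ) (w : ℝ × ℝ), 0 ≤ w.1 → w.1 ≤ w.2 → w.2 ≤ v →
    ∫⁻ p, enW (x ^ 2) v w p * UU h β D θ0 g1 g2 B (kwStep w p.1 p.2) ∂(μ.prod ν) ≤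
      ENNReal.ofReal (x ^ 3 * Real.exp (-(min g1 g2))) * EP h β D θ0 w
  sm : ∀ (g1 g2 Z : ℝ) (w : ℝ × ℝ), g2 - g1 ≤ γ → 0 ≤ w.1 → w.1 ≤ w.2 →
    ∫⁻ p, smZ B v Z w p * UU h β D θ0 g1 g2 B (kwStep w p.1 p.2) ∂(μ.prod ν) ≤
      UU h β D θ0 g1 g2 B w
  smr : ∀ (g1 g2 r Z : ℝ) (w : ℝ × ℝ), g2 - g1 ≤ γ → 0 ≤ r → r * Z ≤ cW * gg h h' B →
    0 ≤ w.1 → w.1 ≤ w.2 →
    ∫⁻ p, smZ B v Z w p * UU h β D θ0 g1 (g2 - r) B (kwStep w p.1 p.2) ∂(μ.prod ν) ≤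
      UU h β D θ0 g1 g2 B w
  bg : ∀ (Z : ℝ) (w : ℝ × ℝ), 0 ≤ w.1 → w.1 ≤ w.2 →
    ∫⁻ p, bgZ B (x ^ 2) v Z w p * UU h β D θ0 γ (2 * γ) B (kwStep w p.1 p.2) ∂(μ.prod ν) ≤
      ENNReal.ofReal (x ^ 3 * Real.exp (-γ)) * UU h β D θ0 γ (2 * γ) B w
  mom : ∀ π : Measure (ℝ × ℝ), IsStationaryKW μ ν π →
    ∫⁻ w, ({w : ℝ × ℝ | w.2 ≤ v}).indicator (EP h β D θ0) w ∂π ≤ ENNReal.ofReal (x ^ KA)

private lemma PathW_lev {C v1 G0 v1' G0' γ v B : ℝ} (L : Lev h h' C v1 G0 γ v B)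
    (hv : v1' ≤ v1) (hG : G0' ≤ G0) : Lev h h' C v1' G0' γ v B :=
  ⟨hv.trans L.lv, L.lB, L.lBv, L.lh, L.lγ, by have := L.lg; linarith⟩

private lemma PathW_sm_zero {B v Z : ℝ} {w : ℝ × ℝ} (hn : ¬ (v < w.2 ∧ w.2 ≤ Z))
    (f : ℝ × ℝ → ℝ≥0∞) : ∫⁻ p, smZ B v Z w p * f p ∂(μ.prod ν) = 0 := by
  have h1 : ∀ p : ℝ × ℝ, smZ B v Z w p * f p = 0 := by
    intro p
    unfold smZ
    rw [if_neg (fun hh => hn ⟨hh.1, hh.2.1⟩), zero_mul]
  simp only [h1, lintegral_zero]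

private lemma PathW_sm_eq {B v Z : ℝ} {w : ℝ × ℝ} (hn : v < w.2 ∧ w.2 ≤ Z)
    (f : ℝ × ℝ → ℝ≥0∞) : ∫⁻ p, smZ B v Z w p * f p ∂(μ.prod ν) =
      ∫⁻ p, (Set.Iic B).indicator (fun _ => (1 : ℝ≥0∞)) p.1 * f p ∂(μ.prod ν) := by
  refine lintegral_congr fun p => ?_
  congr 1
  unfold smZ
  by_cases hp : p.1 ≤ B
  · rw [if_pos ⟨hn.1, hn.2, hp⟩, Set.indicator_of_mem (show p.1 ∈ Set.Iic B from hp)]
  · rw [if_neg (fun hh => hp hh.2.2), Set.indicator_of_notMem (show p.1 ∉ Set.Iic B from hp)]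

private lemma PathW_bg_zero {B J v Z : ℝ} {w : ℝ × ℝ} (hn : ¬ (v < w.2 ∧ w.2 ≤ Z))
    (f : ℝ × ℝ → ℝ≥0∞) : ∫⁻ p, bgZ B J v Z w p * f p ∂(μ.prod ν) = 0 := by
  have h1 : ∀ p : ℝ × ℝ, bgZ B J v Z w p * f p = 0 := by
    intro p
    unfold bgZ
    rw [if_neg (fun hh => hn ⟨hh.1, hh.2.1⟩), zero_mul]
  simp only [h1, lintegral_zero]

private lemma PathW_bg_eq {B J v Z : ℝ} {w : ℝ × ℝ} (hn : v < w.2 ∧ w.2 ≤ Z)
    (f : ℝ × ℝ → ℝ≥0∞) : ∫⁻ p, bgZ B J v Z w p * f p ∂(μ.prod ν) =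
      ∫⁻ p, (Set.Ioc B J).indicator (fun _ => (1 : ℝ≥0∞)) p.1 * f p ∂(μ.prod ν) := by
  refine lintegral_congr fun p => ?_
  congr 1
  unfold bgZ
  by_cases hp : B < p.1 ∧ p.1 ≤ J
  · rw [if_pos ⟨hn.1, hn.2, hp.1, hp.2⟩, Set.indicator_of_mem (show p.1 ∈ Set.Ioc B J from hp)]
  · rw [if_neg (fun hh => hp hh.2.2), Set.indicator_of_notMem (show p.1 ∉ Set.Ioc B J from hp)]

private lemma PathW_en_eq {Y v : ℝ} {w : ℝ × ℝ} (f : ℝ × ℝ → ℝ≥0∞) :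
    ∫⁻ p, enW Y v w p * f (kwStep w p.1 p.2) ∂(μ.prod ν) =
      ∫⁻ p, (Set.Iic Y).indicator (fun _ => (1 : ℝ≥0∞)) p.1 *
        ({w' : ℝ × ℝ | v < w'.2}.indicator f (kwStep w p.1 p.2)) ∂(μ.prod ν) := by
  refine lintegral_congr fun p => ?_
  unfold enW
  by_cases hp : p.1 ≤ Y
  · rw [Set.indicator_of_mem (show p.1 ∈ Set.Iic Y from hp)]
    by_cases hq : v < (kwStep w p.1 p.2).2
    · rw [if_pos ⟨hp, hq⟩,
        Set.indicator_of_mem (show kwStep w p.1 p.2 ∈ {w' : ℝ × ℝ | v < w'.2} from hq)]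
    · rw [if_neg (fun hh => hq hh.2),
        Set.indicator_of_notMem (show kwStep w p.1 p.2 ∉ {w' : ℝ × ℝ | v < w'.2} from hq),
        zero_mul, mul_zero]
  · rw [if_neg (fun hh => hp hh.1), Set.indicator_of_notMem (show p.1 ∉ Set.Iic Y from hp),
      zero_mul, zero_mul]

private lemma PathW_cube {K x : ℝ} (hK : 0 ≤ K) (hx : 2 ≤ x) (hKx : 2 * K ≤ x) :
    K * (1 + x ^ 2) ≤ x ^ 3 := by
  have h1 : 1 + x ^ 2 ≤ 2 * x ^ 2 := by nlinarith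
  have h2 : K * (1 + x ^ 2) ≤ K * (2 * x ^ 2) := mul_le_mul_of_nonneg_left h1 hK
  have h3 : 2 * K * x ^ 2 ≤ x * x ^ 2 := mul_le_mul_of_nonneg_right hKx (by positivity)
  calc K * (1 + x ^ 2) ≤ K * (2 * x ^ 2) := h2
    _ = 2 * K * x ^ 2 := by ring
    _ ≤ x * x ^ 2 := h3
    _ = x ^ 3 := by ring

/-- `KA` from `ap_bound` (at `y = v x ≥ y0`, and `v ^ KA ≤ x ^ KA`), `cW` from `step_small`. `my`: `law_exp_trunc_lin`,
`C (1 + x²) ≤ x³`. `ent`: `entry` (`1{v < w'₂}` is the indicator there; `CE (1 + x²) ≤ x³`). `sm`: `step_small`(a)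
(`1 - min e .. / w₂ ≤ 1` because `e = 0`; the weight is `0` unless `v < w₂`, and then at most `1{s ≤ B}`). `smr`:
`step_small`(b), `r ≤ cW gg B / w₂` since `w₂ ≤ Z` on the support of the weight (if `r = 0` it is `sm`). `bg`: `step_big`
(`B ≤ v < w₂`). Level conditions: `Thr.lev` with `K0` (also `hg`), `Thr.mul_le 8`, `Thr.ld_aux`. -/
theorem path_consts (S : StdC μ ν h h') {B v : ℝ → ℝ} (T : Thr h h' B v) {β : ℝ → ℝ}
    {θ0 c C D : ℝ} (P : Pot μ ν h β θ0 c C 0) (hD : 4 * C ≤ D) :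
    ∃ KA cW : ℝ, 1 ≤ KA ∧ 0 < cW ∧ ∀ K0 : ℝ, 0 ≤ K0 → ∀ᶠ x : ℝ in atTop,
      PathC μ ν h h' β D θ0 KA cW (K0 * Real.log x) x (v x) (B x) := by
  have H := S.haz
  have hC0 : 0 ≤ C := by
    have h1 := P.pC
    have h2 := P.pc
    linarith
  have hD0 : 0 ≤ D := by linarith
  obtain ⟨KA, y0, hKA, hy0, hAP⟩ := ap_bound S T P hD
  obtain ⟨v1, cW, G0, hv1, hcW, hG0, hst⟩ := step_small S P.pθ P.pc P.pC hD
  obtain ⟨v1e, G0e, CE, hv1e, hG0e, hCE, hen⟩ := entry S P.pθ P.pc P.pC hD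
  obtain ⟨CM, hCM, hbig⟩ := step_big S
  obtain ⟨CL, hCL, hlaw⟩ := law_exp_trunc_lin H S.law
  refine ⟨KA, cW, hKA, hcW, fun K0 hK0 => ?_⟩
  filter_upwards [eventually_ge_atTop (2 : ℝ), eventually_ge_atTop (2 * CL),
    eventually_ge_atTop (2 * CE), eventually_ge_atTop (2 * CM),
    T.lev H (C := C) (v1 := max v1 v1e) (G0 := max G0 G0e) (K0 := K0) hC0 hK0,
    T.mul_le H 8, T.sq, T.ld_aux H 8, (T.tendsto_B H).eventually_ge_atTop 1,
    (T.tendsto_v H).eventually_ge_atTop y0] with x hx2 hxL hxE hxM L h8 hsq hld hB1 hvy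
  have L1 : Lev h h' C v1 G0 (K0 * Real.log x) (v x) (B x) :=
    PathW_lev L (le_max_left _ _) (le_max_left _ _)
  have L2 : Lev h h' C v1e G0e (K0 * Real.log x) (v x) (B x) :=
    PathW_lev L (le_max_right _ _) (le_max_right _ _)
  have hγ := L1.lγ
  have hlg := L1.lg
  have hB0 := L1.lB
  have hgB : 0 ≤ gg h h' (B x) := gg_nonneg H hB0
  have hv0 : 0 < v x := by linarith
  have hx0 : 0 < x := by linarith
  have hvx : v x ≤ x := by linarith [hld.2]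
  have hBx : B x ≤ x ^ 2 := by nlinarith
  refine ⟨hx2, hγ, hB1, h8, hsq, hld.2, by linarith, ?_, ?_, ?_, ?_, ?_, ?_⟩
  · exact (hlaw (x ^ 2) (by positivity)).trans
      (ENNReal.ofReal_le_ofReal (PathW_cube (by linarith) hx2 hxL))
  · intro g1 g2 w h0 h1 hwv
    rw [PathW_en_eq]
    refine (hen β 0 (v x) (B x) (K0 * Real.log x) g1 g2 (x ^ 2) w P L2 h0 h1 hwv hBx).trans ?_
    refine mul_le_mul' (ENNReal.ofReal_le_ofReal ?_) le_rfl
    exact mul_le_mul_of_nonneg_right (PathW_cube (by linarith) hx2 hxE) (Real.exp_pos _).le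
  · intro g1 g2 Z w hg h0 h1
    by_cases hn : v x < w.2 ∧ w.2 ≤ Z
    · rw [PathW_sm_eq hn]
      refine (hst β 0 (v x) (B x) (K0 * Real.log x) g1 g2 w P L1 hg h0 h1
        (by linarith [hn.1])).1.trans ?_
      have h2 : min 0 (cW * gg h h' (B x)) = 0 := min_eq_left (mul_nonneg hcW.le hgB)
      rw [h2, zero_div, sub_zero, ENNReal.ofReal_one, one_mul]
    · rw [PathW_sm_zero hn]
      exact zero_le
  · intro g1 g2 r Z w hg hr hrZ h0 h1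
    by_cases hn : v x < w.2 ∧ w.2 ≤ Z
    · rw [PathW_sm_eq hn]
      refine (hst β 0 (v x) (B x) (K0 * Real.log x) g1 g2 w P L1 hg h0 h1
        (by linarith [hn.1])).2 r hr ?_
      have hw2 : 0 < w.2 := hv0.trans hn.1
      rw [le_div_iff₀ hw2]
      exact (mul_le_mul_of_nonneg_left hn.2 hr).trans hrZ
    · rw [PathW_sm_zero hn]
      exact zero_le
  · intro Z w h0 h1
    by_cases hn : v x < w.2 ∧ w.2 ≤ Z
    · rw [PathW_bg_eq hn]
      refine (hbig β θ0 c C D 0 (B x) (K0 * Real.log x) (x ^ 2) w P hD0 hB0 hγ (by linarith) h0 h1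
        (by linarith [hn.1]) (by positivity)).trans ?_
      refine mul_le_mul' (ENNReal.ofReal_le_ofReal ?_) le_rfl
      exact mul_le_mul_of_nonneg_right (PathW_cube (by linarith) hx2 hxM) (Real.exp_pos _).le
    · rw [PathW_bg_zero hn]
      exact zero_le
  · intro π hπ
    refine (hAP (v x) hvy π hπ).trans (ENNReal.ofReal_le_ofReal ?_)
    exact Real.rpow_le_rpow hv0.le hvx (by linarith)

end Pool.Agent.Lib.MP_04add8_pr.Cv
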