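import Mathlib
import Pool.Agent.Lib.MP_04add8_pr.Cv.PathW
import Pool.Agent.Lib.MP_04add8_pr.Cv.PathEv
import Pool.Agent.Lib.MP_04add8_pr.Cv.HLog

open MeasureTheory ProbabilityTheory Filter Topology
open scoped ENNReal

set_option linter.unusedSectionVars false

namespace Pool.Agent.Lib.MP_04add8_pr.Cv

open Pool.Agent.Lib.MP_04add8_pr.Gen

variable {h h' : ℝ → ℝ} {μ ν : Measure ℝ} [IsProbabilityMeasure μ]
  [IsProbabilityMeasure ν]

variable {B v : ℝ → ℝ}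

/-- some state at the times `1, …, n` or some of the first `n` jobs exceeds `Z` -/
def Top (Z : ℝ) (n : ℕ) : Set ((ℝ × ℝ) × (ℕ → ℝ × ℝ)) :=
  {q | ∃ k < n, Z < (pIter q.1 q.2 (k + 1)).2 ∨ Z < (q.2 k).1}

theorem measurableSet_Top (Z : ℝ) (n : ℕ) : MeasurableSet (Top Z n) := by
  have e : Top Z n = ⋃ k : ℕ, ⋃ _ : k < n,
      ({q : (ℝ × ℝ) × (ℕ → ℝ × ℝ) | Z < (pIter q.1 q.2 (k + 1)).2} ∪
        {q : (ℝ × ℝ) × (ℕ → ℝ × ℝ) | Z < (q.2 k).1}) := by
    ext q
    simp only [Top, Set.mem_ofPred_eq, Set.mem_iUnion, Set.mem_union]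
    constructor
    · rintro ⟨k, hk, h1⟩
      exact ⟨k, hk, h1⟩
    · rintro ⟨k, hk, h1⟩
      exact ⟨k, hk, h1⟩
  rw [e]
  refine MeasurableSet.iUnion fun k => MeasurableSet.iUnion fun _ => MeasurableSet.union ?_ ?_
  · exact measurableSet_lt measurable_const (measurable_pIter (k + 1)).snd
  · exact measurableSet_lt measurable_const (by fun_prop)

private lemma killTop_job {π : Measure (ℝ × ℝ)} [IsProbabilityMeasure π] (Z : ℝ) (k : ℕ) :
    (π.prod (noise μ ν)) {q : (ℝ × ℝ) × (ℕ → ℝ × ℝ) | Z < (q.2 k).1} = μ (Set.Ioi Z) := by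
  have h1 : MeasurePreserving (fun q : (ℝ × ℝ) × (ℕ → ℝ × ℝ) => q.2) (π.prod (noise μ ν))
      (noise μ ν) := measurePreserving_snd
  have h2 : MeasurePreserving (fun z : ℕ → ℝ × ℝ => z k) (noise μ ν) (μ.prod ν) :=
    measurePreserving_eval_infinitePi (fun _ : ℕ => μ.prod ν) k
  have h3 : MeasurePreserving (fun p : ℝ × ℝ => p.1) (μ.prod ν) μ := measurePreserving_fst
  exact (h3.comp (h2.comp h1)).measure_preimage (s := Set.Ioi Z)
    measurableSet_Ioi.nullMeasurableSet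

/-- weights of the path -/
private noncomputable def killTop_a (B v x : ℝ) : ℕ → ℝ × ℝ → ℝ × ℝ → ℝ≥0∞
  | 0 => enW (x ^ 2) v
  | _ + 1 => fun w p => smZ B v (x ^ 2) w p + bgZ B (x ^ 2) v (x ^ 2) w p

/-- potentials of the path -/
private noncomputable def killTop_U (h : ℝ → ℝ) (β : ℝ → ℝ) (D θ0 γ B : ℝ) : ℕ → ℝ × ℝ → ℝ≥0∞
  | 0 => EP h β D θ0
  | _ + 1 => UU h β D θ0 γ (2 * γ) B

/-- factors of the path -/
private noncomputable def killTop_k (δ : ℝ≥0∞) : ℕ → ℝ≥0∞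
  | 0 => δ
  | _ + 1 => 1 + δ

private lemma killTop_state (S : StdC μ ν h h') {β : ℝ → ℝ} {θ0 c C D KA cW γ x v B : ℝ}
    (P : Pot μ ν h β θ0 c C 0) (hD : 0 ≤ D) (Q : PathC μ ν h h' β D θ0 KA cW γ x v B)
    {π : Measure (ℝ × ℝ)} (hπ : IsStationaryKW μ ν π) (Z : ℝ) {n k : ℕ} (hk : k < n) :
    ENNReal.ofReal (Real.exp (h Z - 2 * γ)) * (π.prod (noise μ ν))
      (Gn x v (x ^ 2) n ∩ {q : (ℝ × ℝ) × (ℕ → ℝ × ℝ) | Z < (pIter q.1 q.2 (k + 1)).2}) ≤
      (ENNReal.ofReal (x ^ 3 * Real.exp (-γ)) *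
        (1 + ENNReal.ofReal (x ^ 3 * Real.exp (-γ))) ^ k) * ENNReal.ofReal (x ^ KA) := by
  have H := S.haz
  have hx := Q.hx
  have hγ := Q.hγ
  set δ : ℝ≥0∞ := ENNReal.ofReal (x ^ 3 * Real.exp (-γ)) with hδ
  have hδ0 : δ ≠ 0 := by
    rw [hδ, Ne, ENNReal.ofReal_eq_zero, not_le]
    have : 0 < x := by linarith
    positivity
  have hAm : MeasurableSet (Gn x v (x ^ 2) n ∩
      {q : (ℝ × ℝ) × (ℕ → ℝ × ℝ) | Z < (pIter q.1 q.2 (k + 1)).2}) :=
    (measurableSet_Gn x v (x ^ 2) n).inter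
      (measurableSet_lt measurable_const (measurable_pIter (k + 1)).snd)
  have hUm := measurable_UU H β D θ0 γ (2 * γ) B
  have key := path_event hπ hAm (v := v) (fun q hq => hq.1.2.1) (k + 1)
    (a := killTop_a B v x) (U := killTop_U h β D θ0 γ B) (k := killTop_k δ)
    (L := ENNReal.ofReal (Real.exp (h Z - 2 * γ))) ?_ ?_ hδ0 ?_ ?_
  · refine key.trans ?_
    have e1 : ∏ i ∈ Finset.range (k + 1), killTop_k δ i = δ * (1 + δ) ^ k := by
      rw [Finset.prod_range_succ']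
      simp only [killTop_k, Finset.prod_const, Finset.card_range]
      rw [mul_comm]
    rw [e1]
    exact mul_le_mul' le_rfl (Q.mom π hπ)
  · intro i
    cases i with
    | zero => exact measurable_enW (x ^ 2) v
    | succ i => exact (measurable_smZ B v (x ^ 2)).add (measurable_bgZ B (x ^ 2) v (x ^ 2))
  · intro i
    cases i with
    | zero => exact measurable_EP H β D θ0
    | succ i => exact hUm
  · intro i _ w hw0 hw1 hwv
    cases i with
    | zero =>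
      have h1 := Q.ent γ (2 * γ) w hw0 hw1 (hwv rfl)
      rw [min_eq_left (by linarith : γ ≤ 2 * γ)] at h1
      exact h1
    | succ i =>
      show ∫⁻ p, (smZ B v (x ^ 2) w p + bgZ B (x ^ 2) v (x ^ 2) w p) *
        UU h β D θ0 γ (2 * γ) B (kwStep w p.1 p.2) ∂(μ.prod ν) ≤
        (1 + δ) * UU h β D θ0 γ (2 * γ) B w
      have h1 := Q.sm γ (2 * γ) (x ^ 2) w (by linarith) hw0 hw1
      have h2 := Q.bg (x ^ 2) w hw0 hw1
      have hm : Measurable (fun p : ℝ × ℝ => smZ B v (x ^ 2) w p *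
          UU h β D θ0 γ (2 * γ) B (kwStep w p.1 p.2)) := by
        refine Measurable.mul ?_ (hUm.comp (measurable_kwStep_right w))
        exact (measurable_smZ B v (x ^ 2)).comp (measurable_const.prodMk measurable_id)
      simp only [add_mul]
      rw [lintegral_add_left hm, one_mul]
      exact add_le_add h1 h2
  · intro q hq
    obtain ⟨⟨hq0, hq1, hq2, -⟩, hqZ⟩ := hq
    have hqZ' : Z < (pIter q.1 q.2 (k + 1)).2 := hqZ
    have hprod : 1 ≤ ∏ i ∈ Finset.range (k + 1), killTop_a B v x i (pIter q.1 q.2 i) (q.2 i) := by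
      refine Finset.one_le_prod' fun i hi => ?_
      have hi' : i < k + 1 := Finset.mem_range.1 hi
      cases i with
      | zero =>
        have h1 := hq2 0 (by omega)
        show 1 ≤ enW (x ^ 2) v (pIter q.1 q.2 0) (q.2 0)
        unfold enW
        rw [if_pos ⟨h1.2.2, h1.1⟩]
      | succ i =>
        have h1 := hq2 i (by omega)
        have h2 := hq2 (i + 1) (by omega)
        show 1 ≤ smZ B v (x ^ 2) (pIter q.1 q.2 (i + 1)) (q.2 (i + 1)) +
          bgZ B (x ^ 2) v (x ^ 2) (pIter q.1 q.2 (i + 1)) (q.2 (i + 1))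
        rcases le_or_gt (q.2 (i + 1)).1 B with hB | hB
        · unfold smZ
          rw [if_pos ⟨h1.1, h1.2.1, hB⟩]
          exact le_self_add
        · unfold bgZ
          rw [if_pos ⟨h1.1, h1.2.1, hB, h2.2.2⟩]
          exact le_add_self
    have hord := pIter_ordered hq0.1 hq0.2.1 q.2 (k + 1)
    have hU : ENNReal.ofReal (Real.exp (h Z - 2 * γ)) ≤
        killTop_U h β D θ0 γ B (k + 1) (pIter q.1 q.2 (k + 1)) := by
      refine le_trans (ENNReal.ofReal_le_ofReal (Real.exp_le_exp.2 ?_))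
        (UU_ge H P hD (by linarith : γ ≤ 2 * γ) hord.1 hord.2)
      have := H.mono hqZ'.le
      linarith
    calc ENNReal.ofReal (Real.exp (h Z - 2 * γ))
        = 1 * ENNReal.ofReal (Real.exp (h Z - 2 * γ)) := (one_mul _).symm
      _ ≤ _ := mul_le_mul' hprod hU

private lemma killTop_num {x KA γ hZ : ℝ} {k : ℕ} (hx : 3 ≤ x) (hγ : γ = 24 * Real.log x)
    (hk : (k : ℝ) ≤ x ^ 20) {p : ℝ≥0∞}
    (hp : ENNReal.ofReal (Real.exp (hZ - 2 * γ)) * p ≤
      (ENNReal.ofReal (x ^ 3 * Real.exp (-γ)) *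
        (1 + ENNReal.ofReal (x ^ 3 * Real.exp (-γ))) ^ k) * ENNReal.ofReal (x ^ KA)) :
    p ≤ ENNReal.ofReal (x ^ 28 * x ^ KA * Real.exp (-hZ)) := by
  have hx0 : 0 < x := by linarith
  have hA : 0 < x ^ KA := Real.rpow_pos_of_pos hx0 KA
  have e1 : Real.exp γ = x ^ 24 := by
    rw [hγ]
    have : (24 : ℝ) * Real.log x = ((24 : ℕ) : ℝ) * Real.log x := by norm_num
    rw [this, Real.exp_nat_mul, Real.exp_log hx0]
  have e2 : x ^ 3 * Real.exp (-γ) = 1 / x ^ 21 := by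
    rw [Real.exp_neg, e1]
    field_simp
  set d : ℝ := x ^ 3 * Real.exp (-γ) with hd
  have hd0 : 0 ≤ d := by positivity
  have h1 : (1 + ENNReal.ofReal d) ^ k ≤ ENNReal.ofReal 3 := by
    have h2 : (1 + ENNReal.ofReal d) ^ k = ENNReal.ofReal ((1 + d) ^ k) := by
      rw [ENNReal.ofReal_pow (by linarith), ENNReal.ofReal_add zero_le_one hd0,
        ENNReal.ofReal_one]
    rw [h2]
    refine ENNReal.ofReal_le_ofReal ?_
    have h3 : (1 + d) ^ k ≤ Real.exp (k * d) := by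
      rw [Real.exp_nat_mul]
      refine pow_le_pow_left₀ (by linarith) ?_ k
      have := Real.add_one_le_exp d
      linarith
    refine h3.trans ?_
    have h4 : (k : ℝ) * d ≤ 1 := by
      rw [e2]
      calc (k : ℝ) * (1 / x ^ 21) ≤ x ^ 20 * (1 / x ^ 21) :=
            mul_le_mul_of_nonneg_right hk (by positivity)
        _ = 1 / x := by field_simp
        _ ≤ 1 := by
            rw [div_le_one hx0]
            linarith
    refine (Real.exp_le_exp.2 h4).trans ?_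
    have := Real.exp_one_lt_d9
    linarith
  have h5 : ENNReal.ofReal (Real.exp (hZ - 2 * γ)) * p ≤
      ENNReal.ofReal (d * 3 * x ^ KA) := by
    have h7 : ENNReal.ofReal (d * 3 * x ^ KA) =
        ENNReal.ofReal d * ENNReal.ofReal 3 * ENNReal.ofReal (x ^ KA) := by
      rw [ENNReal.ofReal_mul (show 0 ≤ d * 3 by positivity), ENNReal.ofReal_mul hd0]
    rw [h7]
    exact hp.trans (mul_le_mul' (mul_le_mul' le_rfl h1) le_rfl)
  have h6 : ENNReal.ofReal (Real.exp (2 * γ - hZ)) *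
      (ENNReal.ofReal (Real.exp (hZ - 2 * γ)) * p) = p := by
    rw [← mul_assoc, ← ENNReal.ofReal_mul (Real.exp_pos _).le, ← Real.exp_add]
    have : 2 * γ - hZ + (hZ - 2 * γ) = 0 := by ring
    rw [this, Real.exp_zero, ENNReal.ofReal_one, one_mul]
  rw [← h6]
  refine (mul_le_mul' le_rfl h5).trans ?_
  rw [← ENNReal.ofReal_mul (Real.exp_pos _).le]
  refine ENNReal.ofReal_le_ofReal ?_
  have e3 : Real.exp (2 * γ - hZ) = x ^ 48 * Real.exp (-hZ) := by
    have : 2 * γ - hZ = γ + γ + -hZ := by ring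
    rw [this, Real.exp_add, Real.exp_add, e1]
    ring
  rw [e3, e2]
  have e4 : x ^ 48 * Real.exp (-hZ) * (1 / x ^ 21 * 3 * x ^ KA) =
      3 * (x ^ 27 * x ^ KA * Real.exp (-hZ)) := by
    field_simp
  rw [e4]
  calc 3 * (x ^ 27 * x ^ KA * Real.exp (-hZ)) ≤ x * (x ^ 27 * x ^ KA * Real.exp (-hZ)) :=
        mul_le_mul_of_nonneg_right hx (by positivity)
    _ = _ := by ring

/-- **Very large states.** Jobs: union bound, `μ (Ioi (A4 x)) ≤ C₁ e^{-h (A4 x)}` (`Law.up`). States: for `k < n`,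
`A = Gn ∩ {A4 x < w₂(k+1)}`, `path_event` up to time `k + 1` with `a 0 = enW (x²) v`, `a i = smZ B v (x²) + bgZ B (x²) v (x²)`
for `1 ≤ i ≤ k`, `U 0 = EP`, `U i = UU γ (2γ)`, `k i = 1 + x³ e^{-γ} ≤ 1 + 1/N` for `γ = 24 log x`, final value
`U ≥ e^{h w₂ - 2γ} ≥ e^{h (A4 x) - 2γ}` (`UU_ge`). So `P ≤ 3 x³ e^{γ} x^KA e^{-h (A4 x)} = x^K' e^{-h (A4 x)}` with `K'` fixed.
Sum over `k < N`. Finally `h (A4 x) ≥ h ((1+C) x) + c x h' x ≥ RR x + c K3 log x` (`HazC.gap_mul`, `RR_le_h`). -/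
theorem kill_top (S : StdC μ ν h h') (T : Thr h h' B v) {β : ℝ → ℝ} {θ0 c C : ℝ}
    (P : Pot μ ν h β θ0 c C 0) {A4 : ℝ} (hA4 : 1 + C < A4) (K : ℝ) : ∃ K3 : ℝ, 0 < K3 ∧
    ∀ᶠ x : ℝ in atTop, K3 * Real.log x ≤ x * h' x →
      ∀ π : Measure (ℝ × ℝ), IsStationaryKW μ ν π → ∀ n ≤ ⌈x ^ 20⌉₊,
      (π.prod (noise μ ν)) (Gn x (v x) (x ^ 2) n ∩ Top (A4 * x) n) ≤
        ENNReal.ofReal (x ^ (-K) * Real.exp (-(RR h β θ0 x))) := by
  have H := S.haz
  have hC1 : 1 ≤ 1 + C := by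
    have h1 := P.pC
    have h2 := P.pc
    linarith
  have hC0 : 0 ≤ C := by
    have h1 := P.pC
    have h2 := P.pc
    linarith
  obtain ⟨KA, cW, hKA, -, hQ⟩ := path_consts S T P (D := 4 * C) le_rfl
  obtain ⟨C₁, hC₁0, hC₁⟩ := S.law.up
  obtain ⟨c', hc', hgap⟩ := H.gap_mul hC1 hA4
  set K' : ℝ := 50 + KA + |K| with hK'
  have hK'0 : 0 ≤ K' := by
    have := abs_nonneg K
    linarith
  refine ⟨K' / c' + 1, by positivity, ?_⟩
  have hθ : ∀ᶠ x : ℝ in atTop, h' ((1 + C) * x) < θ0 := by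
    have h1 : Tendsto (fun x : ℝ => (1 + C) * x) atTop atTop :=
      tendsto_id.const_mul_atTop (by linarith)
    exact (H.tendsto_deriv.comp h1).eventually_lt_const P.pθ
  filter_upwards [hQ 24 (by norm_num), hθ, eventually_ge_atTop (3 : ℝ),
    eventually_ge_atTop C₁] with x Q hθx hx3 hxC hlog π hπ n hn
  have hπp : IsProbabilityMeasure π := hπ.1
  have hx0 : 0 < x := by linarith
  have hA : 0 < x ^ KA := Real.rpow_pos_of_pos hx0 KA
  have hA1 : 1 ≤ x ^ KA := Real.one_le_rpow (by linarith) (by linarith)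
  have hL0 : 0 ≤ Real.log x := Real.log_nonneg (by linarith)
  have hn1 : (n : ℝ) ≤ x ^ 20 + 1 := by
    have h1 : (n : ℝ) ≤ (⌈x ^ 20⌉₊ : ℝ) := by exact_mod_cast hn
    have h2 := Nat.ceil_lt_add_one (show 0 ≤ x ^ 20 by positivity)
    linarith
  set Z : ℝ := A4 * x with hZ
  -- the union bound
  have hsub : Gn x (v x) (x ^ 2) n ∩ Top Z n ⊆ ⋃ k ∈ Finset.range n,
      ((Gn x (v x) (x ^ 2) n ∩ {q : (ℝ × ℝ) × (ℕ → ℝ × ℝ) | Z < (pIter q.1 q.2 (k + 1)).2}) ∪
        {q : (ℝ × ℝ) × (ℕ → ℝ × ℝ) | Z < (q.2 k).1}) := by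
    rintro q ⟨hq1, k, hk, hq2⟩
    simp only [Set.mem_iUnion, Finset.mem_range]
    refine ⟨k, hk, ?_⟩
    rcases hq2 with hq2 | hq2
    · exact Or.inl ⟨hq1, hq2⟩
    · exact Or.inr hq2
  have hterm : ∀ k ∈ Finset.range n, (π.prod (noise μ ν))
      ((Gn x (v x) (x ^ 2) n ∩ {q : (ℝ × ℝ) × (ℕ → ℝ × ℝ) | Z < (pIter q.1 q.2 (k + 1)).2}) ∪
        {q : (ℝ × ℝ) × (ℕ → ℝ × ℝ) | Z < (q.2 k).1}) ≤
      ENNReal.ofReal (x ^ 29 * x ^ KA * Real.exp (-(h Z))) := by
    intro k hk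
    have hk' : k < n := Finset.mem_range.1 hk
    have hkx : (k : ℝ) ≤ x ^ 20 := by
      have h1 : ((k + 1 : ℕ) : ℝ) ≤ (n : ℝ) := by exact_mod_cast hk'
      push_cast at h1
      linarith
    have h1 := killTop_num hx3 rfl hkx
      (killTop_state S P (by linarith : (0 : ℝ) ≤ 4 * C) Q hπ Z hk')
    have h2 : (π.prod (noise μ ν)) {q : (ℝ × ℝ) × (ℕ → ℝ × ℝ) | Z < (q.2 k).1} ≤
        ENNReal.ofReal (C₁ * Real.exp (-(h Z))) := by
      rw [killTop_job]
      exact hC₁ Z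
    refine (measure_union_le _ _).trans ((add_le_add h1 h2).trans ?_)
    rw [← ENNReal.ofReal_add (by positivity) (by positivity)]
    refine ENNReal.ofReal_le_ofReal ?_
    have h3 : C₁ ≤ x ^ 28 * x ^ KA := by
      calc C₁ ≤ x := hxC
        _ ≤ x ^ 28 := le_self_pow₀ (by linarith) (by norm_num)
        _ ≤ x ^ 28 * x ^ KA := le_mul_of_one_le_right (by positivity) hA1
    have h4 : C₁ * Real.exp (-(h Z)) ≤ x ^ 28 * x ^ KA * Real.exp (-(h Z)) :=
      mul_le_mul_of_nonneg_right h3 (Real.exp_pos _).le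
    calc x ^ 28 * x ^ KA * Real.exp (-(h Z)) + C₁ * Real.exp (-(h Z))
        ≤ 2 * (x ^ 28 * x ^ KA * Real.exp (-(h Z))) := by linarith
      _ ≤ x * (x ^ 28 * x ^ KA * Real.exp (-(h Z))) :=
          mul_le_mul_of_nonneg_right (by linarith) (by positivity)
      _ = _ := by ring
  refine (measure_mono hsub).trans ((measure_biUnion_finset_le _ _).trans ?_)
  refine (Finset.sum_le_sum hterm).trans ?_
  rw [Finset.sum_const, Finset.card_range, nsmul_eq_mul, ← ENNReal.ofReal_natCast n,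
    ← ENNReal.ofReal_mul (Nat.cast_nonneg n)]
  refine ENNReal.ofReal_le_ofReal ?_
  have h1 : (n : ℝ) ≤ x ^ 21 := by
    have h2 : (1 : ℝ) ≤ x ^ 20 := one_le_pow₀ (by linarith)
    calc (n : ℝ) ≤ x ^ 20 + 1 := hn1
      _ ≤ 2 * x ^ 20 := by linarith
      _ ≤ x * x ^ 20 := mul_le_mul_of_nonneg_right (by linarith) (by positivity)
      _ = x ^ 21 := by ring
  have h2 : (n : ℝ) * (x ^ 29 * x ^ KA * Real.exp (-(h Z))) ≤
      x ^ 50 * x ^ KA * Real.exp (-(h Z)) := by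
    calc (n : ℝ) * (x ^ 29 * x ^ KA * Real.exp (-(h Z)))
        ≤ x ^ 21 * (x ^ 29 * x ^ KA * Real.exp (-(h Z))) :=
          mul_le_mul_of_nonneg_right h1 (by positivity)
      _ = _ := by ring
  refine h2.trans ?_
  have e1 : x ^ 50 = Real.exp (50 * Real.log x) := by
    have : (50 : ℝ) * Real.log x = ((50 : ℕ) : ℝ) * Real.log x := by norm_num
    rw [this, Real.exp_nat_mul, Real.exp_log hx0]
  have e2 : x ^ KA = Real.exp (KA * Real.log x) := by
    rw [Real.rpow_def_of_pos hx0, mul_comm]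
  have e3 : x ^ (-K) = Real.exp (-K * Real.log x) := by
    rw [Real.rpow_def_of_pos hx0, mul_comm]
  rw [e1, e2, e3, ← Real.exp_add, ← Real.exp_add, ← Real.exp_add]
  refine Real.exp_le_exp.2 ?_
  have h3 := hgap x hx0
  have h4 := RR_le_h H P hx0 hθx.le
  have h5 : K' * Real.log x ≤ c' * (x * h' x) := by
    have h6 : (K' / c' + 1) * Real.log x ≤ x * h' x := hlog
    have h7 : c' * ((K' / c' + 1) * Real.log x) ≤ c' * (x * h' x) :=
      mul_le_mul_of_nonneg_left h6 hc'.le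
    have h8 : c' * ((K' / c' + 1) * Real.log x) = K' * Real.log x + c' * Real.log x := by
      field_simp
    have h9 : 0 ≤ c' * Real.log x := mul_nonneg hc'.le hL0
    linarith
  have h10 : (50 + KA + K) * Real.log x ≤ K' * Real.log x :=
    mul_le_mul_of_nonneg_right (by rw [hK']; linarith [le_abs_self K]) hL0
  have h11 : h Z = h (A4 * x) := by rw [hZ]
  rw [h11]
  linarith

end Pool.Agent.Lib.MP_04add8_pr.Cv
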