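import Mathlib
import Pool.Agent.Lib.MP_04add8_pr.Cv.KillTop
import Pool.Agent.Lib.MP_04add8_pr.Cv.JComb

open MeasureTheory ProbabilityTheory Filter Topology
open scoped ENNReal

set_option linter.unusedSectionVars false

namespace Pool.Agent.Lib.MP_04add8_pr.Cv

open Pool.Agent.Lib.MP_04add8_pr.Gen

variable {h h' : ℝ → ℝ} {μ ν : Measure ℝ} [IsProbabilityMeasure μ]
  [IsProbabilityMeasure ν]

variable {B v : ℝ → ℝ}

private lemma KillAB_fin {P M : ℝ≥0∞} {a b : ℝ}
    (hP : ENNReal.ofReal (min (Real.exp a) (Real.exp b)) * P ≤ M) :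
    P ≤ M * ENNReal.ofReal (Real.exp (-a) + Real.exp (-b)) := by
  have ha := Real.exp_pos a
  have hb := Real.exp_pos b
  have ha' := Real.exp_pos (-a)
  have hb' := Real.exp_pos (-b)
  have haa : Real.exp (-a) * Real.exp a = 1 := by rw [← Real.exp_add]; simp
  have hbb : Real.exp (-b) * Real.exp b = 1 := by rw [← Real.exp_add]; simp
  have h1 : 1 ≤ ENNReal.ofReal (Real.exp (-a) + Real.exp (-b)) *
      ENNReal.ofReal (min (Real.exp a) (Real.exp b)) := by
    rw [← ENNReal.ofReal_mul (by positivity), ← ENNReal.ofReal_one]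
    refine ENNReal.ofReal_le_ofReal ?_
    rcases min_choice (Real.exp a) (Real.exp b) with hm | hm <;> rw [hm] <;>
      nlinarith [mul_pos ha' hb, mul_pos hb' ha]
  calc P = 1 * P := (one_mul P).symm
    _ ≤ (ENNReal.ofReal (Real.exp (-a) + Real.exp (-b)) *
        ENNReal.ofReal (min (Real.exp a) (Real.exp b))) * P := mul_le_mul' h1 le_rfl
    _ = (ENNReal.ofReal (min (Real.exp a) (Real.exp b)) * P) *
        ENNReal.ofReal (Real.exp (-a) + Real.exp (-b)) := by ring
    _ ≤ M * ENNReal.ofReal (Real.exp (-a) + Real.exp (-b)) := mul_le_mul' hP le_rfl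

private lemma KillAB_prod (k0 k1 : ℝ≥0∞) {n m : ℕ} (hm : m + 1 < n) :
    ∏ i ∈ Finset.range n, (if i = 0 then k0 else if i = m + 1 then k1 else 1) = k0 * k1 := by
  have h1 : ({0, m + 1} : Finset ℕ) ⊆ Finset.range n := by
    intro i hi
    simp only [Finset.mem_insert, Finset.mem_singleton] at hi
    rw [Finset.mem_range]
    omega
  rw [← Finset.prod_subset h1]
  · rw [Finset.prod_pair (by omega)]
    simp
  · intro i _ hi
    simp only [Finset.mem_insert, Finset.mem_singleton, not_or] at hi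
    rw [if_neg hi.1, if_neg hi.2]

private lemma KillAB_ord {q : (ℝ × ℝ) × (ℕ → ℝ × ℝ)} (hq : q ∈ Okq) (i : ℕ) :
    0 ≤ (pIter q.1 q.2 i).1 ∧ (pIter q.1 q.2 i).1 ≤ (pIter q.1 q.2 i).2 := by
  cases i with
  | zero => exact ⟨hq.1, hq.2.1⟩
  | succ i =>
    rw [pIter_succ]
    unfold kwStep
    exact ⟨le_min (le_max_right _ _) (le_max_right _ _), min_le_max⟩

private lemma KillAB_alg {x K KA e1 e2 a b R Q : ℝ} (hx : 1 ≤ x)
    (h1 : 6 * Real.log x + KA * Real.log x - e1 - e2 - a ≤ -K * Real.log x - R)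
    (h2 : 6 * Real.log x + KA * Real.log x - e1 - e2 - b ≤ -K * Real.log x - Q) :
    ENNReal.ofReal (x ^ 3 * Real.exp (-e1)) * ENNReal.ofReal (x ^ 3 * Real.exp (-e2)) *
      ENNReal.ofReal (x ^ KA) * ENNReal.ofReal (Real.exp (-a) + Real.exp (-b)) ≤
      ENNReal.ofReal (x ^ (-K) * (Real.exp (-R) + Real.exp (-Q))) := by
  have hx0 : 0 < x := by linarith
  rw [← ENNReal.ofReal_mul (by positivity), ← ENNReal.ofReal_mul (by positivity),
    ← ENNReal.ofReal_mul (by positivity)]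
  refine ENNReal.ofReal_le_ofReal ?_
  have e3 : x ^ 3 = Real.exp (3 * Real.log x) := by
    have : (3 : ℝ) * Real.log x = ((3 : ℕ) : ℝ) * Real.log x := by norm_num
    rw [this, Real.exp_nat_mul, Real.exp_log hx0]
  have eKA : x ^ KA = Real.exp (KA * Real.log x) := by
    rw [Real.rpow_def_of_pos hx0, mul_comm]
  have eK : x ^ (-K) = Real.exp (-K * Real.log x) := by
    rw [Real.rpow_def_of_pos hx0, mul_comm]
  rw [e3, eKA, eK]
  simp only [mul_add, ← Real.exp_add]
  refine add_le_add (Real.exp_le_exp.2 ?_) (Real.exp_le_exp.2 ?_) <;> linarith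

private lemma KillAB_meas (v c B Z : ℝ) :
    Measurable (fun q : (ℝ × ℝ) × (ℝ × ℝ) =>
      if v < q.1.2 ∧ c ≤ q.1.1 ∧ B < q.2.1 ∧ q.2.1 ≤ Z then (1 : ℝ≥0∞) else 0) := by
  refine Measurable.ite ?_ measurable_const measurable_const
  have h1 : MeasurableSet {q : (ℝ × ℝ) × (ℝ × ℝ) | v < q.1.2} :=
    measurableSet_lt measurable_const (by fun_prop)
  have h2 : MeasurableSet {q : (ℝ × ℝ) × (ℝ × ℝ) | c ≤ q.1.1} :=
    measurableSet_le measurable_const (by fun_prop)
  have h3 : MeasurableSet {q : (ℝ × ℝ) × (ℝ × ℝ) | B < q.2.1} :=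
    measurableSet_lt measurable_const (by fun_prop)
  have h4 : MeasurableSet {q : (ℝ × ℝ) × (ℝ × ℝ) | q.2.1 ≤ Z} :=
    measurableSet_le (by fun_prop) measurable_const
  exact h1.inter (h2.inter (h3.inter h4))

/-- **Large smaller workload before the second nonsmall job.** -/
theorem kill_alpha (S : StdC μ ν h h') (T : Thr h h' B v) {β : ℝ → ℝ} {θ0 c C : ℝ}
    (P : Pot μ ν h β θ0 c C 0) {ε1 A4 : ℝ} (hε1 : 0 < ε1) (hA4 : 1 ≤ A4) (K : ℝ) :
    ∀ᶠ x : ℝ in atTop, ∀ π : Measure (ℝ × ℝ), IsStationaryKW μ ν π → ∀ n1 n2 : ℕ,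
      n1 + n2 + 2 ≤ ⌈x ^ 20⌉₊ →
      (π.prod (noise μ ν)) (Ctwo x (v x) (B x) (x ^ 2) n1 n2 ∩
        {q | q ∉ Top (A4 * x) (n1 + n2 + 2) ∧ ε1 * x ≤ (pIter q.1 q.2 (n1 + 1)).1}) ≤
        ENNReal.ofReal (x ^ (-K) *
          (Real.exp (-(RR h β θ0 x)) + Real.exp (-(2 * h x)))) := by
  have H := S.haz
  obtain ⟨KA, cW, hKA, hcW, hpath⟩ := path_consts S T P (D := 4 * C) le_rfl
  obtain ⟨K', hK'⟩ : ∃ K' : ℝ, K' = |K| + KA + 10 := ⟨_, rfl⟩
  have hK'0 : 0 < K' := by
    have := abs_nonneg K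
    linarith
  have hC : 0 ≤ C := by
    have := P.pC
    have := P.pc
    linarith
  filter_upwards [hpath (2 * K') (by linarith), T.g (2 * A4 * K' / ε1),
    eventually_ge_atTop (max A4 2)] with x hx hg hxA π hπ n1 n2 hn
  have hxA4 : A4 ≤ x := (le_max_left _ _).trans hxA
  have hx2 : 2 ≤ x := (le_max_right _ _).trans hxA
  have hlog : 0 ≤ Real.log x := Real.log_nonneg (by linarith)
  obtain ⟨κ, hκ⟩ : ∃ κ : ℝ, κ = K' * Real.log x := ⟨_, rfl⟩
  have hκ0 : 0 ≤ κ := by rw [hκ]; exact mul_nonneg hK'0.le hlog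
  obtain ⟨γ, hγ⟩ : ∃ γ : ℝ, γ = 2 * K' * Real.log x := ⟨_, rfl⟩
  rw [← hγ] at hx
  have hγκ : γ = 2 * κ := by rw [hγ, hκ]; ring
  have hγ0 : 0 ≤ γ := hx.hγ
  have hD : 0 ≤ 4 * C := by linarith
  have hB1 := hx.hB
  have hB0 : 0 < B x := by linarith
  have hBv := hx.hBv
  have hg8 := hx.hg
  have hmin : min (γ + κ) (2 * γ) = γ + κ := min_eq_left (by linarith)
  -- the second nonsmall job
  have hJ : ∀ w : ℝ × ℝ, 0 ≤ w.1 → w.1 ≤ w.2 →
      ∫⁻ p, (if v x < w.2 ∧ ε1 * x ≤ w.1 ∧ B x < p.1 ∧ p.1 ≤ A4 * x then (1 : ℝ≥0∞) else 0) *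
        UU h β (4 * C) θ0 γ (2 * γ) (B x) (kwStep w p.1 p.2) ∂(μ.prod ν) ≤
      ENNReal.ofReal (x ^ 3 * Real.exp (-γ)) *
        UU h β (4 * C) θ0 (γ + κ) (2 * γ) (B x) w := by
    intro w h0 h1
    have hpt : ∀ᵐ p ∂(μ.prod ν),
        (if v x < w.2 ∧ ε1 * x ≤ w.1 ∧ B x < p.1 ∧ p.1 ≤ A4 * x then (1 : ℝ≥0∞) else 0) *
          UU h β (4 * C) θ0 γ (2 * γ) (B x) (kwStep w p.1 p.2) ≤
        ((Set.Iic (x ^ 2)).indicator (fun _ => (1 : ℝ≥0∞)) p.1 *
          ENNReal.ofReal (Real.exp (h p.1))) * (ENNReal.ofReal (Real.exp (-γ)) *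
            UU h β (4 * C) θ0 (γ + κ) (2 * γ) (B x) w) := by
      filter_upwards [law_prod_nonneg S.law S.hν] with p hp
      split_ifs with hc
      · obtain ⟨hc1, hc2, hc3, hc4⟩ := hc
        have hu0 : 0 < p.1 := by linarith
        have hggu := gg_mono H hB0 hc3.le
        have hbig : 3 * κ ≤ gg h h' (B x) / 2 := by linarith
        have hmain : γ + (γ + κ) ≤ w.1 * (gg h h' p.1 - (γ + κ)) / p.1 + 2 * γ := by
          have e1 : gg h h' (B x) / 2 ≤ gg h h' p.1 - (γ + κ) := by linarith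
          have e0 : 0 ≤ gg h h' (B x) / 2 := by linarith
          have hx0 : 0 < x := by linarith
          have e2 : ε1 * x * (gg h h' (B x) / 2) ≤ w.1 * (gg h h' p.1 - (γ + κ)) :=
            mul_le_mul hc2 e1 e0 h0
          have e3 : κ * p.1 ≤ ε1 * x * (gg h h' (B x) / 2) := by
            have e4 : κ * p.1 ≤ κ * (A4 * x) := mul_le_mul_of_nonneg_left hc4 hκ0
            have e5 : κ * A4 ≤ ε1 * (gg h h' (B x) / 2) := by
              have e6 : 2 * A4 * K' / ε1 * Real.log x = 2 * (κ * A4) / ε1 := by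
                rw [hκ]; ring
              rw [e6, div_le_iff₀ hε1] at hg
              linarith
            calc κ * p.1 ≤ κ * (A4 * x) := e4
              _ = (κ * A4) * x := by ring
              _ ≤ (ε1 * (gg h h' (B x) / 2)) * x := mul_le_mul_of_nonneg_right e5 hx0.le
              _ = ε1 * x * (gg h h' (B x) / 2) := by ring
          have e7 : κ ≤ w.1 * (gg h h' p.1 - (γ + κ)) / p.1 := by
            rw [le_div_iff₀ hu0]
            linarith
          linarith
        have hJc := J_comb H P hD (B := B x) (u := p.1) (t := p.2) (s := γ + κ) (γ := γ)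
          (g1 := γ + κ) (g2 := 2 * γ) (g1' := γ) (g2' := 2 * γ) (w := w) hB0
          (by linarith) hc3.le hp.2 h0 h1 (by linarith) hmain (by linarith)
        have hmem : p.1 ∈ Set.Iic (x ^ 2) := by
          rw [Set.mem_Iic]
          have : A4 * x ≤ x * x := mul_le_mul_of_nonneg_right hxA4 (by linarith)
          nlinarith
        rw [one_mul, Set.indicator_of_mem hmem, one_mul]
        refine hJc.trans (le_of_eq ?_)
        rw [← mul_assoc, ← ENNReal.ofReal_mul (Real.exp_pos _).le, ← Real.exp_add, sub_eq_add_neg]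
      · rw [zero_mul]
        exact zero_le
    have hfm : Measurable (fun s : ℝ => (Set.Iic (x ^ 2)).indicator (fun _ => (1 : ℝ≥0∞)) s *
        ENNReal.ofReal (Real.exp (h s))) := by
      refine Measurable.mul (measurable_const.indicator measurableSet_Iic) ?_
      exact ENNReal.measurable_ofReal.comp (Real.measurable_exp.comp H.cont.measurable)
    refine (lintegral_mono_ae hpt).trans ?_
    have e1 : ∀ cc : ℝ≥0∞, ∫⁻ p : ℝ × ℝ, ((Set.Iic (x ^ 2)).indicator (fun _ => (1 : ℝ≥0∞)) p.1 *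
          ENNReal.ofReal (Real.exp (h p.1))) * cc ∂(μ.prod ν) =
        (∫⁻ p : ℝ × ℝ, (Set.Iic (x ^ 2)).indicator (fun _ => (1 : ℝ≥0∞)) p.1 *
          ENNReal.ofReal (Real.exp (h p.1)) ∂(μ.prod ν)) * cc := fun cc =>
      lintegral_mul_const cc (hfm.comp measurable_fst)
    have e2 : ∫⁻ p : ℝ × ℝ, (Set.Iic (x ^ 2)).indicator (fun _ => (1 : ℝ≥0∞)) p.1 *
          ENNReal.ofReal (Real.exp (h p.1)) ∂(μ.prod ν) =
        ∫⁻ s, (Set.Iic (x ^ 2)).indicator (fun _ => (1 : ℝ≥0∞)) s *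
          ENNReal.ofReal (Real.exp (h s)) ∂μ :=
      (measurePreserving_fst (μ := μ) (ν := ν)).lintegral_comp hfm
    rw [e1, e2]
    refine (mul_le_mul' hx.my le_rfl).trans (le_of_eq ?_)
    rw [← mul_assoc, ← ENNReal.ofReal_mul (by positivity)]
  -- weights, potentials, constants
  obtain ⟨a, ha⟩ : ∃ a : ℕ → ℝ × ℝ → ℝ × ℝ → ℝ≥0∞, a = fun i w p =>
      if i = 0 then enW (x ^ 2) (v x) w p
      else if i = n1 + 1 then
        (if v x < w.2 ∧ ε1 * x ≤ w.1 ∧ B x < p.1 ∧ p.1 ≤ A4 * x then (1 : ℝ≥0∞) else 0)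
      else smZ (B x) (v x) (x ^ 2) w p := ⟨_, rfl⟩
  obtain ⟨U, hU⟩ : ∃ U : ℕ → ℝ × ℝ → ℝ≥0∞, U = fun i =>
      if i = 0 then EP h β (4 * C) θ0
      else if i ≤ n1 + 1 then UU h β (4 * C) θ0 (γ + κ) (2 * γ) (B x)
      else UU h β (4 * C) θ0 γ (2 * γ) (B x) := ⟨_, rfl⟩
  obtain ⟨k, hk⟩ : ∃ k : ℕ → ℝ≥0∞, k = fun i =>
      if i = 0 then ENNReal.ofReal (x ^ 3 * Real.exp (-(min (γ + κ) (2 * γ))))
      else if i = n1 + 1 then ENNReal.ofReal (x ^ 3 * Real.exp (-γ)) else 1 := ⟨_, rfl⟩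
  have ha0 : ∀ w p, a 0 w p = enW (x ^ 2) (v x) w p := by intro w p; rw [ha]; rfl
  have ha1 : ∀ w p, a (n1 + 1) w p =
      (if v x < w.2 ∧ ε1 * x ≤ w.1 ∧ B x < p.1 ∧ p.1 ≤ A4 * x then (1 : ℝ≥0∞) else 0) := by
    intro w p
    rw [ha]
    show (if n1 + 1 = 0 then _ else _) = _
    rw [if_neg (by omega), if_pos rfl]
  have ha2 : ∀ i, i ≠ 0 → i ≠ n1 + 1 → ∀ w p, a i w p = smZ (B x) (v x) (x ^ 2) w p := by
    intro i hi0 hi1 w p
    rw [ha]
    show (if i = 0 then _ else _) = _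
    rw [if_neg hi0, if_neg hi1]
  have hU0 : U 0 = EP h β (4 * C) θ0 := by rw [hU]; rfl
  have hU1 : ∀ i, i ≠ 0 → i ≤ n1 + 1 → U i = UU h β (4 * C) θ0 (γ + κ) (2 * γ) (B x) := by
    intro i hi0 hi1
    rw [hU]
    show (if i = 0 then _ else _) = _
    rw [if_neg hi0, if_pos hi1]
  have hU2 : ∀ i, n1 + 1 < i → U i = UU h β (4 * C) θ0 γ (2 * γ) (B x) := by
    intro i hi1
    rw [hU]
    show (if i = 0 then _ else _) = _
    rw [if_neg (by omega), if_neg (by omega)]
  have hk0 : k 0 = ENNReal.ofReal (x ^ 3 * Real.exp (-(min (γ + κ) (2 * γ)))) := by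
    rw [hk]; rfl
  have hk1 : k (n1 + 1) = ENNReal.ofReal (x ^ 3 * Real.exp (-γ)) := by
    rw [hk]
    show (if n1 + 1 = 0 then _ else _) = _
    rw [if_neg (by omega), if_pos rfl]
  have hk2 : ∀ i, i ≠ 0 → i ≠ n1 + 1 → k i = 1 := by
    intro i hi0 hi1
    rw [hk]
    show (if i = 0 then _ else _) = _
    rw [if_neg hi0, if_neg hi1]
  -- the event
  have hmA : MeasurableSet (Ctwo x (v x) (B x) (x ^ 2) n1 n2 ∩
      {q | q ∉ Top (A4 * x) (n1 + n2 + 2) ∧ ε1 * x ≤ (pIter q.1 q.2 (n1 + 1)).1}) := by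
    refine (measurableSet_Ctwo _ _ _ _ _ _).inter ?_
    refine (measurableSet_Top (A4 * x) (n1 + n2 + 2)).compl.inter ?_
    exact measurableSet_le measurable_const (measurable_pIter (n1 + 1)).fst
  have hpe := path_event hπ hmA (v := v x) (fun q hq => hq.1.1.2.1) (n1 + n2 + 2)
    (a := a) (U := U) (k := k)
    (L := ENNReal.ofReal (min (Real.exp (RR h β θ0 x - γ)) (Real.exp (2 * h x - 2 * γ))))
    ?_ ?_ ?_ ?_ ?_
  · rw [hU0] at hpe
    have hprod : ∏ i ∈ Finset.range (n1 + n2 + 2), k i =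
        ENNReal.ofReal (x ^ 3 * Real.exp (-(min (γ + κ) (2 * γ)))) *
          ENNReal.ofReal (x ^ 3 * Real.exp (-γ)) := by
      rw [hk]
      exact KillAB_prod _ _ (by omega)
    have hfin := KillAB_fin (hpe.trans (mul_le_mul' hprod.le (hx.mom π hπ)))
    refine hfin.trans ?_
    rw [hmin]
    have hKl : 10 * Real.log x + KA * Real.log x - κ ≤ -K * Real.log x := by
      have e1 : κ = |K| * Real.log x + KA * Real.log x + 10 * Real.log x := by
        rw [hκ, hK']; ring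
      have e2 : -(|K|) * Real.log x ≤ -K * Real.log x :=
        mul_le_mul_of_nonneg_right (neg_le_neg (le_abs_self K)) hlog
      linarith
    refine KillAB_alg (by linarith) ?_ ?_ <;> linarith
  · -- measurability of the weights
    intro i
    by_cases hi0 : i = 0
    · subst hi0
      simp only [ha0]
      exact measurable_enW _ _
    · by_cases hi1 : i = n1 + 1
      · subst hi1
        simp only [ha1]
        exact KillAB_meas _ _ _ _
      · simp only [ha2 i hi0 hi1]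
        exact measurable_smZ _ _ _
  · intro i
    by_cases hi0 : i = 0
    · subst hi0
      rw [hU0]
      exact measurable_EP H β _ _
    · by_cases hi1 : i ≤ n1 + 1
      · rw [hU1 i hi0 hi1]
        exact measurable_UU H β _ _ _ _ _
      · rw [hU2 i (by omega)]
        exact measurable_UU H β _ _ _ _ _
  · rw [hk0]
    have : 0 < x ^ 3 * Real.exp (-(min (γ + κ) (2 * γ))) := by positivity
    exact (ENNReal.ofReal_pos.2 this).ne'
  · intro i hi w h0 h1 hv0
    by_cases hi0 : i = 0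
    · subst hi0
      simp only [ha0]
      rw [hU0, hk0, hU1 (0 + 1) (by omega) (by omega)]
      exact hx.ent (γ + κ) (2 * γ) w h0 h1 (hv0 rfl)
    · by_cases hi1 : i = n1 + 1
      · subst hi1
        simp only [ha1]
        rw [hk1, hU1 (n1 + 1) (by omega) le_rfl, hU2 (n1 + 1 + 1) (by omega)]
        exact hJ w h0 h1
      · simp only [ha2 i hi0 hi1]
        rw [hk2 i hi0 hi1, one_mul]
        by_cases hi2 : i ≤ n1
        · rw [hU1 i hi0 (by omega), hU1 (i + 1) (by omega) (by omega)]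
          exact hx.sm (γ + κ) (2 * γ) (x ^ 2) w (by linarith) h0 h1
        · rw [hU2 i (by omega), hU2 (i + 1) (by omega)]
          exact hx.sm γ (2 * γ) (x ^ 2) w (by linarith) h0 h1
  · rintro q ⟨⟨⟨hOk, hqv, hst, hxw⟩, htb⟩, hTop, hq3⟩
    obtain ⟨hb0, hb1, hb2, hb3⟩ := htb
    have hnTop : ∀ k < n1 + n2 + 2, (pIter q.1 q.2 (k + 1)).2 ≤ A4 * x ∧ (q.2 k).1 ≤ A4 * x := by
      intro k hk
      by_contra hcon
      apply hTop
      refine ⟨k, hk, ?_⟩
      rw [not_and_or, not_le, not_le] at hcon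
      exact hcon
    have hone : ∏ i ∈ Finset.range (n1 + n2 + 2), a i (pIter q.1 q.2 i) (q.2 i) = 1 := by
      refine Finset.prod_eq_one fun i hi => ?_
      rw [Finset.mem_range] at hi
      by_cases hi0 : i = 0
      · subst hi0
        rw [ha0]
        unfold enW
        rw [if_pos]
        exact ⟨(hst 0 (by omega)).2.2, (hst 0 (by omega)).1⟩
      · have hs := hst (i - 1) (by omega)
        rw [Nat.sub_add_cancel (Nat.one_le_iff_ne_zero.2 hi0)] at hs
        by_cases hi1 : i = n1 + 1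
        · subst hi1
          rw [ha1, if_pos]
          exact ⟨hs.1, hq3, hb2, (hnTop (n1 + 1) hi).2⟩
        · rw [ha2 i hi0 hi1]
          unfold smZ
          rw [if_pos]
          refine ⟨hs.1, hs.2.1, ?_⟩
          by_cases hi2 : i ≤ n1
          · have := hb1 (i - 1) (by omega)
            rwa [Nat.sub_add_cancel (Nat.one_le_iff_ne_zero.2 hi0)] at this
          · have := hb3 (i - (n1 + 2)) (by omega)
            have e : n1 + (i - (n1 + 2) + 1) + 1 = i := by omega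
            rwa [e] at this
    rw [hone, one_mul, hU2 (n1 + n2 + 2) (by omega)]
    exact UU_ge_final H P hD (by linarith) hxw.le (KillAB_ord hOk _).2

/-- **Many small jobs after the second nonsmall job.** -/
theorem kill_beta (S : StdC μ ν h h') (T : Thr h h' B v) {β : ℝ → ℝ} {θ0 c C : ℝ}
    (P : Pot μ ν h β θ0 c C 0) {ε2 A4 : ℝ} (hε2 : 0 < ε2) (hA4 : 1 ≤ A4) (K : ℝ) :
    ∀ᶠ x : ℝ in atTop, ∀ π : Measure (ℝ × ℝ), IsStationaryKW μ ν π → ∀ n1 n2 : ℕ,
      n1 + n2 + 2 ≤ ⌈x ^ 20⌉₊ → ε2 * x ≤ n2 →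
      (π.prod (noise μ ν)) (Ctwo x (v x) (B x) (x ^ 2) n1 n2 ∩
        {q | q ∉ Top (A4 * x) (n1 + n2 + 2)}) ≤
        ENNReal.ofReal (x ^ (-K) *
          (Real.exp (-(RR h β θ0 x)) + Real.exp (-(2 * h x)))) := by
  have H := S.haz
  obtain ⟨KA, cW, hKA, hcW, hpath⟩ := path_consts S T P (D := 4 * C) le_rfl
  obtain ⟨K', hK'⟩ : ∃ K' : ℝ, K' = |K| + KA + 10 := ⟨_, rfl⟩
  have hK'0 : 0 < K' := by
    have := abs_nonneg K
    linarith
  have hC : 0 ≤ C := by
    have := P.pC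
    have := P.pc
    linarith
  filter_upwards [hpath K' hK'0.le, T.g (A4 * K' / (ε2 * cW)),
    eventually_ge_atTop (2 : ℝ)] with x hx hg hx2 π hπ n1 n2 hn hn2
  have hx0 : 0 < x := by linarith
  have hlog : 0 ≤ Real.log x := Real.log_nonneg (by linarith)
  obtain ⟨γ, hγ⟩ : ∃ γ : ℝ, γ = K' * Real.log x := ⟨_, rfl⟩
  rw [← hγ] at hx
  have hγ0 : 0 ≤ γ := hx.hγ
  have hD : 0 ≤ 4 * C := by linarith
  have hn2pos : (0 : ℝ) < n2 := lt_of_lt_of_le (mul_pos hε2 hx0) hn2
  have hmin : min γ (2 * γ) = γ := min_eq_left (by linarith)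
  obtain ⟨r, hr⟩ : ∃ r : ℝ, r = γ / n2 := ⟨_, rfl⟩
  have hr0 : 0 ≤ r := by rw [hr]; positivity
  have hrn : r * n2 = γ := by rw [hr]; field_simp
  have hrZ : r * (A4 * x) ≤ cW * gg h h' (B x) := by
    have e1 : r * (A4 * x) ≤ γ / (ε2 * x) * (A4 * x) := by
      refine mul_le_mul_of_nonneg_right ?_ (by positivity)
      rw [hr]
      exact div_le_div_of_nonneg_left hγ0 (mul_pos hε2 hx0) hn2
    have e2 : γ / (ε2 * x) * (A4 * x) = γ * A4 / ε2 := by
      field_simp
    have e3 : A4 * K' / (ε2 * cW) * Real.log x = (γ * A4 / ε2) / cW := by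
      rw [hγ]
      field_simp
    rw [e3, div_le_iff₀ hcW] at hg
    rw [e2] at e1
    linarith
  -- weights, potentials, constants
  obtain ⟨a, ha⟩ : ∃ a : ℕ → ℝ × ℝ → ℝ × ℝ → ℝ≥0∞, a = fun i w p =>
      if i = 0 then enW (x ^ 2) (v x) w p
      else if i = n1 + 1 then bgZ (B x) (x ^ 2) (v x) (x ^ 2) w p
      else if i ≤ n1 then smZ (B x) (v x) (x ^ 2) w p
      else smZ (B x) (v x) (A4 * x) w p := ⟨_, rfl⟩
  obtain ⟨U, hU⟩ : ∃ U : ℕ → ℝ × ℝ → ℝ≥0∞, U = fun i =>
      if i = 0 then EP h β (4 * C) θ0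
      else if i ≤ n1 + 1 then UU h β (4 * C) θ0 γ (2 * γ) (B x)
      else UU h β (4 * C) θ0 γ (2 * γ - r * ((i - (n1 + 2) : ℕ) : ℝ)) (B x) := ⟨_, rfl⟩
  obtain ⟨k, hk⟩ : ∃ k : ℕ → ℝ≥0∞, k = fun i =>
      if i = 0 then ENNReal.ofReal (x ^ 3 * Real.exp (-(min γ (2 * γ))))
      else if i = n1 + 1 then ENNReal.ofReal (x ^ 3 * Real.exp (-γ)) else 1 := ⟨_, rfl⟩
  have ha0 : ∀ w p, a 0 w p = enW (x ^ 2) (v x) w p := by intro w p; rw [ha]; rfl
  have ha1 : ∀ w p, a (n1 + 1) w p = bgZ (B x) (x ^ 2) (v x) (x ^ 2) w p := by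
    intro w p
    rw [ha]
    show (if n1 + 1 = 0 then _ else _) = _
    rw [if_neg (by omega), if_pos rfl]
  have ha2 : ∀ i, i ≠ 0 → i ≤ n1 → ∀ w p, a i w p = smZ (B x) (v x) (x ^ 2) w p := by
    intro i hi0 hi1 w p
    rw [ha]
    show (if i = 0 then _ else _) = _
    rw [if_neg hi0, if_neg (by omega), if_pos hi1]
  have ha3 : ∀ i, n1 + 1 < i → ∀ w p, a i w p = smZ (B x) (v x) (A4 * x) w p := by
    intro i hi1 w p
    rw [ha]
    show (if i = 0 then _ else _) = _
    rw [if_neg (by omega), if_neg (by omega), if_neg (by omega)]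
  have hU0 : U 0 = EP h β (4 * C) θ0 := by rw [hU]; rfl
  have hU1 : ∀ i, i ≠ 0 → i ≤ n1 + 1 → U i = UU h β (4 * C) θ0 γ (2 * γ) (B x) := by
    intro i hi0 hi1
    rw [hU]
    show (if i = 0 then _ else _) = _
    rw [if_neg hi0, if_pos hi1]
  have hU2 : ∀ i, n1 + 1 < i → U i =
      UU h β (4 * C) θ0 γ (2 * γ - r * ((i - (n1 + 2) : ℕ) : ℝ)) (B x) := by
    intro i hi1
    rw [hU]
    show (if i = 0 then _ else _) = _
    rw [if_neg (by omega), if_neg (by omega)]
  have hk0 : k 0 = ENNReal.ofReal (x ^ 3 * Real.exp (-(min γ (2 * γ)))) := by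
    rw [hk]; rfl
  have hk1 : k (n1 + 1) = ENNReal.ofReal (x ^ 3 * Real.exp (-γ)) := by
    rw [hk]
    show (if n1 + 1 = 0 then _ else _) = _
    rw [if_neg (by omega), if_pos rfl]
  have hk2 : ∀ i, i ≠ 0 → i ≠ n1 + 1 → k i = 1 := by
    intro i hi0 hi1
    rw [hk]
    show (if i = 0 then _ else _) = _
    rw [if_neg hi0, if_neg hi1]
  -- the event
  have hmA : MeasurableSet (Ctwo x (v x) (B x) (x ^ 2) n1 n2 ∩
      {q | q ∉ Top (A4 * x) (n1 + n2 + 2)}) :=
    (measurableSet_Ctwo _ _ _ _ _ _).inter (measurableSet_Top (A4 * x) (n1 + n2 + 2)).compl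
  have hpe := path_event hπ hmA (v := v x) (fun q hq => hq.1.1.2.1) (n1 + n2 + 2)
    (a := a) (U := U) (k := k)
    (L := ENNReal.ofReal (min (Real.exp (RR h β θ0 x - γ)) (Real.exp (2 * h x - γ))))
    ?_ ?_ ?_ ?_ ?_
  · rw [hU0] at hpe
    have hprod : ∏ i ∈ Finset.range (n1 + n2 + 2), k i =
        ENNReal.ofReal (x ^ 3 * Real.exp (-(min γ (2 * γ)))) *
          ENNReal.ofReal (x ^ 3 * Real.exp (-γ)) := by
      rw [hk]
      exact KillAB_prod _ _ (by omega)
    have hfin := KillAB_fin (hpe.trans (mul_le_mul' hprod.le (hx.mom π hπ)))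
    refine hfin.trans ?_
    rw [hmin]
    have hKl : 10 * Real.log x + KA * Real.log x - γ ≤ -K * Real.log x := by
      have e1 : γ = |K| * Real.log x + KA * Real.log x + 10 * Real.log x := by
        rw [hγ, hK']; ring
      have e2 : -(|K|) * Real.log x ≤ -K * Real.log x :=
        mul_le_mul_of_nonneg_right (neg_le_neg (le_abs_self K)) hlog
      linarith
    refine KillAB_alg (by linarith) ?_ ?_ <;> linarith
  · -- measurability of the weights
    intro i
    by_cases hi0 : i = 0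
    · subst hi0
      simp only [ha0]
      exact measurable_enW _ _
    · by_cases hi1 : i = n1 + 1
      · subst hi1
        simp only [ha1]
        exact measurable_bgZ _ _ _ _
      · by_cases hi2 : i ≤ n1
        · simp only [ha2 i hi0 hi2]
          exact measurable_smZ _ _ _
        · simp only [ha3 i (by omega)]
          exact measurable_smZ _ _ _
  · intro i
    by_cases hi0 : i = 0
    · subst hi0
      rw [hU0]
      exact measurable_EP H β _ _
    · by_cases hi1 : i ≤ n1 + 1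
      · rw [hU1 i hi0 hi1]
        exact measurable_UU H β _ _ _ _ _
      · rw [hU2 i (by omega)]
        exact measurable_UU H β _ _ _ _ _
  · rw [hk0]
    have : 0 < x ^ 3 * Real.exp (-(min γ (2 * γ))) := by positivity
    exact (ENNReal.ofReal_pos.2 this).ne'
  · intro i hi w h0 h1 hv0
    by_cases hi0 : i = 0
    · subst hi0
      simp only [ha0]
      rw [hU0, hk0, hU1 (0 + 1) (by omega) (by omega)]
      exact hx.ent γ (2 * γ) w h0 h1 (hv0 rfl)
    · by_cases hi1 : i = n1 + 1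
      · subst hi1
        simp only [ha1]
        rw [hk1, hU1 (n1 + 1) (by omega) le_rfl, hU2 (n1 + 1 + 1) (by omega)]
        have e : n1 + 1 + 1 - (n1 + 2) = 0 := by omega
        rw [e, Nat.cast_zero, mul_zero, sub_zero]
        exact hx.bg (x ^ 2) w h0 h1
      · rw [hk2 i hi0 hi1, one_mul]
        by_cases hi2 : i ≤ n1
        · simp only [ha2 i hi0 hi2]
          rw [hU1 i hi0 (by omega), hU1 (i + 1) (by omega) (by omega)]
          exact hx.sm γ (2 * γ) (x ^ 2) w (by linarith) h0 h1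
        · simp only [ha3 i (by omega)]
          rw [hU2 i (by omega), hU2 (i + 1) (by omega)]
          have e : i + 1 - (n1 + 2) = (i - (n1 + 2)) + 1 := by omega
          have e' : 2 * γ - r * ((i + 1 - (n1 + 2) : ℕ) : ℝ) =
              (2 * γ - r * ((i - (n1 + 2) : ℕ) : ℝ)) - r := by
            rw [e]
            push_cast
            ring
          rw [e']
          have hrj : 0 ≤ r * ((i - (n1 + 2) : ℕ) : ℝ) := by positivity
          exact hx.smr γ _ r (A4 * x) w (by linarith) hr0 hrZ h0 h1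
  · rintro q ⟨⟨⟨hOk, hqv, hst, hxw⟩, htb⟩, hTop⟩
    obtain ⟨hb0, hb1, hb2, hb3⟩ := htb
    have hnTop : ∀ k < n1 + n2 + 2, (pIter q.1 q.2 (k + 1)).2 ≤ A4 * x ∧ (q.2 k).1 ≤ A4 * x := by
      intro k hk
      by_contra hcon
      apply hTop
      refine ⟨k, hk, ?_⟩
      rw [not_and_or, not_le, not_le] at hcon
      exact hcon
    have hone : ∏ i ∈ Finset.range (n1 + n2 + 2), a i (pIter q.1 q.2 i) (q.2 i) = 1 := by
      refine Finset.prod_eq_one fun i hi => ?_
      rw [Finset.mem_range] at hi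
      by_cases hi0 : i = 0
      · subst hi0
        rw [ha0]
        unfold enW
        rw [if_pos]
        exact ⟨(hst 0 (by omega)).2.2, (hst 0 (by omega)).1⟩
      · have hs := hst (i - 1) (by omega)
        have hs' := (hnTop (i - 1) (by omega)).1
        rw [Nat.sub_add_cancel (Nat.one_le_iff_ne_zero.2 hi0)] at hs hs'
        by_cases hi1 : i = n1 + 1
        · subst hi1
          rw [ha1]
          unfold bgZ
          rw [if_pos]
          exact ⟨hs.1, hs.2.1, hb2, (hst (n1 + 1) hi).2.2⟩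
        · by_cases hi2 : i ≤ n1
          · rw [ha2 i hi0 hi2]
            unfold smZ
            rw [if_pos]
            refine ⟨hs.1, hs.2.1, ?_⟩
            have := hb1 (i - 1) (by omega)
            rwa [Nat.sub_add_cancel (Nat.one_le_iff_ne_zero.2 hi0)] at this
          · rw [ha3 i (by omega)]
            unfold smZ
            rw [if_pos]
            refine ⟨hs.1, hs', ?_⟩
            have := hb3 (i - (n1 + 2)) (by omega)
            have e : n1 + (i - (n1 + 2) + 1) + 1 = i := by omega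
            rwa [e] at this
    rw [hone, one_mul, hU2 (n1 + n2 + 2) (by omega)]
    have e : n1 + n2 + 2 - (n1 + 2) = n2 := by omega
    have e2 : 2 * γ - r * ((n1 + n2 + 2 - (n1 + 2) : ℕ) : ℝ) = γ := by
      rw [e, hrn]
      ring
    rw [e2]
    exact UU_ge_final H P hD hx0.le hxw.le (KillAB_ord hOk _).2

end Pool.Agent.Lib.MP_04add8_pr.Cv
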