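import Mathlib
import Pool.Agent.Lib.MP_04add8_pr.Cv.KillTop
import Pool.Agent.Lib.MP_04add8_pr.Cv.JComb
import Pool.Agent.Lib.MP_04add8_pr.Cv.PotE
import Pool.Agent.Lib.MP_04add8_pr.Cv.VOne
import Pool.Agent.Lib.MP_04add8_pr.Cv.Det

/-!
**Proof.** `D = 4 C`, `H = S.haz`, `y = pIter q.1 q.2 (n1 + 1)` the state before the second nonsmall job. Let `ε9 = ε1` be the
constant of `pot_slack` (potential `β' = (1 - ε9) β`, `c/2`, `e' = κe ε9`), and `c1 = min (1/4) (κe / (2 C))`. `path_consts` with `K0 = 0`,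
so `γ = 0` (the potentials are `UU 0 0`).
*No swap.* On the event, `y₂ - y₁ ≥ x/2 - x/4 > B`, and the jobs of the steps `1, …, n1` are `≤ B`: by `no_swap` from `w(1)`,
`x/2 ≤ y₂ ≤ w₂(k) ≤ w₂(1)` for `1 ≤ k ≤ n1 + 1`; moreover `w₂(1) ≤ A4 x` (not in `Top`).
*First job.* `w = q.1`, `u = (q.2 0).1 ∈ (B, A4 x]`, `w(1) = kwStep w u t`. As `w₂ ≤ v ≤ x/8 < x/2 ≤ w₂(1)`: `w₂(1) = (w₁+u-t)^+ ≤ w₁ + u`,
`w₁(1) ≤ w₂`, and `u ≥ x/2 - v ≥ x/4`. Put `θ = h' (w₂(1))`, so `h' (A4 x) ≤ θ ≤ h' (x/2) ≤ θ0`.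
*Path from `w(1)`* (fixed; so `θ` is a constant), `path_bound` for the `n1 + 1 + n2` steps after `w(1)`, steps numbered `j = 0, 1, …`:
for `j < n1`: `U_j w' = ofReal (e^{hG θ} HF (β' θ) D θ w')`, `a_j w' p = 1{x/2 ≤ w'₂, p.1 ≤ B}`, `k_j = ofReal (1 - e' θ)`: this is `V_one`
 with `e = e'`; its hypotheses: `Pot.low/up/lapl` for `β'`, `Tilt h (C θ) B` (`Thr.tilt`, since `h' (x/2) ≤ h' (v)`), `C8 ≤ θ w'₂`
 (`θ w'₂ ≥ h' (A4 x) x/2 ≥ c' x h' x → ∞`, `H.doubling`);
`j = n1`: `a w' p = 1{w'₁ ≤ c1 ε2 x, v < w'₂, B < p.1 ≤ x²}`, `U_{n1+1} = UU 0 0 B`, `k_{n1} = ofReal (x³ e^{ε9 C θ c1 ε2 x})`: `bg` gives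
 `∫ a UU(w'') ≤ x³ UU 0 0 (w')`, `UU 0 0 w' ≤ VV w' ≤ ofReal (cT θ w')` (`VV_le`), and `HF (β θ) D θ w' ≤ e^{ε9 β θ w'₁} HF (β' θ) D θ w'`;
`j > n1`: `a = smZ B v (x²)`, `U = UU 0 0 B`, `k = 1` (`sm`).
Final value `≥ min (e^{RR x}) (e^{2 h x})` (`UU_ge_final`). Hence, given `w(1)`, the probability is at most
 `(e^{-RR} + e^{-2h}) x³ e^{ε9 C θ c1 ε2 x} (1 - e' θ)^{n1} e^{hG θ} HF (β' θ) D θ (w(1))`, and
 `(1 - e' θ)^{n1} ≤ e^{-κe ε9 θ n1}`, `ε9 C θ c1 ε2 x ≤ κe ε9 θ n1 / 2` (`ε2 x ≤ n1`), so the product of the two exponentials is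
 `≤ e^{-κe ε9 θ ε2 x / 2} ≤ e^{-c'' K3 log x} = x^{-c'' K3}`, because `θ x ≥ h' (A4 x) x ≥ A4^{-C'} x h' x ≥ A4^{-C'} K3 log x`.
*First job again.* `e^{hG θ} HF (β' θ) D θ (w(1)) ≤ e^{h (w₂(1))} (e^{β θ w₁(1)} + D)` (`hG_at`) `≤ (1 + D) e^{h u + h' u w₁ + C h' (x/2) w₂}`
 `≤ (1 + D) e^{h u} e^{K'' h' x w₂} ≤ (1 + D) e^{h u} e^{h w₂} ≤ (1+D) e^{h u} EP w` (tangent at `u`, `h' u ≤ h' (x/4) ≤ C' h' x` by `H.div_le`,
 `Thr.lin_le`, `EP_ge`). Integrate over the first job with `my` (`≤ x³`) and over `w` with `mom` (`≤ x^KA`).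
Total `≤ x^{KA + 7 - c'' K3} (e^{-RR} + e^{-2h})`; choose `K3 = (K + KA + 7)/c''`.
(The integral over the first step and the path bound for the rest can be combined with `lintegral_noise_cons` and `pIter_gcons`.)
-/

open MeasureTheory ProbabilityTheory Filter Topology
open scoped ENNReal

set_option linter.unusedSectionVars false

namespace Pool.Agent.Lib.MP_04add8_pr.Cv

open Pool.Agent.Lib.MP_04add8_pr.Gen

variable {h h' : ℝ → ℝ} {μ ν : Measure ℝ} [IsProbabilityMeasure μ]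
  [IsProbabilityMeasure ν]

variable {B v : ℝ → ℝ}

/-- the weight of a small job in the first phase -/
private noncomputable def KillGam_gA (a b : ℝ) (w p : ℝ × ℝ) : ℝ≥0∞ :=
  if a ≤ w.2 ∧ p.1 ≤ b then 1 else 0

/-- the weight of the second nonsmall job -/
private noncomputable def KillGam_gB (m B J v Z : ℝ) (w p : ℝ × ℝ) : ℝ≥0∞ :=
  if w.1 ≤ m then bgZ B J v Z w p else 0

private theorem KillGam_gA_meas (a b : ℝ) :
    Measurable (fun q : (ℝ × ℝ) × (ℝ × ℝ) => KillGam_gA a b q.1 q.2) := by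
  unfold KillGam_gA
  refine Measurable.ite ?_ measurable_const measurable_const
  have h1 : MeasurableSet {q : (ℝ × ℝ) × (ℝ × ℝ) | a ≤ q.1.2} :=
    measurableSet_le measurable_const (measurable_snd.comp measurable_fst)
  have h2 : MeasurableSet {q : (ℝ × ℝ) × (ℝ × ℝ) | q.2.1 ≤ b} :=
    measurableSet_le (measurable_fst.comp measurable_snd) measurable_const
  exact h1.inter h2

private theorem KillGam_gB_meas (m B J v Z : ℝ) :
    Measurable (fun q : (ℝ × ℝ) × (ℝ × ℝ) => KillGam_gB m B J v Z q.1 q.2) := by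
  unfold KillGam_gB
  refine Measurable.ite ?_ (measurable_bgZ B J v Z) measurable_const
  exact measurableSet_le (measurable_fst.comp measurable_fst) measurable_const

/-- the weights along the path -/
private noncomputable def KillGam_a (x m B v : ℝ) (n1 : ℕ) (j : ℕ) (w p : ℝ × ℝ) : ℝ≥0∞ :=
  if j < n1 then KillGam_gA (x / 2) B w p else
    if j = n1 then KillGam_gB m B (x ^ 2) v (x ^ 2) w p else smZ B v (x ^ 2) w p

private theorem KillGam_a_meas (x m B v : ℝ) (n1 : ℕ) (j : ℕ) :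
    Measurable (fun q : (ℝ × ℝ) × (ℝ × ℝ) => KillGam_a x m B v n1 j q.1 q.2) := by
  unfold KillGam_a
  by_cases h1 : j < n1
  · simp only [h1, if_true]
    exact KillGam_gA_meas _ _
  · by_cases h2 : j = n1
    · subst h2
      simp only [lt_irrefl, if_false, if_true]
      exact KillGam_gB_meas _ _ _ _ _
    · simp only [h1, h2, if_false]
      exact measurable_smZ _ _ _

/-- the potentials along the path -/
private noncomputable def KillGam_U (h β : ℝ → ℝ) (b D θ θ0 B : ℝ) (n1 : ℕ) (j : ℕ)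
    (w : ℝ × ℝ) : ℝ≥0∞ :=
  if j ≤ n1 then ENNReal.ofReal (Real.exp (hG h θ) * HF b D θ w) else UU h β D θ0 0 0 B w

private theorem KillGam_U_meas (H : HazC h h') (β : ℝ → ℝ) (b D θ θ0 B : ℝ) (n1 : ℕ) (j : ℕ) :
    Measurable (KillGam_U h β b D θ θ0 B n1 j) := by
  by_cases h1 : j ≤ n1
  · have : KillGam_U h β b D θ θ0 B n1 j =
        fun w => ENNReal.ofReal (Real.exp (hG h θ) * HF b D θ w) := by
      funext w
      simp only [KillGam_U, h1, if_true]
    rw [this]
    unfold HF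
    fun_prop
  · have : KillGam_U h β b D θ θ0 B n1 j = UU h β D θ0 0 0 B := by
      funext w
      simp only [KillGam_U, h1, if_false]
    rw [this]
    exact measurable_UU H _ _ _ _ _ _

private theorem KillGam_HF_nonneg {b D θ : ℝ} (hD : 0 ≤ D) (w : ℝ × ℝ) : 0 ≤ HF b D θ w := by
  unfold HF
  positivity

/-- comparison of the two slopes -/
private theorem KillGam_HF_slack {b ε D θ m G : ℝ} (hD : 0 ≤ D) (hε : 0 ≤ ε) (hb : 0 ≤ b)
    {w : ℝ × ℝ} (h0 : 0 ≤ w.1) (hm : w.1 ≤ m) (hG' : ε * (b * m) ≤ G) :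
    HF b D θ w ≤ Real.exp G * HF ((1 - ε) * b) D θ w := by
  unfold HF
  have h1 : b * w.1 ≤ G + (1 - ε) * b * w.1 := by
    have h2 : b * w.1 ≤ b * m := mul_le_mul_of_nonneg_left hm hb
    have h3 : ε * (b * w.1) ≤ ε * (b * m) := mul_le_mul_of_nonneg_left h2 hε
    nlinarith
  have hG0 : 0 ≤ G := by
    have h2 : 0 ≤ b * m := mul_nonneg hb (h0.trans hm)
    exact (mul_nonneg hε h2).trans hG'
  have h4 : Real.exp (b * w.1) ≤ Real.exp G * Real.exp ((1 - ε) * b * w.1) := by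
    rw [← Real.exp_add]
    exact Real.exp_le_exp.2 h1
  have h5 : D ≤ Real.exp G * D := by
    have := Real.one_le_exp hG0
    nlinarith
  calc Real.exp (θ * w.2) * (Real.exp (b * w.1) + D)
      ≤ Real.exp (θ * w.2) * (Real.exp G * Real.exp ((1 - ε) * b * w.1) + Real.exp G * D) := by
        gcongr
    _ = _ := by ring

/-- the path bound from the state after the first job -/
private theorem KillGam_path (S : StdC μ ν h h') {β : ℝ → ℝ} {θ0 c C D KA cW ε e x v B θ C8 m : ℝ}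
    (P : Pot μ ν h β θ0 c C 0) (P9 : Pot μ ν h (fun θ => (1 - ε) * β θ) θ0 (c / 2) C e)
    (hε : 0 ≤ ε) (hD : 4 * C ≤ D)
    (PC : PathC μ ν h h' β D θ0 KA cW 0 x v B)
    (hV : ∀ (β θ e B : ℝ) (w : ℝ × ℝ), 0 < θ → (1 + c / 2) * θ ≤ β → β ≤ C * θ →
      0 ≤ e → 2 * (e * θ) ≤ 1 - lap ν θ → Tilt h β B →
      trPhi μ ν B β θ ≤ ENNReal.ofReal (1 - e * θ) → 0 ≤ w.1 → w.1 ≤ w.2 → C8 ≤ θ * w.2 →
      ∫⁻ p, (Set.Iic B).indicator (fun _ => (1 : ℝ≥0∞)) p.1 *
        ENNReal.ofReal (HF β D θ (kwStep w p.1 p.2)) ∂(μ.prod ν) ≤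
        ENNReal.ofReal ((1 - e * θ) * HF β D θ w))
    (hθ : 0 < θ) (hθ0 : θ ≤ θ0) (hT : Tilt h (C * θ) B) (h8 : C8 ≤ θ * (x / 2)) (hm : 0 ≤ m)
    (n1 n2 : ℕ) {w : ℝ × ℝ} (h0 : 0 ≤ w.1) (h1 : w.1 ≤ w.2) :
    ∫⁻ z, (∏ i ∈ Finset.range (n1 + 1 + n2), KillGam_a x m B v n1 i (pIter w z i) (z i)) *
        UU h β D θ0 0 0 B (pIter w z (n1 + 1 + n2)) ∂(noise μ ν) ≤
      ENNReal.ofReal (1 - e * θ) ^ n1 * ENNReal.ofReal (x ^ 3 * Real.exp (ε * (C * θ * m))) *
        ENNReal.ofReal (Real.exp (hG h θ) * HF ((1 - ε) * β θ) D θ w) := by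
  have H := S.haz
  have hc := P.pc
  have hC := P.pC
  have hD0 : 0 ≤ D := by linarith
  set b : ℝ := (1 - ε) * β θ with hb
  have hb1 : (1 + c / 2) * θ ≤ b := P9.low θ hθ hθ0
  have hb2 : b ≤ C * θ := P9.up θ hθ hθ0
  have hβ0 : 0 ≤ β θ := le_trans (by positivity) (P.low θ hθ hθ0)
  have hTb : Tilt h b B := by
    intro s hs hsB
    have := hT s hs hsB
    nlinarith
  set k : ℕ → ℝ≥0∞ := fun j => if j < n1 then ENNReal.ofReal (1 - e * θ) else
    if j = n1 then ENNReal.ofReal (x ^ 3 * Real.exp (ε * (C * θ * m))) else 1 with hk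
  have key := path_bound (μ := μ) (ν := ν) (n1 + 1 + n2)
    (a := fun j => KillGam_a x m B v n1 j) (U := KillGam_U h β b D θ θ0 B n1) (k := k)
    (KillGam_a_meas x m B v n1) (KillGam_U_meas H β b D θ θ0 B n1) ?_ w h0 h1
  · have hU1 : KillGam_U h β b D θ θ0 B n1 (n1 + 1 + n2) = UU h β D θ0 0 0 B := by
      funext w'
      have : ¬ n1 + 1 + n2 ≤ n1 := by omega
      simp only [KillGam_U, this, if_false]
    have hU0 : KillGam_U h β b D θ θ0 B n1 0 w =
        ENNReal.ofReal (Real.exp (hG h θ) * HF b D θ w) := by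
      simp only [KillGam_U, Nat.zero_le, if_true]
    have hprod : (∏ i ∈ Finset.range (n1 + 1 + n2), k i) =
        ENNReal.ofReal (1 - e * θ) ^ n1 *
          ENNReal.ofReal (x ^ 3 * Real.exp (ε * (C * θ * m))) := by
      rw [Finset.prod_range_add, Finset.prod_range_succ]
      have e1 : (∏ i ∈ Finset.range n1, k i) = ENNReal.ofReal (1 - e * θ) ^ n1 := by
        rw [Finset.prod_congr rfl (g := fun _ => ENNReal.ofReal (1 - e * θ))]
        · simp
        · intro i hi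
          simp only [hk, Finset.mem_range.1 hi, if_true]
      have e2 : k n1 = ENNReal.ofReal (x ^ 3 * Real.exp (ε * (C * θ * m))) := by
        simp only [hk, lt_irrefl, if_false, if_true]
      have e3 : (∏ i ∈ Finset.range n2, k (n1 + 1 + i)) = 1 := by
        refine Finset.prod_eq_one fun i _ => ?_
        have c1 : ¬ n1 + 1 + i < n1 := by omega
        have c2 : ¬ n1 + 1 + i = n1 := by omega
        simp only [hk, c1, c2, if_false]
      rw [e1, e2, e3, mul_one]
    rw [hU1, hU0, hprod] at key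
    exact key
  · intro i hi w' g0 g1
    rcases lt_trichotomy i n1 with hlt | heq | hgt
    · -- small jobs of the first phase
      have u1 : KillGam_U h β b D θ θ0 B n1 (i + 1) =
          fun w => ENNReal.ofReal (Real.exp (hG h θ) * HF b D θ w) := by
        funext w''
        have : i + 1 ≤ n1 := hlt
        simp only [KillGam_U, this, if_true]
      have u0 : KillGam_U h β b D θ θ0 B n1 i w' =
          ENNReal.ofReal (Real.exp (hG h θ) * HF b D θ w') := by
        have : i ≤ n1 := hlt.le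
        simp only [KillGam_U, this, if_true]
      have ki : k i = ENNReal.ofReal (1 - e * θ) := by
        simp only [hk, hlt, if_true]
      rw [u0, ki, u1]
      simp only [KillGam_a, hlt, if_true]
      by_cases hx2 : x / 2 ≤ w'.2
      · have e1 : ∀ p : ℝ × ℝ, KillGam_gA (x / 2) B w' p *
            ENNReal.ofReal (Real.exp (hG h θ) * HF b D θ (kwStep w' p.1 p.2)) =
            ENNReal.ofReal (Real.exp (hG h θ)) * ((Set.Iic B).indicator (fun _ => (1 : ℝ≥0∞)) p.1 *
              ENNReal.ofReal (HF b D θ (kwStep w' p.1 p.2))) := by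
          intro p
          rw [ENNReal.ofReal_mul (Real.exp_nonneg _)]
          by_cases hp : p.1 ≤ B
          · have : (Set.Iic B).indicator (fun _ => (1 : ℝ≥0∞)) p.1 = 1 :=
              Set.indicator_of_mem (show p.1 ∈ Set.Iic B from hp) _
            rw [this]
            simp only [KillGam_gA, hx2, hp, and_self, if_true]
            ring
          · have : (Set.Iic B).indicator (fun _ => (1 : ℝ≥0∞)) p.1 = 0 :=
              Set.indicator_of_notMem (show p.1 ∉ Set.Iic B from hp) _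
            rw [this]
            simp only [KillGam_gA, hx2, hp, and_false, if_false]
            ring
        simp only [e1]
        rw [lintegral_const_mul' _ _ ENNReal.ofReal_ne_top]
        have h82 : C8 ≤ θ * w'.2 :=
          h8.trans (mul_le_mul_of_nonneg_left hx2 hθ.le)
        have := hV b θ e B w' hθ hb1 hb2 P9.pe (P9.lapl θ hθ hθ0) hTb (P9.sub θ B hθ hθ0 hT)
          g0 g1 h82
        calc ENNReal.ofReal (Real.exp (hG h θ)) * _ ≤ ENNReal.ofReal (Real.exp (hG h θ)) *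
              ENNReal.ofReal ((1 - e * θ) * HF b D θ w') := by gcongr
          _ = ENNReal.ofReal (1 - e * θ) *
              ENNReal.ofReal (Real.exp (hG h θ) * HF b D θ w') := by
            have hl := P9.lapl θ hθ hθ0
            have hl2 := lap_pos (ν := ν) S.hν hθ.le
            have h9 : 0 ≤ e * θ := mul_nonneg P9.pe hθ.le
            have h10 : 0 ≤ 1 - e * θ := by linarith
            rw [← ENNReal.ofReal_mul (Real.exp_nonneg _), ← ENNReal.ofReal_mul h10]
            congr 1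
            ring
      · have e1 : ∀ p : ℝ × ℝ, KillGam_gA (x / 2) B w' p *
            ENNReal.ofReal (Real.exp (hG h θ) * HF b D θ (kwStep w' p.1 p.2)) = 0 := by
          intro p
          simp only [KillGam_gA, hx2, false_and, if_false, zero_mul]
        simp only [e1, lintegral_zero]
        exact zero_le
    · -- the second nonsmall job
      subst heq
      have u1 : KillGam_U h β b D θ θ0 B i (i + 1) = UU h β D θ0 0 0 B := by
        funext w''
        have : ¬ i + 1 ≤ i := by omega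
        simp only [KillGam_U, this, if_false]
      have u0 : KillGam_U h β b D θ θ0 B i i w' =
          ENNReal.ofReal (Real.exp (hG h θ) * HF b D θ w') := by
        simp only [KillGam_U, le_refl, if_true]
      have ki : k i = ENNReal.ofReal (x ^ 3 * Real.exp (ε * (C * θ * m))) := by
        simp only [hk, lt_irrefl, if_false, if_true]
      rw [u0, ki, u1]
      simp only [KillGam_a, lt_irrefl, if_false, if_true]
      by_cases hm2 : w'.1 ≤ m
      · simp only [KillGam_gB, hm2, if_true]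
        have hbg := PC.bg (x ^ 2) w' g0 g1
        simp only [mul_zero, neg_zero, Real.exp_zero, mul_one] at hbg
        refine hbg.trans ?_
        have hx0 : (0 : ℝ) ≤ x ^ 3 := by
          have := PC.hx
          positivity
        calc ENNReal.ofReal (x ^ 3) * UU h β D θ0 0 0 B w'
            ≤ ENNReal.ofReal (x ^ 3) * ENNReal.ofReal (cT h β D θ w') := by
              gcongr
              refine le_trans ?_ (VV_le β D hθ hθ0 w')
              unfold UU
              refine (min_le_left _ _).trans ?_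
              simp
          _ ≤ ENNReal.ofReal (x ^ 3) * (ENNReal.ofReal (Real.exp (ε * (C * θ * m))) *
              ENNReal.ofReal (Real.exp (hG h θ) * HF b D θ w')) := by
              gcongr
              rw [← ENNReal.ofReal_mul (Real.exp_nonneg _)]
              refine ENNReal.ofReal_le_ofReal ?_
              unfold cT
              have h11 : ε * (β θ * m) ≤ ε * (C * θ * m) := by
                have := P.up θ hθ hθ0
                gcongr
              have h12 := KillGam_HF_slack (θ := θ) hD0 hε hβ0 g0 hm2 h11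
              have h13 := mul_le_mul_of_nonneg_left h12 (Real.exp_nonneg (hG h θ))
              calc _ ≤ _ := h13
                _ = _ := by rw [hb]; ring
          _ = _ := by
              rw [← mul_assoc, ← ENNReal.ofReal_mul hx0]
      · simp only [KillGam_gB, hm2, if_false, zero_mul, lintegral_zero]
        exact zero_le
    · -- small jobs of the second phase
      have u1 : KillGam_U h β b D θ θ0 B n1 (i + 1) = UU h β D θ0 0 0 B := by
        funext w''
        have : ¬ i + 1 ≤ n1 := by omega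
        simp only [KillGam_U, this, if_false]
      have u0 : KillGam_U h β b D θ θ0 B n1 i w' = UU h β D θ0 0 0 B w' := by
        have : ¬ i ≤ n1 := by omega
        simp only [KillGam_U, this, if_false]
      have c1 : ¬ i < n1 := by omega
      have c2 : ¬ i = n1 := by omega
      have ki : k i = 1 := by
        simp only [hk, c1, c2, if_false]
      rw [u0, ki, u1, one_mul]
      simp only [KillGam_a, c1, c2, if_false]
      exact PC.sm 0 0 (x ^ 2) w' (by simp) g0 g1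

/-- the state after the first job -/
private theorem KillGam_first (H : HazC h h') {C D K2 x v b u t : ℝ} {w : ℝ × ℝ}
    (hD : 0 ≤ D) (hx : 0 < x) (hC : 0 ≤ C)
    (h0 : 0 ≤ w.1) (h1 : w.1 ≤ w.2) (hwv : w.2 ≤ v) (hvx : 8 * v ≤ x) (ht : 0 ≤ t)
    (h2 : x / 2 ≤ (kwStep w u t).2)
    (hb : b ≤ C * h' (kwStep w u t).2)
    (hK : h' (x / 4) + C * h' (x / 2) ≤ K2) (hlin : K2 * w.2 ≤ h w.2) :
    Real.exp (hG h (h' (kwStep w u t).2)) * HF b D (h' (kwStep w u t).2) (kwStep w u t) ≤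
      (1 + D) * Real.exp (h u + h w.2) := by
  set y : ℝ × ℝ := kwStep w u t with hy
  have hy2 : 0 < y.2 := by linarith
  have hv0 : 0 ≤ w.2 := h0.trans h1
  have hY : max (w.2 - t) 0 ≤ w.2 := max_le (by linarith) hv0
  have hYx : max (w.2 - t) 0 < x / 2 := by linarith
  have hkw : y = (min (max (w.1 + u - t) 0) (max (w.2 - t) 0),
      max (max (w.1 + u - t) 0) (max (w.2 - t) 0)) := rfl
  have hy1 : y.1 ≤ w.2 := by
    rw [hkw]
    exact (min_le_right _ _).trans hY
  have hy0 : 0 ≤ y.1 := by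
    rw [hkw]
    exact le_min (le_max_right _ _) (le_max_right _ _)
  have hy2' : y.2 ≤ w.1 + u ∧ x / 4 ≤ u := by
    have h3 : y.2 = max (max (w.1 + u - t) 0) (max (w.2 - t) 0) := by rw [hkw]
    rcases le_total (max (w.1 + u - t) 0) (max (w.2 - t) 0) with h4 | h4
    · rw [max_eq_right h4] at h3
      linarith
    · rw [max_eq_left h4] at h3
      rcases le_total (w.1 + u - t) 0 with h5 | h5
      · rw [max_eq_right h5] at h3
        linarith
      · rw [max_eq_left h5] at h3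
        constructor
        · linarith
        · linarith
  obtain ⟨hy3, hu⟩ := hy2'
  have hu0 : 0 < u := by linarith
  have e1 : hG h (h' y.2) = h y.2 - y.2 * h' y.2 := hG_at H hy2
  rw [e1]
  unfold HF
  have e2 : Real.exp (h y.2 - y.2 * h' y.2) * (Real.exp (h' y.2 * y.2) * (Real.exp (b * y.1) + D)) =
      Real.exp (h y.2) * (Real.exp (b * y.1) + D) := by
    rw [← mul_assoc, ← Real.exp_add]
    congr 2
    ring
  rw [e2]
  have hθ : 0 < h' y.2 := H.pos _ hy2
  have hby : b * y.1 ≤ C * h' (x / 2) * w.2 := by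
    have h3 : h' y.2 ≤ h' (x / 2) := H.anti _ _ (by linarith) h2
    have h4 : b * y.1 ≤ C * h' y.2 * y.1 := mul_le_mul_of_nonneg_right hb hy0
    have h5 : C * h' y.2 * y.1 ≤ C * h' y.2 * w.2 :=
      mul_le_mul_of_nonneg_left hy1 (mul_nonneg hC hθ.le)
    have h6 : C * h' y.2 * w.2 ≤ C * h' (x / 2) * w.2 := by gcongr
    linarith
  have hhy : h y.2 ≤ h u + h' (x / 4) * w.2 := by
    have h3 : h y.2 ≤ h (u + w.1) := H.mono (by linarith)
    have h4 := H.tangent hu0 (show 0 ≤ u + w.1 by linarith)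
    have h5 : h' u ≤ h' (x / 4) := H.anti _ _ (by linarith) hu
    have h6 : 0 < h' u := H.pos _ hu0
    have h7 : h' u * w.1 ≤ h' (x / 4) * w.2 :=
      mul_le_mul h5 h1 h0 (h6.le.trans h5)
    linarith
  have h8 : 0 ≤ C * h' (x / 2) * w.2 :=
    mul_nonneg (mul_nonneg hC (H.pos _ (by linarith)).le) hv0
  have h9 : Real.exp (b * y.1) + D ≤ (1 + D) * Real.exp (C * h' (x / 2) * w.2) := by
    have h10 := Real.exp_le_exp.2 hby
    have h11 := Real.one_le_exp h8
    nlinarith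
  calc Real.exp (h y.2) * (Real.exp (b * y.1) + D)
      ≤ Real.exp (h u + h' (x / 4) * w.2) * ((1 + D) * Real.exp (C * h' (x / 2) * w.2)) := by
        have h12 : 0 ≤ Real.exp (b * y.1) + D := by positivity
        exact mul_le_mul (Real.exp_le_exp.2 hhy) h9 h12 (Real.exp_nonneg _)
    _ = (1 + D) * Real.exp (h u + (h' (x / 4) + C * h' (x / 2)) * w.2) := by
        rw [mul_left_comm, ← Real.exp_add]
        congr 2
        ring
    _ ≤ (1 + D) * Real.exp (h u + h w.2) := by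
        have h13 : (h' (x / 4) + C * h' (x / 2)) * w.2 ≤ K2 * w.2 :=
          mul_le_mul_of_nonneg_right hK hv0
        have h14 : Real.exp (h u + (h' (x / 4) + C * h' (x / 2)) * w.2) ≤
            Real.exp (h u + h w.2) := Real.exp_le_exp.2 (by linarith)
        exact mul_le_mul_of_nonneg_left h14 (by linarith)

/-- what the event says about the path after the first job -/
private theorem KillGam_det (H : HazC h h') {β : ℝ → ℝ} {θ0 c C D x v B Z m : ℝ}
    (P : Pot μ ν h β θ0 c C 0) (hD : 0 ≤ D) (hx : 0 ≤ x) (hB : 0 ≤ B) (hBx : B < x / 4)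
    (hm : m ≤ x / 4) {n1 n2 : ℕ} {w p : ℝ × ℝ} {z : ℕ → ℝ × ℝ}
    (hq : (w, gcons p z) ∈ Ctwo x v B (x ^ 2) n1 n2)
    (htop : (w, gcons p z) ∉ Top Z (n1 + n2 + 2))
    (hy1 : (pIter w (gcons p z) (n1 + 1)).1 ≤ m)
    (hy2 : x / 2 ≤ (pIter w (gcons p z) (n1 + 1)).2) :
    (0 ≤ w.1 ∧ w.1 ≤ w.2 ∧ w.2 ≤ v ∧ 0 ≤ p.2 ∧ p.1 ≤ x ^ 2 ∧ x / 2 ≤ (kwStep w p.1 p.2).2 ∧
      (kwStep w p.1 p.2).2 ≤ Z) ∧
    ENNReal.ofReal (min (Real.exp (RR h β θ0 x)) (Real.exp (2 * h x))) ≤
      (∏ i ∈ Finset.range (n1 + 1 + n2),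
        KillGam_a x m B v n1 i (pIter (kwStep w p.1 p.2) z i) (z i)) *
        UU h β D θ0 0 0 B (pIter (kwStep w p.1 p.2) z (n1 + 1 + n2)) := by
  obtain ⟨⟨⟨g0, g1, gz⟩, hwv, hst, hfin⟩, b0, b1, b2, b3⟩ := hq
  have gz' : ∀ i, 0 ≤ (z i).1 ∧ 0 ≤ (z i).2 := fun i => gz (i + 1)
  have hst' : ∀ k < n1 + n2 + 2, v < (pIter (kwStep w p.1 p.2) z k).2 ∧
      (pIter (kwStep w p.1 p.2) z k).2 ≤ x ^ 2 := by
    intro k hk
    have h1 := hst k hk
    simp only [pIter_gcons] at h1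
    exact ⟨h1.1, h1.2.1⟩
  have hp1 : p.1 ≤ x ^ 2 := (hst 0 (by omega)).2.2
  have hb1 : ∀ i < n1, (z i).1 ≤ B := fun i hi => b1 i hi
  have hb2 : B < (z n1).1 := b2
  have hb2' : (z n1).1 ≤ x ^ 2 := (hst (n1 + 1) (by omega)).2.2
  have hb3 : ∀ i < n2, (z (n1 + 1 + i)).1 ≤ B := by
    intro i hi
    have h1 := b3 i hi
    have h2 : (gcons p z (n1 + (i + 1) + 1)) = z (n1 + (i + 1)) := rfl
    simp only [h2] at h1
    have h3 : n1 + 1 + i = n1 + (i + 1) := by ring
    rw [h3]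
    exact h1
  rw [pIter_gcons] at hy1 hy2
  have hfin' : x < (pIter (kwStep w p.1 p.2) z (n1 + 1 + n2)).1 := by
    have h1 : n1 + n2 + 2 = (n1 + 1 + n2) + 1 := by ring
    simp only [h1, pIter_gcons] at hfin
    exact hfin
  set w1 : ℝ × ℝ := kwStep w p.1 p.2 with hw1
  have o0 : 0 ≤ w1.1 := kwStep_fst_nonneg _ _ _
  have o1 : w1.1 ≤ w1.2 := kwStep_fst_le_snd _ _ _
  have hns := no_swap o0 o1 hB gz' n1 hb1 (by linarith)
  have hw12 : x / 2 ≤ w1.2 := by
    have := (hns n1 le_rfl).2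
    linarith
  have htop' : w1.2 ≤ Z := by
    by_contra hcon
    apply htop
    refine ⟨0, by omega, Or.inl ?_⟩
    have : pIter w (gcons p z) (0 + 1) = w1 := rfl
    show Z < (pIter w (gcons p z) (0 + 1)).2
    rw [this]
    exact not_le.1 hcon
  refine ⟨⟨g0, g1, hwv, (gz 0).2, hp1, hw12, htop'⟩, ?_⟩
  have hprod : (∏ i ∈ Finset.range (n1 + 1 + n2), KillGam_a x m B v n1 i (pIter w1 z i) (z i)) =
      1 := by
    refine Finset.prod_eq_one fun i hi => ?_
    have hi' := Finset.mem_range.1 hi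
    rcases lt_trichotomy i n1 with hlt | heq | hgt
    · simp only [KillGam_a, hlt, if_true, KillGam_gA]
      rw [if_pos]
      refine ⟨?_, hb1 i hlt⟩
      have := (hns i hlt.le).1
      linarith
    · subst heq
      simp only [KillGam_a, lt_irrefl, if_false, if_true, KillGam_gB, hy1, bgZ]
      rw [if_pos]
      have h1 := hst' i (by omega)
      exact ⟨h1.1, h1.2, hb2, hb2'⟩
    · have c1 : ¬ i < n1 := by omega
      have c2 : ¬ i = n1 := by omega
      simp only [KillGam_a, c1, c2, if_false, smZ]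
      rw [if_pos]
      have h1 := hst' i (by omega)
      refine ⟨h1.1, h1.2, ?_⟩
      have h2 : i = n1 + 1 + (i - (n1 + 1)) := by omega
      rw [h2]
      exact hb3 _ (by omega)
  rw [hprod, one_mul]
  have ho := pIter_ordered o0 o1 z (n1 + 1 + n2)
  have := UU_ge_final H P hD hx (g1 := 0) (g2 := 0) (B := B) hfin'.le ho.2
  simpa only [sub_zero] using this

private theorem KillGam_fst {f : ℝ → ℝ≥0∞} (hf : Measurable f) :
    ∫⁻ p, f p.1 ∂(μ.prod ν) = ∫⁻ s, f s ∂μ := by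
  have h1 := lintegral_prod (μ := μ) (ν := ν) (fun p : ℝ × ℝ => f p.1)
    (hf.comp measurable_fst).aemeasurable
  rw [h1]
  simp

/-- the exponent of the first phase -/
private theorem KillGam_expo {C e θ ε κ ε2 c1 x Q : ℝ} {n1 : ℕ} (hC : 0 < C) (hθ : 0 < θ)
    (hε : 0 < ε) (hκ : 0 < κ) (he : e = κ * ε) (he1 : e * θ ≤ 1) (hc1 : c1 ≤ κ / (2 * C))
    (hn : ε2 * x ≤ n1) (hx : 0 < ε2 * x) (hQ : Q ≤ κ * ε * θ * (ε2 * x) / 2) :
    (1 - e * θ) ^ n1 * Real.exp (ε * (C * θ * (c1 * (ε2 * x)))) ≤ Real.exp (-Q) := by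
  have h1 : (1 - e * θ) ^ n1 ≤ Real.exp (-(e * θ * n1)) := by
    have h2 : 1 - e * θ ≤ Real.exp (-(e * θ)) := by
      have := Real.add_one_le_exp (-(e * θ))
      linarith
    calc (1 - e * θ) ^ n1 ≤ Real.exp (-(e * θ)) ^ n1 := pow_le_pow_left₀ (by linarith) h2 n1
      _ = Real.exp (-(e * θ * n1)) := by
        rw [← Real.exp_nat_mul]
        congr 1
        ring
  have h3 : ε * (C * θ * (c1 * (ε2 * x))) ≤ κ * ε * θ * (ε2 * x) / 2 := by
    have h4 : c1 * C ≤ κ / 2 := by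
      calc c1 * C ≤ κ / (2 * C) * C := mul_le_mul_of_nonneg_right hc1 hC.le
        _ = κ / 2 := by field_simp
    have h5 : 0 ≤ ε * θ * (ε2 * x) := by positivity
    have h6 := mul_le_mul_of_nonneg_left h4 h5
    nlinarith
  have h7 : κ * ε * θ * (ε2 * x) ≤ e * θ * n1 := by
    rw [he]
    have : 0 ≤ κ * ε * θ := by positivity
    exact mul_le_mul_of_nonneg_left hn this
  calc (1 - e * θ) ^ n1 * Real.exp (ε * (C * θ * (c1 * (ε2 * x))))
      ≤ Real.exp (-(e * θ * n1)) * Real.exp (κ * ε * θ * (ε2 * x) / 2) := by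
        gcongr
    _ = Real.exp (-(e * θ * n1) + κ * ε * θ * (ε2 * x) / 2) := by rw [Real.exp_add]
    _ ≤ Real.exp (-Q) := Real.exp_le_exp.2 (by linarith)

/-- integration over the starting state and the first job -/
private theorem KillGam_int (S : StdC μ ν h h') {β : ℝ → ℝ} {θ0 D KA cW x v B M : ℝ}
    (PC : PathC μ ν h h' β D θ0 KA cW 0 x v B) (hM : 0 ≤ M)
    {π : Measure (ℝ × ℝ)} (hπ : IsStationaryKW μ ν π)
    {A : Set ((ℝ × ℝ) × (ℕ → ℝ × ℝ))} (hA : MeasurableSet A) {L : ℝ≥0∞} (hL : L ≠ ∞)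
    (hcond : ∀ (w p : ℝ × ℝ) (z : ℕ → ℝ × ℝ), (w, gcons p z) ∈ A →
      0 ≤ w.1 ∧ w.1 ≤ w.2 ∧ w.2 ≤ v)
    (hin : ∀ w p : ℝ × ℝ, 0 ≤ w.1 → w.1 ≤ w.2 → w.2 ≤ v →
      ∫⁻ z, L * A.indicator (fun _ => (1 : ℝ≥0∞)) (w, gcons p z) ∂(noise μ ν) ≤
        ENNReal.ofReal M * EP h β D θ0 w *
          ((Set.Iic (x ^ 2)).indicator (fun _ => (1 : ℝ≥0∞)) p.1 *
            ENNReal.ofReal (Real.exp (h p.1)))) :
    L * (π.prod (noise μ ν)) A ≤ ENNReal.ofReal (M * (x ^ 3 * x ^ KA)) := by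
  have H := S.haz
  have hprob : IsProbabilityMeasure π := hπ.1
  have hx3 : (0 : ℝ) ≤ x ^ 3 := by
    have := PC.hx
    positivity
  have hindm : Measurable (A.indicator (fun _ => (1 : ℝ≥0∞))) := measurable_const.indicator hA
  have hexpm : Measurable (fun s : ℝ => (Set.Iic (x ^ 2)).indicator (fun _ => (1 : ℝ≥0∞)) s *
      ENNReal.ofReal (Real.exp (h s))) := by
    refine Measurable.mul (measurable_const.indicator measurableSet_Iic) ?_
    exact (Real.measurable_exp.comp H.cont.measurable).ennreal_ofReal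
  have step1 : L * (π.prod (noise μ ν)) A ≤
      ∫⁻ w, ∫⁻ z, L * A.indicator (fun _ => (1 : ℝ≥0∞)) (w, z) ∂(noise μ ν) ∂π := by
    have e1 : (π.prod (noise μ ν)) A =
        ∫⁻ q, A.indicator (fun _ => (1 : ℝ≥0∞)) q ∂(π.prod (noise μ ν)) := by
      rw [lintegral_indicator hA]
      simp
    rw [e1, ← lintegral_const_mul' _ _ hL]
    exact lintegral_prod_le _
  have step2 : ∀ w : ℝ × ℝ, ∫⁻ z, L * A.indicator (fun _ => (1 : ℝ≥0∞)) (w, z) ∂(noise μ ν) ≤
      ENNReal.ofReal M * ENNReal.ofReal (x ^ 3) *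
        ({w : ℝ × ℝ | w.2 ≤ v}).indicator (EP h β D θ0) w := by
    intro w
    have hfm : Measurable (fun z : ℕ → ℝ × ℝ =>
        L * A.indicator (fun _ => (1 : ℝ≥0∞)) (w, z)) :=
      (hindm.comp measurable_prodMk_left).const_mul L
    rw [lintegral_noise_cons hfm]
    by_cases hw : 0 ≤ w.1 ∧ w.1 ≤ w.2 ∧ w.2 ≤ v
    · obtain ⟨h0, h1, h2⟩ := hw
      rw [Set.indicator_of_mem (show w ∈ {w : ℝ × ℝ | w.2 ≤ v} from h2)]
      calc ∫⁻ p, ∫⁻ z, L * A.indicator (fun _ => (1 : ℝ≥0∞)) (w, gcons p z) ∂(noise μ ν)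
            ∂(μ.prod ν)
          ≤ ∫⁻ p, ENNReal.ofReal M * EP h β D θ0 w *
            ((Set.Iic (x ^ 2)).indicator (fun _ => (1 : ℝ≥0∞)) p.1 *
            ENNReal.ofReal (Real.exp (h p.1))) ∂(μ.prod ν) :=
            lintegral_mono fun p => hin w p h0 h1 h2
        _ = ENNReal.ofReal M * EP h β D θ0 w *
            ∫⁻ p, ((Set.Iic (x ^ 2)).indicator (fun _ => (1 : ℝ≥0∞)) p.1 *
            ENNReal.ofReal (Real.exp (h p.1))) ∂(μ.prod ν) :=
            lintegral_const_mul _ (hexpm.comp measurable_fst)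
        _ = ENNReal.ofReal M * EP h β D θ0 w *
            ∫⁻ s, ((Set.Iic (x ^ 2)).indicator (fun _ => (1 : ℝ≥0∞)) s *
            ENNReal.ofReal (Real.exp (h s))) ∂μ := by
            congr 1
            exact KillGam_fst (μ := μ) (ν := ν) (f := fun s : ℝ =>
              (Set.Iic (x ^ 2)).indicator (fun _ => (1 : ℝ≥0∞)) s *
              ENNReal.ofReal (Real.exp (h s))) hexpm
        _ ≤ ENNReal.ofReal M * EP h β D θ0 w * ENNReal.ofReal (x ^ 3) := by
            gcongr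
            exact PC.my
        _ = _ := by ring
    · have hz : ∀ p : ℝ × ℝ, ∫⁻ z, L * A.indicator (fun _ => (1 : ℝ≥0∞)) (w, gcons p z)
          ∂(noise μ ν) = 0 := by
        intro p
        have e2 : ∀ z : ℕ → ℝ × ℝ, L * A.indicator (fun _ => (1 : ℝ≥0∞)) (w, gcons p z) = 0 := by
          intro z
          rw [Set.indicator_of_notMem (fun hmem => hw (hcond w p z hmem)), mul_zero]
        simp only [e2, lintegral_zero]
      simp only [hz, lintegral_zero]
      exact zero_le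
  calc L * (π.prod (noise μ ν)) A
      ≤ ∫⁻ w, ∫⁻ z, L * A.indicator (fun _ => (1 : ℝ≥0∞)) (w, z) ∂(noise μ ν) ∂π := step1
    _ ≤ ∫⁻ w, ENNReal.ofReal M * ENNReal.ofReal (x ^ 3) *
        ({w : ℝ × ℝ | w.2 ≤ v}).indicator (EP h β D θ0) w ∂π := lintegral_mono step2
    _ = ENNReal.ofReal M * ENNReal.ofReal (x ^ 3) *
        ∫⁻ w, ({w : ℝ × ℝ | w.2 ≤ v}).indicator (EP h β D θ0) w ∂π :=
        lintegral_const_mul' _ _ (ENNReal.mul_ne_top ENNReal.ofReal_ne_top ENNReal.ofReal_ne_top)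
    _ ≤ ENNReal.ofReal M * ENNReal.ofReal (x ^ 3) * ENNReal.ofReal (x ^ KA) := by
        gcongr
        exact PC.mom π hπ
    _ = ENNReal.ofReal (M * (x ^ 3 * x ^ KA)) := by
        rw [ENNReal.ofReal_mul hM, ENNReal.ofReal_mul hx3, mul_assoc]

/-- conclusion from the weighted bound -/
private theorem KillGam_final {P : ℝ≥0∞} {a b Q R : ℝ}
    (h1 : ENNReal.ofReal (min (Real.exp a) (Real.exp b)) * P ≤ ENNReal.ofReal Q)
    (hQ : Q ≤ R) (hR : 0 ≤ R) :
    P ≤ ENNReal.ofReal (R * (Real.exp (-a) + Real.exp (-b))) := by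
  set l : ℝ := min (Real.exp a) (Real.exp b) with hl
  have hl0 : 0 < l := lt_min (Real.exp_pos _) (Real.exp_pos _)
  have hl1 : 1 / l ≤ Real.exp (-a) + Real.exp (-b) := by
    have e1 := Real.exp_pos (-a)
    have e2 := Real.exp_pos (-b)
    rcases min_choice (Real.exp a) (Real.exp b) with hm | hm
    · rw [hl, hm, one_div, ← Real.exp_neg]
      linarith
    · rw [hl, hm, one_div, ← Real.exp_neg]
      linarith
  have e3 : ENNReal.ofReal (1 / l) * ENNReal.ofReal l = 1 := by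
    rw [← ENNReal.ofReal_mul (by positivity), one_div, inv_mul_cancel₀ hl0.ne', ENNReal.ofReal_one]
  calc P = ENNReal.ofReal (1 / l) * (ENNReal.ofReal l * P) := by
        rw [← mul_assoc, e3, one_mul]
    _ ≤ ENNReal.ofReal (1 / l) * ENNReal.ofReal Q := by gcongr
    _ ≤ ENNReal.ofReal (1 / l) * ENNReal.ofReal R := by
        gcongr
    _ = ENNReal.ofReal (R * (1 / l)) := by
        rw [← ENNReal.ofReal_mul (by positivity), mul_comm]
    _ ≤ _ := ENNReal.ofReal_le_ofReal (mul_le_mul_of_nonneg_left hl1 hR)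

/-- **Many small jobs before the second nonsmall job, small `y₁`.** See the header. -/
theorem kill_gam (S : StdC μ ν h h') (T : Thr h h' B v) {β : ℝ → ℝ} {θ0 c C : ℝ}
    (P : Pot μ ν h β θ0 c C 0) : ∃ c1 : ℝ, 0 < c1 ∧ c1 ≤ 1 / 4 ∧ ∀ ε2 A4 K : ℝ, 0 < ε2 →
    ε2 ≤ 1 → 1 ≤ A4 → ∃ K3 : ℝ, 0 < K3 ∧ ∀ᶠ x : ℝ in atTop, K3 * Real.log x ≤ x * h' x →
      ∀ π : Measure (ℝ × ℝ), IsStationaryKW μ ν π → ∀ n1 n2 : ℕ,
      n1 + n2 + 2 ≤ ⌈x ^ 20⌉₊ → ε2 * x ≤ n1 →
      (π.prod (noise μ ν)) (Ctwo x (v x) (B x) (x ^ 2) n1 n2 ∩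
        {q | q ∉ Top (A4 * x) (n1 + n2 + 2) ∧ (pIter q.1 q.2 (n1 + 1)).1 ≤ c1 * (ε2 * x) ∧
          x / 2 ≤ (pIter q.1 q.2 (n1 + 1)).2}) ≤
        ENNReal.ofReal (x ^ (-K) *
          (Real.exp (-(RR h β θ0 x)) + Real.exp (-(2 * h x)))) := by
  have H := S.haz
  have hc := P.pc
  have hC := P.pC
  have hC0 : 0 < C := by linarith
  obtain ⟨ε1, κe, hε1, hε12, hκe, hslack⟩ := pot_slack S P
  have P9 := hslack ε1 hε1.le le_rfl
  obtain ⟨C8, hC8, hV⟩ := V_one (μ := μ) (ν := ν) S (c := c / 2) (C := C) (D := 4 * C)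
    (by linarith) (by linarith) le_rfl
  obtain ⟨KA, cW, hKA, hcW, hPC⟩ := path_consts S T P (D := 4 * C) le_rfl
  refine ⟨min (1 / 4) (κe / (2 * C)), lt_min (by norm_num) (by positivity), min_le_left _ _, ?_⟩
  intro ε2 A4 K hε2 hε21 hA4
  obtain ⟨Cd, hCd, hdoub⟩ := H.doubling
  obtain ⟨C4, hC4, hdiv4⟩ := H.div_le (l := 4) (by norm_num)
  obtain ⟨C2, hC2, hdiv2⟩ := H.div_le (l := 2) (by norm_num)
  set c1 : ℝ := min (1 / 4) (κe / (2 * C)) with hc1
  have hc10 : 0 < c1 := lt_min (by norm_num) (by positivity)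
  have hc14 : c1 ≤ 1 / 4 := min_le_left _ _
  have hA0 : 0 < A4 ^ Cd := Real.rpow_pos_of_pos (by linarith) _
  set c2 : ℝ := κe * ε1 * ε2 / (2 * A4 ^ Cd) with hc2
  have hc20 : 0 < c2 := by positivity
  refine ⟨(|K| + KA + 7) / c2, by positivity, ?_⟩
  have ev1 : ∀ᶠ x : ℝ in atTop, PathC μ ν h h' β (4 * C) θ0 KA cW 0 x (v x) (B x) := by
    have := hPC 0 le_rfl
    simpa only [zero_mul] using this
  have ev2 := T.lin_le H (C4 + C * C2)
  have ev3 := T.tilt H C
  have ev4 : ∀ᶠ x : ℝ in atTop, h' (x / 2) ≤ θ0 := by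
    have h1 : Tendsto (fun x : ℝ => x / 2) atTop atTop := tendsto_id.atTop_div_const (by norm_num)
    have h2 := H.tendsto_deriv.comp h1
    filter_upwards [h2.eventually (gt_mem_nhds P.pθ)] with x hx
    exact (show h' (x / 2) < θ0 from hx).le
  have ev5 : ∀ᶠ x : ℝ in atTop, 2 * C8 * A4 ^ Cd ≤ x * h' x :=
    H.big.eventually_ge_atTop _
  filter_upwards [ev1, ev2, ev3, ev4, ev5, eventually_ge_atTop (1 + 4 * C)] with x PC hlin htilt
    hθx h8x hxD hK3 π hπ n1 n2 hN hn1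
  have hx2 := PC.hx
  have hx0 : 0 < x := by linarith
  have hB1 := PC.hB
  have hBv := PC.hBv
  have hvx := PC.hvx
  have hlog : 0 ≤ Real.log x := Real.log_nonneg (by linarith)
  set m : ℝ := c1 * (ε2 * x) with hm
  have hεx : 0 < ε2 * x := by positivity
  have hm0 : 0 ≤ m := by positivity
  have hm4 : m ≤ x / 4 := by
    have h1 : ε2 * x ≤ x := by nlinarith
    calc c1 * (ε2 * x) ≤ 1 / 4 * x := by gcongr
      _ = x / 4 := by ring
  -- the slope at a large state
  have hθlow : ∀ y : ℝ, 0 < y → y ≤ A4 * x → x * h' x ≤ A4 ^ Cd * (x * h' y) := by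
    intro y hy0 hy
    have h1 := hdoub x A4 hx0 hA4
    have h2 : h' (A4 * x) ≤ h' y := H.anti _ _ hy0 hy
    have h3 : h' x ≤ A4 ^ Cd * h' y := h1.trans (mul_le_mul_of_nonneg_left h2 hA0.le)
    have h4 := mul_le_mul_of_nonneg_left h3 hx0.le
    nlinarith
  set A : Set ((ℝ × ℝ) × (ℕ → ℝ × ℝ)) := Ctwo x (v x) (B x) (x ^ 2) n1 n2 ∩
        {q | q ∉ Top (A4 * x) (n1 + n2 + 2) ∧ (pIter q.1 q.2 (n1 + 1)).1 ≤ m ∧
          x / 2 ≤ (pIter q.1 q.2 (n1 + 1)).2} with hA
  have hAm : MeasurableSet A := by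
    refine (measurableSet_Ctwo _ _ _ _ _ _).inter ?_
    refine (measurableSet_Top _ _).compl.inter (MeasurableSet.inter ?_ ?_)
    · exact measurableSet_le (measurable_pIter (n1 + 1)).fst measurable_const
    · exact measurableSet_le measurable_const (measurable_pIter (n1 + 1)).snd
  have hdet : ∀ (w p : ℝ × ℝ) (z : ℕ → ℝ × ℝ), (w, gcons p z) ∈ A → _ :=
    fun w p z hq => KillGam_det (D := 4 * C) H P (by linarith) hx0.le (by linarith) (by linarith)
      hm4 hq.1 hq.2.1 hq.2.2.1 hq.2.2.2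
  set M : ℝ := Real.exp (-(c2 * ((|K| + KA + 7) / c2 * Real.log x))) * x ^ 3 * (1 + 4 * C) with hM
  have hM0 : 0 ≤ M := by positivity
  have hmain := KillGam_int S (β := β) (M := M) PC hM0 hπ hAm
    (L := ENNReal.ofReal (min (Real.exp (RR h β θ0 x)) (Real.exp (2 * h x))))
    ENNReal.ofReal_ne_top
    (fun w p z hq => ⟨(hdet w p z hq).1.1, (hdet w p z hq).1.2.1, (hdet w p z hq).1.2.2.1⟩) ?_
  · -- conclusion
    refine KillGam_final hmain ?_ (Real.rpow_nonneg hx0.le _)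
    have e1 : c2 * ((|K| + KA + 7) / c2 * Real.log x) = (|K| + KA + 7) * Real.log x := by
      field_simp
    have e2 : Real.exp (-(c2 * ((|K| + KA + 7) / c2 * Real.log x))) = x ^ (-(|K| + KA + 7)) := by
      rw [e1, Real.rpow_def_of_pos hx0]
      congr 1
      ring
    rw [hM, e2]
    have e3 : x ^ (-(|K| + KA + 7)) * x ^ 3 * (1 + 4 * C) * (x ^ 3 * x ^ KA) ≤
        x ^ (-(|K| + KA + 7)) * x ^ 3 * x * (x ^ 3 * x ^ KA) := by
      gcongr
    have e4 : x ^ (-(|K| + KA + 7)) * x ^ 3 * x * (x ^ 3 * x ^ KA) = x ^ (-|K|) := by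
      have a1 : (x : ℝ) ^ 3 = x ^ (3 : ℝ) := by
        rw [← Real.rpow_natCast]
        norm_num
      have a2 : x ^ (-(|K| + KA + 7)) * x ^ 3 * x * (x ^ 3 * x ^ KA) =
          x ^ (-(|K| + KA + 7)) * x ^ (3 : ℝ) * x ^ (1 : ℝ) * (x ^ (3 : ℝ) * x ^ KA) := by
        rw [a1, Real.rpow_one]
      rw [a2, ← Real.rpow_add hx0, ← Real.rpow_add hx0, ← Real.rpow_add hx0, ← Real.rpow_add hx0]
      congr 1
      ring
    have e5 : x ^ (-|K|) ≤ x ^ (-K) :=
      Real.rpow_le_rpow_of_exponent_le (by linarith) (neg_le_neg (le_abs_self K))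
    linarith
  · -- the inner bound
    intro w p h0 h1 h2
    by_cases hp : 0 ≤ p.2 ∧ p.1 ≤ x ^ 2 ∧ x / 2 ≤ (kwStep w p.1 p.2).2 ∧
        (kwStep w p.1 p.2).2 ≤ A4 * x
    · obtain ⟨hp2, hp1, hk1, hk2⟩ := hp
      set y : ℝ × ℝ := kwStep w p.1 p.2 with hy
      have hy2 : 0 < y.2 := by linarith
      set θ : ℝ := h' y.2 with hθdef
      have hθ : 0 < θ := H.pos _ hy2
      have hθle : θ ≤ h' (x / 2) := H.anti _ _ (by linarith) hk1
      have hθ0 : θ ≤ θ0 := hθle.trans hθx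
      have hθv : θ ≤ h' (v x) := hθle.trans (H.anti _ _ (by linarith) (by linarith))
      have hT : Tilt h (C * θ) (B x) := by
        intro s hs hsB
        have h3 := htilt s hs hsB
        have h4 : C * θ * s ≤ C * h' (v x) * s := by gcongr
        linarith
      have hlowθ := hθlow y.2 hy2 hk2
      have h8 : C8 ≤ θ * (x / 2) := by
        have h3 : 2 * C8 * A4 ^ Cd ≤ A4 ^ Cd * (x * θ) := h8x.trans hlowθ
        have h4 : A4 ^ Cd * (2 * C8) ≤ A4 ^ Cd * (x * θ) := by linarith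
        have h5 := le_of_mul_le_mul_left h4 hA0
        linarith
      have hpath := KillGam_path (ε := ε1) (m := m) (KA := KA) (cW := cW) S P P9 hε1.le le_rfl PC
        hV hθ hθ0 hT h8 hm0 n1 n2 (kwStep_fst_nonneg w p.1 p.2) (kwStep_fst_le_snd w p.1 p.2)
      have hfirst := KillGam_first H (C := C) (D := 4 * C) (K2 := (C4 + C * C2) * h' x)
        (x := x) (v := v x) (b := (1 - ε1) * β θ) (u := p.1) (t := p.2) (w := w)
        (by linarith) hx0 hC0.le h0 h1 h2 hvx hp2 hk1 (P9.up θ hθ hθ0)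
        (by
          have h3 := hdiv4 x hx0
          have h4 := hdiv2 x hx0
          have h5 := mul_le_mul_of_nonneg_left h4 hC0.le
          linarith) (hlin w.2 (h0.trans h1) h2)
      have he1 : κe * ε1 * θ ≤ 1 := by
        have h3 := P9.lapl θ hθ hθ0
        have h4 := lap_pos (ν := ν) S.hν hθ.le
        have h5 : 0 ≤ κe * ε1 * θ := by positivity
        linarith
      have hexpo := KillGam_expo (C := C) (e := κe * ε1) (θ := θ) (ε := ε1) (κ := κe) (ε2 := ε2)
        (c1 := c1) (x := x) (Q := c2 * ((|K| + KA + 7) / c2 * Real.log x)) (n1 := n1) hC0 hθ hε1 hκe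
        rfl he1 (min_le_right _ _) hn1 hεx (by
          have h3 : (|K| + KA + 7) / c2 * Real.log x ≤ A4 ^ Cd * (x * θ) := hK3.trans hlowθ
          have h4 := mul_le_mul_of_nonneg_left h3 hc20.le
          have h5 : c2 * (A4 ^ Cd * (x * θ)) = κe * ε1 * θ * (ε2 * x) / 2 := by
            rw [hc2]
            field_simp
          linarith)
      have hEP : ENNReal.ofReal (Real.exp (h w.2)) ≤ EP h β (4 * C) θ0 w :=
        EP_ge H P (by linarith) h0 h1
      have hind : (Set.Iic (x ^ 2)).indicator (fun _ => (1 : ℝ≥0∞)) p.1 = 1 :=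
        Set.indicator_of_mem (show p.1 ∈ Set.Iic (x ^ 2) from hp1) _
      have h1e : 0 ≤ 1 - κe * ε1 * θ := by linarith
      calc ∫⁻ z, ENNReal.ofReal (min (Real.exp (RR h β θ0 x)) (Real.exp (2 * h x))) *
            A.indicator (fun _ => (1 : ℝ≥0∞)) (w, gcons p z) ∂(noise μ ν)
          ≤ ∫⁻ z, (∏ i ∈ Finset.range (n1 + 1 + n2),
              KillGam_a x m (B x) (v x) n1 i (pIter y z i) (z i)) *
              UU h β (4 * C) θ0 0 0 (B x) (pIter y z (n1 + 1 + n2)) ∂(noise μ ν) := by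
            refine lintegral_mono fun z => ?_
            by_cases hz : (w, gcons p z) ∈ A
            · simp only [Set.indicator_of_mem hz, mul_one]
              exact (hdet w p z hz).2
            · simp only [Set.indicator_of_notMem hz, mul_zero]
              exact zero_le
        _ ≤ ENNReal.ofReal (1 - κe * ε1 * θ) ^ n1 *
            ENNReal.ofReal (x ^ 3 * Real.exp (ε1 * (C * θ * m))) *
            ENNReal.ofReal (Real.exp (hG h θ) * HF ((1 - ε1) * β θ) (4 * C) θ y) := hpath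
        _ ≤ ENNReal.ofReal (1 - κe * ε1 * θ) ^ n1 *
            ENNReal.ofReal (x ^ 3 * Real.exp (ε1 * (C * θ * m))) *
            ENNReal.ofReal ((1 + 4 * C) * Real.exp (h p.1 + h w.2)) := by
            gcongr
        _ = ENNReal.ofReal (((1 - κe * ε1 * θ) ^ n1 * Real.exp (ε1 * (C * θ * m))) *
            (x ^ 3 * (1 + 4 * C))) * (ENNReal.ofReal (Real.exp (h w.2)) *
              ENNReal.ofReal (Real.exp (h p.1))) := by
            rw [← ENNReal.ofReal_pow h1e, ← ENNReal.ofReal_mul (pow_nonneg h1e _),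
              ← ENNReal.ofReal_mul (by positivity), ← ENNReal.ofReal_mul (Real.exp_nonneg _),
              ← ENNReal.ofReal_mul (by positivity)]
            congr 1
            rw [Real.exp_add]
            ring
        _ ≤ ENNReal.ofReal M * (EP h β (4 * C) θ0 w * ENNReal.ofReal (Real.exp (h p.1))) := by
            gcongr
            rw [hM]
            have h3 : 0 ≤ x ^ 3 * (1 + 4 * C) := by positivity
            have h4 := mul_le_mul_of_nonneg_right hexpo h3
            linarith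
        _ = _ := by
            rw [hind, one_mul, mul_assoc]
    · have hz : ∀ z : ℕ → ℝ × ℝ,
          ENNReal.ofReal (min (Real.exp (RR h β θ0 x)) (Real.exp (2 * h x))) *
          A.indicator (fun _ => (1 : ℝ≥0∞)) (w, gcons p z) = 0 := by
        intro z
        rw [Set.indicator_of_notMem, mul_zero]
        intro hmem
        have h3 := (hdet w p z hmem).1
        exact hp ⟨h3.2.2.2.1, h3.2.2.2.2.1, h3.2.2.2.2.2.1, h3.2.2.2.2.2.2⟩
      simp only [hz, lintegral_zero]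
      exact zero_le

end Pool.Agent.Lib.MP_04add8_pr.Cv
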