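import Mathlib
import Pool.Agent.Lib.MP_04add8_pr.Cv.PathW
import Pool.Agent.Lib.MP_04add8_pr.Cv.PathEv

open MeasureTheory ProbabilityTheory Filter Topology
open scoped ENNReal

set_option linter.unusedSectionVars false

namespace Pool.Agent.Lib.MP_04add8_pr.Cv

open Pool.Agent.Lib.MP_04add8_pr.Gen

variable {h h' : ℝ → ℝ} {μ ν : Measure ℝ} [IsProbabilityMeasure μ]
  [IsProbabilityMeasure ν]

variable {B v : ℝ → ℝ}

/-- the event inequality before dividing by the final value -/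
private lemma killOne_event (H : HazC h h') {β : ℝ → ℝ} {θ0 c C D KA cW γ x v0 B0 : ℝ}
    (P : Pot μ ν h β θ0 c C 0) (hD : 0 ≤ D) (hγ : 0 ≤ γ) (hxpos : 0 < x)
    (hx : PathC μ ν h h' β D θ0 KA cW γ x v0 B0) {π : Measure (ℝ × ℝ)}
    (hπ : IsStationaryKW μ ν π) (n1 n2 : ℕ) :
    ENNReal.ofReal (min (Real.exp (RR h β θ0 x - γ)) (Real.exp (2 * h x - 2 * γ))) *
      (π.prod (noise μ ν)) (Ctwo x v0 B0 (x ^ 2) n1 n2) ≤
    ENNReal.ofReal ((x ^ 3 * Real.exp (-γ)) * (x ^ 3 * Real.exp (-γ)) * x ^ KA) := by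
  set cc : ℝ≥0∞ := ENNReal.ofReal (x ^ 3 * Real.exp (-γ)) with hcc
  have hc0 : 0 < x ^ 3 * Real.exp (-γ) := mul_pos (pow_pos hxpos 3) (Real.exp_pos _)
  have hcc0 : cc ≠ 0 := by
    rw [hcc, Ne, ENNReal.ofReal_eq_zero, not_le]
    exact hc0
  set a : ℕ → ℝ × ℝ → ℝ × ℝ → ℝ≥0∞ := fun i => if i = 0 then enW (x ^ 2) v0
    else if i = n1 + 1 then bgZ B0 (x ^ 2) v0 (x ^ 2) else smZ B0 v0 (x ^ 2) with ha
  set U : ℕ → ℝ × ℝ → ℝ≥0∞ := fun i => if i = 0 then EP h β D θ0
    else UU h β D θ0 γ (2 * γ) B0 with hU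
  set k : ℕ → ℝ≥0∞ := fun i => (if i = 0 then cc else 1) * (if i = n1 + 1 then cc else 1)
    with hk
  have hmain := path_event (μ := μ) (ν := ν) hπ (measurableSet_Ctwo x v0 B0 (x ^ 2) n1 n2)
    (v := v0) (fun q hq => hq.1.2.1) (n1 + n2 + 2) (a := a) (U := U) (k := k)
    (L := ENNReal.ofReal (min (Real.exp (RR h β θ0 x - γ)) (Real.exp (2 * h x - 2 * γ))))
    ?_ ?_ ?_ ?_ ?_
  · refine hmain.trans ?_
    have hprod : ∏ i ∈ Finset.range (n1 + n2 + 2), k i = cc * cc := by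
      rw [hk]
      simp only
      rw [Finset.prod_mul_distrib, Finset.prod_ite_eq', Finset.prod_ite_eq',
        if_pos (Finset.mem_range.2 (by omega)), if_pos (Finset.mem_range.2 (by omega))]
    rw [hprod]
    have hU0 : U 0 = EP h β D θ0 := by rw [hU]; simp
    rw [hU0, ENNReal.ofReal_mul (mul_nonneg hc0.le hc0.le), ENNReal.ofReal_mul hc0.le]
    exact mul_le_mul_right (hx.mom π hπ) _
  · intro i
    rcases Nat.eq_zero_or_pos i with hi | hi
    · have hai : a i = enW (x ^ 2) v0 := by rw [ha]; simp [hi]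
      simp only [hai]
      exact measurable_enW _ _
    · have hi0 : i ≠ 0 := by omega
      by_cases hin : i = n1 + 1
      · have hai : a i = bgZ B0 (x ^ 2) v0 (x ^ 2) := by rw [ha]; simp [hin]
        simp only [hai]
        exact measurable_bgZ _ _ _ _
      · have hai : a i = smZ B0 v0 (x ^ 2) := by rw [ha]; simp [hi0, hin]
        simp only [hai]
        exact measurable_smZ _ _ _
  · intro i
    rcases Nat.eq_zero_or_pos i with hi | hi
    · have hUi : U i = EP h β D θ0 := by rw [hU]; simp [hi]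
      rw [hUi]
      exact measurable_EP H β D θ0
    · have hi0 : i ≠ 0 := by omega
      have hUi : U i = UU h β D θ0 γ (2 * γ) B0 := by rw [hU]; simp [hi0]
      rw [hUi]
      exact measurable_UU H β D θ0 _ _ _
  · have hk0 : k 0 = cc := by
      rw [hk]
      simp
    rw [hk0]
    exact hcc0
  · intro i _ w h0 h1 hw
    have hUi1 : U (i + 1) = UU h β D θ0 γ (2 * γ) B0 := by rw [hU]; simp
    rw [hUi1]
    rcases Nat.eq_zero_or_pos i with hi | hi
    · have hai : a i = enW (x ^ 2) v0 := by rw [ha]; simp [hi]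
      have hUi : U i = EP h β D θ0 := by rw [hU]; simp [hi]
      have hki : k i = cc := by rw [hk]; simp [hi]
      rw [hai, hUi, hki, hcc]
      have h2 := hx.ent γ (2 * γ) w h0 h1 (hw hi)
      rw [min_eq_left (by linarith)] at h2
      exact h2
    · have hi0 : i ≠ 0 := by omega
      have hUi : U i = UU h β D θ0 γ (2 * γ) B0 := by rw [hU]; simp [hi0]
      by_cases hin : i = n1 + 1
      · have hai : a i = bgZ B0 (x ^ 2) v0 (x ^ 2) := by rw [ha]; simp [hin]
        have hki : k i = cc := by rw [hk]; simp [hin]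
        rw [hai, hUi, hki, hcc]
        exact hx.bg (x ^ 2) w h0 h1
      · have hai : a i = smZ B0 v0 (x ^ 2) := by rw [ha]; simp [hi0, hin]
        have hki : k i = 1 := by rw [hk]; simp [hi0, hin]
        rw [hai, hUi, hki, one_mul]
        exact hx.sm γ (2 * γ) (x ^ 2) w (by linarith) h0 h1
  · intro q hq
    obtain ⟨⟨hok, hqv, hpath, hend⟩, hb0, hs1, hb1, hs2⟩ := hq
    have hprod : ∏ i ∈ Finset.range (n1 + n2 + 2), a i (pIter q.1 q.2 i) (q.2 i) = 1 := by
      refine Finset.prod_eq_one fun i hi => ?_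
      have hi1 := Finset.mem_range.1 hi
      rcases Nat.eq_zero_or_pos i with hi0 | hi0
      · have hai : a i = enW (x ^ 2) v0 := by rw [ha]; simp [hi0]
        rw [hai]
        have h2 := hpath i hi1
        rw [pIter_succ] at h2
        unfold enW
        rw [if_pos ⟨h2.2.2, h2.1⟩]
      · have hi0' : i ≠ 0 := by omega
        obtain ⟨j, rfl⟩ : ∃ j, i = j + 1 := ⟨i - 1, by omega⟩
        have h2 := hpath j (by omega)
        have h3 := hpath (j + 1) hi1
        by_cases hin : j + 1 = n1 + 1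
        · have hai : a (j + 1) = bgZ B0 (x ^ 2) v0 (x ^ 2) := by rw [ha]; simp [hin]
          rw [hai]
          unfold bgZ
          have hb : B0 < (q.2 (j + 1)).1 := by rw [hin]; exact hb1
          rw [if_pos ⟨h2.1, h2.2.1, hb, h3.2.2⟩]
        · have hai : a (j + 1) = smZ B0 v0 (x ^ 2) := by
            rw [ha]
            simp only [if_neg hi0', if_neg hin]
          rw [hai]
          unfold smZ
          have hs : (q.2 (j + 1)).1 ≤ B0 := by
            rcases lt_or_ge j n1 with hj | hj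
            · exact hs1 j hj
            · have h4 := hs2 (j - n1 - 1) (by omega)
              have h5 : n1 + (j - n1 - 1 + 1) + 1 = j + 1 := by omega
              rw [h5] at h4
              exact h4
          rw [if_pos ⟨h2.1, h2.2.1, hs⟩]
    have hUn : U (n1 + n2 + 2) = UU h β D θ0 γ (2 * γ) B0 := by rw [hU]; simp
    rw [hprod, one_mul, hUn]
    have hord := pIter_ordered hok.1 hok.2.1 q.2 (n1 + n2 + 2)
    exact UU_ge_final H P hD hxpos.le hend.le hord.2

private lemma killOne_real {R H KA K γ x : ℝ} (hx : 1 ≤ x)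
    (hγ : γ = (|K| + KA + 7) * Real.log x) :
    (min (Real.exp (R - γ)) (Real.exp (2 * H - 2 * γ)))⁻¹ *
      ((x ^ 3 * Real.exp (-γ)) * (x ^ 3 * Real.exp (-γ)) * x ^ KA) ≤
    x ^ (-K) * Real.exp (-R) + x ^ (KA + 7) * Real.exp (-(2 * H)) := by
  have hxpos : 0 < x := by linarith
  have hl : 0 ≤ Real.log x := Real.log_nonneg hx
  set l : ℝ := Real.log x with hldef
  have e1 : ∀ a : ℝ, x ^ a = Real.exp (l * a) := fun a => Real.rpow_def_of_pos hxpos a
  have e2 : x ^ 3 = Real.exp (3 * l) := by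
    rw [Real.exp_mul, hldef]
    have h1 : Real.exp 3 = Real.exp 1 ^ (3 : ℝ) := by
      rw [← Real.exp_mul]
      norm_num
    rw [← Real.exp_mul, mul_comm, Real.exp_mul, Real.exp_log hxpos]
    norm_cast
  have hinv : (min (Real.exp (R - γ)) (Real.exp (2 * H - 2 * γ)))⁻¹ ≤
      Real.exp (-(R - γ)) + Real.exp (-(2 * H - 2 * γ)) := by
    have p1 := Real.exp_pos (-(R - γ))
    have p2 := Real.exp_pos (-(2 * H - 2 * γ))
    rcases min_choice (Real.exp (R - γ)) (Real.exp (2 * H - 2 * γ)) with h1 | h1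
    · rw [h1, ← Real.exp_neg]
      linarith
    · rw [h1, ← Real.exp_neg]
      linarith
  have hA : 0 ≤ (x ^ 3 * Real.exp (-γ)) * (x ^ 3 * Real.exp (-γ)) * x ^ KA := by positivity
  refine (mul_le_mul_of_nonneg_right hinv hA).trans ?_
  rw [e1 KA, e1 (-K), e1 (KA + 7), e2, add_mul]
  have habs := le_abs_self K
  refine add_le_add ?_ ?_
  · simp only [← Real.exp_add]
    refine Real.exp_le_exp.2 ?_
    rw [hγ]
    have h1 : 0 ≤ l * (|K| - K + 1) := mul_nonneg hl (by linarith)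
    nlinarith
  · simp only [← Real.exp_add]
    refine Real.exp_le_exp.2 ?_
    nlinarith

private lemma killOne_div {r s : ℝ} {p : ℝ≥0∞} {y z : ℝ}
    (h : ENNReal.ofReal (min (Real.exp y) (Real.exp z)) * p ≤ ENNReal.ofReal r)
    (hs : (min (Real.exp y) (Real.exp z))⁻¹ * r ≤ s) :
    p ≤ ENNReal.ofReal s := by
  have hpos : 0 < min (Real.exp y) (Real.exp z) := lt_min (Real.exp_pos _) (Real.exp_pos _)
  set L : ℝ := min (Real.exp y) (Real.exp z) with hL
  calc p = ENNReal.ofReal L⁻¹ * (ENNReal.ofReal L * p) := by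
        rw [← mul_assoc, ← ENNReal.ofReal_mul (inv_pos.2 hpos).le, inv_mul_cancel₀ hpos.ne',
          ENNReal.ofReal_one, one_mul]
    _ ≤ ENNReal.ofReal L⁻¹ * ENNReal.ofReal r := mul_le_mul_right h _
    _ = ENNReal.ofReal (L⁻¹ * r) := (ENNReal.ofReal_mul (inv_pos.2 hpos).le).symm
    _ ≤ ENNReal.ofReal s := ENNReal.ofReal_le_ofReal hs

/-- **One nonsmall job after the entry.** As `kill_four` but with exactly one step (`n1 + 1`) of weight `ζ`; simpler: for
`Ctwo` the weights are `a 0 = enW`, `a i = smZ B v (x²)` for `i ≠ n1 + 1`, `a (n1+1) = bgZ B (x²) v (x²)`, `U 0 = EP`,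
`U i = UU γ (2γ)`, `k 0 = x³ e^{-γ}`, `k (n1+1) = x³ e^{-γ}`, the others `1`. So
`P (Ctwo) ≤ x⁶ e^{-2γ} x^KA (e^{-RR + γ} + e^{-2h + 2γ})`; `K1 = KA + 7`, `K0 ≥ K + KA + 7`. -/
theorem kill_one (S : StdC μ ν h h') (T : Thr h h' B v) {β : ℝ → ℝ} {θ0 c C : ℝ}
    (P : Pot μ ν h β θ0 c C 0) : ∃ K1 : ℝ, 0 ≤ K1 ∧ ∀ K : ℝ,
    ∀ᶠ x : ℝ in atTop, ∀ π : Measure (ℝ × ℝ), IsStationaryKW μ ν π → ∀ n1 n2 : ℕ,
      n1 + n2 + 2 ≤ ⌈x ^ 20⌉₊ →
      (π.prod (noise μ ν)) (Ctwo x (v x) (B x) (x ^ 2) n1 n2) ≤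
        ENNReal.ofReal (x ^ (-K) * Real.exp (-(RR h β θ0 x)) +
          x ^ K1 * Real.exp (-(2 * h x))) := by
  have hD : 4 * C ≤ 4 * C := le_rfl
  obtain ⟨KA, cW, hKA, -, hP⟩ := path_consts S T P hD
  have hC1 : 1 ≤ C := by
    have h1 := P.pC
    have h2 := P.pc
    linarith
  have hD0 : 0 ≤ 4 * C := by linarith
  refine ⟨KA + 7, by linarith, fun K => ?_⟩
  have hK0 : 0 ≤ |K| + KA + 7 := by
    have := abs_nonneg K
    linarith
  filter_upwards [hP (|K| + KA + 7) hK0] with x hx π hπ n1 n2 _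
  have hx2 := hx.hx
  have hxpos : 0 < x := by linarith
  have hlog : 0 ≤ Real.log x := Real.log_nonneg (by linarith)
  have hev := killOne_event S.haz P hD0 hx.hγ hxpos hx hπ n1 n2
  set γ : ℝ := (|K| + KA + 7) * Real.log x with hγdef
  set R : ℝ := RR h β θ0 x with hRdef
  have hreal := killOne_real (R := R) (H := h x) (KA := KA) (K := K) (γ := γ)
    (by linarith) hγdef
  exact killOne_div hev hreal

/-- **Case A**, `x h' x < K3 log x`: `RR x ≤ h ((1+C) x) ≤ h x + C x h' x ≤ h x + C K3 log x` (`RR_le_h`, `H.upper_deriv`), and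
`h x ≥ (K1 + K + 1 + C K3) log x` (`H.log_le`), so `x^K1 e^{-2 h x} ≤ x^(-K-1) e^{-RR x}`. -/
theorem case_A (S : StdC μ ν h h') (T : Thr h h' B v) {β : ℝ → ℝ} {θ0 c C : ℝ}
    (P : Pot μ ν h β θ0 c C 0) (K3 K : ℝ) :
    ∀ᶠ x : ℝ in atTop, x * h' x < K3 * Real.log x →
      ∀ π : Measure (ℝ × ℝ), IsStationaryKW μ ν π → ∀ n1 n2 : ℕ,
      n1 + n2 + 2 ≤ ⌈x ^ 20⌉₊ →
      (π.prod (noise μ ν)) (Ctwo x (v x) (B x) (x ^ 2) n1 n2) ≤
        ENNReal.ofReal (x ^ (-K) * Real.exp (-(RR h β θ0 x))) := by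
  obtain ⟨K1, hK1, hk⟩ := kill_one S T P
  have hC1 : 1 ≤ C := by
    have h1 := P.pC
    have h2 := P.pc
    linarith
  have hθ : ∀ᶠ x : ℝ in atTop, h' x < θ0 :=
    S.haz.tendsto_deriv.eventually (gt_mem_nhds P.pθ)
  filter_upwards [hk (K + 1), S.haz.log_le (K1 + K + 1 + C * K3), hθ,
    eventually_ge_atTop (2 : ℝ)] with x hx hl hθx hx2 hA π hπ n1 n2 hn
  refine (hx π hπ n1 n2 hn).trans (ENNReal.ofReal_le_ofReal ?_)
  have hxpos : 0 < x := by linarith
  have hmul : x ≤ (1 + C) * x := by nlinarith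
  have hθ2 : h' ((1 + C) * x) ≤ θ0 := (S.haz.anti x _ hxpos hmul).trans hθx.le
  have h1 := RR_le_h S.haz P hxpos hθ2
  have h2 := S.haz.upper_deriv hxpos hmul
  have h3 : ((1 + C) * x - x) * h' x ≤ C * (K3 * Real.log x) := by
    have h4 : ((1 + C) * x - x) * h' x = C * (x * h' x) := by ring
    rw [h4]
    exact mul_le_mul_of_nonneg_left hA.le (by linarith)
  have h5 : RR h β θ0 x ≤ h x + C * (K3 * Real.log x) := by linarith
  set R : ℝ := RR h β θ0 x with hRdef
  set l : ℝ := Real.log x with hldef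
  have hxl : x = Real.exp l := (Real.exp_log hxpos).symm
  have e1 : ∀ a : ℝ, x ^ a = Real.exp (l * a) := fun a => Real.rpow_def_of_pos hxpos a
  have h6 : x ^ K1 * Real.exp (-(2 * h x)) ≤ x ^ (-(K + 1)) * Real.exp (-R) := by
    rw [e1, e1, ← Real.exp_add, ← Real.exp_add]
    refine Real.exp_le_exp.2 ?_
    nlinarith
  have h7 : 2 * x ^ (-(K + 1)) ≤ x ^ (-K) := by
    have h8 : x ^ (-K) = x ^ (-(K + 1)) * x := by
      rw [← Real.rpow_add_one hxpos.ne']
      congr 1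
      ring
    have h9 := Real.rpow_pos_of_pos hxpos (-(K + 1))
    rw [h8]
    nlinarith
  have h10 := Real.exp_pos (-R)
  nlinarith

end Pool.Agent.Lib.MP_04add8_pr.Cv
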