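import Mathlib
import Pool.Agent.Lib.MP_04add8_pr.Cv.Base
import Pool.Agent.Lib.MP_04add8_pr.Two.TwoTail

open MeasureTheory ProbabilityTheory Filter Topology
open scoped ENNReal

set_option linter.unusedSectionVars false

namespace Pool.Agent.Lib.MP_04add8_pr.Cv

open Pool.Agent.Lib.MP_04add8_pr.Gen

variable {h h' : ℝ → ℝ} {μ ν : Measure ℝ} [IsProbabilityMeasure μ]
  [IsProbabilityMeasure ν]

private lemma TwoTailU_one (H : HazC h h') {F X u Y : ℝ} (hF : 0 ≤ F) (hY : 0 < Y)
    (h1 : Y + u ≤ X)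
    (hFx : ∀ X : ℝ, Y ≤ X → μ (Set.Ici X) ≤ ENNReal.ofReal (F * Real.exp (-(h X))))
    (v : ℝ) (hv : 0 ≤ v) (hvu : v ≤ u) :
    μ {y | max (X - y) 0 ≤ v} ≤
      ENNReal.ofReal (F * Real.exp (-(h X)) * Real.exp (h' Y * v)) := by
  have hs : {y : ℝ | max (X - y) 0 ≤ v} = Set.Ici (X - v) := by
    ext y
    simp only [Set.mem_ofPred_eq, Set.mem_Ici, max_le_iff]
    constructor
    · rintro ⟨b1, _⟩; linarith
    · intro b; exact ⟨by linarith, hv⟩
  have hYX : Y ≤ X - v := by linarith
  have hXv : 0 < X - v := by linarith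
  rw [hs]
  refine (hFx (X - v) hYX).trans (ENNReal.ofReal_le_ofReal ?_)
  rw [mul_assoc, ← Real.exp_add]
  refine mul_le_mul_of_nonneg_left (Real.exp_le_exp.2 ?_) hF
  have h2 := H.tangent (y := v) hXv (by linarith)
  have h3 : h' (X - v) ≤ h' Y := H.anti Y (X - v) hY hYX
  have h4 : h' (X - v) * v ≤ h' Y * v := by gcongr
  rw [sub_add_cancel] at h2
  linarith

/-- Original: `twoTail_upper` in `Two/TwoTail.lean` (`tt_core_upper` is reused). -/
theorem gtwoTail_upper (H : HazC h h') {F X1 X2 u Y : ℝ} (hF : 0 ≤ F) (hY : 0 < Y)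
    (h1 : Y + u ≤ X1) (h2 : Y + u ≤ X2) (hu : 0 ≤ u)
    (hFx : ∀ X : ℝ, Y ≤ X → μ (Set.Ici X) ≤ ENNReal.ofReal (F * Real.exp (-(h X)))) :
    (μ.prod μ) {p : ℝ × ℝ | max (X1 - p.1) 0 + max (X2 - p.2) 0 ≤ u} ≤
      ENNReal.ofReal (F ^ 2 * (Real.exp (-(h X1)) * Real.exp (-(h X2)) *
        ((1 + h' Y * u) * Real.exp (h' Y * u)))) := by
  have hθ : 0 ≤ h' Y := (H.pos Y hY).le
  have hmS : MeasurableSet {p : ℝ × ℝ | max (X1 - p.1) 0 + max (X2 - p.2) 0 ≤ u} := by
    apply measurableSet_le _ measurable_const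
    fun_prop
  rw [Measure.prod_apply hmS]
  have hV : Measurable (fun y : ℝ => max (X1 - y) 0) := by fun_prop
  have hc := tt_core_upper (μ := μ) hV (fun y => le_max_right _ _)
    (mul_nonneg hF (Real.exp_pos _).le) hθ hu (TwoTailU_one H hF hY h1 hFx)
  have hE2 : 0 ≤ F * Real.exp (-(h X2)) := mul_nonneg hF (Real.exp_pos _).le
  calc ∫⁻ y, μ (Prod.mk y ⁻¹' {p : ℝ × ℝ | max (X1 - p.1) 0 + max (X2 - p.2) 0 ≤ u}) ∂μ
      ≤ ∫⁻ y, ENNReal.ofReal (F * Real.exp (-(h X2))) *
        ({y | max (X1 - y) 0 ≤ u} : Set ℝ).indicator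
        (fun y => ENNReal.ofReal (Real.exp (h' Y * (u - max (X1 - y) 0)))) y ∂μ := by
        apply lintegral_mono
        intro y
        by_cases hy : max (X1 - y) 0 ≤ u
        · simp only
          rw [Set.indicator_of_mem (by exact hy)]
          have e : Prod.mk y ⁻¹' {p : ℝ × ℝ | max (X1 - p.1) 0 + max (X2 - p.2) 0 ≤ u} =
              {y' | max (X2 - y') 0 ≤ u - max (X1 - y) 0} := by
            ext y'
            simp only [Set.mem_preimage, Set.mem_ofPred_eq]
            constructor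
            · intro b; linarith
            · intro b; linarith
          rw [e, ← ENNReal.ofReal_mul hE2]
          exact TwoTailU_one H hF hY h2 hFx _ (by linarith)
            (by linarith [le_max_right (X1 - y) 0])
        · have e : Prod.mk y ⁻¹' {p : ℝ × ℝ | max (X1 - p.1) 0 + max (X2 - p.2) 0 ≤ u} = ∅ := by
            ext y'
            simp only [Set.mem_preimage, Set.mem_ofPred_eq, Set.mem_empty_iff_false, iff_false]
            intro b
            exact hy (by linarith [le_max_right (X2 - y') 0])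
          simp only
          rw [e, measure_empty]
          exact zero_le
    _ = ENNReal.ofReal (F * Real.exp (-(h X2))) * ∫⁻ y,
        ({y | max (X1 - y) 0 ≤ u} : Set ℝ).indicator
        (fun y => ENNReal.ofReal (Real.exp (h' Y * (u - max (X1 - y) 0)))) y ∂μ := by
        apply lintegral_const_mul
        apply Measurable.indicator _ (measurableSet_le hV measurable_const)
        fun_prop
    _ ≤ ENNReal.ofReal (F * Real.exp (-(h X2))) *
        ENNReal.ofReal (F * Real.exp (-(h X1)) *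
          ((1 + h' Y * u) * Real.exp (h' Y * u))) := by gcongr
    _ = _ := by
        rw [← ENNReal.ofReal_mul hE2]
        congr 1
        ring

end Pool.Agent.Lib.MP_04add8_pr.Cv
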