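import Mathlib
import Pool.Agent.Lib.MP_04add8_pr.Cv.TwoTailU
import Pool.Agent.Lib.MP_04add8_pr.Cv.LawM
import Pool.Agent.Lib.MP_04add8_pr.Two.MainU

open MeasureTheory ProbabilityTheory Filter Topology
open scoped ENNReal

set_option linter.unusedSectionVars false

namespace Pool.Agent.Lib.MP_04add8_pr.Cv

open Pool.Agent.Lib.MP_04add8_pr.Gen

variable {h h' : ℝ → ℝ} {μ ν : Measure ℝ} [IsProbabilityMeasure μ]
  [IsProbabilityMeasure ν]

open Pool.Agent.Lib.MP_04add8_pr.MainU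

/-- lower bound for the cost `h (x + T - v)` -/
private lemma MainU_cost_lower (H : HazC h h') {x ε ε4 T v θp θm : ℝ} (hx : 0 < x) (hε0 : 0 < ε)
    (hε : ε ≤ 1 / 8) (hε4 : 0 < ε4)
    (hθp : h' ((1 - 4 * ε) * x) ≤ θp) (hθm : θm ≤ h' ((1 + ε4) * x))
    (hT0 : 0 ≤ T) (hT : T ≤ ε4 * x) (hv0 : 0 ≤ v)
    (hv : v ≤ 4 * ε * x) :
    h x - θp * v + θm * T ≤ h (x + T - v) := by
  have h14 : 0 < 1 - 4 * ε := by linarith
  have hxv : (1 - 4 * ε) * x ≤ x - v := by linarith
  have hpos : 0 < (1 - 4 * ε) * x := mul_pos h14 hx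
  have hxv0 : 0 < x - v := by linarith
  -- first tangent inequality
  have e1 := H.tangent hxv0 (y := v) (by linarith)
  have e2 : h' (x - v) ≤ θp := (H.anti _ _ hpos hxv).trans hθp
  have e3 : h' (x - v) * v ≤ θp * v := mul_le_mul_of_nonneg_right e2 hv0
  have e4 : x - v + v = x := by ring
  rw [e4] at e1
  -- second tangent inequality
  have hz0 : 0 < x + T - v := by linarith
  have f1 := H.tangent hz0 (y := -T) (by linarith)
  have f2 : θm ≤ h' (x + T - v) := hθm.trans (H.anti _ _ hz0 (by linarith))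
  have f3 : θm * T ≤ h' (x + T - v) * T := mul_le_mul_of_nonneg_right f2 hT0
  have f4 : x + T - v + -T = x - v := by ring
  rw [f4] at f1
  linarith

/-- Original: `mainEvent_bound` in `Two/MainU.lean` (`MainU.swap4`, `MainU.lintegral_fst_fst`,
`MainU.bad`, measurability lemmas, `det_main` are reused). The cost inequality is
`h (x + T - v) ≥ h x - θp v + θm T` for `0 ≤ v ≤ 4 ε x`, `0 ≤ T ≤ ε4 x` (two tangents). -/
theorem gmainEvent_bound (S : StdC μ ν h h') {F x B ε ε4 τ θp θm : ℝ} (hF : 0 ≤ F) (hx : 0 < x)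
    (hε0 : 0 < ε) (hε : ε ≤ 1 / 8) (hε4 : 0 < ε4) (hτ : 0 ≤ τ)
    (hθp : h' ((1 - 4 * ε) * x) ≤ θp) (hθm0 : 0 ≤ θm) (hθm : θm ≤ h' ((1 + ε4) * x))
    (hFx : ∀ X : ℝ, (1 - 4 * ε) * x ≤ X →
      μ (Set.Ici X) ≤ ENNReal.ofReal (F * Real.exp (-(h X))))
    {n1 n2 : ℕ} (hN : (n1 + n2 + 2 : ℝ) * τ ≤ ε4 * x)
    {w : ℝ × ℝ} (h0 : 0 ≤ w.1) (h1 : w.1 ≤ w.2) (h2 : w.2 ≤ 2 * ε * x) :
    (noise μ ν) {z | (w, z) ∈ mainEvent x B ε n1 n2} ≤
      ENNReal.ofReal (F ^ 2 * Real.exp (-(h x)) ^ 2 * Real.exp (θp * w.1)) *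
      walkA μ ν B τ θp θm n1 w.2 * walkC μ ν B τ θp θm n2 := by
  have hw2 : 0 ≤ w.2 := h0.trans h1
  have hεx : 0 < ε * x := mul_pos hε0 hx
  have hεx8 : ε * x ≤ x / 8 := by nlinarith
  have h14 : 0 < 1 - 4 * ε := by linarith
  have hY : 0 < (1 - 4 * ε) * x := mul_pos h14 hx
  have H := S.haz
  have hθp0 : 0 ≤ θp := (H.pos _ hY).le.trans hθp
  have hae := law_prod_nonneg (μ := μ) (ν := ν) S.law S.hν
  have haez := ae_noise hae
  set SS := bad w x B ε τ n1 n2 with hS
  have hSm : MeasurableSet SS := measurableSet_bad w x B ε τ n1 n2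
  have hM := measurableSet_main w x B ε n1 n2
  set g : ((ℕ → ℝ × ℝ) × (ℕ → ℝ × ℝ)) × ((ℝ × ℝ) × (ℝ × ℝ)) → ℝ≥0∞ :=
    SS.indicator (fun _ => 1) with hgdef
  have hg : Measurable g := measurable_const.indicator hSm
  -- step 1
  have step1 : (noise μ ν) {z | (w, z) ∈ mainEvent x B ε n1 n2} ≤
      ∫⁻ p1, ∫⁻ z1, ∫⁻ p2, ∫⁻ z2, g ((z1, z2), (p1, p2))
        ∂(noise μ ν) ∂(μ.prod ν) ∂(noise μ ν) ∂(μ.prod ν) := by
    rw [← lintegral_indicator_one hM]
    rw [lintegral_noise_four n1 (measurable_one.indicator hM)]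
    refine lintegral_mono_ae ?_
    filter_upwards [hae] with p1 hp1
    refine lintegral_mono_ae ?_
    filter_upwards [haez] with z1 hz1
    refine lintegral_mono_ae ?_
    filter_upwards [hae] with p2 hp2
    refine lintegral_mono_ae ?_
    filter_upwards [haez] with z2 hz2
    by_cases hmem : four n1 p1 z1 p2 z2 ∈ {z | (w, z) ∈ mainEvent x B ε n1 n2}
    · rw [Set.indicator_of_mem hmem]
      have hmem' : ((z1, z2), (p1, p2)) ∈ SS := by
        obtain ⟨-, ⟨-, hb1, -, hb2⟩, hs1, hs2, hlast⟩ := hmem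
        simp only at hb1 hb2 hs1 hs2 hlast
        have hs1' : sumS z1 n1 ≤ ε * x := by
          unfold sumS
          refine le_trans (le_of_eq ?_) hs1
          refine Finset.sum_congr rfl fun i hi => ?_
          rw [four_one n1 p1 z1 p2 z2 (Finset.mem_range.1 hi)]
        have hs2' : sumS z2 n2 ≤ ε * x := by
          unfold sumS
          refine le_trans (le_of_eq ?_) hs2
          refine Finset.sum_congr rfl fun i _ => ?_
          rw [four_three n1 p1 z1 p2 z2 i]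
        rw [pIter_four] at hlast
        refine ⟨fun i hi => ?_, fun i hi => ?_, hs1', hs2', ?_⟩
        · have := hb1 i hi
          rw [four_one n1 p1 z1 p2 z2 hi] at this
          exact this
        · have := hb2 i hi
          rw [four_three n1 p1 z1 p2 z2 i] at this
          exact this
        · exact det_main hx hε0 hε h0 h1 h2 hp1 hp2 hz1 hz2 n1 n2 hs1' hs2' hτ hlast
      rw [hgdef, Set.indicator_of_mem hmem']
      exact le_refl _
    · rw [Set.indicator_of_notMem hmem]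
      exact bot_le
  -- step 3
  have step3 : ∀ᵐ z1 ∂(noise μ ν), ∀ᵐ z2 ∂(noise μ ν),
      ∫⁻ p1, ∫⁻ p2, g ((z1, z2), (p1, p2)) ∂(μ.prod ν) ∂(μ.prod ν) ≤
        ENNReal.ofReal (F ^ 2 * Real.exp (-(h x)) ^ 2 * Real.exp (θp * w.1)) *
        (({z : ℕ → ℝ × ℝ | ∀ i < n1, (z i).1 ≤ B}).indicator
          (fun z => ENNReal.ofReal (Real.exp (θp * reflT τ w.2 z n1 - θm * sumT τ z n1))) z1) *
        (({z : ℕ → ℝ × ℝ | ∀ i < n2, (z i).1 ≤ B}).indicator
          (fun z => ENNReal.ofReal ((1 + θp * sumS z n2) *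
            Real.exp (θp * sumS z n2 - 2 * θm * sumT τ z n2))) z2) := by
    filter_upwards [haez] with z1 hz1
    filter_upwards [haez] with z2 hz2
    by_cases hc : (∀ i < n1, (z1 i).1 ≤ B) ∧ (∀ i < n2, (z2 i).1 ≤ B) ∧ sumS z1 n1 ≤ ε * x ∧
        sumS z2 n2 ≤ ε * x
    · obtain ⟨c1, c2, c3, c4⟩ := hc
      rw [Set.indicator_of_mem (show z1 ∈ {z : ℕ → ℝ × ℝ | ∀ i < n1, (z i).1 ≤ B} from c1),
        Set.indicator_of_mem (show z2 ∈ {z : ℕ → ℝ × ℝ | ∀ i < n2, (z i).1 ≤ B} from c2)]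
      set T1 := sumT τ z1 n1 with hT1
      set T2 := sumT τ z2 n2 with hT2
      set R := reflT τ w.2 z1 n1 with hR
      set U := sumS z2 n2 with hU
      set X1 := x + T2 + T1 - w.1 with hX1
      set X2 := x + T2 - R with hX2
      have hT10 : 0 ≤ T1 := sumT_nonneg hτ hz1 n1
      have hT20 : 0 ≤ T2 := sumT_nonneg hτ hz2 n2
      have hT1n : T1 ≤ n1 * τ := sumT_le z1 n1
      have hT2n : T2 ≤ n2 * τ := sumT_le z2 n2
      have hR0 : 0 ≤ R := Det1.reflT_nonneg hw2 z1 n1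
      have hR1 : R ≤ w.2 + sumS z1 n1 := Det1.reflT_le hτ hw2 hz1 n1
      have hU0 : 0 ≤ U := Det1.sumS_nonneg hz2 n2
      have hTT : T2 + T1 ≤ ε4 * x := by nlinarith
      have hT2' : T2 ≤ ε4 * x := by linarith
      have hset : MeasurableSet {p : ℝ × ℝ | max (X1 - p.1) 0 + max (X2 - p.2) 0 ≤ U} := by
        refine measurableSet_le ?_ measurable_const
        fun_prop
      have e1 : ∫⁻ p1, ∫⁻ p2, g ((z1, z2), (p1, p2)) ∂(μ.prod ν) ∂(μ.prod ν) =
          (μ.prod μ) {p : ℝ × ℝ | max (X1 - p.1) 0 + max (X2 - p.2) 0 ≤ U} := by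
        rw [← lintegral_indicator_one hset,
          ← lintegral_fst_fst (μ := μ) (ν := ν) (measurable_one.indicator hset)]
        refine lintegral_congr fun p1 => lintegral_congr fun p2 => ?_
        by_cases hq : max (X1 - p1.1) 0 + max (X2 - p2.1) 0 ≤ U
        · rw [hgdef, Set.indicator_of_mem (show ((z1, z2), (p1, p2)) ∈ SS from
            ⟨c1, c2, c3, c4, hq⟩),
            Set.indicator_of_mem (show (p1.1, p2.1) ∈ {p : ℝ × ℝ | max (X1 - p.1) 0 +
              max (X2 - p.2) 0 ≤ U} from hq)]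
          rfl
        · rw [hgdef, Set.indicator_of_notMem (fun h => hq h.2.2.2.2),
            Set.indicator_of_notMem (show (p1.1, p2.1) ∉ {p : ℝ × ℝ | max (X1 - p.1) 0 +
              max (X2 - p.2) 0 ≤ U} from hq)]
      rw [e1]
      have e2 := gtwoTail_upper (μ := μ) H (X1 := X1) (X2 := X2) (u := U) hF hY
        (by rw [hX1]; linarith) (by rw [hX2]; linarith) hU0 hFx
      refine e2.trans ?_
      have k1 : h x - θp * w.1 + θm * (T2 + T1) ≤ h X1 := by
        have := MainU_cost_lower H hx hε0 hε hε4 hθp hθm (add_nonneg hT20 hT10) hTT h0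
          (by linarith : w.1 ≤ 4 * ε * x)
        have e : x + (T2 + T1) - w.1 = X1 := by rw [hX1]; ring
        rw [e] at this
        exact this
      have k2 : h x - θp * R + θm * T2 ≤ h X2 :=
        MainU_cost_lower H hx hε0 hε hε4 hθp hθm hT20 hT2' hR0 (by linarith : R ≤ 4 * ε * x)
      rw [← ENNReal.ofReal_mul (by positivity), ← ENNReal.ofReal_mul (by positivity)]
      refine ENNReal.ofReal_le_ofReal ?_
      have hU1 : 0 ≤ 1 + θp * U := by positivity
      have k3 : Real.exp (-(h X1)) * Real.exp (-(h X2)) * Real.exp (θp * U) ≤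
          Real.exp (-(h x)) ^ 2 * Real.exp (θp * w.1) * Real.exp (θp * R - θm * T1) *
            Real.exp (θp * U - 2 * θm * T2) := by
        rw [sq, ← Real.exp_add, ← Real.exp_add, ← Real.exp_add, ← Real.exp_add, ← Real.exp_add,
          ← Real.exp_add]
        refine Real.exp_le_exp.2 ?_
        linarith
      have k4 : (1 + h' ((1 - 4 * ε) * x) * U) * Real.exp (h' ((1 - 4 * ε) * x) * U) ≤
          (1 + θp * U) * Real.exp (θp * U) := by
        have q1 : h' ((1 - 4 * ε) * x) * U ≤ θp * U := mul_le_mul_of_nonneg_right hθp hU0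
        exact mul_le_mul (by linarith) (Real.exp_le_exp.2 q1) (Real.exp_pos _).le hU1
      calc F ^ 2 * (Real.exp (-(h X1)) * Real.exp (-(h X2)) *
            ((1 + h' ((1 - 4 * ε) * x) * U) * Real.exp (h' ((1 - 4 * ε) * x) * U)))
          ≤ F ^ 2 * (Real.exp (-(h X1)) * Real.exp (-(h X2)) *
            ((1 + θp * U) * Real.exp (θp * U))) := by gcongr
        _ = F ^ 2 * ((1 + θp * U) *
            (Real.exp (-(h X1)) * Real.exp (-(h X2)) * Real.exp (θp * U))) := by
            ring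
        _ ≤ F ^ 2 * ((1 + θp * U) * (Real.exp (-(h x)) ^ 2 * Real.exp (θp * w.1) *
            Real.exp (θp * R - θm * T1) * Real.exp (θp * U - 2 * θm * T2))) :=
            mul_le_mul_of_nonneg_left (mul_le_mul_of_nonneg_left k3 hU1) (by positivity)
        _ = _ := by ring
    · have e1 : ∀ p1 p2, g ((z1, z2), (p1, p2)) = 0 := by
        intro p1 p2
        rw [hgdef, Set.indicator_of_notMem]
        intro h
        exact hc ⟨h.1, h.2.1, h.2.2.1, h.2.2.2.1⟩
      simp only [e1, lintegral_zero]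
      exact bot_le
  -- conclusion
  refine step1.trans ?_
  rw [swap4 hg]
  unfold walkA walkC
  set fA : (ℕ → ℝ × ℝ) → ℝ≥0∞ := ({z : ℕ → ℝ × ℝ | ∀ i < n1, (z i).1 ≤ B}).indicator
    (fun z => ENNReal.ofReal (Real.exp (θp * reflT τ w.2 z n1 - θm * sumT τ z n1))) with hfA
  set fC : (ℕ → ℝ × ℝ) → ℝ≥0∞ := ({z : ℕ → ℝ × ℝ | ∀ i < n2, (z i).1 ≤ B}).indicator
    (fun z => ENNReal.ofReal ((1 + θp * sumS z n2) *
      Real.exp (θp * sumS z n2 - 2 * θm * sumT τ z n2))) with hfC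
  have mA : Measurable fA := by
    refine Measurable.indicator ?_ (measurableSet_small B n1)
    have hR : Measurable (fun z : ℕ → ℝ × ℝ => reflT τ w.2 z n1) :=
      (measurable_reflT τ n1).comp (measurable_const.prodMk measurable_id)
    have hT := measurable_sumT τ n1
    exact (((hR.const_mul θp).sub (hT.const_mul θm)).exp).ennreal_ofReal
  have mC : Measurable fC := by
    refine Measurable.indicator ?_ (measurableSet_small B n2)
    have hS := measurable_sumS n2
    have hT := measurable_sumT τ n2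
    exact ((measurable_const.add (hS.const_mul θp)).mul
      (((hS.const_mul θp).sub (hT.const_mul (2 * θm))).exp)).ennreal_ofReal
  calc ∫⁻ z1, ∫⁻ z2, ∫⁻ p1, ∫⁻ p2, g ((z1, z2), (p1, p2))
        ∂(μ.prod ν) ∂(μ.prod ν) ∂(noise μ ν) ∂(noise μ ν)
      ≤ ∫⁻ z1, ∫⁻ z2, ENNReal.ofReal (F ^ 2 * Real.exp (-(h x)) ^ 2 * Real.exp (θp * w.1)) * fA z1 *
          fC z2 ∂(noise μ ν) ∂(noise μ ν) := by
        refine lintegral_mono_ae ?_
        filter_upwards [step3] with z1 h1
        exact lintegral_mono_ae h1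
    _ = ∫⁻ z1, ENNReal.ofReal (F ^ 2 * Real.exp (-(h x)) ^ 2 * Real.exp (θp * w.1)) * fA z1 *
          (∫⁻ z2, fC z2 ∂(noise μ ν)) ∂(noise μ ν) := by
        refine lintegral_congr fun z1 => ?_
        rw [lintegral_const_mul _ mC]
    _ = _ := by
        rw [lintegral_mul_const _ (mA.const_mul _), lintegral_const_mul _ mA]

end Pool.Agent.Lib.MP_04add8_pr.Cv
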