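import Mathlib
import Pool.Agent.Lib.MP_04add8_pr.Cv.Lapl
import Pool.Agent.Lib.MP_04add8_pr.Cv.LawM
import Pool.Agent.Lib.MP_04add8_pr.Cv.Base
import Pool.Agent.Lib.MP_04add8_pr.Cv.RV
import Pool.Agent.Lib.MP_04add8_pr.One.Phi
import Pool.Agent.Lib.MP_04add8_pr.One.BetaA

/-!
The linear slope function `β θ = θ / b`, admissible for `b > (E - m)/m`.
-/

open MeasureTheory ProbabilityTheory Filter Topology
open scoped ENNReal

set_option linter.unusedSectionVars false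

namespace Pool.Agent.Lib.MP_04add8_pr.Cv

open Pool.Agent.Lib.MP_04add8_pr.Gen

variable {h h' : ℝ → ℝ} {μ ν : Measure ℝ} [IsProbabilityMeasure μ]
  [IsProbabilityMeasure ν]

/-- the truncated transform for harmless tilts, second order bound -/
private lemma potLin_upper (S : StdC μ ν h h') :
    ∃ C : ℝ, 0 ≤ C ∧ ∀ B β θ : ℝ, 0 ≤ β → 0 ≤ θ → Tilt h β B →
      trPhi μ ν B β θ ≤
        ENNReal.ofReal (β * (∫ s, s ∂μ) + β ^ 2 * C + lap ν (β + θ)) := by
  have H := S.haz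
  have L := S.law
  have hν := S.hν
  have hpos := L.nn
  have hi : Integrable (fun s : ℝ => s ^ 2 * Real.exp (1 / 4 * h s)) μ :=
    law_integrable H L (by norm_num) 2
  have hi1 : Integrable (fun s : ℝ => s) μ := by
    have := law_integrable_pow H L 1
    simpa using this
  have hE0 : 0 ≤ ∫ s, s ∂μ := integral_nonneg_of_ae hpos
  have hC0 : ∀ᵐ s ∂μ, 0 ≤ s ^ 2 * Real.exp (1 / 4 * h s) := by
    filter_upwards with s
    positivity
  refine ⟨∫ s, s ^ 2 * Real.exp (1 / 4 * h s) ∂μ, integral_nonneg_of_ae hC0, ?_⟩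
  intro B β θ hβ hθ hT
  set C := ∫ s, s ^ 2 * Real.exp (1 / 4 * h s) ∂μ with hC
  have hC' : 0 ≤ C := integral_nonneg_of_ae hC0
  have hl := phi_lap hν (add_nonneg hβ hθ)
  have hle : ∀ᵐ s ∂μ, (Set.Iic B).indicator (fun _ => (1 : ℝ≥0∞)) s *
      ENNReal.ofReal (Real.exp (β * s)) ≤
      ENNReal.ofReal (1 + (β * s + β ^ 2 * (s ^ 2 * Real.exp (1 / 4 * h s)))) := by
    filter_upwards [hpos] with s hs
    by_cases hsx : s ∈ Set.Iic B
    · rw [Set.indicator_of_mem hsx, one_mul]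
      apply ENNReal.ofReal_le_ofReal
      have h3 : β * s ≤ 1 / 4 * h s := by
        have := hT s hs hsx
        linarith
      have h8 := phi_exp_le (mul_nonneg hβ hs) 1
      have h9 : ∑ j ∈ Finset.range (1 + 1), (β * s) ^ j / (j.factorial : ℝ) = 1 + β * s := by
        simp [Finset.sum_range_succ]
      rw [h9] at h8
      calc Real.exp (β * s) ≤ _ := h8
        _ ≤ 1 + β * s + (β * s) ^ (1 + 1) * Real.exp (1 / 4 * h s) := by gcongr
        _ = _ := by ring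
    · rw [Set.indicator_of_notMem hsx, zero_mul]
      exact zero_le
  have hnn : ∀ᵐ s ∂μ, 0 ≤ 1 + (β * s + β ^ 2 * (s ^ 2 * Real.exp (1 / 4 * h s))) := by
    filter_upwards [hpos] with s hs
    positivity
  have hI : Integrable (fun s : ℝ => β * s + β ^ 2 * (s ^ 2 * Real.exp (1 / 4 * h s))) μ :=
    (hi1.const_mul β).add (hi.const_mul _)
  have hint : ∫⁻ s, (Set.Iic B).indicator (fun _ => (1 : ℝ≥0∞)) s *
      ENNReal.ofReal (Real.exp (β * s)) ∂μ ≤
      ENNReal.ofReal (1 + (β * (∫ s, s ∂μ) + β ^ 2 * C)) := by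
    refine (lintegral_mono_ae hle).trans ?_
    have h10 := ofReal_integral_eq_lintegral_ofReal (f := fun s : ℝ =>
      1 + (β * s + β ^ 2 * (s ^ 2 * Real.exp (1 / 4 * h s)))) ((integrable_const _).add hI) hnn
    rw [← h10]
    apply ENNReal.ofReal_le_ofReal
    rw [integral_add (integrable_const _) hI, integral_add (hi1.const_mul β) (hi.const_mul _),
      integral_const_mul, integral_const_mul]
    simp [hC]
  rw [phi_factor hν hβ hθ]
  refine (mul_le_mul_left hint _).trans ?_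
  rw [← ENNReal.ofReal_mul' hl.2.1]
  apply ENNReal.ofReal_le_ofReal
  have h9 : 0 ≤ β * (∫ s, s ∂μ) + β ^ 2 * C := by positivity
  nlinarith [mul_le_mul_of_nonneg_left hl.2.2 h9]

/-- **The linear potential** `β θ = θ / b`, `C = 1 / b`, `c = 1 / b - 1`. With `m = ∫ t dν`, `E = ∫ s dμ`,
`g = m + m/b - E/b > 0` (because `E - m < b m`) and `e` small. `lapl`: `lap_lin` (`2 e ≤ cL`, and `θ ≤ θ0 ≤ 1`).
`sub`: let `Tilt h (θ/b) B`. Then for `0 ≤ s ≤ B`: `e^{(θ/b) s} ≤ 1 + (θ/b) s + (θ/b)² s² e^{h s/4}`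
(`e^x ≤ 1 + x + x² e^x` for `x ≥ 0`), and `trPhi μ ν B (θ/b) θ = (∫_{s ≤ B} e^{(θ/b) s} dμ) (∫ e^{-(θ/b + θ) t} dν)`
(Tonelli) `≤ (1 + θ E/b + θ² C1) * lap ν (θ/b + θ)`, `C1 = b^{-2} ∫ s² e^{h s/4} dμ` (`law_integrable`). Moreover
`(1 - lap ν q)/q → m` as `q → 0+` (dominated convergence; monotone: `(1 - e^{-q t})/q ↑ t`), so
`lap ν (θ/b + θ) ≤ 1 - (1/b + 1) θ (m - δ)` for `θ ≤ θ0(δ)`. Hence
`trPhi ≤ (1 + θ E/b + θ² C1)(1 - (1/b+1) θ (m - δ)) ≤ 1 - (g/2) θ` for `θ ≤ θ0`. -/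
theorem pot_lin (S : StdC μ ν h h') {b : ℝ} (hb0 : 0 < b)
    (hb : (∫ s, s ∂μ) - (∫ t, t ∂ν) < b * ∫ t, t ∂ν) (hb1 : b < 1) :
    ∃ θ0 e : ℝ, 0 < θ0 ∧ 0 < e ∧ Pot μ ν h (fun θ => θ / b) θ0 (1 / b - 1) (1 / b) e := by
  obtain ⟨C, hC0, hC⟩ := potLin_upper S
  obtain ⟨cL, hcL0, hcL⟩ := lap_lin S.hν S.hm one_pos
  have hν := S.hν
  have hm := S.hm
  have hlim := BetaAux.tendsto_lap (BetaAux.ae_nonneg hν) S.hνi
  set E := ∫ s, s ∂μ with hE
  set m := ∫ t, t ∂ν with hmdef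
  set g : ℝ := (1 / b + 1) * m - E / b with hg
  have hg0 : 0 < g := by
    have h1 : g = (b * m - (E - m)) / b := by
      rw [hg]
      field_simp
      ring
    rw [h1]
    exact div_pos (by linarith) hb0
  have hb' : 0 < 1 / b + 1 := by positivity
  set δ : ℝ := g / (4 * (1 / b + 1)) with hδ
  have hδ0 : 0 < δ := by positivity
  have hδe : (1 / b + 1) * δ = g / 4 := by
    rw [hδ]
    field_simp
  have hev : ∀ᶠ q in 𝓝[>] (0 : ℝ), m - δ < (1 - lap ν q) / q :=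
    hlim.eventually (lt_mem_nhds (by linarith : m - δ < m))
  obtain ⟨q0, hq0, hq⟩ := mem_nhdsGT_iff_exists_Ioo_subset.1 hev
  have hq0' : 0 < q0 := hq0
  set θ0 : ℝ := min 1 (min (q0 / (2 * (1 / b + 1))) (g * b ^ 2 / (4 * (C + 1)))) with hθ0
  have hθ0pos : 0 < θ0 := by
    rw [hθ0]
    refine lt_min one_pos (lt_min (by positivity) (by positivity))
  set e : ℝ := min (cL / 2) (g / 2) with he
  have he0 : 0 < e := lt_min (by positivity) (by positivity)
  have hb2 : 1 < 1 / b := by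
    rw [lt_div_iff₀ hb0]
    linarith
  refine ⟨θ0, e, hθ0pos, he0, ⟨hθ0pos, by linarith, by linarith, he0.le, ?_, ?_, ?_, ?_, ?_⟩⟩
  · intro θ _ _
    exact le_of_eq (by ring)
  · intro θ _ _
    exact le_of_eq (by ring)
  · intro θ θ' _ h2 _
    exact div_le_div_of_nonneg_right h2 hb0.le
  · intro θ h1 h2
    have h3 : θ ≤ 1 := h2.trans (min_le_left _ _)
    have h4 := hcL θ h1 h3
    have h5 : e ≤ cL / 2 := min_le_left _ _
    have h6 := mul_le_mul_of_nonneg_right h5 h1.le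
    linarith
  · intro θ B h1 h2 hT
    have hβ : 0 ≤ θ / b := by positivity
    have hT' : Tilt h (θ / b) B := by
      have h3 : 1 / b * θ = θ / b := by ring
      rwa [h3] at hT
    refine (hC B (θ / b) θ hβ h1.le hT').trans (ENNReal.ofReal_le_ofReal ?_)
    have hqe : θ / b + θ = (1 / b + 1) * θ := by ring
    have hqpos : 0 < (1 / b + 1) * θ := by positivity
    have hθq : θ ≤ q0 / (2 * (1 / b + 1)) :=
      h2.trans ((min_le_right _ _).trans (min_le_left _ _))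
    have hθC : θ ≤ g * b ^ 2 / (4 * (C + 1)) :=
      h2.trans ((min_le_right _ _).trans (min_le_right _ _))
    have hqlt : (1 / b + 1) * θ < q0 := by
      rw [le_div_iff₀ (by positivity)] at hθq
      nlinarith
    have h5 : m - δ < (1 - lap ν ((1 / b + 1) * θ)) / ((1 / b + 1) * θ) := hq ⟨hqpos, hqlt⟩
    rw [lt_div_iff₀ hqpos] at h5
    rw [hqe]
    have h6 : (m - δ) * ((1 / b + 1) * θ) = (1 / b + 1) * m * θ - g / 4 * θ := by
      rw [← hδe]
      ring
    rw [h6] at h5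
    have h7 : (θ / b) ^ 2 * C ≤ g / 4 * θ := by
      rw [le_div_iff₀ (by positivity)] at hθC
      have h8 : θ * C ≤ g / 4 * b ^ 2 := by nlinarith
      have h9 : (θ / b) ^ 2 * C = θ * (θ * C) / b ^ 2 := by
        field_simp
      rw [h9, div_le_iff₀ (by positivity)]
      nlinarith
    have h10 : e ≤ g / 2 := min_le_right _ _
    have h11 := mul_le_mul_of_nonneg_right h10 h1.le
    have h12 : (1 / b + 1) * m * θ = g * θ + θ / b * E := by
      rw [hg]
      ring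
    rw [h12] at h5
    linarith

/-- some potential with `e = 0` -/
theorem exists_pot (S : StdC μ ν h h') : ∃ (β : ℝ → ℝ) (θ0 c C : ℝ), Pot μ ν h β θ0 c C 0 := by
  have hm := S.hm
  have h1 := S.hgt
  have h2 := S.hlt
  set E := ∫ s, s ∂μ with hE
  set m := ∫ t, t ∂ν with hmdef
  have h3 : 0 < (E - m) / m := div_pos (by linarith) hm
  have h4 : (E - m) / m < 1 := by
    rw [div_lt_one hm]
    linarith
  have h5 : E - m < (((E - m) / m + 1) / 2) * m := by
    have h6 : (E - m) / m * m = E - m := div_mul_cancel₀ _ hm.ne'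
    nlinarith
  obtain ⟨θ0, e, h7, h8, P⟩ := pot_lin S (b := ((E - m) / m + 1) / 2) (by linarith) h5
    (by linarith)
  refine ⟨_, θ0, _, _, ⟨P.pθ, P.pc, P.pC, le_rfl, P.low, P.up, P.mono, ?_, ?_⟩⟩
  · intro θ h9 h10
    have h11 := P.lapl θ h9 h10
    have h12 := mul_pos h8 h9
    linarith
  · intro θ B h9 h10 hT
    refine (P.sub θ B h9 h10 hT).trans (ENNReal.ofReal_le_ofReal ?_)
    have h12 := mul_pos h8 h9
    linarith

end Pool.Agent.Lib.MP_04add8_pr.Cv
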