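import Mathlib
import Pool.Agent.Lib.MP_04add8_pr.Cv.AP
import Pool.Agent.Lib.MP_04add8_pr.Cv.PotLin

open MeasureTheory ProbabilityTheory Filter Topology
open scoped ENNReal

set_option linter.unusedSectionVars false

namespace Pool.Agent.Lib.MP_04add8_pr.Cv

open Pool.Agent.Lib.MP_04add8_pr.Gen

variable {h h' : ℝ → ℝ} {μ ν : Measure ℝ} [IsProbabilityMeasure μ]
  [IsProbabilityMeasure ν]

variable {B v : ℝ → ℝ}

private lemma PMom_meas (H : HazC h h') (c : ℝ) :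
    Measurable (fun w : ℝ × ℝ => ENNReal.ofReal (Real.exp (h w.2 / c))) := by
  have h1 : Measurable h := H.cont.measurable
  fun_prop

private lemma PMom_core (S : StdC μ ν h h') (T : Thr h h' B v) :
    ∃ KA y0 : ℝ, 1 ≤ KA ∧ 1 ≤ y0 ∧
    ∀ y : ℝ, y0 ≤ y → ∀ π : Measure (ℝ × ℝ), IsStationaryKW μ ν π →
      ∀ z : ℝ, ∫⁻ w, ({w : ℝ × ℝ | z ≤ w.2 ∧ w.2 ≤ y}).indicator
        (fun w => ENNReal.ofReal (Real.exp (h w.2 / 4))) w ∂π ≤
        ENNReal.ofReal (Real.exp (-(3 / 4 * h z)) * y ^ KA) := by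
  obtain ⟨β, θ0, c, C, P⟩ := exists_pot S
  obtain ⟨KA, y0, hKA, hy0, hb⟩ := ap_bound S T P (le_refl (4 * C))
  have hC : 0 ≤ 4 * C := by
    have h1 := P.pC
    have h2 := P.pc
    linarith
  refine ⟨KA, y0, hKA, hy0, fun y hy π hπ z => ?_⟩
  have h1 : ∫⁻ w, ({w : ℝ × ℝ | z ≤ w.2 ∧ w.2 ≤ y}).indicator
        (fun w => ENNReal.ofReal (Real.exp (h w.2 / 4))) w ∂π ≤
      ∫⁻ w, ENNReal.ofReal (Real.exp (-(3 / 4 * h z))) *
        ({w : ℝ × ℝ | w.2 ≤ y}).indicator (EP h β (4 * C) θ0) w ∂π := by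
    apply lintegral_mono_ae
    filter_upwards [hπ.ae_ordered] with w hw
    by_cases hz : z ≤ w.2 ∧ w.2 ≤ y
    · rw [Set.indicator_of_mem (show w ∈ {w : ℝ × ℝ | z ≤ w.2 ∧ w.2 ≤ y} from hz),
        Set.indicator_of_mem (show w ∈ {w : ℝ × ℝ | w.2 ≤ y} from hz.2)]
      refine le_trans ?_ (mul_le_mul_right (EP_ge S.haz P hC hw.1 hw.2) _)
      rw [← ENNReal.ofReal_mul (Real.exp_pos _).le, ← Real.exp_add]
      refine ENNReal.ofReal_le_ofReal (Real.exp_le_exp.2 ?_)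
      have h2 := S.haz.mono hz.1
      linarith
    · rw [Set.indicator_of_notMem (show w ∉ {w : ℝ × ℝ | z ≤ w.2 ∧ w.2 ≤ y} from hz)]
      exact zero_le
  refine h1.trans ?_
  rw [lintegral_const_mul' _ _ ENNReal.ofReal_ne_top, ENNReal.ofReal_mul (Real.exp_pos _).le]
  exact mul_le_mul_right (hb y hy π hπ) _

private lemma PMom_block (S : StdC μ ν h h') (T : Thr h h' B v) :
    ∃ z1 : ℝ, 1 ≤ z1 ∧ ∀ z : ℝ, z1 ≤ z → ∀ π : Measure (ℝ × ℝ), IsStationaryKW μ ν π →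
      ∫⁻ w, ({w : ℝ × ℝ | z ≤ w.2 ∧ w.2 ≤ z ^ 2}).indicator
        (fun w => ENNReal.ofReal (Real.exp (h w.2 / 4))) w ∂π ≤ ENNReal.ofReal (z⁻¹) := by
  obtain ⟨KA, y0, hKA, hy0, hb⟩ := PMom_core S T
  obtain ⟨z2, hz2⟩ := (S.haz.log_le (4 / 3 * (2 * KA + 1))).exists_forall_of_atTop
  refine ⟨max z2 y0, hy0.trans (le_max_right _ _), fun z hz π hπ => ?_⟩
  have hzy : y0 ≤ z := (le_max_right _ _).trans hz
  have hz1 : 1 ≤ z := hy0.trans hzy
  have hzp : 0 < z := by linarith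
  refine (hb (z ^ 2) (by nlinarith) π hπ z).trans (ENNReal.ofReal_le_ofReal ?_)
  have h1 := hz2 z ((le_max_left _ _).trans hz)
  have h2 : (z ^ 2 : ℝ) ^ KA = Real.exp (2 * KA * Real.log z) := by
    rw [Real.rpow_def_of_pos (by positivity), Real.log_pow]
    congr 1
    push_cast
    ring
  have h3 : z⁻¹ = Real.exp (-Real.log z) := by
    rw [Real.exp_neg, Real.exp_log hzp]
  rw [h2, h3, ← Real.exp_add]
  refine Real.exp_le_exp.2 ?_
  linarith

/-- `P` from `exists_pot`, `KA`, `y0` from `ap_bound` (`D = 4 C`). For `z ≥ y0`: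
`∫_{z<w₂≤z²} e^{h(w₂)/4} dπ ≤ e^{-(3/4) h z} ∫_{w₂≤z²} e^{h w₂} dπ ≤ e^{-(3/4) h z} z^(2KA) ≤ z^(-1)` for large `z`
(`EP_ge`; `H.log_le`). Sum over `z = M^(2^j)`, `j ≥ 0`: `≤ Σ M^(-2^j) ≤ 2/M ≤ ω`. -/
theorem pmom_tail (S : StdC μ ν h h') (T : Thr h h' B v) {ω : ℝ} (hω : 0 < ω) :
    ∃ M : ℝ, 0 < M ∧ ∀ π : Measure (ℝ × ℝ), IsStationaryKW μ ν π →
      ∫⁻ w, ({w : ℝ × ℝ | M < w.2}).indicator
        (fun w => ENNReal.ofReal (Real.exp (h w.2 / 4))) w ∂π ≤ ENNReal.ofReal ω := by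
  obtain ⟨z1, hz1, hb⟩ := PMom_block S T
  obtain ⟨M, hM⟩ : ∃ M : ℝ, M = max z1 (max 2 (2 / ω)) := ⟨_, rfl⟩
  have hMz : z1 ≤ M := by rw [hM]; exact le_max_left _ _
  have hM2 : 2 ≤ M := by rw [hM]; exact (le_max_left _ _).trans (le_max_right _ _)
  have hMω : 2 / ω ≤ M := by rw [hM]; exact (le_max_right _ _).trans (le_max_right _ _)
  have hMp : 0 < M := by linarith
  refine ⟨M, hMp, fun π hπ => ?_⟩
  set f : ℝ × ℝ → ℝ≥0∞ := fun w => ENNReal.ofReal (Real.exp (h w.2 / 4)) with hf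
  have hfm : Measurable f := PMom_meas S.haz 4
  have h1 : ∀ w : ℝ × ℝ, ({w : ℝ × ℝ | M < w.2}).indicator f w ≤
      ∑' j : ℕ, ({w : ℝ × ℝ | M ^ (2 ^ j) ≤ w.2 ∧ w.2 ≤ (M ^ (2 ^ j)) ^ 2}).indicator f w := by
    intro w
    by_cases hw : M < w.2
    · rw [Set.indicator_of_mem (show w ∈ {w : ℝ × ℝ | M < w.2} from hw)]
      have hex : ∃ n : ℕ, w.2 ≤ M ^ (2 ^ n) := by
        obtain ⟨n, hn⟩ := pow_unbounded_of_one_lt w.2 (show 1 < M by linarith)
        refine ⟨n, hn.le.trans (pow_le_pow_right₀ (by linarith) ?_)⟩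
        exact (Nat.lt_pow_self (by norm_num)).le
      classical
      have hn := Nat.find_spec hex
      have hmin := fun m (hm : m < Nat.find hex) => Nat.find_min hex hm
      obtain ⟨j, hj⟩ : ∃ j, Nat.find hex = j + 1 := by
        rcases Nat.eq_zero_or_pos (Nat.find hex) with h0 | h0
        · rw [h0] at hn
          simp only [pow_zero, pow_one] at hn
          linarith
        · exact ⟨Nat.find hex - 1, by omega⟩
      have h2 := hmin j (by omega)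
      rw [hj] at hn
      refine le_trans ?_ (ENNReal.le_tsum j)
      rw [Set.indicator_of_mem (show w ∈ {w : ℝ × ℝ | M ^ (2 ^ j) ≤ w.2 ∧
        w.2 ≤ (M ^ (2 ^ j)) ^ 2} from ⟨(not_le.1 h2).le, ?_⟩)]
      rw [← pow_mul, ← pow_succ]
      exact hn
    · rw [Set.indicator_of_notMem (show w ∉ {w : ℝ × ℝ | M < w.2} from hw)]
      exact zero_le
  have h3 : ∀ j : ℕ, ∫⁻ w, ({w : ℝ × ℝ | M ^ (2 ^ j) ≤ w.2 ∧
      w.2 ≤ (M ^ (2 ^ j)) ^ 2}).indicator f w ∂π ≤ ENNReal.ofReal ((1 / M) * (1 / M) ^ j) := by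
    intro j
    have h4 : M ≤ M ^ (2 ^ j) := by
      calc M = M ^ 1 := (pow_one M).symm
        _ ≤ M ^ (2 ^ j) := pow_le_pow_right₀ (by linarith) Nat.one_le_two_pow
    refine (hb _ (hMz.trans h4) π hπ).trans (ENNReal.ofReal_le_ofReal ?_)
    have h5 : M ^ (j + 1) ≤ M ^ (2 ^ j) :=
      pow_le_pow_right₀ (by linarith) (Nat.lt_pow_self (by norm_num))
    rw [← pow_succ', one_div, inv_pow]
    exact inv_anti₀ (by positivity) h5
  calc ∫⁻ w, ({w : ℝ × ℝ | M < w.2}).indicator f w ∂π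
      ≤ ∫⁻ w, ∑' j : ℕ, ({w : ℝ × ℝ | M ^ (2 ^ j) ≤ w.2 ∧
        w.2 ≤ (M ^ (2 ^ j)) ^ 2}).indicator f w ∂π := lintegral_mono h1
    _ = ∑' j : ℕ, ∫⁻ w, ({w : ℝ × ℝ | M ^ (2 ^ j) ≤ w.2 ∧
        w.2 ≤ (M ^ (2 ^ j)) ^ 2}).indicator f w ∂π := by
      apply lintegral_tsum
      intro j
      refine (hfm.indicator ?_).aemeasurable
      exact (measurableSet_le measurable_const measurable_snd).inter
        (measurableSet_le measurable_snd measurable_const)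
    _ ≤ ∑' j : ℕ, ENNReal.ofReal ((1 / M) * (1 / M) ^ j) := ENNReal.tsum_le_tsum h3
    _ = ENNReal.ofReal (∑' j : ℕ, (1 / M) * (1 / M) ^ j) := by
      rw [ENNReal.ofReal_tsum_of_nonneg (fun j => by positivity)]
      refine Summable.mul_left _ (summable_geometric_of_lt_one (by positivity) ?_)
      rw [div_lt_one hMp]
      linarith
    _ ≤ ENNReal.ofReal ω := by
      refine ENNReal.ofReal_le_ofReal ?_
      have h6 : 1 / M < 1 := by
        rw [div_lt_one hMp]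
        linarith
      rw [tsum_mul_left, tsum_geometric_of_lt_one (by positivity) h6]
      have h7 : 1 / M ≤ 1 / 2 := one_div_le_one_div_of_le (by norm_num) hM2
      have h8 : (1 - 1 / M)⁻¹ ≤ 2 := by
        rw [inv_le_comm₀ (by linarith) (by norm_num)]
        linarith
      have h9 : 1 / M ≤ ω / 2 := by
        rw [div_le_iff₀ hMp]
        rw [div_le_iff₀ hω] at hMω
        nlinarith
      have h10 : 0 ≤ 1 / M := by positivity
      nlinarith

/-- on `w₂ ≤ M`: `e^{A h' x M} ≤ 1 + ω/2` for large `x`; on `M < w₂ ≤ v x`: `A h' x w₂ ≤ h w₂ / 4` (`Thr.lin_le` with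
`K = 4 A`) and `pmom_tail`. -/
theorem pmom_one (S : StdC μ ν h h') (T : Thr h h' B v) (A : ℝ) {ω : ℝ} (hω : 0 < ω) :
    ∀ᶠ x : ℝ in atTop, ∀ π : Measure (ℝ × ℝ), IsStationaryKW μ ν π →
      ∫⁻ w, ({w : ℝ × ℝ | w.2 ≤ v x}).indicator
        (fun w => ENNReal.ofReal (Real.exp (A * h' x * w.2))) w ∂π ≤ ENNReal.ofReal (1 + ω) := by
  obtain ⟨M, hM, hb⟩ := pmom_tail S T (half_pos hω)
  have hlog : 0 < Real.log (1 + ω / 2) := Real.log_pos (by linarith)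
  have hten : Tendsto (fun x : ℝ => |A| * M * h' x) atTop (𝓝 (|A| * M * 0)) :=
    S.haz.tendsto_deriv.const_mul _
  rw [mul_zero] at hten
  filter_upwards [T.lin_le S.haz (4 * A), hten.eventually_lt_const hlog,
    eventually_gt_atTop (0 : ℝ)] with x h1 h2 hx0 π hπ
  have hp : IsProbabilityMeasure π := hπ.1
  have hx : 0 < h' x := S.haz.pos x hx0
  have h3 : ∫⁻ w, ({w : ℝ × ℝ | w.2 ≤ v x}).indicator
        (fun w => ENNReal.ofReal (Real.exp (A * h' x * w.2))) w ∂π ≤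
      ∫⁻ w, (ENNReal.ofReal (1 + ω / 2) + ({w : ℝ × ℝ | M < w.2}).indicator
        (fun w => ENNReal.ofReal (Real.exp (h w.2 / 4))) w) ∂π := by
    apply lintegral_mono_ae
    filter_upwards [hπ.ae_ordered] with w hw
    have hw2 : 0 ≤ w.2 := hw.1.trans hw.2
    by_cases hv : w.2 ≤ v x
    · rw [Set.indicator_of_mem (show w ∈ {w : ℝ × ℝ | w.2 ≤ v x} from hv)]
      by_cases hMw : M < w.2
      · rw [Set.indicator_of_mem (show w ∈ {w : ℝ × ℝ | M < w.2} from hMw)]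
        refine le_trans (ENNReal.ofReal_le_ofReal (Real.exp_le_exp.2 ?_)) le_add_self
        have h4 := h1 w.2 hw2 hv
        linarith
      · refine le_trans (ENNReal.ofReal_le_ofReal ?_) le_self_add
        have h5 : A * h' x * w.2 ≤ Real.log (1 + ω / 2) := by
          have h6 : A * h' x * w.2 ≤ |A| * h' x * w.2 :=
            mul_le_mul_of_nonneg_right (mul_le_mul_of_nonneg_right (le_abs_self A) hx.le) hw2
          have h7 : |A| * h' x * w.2 ≤ |A| * h' x * M :=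
            mul_le_mul_of_nonneg_left (not_lt.1 hMw) (mul_nonneg (abs_nonneg A) hx.le)
          nlinarith
        calc Real.exp (A * h' x * w.2) ≤ Real.exp (Real.log (1 + ω / 2)) :=
              Real.exp_le_exp.2 h5
          _ = 1 + ω / 2 := Real.exp_log (by linarith)
    · rw [Set.indicator_of_notMem (show w ∉ {w : ℝ × ℝ | w.2 ≤ v x} from hv)]
      exact zero_le
  refine h3.trans ?_
  rw [lintegral_add_left measurable_const, lintegral_const, measure_univ, mul_one]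
  calc ENNReal.ofReal (1 + ω / 2) + _
      ≤ ENNReal.ofReal (1 + ω / 2) + ENNReal.ofReal (ω / 2) := add_le_add_right (hb π hπ) _
    _ = ENNReal.ofReal (1 + ω) := by
      rw [← ENNReal.ofReal_add (by linarith) (by linarith)]
      congr 1
      ring

/-- `∫_{v/2≤w₂≤v} e^{h(w₂)/4} ≤ e^{-(3/4) h (v/2)} ∫_{w₂≤v} e^{h w₂} ≤ e^{-(3/4) h (v/2)} v^KA`, and
`h (v/2) ≥ h B ≥ gg B ≥ K' log x`, `v ≤ √x ≤ x`. -/
theorem pmom_two (S : StdC μ ν h h') (T : Thr h h' B v) (K : ℝ) :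
    ∀ᶠ x : ℝ in atTop, ∀ π : Measure (ℝ × ℝ), IsStationaryKW μ ν π →
      ∫⁻ w, ({w : ℝ × ℝ | v x / 2 ≤ w.2 ∧ w.2 ≤ v x}).indicator
        (fun w => ENNReal.ofReal (Real.exp (h w.2 / 4))) w ∂π ≤ ENNReal.ofReal (x ^ (-K)) := by
  obtain ⟨KA, y0, hKA, hy0, hb⟩ := PMom_core S T
  filter_upwards [(T.tendsto_v S.haz).eventually_ge_atTop y0, T.mul_le S.haz 2, T.pos, T.sq,
    T.g (4 / 3 * (KA + K)), eventually_ge_atTop (1 : ℝ)] with x h1 h2 h3 h4 h5 h6 π hπ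
  refine (hb (v x) h1 π hπ (v x / 2)).trans (ENNReal.ofReal_le_ofReal ?_)
  have hx : 0 < x := by linarith
  have hv : 0 < v x := by linarith
  have h7 : v x ≤ x := by
    refine h4.trans ?_
    rw [Real.sqrt_le_left (by linarith)]
    nlinarith
  have h8 : (v x) ^ KA ≤ x ^ KA := Real.rpow_le_rpow hv.le h7 (by linarith)
  have h9 : gg h h' (B x) ≤ h (v x / 2) :=
    (gg_le S.haz h3).trans (S.haz.mono (by linarith))
  calc Real.exp (-(3 / 4 * h (v x / 2))) * (v x) ^ KA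
      ≤ Real.exp (-(3 / 4 * h (v x / 2))) * x ^ KA :=
        mul_le_mul_of_nonneg_left h8 (Real.exp_pos _).le
    _ ≤ x ^ (-K) := by
      rw [Real.rpow_def_of_pos hx, Real.rpow_def_of_pos hx, ← Real.exp_add]
      refine Real.exp_le_exp.2 ?_
      nlinarith

end Pool.Agent.Lib.MP_04add8_pr.Cv
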