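import Mathlib
import Pool.Agent.Lib.MP_04add8_pr.Integ
import Pool.Agent.Lib.MP_04add8_pr.Cv.RV
import Pool.Agent.Lib.MP_04add8_pr.Cv.TailA

open MeasureTheory ProbabilityTheory Filter Topology
open scoped ENNReal

set_option linter.unusedSectionVars false

namespace Pool.Agent.Lib.MP_04add8_pr.Cv

open Pool.Agent.Lib.MP_04add8_pr.Gen

variable {h h' : ℝ → ℝ}

theorem tailB_Qf_pos (H : HazC h h') {x : ℝ} (hx : 0 < x) : 0 < Qf h h' x :=
  div_pos (Real.exp_pos _) (H.pos x hx)

theorem tailB_Qf_zero (H : HazC h h') : Tendsto (fun x : ℝ => Qf h h' x) atTop (𝓝 0) := by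
  have h1 := H.rpow_exp 1 (c := 1) one_pos
  have h2 := H.deriv_ge 1
  refine squeeze_zero' ?_ ?_ h1
  · filter_upwards [eventually_gt_atTop 0] with x hx
    exact (tailB_Qf_pos H hx).le
  · filter_upwards [eventually_gt_atTop 0, h2] with x hx h3
    have h4 := H.pos x hx
    unfold Qf
    rw [div_le_iff₀ h4, Real.rpow_one, one_mul]
    have h5 : 1 ≤ x * h' x := by
      rw [div_le_iff₀ hx] at h3
      linarith
    calc Real.exp (-(h x)) = Real.exp (-(h x)) * 1 := (mul_one _).symm
      _ ≤ Real.exp (-(h x)) * (x * h' x) :=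
          mul_le_mul_of_nonneg_left h5 (Real.exp_pos _).le
      _ = _ := by ring

theorem tailB_int_zero (H : HazC h h') :
    Tendsto (fun x : ℝ => ∫ y in Set.Ioi x, Real.exp (-(h y))) atTop (𝓝 0) := by
  have h1 := (tail_asymp H).mul (tailB_Qf_zero H)
  rw [mul_zero] at h1
  refine h1.congr' ?_
  filter_upwards [eventually_gt_atTop 0] with x hx
  exact div_mul_cancel₀ _ (tailB_Qf_pos H hx).ne'

/-- the integral of the tail of `μ` compared with that of `exp (-h)` -/
theorem tailB_bounds (H : HazC h h') {μ : Measure ℝ} [IsProbabilityMeasure μ]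
    (L : Law μ h) {ω : ℝ} (hω : 0 < ω) (hω1 : ω < 1) : ∀ᶠ x : ℝ in atTop,
      (1 - ω) * ∫ y in Set.Ioi x, Real.exp (-(h y)) ≤ ∫ y in Set.Ioi x, μ.real (Set.Ioi y) ∧
      ∫ y in Set.Ioi x, μ.real (Set.Ioi y) ≤ (1 + ω) * ∫ y in Set.Ioi x, Real.exp (-(h y)) := by
  obtain ⟨X, hX⟩ := eventually_atTop.1 (L.asy ω hω)
  filter_upwards [eventually_ge_atTop (max X 0)] with x hx
  have hxX : X ≤ x := (le_max_left _ _).trans hx
  have hx0 : 0 ≤ x := (le_max_right _ _).trans hx
  have hint := tail_integrable H hx0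
  have hlo : ∀ y, x < y → (1 - ω) * Real.exp (-(h y)) ≤ μ.real (Set.Ioi y) := by
    intro y hy
    have h1 := (hX y (hxX.trans hy.le)).1
    have h2 : 0 ≤ (1 - ω) * Real.exp (-(h y)) :=
      mul_nonneg (by linarith) (Real.exp_pos _).le
    exact (ENNReal.ofReal_le_iff_le_toReal (measure_ne_top μ _)).1 h1
  have hup : ∀ y, x < y → μ.real (Set.Ioi y) ≤ (1 + ω) * Real.exp (-(h y)) := by
    intro y hy
    have h1 := (hX y (hxX.trans hy.le)).2
    have h2 : 0 ≤ (1 + ω) * Real.exp (-(h y)) :=
      mul_nonneg (by linarith) (Real.exp_pos _).le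
    exact ENNReal.toReal_le_of_le_ofReal h2 h1
  have hmeas : AEStronglyMeasurable (fun y : ℝ => μ.real (Set.Ioi y))
      (volume.restrict (Set.Ioi x)) := by
    have hanti : Antitone fun y : ℝ => μ.real (Set.Ioi y) := fun y z hyz =>
      measureReal_mono (Set.Ioi_subset_Ioi hyz)
    exact hanti.measurable.aestronglyMeasurable
  have hint2 : IntegrableOn (fun y : ℝ => μ.real (Set.Ioi y)) (Set.Ioi x) := by
    refine Integrable.mono' (hint.const_mul (1 + ω)) hmeas ?_
    filter_upwards [ae_restrict_mem measurableSet_Ioi] with y hy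
    rw [Real.norm_eq_abs, abs_of_nonneg measureReal_nonneg]
    exact hup y hy
  constructor
  · rw [← integral_const_mul]
    exact setIntegral_mono_on (hint.const_mul _) hint2 measurableSet_Ioi fun y hy => hlo y hy
  · rw [← integral_const_mul]
    exact setIntegral_mono_on hint2 (hint.const_mul _) measurableSet_Ioi fun y hy => hup y hy

theorem integratedTail_asymp (H : HazC h h') {μ : Measure ℝ} [IsProbabilityMeasure μ]
    (L : Law μ h) :
    Tendsto (fun x : ℝ => integratedTail μ x / Qf h h' x) atTop (𝓝 1) := by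
  have hT := tail_asymp H
  -- the integral of the tail is at most one
  have hone : ∀ᶠ x : ℝ in atTop, ∫ y in Set.Ioi x, μ.real (Set.Ioi y) ≤ 1 := by
    filter_upwards [tailB_bounds H L (ω := 1 / 2) (by norm_num) (by norm_num),
      (tailB_int_zero H).eventually_lt_const (show (0 : ℝ) < 1 / 2 by norm_num)] with x h1 h2
    linarith [h1.2]
  rw [Metric.tendsto_atTop']
  intro ε hε
  set ω : ℝ := min (ε / 4) (1 / 4) with hω
  have hω0 : 0 < ω := by positivity
  have hω1 : ω ≤ ε / 4 := min_le_left _ _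
  have hω2 : ω ≤ 1 / 4 := min_le_right _ _
  have hev : ∀ᶠ x : ℝ in atTop, dist (integratedTail μ x / Qf h h' x) 1 < ε := by
    filter_upwards [tailB_bounds H L hω0 (by linarith), hone, eventually_gt_atTop 0,
      hT.eventually_lt_const (show (1 : ℝ) < 1 + ω by linarith),
      hT.eventually_const_lt (show 1 - ω < (1 : ℝ) by linarith)] with x h1 h2 h3 h4 h5
    have hQ := tailB_Qf_pos H h3
    rw [div_lt_iff₀ hQ] at h4
    rw [lt_div_iff₀ hQ] at h5
    unfold integratedTail
    rw [min_eq_right h2, Real.dist_eq, abs_sub_lt_iff]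
    constructor
    · have h6 : (∫ y in Set.Ioi x, μ.real (Set.Ioi y)) / Qf h h' x < 1 + ε := by
        rw [div_lt_iff₀ hQ]
        calc ∫ y in Set.Ioi x, μ.real (Set.Ioi y)
            ≤ (1 + ω) * ∫ y in Set.Ioi x, Real.exp (-(h y)) := h1.2
          _ ≤ (1 + ω) * ((1 + ω) * Qf h h' x) :=
              mul_le_mul_of_nonneg_left h4.le (by linarith)
          _ = ((1 + ω) * (1 + ω)) * Qf h h' x := by ring
          _ < (1 + ε) * Qf h h' x := by
              apply mul_lt_mul_of_pos_right _ hQ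
              nlinarith
      linarith
    · have h6 : 1 - ε < (∫ y in Set.Ioi x, μ.real (Set.Ioi y)) / Qf h h' x := by
        rw [lt_div_iff₀ hQ]
        calc (1 - ε) * Qf h h' x < ((1 - ω) * (1 - ω)) * Qf h h' x := by
              apply mul_lt_mul_of_pos_right _ hQ
              nlinarith
          _ = (1 - ω) * ((1 - ω) * Qf h h' x) := by ring
          _ ≤ (1 - ω) * ∫ y in Set.Ioi x, Real.exp (-(h y)) :=
              mul_le_mul_of_nonneg_left h5.le (by linarith)
          _ ≤ _ := h1.1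
      linarith
  obtain ⟨X, hX⟩ := eventually_atTop.1 hev
  exact ⟨X, fun x hx => hX x (le_of_lt hx)⟩

end Pool.Agent.Lib.MP_04add8_pr.Cv
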