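import Mathlib
import Pool.Agent.Lib.MP_04add8_pr.Integ
import Pool.Agent.Lib.MP_04add8_pr.Cv.RV
import Pool.Agent.Lib.MP_04add8_pr.Cv.TailB

open MeasureTheory ProbabilityTheory Filter Topology
open scoped ENNReal

set_option linter.unusedSectionVars false

namespace Pool.Agent.Lib.MP_04add8_pr.Cv

open Pool.Agent.Lib.MP_04add8_pr.Gen

variable {h h' : ℝ → ℝ}

/-- increments of `h` are at least `M log (y / x)` -/
private lemma TailC_log_diff (H : HazC h h') (M : ℝ) : ∃ x0 : ℝ, 1 ≤ x0 ∧ ∀ x y : ℝ, x0 ≤ x →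
    x ≤ y → M * Real.log (y / x) ≤ h y - h x := by
  obtain ⟨x1, hx1⟩ := (H.big.eventually_ge_atTop M).exists_forall_of_atTop
  set x0 : ℝ := max x1 1 with hx0
  have hx01 : 1 ≤ x0 := le_max_right _ _
  have hx0pos : 0 < x0 := by linarith
  have hmono : MonotoneOn (fun x => h x - M * Real.log x) (Set.Ici x0) := by
    apply monotoneOn_of_hasDerivWithinAt_nonneg (f' := fun x => h' x - M * x⁻¹)
      (convex_Ici x0)
    · apply ContinuousOn.sub H.cont.continuousOn
      apply ContinuousOn.mul continuousOn_const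
      apply Real.continuousOn_log.mono
      intro x hx
      have : x0 ≤ x := hx
      simp only [Set.mem_compl_iff, Set.mem_singleton_iff]
      linarith
    · intro x hx
      rw [interior_Ici] at hx
      have hxpos : 0 < x := lt_trans hx0pos hx
      exact ((H.deriv x hxpos).sub ((Real.hasDerivAt_log hxpos.ne').const_mul _)).hasDerivWithinAt
    · intro x hx
      rw [interior_Ici] at hx
      have hxpos : 0 < x := lt_trans hx0pos hx
      have h1 := hx1 x ((le_max_left _ _).trans (le_of_lt hx))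
      have h2 : M * x⁻¹ ≤ h' x := by
        rw [mul_inv_le_iff₀ hxpos, mul_comm]
        exact h1
      linarith
  refine ⟨x0, hx01, fun x y hx hxy => ?_⟩
  have hxpos : 0 < x := by linarith
  have hypos : 0 < y := by linarith
  have h3 := hmono (Set.mem_Ici.2 hx) (Set.mem_Ici.2 (hx.trans hxy)) hxy
  simp only at h3
  rw [Real.log_div hypos.ne' hxpos.ne', mul_sub]
  linarith

/-- comparison of the sum with the integral: `exp (-h (c n)) ≤ (1/c) ∫_{c(n-1)}^{cn} exp (-h)`,
`tail_asymp` at `c (x - 1)`, and `h (c x) - h (c (x-1)) ≤ c h' (c (x-1)) → 0`. -/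
theorem sum_tail (H : HazC h h') {c : ℝ} (hc : 0 < c) :
    ∃ C : ℝ, 0 ≤ C ∧ ∀ᶠ x : ℝ in atTop, ∀ s : Finset ℕ, (∀ n ∈ s, x ≤ (n : ℝ)) →
      ∑ n ∈ s, Real.exp (-(h (c * n))) ≤ C * Qf h h' (c * x) := by
  refine ⟨2 * Real.exp c / c, by positivity, ?_⟩
  have hcont : Continuous fun y : ℝ => Real.exp (-(h y)) := Real.continuous_exp.comp H.cont.neg
  have hlin : Tendsto (fun x : ℝ => c * (x - 1)) atTop atTop :=
    (tendsto_id.atTop_add tendsto_const_nhds).const_mul_atTop hc
  have e1 : ∀ᶠ x : ℝ in atTop, (∫ y in Set.Ioi (c * (x - 1)), Real.exp (-(h y))) /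
      Qf h h' (c * (x - 1)) < 2 :=
    hlin.eventually ((tail_asymp H).eventually_lt_const (by norm_num))
  have e2 : ∀ᶠ x : ℝ in atTop, h' (c * (x - 1)) < 1 :=
    hlin.eventually (H.tendsto_deriv.eventually_lt_const one_pos)
  filter_upwards [e1, e2, eventually_gt_atTop 1] with x hx1 hx2 hx3 s hs
  have hp0 : 0 < c * (x - 1) := mul_pos hc (by linarith)
  have hpx : 0 < c * x := mul_pos hc (by linarith)
  have hle : c * (x - 1) ≤ c * x := mul_le_mul_of_nonneg_left (by linarith) hc.le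
  have hQ : 0 < Qf h h' (c * (x - 1)) := div_pos (Real.exp_pos _) (H.pos _ hp0)
  have hint := tail_integrable H hp0.le
  rw [div_lt_iff₀ hQ] at hx1
  -- each term
  have hterm : ∀ n ∈ s, Real.exp (-(h (c * n))) ≤
      c⁻¹ * ∫ y in Set.Ioc (c * ((n : ℝ) - 1)) (c * n), Real.exp (-(h y)) := by
    intro n hn
    have hsub : Set.Ioc (c * ((n : ℝ) - 1)) (c * n) ⊆ Set.Ioi (c * (x - 1)) := by
      intro y hy
      have h1 := hs n hn
      have h2 : c * (x - 1) ≤ c * ((n : ℝ) - 1) := mul_le_mul_of_nonneg_left (by linarith) hc.le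
      exact lt_of_le_of_lt h2 hy.1
    have h3 : ∫ y in Set.Ioc (c * ((n : ℝ) - 1)) (c * n), Real.exp (-(h (c * n))) ≤
        ∫ y in Set.Ioc (c * ((n : ℝ) - 1)) (c * n), Real.exp (-(h y)) := by
      apply setIntegral_mono_on (integrableOn_const (by simp)) (hint.mono_set hsub) measurableSet_Ioc
      intro y hy
      exact Real.exp_le_exp.mpr (neg_le_neg (H.mono hy.2))
    rw [setIntegral_const, Measure.real, Real.volume_Ioc,
      show c * (n : ℝ) - c * ((n : ℝ) - 1) = c by ring, ENNReal.toReal_ofReal hc.le,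
      smul_eq_mul] at h3
    rw [le_inv_mul_iff₀ hc]
    exact h3
  have hdisj : Set.Pairwise (s : Set ℕ)
      (Function.onFun Disjoint fun n : ℕ => Set.Ioc (c * ((n : ℝ) - 1)) (c * n)) := by
    intro m _ n _ hmn
    rw [Function.onFun, Set.disjoint_left]
    intro y hy1 hy2
    rcases lt_or_gt_of_ne hmn with hlt | hlt
    · have h1 : (m : ℝ) + 1 ≤ n := by exact_mod_cast hlt
      have h2 : c * (m : ℝ) ≤ c * ((n : ℝ) - 1) := mul_le_mul_of_nonneg_left (by linarith) hc.le
      linarith [hy1.2, hy2.1]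
    · have h1 : (n : ℝ) + 1 ≤ m := by exact_mod_cast hlt
      have h2 : c * (n : ℝ) ≤ c * ((m : ℝ) - 1) := mul_le_mul_of_nonneg_left (by linarith) hc.le
      linarith [hy2.2, hy1.1]
  have hsub' : (⋃ n ∈ s, Set.Ioc (c * ((n : ℝ) - 1)) (c * n)) ⊆ Set.Ioi (c * (x - 1)) := by
    intro y hy
    simp only [Set.mem_iUnion] at hy
    obtain ⟨n, hn, hy⟩ := hy
    have h1 := hs n hn
    have h2 : c * (x - 1) ≤ c * ((n : ℝ) - 1) := mul_le_mul_of_nonneg_left (by linarith) hc.le
    exact lt_of_le_of_lt h2 hy.1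
  have hsum : ∑ n ∈ s, ∫ y in Set.Ioc (c * ((n : ℝ) - 1)) (c * n), Real.exp (-(h y)) ≤
      ∫ y in Set.Ioi (c * (x - 1)), Real.exp (-(h y)) := by
    rw [← integral_biUnion_finset s (fun n _ => measurableSet_Ioc) hdisj
      (fun n hn => hint.mono_set ((Set.subset_biUnion_of_mem (u := fun n : ℕ =>
        Set.Ioc (c * ((n : ℝ) - 1)) (c * n)) hn).trans hsub'))]
    apply setIntegral_mono_set hint (Eventually.of_forall fun y => (Real.exp_pos _).le)
    exact LE.le.eventuallyLE hsub'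
  have hfin : Qf h h' (c * (x - 1)) ≤ Real.exp c * Qf h h' (c * x) := by
    unfold Qf
    have h1 := H.anti _ _ hp0 hle
    have h2 := H.pos _ hpx
    have h3 := H.pos _ hp0
    have h4 := H.upper_deriv hp0 hle
    have h5 : (c * x - c * (x - 1)) * h' (c * (x - 1)) ≤ c := by
      rw [show c * x - c * (x - 1) = c by ring]
      exact mul_le_of_le_one_right hc.le hx2.le
    rw [← mul_div_assoc, ← Real.exp_add, div_le_div_iff₀ h3 h2]
    apply mul_le_mul _ h1 h2.le (Real.exp_pos _).le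
    apply Real.exp_le_exp.mpr
    linarith
  calc ∑ n ∈ s, Real.exp (-(h (c * n))) ≤
      ∑ n ∈ s, c⁻¹ * ∫ y in Set.Ioc (c * ((n : ℝ) - 1)) (c * n), Real.exp (-(h y)) :=
        Finset.sum_le_sum hterm
    _ = c⁻¹ * ∑ n ∈ s, ∫ y in Set.Ioc (c * ((n : ℝ) - 1)) (c * n), Real.exp (-(h y)) := by
        rw [Finset.mul_sum]
    _ ≤ c⁻¹ * (2 * (Real.exp c * Qf h h' (c * x))) := by
        apply mul_le_mul_of_nonneg_left _ (by positivity)
        exact hsum.trans (hx1.le.trans (mul_le_mul_of_nonneg_left hfin (by norm_num)))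
    _ = 2 * Real.exp c / c * Qf h h' (c * x) := by
        field_simp

/-- `Q (2 x) / Q x → 0`, in the form used for the far part -/
theorem Qf_two (H : HazC h h') {ω : ℝ} (hω : 0 < ω) : ∃ c : ℝ, 0 < c ∧ ∀ᶠ x : ℝ in atTop,
    ∀ y : ℝ, 2 * x ≤ y → Qf h h' y ≤ ω * (Qf h h' x * Real.exp (-(c * (x * h' x)))) := by
  obtain ⟨C, hC, hcv⟩ := H.curv
  obtain ⟨c0, hc0, hd2⟩ := H.diff_two
  obtain ⟨x0, hx0, hd⟩ := TailC_log_diff H (2 * C)
  refine ⟨c0 / 4, by positivity, ?_⟩
  have e1 : ∀ᶠ x : ℝ in atTop, Real.exp (-(c0 / 4 * (x * h' x))) < ω := by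
    have h1 : Tendsto (fun x : ℝ => c0 / 4 * (x * h' x)) atTop atTop :=
      H.big.const_mul_atTop (by positivity)
    exact (Real.tendsto_exp_neg_atTop_nhds_zero.comp h1).eventually_lt_const hω
  filter_upwards [e1, eventually_ge_atTop x0] with x hx1 hx2 y hy
  have hxpos : 0 < x := by linarith
  have hxy : x ≤ y := by linarith
  have hypos : 0 < y := by linarith
  have h2 := H.pos x hxpos
  have h3 := H.pos y hypos
  have h4 := hcv x y hxpos hxy
  have h5 := hd x y hx2 hxy
  have h6 : h' x ≤ Real.exp (C * Real.log (y / x)) * h' y := by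
    have e1 : Real.exp (C * Real.log (y / x)) = y ^ C / x ^ C := by
      rw [mul_comm, ← Real.rpow_def_of_pos (div_pos hypos hxpos),
        Real.div_rpow hypos.le hxpos.le]
    rw [e1, div_mul_eq_mul_div, le_div_iff₀ (Real.rpow_pos_of_pos hxpos C)]
    linarith
  have h7 : c0 * (x * h' x) ≤ h y - h x := (hd2 x hxpos).trans (by linarith [H.mono hy])
  have h8 : Real.exp (C * Real.log (y / x)) * Real.exp (-(h y)) ≤
      Real.exp (-(h x)) * Real.exp (-(c0 / 4 * (x * h' x))) *
        Real.exp (-(c0 / 4 * (x * h' x))) := by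
    rw [← Real.exp_add, ← Real.exp_add, ← Real.exp_add]
    apply Real.exp_le_exp.mpr
    nlinarith
  have h9 : Real.exp (C * Real.log (y / x)) * Real.exp (-(h y)) ≤
      ω * (Real.exp (-(h x)) * Real.exp (-(c0 / 4 * (x * h' x)))) := by
    refine h8.trans ?_
    rw [mul_comm ω]
    exact mul_le_mul_of_nonneg_left hx1.le (by positivity)
  unfold Qf
  rw [div_le_iff₀ h3]
  have h10 : Real.exp (-(h y)) * h' x ≤
      (ω * (Real.exp (-(h x)) * Real.exp (-(c0 / 4 * (x * h' x))))) * h' y := by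
    calc Real.exp (-(h y)) * h' x ≤ Real.exp (-(h y)) * (Real.exp (C * Real.log (y / x)) * h' y) :=
          mul_le_mul_of_nonneg_left h6 (Real.exp_pos _).le
      _ = (Real.exp (C * Real.log (y / x)) * Real.exp (-(h y))) * h' y := by ring
      _ ≤ _ := mul_le_mul_of_nonneg_right h9 h3.le
  have h11 : ω * (Real.exp (-(h x)) / h' x * Real.exp (-(c0 / 4 * (x * h' x)))) * h' y =
      ((ω * (Real.exp (-(h x)) * Real.exp (-(c0 / 4 * (x * h' x))))) * h' y) / h' x := by
    field_simp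
  rw [h11, le_div_iff₀ h2]
  exact h10

end Pool.Agent.Lib.MP_04add8_pr.Cv
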