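import Mathlib
import Pool.Agent.Lib.MP_04add8_pr.Cv.LawM
import Pool.Agent.Lib.MP_04add8_pr.Two.WalkBase

open MeasureTheory ProbabilityTheory Filter Topology
open scoped ENNReal

set_option linter.unusedSectionVars false

namespace Pool.Agent.Lib.MP_04add8_pr.Cv

open Pool.Agent.Lib.MP_04add8_pr.Gen

variable {h h' : ℝ → ℝ} {μ ν : Measure ℝ} [IsProbabilityMeasure μ]
  [IsProbabilityMeasure ν]

/-! Original: `Two/WalkBase.lean`, with the tilt condition `Tilt h κ B`. -/

lemma gwk_integrable (S : StdC μ ν h h') :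
    Integrable (fun s : ℝ => s ^ 2 * Real.exp (h s / 4)) μ := by
  have h1 := law_integrable S.haz S.law (c := 1 / 4) (by norm_num) 2
  have e : ∀ s : ℝ, 1 / 4 * h s = h s / 4 := fun s => by ring
  simpa only [e] using h1

private lemma gwk_pow1 (S : StdC μ ν h h') : Integrable (fun s : ℝ => s) μ := by
  simpa using law_integrable_pow S.haz S.law 1

/-- Original: `wk_exp1` -/
lemma gwk_exp1 (S : StdC μ ν h h') {κ B : ℝ} (hκ : 0 ≤ κ) (hB : Tilt h κ B) :
    Integrable ((Set.Iic B).indicator fun s => Real.exp (κ * s)) μ ∧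
    ∫ s, (Set.Iic B).indicator (fun s => Real.exp (κ * s)) s ∂μ ≤
      1 + κ * (∫ s, s ∂μ) + κ ^ 2 * (∫ s, s ^ 2 * Real.exp (h s / 4) ∂μ) := by
  have h1 := gwk_pow1 S
  have h2 := gwk_integrable S
  have hg : Integrable (fun s : ℝ => 1 + κ * s + κ ^ 2 * (s ^ 2 * Real.exp (h s / 4))) μ :=
    ((integrable_const _).add (h1.const_mul κ)).add (h2.const_mul _)
  have hle : ∀ᵐ s ∂μ, (Set.Iic B).indicator (fun s => Real.exp (κ * s)) s ≤
      1 + κ * s + κ ^ 2 * (s ^ 2 * Real.exp (h s / 4)) := by
    filter_upwards [S.law.nn] with s hs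
    by_cases hsx : s ∈ Set.Iic B
    · rw [Set.indicator_of_mem hsx]
      have h3 : κ * s ≤ h s / 4 := hB s hs hsx
      have h4 := exp_le_one_add_add_sq_mul_exp (y := κ * s) (by positivity)
      calc Real.exp (κ * s) ≤ 1 + κ * s + (κ * s) ^ 2 * Real.exp (κ * s) := h4
        _ ≤ 1 + κ * s + (κ * s) ^ 2 * Real.exp (h s / 4) := by gcongr
        _ = _ := by ring
    · rw [Set.indicator_of_notMem hsx]
      positivity
  have hint : Integrable ((Set.Iic B).indicator fun s => Real.exp (κ * s)) μ := by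
    apply Integrable.mono' hg
    · exact (by fun_prop : Measurable fun s : ℝ => Real.exp (κ * s)).aestronglyMeasurable.indicator
        measurableSet_Iic
    · filter_upwards [hle] with s hs
      rw [Real.norm_of_nonneg (Set.indicator_nonneg (fun _ _ => (Real.exp_pos _).le) _)]
      exact hs
  refine ⟨hint, ?_⟩
  refine (integral_mono_ae hint hg hle).trans (le_of_eq ?_)
  rw [integral_add, integral_add, integral_const_mul, integral_const_mul]
  · simp
  · exact integrable_const _
  · exact h1.const_mul κ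
  · exact (integrable_const _).add (h1.const_mul κ)
  · exact h2.const_mul _

/-- Original: `wk_exp2` -/
lemma gwk_exp2 (S : StdC μ ν h h') {κ B : ℝ} (hκ : 0 ≤ κ) (hB : Tilt h κ B) :
    Integrable ((Set.Iic B).indicator fun s => κ * s * Real.exp (κ * s)) μ ∧
    ∫ s, (Set.Iic B).indicator (fun s => κ * s * Real.exp (κ * s)) s ∂μ ≤
      κ * (∫ s, s ∂μ) + κ ^ 2 * (∫ s, s ^ 2 * Real.exp (h s / 4) ∂μ) := by
  have h1 := gwk_pow1 S
  have h2 := gwk_integrable S
  have hg : Integrable (fun s : ℝ => κ * s + κ ^ 2 * (s ^ 2 * Real.exp (h s / 4))) μ :=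
    (h1.const_mul κ).add (h2.const_mul _)
  have hle : ∀ᵐ s ∂μ, (Set.Iic B).indicator (fun s => κ * s * Real.exp (κ * s)) s ≤
      κ * s + κ ^ 2 * (s ^ 2 * Real.exp (h s / 4)) := by
    filter_upwards [S.law.nn] with s hs
    by_cases hsx : s ∈ Set.Iic B
    · rw [Set.indicator_of_mem hsx]
      have h3 : κ * s ≤ h s / 4 := hB s hs hsx
      have h4 := exp_le_one_add_mul_exp (κ * s)
      calc κ * s * Real.exp (κ * s) ≤ κ * s * (1 + (κ * s) * Real.exp (κ * s)) := by gcongr
        _ ≤ κ * s * (1 + (κ * s) * Real.exp (h s / 4)) := by gcongr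
        _ = _ := by ring
    · rw [Set.indicator_of_notMem hsx]
      positivity
  have hnn : ∀ᵐ s ∂μ, 0 ≤ (Set.Iic B).indicator (fun s => κ * s * Real.exp (κ * s)) s := by
    filter_upwards [S.law.nn] with s hs
    exact Set.indicator_apply_nonneg (fun _ => by positivity)
  have hint : Integrable ((Set.Iic B).indicator fun s => κ * s * Real.exp (κ * s)) μ := by
    apply Integrable.mono' hg
    · exact (by fun_prop : Measurable fun s : ℝ =>
        κ * s * Real.exp (κ * s)).aestronglyMeasurable.indicator measurableSet_Iic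
    · filter_upwards [hle, hnn] with s hs hs0
      rw [Real.norm_of_nonneg hs0]
      exact hs
  refine ⟨hint, ?_⟩
  refine (integral_mono_ae hint hg hle).trans (le_of_eq ?_)
  rw [integral_add, integral_const_mul, integral_const_mul]
  · exact h1.const_mul κ
  · exact h2.const_mul _

end Pool.Agent.Lib.MP_04add8_pr.Cv
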