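import Mathlib
import Pool.Agent.Lib.MP_04add8_pr.Cv.WalkBase
import Pool.Agent.Lib.MP_04add8_pr.Two.WalkA

open MeasureTheory ProbabilityTheory Filter Topology
open scoped ENNReal

set_option linter.unusedSectionVars false

namespace Pool.Agent.Lib.MP_04add8_pr.Cv

open Pool.Agent.Lib.MP_04add8_pr.Gen

variable {h h' : ℝ → ℝ} {μ ν : Measure ℝ} [IsProbabilityMeasure μ]
  [IsProbabilityMeasure ν]

/-- exponential moment of the negative increments -/
private lemma gwkA_lambda (S : StdC μ ν h h') {τ : ℝ} (hτ : 0 < τ)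
    (hgt : (∫ t, min t τ ∂ν) < ∫ s, s ∂μ) :
    ∃ lam q : ℝ, 0 < lam ∧ q < 1 ∧ 0 ≤ q ∧
      Integrable (fun p : ℝ × ℝ => Real.exp (-(lam * (p.1 - min p.2 τ)))) (μ.prod ν) ∧
      ∫ p : ℝ × ℝ, Real.exp (-(lam * (p.1 - min p.2 τ))) ∂(μ.prod ν) ≤ q := by
  have hν := S.hν
  have h1 : Integrable (fun s : ℝ => s) μ := by
    simpa using law_integrable_pow S.haz S.law 1
  have h2 : Integrable (fun s : ℝ => s ^ 2) μ := law_integrable_pow S.haz S.law 2
  have hm := min_integrable (M := τ) hν hτ.le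
  set E := ∫ s, s ∂μ with hE
  set m := ∫ t, min t τ ∂ν with hmm
  set E2 := ∫ s, s ^ 2 ∂μ with hE2
  have hE20 : 0 ≤ E2 := integral_nonneg fun s => by positivity
  set K := E2 + τ ^ 2 with hK
  have hK0 : 0 < K := by positivity
  set lam := min (1 / τ) ((E - m) / (2 * K)) with hlam
  have hlam0 : 0 < lam := lt_min (by positivity) (div_pos (by linarith) (by positivity))
  have hlam1 : lam * τ ≤ 1 := by
    have : lam ≤ 1 / τ := min_le_left _ _
    rw [le_div_iff₀ hτ] at this
    exact this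
  have hlam2 : lam * K ≤ (E - m) / 2 := by
    have : lam ≤ (E - m) / (2 * K) := min_le_right _ _
    rw [le_div_iff₀ (by positivity)] at this
    linarith
  have hpos : ∀ᵐ p ∂(μ.prod ν), 0 ≤ p.1 ∧ 0 ≤ p.2 := law_prod_nonneg S.law hν
  have hint : Integrable (fun p : ℝ × ℝ => Real.exp (-(lam * (p.1 - min p.2 τ)))) (μ.prod ν) := by
    apply Integrable.mono' (g := fun _ => Real.exp 1) (integrable_const _) (by fun_prop)
    filter_upwards [hpos] with p hp
    rw [Real.norm_of_nonneg (Real.exp_pos _).le]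
    apply Real.exp_le_exp.mpr
    have h3 : min p.2 τ ≤ τ := min_le_right _ _
    nlinarith [mul_nonneg hlam0.le hp.1, mul_le_mul_of_nonneg_left h3 hlam0.le]
  have i1 : Integrable (fun p : ℝ × ℝ => p.1) (μ.prod ν) := h1.comp_fst ν
  have i2 : Integrable (fun p : ℝ × ℝ => p.1 ^ 2) (μ.prod ν) := h2.comp_fst ν
  have i3 : Integrable (fun p : ℝ × ℝ => min p.2 τ) (μ.prod ν) := hm.comp_snd μ
  have hg : Integrable (fun p : ℝ × ℝ => (1 + lam ^ 2 * τ ^ 2) + (-lam) * p.1 + lam * min p.2 τ +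
      lam ^ 2 * p.1 ^ 2) (μ.prod ν) :=
    (((integrable_const _).add (i1.const_mul _)).add (i3.const_mul _)).add (i2.const_mul _)
  have hle : ∀ᵐ p ∂(μ.prod ν), Real.exp (-(lam * (p.1 - min p.2 τ))) ≤
      (1 + lam ^ 2 * τ ^ 2) + (-lam) * p.1 + lam * min p.2 τ + lam ^ 2 * p.1 ^ 2 := by
    filter_upwards [hpos] with p hp
    have h3 : min p.2 τ ≤ τ := min_le_right _ _
    have h4 : 0 ≤ min p.2 τ := le_min hp.2 hτ.le
    have h5 := exp_le_quadratic (z := -(lam * (p.1 - min p.2 τ))) (by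
      nlinarith [mul_nonneg hlam0.le hp.1, mul_le_mul_of_nonneg_left h3 hlam0.le])
    have h6 : (p.1 - min p.2 τ) ^ 2 ≤ p.1 ^ 2 + τ ^ 2 := by
      have : (min p.2 τ) ^ 2 ≤ τ ^ 2 := by gcongr
      nlinarith [mul_nonneg hp.1 h4]
    have h7 : lam ^ 2 * (p.1 - min p.2 τ) ^ 2 ≤ lam ^ 2 * (p.1 ^ 2 + τ ^ 2) := by gcongr
    have h8 : (-(lam * (p.1 - min p.2 τ))) ^ 2 = lam ^ 2 * (p.1 - min p.2 τ) ^ 2 := by ring
    rw [h8] at h5
    linarith
  have hI : ∫ p : ℝ × ℝ, Real.exp (-(lam * (p.1 - min p.2 τ))) ∂(μ.prod ν) ≤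
      1 - lam * (E - m) / 2 := by
    refine (integral_mono_ae hint hg hle).trans ?_
    rw [integral_add, integral_add, integral_add, integral_const_mul, integral_const_mul,
      integral_const_mul]
    · have e1 : ∫ p : ℝ × ℝ, p.1 ∂(μ.prod ν) = E := by
        rw [integral_prod _ i1]; simp [hE]
      have e2 : ∫ p : ℝ × ℝ, p.1 ^ 2 ∂(μ.prod ν) = E2 := by
        rw [integral_prod _ i2]; simp [hE2]
      have e3 : ∫ p : ℝ × ℝ, min p.2 τ ∂(μ.prod ν) = m := by
        rw [integral_prod _ i3]; simp [hmm]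
      rw [e1, e2, e3]
      have h9 : lam * (lam * K) ≤ lam * ((E - m) / 2) := by gcongr
      simp only [integral_const, probReal_univ, smul_eq_mul, one_mul]
      rw [hK] at h9
      nlinarith
    · exact integrable_const _
    · exact i1.const_mul _
    · exact (integrable_const _).add (i1.const_mul _)
    · exact i3.const_mul _
    · exact ((integrable_const _).add (i1.const_mul _)).add (i3.const_mul _)
    · exact i2.const_mul _
  refine ⟨lam, 1 - lam * (E - m) / 2, hlam0, ?_, ?_, hint, hI⟩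
  · have : 0 < lam * (E - m) := mul_pos hlam0 (by linarith)
    linarith
  · exact (integral_nonneg fun p => (Real.exp_pos _).le).trans hI

/-- one step of the supermartingale -/
private lemma gwkA_step (S : StdC μ ν h h') {τ θ θ' B : ℝ} (hτ : 0 < τ) (hθ0 : 0 < θ)
    (hθ'0 : 0 < θ') (hB : Tilt h θ B)
    {lam q : ℝ} (hlam : 0 < lam) (hq1 : q < 1) (hq0 : 0 ≤ q)
    (hQi : Integrable (fun p : ℝ × ℝ => Real.exp (-(lam * (p.1 - min p.2 τ)))) (μ.prod ν))
    (hQ : ∫ p : ℝ × ℝ, Real.exp (-(lam * (p.1 - min p.2 τ))) ∂(μ.prod ν) ≤ q)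
    {φ : ℝ} (hφ : (1 + θ * (∫ s, s ∂μ) + θ ^ 2 * (∫ s, s ^ 2 * Real.exp (h s / 4) ∂μ)) *
      (1 - (θ + θ') * (∫ t, min t τ ∂ν) + (θ + θ') ^ 2 * τ ^ 2) ≤ φ)
    (hφq : (1 + q) / 2 ≤ φ) {r : ℝ} (hr : 0 ≤ r) :
    ∫⁻ p, ENNReal.ofReal ((Set.Iic B).indicator (fun _ => (1 : ℝ)) p.1 *
      Real.exp (-(θ' * min p.2 τ)) *
      wkV θ lam (2 * τ * Real.exp (lam * τ) / (1 - q))
        (max (r + p.1 - min p.2 τ) 0)) ∂(μ.prod ν) ≤
      ENNReal.ofReal (φ * wkV θ lam (2 * τ * Real.exp (lam * τ) / (1 - q)) r) := by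
  have hν := S.hν
  set β := 2 * τ * Real.exp (lam * τ) / (1 - q) with hβ
  have hq1' : 0 < 1 - q := by linarith
  have hβ0 : 0 < β := by positivity
  obtain ⟨i1, b1⟩ := gwk_exp1 S hθ0.le hB
  obtain ⟨i3, b3⟩ := wk_nu (κ := θ + θ') hν hτ (by positivity)
  set F1 : ℝ → ℝ := (Set.Iic B).indicator fun s => Real.exp (θ * s) with hF1
  set D : ℝ → ℝ := fun t => Real.exp (-((θ + θ') * min t τ)) with hD
  have hF10 : ∀ s, 0 ≤ F1 s := fun s => Set.indicator_nonneg (fun _ _ => (Real.exp_pos _).le) _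
  have hD0 : ∀ t, 0 ≤ D t := fun t => (Real.exp_pos _).le
  have hpos : ∀ᵐ p ∂(μ.prod ν), 0 ≤ p.1 ∧ 0 ≤ p.2 := law_prod_nonneg S.law hν
  set ι : ℝ := if r < τ then 1 else 0 with hι
  have hι0 : 0 ≤ ι := by rw [hι]; split_ifs <;> norm_num
  set Bd : ℝ × ℝ → ℝ := fun p => Real.exp (θ * r) * (F1 p.1 * D p.2) + θ * τ * ι +
    β * θ * Real.exp (-(lam * r)) * Real.exp (-(lam * (p.1 - min p.2 τ))) with hBd
  have hBd0 : ∀ p, 0 ≤ Bd p := by
    intro p
    have := hF10 p.1
    have := hD0 p.2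
    rw [hBd]
    positivity
  have hI12 : Integrable (fun p : ℝ × ℝ => F1 p.1 * D p.2) (μ.prod ν) := i1.mul_prod i3
  have hBdi : Integrable Bd (μ.prod ν) :=
    ((hI12.const_mul _).add (integrable_const _)).add (hQi.const_mul _)
  have hle : ∀ᵐ p ∂(μ.prod ν), (Set.Iic B).indicator (fun _ => (1 : ℝ)) p.1 *
      Real.exp (-(θ' * min p.2 τ)) * wkV θ lam β (max (r + p.1 - min p.2 τ) 0) ≤ Bd p := by
    filter_upwards [hpos] with p hp
    by_cases hm : p.1 ∈ Set.Iic B
    · rw [Set.indicator_of_mem hm, one_mul]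
      set T := min p.2 τ with hT
      have hT0 : 0 ≤ T := le_min hp.2 hτ.le
      have hTτ : T ≤ τ := min_le_right _ _
      set y := r + p.1 - T with hy
      have hF : F1 p.1 = Real.exp (θ * p.1) := by rw [hF1, Set.indicator_of_mem hm]
      have hX : Real.exp (θ * r) * (F1 p.1 * D p.2) = Real.exp (-(θ' * T)) * Real.exp (θ * y) := by
        rw [hF, hD]
        simp only
        rw [← hT, ← Real.exp_add, ← Real.exp_add, ← Real.exp_add, hy]
        congr 1
        ring
      have hY : Real.exp (-(lam * r)) * Real.exp (-(lam * (p.1 - T))) = Real.exp (-(lam * y)) := by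
        rw [← Real.exp_add, hy]
        congr 1
        ring
      have hE1 : Real.exp (-(θ' * T)) ≤ 1 := by
        rw [Real.exp_le_one_iff]
        have := mul_nonneg hθ'0.le hT0
        linarith
      have hZ : Real.exp (-(lam * max y 0)) ≤ Real.exp (-(lam * y)) := by
        apply Real.exp_le_exp.mpr
        have : lam * y ≤ lam * max y 0 := by gcongr; exact le_max_left _ _
        linarith
      have hW : Real.exp (θ * max y 0) ≤ Real.exp (θ * y) + θ * τ * ι := by
        rcases le_or_gt 0 y with h0 | h0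
        · rw [max_eq_left h0]
          have : 0 ≤ θ * τ * ι := by positivity
          linarith
        · rw [max_eq_right h0.le, mul_zero, Real.exp_zero]
          have hι1 : ι = 1 := by
            rw [hι, if_pos]
            have := hp.1
            rw [hy] at h0
            linarith
          rw [hι1]
          have h1 := Real.add_one_le_exp (θ * y)
          have h2 : -τ ≤ y := by rw [hy]; linarith [hp.1]
          have h3 : θ * (-τ) ≤ θ * y := by gcongr
          linarith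
      have hBdp : Bd p = Real.exp (-(θ' * T)) * Real.exp (θ * y) + θ * τ * ι +
          β * θ * Real.exp (-(lam * y)) := by
        rw [hBd]
        simp only
        rw [hX, ← hT, mul_assoc (β * θ), hY]
      rw [hBdp]
      unfold wkV
      have hE0 := Real.exp_pos (-(θ' * T))
      have s1 : Real.exp (-(θ' * T)) * Real.exp (θ * max y 0) ≤
          Real.exp (-(θ' * T)) * Real.exp (θ * y) + θ * τ * ι := by
        calc Real.exp (-(θ' * T)) * Real.exp (θ * max y 0)
            ≤ Real.exp (-(θ' * T)) * (Real.exp (θ * y) + θ * τ * ι) := by gcongr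
          _ = Real.exp (-(θ' * T)) * Real.exp (θ * y) + Real.exp (-(θ' * T)) * (θ * τ * ι) := by
              ring
          _ ≤ Real.exp (-(θ' * T)) * Real.exp (θ * y) + 1 * (θ * τ * ι) := by gcongr
          _ = _ := by ring
      have s2 : Real.exp (-(θ' * T)) * (β * θ * Real.exp (-(lam * max y 0))) ≤
          β * θ * Real.exp (-(lam * y)) := by
        calc Real.exp (-(θ' * T)) * (β * θ * Real.exp (-(lam * max y 0)))
            ≤ 1 * (β * θ * Real.exp (-(lam * y))) := by gcongr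
          _ = _ := by ring
      rw [mul_add]
      linarith
    · rw [Set.indicator_of_notMem hm, zero_mul, zero_mul]
      exact hBd0 p
  have hint : ∫ p, Bd p ∂(μ.prod ν) = Real.exp (θ * r) * ((∫ s, F1 s ∂μ) * ∫ t, D t ∂ν) +
      θ * τ * ι + β * θ * Real.exp (-(lam * r)) *
      ∫ p : ℝ × ℝ, Real.exp (-(lam * (p.1 - min p.2 τ))) ∂(μ.prod ν) := by
    rw [hBd]
    have e1 : ∫ p : ℝ × ℝ, Real.exp (θ * r) * (F1 p.1 * D p.2) ∂(μ.prod ν) =
        Real.exp (θ * r) * ((∫ s, F1 s ∂μ) * ∫ t, D t ∂ν) := by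
      rw [integral_const_mul, integral_prod_mul]
    have e2 : ∫ p : ℝ × ℝ, β * θ * Real.exp (-(lam * r)) *
        Real.exp (-(lam * (p.1 - min p.2 τ))) ∂(μ.prod ν) = β * θ * Real.exp (-(lam * r)) *
        ∫ p : ℝ × ℝ, Real.exp (-(lam * (p.1 - min p.2 τ))) ∂(μ.prod ν) := integral_const_mul _ _
    rw [integral_add, integral_add, e1, e2]
    · simp
    · exact hI12.const_mul _
    · exact integrable_const _
    · exact (hI12.const_mul _).add (integrable_const _)
    · exact hQi.const_mul _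
  calc ∫⁻ p, ENNReal.ofReal ((Set.Iic B).indicator (fun _ => (1 : ℝ)) p.1 *
        Real.exp (-(θ' * min p.2 τ)) * wkV θ lam β (max (r + p.1 - min p.2 τ) 0)) ∂(μ.prod ν)
      ≤ ∫⁻ p, ENNReal.ofReal (Bd p) ∂(μ.prod ν) := by
        apply lintegral_mono_ae
        filter_upwards [hle] with p hp
        exact ENNReal.ofReal_le_ofReal hp
    _ = ENNReal.ofReal (∫ p, Bd p ∂(μ.prod ν)) := by
        rw [ofReal_integral_eq_lintegral_ofReal hBdi (Filter.Eventually.of_forall hBd0)]
    _ ≤ _ := by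
        apply ENNReal.ofReal_le_ofReal
        rw [hint]
        have hI1 : 0 ≤ ∫ s, F1 s ∂μ := integral_nonneg hF10
        have hI3 : 0 ≤ ∫ t, D t ∂ν := integral_nonneg hD0
        have hE0 : 0 ≤ ∫ s, s ∂μ := integral_nonneg_of_ae (by
          filter_upwards [S.law.nn] with s hs using hs)
        have hC0 : 0 ≤ ∫ s, s ^ 2 * Real.exp (h s / 4) ∂μ := integral_nonneg fun s => by positivity
        have hAD : (∫ s, F1 s ∂μ) * ∫ t, D t ∂ν ≤ φ := by
          refine le_trans ?_ hφ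
          apply mul_le_mul b1 b3 hI3
          positivity
        have s1 : Real.exp (θ * r) * ((∫ s, F1 s ∂μ) * ∫ t, D t ∂ν) ≤ Real.exp (θ * r) * φ := by
          gcongr
        have s2 : β * θ * Real.exp (-(lam * r)) *
            ∫ p : ℝ × ℝ, Real.exp (-(lam * (p.1 - min p.2 τ))) ∂(μ.prod ν) ≤
            β * θ * Real.exp (-(lam * r)) * q := by gcongr
        have s3 : θ * τ * ι ≤ β * θ * Real.exp (-(lam * r)) * (φ - q) := by
          have hφq' : (1 - q) / 2 ≤ φ - q := by linarith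
          by_cases hrτ : r < τ
          · have hι1 : ι = 1 := by rw [hι, if_pos hrτ]
            rw [hι1, mul_one]
            have e1 : Real.exp (-(lam * τ)) ≤ Real.exp (-(lam * r)) := by
              apply Real.exp_le_exp.mpr
              have : lam * r ≤ lam * τ := by gcongr
              linarith
            have e2 : β * Real.exp (-(lam * τ)) * ((1 - q) / 2) = τ := by
              rw [hβ, Real.exp_neg]
              have := Real.exp_pos (lam * τ)
              field_simp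
            calc θ * τ = θ * (β * Real.exp (-(lam * τ)) * ((1 - q) / 2)) := by rw [e2]
              _ ≤ θ * (β * Real.exp (-(lam * r)) * (φ - q)) := by gcongr
              _ = _ := by ring
          · have hι1 : ι = 0 := by rw [hι, if_neg hrτ]
            rw [hι1, mul_zero]
            have : 0 ≤ φ - q := by linarith
            positivity
        unfold wkV
        nlinarith [s1, s2, s3]

private lemma gwalkA_le (S : StdC μ ν h h') {τ θ θ' B : ℝ} (hτ : 0 < τ) (hθ0 : 0 < θ)
    (hθ'0 : 0 < θ') (hB : Tilt h θ B)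
    {lam q : ℝ} (hlam : 0 < lam) (hq1 : q < 1) (hq0 : 0 ≤ q)
    (hQi : Integrable (fun p : ℝ × ℝ => Real.exp (-(lam * (p.1 - min p.2 τ)))) (μ.prod ν))
    (hQ : ∫ p : ℝ × ℝ, Real.exp (-(lam * (p.1 - min p.2 τ))) ∂(μ.prod ν) ≤ q)
    {φ : ℝ} (hφ : (1 + θ * (∫ s, s ∂μ) + θ ^ 2 * (∫ s, s ^ 2 * Real.exp (h s / 4) ∂μ)) *
      (1 - (θ + θ') * (∫ t, min t τ ∂ν) + (θ + θ') ^ 2 * τ ^ 2) ≤ φ)
    (hφq : (1 + q) / 2 ≤ φ) (n : ℕ) :
    ∀ r : ℝ, 0 ≤ r → walkA μ ν B τ θ θ' n r ≤
      ENNReal.ofReal (φ ^ n * wkV θ lam (2 * τ * Real.exp (lam * τ) / (1 - q)) r) := by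
  set β := 2 * τ * Real.exp (lam * τ) / (1 - q) with hβ
  have hq1' : 0 < 1 - q := by linarith
  have hβ0 : 0 < β := by positivity
  have hφ0 : 0 ≤ φ := by linarith
  induction n with
  | zero =>
    intro r hr
    unfold walkA
    have : {z : ℕ → ℝ × ℝ | ∀ i < 0, (z i).1 ≤ B} = Set.univ := by
      ext z; simp
    rw [this]
    simp only [Set.indicator_univ, reflT, sumT, Finset.range_zero, Finset.sum_empty, mul_zero,
      sub_zero, lintegral_const, measure_univ, mul_one, pow_zero, one_mul]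
    apply ENNReal.ofReal_le_ofReal
    unfold wkV
    have : 0 ≤ β * θ * Real.exp (-(lam * r)) := by positivity
    linarith
  | succ n ih =>
    intro r hr
    rw [walkA_succ]
    have hstep := gwkA_step S hτ hθ0 hθ'0 hB hlam hq1 hq0 hQi hQ hφ hφq hr
    rw [← hβ] at hstep
    calc ∫⁻ p, ENNReal.ofReal ((Set.Iic B).indicator (fun _ => (1 : ℝ)) p.1 *
          Real.exp (-(θ' * min p.2 τ))) *
          walkA μ ν B τ θ θ' n (max (r + p.1 - min p.2 τ) 0) ∂(μ.prod ν)
        ≤ ∫⁻ p, ENNReal.ofReal (φ ^ n) * ENNReal.ofReal ((Set.Iic B).indicator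
          (fun _ => (1 : ℝ)) p.1 * Real.exp (-(θ' * min p.2 τ)) *
          wkV θ lam β (max (r + p.1 - min p.2 τ) 0)) ∂(μ.prod ν) := by
          apply lintegral_mono
          intro p
          have h1 := ih (max (r + p.1 - min p.2 τ) 0) (le_max_right _ _)
          have h2 : 0 ≤ (Set.Iic B).indicator (fun _ => (1 : ℝ)) p.1 *
            Real.exp (-(θ' * min p.2 τ)) :=
            mul_nonneg (Set.indicator_nonneg (fun _ _ => zero_le_one) _) (Real.exp_pos _).le
          have e : ENNReal.ofReal (φ ^ n) * ENNReal.ofReal ((Set.Iic B).indicator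
              (fun _ => (1 : ℝ)) p.1 * Real.exp (-(θ' * min p.2 τ)) *
              wkV θ lam β (max (r + p.1 - min p.2 τ) 0)) =
              ENNReal.ofReal ((Set.Iic B).indicator
              (fun _ => (1 : ℝ)) p.1 * Real.exp (-(θ' * min p.2 τ))) *
              ENNReal.ofReal (φ ^ n * wkV θ lam β (max (r + p.1 - min p.2 τ) 0)) := by
            rw [← ENNReal.ofReal_mul (by positivity), ← ENNReal.ofReal_mul h2]
            congr 1
            ring
          simp only
          rw [e]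
          exact mul_le_mul' le_rfl h1
      _ = ENNReal.ofReal (φ ^ n) * ∫⁻ p, ENNReal.ofReal ((Set.Iic B).indicator
          (fun _ => (1 : ℝ)) p.1 * Real.exp (-(θ' * min p.2 τ)) *
          wkV θ lam β (max (r + p.1 - min p.2 τ) 0)) ∂(μ.prod ν) := by
          apply lintegral_const_mul
          apply ENNReal.measurable_ofReal.comp
          apply Measurable.mul
          · apply Measurable.mul
            · exact (measurable_const.indicator measurableSet_Iic).comp measurable_fst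
            · fun_prop
          · exact (measurable_wkV θ lam β).comp (by fun_prop)
      _ ≤ ENNReal.ofReal (φ ^ n) * ENNReal.ofReal (φ * wkV θ lam β r) := by gcongr
      _ = ENNReal.ofReal (φ ^ (n + 1) * wkV θ lam β r) := by
          rw [← ENNReal.ofReal_mul (by positivity)]
          congr 1
          ring

/-- Original: `walkA_sum` in `Two/WalkA.lean` (steps `wkA_lambda`, `wkA_step`, `walkA_le`;
`wkV`, `walkA_succ`, `wkA_limit`, `wk_nu`, `wk_geom` are reused), with the hazard `a x^(a-1)`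
replaced by a free small `u` and `b x` by any `B` with `Tilt h (rp u) B`. -/
theorem gwalkA_sum (S : StdC μ ν h h') {τ rp rm : ℝ} (hτ : 0 < τ) (hrp : 0 < rp)
    (hrm : 0 < rm) (hgt : (∫ t, min t τ ∂ν) < ∫ s, s ∂μ)
    (hD : rp * (∫ s, s ∂μ) < (rp + rm) * ∫ t, min t τ ∂ν) {ω : ℝ} (hω : 0 < ω) :
    ∃ u0 : ℝ, 0 < u0 ∧ ∀ u : ℝ, 0 < u → u ≤ u0 → ∀ B : ℝ, Tilt h (rp * u) B →
      ∀ (N : ℕ) (r : ℝ), 0 ≤ r →
      ∑ n ∈ Finset.range N, walkA μ ν B τ (rp * u) (rm * u) n r ≤
        ENNReal.ofReal ((1 + ω) / (((rp + rm) * (∫ t, min t τ ∂ν) - rp * ∫ s, s ∂μ) * u) *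
          Real.exp (rp * u * r)) := by
  obtain ⟨lam, q, hlam, hq1, hq0, hQi, hQ⟩ := gwkA_lambda S hτ hgt
  set β := 2 * τ * Real.exp (lam * τ) / (1 - q) with hβ
  have hq1' : 0 < 1 - q := by linarith
  have hβ0 : 0 < β := by positivity
  have hlim := wkA_limit (C := ∫ s, s ^ 2 * Real.exp (h s / 4) ∂μ) (τ := τ) (β := β) hD hω hq1
  obtain ⟨u0, hu0, hu⟩ := (mem_nhdsGT_iff_exists_Ioc_subset).1 hlim
  refine ⟨u0, hu0, fun u hu1 hu2 B hB N r hr => ?_⟩
  obtain ⟨h1, h2, h3⟩ := hu ⟨hu1, hu2⟩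
  set φ := (1 + rp * u * (∫ s, s ∂μ) + (rp * u) ^ 2 * (∫ s, s ^ 2 * Real.exp (h s / 4) ∂μ)) *
      (1 - ((rp + rm) * u) * (∫ t, min t τ ∂ν) + ((rp + rm) * u) ^ 2 * τ ^ 2) with hφ
  set θ := rp * u with hθ
  have hθ0 : 0 < θ := by positivity
  have hθ'0 : 0 < rm * u := by positivity
  have hφ0 : 0 ≤ φ := by linarith
  have hle := fun n => gwalkA_le S hτ hθ0 hθ'0 hB hlam hq1 hq0 hQi hQ
    (φ := φ) (by rw [hφ, add_mul rp rm u]) h1 n r hr
  have hV : wkV θ lam β r ≤ (1 + β * θ) * Real.exp (θ * r) := by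
    unfold wkV
    have e1 : Real.exp (-(lam * r)) ≤ Real.exp (θ * r) := by
      apply Real.exp_le_exp.mpr
      have : 0 ≤ lam * r := by positivity
      have : 0 ≤ θ * r := by positivity
      linarith
    calc Real.exp (θ * r) + β * θ * Real.exp (-(lam * r))
        ≤ Real.exp (θ * r) + β * θ * Real.exp (θ * r) := by gcongr
      _ = _ := by ring
  have hV0 : 0 ≤ wkV θ lam β r := wkV_nonneg hθ0.le hβ0.le r
  calc ∑ n ∈ Finset.range N, walkA μ ν B τ θ (rm * u) n r
      ≤ ∑ n ∈ Finset.range N, ENNReal.ofReal (φ ^ n * wkV θ lam β r) :=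
        Finset.sum_le_sum fun n _ => hle n
    _ = ENNReal.ofReal (∑ n ∈ Finset.range N, φ ^ n * wkV θ lam β r) := by
        rw [ENNReal.ofReal_sum_of_nonneg]
        intro n _
        positivity
    _ ≤ _ := by
        apply ENNReal.ofReal_le_ofReal
        rw [← Finset.sum_mul]
        have g1 := wk_geom hφ0 h2 N
        have h4 : 0 < 1 - φ := by linarith
        calc (∑ n ∈ Finset.range N, φ ^ n) * wkV θ lam β r
            ≤ 1 / (1 - φ) * ((1 + β * θ) * Real.exp (θ * r)) := by gcongr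
          _ = (1 + β * θ) / (1 - φ) * Real.exp (θ * r) := by ring
          _ ≤ _ := by gcongr

end Pool.Agent.Lib.MP_04add8_pr.Cv
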