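import Mathlib
import Pool.Agent.Lib.MP_04add8_pr.Cv.HLog
import Pool.Agent.Lib.MP_04add8_pr.Two.Params

open MeasureTheory ProbabilityTheory Filter Topology
open scoped ENNReal

set_option linter.unusedSectionVars false

namespace Pool.Agent.Lib.MP_04add8_pr.Cv

open Pool.Agent.Lib.MP_04add8_pr.Gen

variable {h h' : ℝ → ℝ} {μ ν : Measure ℝ} [IsProbabilityMeasure μ]
  [IsProbabilityMeasure ν]

/-- Port of `Gen.gparam_exists` (`Gen/Params.lean`): `rp = 1 + 1/(n+1)`, `rm = 1 - 1/(n+2)`, `τ = n`, and `ε`, `ε4` so small that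
the ratio conditions hold (`HazC.near_one` with `r = rp` and `r = 1/rm`). -/
theorem gparam_exists (S : StdC μ ν h h') {ω : ℝ} (hω : 0 < ω) :
    ∃ ε ε4 τ rp rm : ℝ, 0 < ε ∧ ε ≤ 1 / 8 ∧ 0 < ε4 ∧ 0 < τ ∧ 0 < rp ∧ rp ≤ 2 ∧ 0 < rm ∧
      (∀ᶠ x : ℝ in atTop, h' ((1 - 4 * ε) * x) ≤ rp * h' x) ∧
      (∀ᶠ x : ℝ in atTop, rm * h' x ≤ h' ((1 + ε4) * x)) ∧
      (∫ t, min t τ ∂ν) < (∫ s, s ∂μ) ∧
      rp * (∫ s, s ∂μ) < (rp + rm) * (∫ t, min t τ ∂ν) ∧
      rp * (∫ s, s ∂μ) < 2 * rm * (∫ t, min t τ ∂ν) ∧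
      cA (∫ s, s ∂μ) (∫ t, min t τ ∂ν) rp rm * cC (∫ s, s ∂μ) (∫ t, min t τ ∂ν) rp rm <
        K2 μ ν + ω := by
  unfold K2
  have hm := S.hm
  have hgt := S.hgt
  have hlt := S.hlt
  have hν := S.hν
  have hνi := S.hνi
  set E := ∫ s, s ∂μ with hEdef
  set m := ∫ t, t ∂ν with hmdef
  have hc : 0 < 2 * m - E := by linarith
  have hE : 0 < E := hm.trans hgt
  have hinv : Tendsto (fun n : ℕ => (1 : ℝ) / ((n : ℝ) + 1)) atTop (𝓝 0) :=
    tendsto_one_div_add_atTop_nhds_zero_nat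
  have hmin := tendsto_integral_min hν hνi
  have hrp : Tendsto (fun n : ℕ => 1 + (1 : ℝ) / ((n : ℝ) + 1)) atTop (𝓝 1) := by
    simpa using hinv.const_add 1
  have hrm : Tendsto (fun n : ℕ => 1 - (1 : ℝ) / ((n : ℝ) + 1)) atTop (𝓝 1) := by
    simpa using hinv.const_sub 1
  set rp : ℕ → ℝ := fun n => 1 + (1 : ℝ) / ((n : ℝ) + 1) with hrpdef
  set rm : ℕ → ℝ := fun n => 1 - (1 : ℝ) / ((n : ℝ) + 1) with hrmdef
  set mm : ℕ → ℝ := fun n => ∫ t, min t (n : ℝ) ∂ν with hmm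
  have hDA : Tendsto (fun n => (rp n + rm n) * mm n - rp n * E) atTop (𝓝 (2 * m - E)) := by
    have := ((hrp.add hrm).mul hmin).sub (hrp.mul_const E)
    have e : (1 + 1) * m - 1 * E = 2 * m - E := by ring
    rw [e] at this
    exact this
  have hDC : Tendsto (fun n => 2 * rm n * mm n - rp n * E) atTop (𝓝 (2 * m - E)) := by
    have := ((hrm.const_mul 2).mul hmin).sub (hrp.mul_const E)
    have e : 2 * 1 * m - 1 * E = 2 * m - E := by ring
    rw [e] at this
    exact this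
  have hA : Tendsto (fun n => cA E (mm n) (rp n) (rm n)) atTop (𝓝 (1 / (2 * m - E))) := by
    unfold cA
    exact tendsto_const_nhds.div hDA hc.ne'
  have hC : Tendsto (fun n => cC E (mm n) (rp n) (rm n)) atTop
      (𝓝 (1 / (2 * m - E) + 1 * E / (2 * m - E) ^ 2)) := by
    unfold cC
    exact (tendsto_const_nhds.div hDC hc.ne').add
      ((hrp.mul_const E).div (hDC.pow 2) (pow_ne_zero 2 hc.ne'))
  have hF : Tendsto (fun n => cA E (mm n) (rp n) (rm n) * cC E (mm n) (rp n) (rm n)) atTop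
      (𝓝 (2 * m / (2 * m - E) ^ 3)) := by
    have := hA.mul hC
    have e : 1 / (2 * m - E) * (1 / (2 * m - E) + 1 * E / (2 * m - E) ^ 2) =
        2 * m / (2 * m - E) ^ 3 := by
      field_simp
      ring
    rw [e] at this
    exact this
  have hmle : ∀ n : ℕ, mm n ≤ m := by
    intro n
    apply integral_mono_ae (min_integrable hν (by positivity)) hνi
    filter_upwards with t
    exact min_le_left _ _
  have ev1 := hF.eventually_lt_const (show 2 * m / (2 * m - E) ^ 3 <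
    2 * m / (2 * m - E) ^ 3 + ω by linarith)
  have ev2 := hDA.eventually_const_lt hc
  have ev3 := hDC.eventually_const_lt hc
  obtain ⟨n, e1, e2, e3, e5⟩ :=
    (ev1.and (ev2.and (ev3.and (eventually_ge_atTop 1)))).exists
  have hn : (1 : ℝ) ≤ n := by exact_mod_cast e5
  have ht0 : 0 < (1 : ℝ) / ((n : ℝ) + 1) := by positivity
  have ht1 : (1 : ℝ) / ((n : ℝ) + 1) < 1 := by
    rw [div_lt_one (by positivity)]; linarith
  have hrp1 : 1 < rp n := by
    simp only [hrpdef]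
    linarith
  have hrp2 : rp n ≤ 2 := by
    simp only [hrpdef]
    linarith
  have hrm0 : 0 < rm n := by
    simp only [hrmdef]
    linarith
  have hrm1 : rm n < 1 := by
    simp only [hrmdef]
    linarith
  obtain ⟨δ, hδ0, hδ1, hδ⟩ := S.haz.near_one hrp1
  obtain ⟨η, hη0, hη1, hη⟩ := S.haz.near_one (one_lt_one_div hrm0 hrm1)
  refine ⟨δ / 4, η, n, rp n, rm n, by positivity, by linarith, hη0, by linarith, by linarith,
    hrp2, hrm0, ?_, ?_, (hmle n).trans_lt hgt, ?_, ?_, e1⟩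
  · filter_upwards [eventually_gt_atTop 0] with x hx
    have h1 := (hδ δ x hδ0.le le_rfl hx).1
    have h2 : (1 - 4 * (δ / 4)) * x = (1 - δ) * x := by ring
    rw [h2]
    exact h1
  · filter_upwards [eventually_gt_atTop 0] with x hx
    have h1 := (hη η x hη0.le le_rfl hx).2
    have h2 := mul_le_mul_of_nonneg_left h1 hrm0.le
    calc rm n * h' x ≤ rm n * (1 / rm n * h' ((1 + η) * x)) := h2
      _ = h' ((1 + η) * x) := by field_simp
  · have e2' : 0 < (rp n + rm n) * mm n - rp n * E := e2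
    change rp n * E < (rp n + rm n) * mm n
    linarith
  · have e3' : 0 < 2 * rm n * mm n - rp n * E := e3
    change rp n * E < 2 * rm n * mm n
    linarith

end Pool.Agent.Lib.MP_04add8_pr.Cv
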