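import Mathlib
import Pool.Agent.Lib.MP_04add8_pr.Cv.MainSumC
import Pool.Agent.Lib.MP_04add8_pr.Cv.ParamsC

open MeasureTheory ProbabilityTheory Filter Topology
open scoped ENNReal

set_option linter.unusedSectionVars false

namespace Pool.Agent.Lib.MP_04add8_pr.Cv

open Pool.Agent.Lib.MP_04add8_pr.Gen

variable {h h' : ℝ → ℝ} {μ ν : Measure ℝ} [IsProbabilityMeasure μ]
  [IsProbabilityMeasure ν]

variable {B v : ℝ → ℝ}

private lemma MainAllC_slack {c ω : ℝ} (_hc : 0 < c) (hω : 0 < ω) :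
    ∃ w : ℝ, 0 < w ∧ (1 + w) ^ 5 * (c + ω / 2) ≤ c + ω := by
  have h1 : ContinuousAt (fun w : ℝ => (1 + w) ^ 5 * (c + ω / 2)) 0 := by fun_prop
  have h2 : (1 + (0 : ℝ)) ^ 5 * (c + ω / 2) < c + ω := by
    norm_num
    linarith
  have h3 := h1.eventually_lt_const h2
  have h4 : ∀ᶠ w in 𝓝[>] (0 : ℝ), (1 + w) ^ 5 * (c + ω / 2) < c + ω :=
    h3.filter_mono nhdsWithin_le_nhds
  obtain ⟨w, hw1, hw2⟩ := (h4.and self_mem_nhdsWithin).exists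
  exact ⟨w, hw2, hw1.le⟩

/-- Port of `Gen.gmain_all` (`Gen/MainAll.lean`); `ε5 = ε4 / τ`. -/
theorem gmain_all (S : StdC μ ν h h') (T : Thr h h' B v) {ω : ℝ} (hω : 0 < ω) :
    ∃ ε ε5 : ℝ, 0 < ε ∧ ε ≤ 1 / 8 ∧ 0 < ε5 ∧
    ∀ᶠ x : ℝ in atTop, ∀ π : Measure (ℝ × ℝ), IsStationaryKW μ ν π →
      ∀ N : ℕ, (N : ℝ) ≤ ε5 * x →
      ∑ p ∈ (Finset.range N ×ˢ Finset.range N).filter (fun p => p.1 + p.2 + 2 ≤ N),
        (π.prod (noise μ ν)) (mainEvent x (B x) ε p.1 p.2 ∩ {q | q.1.2 ≤ v x}) ≤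
      ENNReal.ofReal ((K2 μ ν + ω) * (Qf h h' x) ^ 2) := by
  have hK2 : 0 < K2 μ ν := by
    unfold K2
    have h1 := S.hm
    have h2 := S.hlt
    have h3 : 0 < 2 * (∫ t, t ∂ν) - ∫ s, s ∂μ := by linarith
    positivity
  obtain ⟨ε, ε4, τ, rp, rm, hε, hε8, hε4, hτ, hrp, hrp2, hrm, hr1, hr2, hh1, hh2, hh3, hcc⟩ :=
    gparam_exists S (show 0 < ω / 2 by positivity)
  obtain ⟨w, hw, hw1⟩ := MainAllC_slack hK2 hω
  refine ⟨ε, ε4 / τ, hε, hε8, by positivity, ?_⟩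
  filter_upwards [gmain_sum S T ε ε4 τ rp rm hε hε8 hε4 hτ hrp hrp2 hrm hr1 hr2 hh1 hh2 hh3
    w hw] with x hx π hπ N hN
  have hN' : (N : ℝ) * τ ≤ ε4 * x := by
    have h1 := mul_le_mul_of_nonneg_right hN hτ.le
    have h2 : ε4 / τ * x * τ = ε4 * x := by
      field_simp
    rwa [h2] at h1
  refine (hx π hπ N hN').trans (ENNReal.ofReal_le_ofReal ?_)
  refine mul_le_mul_of_nonneg_right ?_ (by positivity)
  refine le_trans ?_ hw1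
  exact mul_le_mul_of_nonneg_left hcc.le (by positivity)

end Pool.Agent.Lib.MP_04add8_pr.Cv
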