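import Mathlib
import Pool.Agent.Lib.MP_04add8_pr.Cv.ThrF
import Pool.Agent.Lib.MP_04add8_pr.Cv.LawM
import Pool.Agent.Lib.MP_04add8_pr.Crit.SumSmall
import Pool.Agent.Lib.MP_04add8_pr.One.Defs

open MeasureTheory ProbabilityTheory Filter Topology
open scoped ENNReal

set_option linter.unusedSectionVars false

namespace Pool.Agent.Lib.MP_04add8_pr.Cv

open Pool.Agent.Lib.MP_04add8_pr.Gen

variable {h h' : ℝ → ℝ} {μ ν : Measure ℝ} [IsProbabilityMeasure μ]
  [IsProbabilityMeasure ν]

variable {B v : ℝ → ℝ}

/-- **Sums of few small jobs.** Original: `Gen.gsum_small` (`Gen/SumSmall.lean`), now with the tilt `θ = h' (B x) / 4`,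
which satisfies `Tilt h θ (B x)` (`θ s ≤ h' s s / 4 ≤ h s / 4` for `0 < s ≤ B x`). `M = ∫ s e^{h s/4} dμ`; the probability is at
most `e^{-θ ε x + θ M n} ≤ e^{-θ ε x / 2}` for `n ≤ ε2 x`, `ε2 = ε / (2 (M + 1))`, and `θ ε x / 2 = (ε/8) x h' (B x)` dominates
`K log x + h (a x)` by `Thr.ld`. -/
theorem sum_ld (S : StdC μ ν h h') (T : Thr h h' B v) {ε : ℝ} (hε : 0 < ε) :
    ∃ ε2 : ℝ, 0 < ε2 ∧ ∀ K a : ℝ, ∀ᶠ x : ℝ in atTop, ∀ n : ℕ, (n : ℝ) ≤ ε2 * x →
      (noise μ ν) (allLe (B x) n ∩ {z | ε * x < sumS z n}) ≤
        ENNReal.ofReal (x ^ (-K) * Real.exp (-(h (a * x)))) := by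
  set M := ∫ s, s * Real.exp (h s / 4) ∂μ with hM
  have hMint : Integrable (fun s : ℝ => s * Real.exp (h s / 4)) μ := by
    have h1 := law_integrable S.haz S.law (c := 1 / 4) (by norm_num) 1
    refine h1.congr (Eventually.of_forall fun s => ?_)
    simp only
    rw [pow_one]
    congr 2
    ring
  have hM0 : 0 ≤ M := by
    refine integral_nonneg_of_ae ?_
    filter_upwards [S.law.nn] with s hs
    simp only [Pi.zero_apply]
    positivity
  refine ⟨ε / (2 * (M + 1)), by positivity, ?_⟩
  intro K a
  filter_upwards [T.pos, T.ld S.haz K a (ε := ε / 8) (by positivity), eventually_gt_atTop 0]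
    with x hBx hld hx n hn
  set θ := h' (B x) / 4 with hθ
  have hB' : 0 < h' (B x) := S.haz.pos _ hBx
  have hθ0 : 0 < θ := by positivity
  have hsmall : ∀ s : ℝ, 0 ≤ s → s ≤ B x → θ * s ≤ h s / 4 := by
    intro s hs hsB
    rcases hs.eq_or_lt with h0 | h0
    · rw [← h0, mul_zero]
      have := S.haz.nonneg 0
      positivity
    · have h1 := S.haz.anti s (B x) h0 hsB
      have h2 : s * h' s ≤ h s := S.haz.mul_deriv_le h0
      have h3 : h' (B x) * s ≤ h' s * s := mul_le_mul_of_nonneg_right h1 hs
      rw [hθ]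
      linarith
  set g : ℝ → ℝ≥0∞ := (Set.Iic (B x)).indicator
    (fun s => ENNReal.ofReal (Real.exp (θ * s))) with hg
  have hgm : Measurable g := by
    rw [hg]
    exact Measurable.indicator (by fun_prop) measurableSet_Iic
  have hgint : ∫⁻ s, g s ∂μ ≤ ENNReal.ofReal (Real.exp (θ * M)) := by
    have h1 : ∀ᵐ s ∂μ, g s ≤ ENNReal.ofReal (1 + θ * (s * Real.exp (h s / 4))) := by
      filter_upwards [S.law.nn] with s hs
      by_cases hsx : s ∈ Set.Iic (B x)
      · rw [hg, Set.indicator_of_mem hsx]
        apply ENNReal.ofReal_le_ofReal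
        have h2 := hsmall s hs hsx
        have h3 := exp_le_one_add_mul_exp (θ * s)
        calc Real.exp (θ * s) ≤ 1 + θ * s * Real.exp (θ * s) := h3
          _ ≤ 1 + θ * s * Real.exp (h s / 4) := by gcongr
          _ = _ := by ring
      · rw [hg, Set.indicator_of_notMem hsx]
        exact zero_le
    refine (lintegral_mono_ae h1).trans ?_
    have hint : Integrable (fun s : ℝ => 1 + θ * (s * Real.exp (h s / 4))) μ :=
      (integrable_const _).add (hMint.const_mul θ)
    rw [← ofReal_integral_eq_lintegral_ofReal hint (by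
      filter_upwards [S.law.nn] with s hs
      simp only [Pi.zero_apply]
      positivity)]
    apply ENNReal.ofReal_le_ofReal
    rw [integral_add (integrable_const _) (hMint.const_mul θ), integral_const_mul, ← hM]
    simp only [integral_const, probReal_univ, smul_eq_mul, mul_one]
    have := Real.add_one_le_exp (θ * M)
    linarith
  have hset : MeasurableSet (allLe (B x) n ∩ {z | ε * x < sumS z n}) :=
    (measurableSet_allLe _ _).inter (measurableSet_lt measurable_const (measurable_sumS n))
  have hprod := cm_prod (μ := μ) (ν := ν) hgm n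
  have hmain : (noise μ ν) (allLe (B x) n ∩ {z | ε * x < sumS z n}) ≤
      ∫⁻ z, ENNReal.ofReal (Real.exp (-(θ * (ε * x)))) *
        ∏ k ∈ Finset.range n, g (z k).1 ∂(noise μ ν) := by
    rw [← lintegral_indicator_one hset]
    apply lintegral_mono
    intro z
    by_cases hz : z ∈ allLe (B x) n ∩ {z | ε * x < sumS z n}
    · simp only
      rw [Set.indicator_of_mem hz, Pi.one_apply]
      have h1 : ∏ k ∈ Finset.range n, g (z k).1 = ENNReal.ofReal (Real.exp (θ * sumS z n)) := by
        have h2 : ∀ k ∈ Finset.range n, g (z k).1 =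
            ENNReal.ofReal (Real.exp (θ * (z k).1)) := by
          intro k hk
          rw [hg, Set.indicator_of_mem]
          exact hz.1 k (Finset.mem_range.1 hk)
        rw [Finset.prod_congr rfl h2, ← ENNReal.ofReal_prod_of_nonneg
          (fun k _ => (Real.exp_pos _).le), ← Real.exp_sum]
        unfold sumS
        rw [Finset.mul_sum]
      rw [h1, ← ENNReal.ofReal_mul (by positivity), ← Real.exp_add, ENNReal.one_le_ofReal,
        Real.one_le_exp_iff]
      have h3 : ε * x < sumS z n := hz.2
      have h4 : θ * (ε * x) ≤ θ * sumS z n := by gcongr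
      linarith
    · simp only
      rw [Set.indicator_of_notMem hz]
      exact zero_le
  refine hmain.trans ?_
  have hpm : Measurable fun z : ℕ → ℝ × ℝ => ∏ k ∈ Finset.range n, g (z k).1 := by
    apply Finset.measurable_prod
    intro k _
    exact hgm.comp (measurable_fst.comp (measurable_pi_apply k))
  rw [lintegral_const_mul _ hpm, hprod]
  calc ENNReal.ofReal (Real.exp (-(θ * (ε * x)))) * (∫⁻ s, g s ∂μ) ^ n
      ≤ ENNReal.ofReal (Real.exp (-(θ * (ε * x)))) *
        (ENNReal.ofReal (Real.exp (θ * M))) ^ n := by gcongr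
    _ = ENNReal.ofReal (Real.exp (-(θ * (ε * x)) + n * (θ * M))) := by
        rw [← ENNReal.ofReal_pow (by positivity), ← Real.exp_nat_mul,
          ← ENNReal.ofReal_mul (by positivity), ← Real.exp_add]
    _ ≤ _ := by
        apply ENNReal.ofReal_le_ofReal
        rw [Real.rpow_def_of_pos hx, ← Real.exp_add]
        apply Real.exp_le_exp.mpr
        have h2 : (n : ℝ) * (θ * M) ≤ (θ * (ε * x)) / 2 := by
          calc (n : ℝ) * (θ * M) ≤ (ε / (2 * (M + 1)) * x) * (θ * M) := by
                refine mul_le_mul_of_nonneg_right hn (by positivity)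
            _ = (M / (M + 1)) * (θ * (ε * x)) / 2 := by
                field_simp
            _ ≤ 1 * (θ * (ε * x)) / 2 := by
                have h3 : M / (M + 1) ≤ 1 := by
                  rw [div_le_one (by positivity)]
                  linarith
                gcongr
            _ = _ := by ring
        have e1 : θ * (ε * x) / 2 = ε / 8 * (x * h' (B x)) := by
          rw [hθ]
          ring
        have e2 : Real.log x * -K = -(K * Real.log x) := by ring
        rw [e2]
        linarith

end Pool.Agent.Lib.MP_04add8_pr.Cv
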