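import Mathlib
import Pool.Agent.Lib.MP_04add8_pr.Cv.KillOne
import Pool.Agent.Lib.MP_04add8_pr.Cv.KillTop
import Pool.Agent.Lib.MP_04add8_pr.Cv.KillAB
import Pool.Agent.Lib.MP_04add8_pr.Cv.KillGam
import Pool.Agent.Lib.MP_04add8_pr.Cv.SumLD
import Pool.Agent.Lib.MP_04add8_pr.Cv.MainAllC
import Pool.Agent.Lib.MP_04add8_pr.Cv.Det

/-!
**Proof.** There are at most `4 x⁴⁰` pairs, so each negligible term is needed with `K' = |K| + 45` in place of `K`. Constants: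
`ε`, `ε5` from `gmain_all` (with `ω/2`); `c1` from `kill_gam`; `A4 = 2 + C`; `ε2'` from `sum_ld` (with this `ε`); `ε2 = min (ε5/8) (ε2') (1)`, `ε1 = c1 ε2`;
`K3` = maximum of the constants of `kill_top` and `kill_gam` (with `ε2`, `A4`, `K'`).
Case A, `x h' x < K3 log x`: `case_A` for every pair.
Case B, `K3 log x ≤ x h' x` (then both `K3`-hypotheses hold, `log x ≥ 0`). Let `q ∈ Ctwo n1 n2`, `Z = A4 x`, `n = n1 + n2 + 2`.
* `q ∈ Top Z n`: `kill_top`.
* `ε2 x ≤ n2`: `kill_beta`.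
* `n2 < ε2 x`. If the sum of the last `n2` jobs is `> ε x`: the event `{∀ i < n2, job_{n1+i+2} ≤ B, sum > ε x}` has the probability of
  `allLe (B x) n2 ∩ {ε x < sumS z n2}` under `noise` (stationary noise: `pathShift`/`measurePreserving_path` for the second coordinate),
  `sum_ld` with `a = 1 + C`: `e^{-h ((1+C) x)} ≤ e^{-RR x}` (`RR_le_h`). Otherwise `y₂ > (1 - ε) x ≥ x/2` (`ctwo_state`, `ε ≤ 1/8`).
  - `ε1 x ≤ y₁`: `kill_alpha`.
  - `y₁ < ε1 x` and `ε2 x ≤ n1`: `kill_gam` (`c1 (ε2 x) = ε1 x`).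
  - `n1 < ε2 x`: if the sum of the jobs `1, …, n1` is `> ε x`: `sum_ld`. Otherwise `q ∈ mainEvent x (B x) ε n1 n2 ∩ {q.1.2 ≤ v x}`
    (`v x ≤ 2 ε x`); here `n1 + n2 + 2 ≤ N'` with `N' = ⌊2 ε2 x⌋ + 3 ≤ ε5 x`: `gmain_all`.
The negligible terms of the form `x^(-K') e^{-2 h x}` are `≤ (ω/4) x^{-45} Qf²`, because `Qf = e^{-h x}/h' x` and `h' x ≤ 1` eventually.
-/

open MeasureTheory ProbabilityTheory Filter Topology
open scoped ENNReal

set_option linter.unusedSectionVars false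

namespace Pool.Agent.Lib.MP_04add8_pr.Cv

open Pool.Agent.Lib.MP_04add8_pr.Gen

variable {h h' : ℝ → ℝ} {μ ν : Measure ℝ} [IsProbabilityMeasure μ]
  [IsProbabilityMeasure ν]

variable {B v : ℝ → ℝ}

/-- the probability that a shifted noise sequence belongs to `A` -/
private lemma ClassThree_shift {π : Measure (ℝ × ℝ)} (hπ : IsStationaryKW μ ν π)
    {A : Set (ℕ → ℝ × ℝ)} (hA : MeasurableSet A) (m : ℕ) :
    (π.prod (noise μ ν)) {q | (fun k => q.2 (m + k)) ∈ A} = noise μ ν A := by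
  have hp : IsProbabilityMeasure π := hπ.1
  have h1 : MeasurableSet {q : (ℝ × ℝ) × (ℕ → ℝ × ℝ) | q.2 ∈ A} := measurable_snd hA
  have h2 := (hπ.measurePreserving_path m).measure_preimage h1.nullMeasurableSet
  have h3 : pathShift m ⁻¹' {q : (ℝ × ℝ) × (ℕ → ℝ × ℝ) | q.2 ∈ A} =
      {q | (fun k => q.2 (m + k)) ∈ A} := rfl
  rw [h3] at h2
  rw [h2]
  have h4 : {q : (ℝ × ℝ) × (ℕ → ℝ × ℝ) | q.2 ∈ A} = Set.univ ×ˢ A := by
    ext q
    simp
  rw [h4, Measure.prod_prod, measure_univ, one_mul]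

private lemma ClassThree_meas (b e : ℝ) (n : ℕ) :
    MeasurableSet (allLe b n ∩ {z | e < sumS z n}) :=
  (measurableSet_allLe b n).inter (measurableSet_lt measurable_const (measurable_sumS n))

/-- the bound of one pair -/
private lemma ClassThree_pair (S : StdC μ ν h h') (T : Thr h h' B v) {β : ℝ → ℝ} {θ0 c C : ℝ}
    (P : Pot μ ν h β θ0 c C 0) {ε ε5 : ℝ} (hε : 0 < ε) (hε8 : ε ≤ 1 / 8) (hε5 : 0 < ε5)
    (K : ℝ) : ∃ ε2 : ℝ, 0 < ε2 ∧ 8 * ε2 ≤ ε5 ∧
    ∀ᶠ x : ℝ in atTop, ∀ π : Measure (ℝ × ℝ), IsStationaryKW μ ν π → ∀ n1 n2 : ℕ,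
      n1 + n2 + 2 ≤ ⌈x ^ 20⌉₊ →
      (π.prod (noise μ ν)) (Ctwo x (v x) (B x) (x ^ 2) n1 n2) ≤
        4 * ENNReal.ofReal (x ^ (-K) * (Real.exp (-(RR h β θ0 x)) + Real.exp (-(2 * h x)))) +
        (if n1 + n2 + 2 ≤ ⌊2 * (ε2 * x)⌋₊ + 3 then
          (π.prod (noise μ ν)) (mainEvent x (B x) ε n1 n2 ∩ {q | q.1.2 ≤ v x}) else 0) := by
  have H := S.haz
  have hC : 1 < C := by
    have h1 := P.pC
    have h2 := P.pc
    linarith
  obtain ⟨c1, hc1, hc14, hgam⟩ := kill_gam S T P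
  obtain ⟨e2, he2, hsum⟩ := sum_ld (ν := ν) S T hε
  obtain ⟨ε2, hε2def⟩ : ∃ ε2 : ℝ, ε2 = min (min (ε5 / 8) e2) 1 := ⟨_, rfl⟩
  have hε2 : 0 < ε2 := by
    rw [hε2def]
    exact lt_min (lt_min (by positivity) he2) one_pos
  have hε2a : ε2 ≤ ε5 / 8 := by
    rw [hε2def]
    exact (min_le_left _ _).trans (min_le_left _ _)
  have hε2b : ε2 ≤ e2 := by
    rw [hε2def]
    exact (min_le_left _ _).trans (min_le_right _ _)
  have hε2c : ε2 ≤ 1 := by
    rw [hε2def]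
    exact min_le_right _ _
  refine ⟨ε2, hε2, by linarith, ?_⟩
  obtain ⟨A4, hA4def⟩ : ∃ A4 : ℝ, A4 = 2 + C := ⟨_, rfl⟩
  have hA4 : 1 + C < A4 := by linarith
  have hA41 : 1 ≤ A4 := by linarith
  obtain ⟨Ka, hKa, htop⟩ := kill_top S T P hA4 K
  obtain ⟨Kb, hKb, hgam⟩ := hgam ε2 A4 K hε2 hε2c hA41
  have halpha := kill_alpha S T P (mul_pos hc1 hε2) hA41 K
  have hbeta := kill_beta S T P hε2 hA41 K
  have hcase := case_A S T P (max Ka Kb) K
  have hsum := hsum K (1 + C)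
  have hθ0 := P.pθ
  have hder : ∀ᶠ x : ℝ in atTop, h' ((1 + C) * x) ≤ θ0 := by
    have h1 : Tendsto (fun x : ℝ => (1 + C) * x) atTop atTop :=
      tendsto_id.const_mul_atTop (by linarith)
    exact (H.tendsto_deriv.comp h1).eventually_le_const hθ0
  filter_upwards [htop, hgam, halpha, hbeta, hcase, hsum, hder, T.sq, eventually_gt_atTop 1,
    eventually_ge_atTop (1 / (4 * ε ^ 2))] with x htop hgam halpha hbeta hcase hsum hder hsq hx1 hxε
    π hπ n1 n2 hn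
  have hx0 : 0 < x := by linarith
  have hlog : 0 ≤ Real.log x := Real.log_nonneg hx1.le
  have hxK : 0 ≤ x ^ (-K) := (Real.rpow_pos_of_pos hx0 _).le
  obtain ⟨E, hE⟩ : ∃ E : ℝ≥0∞, E = ENNReal.ofReal (x ^ (-K) * (Real.exp (-(RR h β θ0 x)) +
    Real.exp (-(2 * h x)))) := ⟨_, rfl⟩
  have hE1 : ENNReal.ofReal (x ^ (-K) * Real.exp (-(RR h β θ0 x))) ≤ E := by
    rw [hE]
    refine ENNReal.ofReal_le_ofReal (mul_le_mul_of_nonneg_left ?_ hxK)
    have := (Real.exp_pos (-(2 * h x))).le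
    linarith
  have hE2 : ENNReal.ofReal (x ^ (-K) * Real.exp (-(h ((1 + C) * x)))) ≤ E := by
    refine le_trans (ENNReal.ofReal_le_ofReal (mul_le_mul_of_nonneg_left ?_ hxK)) hE1
    exact Real.exp_le_exp.2 (neg_le_neg (RR_le_h H P hx0 hder))
  rw [← hE]
  have hone : E ≤ 4 * E := by
    calc E = 1 * E := (one_mul E).symm
      _ ≤ 4 * E := by gcongr; norm_num
  rcases lt_or_ge (x * h' x) (max Ka Kb * Real.log x) with hA | hB
  · -- Case A
    exact ((hcase hA π hπ n1 n2 hn).trans (hE1.trans hone)).trans le_self_add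
  -- Case B
  have hBa : Ka * Real.log x ≤ x * h' x :=
    (mul_le_mul_of_nonneg_right (le_max_left _ _) hlog).trans hB
  have hBb : Kb * Real.log x ≤ x * h' x :=
    (mul_le_mul_of_nonneg_right (le_max_right _ _) hlog).trans hB
  -- the pieces
  have p1 := (htop hBa π hπ (n1 + n2 + 2) hn).trans hE1
  have p3 : n2 ≤ ε2 * x → (π.prod (noise μ ν)) {q | (fun k => q.2 (n1 + 2 + k)) ∈
      allLe (B x) n2 ∩ {z | ε * x < sumS z n2}} ≤ E := by
    intro h2
    rw [ClassThree_shift hπ (ClassThree_meas _ _ _)]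
    exact (hsum n2 (h2.trans (mul_le_mul_of_nonneg_right hε2b hx0.le))).trans hE2
  have p6 : n1 ≤ ε2 * x → (π.prod (noise μ ν)) {q | (fun k => q.2 (1 + k)) ∈
      allLe (B x) n1 ∩ {z | ε * x < sumS z n1}} ≤ E := by
    intro h2
    rw [ClassThree_shift hπ (ClassThree_meas _ _ _)]
    exact (hsum n1 (h2.trans (mul_le_mul_of_nonneg_right hε2b hx0.le))).trans hE2
  have p4 := halpha π hπ n1 n2 hn
  rw [← hE] at p4
  have hsum2 : ∀ q : (ℝ × ℝ) × (ℕ → ℝ × ℝ), q ∈ Ctwo x (v x) (B x) (x ^ 2) n1 n2 →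
      q ∉ {q : (ℝ × ℝ) × (ℕ → ℝ × ℝ) | (fun k => q.2 (n1 + 2 + k)) ∈
        allLe (B x) n2 ∩ {z | ε * x < sumS z n2}} →
      ∑ i ∈ Finset.range n2, (q.2 (n1 + (i + 1) + 1)).1 ≤ ε * x := by
    intro q hq hq3
    by_contra hcon
    push Not at hcon
    refine hq3 ⟨?_, ?_⟩
    · intro i hi
      have h1 := hq.2.2.2.2 i hi
      have h2 : n1 + 2 + i = n1 + (i + 1) + 1 := by ring
      show (q.2 (n1 + 2 + i)).1 ≤ B x
      rw [h2]
      exact h1
    · show ε * x < sumS (fun k => q.2 (n1 + 2 + k)) n2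
      have h3 : sumS (fun k => q.2 (n1 + 2 + k)) n2 =
          ∑ i ∈ Finset.range n2, (q.2 (n1 + (i + 1) + 1)).1 := by
        unfold sumS
        refine Finset.sum_congr rfl fun i _ => ?_
        have h2 : n1 + 2 + i = n1 + (i + 1) + 1 := by ring
        show (q.2 (n1 + 2 + i)).1 = _
        rw [h2]
      rw [h3]
      exact hcon
  have hsum1 : ∀ q : (ℝ × ℝ) × (ℕ → ℝ × ℝ), q ∈ Ctwo x (v x) (B x) (x ^ 2) n1 n2 →
      q ∉ {q : (ℝ × ℝ) × (ℕ → ℝ × ℝ) | (fun k => q.2 (1 + k)) ∈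
        allLe (B x) n1 ∩ {z | ε * x < sumS z n1}} →
      ∑ i ∈ Finset.range n1, (q.2 (i + 1)).1 ≤ ε * x := by
    intro q hq hq3
    by_contra hcon
    push Not at hcon
    refine hq3 ⟨?_, ?_⟩
    · intro i hi
      have h1 := hq.2.2.1 i hi
      show (q.2 (1 + i)).1 ≤ B x
      rw [add_comm 1 i]
      exact h1
    · show ε * x < sumS (fun k => q.2 (1 + k)) n1
      have h3 : sumS (fun k => q.2 (1 + k)) n1 = ∑ i ∈ Finset.range n1, (q.2 (i + 1)).1 := by
        unfold sumS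
        refine Finset.sum_congr rfl fun i _ => ?_
        show (q.2 (1 + i)).1 = _
        rw [add_comm 1 i]
      rw [h3]
      exact hcon
  have hfour : E + E + E + E = 4 * E := by ring
  rcases le_or_gt (ε2 * x) n2 with hn2 | hn2
  · -- many small jobs at the end
    have p2 := hbeta π hπ n1 n2 hn hn2
    rw [← hE] at p2
    have hcov : Ctwo x (v x) (B x) (x ^ 2) n1 n2 ⊆
        (Gn x (v x) (x ^ 2) (n1 + n2 + 2) ∩ Top (A4 * x) (n1 + n2 + 2)) ∪
        (Ctwo x (v x) (B x) (x ^ 2) n1 n2 ∩ {q | q ∉ Top (A4 * x) (n1 + n2 + 2)}) := by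
      intro q hq
      by_cases hT : q ∈ Top (A4 * x) (n1 + n2 + 2)
      · exact Or.inl ⟨hq.1, hT⟩
      · exact Or.inr ⟨hq, hT⟩
    refine (measure_mono hcov).trans ((measure_union_le _ _).trans ?_)
    refine (add_le_add p1 p2).trans ?_
    refine le_trans ?_ le_self_add
    rw [← hfour]
    calc E + E ≤ E + E + E := le_self_add
      _ ≤ E + E + E + E := le_self_add
  · rcases le_or_gt (ε2 * x) n1 with hn1 | hn1
    · -- many small jobs between the two nonsmall ones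
      have p5 := hgam hBb π hπ n1 n2 hn hn1
      rw [← hE] at p5
      have hcov : Ctwo x (v x) (B x) (x ^ 2) n1 n2 ⊆
          (Gn x (v x) (x ^ 2) (n1 + n2 + 2) ∩ Top (A4 * x) (n1 + n2 + 2)) ∪
          {q | (fun k => q.2 (n1 + 2 + k)) ∈ allLe (B x) n2 ∩ {z | ε * x < sumS z n2}} ∪
          (Ctwo x (v x) (B x) (x ^ 2) n1 n2 ∩ {q | q ∉ Top (A4 * x) (n1 + n2 + 2) ∧
            c1 * ε2 * x ≤ (pIter q.1 q.2 (n1 + 1)).1}) ∪
          (Ctwo x (v x) (B x) (x ^ 2) n1 n2 ∩ {q | q ∉ Top (A4 * x) (n1 + n2 + 2) ∧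
            (pIter q.1 q.2 (n1 + 1)).1 ≤ c1 * (ε2 * x) ∧
            x / 2 ≤ (pIter q.1 q.2 (n1 + 1)).2}) := by
        intro q hq
        by_cases hT : q ∈ Top (A4 * x) (n1 + n2 + 2)
        · exact Or.inl (Or.inl (Or.inl ⟨hq.1, hT⟩))
        by_cases h3 : q ∈ {q : (ℝ × ℝ) × (ℕ → ℝ × ℝ) | (fun k => q.2 (n1 + 2 + k)) ∈
            allLe (B x) n2 ∩ {z | ε * x < sumS z n2}}
        · exact Or.inl (Or.inl (Or.inr h3))
        rcases le_or_gt (c1 * ε2 * x) (pIter q.1 q.2 (n1 + 1)).1 with h4 | h4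
        · exact Or.inl (Or.inr ⟨hq, hT, h4⟩)
        · refine Or.inr ⟨hq, hT, ?_, ?_⟩
          · have h5 : c1 * (ε2 * x) = c1 * ε2 * x := by ring
            rw [h5]
            exact h4.le
          · have h5 := ctwo_state hq (hsum2 q hq h3)
            have h6 : ε * x ≤ 1 / 8 * x := mul_le_mul_of_nonneg_right hε8 hx0.le
            linarith
      refine (measure_mono hcov).trans ((measure_union_le _ _).trans ?_)
      refine (add_le_add ((measure_union_le _ _).trans (add_le_add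
        ((measure_union_le _ _).trans (add_le_add p1 (p3 hn2.le))) p4)) p5).trans ?_
      refine le_trans ?_ le_self_add
      rw [hfour]
    · -- the main event
      have hfl : n1 + n2 + 2 ≤ ⌊2 * (ε2 * x)⌋₊ + 3 := by
        have h1 : n1 + n2 ≤ ⌊2 * (ε2 * x)⌋₊ := by
          refine Nat.le_floor ?_
          push_cast
          linarith
        omega
      rw [if_pos hfl]
      have hv : v x ≤ 2 * ε * x := by
        refine hsq.trans ?_
        rw [Real.sqrt_le_left (by positivity)]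
        have h1 : 1 ≤ 4 * ε ^ 2 * x := by
          rw [div_le_iff₀ (by positivity)] at hxε
          linarith
        nlinarith
      have hcov : Ctwo x (v x) (B x) (x ^ 2) n1 n2 ⊆
          {q | (fun k => q.2 (n1 + 2 + k)) ∈ allLe (B x) n2 ∩ {z | ε * x < sumS z n2}} ∪
          {q | (fun k => q.2 (1 + k)) ∈ allLe (B x) n1 ∩ {z | ε * x < sumS z n1}} ∪
          (mainEvent x (B x) ε n1 n2 ∩ {q | q.1.2 ≤ v x}) := by
        intro q hq
        by_cases h3 : q ∈ {q : (ℝ × ℝ) × (ℕ → ℝ × ℝ) | (fun k => q.2 (n1 + 2 + k)) ∈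
            allLe (B x) n2 ∩ {z | ε * x < sumS z n2}}
        · exact Or.inl (Or.inl h3)
        by_cases h6 : q ∈ {q : (ℝ × ℝ) × (ℕ → ℝ × ℝ) | (fun k => q.2 (1 + k)) ∈
            allLe (B x) n1 ∩ {z | ε * x < sumS z n1}}
        · exact Or.inl (Or.inr h6)
        · have h7 : q.1.2 ≤ v x := hq.1.2.1
          exact Or.inr ⟨⟨h7.trans hv, hq.2, hsum1 q hq h6, hsum2 q hq h3, hq.1.2.2.2⟩, h7⟩
      refine (measure_mono hcov).trans ((measure_union_le _ _).trans ?_)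
      refine add_le_add ?_ le_rfl
      refine ((measure_union_le _ _).trans (add_le_add (p3 hn2.le) (p6 hn1.le))).trans ?_
      rw [← hfour]
      calc E + E ≤ E + E + E := le_self_add
        _ ≤ E + E + E + E := le_self_add

/-- **Two nonsmall jobs.** See the header. -/
theorem class_three (S : StdC μ ν h h') (T : Thr h h' B v) {β : ℝ → ℝ} {θ0 c C : ℝ}
    (P : Pot μ ν h β θ0 c C 0) {ω : ℝ} (hω : 0 < ω) (K : ℝ) :
    ∀ᶠ x : ℝ in atTop, ∀ π : Measure (ℝ × ℝ), IsStationaryKW μ ν π →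
      ∑ p ∈ (Finset.range ⌈x ^ 20⌉₊ ×ˢ Finset.range ⌈x ^ 20⌉₊).filter
          (fun p => p.1 + p.2 + 2 ≤ ⌈x ^ 20⌉₊),
        (π.prod (noise μ ν)) (Ctwo x (v x) (B x) (x ^ 2) p.1 p.2) ≤
      ENNReal.ofReal (x ^ (-K) * Real.exp (-(RR h β θ0 x)) +
        (K2 μ ν + ω) * (Qf h h' x) ^ 2) := by
  have H := S.haz
  obtain ⟨ε, ε5, hε, hε8, hε5, hmain⟩ := gmain_all S T (half_pos hω)
  obtain ⟨ε2, hε2, hε25, hpair⟩ := ClassThree_pair S T P hε hε8 hε5 (|K| + 45)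
  have hK2 : 0 < K2 μ ν := by
    unfold K2
    have h1 := S.hm
    have h2 := S.hlt
    have h3 : 0 < 2 * (∫ t, t ∂ν) - ∫ s, s ∂μ := by linarith
    positivity
  filter_upwards [hmain, hpair, H.tendsto_deriv.eventually_le_const one_pos,
    eventually_ge_atTop 16, eventually_ge_atTop (4 / ε5), eventually_ge_atTop (32 / ω)] with
    x hmain hpair hd1 hx16 hx5 hxω π hπ
  have hx0 : 0 < x := by linarith
  have hx1 : 1 ≤ x := by linarith
  have hp : IsProbabilityMeasure π := hπ.1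
  set N0 := ⌈x ^ 20⌉₊ with hN0
  set N' := ⌊2 * (ε2 * x)⌋₊ + 3 with hN'
  -- the main part
  have hN'5 : (N' : ℝ) ≤ ε5 * x := by
    have h1 : ((⌊2 * (ε2 * x)⌋₊ : ℕ) : ℝ) ≤ 2 * (ε2 * x) := Nat.floor_le (by positivity)
    rw [hN']
    push_cast
    rw [div_le_iff₀ hε5] at hx5
    nlinarith
  have hm := hmain π hπ N' hN'5
  obtain ⟨r, hr⟩ : ∃ r : ℝ, r = x ^ (-(|K| + 45)) * (Real.exp (-(RR h β θ0 x)) +
    Real.exp (-(2 * h x))) := ⟨_, rfl⟩
  have hr0 : 0 ≤ r := by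
    rw [hr]
    have := Real.rpow_pos_of_pos hx0 (-(|K| + 45))
    positivity
  -- the sum
  have hs1 : ∑ p ∈ (Finset.range N0 ×ˢ Finset.range N0).filter (fun p => p.1 + p.2 + 2 ≤ N0),
      (π.prod (noise μ ν)) (Ctwo x (v x) (B x) (x ^ 2) p.1 p.2) ≤
      ∑ p ∈ (Finset.range N0 ×ˢ Finset.range N0).filter (fun p => p.1 + p.2 + 2 ≤ N0),
        (4 * ENNReal.ofReal r + (if p.1 + p.2 + 2 ≤ N' then
          (π.prod (noise μ ν)) (mainEvent x (B x) ε p.1 p.2 ∩ {q | q.1.2 ≤ v x}) else 0)) := by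
    refine Finset.sum_le_sum fun p hp => ?_
    rw [hr]
    exact hpair π hπ p.1 p.2 (Finset.mem_filter.1 hp).2
  refine hs1.trans ?_
  rw [Finset.sum_add_distrib]
  have hs2 : ∑ p ∈ (Finset.range N0 ×ˢ Finset.range N0).filter (fun p => p.1 + p.2 + 2 ≤ N0),
      (if p.1 + p.2 + 2 ≤ N' then
          (π.prod (noise μ ν)) (mainEvent x (B x) ε p.1 p.2 ∩ {q | q.1.2 ≤ v x}) else 0) ≤
      ENNReal.ofReal ((K2 μ ν + ω / 2) * (Qf h h' x) ^ 2) := by
    refine le_trans ?_ hm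
    rw [← Finset.sum_filter]
    refine Finset.sum_le_sum_of_subset ?_
    intro p hp
    simp only [Finset.mem_filter, Finset.mem_product, Finset.mem_range] at hp ⊢
    omega
  have hs3 : ∑ _p ∈ (Finset.range N0 ×ˢ Finset.range N0).filter
      (fun p => p.1 + p.2 + 2 ≤ N0), (4 * ENNReal.ofReal r) ≤
      ENNReal.ofReal (16 * x ^ (40 : ℕ) * r) := by
    rw [Finset.sum_const, nsmul_eq_mul]
    have hc1 : ((Finset.range N0 ×ˢ Finset.range N0).filter
        (fun p => p.1 + p.2 + 2 ≤ N0)).card ≤ N0 * N0 := by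
      refine (Finset.card_filter_le _ _).trans ?_
      rw [Finset.card_product, Finset.card_range]
    have hc2 : (N0 : ℝ) ≤ 2 * x ^ 20 := by
      have h1 : 1 ≤ x ^ 20 := one_le_pow₀ hx1
      have h2 := Nat.ceil_lt_add_one (show 0 ≤ x ^ 20 by positivity)
      rw [← hN0] at h2
      linarith
    have hc3 : ((((Finset.range N0 ×ˢ Finset.range N0).filter
        (fun p => p.1 + p.2 + 2 ≤ N0)).card : ℕ) : ℝ) ≤ 4 * x ^ 40 := by
      calc ((((Finset.range N0 ×ˢ Finset.range N0).filter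
        (fun p => p.1 + p.2 + 2 ≤ N0)).card : ℕ) : ℝ) ≤ ((N0 * N0 : ℕ) : ℝ) := by
            exact_mod_cast hc1
        _ = (N0 : ℝ) * N0 := by push_cast; ring
        _ ≤ (2 * x ^ 20) * (2 * x ^ 20) := by gcongr
        _ = 4 * x ^ 40 := by ring
    calc ((((Finset.range N0 ×ˢ Finset.range N0).filter
        (fun p => p.1 + p.2 + 2 ≤ N0)).card : ℕ) : ℝ≥0∞) * (4 * ENNReal.ofReal r) =
          ENNReal.ofReal ((((Finset.range N0 ×ˢ Finset.range N0).filter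
        (fun p => p.1 + p.2 + 2 ≤ N0)).card : ℝ) * (4 * r)) := by
            rw [ENNReal.ofReal_mul (by positivity), ENNReal.ofReal_mul (by norm_num),
              ENNReal.ofReal_natCast]
            norm_num
      _ ≤ ENNReal.ofReal (16 * x ^ (40 : ℕ) * r) := by
            refine ENNReal.ofReal_le_ofReal ?_
            have h1 : 0 ≤ 4 * r := by positivity
            have h2 := mul_le_mul_of_nonneg_right hc3 h1
            linarith
  refine (add_le_add hs3 hs2).trans ?_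
  have hQ : 0 < Qf h h' x := div_pos (Real.exp_pos _) (H.pos x hx0)
  rw [← ENNReal.ofReal_add (by positivity) (by positivity)]
  refine ENNReal.ofReal_le_ofReal ?_
  -- the negligible part
  have hpow : 16 * x ^ (40 : ℕ) * x ^ (-(|K| + 45)) ≤ min (x ^ (-K)) (ω / 2) := by
    have h1 : x ^ (-(|K| + 45)) = x ^ (-(40 : ℝ)) * (x ^ (-(5 : ℝ)) * x ^ (-|K|)) := by
      rw [← Real.rpow_add hx0, ← Real.rpow_add hx0]
      congr 1
      ring
    have h2 : x ^ (40 : ℕ) * x ^ (-(40 : ℝ)) = 1 := by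
      rw [Real.rpow_neg hx0.le]
      have : x ^ (40 : ℝ) = x ^ (40 : ℕ) := by
        exact_mod_cast Real.rpow_natCast x 40
      rw [this]
      field_simp
    have h3 : x ^ (-(5 : ℝ)) ≤ 1 / x := by
      rw [one_div, ← Real.rpow_neg_one]
      exact Real.rpow_le_rpow_of_exponent_le hx1 (by norm_num)
    have h4 : 16 * x ^ (40 : ℕ) * x ^ (-(|K| + 45)) = 16 * x ^ (-(5 : ℝ)) * x ^ (-|K|) := by
      rw [h1]
      calc 16 * x ^ (40 : ℕ) * (x ^ (-(40 : ℝ)) * (x ^ (-(5 : ℝ)) * x ^ (-|K|))) =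
          16 * (x ^ (40 : ℕ) * x ^ (-(40 : ℝ))) * (x ^ (-(5 : ℝ)) * x ^ (-|K|)) := by ring
        _ = 16 * x ^ (-(5 : ℝ)) * x ^ (-|K|) := by rw [h2]; ring
    have h5 : 0 ≤ x ^ (-|K|) := (Real.rpow_pos_of_pos hx0 _).le
    have h6 : x ^ (-|K|) ≤ 1 := by
      have := Real.rpow_le_rpow_of_exponent_le hx1 (show -|K| ≤ 0 by simp)
      rwa [Real.rpow_zero] at this
    have h7 : 16 * x ^ (-(5 : ℝ)) ≤ 1 := by
      have : 16 * (1 / x) ≤ 1 := by
        rw [mul_one_div, div_le_one hx0]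
        exact hx16
      linarith
    have h8 : 16 * x ^ (-(5 : ℝ)) ≤ ω / 2 := by
      have h9 : 16 * (1 / x) ≤ ω / 2 := by
        rw [mul_one_div, div_le_iff₀ hx0]
        rw [div_le_iff₀ hω] at hxω
        linarith
      linarith
    rw [h4]
    refine le_min ?_ ?_
    · calc 16 * x ^ (-(5 : ℝ)) * x ^ (-|K|) ≤ 1 * x ^ (-|K|) :=
            mul_le_mul_of_nonneg_right h7 h5
        _ = x ^ (-|K|) := one_mul _
        _ ≤ x ^ (-K) := Real.rpow_le_rpow_of_exponent_le hx1 (by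
            have := le_abs_self K
            linarith)
    · calc 16 * x ^ (-(5 : ℝ)) * x ^ (-|K|) ≤ ω / 2 * 1 :=
            mul_le_mul h8 h6 h5 (by positivity)
        _ = ω / 2 := mul_one _
  have hexp : Real.exp (-(2 * h x)) ≤ (Qf h h' x) ^ 2 := by
    have h1 := H.pos x hx0
    unfold Qf
    have h2 : Real.exp (-(2 * h x)) = Real.exp (-(h x)) ^ 2 := by
      rw [← Real.exp_nat_mul]
      congr 1
      push_cast
      ring
    rw [h2, div_pow]
    rw [le_div_iff₀ (by positivity)]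
    have h3 : h' x ^ 2 ≤ 1 := pow_le_one₀ h1.le hd1
    have h4 : 0 ≤ Real.exp (-(h x)) ^ 2 := by positivity
    calc Real.exp (-(h x)) ^ 2 * h' x ^ 2 ≤ Real.exp (-(h x)) ^ 2 * 1 :=
          mul_le_mul_of_nonneg_left h3 h4
      _ = _ := mul_one _
  have hfin : 16 * x ^ (40 : ℕ) * r ≤ x ^ (-K) * Real.exp (-(RR h β θ0 x)) +
      ω / 2 * (Qf h h' x) ^ 2 := by
    rw [hr]
    have e1 : 16 * x ^ (40 : ℕ) * (x ^ (-(|K| + 45)) * (Real.exp (-(RR h β θ0 x)) +
        Real.exp (-(2 * h x)))) = (16 * x ^ (40 : ℕ) * x ^ (-(|K| + 45))) *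
        Real.exp (-(RR h β θ0 x)) + (16 * x ^ (40 : ℕ) * x ^ (-(|K| + 45))) *
        Real.exp (-(2 * h x)) := by ring
    rw [e1]
    refine add_le_add ?_ ?_
    · exact mul_le_mul_of_nonneg_right (hpow.trans (min_le_left _ _)) (Real.exp_pos _).le
    · exact mul_le_mul (hpow.trans (min_le_right _ _)) hexp (Real.exp_pos _).le (by positivity)
  calc 16 * x ^ (40 : ℕ) * r + (K2 μ ν + ω / 2) * (Qf h h' x) ^ 2 ≤
      x ^ (-K) * Real.exp (-(RR h β θ0 x)) + ω / 2 * (Qf h h' x) ^ 2 +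
        (K2 μ ν + ω / 2) * (Qf h h' x) ^ 2 := add_le_add hfin le_rfl
    _ = x ^ (-K) * Real.exp (-(RR h β θ0 x)) + (K2 μ ν + ω) * (Qf h h' x) ^ 2 := by ring

end Pool.Agent.Lib.MP_04add8_pr.Cv
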