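import Mathlib
import Pool.Agent.Lib.MP_04add8_pr.Cv.PathDefs
import Pool.Agent.Lib.MP_04add8_pr.One.Union

open MeasureTheory ProbabilityTheory Filter Topology
open scoped ENNReal

set_option linter.unusedSectionVars false

namespace Pool.Agent.Lib.MP_04add8_pr.Cv

open Pool.Agent.Lib.MP_04add8_pr.Gen

variable {h h' : ℝ → ℝ} {μ ν : Measure ℝ} [IsProbabilityMeasure μ]
  [IsProbabilityMeasure ν]

/-- only small jobs -/
def Csm (x v B : ℝ) (n : ℕ) : Set ((ℝ × ℝ) × (ℕ → ℝ × ℝ)) :=
  {q | q.1.2 ≤ v ∧ q.2 ∈ allLe B n ∧ x < (pIter q.1 q.2 n).1}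

/-- `k` small jobs, one nonsmall job, `m` small jobs, start in `(v/2, v]` -/
def Clate (x v B : ℝ) (k m : ℕ) : Set ((ℝ × ℝ) × (ℕ → ℝ × ℝ)) :=
  {q | v / 2 < q.1.2 ∧ q.1.2 ≤ v ∧ q.2 ∈ allLe B k ∧ pathShift k q ∈ oneBig x B B m}

theorem measurableSet_Csm (x v B : ℝ) (n : ℕ) : MeasurableSet (Csm x v B n) := by
  refine (measurableSet_le (measurable_snd.comp measurable_fst) measurable_const).inter
    ((measurable_snd (measurableSet_allLe B n)).inter ?_)
  exact measurableSet_lt measurable_const (measurable_fst.comp (measurable_pIter n))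

theorem measurableSet_Clate (x v B : ℝ) (k m : ℕ) : MeasurableSet (Clate x v B k m) := by
  refine (measurableSet_lt measurable_const (measurable_snd.comp measurable_fst)).inter
    ((measurableSet_le (measurable_snd.comp measurable_fst) measurable_const).inter
    ((measurable_snd (measurableSet_allLe B k)).inter ?_))
  exact (measurable_pathShift k) (measurableSet_oneBig x B B m)

theorem Cone_cover {x v B Y : ℝ} (hv : 0 ≤ v) (hB : B ≤ v / 2) {n : ℕ} (hn : 1 ≤ n) :
    Cone x v B Y n ⊆ (oneBig x B B (n - 1) ∩ {q | q.1.2 ≤ v}) ∪ Csm x v B n ∪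
      ⋃ k ∈ Finset.range n, Clate x v B k (n - k - 1) := by
  rintro q ⟨⟨⟨hq0, hq1, hq2⟩, hqv, hqk, hqx⟩, hone⟩
  by_cases hall : ∀ i < n, (q.2 i).1 ≤ B
  · exact Or.inl (Or.inr ⟨hqv, hall, hqx⟩)
  · push Not at hall
    obtain ⟨i, hi, hBi⟩ := hall
    have hother : ∀ j < n, j ≠ i → (q.2 j).1 ≤ B := by
      intro j hj hji
      by_contra hc
      push Not at hc
      exact hji (hone j hj i hi hc hBi)
    rcases Nat.eq_zero_or_pos i with rfl | hi0
    · refine Or.inl (Or.inl ⟨⟨hBi, fun j hj => hother (j + 1) (by omega) (by omega), ?_⟩, hqv⟩)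
      rw [Nat.sub_add_cancel hn]
      exact hqx
    · refine Or.inr ?_
      rw [Set.mem_iUnion₂]
      refine ⟨i, Finset.mem_range.2 hi, ?_, hqv, fun j hj => hother j (by omega) (by omega), ?_⟩
      · by_contra hc
        push Not at hc
        have h1 := (hqk 0 (by omega)).1
        rw [pIter_succ, pIter_zero] at h1
        have h2 : (kwStep q.1 (q.2 0).1 (q.2 0).2).2 =
          max (max (q.1.1 + (q.2 0).1 - (q.2 0).2) 0) (max (q.1.2 - (q.2 0).2) 0) := rfl
        rw [h2] at h1
        have h3 := hother 0 (by omega) (by omega)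
        have h4 := (hq2 0).2
        have h5 : max (max (q.1.1 + (q.2 0).1 - (q.2 0).2) 0) (max (q.1.2 - (q.2 0).2) 0) ≤ v :=
          max_le (max_le (by linarith) hv) (max_le (by linarith) hv)
        linarith
      · have h1 : q ∈ pathShift i ⁻¹' oneBig x B B (n - i - 1) := by
          rw [Union_mem]
          refine ⟨hBi, fun j hj => hother _ (by omega) (by omega), ?_⟩
          have h2 : i + (n - i - 1 + 1) = n := by omega
          rw [h2]
          exact hqx
        exact h1

theorem Cone_sum (P : Measure ((ℝ × ℝ) × (ℕ → ℝ × ℝ))) {x v B Y : ℝ} (hv : 0 ≤ v)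
    (hB : B ≤ v / 2) (N : ℕ) :
    ∑ n ∈ Finset.Icc 1 N, P (Cone x v B Y n) ≤
      ∑ n ∈ Finset.range N, P (oneBig x B B n ∩ {q | q.1.2 ≤ v}) +
      ∑ n ∈ Finset.range N, P (Csm x v B (n + 1)) +
      ∑ k ∈ Finset.range N, ∑ m ∈ Finset.range N, P (Clate x v B k m) := by
  have hN : Finset.Icc 1 N = (Finset.range N).image (fun n => n + 1) := by
    ext n
    simp only [Finset.mem_Icc, Finset.mem_image, Finset.mem_range]
    constructor
    · rintro ⟨h1, h2⟩
      exact ⟨n - 1, by omega, by omega⟩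
    · rintro ⟨m, h1, rfl⟩
      omega
  rw [hN, Finset.sum_image (fun a _ b _ hab => by simpa using hab)]
  have h1 : ∀ n ∈ Finset.range N, P (Cone x v B Y (n + 1)) ≤
      P (oneBig x B B n ∩ {q | q.1.2 ≤ v}) + P (Csm x v B (n + 1)) +
        ∑ k ∈ Finset.range N, if k ≤ n then P (Clate x v B k (n - k)) else 0 := by
    intro n hn
    have hn' := Finset.mem_range.1 hn
    refine (measure_mono (Cone_cover hv hB (Nat.le_add_left 1 n))).trans ?_
    refine (measure_union_le _ _).trans (add_le_add ?_ ?_)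
    · refine (measure_union_le _ _).trans ?_
      rw [Nat.add_sub_cancel]
    · refine (measure_biUnion_finset_le _ _).trans ?_
      rw [← Finset.sum_filter]
      have h2 : (Finset.range N).filter (fun k => k ≤ n) = Finset.range (n + 1) := by
        ext k
        simp only [Finset.mem_filter, Finset.mem_range]
        omega
      rw [h2]
      apply Finset.sum_le_sum
      intro k hk
      have hk' := Finset.mem_range.1 hk
      have h3 : n + 1 - k - 1 = n - k := by omega
      rw [h3]
  refine (Finset.sum_le_sum h1).trans ?_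
  rw [Finset.sum_add_distrib, Finset.sum_add_distrib]
  refine add_le_add le_rfl ?_
  rw [Finset.sum_comm]
  apply Finset.sum_le_sum
  intro k hk
  rw [← Finset.sum_filter]
  have h2 : ∑ n ∈ (Finset.range N).filter (fun n => k ≤ n), P (Clate x v B k (n - k)) =
      ∑ m ∈ ((Finset.range N).filter (fun n => k ≤ n)).image (fun n => n - k),
        P (Clate x v B k m) := by
    rw [Finset.sum_image]
    intro a ha b hb hab
    have ha' := (Finset.mem_filter.1 (Finset.mem_coe.1 ha)).2
    have hb' := (Finset.mem_filter.1 (Finset.mem_coe.1 hb)).2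
    simp only at hab
    omega
  rw [h2]
  apply Finset.sum_le_sum_of_subset
  intro m hm
  obtain ⟨n, hn, rfl⟩ := Finset.mem_image.1 hm
  have := (Finset.mem_filter.1 hn)
  have h3 := Finset.mem_range.1 this.1
  rw [Finset.mem_range]
  omega

/-- the Markov property at time `k` -/
theorem Clate_cat (x B : ℝ) (w : ℝ × ℝ) (k m : ℕ) :
    (noise μ ν) {z | z ∈ allLe B k ∧ pathShift k (w, z) ∈ oneBig x B B m} =
      ∫⁻ z, (allLe B k).indicator (fun z => (noise μ ν)
        {z' | (pIter w z k, z') ∈ oneBig x B B m}) z ∂(noise μ ν) := by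
  have hset : MeasurableSet {z : ℕ → ℝ × ℝ | z ∈ allLe B k ∧
      pathShift k (w, z) ∈ oneBig x B B m} := by
    refine (measurableSet_allLe B k).inter ?_
    exact ((measurable_pathShift k).comp (measurable_const.prodMk measurable_id))
      (measurableSet_oneBig x B B m)
  rw [← lintegral_indicator_one hset, lintegral_noise_cat k (measurable_one.indicator hset)]
  apply lintegral_congr
  intro z
  have hmem : ∀ z' : ℕ → ℝ × ℝ, cat k z z' ∈ {z : ℕ → ℝ × ℝ | z ∈ allLe B k ∧
      pathShift k (w, z) ∈ oneBig x B B m} ↔ z ∈ allLe B k ∧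
        (pIter w z k, z') ∈ oneBig x B B m := by
    intro z'
    have h1 : cat k z z' ∈ allLe B k ↔ z ∈ allLe B k := by
      constructor
      · intro h2 i hi
        have := h2 i hi
        rwa [cat_lt z z' hi] at this
      · intro h2 i hi
        rw [cat_lt z z' hi]
        exact h2 i hi
    have h2 : pathShift k (w, cat k z z') = (pIter w z k, z') := by
      unfold pathShift
      refine Prod.ext ?_ ?_
      · exact pIter_congr w (fun i hi => cat_lt z z' hi)
      · funext i
        exact cat_add k i z z'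
    change cat k z z' ∈ allLe B k ∧ pathShift k (w, cat k z z') ∈ oneBig x B B m ↔ _
    rw [h1, h2]
  by_cases hz : z ∈ allLe B k
  · rw [Set.indicator_of_mem hz]
    have hset2 : MeasurableSet {z' : ℕ → ℝ × ℝ | (pIter w z k, z') ∈ oneBig x B B m} :=
      (measurable_const.prodMk measurable_id) (measurableSet_oneBig x B B m)
    rw [← lintegral_indicator_one hset2]
    apply lintegral_congr
    intro z'
    by_cases hz' : (pIter w z k, z') ∈ oneBig x B B m
    · rw [Set.indicator_of_mem ((hmem z').2 ⟨hz, hz'⟩),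
        Set.indicator_of_mem (show z' ∈ {z' | (pIter w z k, z') ∈ oneBig x B B m} from hz')]
      rfl
    · rw [Set.indicator_of_notMem (fun hc => hz' ((hmem z').1 hc).2),
        Set.indicator_of_notMem (show z' ∉ {z' | (pIter w z k, z') ∈ oneBig x B B m} from hz')]
  · rw [Set.indicator_of_notMem hz]
    have h0 : ∀ z' : ℕ → ℝ × ℝ, ({z : ℕ → ℝ × ℝ | z ∈ allLe B k ∧
        pathShift k (w, z) ∈ oneBig x B B m}).indicator (1 : (ℕ → ℝ × ℝ) → ℝ≥0∞) (cat k z z') =
        0 := fun z' => Set.indicator_of_notMem (fun hc => hz ((hmem z').1 hc).1) _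
    simp only [h0, lintegral_zero]

/-- sum over `m` for a fixed start -/
theorem Clate_w {x B b R θ T c1 c2 e1 e2 : ℝ} (hc1 : 0 ≤ c1) (hc2 : 0 ≤ c2) {k N : ℕ}
    {w : ℝ × ℝ} (hw0 : 0 ≤ w.1) (hw1 : w.1 ≤ w.2)
    (hp : ∀ y : ℝ × ℝ, 0 ≤ y.1 → y.1 ≤ y.2 →
      ∑ m ∈ Finset.range N, (noise μ ν) {z' | (y, z') ∈ oneBig x B B m} ≤
        ENNReal.ofReal (c1 * Real.exp (θ * bigA b R y)) +
          ENNReal.ofReal (c2 * Real.exp (T * bigA b R y)))
    (hm1 : ∫⁻ z, (allLe B k).indicator
          (fun z => ENNReal.ofReal (Real.exp (θ * bigA b R (pIter w z k)))) z ∂(noise μ ν) ≤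
          ENNReal.ofReal e1)
    (hm2 : ∫⁻ z, (allLe B k).indicator
          (fun z => ENNReal.ofReal (Real.exp (T * bigA b R (pIter w z k)))) z ∂(noise μ ν) ≤
          ENNReal.ofReal e2) :
    ∑ m ∈ Finset.range N, (noise μ ν) {z | z ∈ allLe B k ∧
        pathShift k (w, z) ∈ oneBig x B B m} ≤
      ENNReal.ofReal (c1 * e1) + ENNReal.ofReal (c2 * e2) := by
  have hmp : Measurable (fun z : ℕ → ℝ × ℝ => pIter w z k) :=
    (measurable_pIter k).comp (measurable_const.prodMk measurable_id)
  have hmb : Measurable (fun z : ℕ → ℝ × ℝ => bigA b R (pIter w z k)) := by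
    unfold bigA
    have h1 : Measurable (fun z : ℕ → ℝ × ℝ => (pIter w z k).1) := measurable_fst.comp hmp
    have h2 : Measurable (fun z : ℕ → ℝ × ℝ => (pIter w z k).2) := measurable_snd.comp hmp
    exact h2.add (((h1.pow_const 2).add_const _).sqrt.div_const _)
  have hme : ∀ t : ℝ, Measurable (fun z : ℕ → ℝ × ℝ =>
      ENNReal.ofReal (Real.exp (t * bigA b R (pIter w z k)))) := fun t =>
    (Real.measurable_exp.comp (hmb.const_mul t)).ennreal_ofReal
  have hmF : ∀ m : ℕ, Measurable (fun z : ℕ → ℝ × ℝ => (allLe B k).indicator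
      (fun z => (noise μ ν) {z' | (pIter w z k, z') ∈ oneBig x B B m}) z) := by
    intro m
    refine Measurable.indicator ?_ (measurableSet_allLe B k)
    have h1 : Measurable (fun y : ℝ × ℝ => (noise μ ν) (Prod.mk y ⁻¹' oneBig x B B m)) :=
      measurable_measure_prodMk_left (measurableSet_oneBig x B B m)
    exact h1.comp hmp
  calc ∑ m ∈ Finset.range N, (noise μ ν) {z | z ∈ allLe B k ∧
        pathShift k (w, z) ∈ oneBig x B B m}
      = ∑ m ∈ Finset.range N, ∫⁻ z, (allLe B k).indicator (fun z => (noise μ ν)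
        {z' | (pIter w z k, z') ∈ oneBig x B B m}) z ∂(noise μ ν) :=
        Finset.sum_congr rfl fun m _ => Clate_cat x B w k m
    _ = ∫⁻ z, ∑ m ∈ Finset.range N, (allLe B k).indicator (fun z => (noise μ ν)
        {z' | (pIter w z k, z') ∈ oneBig x B B m}) z ∂(noise μ ν) :=
        (lintegral_finsetSum' _ fun m _ => (hmF m).aemeasurable).symm
    _ ≤ ∫⁻ z, (ENNReal.ofReal c1 * (allLe B k).indicator
          (fun z => ENNReal.ofReal (Real.exp (θ * bigA b R (pIter w z k)))) z +
          ENNReal.ofReal c2 * (allLe B k).indicator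
          (fun z => ENNReal.ofReal (Real.exp (T * bigA b R (pIter w z k)))) z)
          ∂(noise μ ν) := by
        apply lintegral_mono
        intro z
        by_cases hz : z ∈ allLe B k
        · simp only [Set.indicator_of_mem hz]
          have hord := pIter_ordered hw0 hw1 z k
          refine (hp (pIter w z k) hord.1 hord.2).trans (le_of_eq ?_)
          rw [ENNReal.ofReal_mul hc1, ENNReal.ofReal_mul hc2]
        · simp only [Set.indicator_of_notMem hz, Finset.sum_const_zero]
          exact zero_le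
    _ = ENNReal.ofReal c1 * ∫⁻ z, (allLe B k).indicator
          (fun z => ENNReal.ofReal (Real.exp (θ * bigA b R (pIter w z k)))) z ∂(noise μ ν) +
        ENNReal.ofReal c2 * ∫⁻ z, (allLe B k).indicator
          (fun z => ENNReal.ofReal (Real.exp (T * bigA b R (pIter w z k)))) z ∂(noise μ ν) := by
        rw [lintegral_add_left (((hme θ).indicator (measurableSet_allLe B k)).const_mul _),
          lintegral_const_mul _ ((hme θ).indicator (measurableSet_allLe B k)),
          lintegral_const_mul _ ((hme T).indicator (measurableSet_allLe B k))]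
    _ ≤ ENNReal.ofReal c1 * ENNReal.ofReal e1 + ENNReal.ofReal c2 * ENNReal.ofReal e2 := by
        gcongr
    _ = ENNReal.ofReal (c1 * e1) + ENNReal.ofReal (c2 * e2) := by
        rw [ENNReal.ofReal_mul hc1, ENNReal.ofReal_mul hc2]

/-- sum over `m` under the stationary law -/
theorem Clate_pi {x v B κ c T1 : ℝ} (hc : 0 ≤ c) (hT1 : 0 ≤ T1) {k N : ℕ}
    {π : Measure (ℝ × ℝ)} (hπ : IsStationaryKW μ ν π) (hκ : 0 ≤ κ)
    (hw : ∀ w : ℝ × ℝ, 0 ≤ w.1 → w.1 ≤ w.2 → v / 2 < w.2 → w.2 ≤ v →
      ∑ m ∈ Finset.range N, (noise μ ν) {z | z ∈ allLe B k ∧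
        pathShift k (w, z) ∈ oneBig x B B m} ≤
      ENNReal.ofReal (c * Real.exp (h w.2 / 4)) + ENNReal.ofReal T1)
    (hmid : ∫⁻ w, ({w : ℝ × ℝ | v / 2 ≤ w.2 ∧ w.2 ≤ v}).indicator
        (fun w => ENNReal.ofReal (Real.exp (h w.2 / 4))) w ∂π ≤ ENNReal.ofReal κ) :
    ∑ m ∈ Finset.range N, (π.prod (noise μ ν)) (Clate x v B k m) ≤
      ENNReal.ofReal (c * κ + T1) := by
  have hp := hπ.1
  calc ∑ m ∈ Finset.range N, (π.prod (noise μ ν)) (Clate x v B k m)
      = ∑ m ∈ Finset.range N, ∫⁻ w, (noise μ ν) (Prod.mk w ⁻¹' Clate x v B k m) ∂π :=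
        Finset.sum_congr rfl fun m _ => Measure.prod_apply (measurableSet_Clate x v B k m)
    _ = ∫⁻ w, ∑ m ∈ Finset.range N, (noise μ ν) (Prod.mk w ⁻¹' Clate x v B k m) ∂π :=
        (lintegral_finsetSum' _ fun m _ =>
          (measurable_measure_prodMk_left (measurableSet_Clate x v B k m)).aemeasurable).symm
    _ ≤ ∫⁻ w, (ENNReal.ofReal c * ({w : ℝ × ℝ | v / 2 ≤ w.2 ∧ w.2 ≤ v}).indicator
        (fun w => ENNReal.ofReal (Real.exp (h w.2 / 4))) w + ENNReal.ofReal T1) ∂π := by
        apply lintegral_mono_ae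
        filter_upwards [hπ.ae_ordered] with w hord
        by_cases hwv : v / 2 < w.2 ∧ w.2 ≤ v
        · rw [Set.indicator_of_mem (show w ∈ {w : ℝ × ℝ | v / 2 ≤ w.2 ∧ w.2 ≤ v} from
            ⟨hwv.1.le, hwv.2⟩), ← ENNReal.ofReal_mul hc]
          refine le_trans (Finset.sum_le_sum fun m _ => measure_mono ?_)
            (hw w hord.1 hord.2 hwv.1 hwv.2)
          intro z hz
          exact ⟨hz.2.2.1, hz.2.2.2⟩
        · have h1 : ∀ m ∈ Finset.range N, (noise μ ν) (Prod.mk w ⁻¹' Clate x v B k m) = 0 := by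
            intro m _
            have : Prod.mk w ⁻¹' Clate x v B k m = ∅ := by
              ext z
              simp only [Set.mem_preimage, Set.mem_empty_iff_false, iff_false]
              intro hz
              exact hwv ⟨hz.1, hz.2.1⟩
            rw [this, measure_empty]
          rw [Finset.sum_eq_zero h1]
          exact zero_le
    _ = ENNReal.ofReal c * ∫⁻ w, ({w : ℝ × ℝ | v / 2 ≤ w.2 ∧ w.2 ≤ v}).indicator
        (fun w => ENNReal.ofReal (Real.exp (h w.2 / 4))) w ∂π + ENNReal.ofReal T1 := by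
        rw [lintegral_add_right _ measurable_const, lintegral_const, measure_univ, mul_one,
          lintegral_const_mul' _ _ ENNReal.ofReal_ne_top]
    _ ≤ ENNReal.ofReal c * ENNReal.ofReal κ + ENNReal.ofReal T1 := by gcongr
    _ = ENNReal.ofReal (c * κ + T1) := by
        rw [← ENNReal.ofReal_mul hc, ← ENNReal.ofReal_add (by positivity) hT1]

end Pool.Agent.Lib.MP_04add8_pr.Cv
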