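import Mathlib
import Pool.Agent.Lib.MP_04add8_pr.Cv.Base

open MeasureTheory ProbabilityTheory Filter Topology
open scoped ENNReal

set_option linter.unusedSectionVars false

namespace Pool.Agent.Lib.MP_04add8_pr.Cv

open Pool.Agent.Lib.MP_04add8_pr.Gen

variable {h h' : ℝ → ℝ}

/-! Original: `Drift.lean`. The geometric lemmas on `bigA`, `kwStep`, square roots are reused
(`bigA_pos`, `bigA_mono`, `sqrt_add_le`, `sqrt_taylor`, `kwStep_eq`); `incr` is the same. -/

lemma gcost_mono (H : HazC h h') {b R : ℝ} (hb : 0 < b) {u w : ℝ × ℝ}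
    (h0 : 0 ≤ u.1) (h1 : u.1 ≤ w.1) (h2 : u.2 ≤ w.2) :
    gcost h b R u ≤ gcost h b R w := by
  unfold gcost
  have hA := H.mono (bigA_mono (R := R) hb h0 h1 h2)
  have e1 := H.mono h1
  have e2 := H.mono h2
  exact min_le_min hA (by linarith)

lemma gcost_measurable (H : HazC h h') (b R : ℝ) : Measurable (gcost h b R) := by
  have hc := H.cont
  have h1 : Continuous (gcost h b R) := by
    unfold gcost bigA
    fun_prop
  exact h1.measurable

lemma snd_le_gcost (H : HazC h h') {b R : ℝ} (hb : 0 < b) (w : ℝ × ℝ) :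
    h w.2 ≤ gcost h b R w := by
  unfold gcost
  refine le_min (H.mono ?_) ?_
  · unfold bigA
    have : 0 ≤ √(w.1 ^ 2 + R ^ 2) / b := by positivity
    linarith
  · have := H.nonneg w.1
    linarith

lemma gcost_sorted_le_two {b R : ℝ} (u v : ℝ) :
    gcost h b R (min u v, max u v) ≤ h u + h v + 1 := by
  unfold gcost
  refine (min_le_right _ _).trans ?_
  rcases le_total u v with h | h
  · simp [min_eq_left h, max_eq_right h]
  · simp [min_eq_right h, max_eq_left h]; linarith

lemma gcost_sorted_le_one (H : HazC h h') {b R u v : ℝ} (hb : 0 < b) (hb1 : b < 1) (hR : 0 < R)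
    (hu : 0 ≤ u) (hv : 0 ≤ v) (hcond : b ^ 2 * (v ^ 2 + R ^ 2) ≤ v ^ 2) :
    gcost h b R (min u v, max u v) ≤ h (v + √(u ^ 2 + R ^ 2) / b) := by
  unfold gcost
  refine (min_le_left _ _).trans (H.mono ?_)
  rcases le_total u v with h | h
  · simp [min_eq_left h, max_eq_right h, bigA]
  · simp only [min_eq_right h, max_eq_left h, bigA]
    set p := √(u ^ 2 + R ^ 2) with hp
    set q := √(v ^ 2 + R ^ 2) with hq
    have hp0 : 0 < p := Real.sqrt_pos.mpr (by positivity)
    have hq0 : 0 < q := Real.sqrt_pos.mpr (by positivity)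
    have hp2 : p ^ 2 = u ^ 2 + R ^ 2 := Real.sq_sqrt (by positivity)
    have hq2 : q ^ 2 = v ^ 2 + R ^ 2 := Real.sq_sqrt (by positivity)
    have hbq : b * q ≤ v := by
      apply abs_le_of_sq_le_sq' _ hv |>.2
      rw [mul_pow, hq2]; exact hcond
    have hcond' : b ^ 2 * (u ^ 2 + R ^ 2) ≤ u ^ 2 := by
      have : v ^ 2 ≤ u ^ 2 := by gcongr
      have hb2 : b ^ 2 < 1 := by nlinarith
      nlinarith
    have hbp : b * p ≤ u := by
      apply abs_le_of_sq_le_sq' _ hu |>.2
      rw [mul_pow, hp2]; exact hcond'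
    have hpq : (p - q) * (p + q) = (u - v) * (u + v) := by nlinarith
    have hge : b * (u - v) ≤ p - q := by
      have h1 : (b * (u - v)) * (p + q) ≤ (p - q) * (p + q) := by
        rw [hpq]
        have : b * (p + q) ≤ u + v := by linarith
        have h3 : 0 ≤ u - v := by linarith
        nlinarith
      exact le_of_mul_le_mul_right h1 (by positivity)
    have h5 : u + q / b ≤ v + p / b := by
      have : (u - v) ≤ (p - q) / b := by
        rw [le_div_iff₀ hb]; linarith
      have h6 : (p - q) / b = p / b - q / b := by ring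
      linarith
    exact h5

lemma gcost_kwStep_le (H : HazC h h') {b R : ℝ} (hb : 0 < b) (w : ℝ × ℝ)
    (s : ℝ) {t T : ℝ} (hT : T ≤ t) :
    gcost h b R (kwStep w s t) ≤
      gcost h b R (min (max (w.1 + s - T) 0) (max (w.2 - T) 0),
        max (max (w.1 + s - T) 0) (max (w.2 - T) 0)) := by
  rw [kwStep_eq]
  have h1 : max (w.1 + s - t) 0 ≤ max (w.1 + s - T) 0 := by gcongr
  have h2 : max (w.2 - t) 0 ≤ max (w.2 - T) 0 := by gcongr
  apply gcost_mono H hb
  · exact le_min (le_max_right _ _) (le_max_right _ _)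
  · exact min_le_min h1 h2
  · exact max_le_max h1 h2

/-- **Subadditivity of the cost**. Original: `cost_kwStep_le_add`. One-job regime
`gcost w = h A`: the case distinction `s^(1-a) ≤ b A^(1-a)` is replaced by
`h' A ≤ b h' s` (small job, or `s = 0`): `h (A + s/b) ≤ h A + h' A s / b ≤ h A + s h' s ≤ h A + h s`
(`HazC.mul_deriv_le`); large job (`b h' s < h' A`, `0 < s`): `h (w.1 + s) ≤ h s + h' s w.1`,
`h w.2 ≤ h A + h' A (w.2 - A)`, `w.1 / b ≤ A - w.2`. Two-jobs regime: `HazC.add_le`. -/
lemma gcost_kwStep_le_add (H : HazC h h') {b R M : ℝ} (hb : 0 < b) (hb1 : b < 1)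
    (hR : 0 < R) (hM : 0 ≤ M) {w : ℝ × ℝ} (h1 : 0 ≤ w.1)
    (hwM : M ≤ w.2) (hcond : b ^ 2 * ((w.2 - M) ^ 2 + R ^ 2) ≤ (w.2 - M) ^ 2)
    {s t : ℝ} (hs : 0 ≤ s) (ht : 0 ≤ t) :
    gcost h b R (kwStep w s t) ≤ gcost h b R w + h s + 1 := by
  have hw2 : 0 ≤ w.2 := hM.trans hwM
  set T := min t M with hT
  have hT0 : 0 ≤ T := le_min ht hM
  have hTM : T ≤ M := min_le_right _ _
  have hstep := gcost_kwStep_le (R := R) H hb w s (min_le_left t M)
  rw [← hT] at hstep
  set u := max (w.1 + s - T) 0 with hu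
  set v := max (w.2 - T) 0 with hv
  have hu0 : 0 ≤ u := le_max_right _ _
  have hv0 : 0 ≤ v := le_max_right _ _
  have hu1 : u ≤ w.1 + s := max_le (by linarith) (by linarith)
  have hv1 : v ≤ w.2 := max_le (by linarith) hw2
  have hveq : v = w.2 - T := max_eq_left (by linarith)
  have htwo : gcost h b R (kwStep w s t) ≤ h (w.1 + s) + h w.2 + 1 := by
    refine hstep.trans ((gcost_sorted_le_two u v).trans ?_)
    have e1 := H.mono hu1
    have e2 := H.mono hv1
    linarith
  -- condition for `v`
  have hvcond : b ^ 2 * (v ^ 2 + R ^ 2) ≤ v ^ 2 := by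
    have h3 : (w.2 - M) ≤ v := by rw [hveq]; linarith
    have h4 : (w.2 - M) ^ 2 ≤ v ^ 2 := pow_le_pow_left₀ (by linarith) h3 2
    have hb2 : b ^ 2 < 1 := by nlinarith
    nlinarith
  have hsa : 0 ≤ h s := H.nonneg s
  rcases le_total (h (bigA b R w)) (h w.1 + h w.2 + 1) with hc | hc
  · have hcost : gcost h b R w = h (bigA b R w) := min_eq_left hc
    set A := bigA b R w with hA
    have hA0 : 0 < A := bigA_pos hb hR hw2
    rw [hcost]
    have hone : gcost h b R (kwStep w s t) ≤ h (A + s / b) := by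
      refine hstep.trans ((gcost_sorted_le_one H hb hb1 hR hu0 hv0 hvcond).trans (H.mono ?_))
      have h5 : √(u ^ 2 + R ^ 2) ≤ √(w.1 ^ 2 + R ^ 2) + s := by
        refine le_trans ?_ (sqrt_add_le hs)
        gcongr
      rw [hA, bigA]
      have : √(u ^ 2 + R ^ 2) / b ≤ (√(w.1 ^ 2 + R ^ 2) + s) / b := by gcongr
      rw [add_div] at this
      linarith
    rcases hs.eq_or_lt with h0 | hs0
    · have hz : s / b = 0 := by rw [← h0, zero_div]
      rw [hz, add_zero] at hone
      linarith
    rcases le_total (h' A) (b * h' s) with hcase | hcase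
    · -- small job: one-job cost
      have htan := H.tangent hA0 (y := s / b)
        (by have : 0 ≤ s / b := by positivity
            linarith)
      have h7 : h' A * (s / b) ≤ s * h' s := by
        have h8 : h' A * (s / b) ≤ (b * h' s) * (s / b) := by gcongr
        have h9 : (b * h' s) * (s / b) = s * h' s := by field_simp
        linarith
      have h10 := H.mul_deriv_le hs0
      linarith
    · -- large job: two-jobs cost
      have htan1 := H.tangent hs0 (y := w.1) (by linarith)
      have hdiff : w.1 / b ≤ A - w.2 := by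
        rw [hA, bigA]
        have : w.1 ≤ √(w.1 ^ 2 + R ^ 2) := by
          apply Real.le_sqrt_of_sq_le; nlinarith [sq_nonneg R]
        have h11 : w.1 / b ≤ √(w.1 ^ 2 + R ^ 2) / b := by gcongr
        linarith
      have htan2 := H.tangent hA0 (y := w.2 - A) (by linarith)
      have e3 : A + (w.2 - A) = w.2 := by ring
      rw [e3] at htan2
      have h10 : 0 < h' A := H.pos A hA0
      have h9 : h' s ≤ h' A / b := by
        rw [le_div_iff₀ hb]
        linarith
      have h12 : h' s * w.1 ≤ (h' A / b) * w.1 := by gcongr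
      have h13 : h' A * (w.1 / b) ≤ h' A * (A - w.2) := by gcongr
      have h14 : (h' A / b) * w.1 = h' A * (w.1 / b) := by ring
      have e4 : w.1 + s = s + w.1 := by ring
      rw [e4] at htwo
      linarith
  · have hcost : gcost h b R w = h w.1 + h w.2 + 1 := min_eq_right hc
    rw [hcost]
    have := H.add_le h1 hs
    linarith

end Pool.Agent.Lib.MP_04add8_pr.Cv
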