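import Mathlib
import Pool.Agent.Lib.MP_04add8_pr.Cv.Drift
import Pool.Agent.Lib.MP_04add8_pr.Cv.LawM
import Pool.Agent.Lib.MP_04add8_pr.Upper
import Pool.Agent.Lib.MP_04add8_pr.Cv.DriftIA

open MeasureTheory ProbabilityTheory Filter Topology
open scoped ENNReal

set_option linter.unusedSectionVars false

namespace Pool.Agent.Lib.MP_04add8_pr.Cv

open Pool.Agent.Lib.MP_04add8_pr.Gen

variable {h h' : ℝ → ℝ} {μ ν : Measure ℝ} [IsProbabilityMeasure μ]
  [IsProbabilityMeasure ν]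

/-! Original: `DriftInt.lean`. -/

lemma gintegral_incr (H : HazC h h') (L : Law μ h)
    (hν : ν (Set.Iio 0) = 0) {M : ℝ} (hM : 0 ≤ M) (b R q : ℝ) :
    Integrable (fun p : ℝ × ℝ => incr b R M q p.1 p.2) (μ.prod ν) ∧
    ∫ p, incr b R M q p.1 p.2 ∂(μ.prod ν) =
      -(∫ t, min t M ∂ν) + q / b * ((∫ s, s ∂μ) - ∫ t, min t M ∂ν) +
        ((∫ s, s ^ 2 ∂μ) + M ^ 2) / (2 * b * R) := by
  have h1 : Integrable (fun s : ℝ => s) μ := by
    simpa using law_integrable_pow H L 1
  have h2 := law_integrable_pow H L 2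
  have h3 := min_integrable (M := M) hν hM
  have i1 : Integrable (fun p : ℝ × ℝ => p.1) (μ.prod ν) := h1.comp_fst ν
  have i2 : Integrable (fun p : ℝ × ℝ => p.1 ^ 2) (μ.prod ν) := h2.comp_fst ν
  have i3 : Integrable (fun p : ℝ × ℝ => min p.2 M) (μ.prod ν) := h3.comp_snd μ
  have e : (fun p : ℝ × ℝ => incr b R M q p.1 p.2) = fun p : ℝ × ℝ =>
      (-(1 + q / b)) * min p.2 M + q / b * p.1 + 1 / (2 * b * R) * p.1 ^ 2 +
        M ^ 2 / (2 * b * R) := by
    funext p
    unfold incr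
    ring
  rw [e]
  have hi := (((i3.const_mul (-(1 + q / b))).add (i1.const_mul (q / b))).add
    (i2.const_mul (1 / (2 * b * R)))).add (integrable_const (μ := μ.prod ν) (M ^ 2 / (2 * b * R)))
  refine ⟨hi, ?_⟩
  rw [integral_add, integral_add, integral_add, integral_const_mul, integral_const_mul,
    integral_const_mul, integral_const]
  · have e1 : ∫ p : ℝ × ℝ, p.1 ∂(μ.prod ν) = ∫ s, s ∂μ := by
      rw [integral_prod _ i1]; simp
    have e2 : ∫ p : ℝ × ℝ, p.1 ^ 2 ∂(μ.prod ν) = ∫ s, s ^ 2 ∂μ := by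
      rw [integral_prod _ i2]; simp
    have e3 : ∫ p : ℝ × ℝ, min p.2 M ∂(μ.prod ν) = ∫ t, min t M ∂ν := by
      rw [integral_prod _ i3]; simp
    rw [e1, e2, e3]
    simp
    ring
  · exact i3.const_mul _
  · exact i1.const_mul _
  · exact (i3.const_mul _).add (i1.const_mul _)
  · exact i2.const_mul _
  · exact ((i3.const_mul _).add (i1.const_mul _)).add (i2.const_mul _)
  · exact integrable_const _

lemma glintegral_step_le (H : HazC h h') (L : Law μ h)
    (hν : ν (Set.Iio 0) = 0) {b R M lam c s₀ ε q : ℝ}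
    (hb : 0 < b) (hR : 0 < R) (hM : 0 ≤ M) (hl0 : 0 < lam) (hl1 : lam < 1)
    (hc : lam < c) (hc1 : c < 1) (hs0 : 0 ≤ s₀) (hε : 0 ≤ ε) (hq : 0 ≤ q) (hq1 : q ≤ 1)
    (hsmall : ε * domG b R M s₀ ≤ 1) {w : ℝ × ℝ}
    (hJ1 : ∀ s t : ℝ, 0 ≤ s → 0 ≤ t →
      gcost h b R (kwStep w s t) ≤ gcost h b R w + h s + 1)
    (hJ2 : ∀ s t : ℝ, 0 ≤ s → 0 ≤ t →
      gcost h b R (kwStep w s t) ≤ gcost h b R w + ε * incr b R M q s t) :
    ∫⁻ p, ENNReal.ofReal (Real.exp (lam * gcost h b R (kwStep w p.1 p.2))) ∂(μ.prod ν) ≤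
      ENNReal.ofReal (Real.exp (lam * gcost h b R w) *
        (1 + lam * ε * (∫ p : ℝ × ℝ, incr b R M q p.1 p.2 ∂(μ.prod ν)) +
          ε ^ 2 * (∫ s, domG b R M s ^ 2 ∂μ) +
          Real.exp (1 - (c - lam) * h s₀) * (∫ s, Real.exp (c * h s) ∂μ))) := by
  have hspos : ∀ᵐ p ∂(μ.prod ν), 0 ≤ p.1 ∧ 0 ≤ p.2 := law_prod_nonneg L hν
  obtain ⟨hi1, -⟩ := gintegral_incr (ν := ν) H L hν hM b R q
  have hi2 : Integrable (fun p : ℝ × ℝ => domG b R M p.1 ^ 2) (μ.prod ν) :=
    (gintegrable_domG_sq H L b R M).comp_fst ν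
  have hi3 : Integrable (fun p : ℝ × ℝ => Real.exp (c * h p.1)) (μ.prod ν) :=
    (law_integrable_exp H L hc1).comp_fst ν
  set F : ℝ × ℝ → ℝ := fun p => Real.exp (lam * gcost h b R w) *
      (1 + lam * ε * incr b R M q p.1 p.2 + (ε * domG b R M p.1) ^ 2 +
        Real.exp (1 - (c - lam) * h s₀) * Real.exp (c * h p.1)) with hF
  have hFint : Integrable F (μ.prod ν) := by
    apply Integrable.const_mul
    have e : (fun p : ℝ × ℝ => 1 + lam * ε * incr b R M q p.1 p.2 + (ε * domG b R M p.1) ^ 2 +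
        Real.exp (1 - (c - lam) * h s₀) * Real.exp (c * h p.1)) =
        fun p : ℝ × ℝ => 1 + (lam * ε) * incr b R M q p.1 p.2 + ε ^ 2 * domG b R M p.1 ^ 2 +
        Real.exp (1 - (c - lam) * h s₀) * Real.exp (c * h p.1) := by
      funext p; ring
    rw [e]
    exact (((integrable_const _).add (hi1.const_mul _)).add (hi2.const_mul _)).add
      (hi3.const_mul _)
  have hFle : ∀ᵐ p ∂(μ.prod ν),
      Real.exp (lam * gcost h b R (kwStep w p.1 p.2)) ≤ F p := by
    filter_upwards [hspos] with p hp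
    exact gpointwise_bound H hb hR hM hl0 hl1 hc hs0 hε hq hq1 hsmall hp.1 hp.2
      (hJ1 _ _ hp.1 hp.2) (hJ2 _ _ hp.1 hp.2)
  have hF0 : 0 ≤ᵐ[μ.prod ν] F := by
    filter_upwards [hFle] with p hp
    exact (Real.exp_pos _).le.trans hp
  calc ∫⁻ p, ENNReal.ofReal (Real.exp (lam * gcost h b R (kwStep w p.1 p.2))) ∂(μ.prod ν)
      ≤ ∫⁻ p, ENNReal.ofReal (F p) ∂(μ.prod ν) := by
        apply lintegral_mono_ae
        filter_upwards [hFle] with p hp
        exact ENNReal.ofReal_le_ofReal hp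
    _ = ENNReal.ofReal (∫ p, F p ∂(μ.prod ν)) := by
        rw [ofReal_integral_eq_lintegral_ofReal hFint hF0]
    _ ≤ _ := by
        apply ENNReal.ofReal_le_ofReal
        rw [hF, integral_const_mul]
        gcongr
        have e : (fun p : ℝ × ℝ => 1 + lam * ε * incr b R M q p.1 p.2 +
            (ε * domG b R M p.1) ^ 2 +
            Real.exp (1 - (c - lam) * h s₀) * Real.exp (c * h p.1)) =
            fun p : ℝ × ℝ => 1 + (lam * ε) * incr b R M q p.1 p.2 + ε ^ 2 * domG b R M p.1 ^ 2 +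
            Real.exp (1 - (c - lam) * h s₀) * Real.exp (c * h p.1) := by
          funext p; ring
        rw [e, integral_add, integral_add, integral_add, integral_const_mul, integral_const_mul,
          integral_const_mul, integral_const]
        · have e2 : ∫ p : ℝ × ℝ, domG b R M p.1 ^ 2 ∂(μ.prod ν) = ∫ s, domG b R M s ^ 2 ∂μ := by
            rw [integral_prod _ hi2]; simp
          have e3 : ∫ p : ℝ × ℝ, Real.exp (c * h p.1) ∂(μ.prod ν) =
              ∫ s, Real.exp (c * h s) ∂μ := by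
            rw [integral_prod _ hi3]; simp
          rw [e2, e3]
          simp only [probReal_univ, smul_eq_mul, one_mul]
          exact le_rfl
        · exact integrable_const _
        · exact hi1.const_mul _
        · exact (integrable_const _).add (hi1.const_mul _)
        · exact hi2.const_mul _
        · exact ((integrable_const _).add (hi1.const_mul _)).add (hi2.const_mul _)
        · exact hi3.const_mul _

end Pool.Agent.Lib.MP_04add8_pr.Cv
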