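import Mathlib
import Pool.Agent.Lib.MP_04add8_pr.Cv.RV
import Pool.Agent.Lib.MP_04add8_pr.Cv.DefsP

open MeasureTheory ProbabilityTheory Filter Topology
open scoped ENNReal

set_option linter.unusedSectionVars false

namespace Pool.Agent.Lib.MP_04add8_pr.Cv

open Pool.Agent.Lib.MP_04add8_pr.Gen

variable {h h' : ℝ → ℝ}

/-- `B x` is a level of small jobs: it tends to infinity and every tilt of order `h x / x` is
harmless for jobs of size at most `B x` -/
structure SLvl (h : ℝ → ℝ) (B : ℝ → ℝ) : Prop where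
  top : Tendsto B atTop atTop
  tilt : ∀ M : ℝ, ∀ᶠ x : ℝ in atTop, Tilt h (M * (h x / x)) (B x)

/-- small jobs are small compared with `x` -/
lemma SLvl.le {B : ℝ → ℝ} (T : SLvl h B) (H : HazC h h') {e : ℝ} (he : 0 < e) :
    ∀ᶠ x : ℝ in atTop, B x ≤ e * x := by
  filter_upwards [T.tilt (1 / e + 1), T.top.eventually_ge_atTop 0, eventually_gt_atTop 0,
    H.tendsto_h.eventually_gt_atTop 0] with x h1 h2 hx h3
  have hq : 0 < h x / x := div_pos h3 hx
  have hBx : B x ≤ x := by
    by_contra hc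
    have h4 := h1 x hx.le (not_le.1 hc).le
    have h5 : (1 / e + 1) * (h x / x) * x = (1 / e + 1) * h x := by field_simp
    rw [h5] at h4
    have h6 : 0 < 1 / e * h x := by positivity
    linarith
  have h4 := h1 (B x) h2 le_rfl
  have h5 := H.mono hBx
  have h6 : 1 / e * (h x / x) * B x ≤ h x := by
    have h7 : 0 ≤ 1 * (h x / x) * B x := by positivity
    have h8 : (1 / e + 1) * (h x / x) * B x =
        1 / e * (h x / x) * B x + 1 * (h x / x) * B x := by ring
    linarith
  have h7 : 1 / e * (h x / x) * B x = (h x / (e * x)) * B x := by field_simp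
  rw [h7, div_mul_eq_mul_div, div_le_iff₀ (by positivity)] at h6
  exact le_of_mul_le_mul_left h6 h3

/-- the form of `SLvl.tilt` used for comparisons of tilts -/
lemma SLvl.tilt_le {B : ℝ → ℝ} (T : SLvl h B) (H : HazC h h') (M : ℝ) :
    ∀ᶠ x : ℝ in atTop, ∀ θ : ℝ, θ ≤ M * (h x / x) → Tilt h θ (B x) := by
  filter_upwards [T.tilt M] with x hx θ hθ
  intro s hs hsB
  exact (mul_le_mul_of_nonneg_right hθ hs).trans (hx s hs hsB)

/-- the levels of the two-levels scheme: `h' (B x)` is much larger than `h' (v x)`, `B ≤ v`,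
`v x / x → 0` -/
theorem SLvl.of_levels (H : HazC h h') {B v : ℝ → ℝ} (hB : Tendsto B atTop atTop)
    (hBv : ∀ᶠ x : ℝ in atTop, B x ≤ v x)
    (hvx : ∀ e : ℝ, 0 < e → ∀ᶠ x : ℝ in atTop, v x ≤ e * x)
    (hr : ∀ M : ℝ, ∀ᶠ x : ℝ in atTop, M * h' (v x) ≤ h' (B x)) : SLvl h B := by
  refine ⟨hB, fun M => ?_⟩
  obtain ⟨N, hN⟩ : ∃ N : ℝ, N = |M| + 1 := ⟨_, rfl⟩
  have hN0 : 0 < N := by rw [hN]; positivity
  filter_upwards [hr (8 * N), hvx (1 / (8 * N)) (by positivity), hBv, hvx 1 one_pos,
    hB.eventually_gt_atTop 0, eventually_gt_atTop 0] with x h1 h2 h3 h4 h5 hx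
  rw [one_mul] at h4
  have hv : 0 < v x := h5.trans_le h3
  -- `N h x / x ≤ h (B x) / (4 B x)`
  have e1 : h x - h (v x) ≤ (x - v x) * h' (v x) := H.upper_deriv hv h4
  have e2 : B x * h (v x) ≤ v x * h (B x) := H.mul_le h5 h3
  have e3 : B x * h' (B x) ≤ h (B x) := H.mul_deriv_le h5
  have hp := H.pos _ hv
  have hhB : 0 ≤ h (B x) := H.nonneg _
  have key : 4 * (N * (h x * B x)) ≤ x * h (B x) := by
    have k1 : h x ≤ h (v x) + x * h' (v x) := by
      have : (x - v x) * h' (v x) ≤ x * h' (v x) :=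
        mul_le_mul_of_nonneg_right (by linarith) hp.le
      linarith
    have k2 : h x * B x ≤ v x * h (B x) + x * (h' (v x) * B x) := by
      have := mul_le_mul_of_nonneg_right k1 h5.le
      nlinarith
    have k3 : 8 * N * (h' (v x) * B x) ≤ h (B x) := by
      have := mul_le_mul_of_nonneg_right h1 h5.le
      nlinarith
    have k4 : 8 * N * v x ≤ x := by
      have := mul_le_mul_of_nonneg_left h2 (show 0 ≤ 8 * N by positivity)
      have e : 8 * N * (1 / (8 * N) * x) = x := by field_simp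
      linarith
    have k5 : 8 * N * (v x * h (B x)) ≤ x * h (B x) := by
      have := mul_le_mul_of_nonneg_right k4 hhB
      nlinarith
    have k6 : 8 * N * (x * (h' (v x) * B x)) ≤ x * h (B x) := by
      have := mul_le_mul_of_nonneg_left k3 hx.le
      nlinarith
    have k7 := mul_le_mul_of_nonneg_left k2 (show 0 ≤ 8 * N by positivity)
    nlinarith
  intro s hs hsB
  rcases hs.eq_or_lt with rfl | hs0
  · rw [mul_zero]
    have := H.nonneg 0
    linarith
  have e4 : s * h (B x) ≤ B x * h s := H.mul_le hs0 hsB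
  have hMN : M * (h x / x) * s ≤ N * (h x / x) * s := by
    have : 0 ≤ h x / x := div_nonneg (H.nonneg x) hx.le
    have h6 : M ≤ N := by rw [hN]; linarith [le_abs_self M]
    gcongr
  refine hMN.trans ?_
  have e5 : N * (h x / x) * s = N * h x * s / x := by field_simp
  rw [e5, div_le_iff₀ hx]
  have e6 : B x * (N * h x * s) ≤ B x * (h s / 4 * x) := by
    calc B x * (N * h x * s) = (4 * (N * (h x * B x))) * s / 4 := by ring
      _ ≤ (x * h (B x)) * s / 4 := by gcongr
      _ = x * (s * h (B x)) / 4 := by ring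
      _ ≤ x * (B x * h s) / 4 := by gcongr
      _ = B x * (h s / 4 * x) := by ring
  exact le_of_mul_le_mul_left e6 h5

lemma Thr.v_le {B v : ℝ → ℝ} (T : Thr h h' B v) {e : ℝ} (he : 0 < e) :
    ∀ᶠ x : ℝ in atTop, v x ≤ e * x := by
  filter_upwards [T.sq, eventually_ge_atTop (1 / e ^ 2), eventually_gt_atTop 0] with x h1 h2 hx
  refine h1.trans ?_
  rw [Real.sqrt_le_left (by positivity)]
  rw [div_le_iff₀ (by positivity)] at h2
  nlinarith

lemma Thr.top {B v : ℝ → ℝ} (H : HazC h h') (T : Thr h h' B v) : Tendsto B atTop atTop := by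
  rw [tendsto_atTop]
  intro b
  filter_upwards [T.g 1, T.pos, Real.tendsto_log_atTop.eventually_gt_atTop (h b)] with x h1 h2 h3
  by_contra hc
  push Not at hc
  have h4 := H.mono hc.le
  have h5 : 0 ≤ B x * h' (B x) := mul_nonneg h2.le (H.pos _ h2).le
  unfold gg at h1
  linarith

/-- thresholds give levels of small jobs -/
theorem Thr.slvl {B v : ℝ → ℝ} (H : HazC h h') (T : Thr h h' B v) : SLvl h B :=
  SLvl.of_levels H (T.top H) T.le (fun _ he => T.v_le he) T.r1

end Pool.Agent.Lib.MP_04add8_pr.Cv
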