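import Mathlib
import Pool.Agent.Lib.MP_04add8_pr.Cv.Lin

open MeasureTheory ProbabilityTheory Filter Topology
open scoped ENNReal

set_option linter.unusedSectionVars false

namespace Pool.Agent.Lib.MP_04add8_pr.Cv

open Pool.Agent.Lib.MP_04add8_pr.Gen

variable {h h' : ℝ → ℝ} {μ ν : Measure ℝ} [IsProbabilityMeasure μ]
  [IsProbabilityMeasure ν]

private lemma LinB1_low {b R x : ℝ} (hb : 0 < b) {w : ℝ × ℝ} (hx : 0 ≤ x) (h0 : x < w.1)
    (h1 : w.1 ≤ w.2) : (1 + 1 / b) * x ≤ bigA b R w := by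
  have h2 : x ≤ √(w.1 ^ 2 + R ^ 2) := by
    apply Real.le_sqrt_of_sq_le
    nlinarith [sq_nonneg R]
  have h3 : x / b ≤ √(w.1 ^ 2 + R ^ 2) / b := by gcongr
  have h4 : (1 + 1 / b) * x = x + x / b := by ring
  rw [h4]
  unfold bigA
  linarith

private lemma LinB1_up {b R : ℝ} (hb : 0 < b) (hR : 0 < R) {w : ℝ × ℝ} (h0 : 0 ≤ w.1)
    (h1 : w.1 ≤ w.2) : bigA b R w ≤ (1 + 1 / b) * w.2 + R / b := by
  have h2 : √(w.1 ^ 2 + R ^ 2) ≤ w.2 + R := by
    apply Real.sqrt_le_iff.mpr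
    constructor
    · linarith
    · nlinarith
  have h3 : √(w.1 ^ 2 + R ^ 2) / b ≤ (w.2 + R) / b := by gcongr
  have h4 : (1 + 1 / b) * w.2 + R / b = w.2 + (w.2 + R) / b := by ring
  rw [h4]
  unfold bigA
  linarith

/-- Original: `small_only` in `One/LinPot.lean`. Either directly as there, or from `glin_x` with
`Y = (1 + 1/b) x` and `bigA b R v ≤ (1 + 1/b) v.2 + R/b` (constants `K (1 + 1/b) → K`,
`δ / (1 + 1/b) → δ'`). -/
theorem gsmall_only (S : StdC μ ν h h') {B : ℝ → ℝ} (T : SLvl h B) :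
    ∃ δ' C : ℝ, 0 < δ' ∧ 0 ≤ C ∧ ∀ K : ℝ, 0 < K →
      ∀ᶠ x : ℝ in atTop, ∀ v : ℝ × ℝ, 0 ≤ v.1 → v.1 ≤ v.2 → ∀ n : ℕ,
        (noise μ ν) (allLe (B x) n ∩ {z | x < (pIter v z n).1}) ≤
          ENNReal.ofReal (C * (n + 1) * Real.exp (-(K * h x)) *
            (1 + Real.exp (K * (h x / x) * (v.2 - δ' * n)))) := by
  obtain ⟨b, hb, hb1, hbm⟩ := exists_b S.hm S.hgt S.hlt
  obtain ⟨R, δ, C, hR, hδ, hC, hmain⟩ := glin_x S T hb hb1 hbm
  set κ := 1 + 1 / b with hκ
  have hκ0 : 0 < κ := by positivity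
  refine ⟨δ / κ, C * Real.exp 1, by positivity, by positivity, fun K hK => ?_⟩
  have h1 : Tendsto (fun x => K / κ * (R / b) * (h x / x)) atTop (𝓝 (K / κ * (R / b) * 0)) :=
    S.haz.tendsto_div.const_mul _
  rw [mul_zero] at h1
  filter_upwards [hmain (K / κ) (by positivity), h1.eventually (ge_mem_nhds one_pos),
    eventually_gt_atTop 0] with x hx1 hx2 hx4 v hv0 hv1 n
  have hh := S.haz.nonneg x
  have hsub : allLe (B x) n ∩ {z | x < (pIter v z n).1} ⊆
      allLe (B x) n ∩ {z | κ * x ≤ bigA b R (pIter v z n)} := by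
    rintro z ⟨hz1, hz2⟩
    exact ⟨hz1, LinB1_low hb hx4.le hz2 (pIter_ordered hv0 hv1 z n).2⟩
  refine (measure_mono hsub).trans ((hx1 v hv0 hv1 n (κ * x)).trans ?_)
  refine ENNReal.ofReal_le_ofReal ?_
  have hn : (0 : ℝ) ≤ n := Nat.cast_nonneg n
  have hq : 0 ≤ K / κ * (h x / x) := by positivity
  set G := max (bigA b R v - δ * n) 0 with hG
  have e1 : Real.exp (-(K / κ * (h x / x) * (κ * x - G))) =
      Real.exp (-(K * h x)) * Real.exp (K / κ * (h x / x) * G) := by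
    rw [← Real.exp_add]
    congr 1
    field_simp
    ring
  have e2 : Real.exp (K / κ * (h x / x) * G) ≤
      Real.exp 1 * (1 + Real.exp (K * (h x / x) * (v.2 - δ / κ * n))) := by
    rcases le_total (bigA b R v - δ * n) 0 with h5 | h5
    · rw [hG, max_eq_right h5, mul_zero, Real.exp_zero]
      have h6 : 1 ≤ Real.exp 1 := Real.one_le_exp zero_le_one
      have h7 : 0 < Real.exp (K * (h x / x) * (v.2 - δ / κ * n)) := Real.exp_pos _
      nlinarith [mul_pos (Real.exp_pos 1) h7]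
    · rw [hG, max_eq_left h5]
      have h6 := LinB1_up hb hR hv0 hv1
      rw [← hκ] at h6
      have h7 : K / κ * (h x / x) * (bigA b R v - δ * n) ≤
          1 + K * (h x / x) * (v.2 - δ / κ * n) := by
        calc K / κ * (h x / x) * (bigA b R v - δ * n)
            ≤ K / κ * (h x / x) * ((κ * v.2 + R / b) - δ * n) := by gcongr
          _ = K / κ * (R / b) * (h x / x) + K * (h x / x) * (v.2 - δ / κ * n) := by
              field_simp
              ring
          _ ≤ _ := by linarith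
      calc Real.exp (K / κ * (h x / x) * (bigA b R v - δ * n))
          ≤ Real.exp (1 + K * (h x / x) * (v.2 - δ / κ * n)) := Real.exp_le_exp.mpr h7
        _ = Real.exp 1 * Real.exp (K * (h x / x) * (v.2 - δ / κ * n)) := Real.exp_add _ _
        _ ≤ _ := by
            apply mul_le_mul_of_nonneg_left _ (Real.exp_pos 1).le
            linarith
  calc C * (n + 1) * Real.exp (-(K / κ * (h x / x) * (κ * x - G)))
      = C * (n + 1) * Real.exp (-(K * h x)) * Real.exp (K / κ * (h x / x) * G) := by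
        rw [e1]
        ring
    _ ≤ C * (n + 1) * Real.exp (-(K * h x)) *
        (Real.exp 1 * (1 + Real.exp (K * (h x / x) * (v.2 - δ / κ * n)))) := by
        gcongr
    _ = _ := by ring

end Pool.Agent.Lib.MP_04add8_pr.Cv
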