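import Mathlib
import Pool.Agent.Lib.MP_04add8_pr.Cv.Lin
import Pool.Agent.Lib.MP_04add8_pr.Cv.LinB1

open MeasureTheory ProbabilityTheory Filter Topology
open scoped ENNReal

set_option linter.unusedSectionVars false

namespace Pool.Agent.Lib.MP_04add8_pr.Cv

open Pool.Agent.Lib.MP_04add8_pr.Gen

variable {h h' : ℝ → ℝ} {μ ν : Measure ℝ} [IsProbabilityMeasure μ]
  [IsProbabilityMeasure ν]

/-- Original: `return_small` in `One/Ret.lean` (`Ret_cat` is reused). -/
theorem greturn_small (S : StdC μ ν h h') {B : ℝ → ℝ} (T : SLvl h B) {K : ℝ} (hK : 0 < K) :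
    ∃ C : ℝ, 0 ≤ C ∧ ∀ᶠ x : ℝ in atTop,
      ∀ e : ℝ, 0 ≤ e → ∀ v : ℝ × ℝ, 0 ≤ v.1 → v.1 ≤ v.2 → ∀ n : ℕ,
        (noise μ ν) (allLe (B x) n ∩ {z | (∃ k ≤ n, (pIter v z k).2 ≤ e * x) ∧
          x < (pIter v z n).1}) ≤
          ENNReal.ofReal (C * (n + 1) ^ 2 * Real.exp (-(K * (1 - e) * h x))) := by
  obtain ⟨δ', C, hδ', hC, hso⟩ := gsmall_only S T
  refine ⟨2 * C, by positivity, ?_⟩
  filter_upwards [hso K hK, eventually_gt_atTop 0] with x hmain hxpos e he v hv0 hv1 n
  have hh := S.haz.nonneg x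
  have hsub : allLe (B x) n ∩ {z | (∃ k ≤ n, (pIter v z k).2 ≤ e * x) ∧
      x < (pIter v z n).1} ⊆
      ⋃ k ∈ Finset.range (n + 1), (allLe (B x) n ∩
        {z | (pIter v z k).2 ≤ e * x ∧ x < (pIter v z n).1}) := by
    rintro z ⟨hz1, ⟨k, hk, hz2⟩, hz3⟩
    rw [Set.mem_iUnion₂]
    exact ⟨k, Finset.mem_range.2 (by omega), hz1, hz2, hz3⟩
  refine (measure_mono hsub).trans ((measure_biUnion_finset_le _ _).trans ?_)
  have hterm : ∀ k ∈ Finset.range (n + 1), (noise μ ν) (allLe (B x) n ∩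
        {z | (pIter v z k).2 ≤ e * x ∧ x < (pIter v z n).1}) ≤
      ENNReal.ofReal (2 * C * (n + 1) * Real.exp (-(K * (1 - e) * h x))) := by
    intro k hk
    have hk' : k ≤ n := by have := Finset.mem_range.1 hk; omega
    obtain ⟨m, rfl⟩ := Nat.exists_eq_add_of_le hk'
    refine Ret_cat x (B x) (e * x) v k m fun z hz => ?_
    have hord := pIter_ordered hv0 hv1 z k
    refine (hmain (pIter v z k) hord.1 hord.2 m).trans ?_
    refine ENNReal.ofReal_le_ofReal ?_
    have h1 : K * (h x / x) * ((pIter v z k).2 - δ' * m) ≤ K * e * h x := by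
      have h2 : (pIter v z k).2 - δ' * m ≤ e * x := by
        have : 0 ≤ δ' * (m : ℝ) := by positivity
        linarith
      calc K * (h x / x) * ((pIter v z k).2 - δ' * m) ≤ K * (h x / x) * (e * x) :=
            mul_le_mul_of_nonneg_left h2 (by positivity)
        _ = K * e * h x := by field_simp
    have h3 : Real.exp (K * (h x / x) * ((pIter v z k).2 - δ' * m)) ≤
        Real.exp (K * e * h x) := Real.exp_le_exp.2 h1
    have h4 : (1 : ℝ) ≤ Real.exp (K * e * h x) := Real.one_le_exp (by positivity)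
    have h6 : (m : ℝ) ≤ ((k + m : ℕ) : ℝ) := by exact_mod_cast Nat.le_add_left m k
    have h7 : (0 : ℝ) ≤ (m : ℝ) := by positivity
    have h8 : Real.exp (-(K * h x)) * Real.exp (K * e * h x) =
        Real.exp (-(K * (1 - e) * h x)) := by
      rw [← Real.exp_add]
      congr 1
      ring
    calc C * (m + 1) * Real.exp (-(K * h x)) *
          (1 + Real.exp (K * (h x / x) * ((pIter v z k).2 - δ' * m)))
        ≤ C * (((k + m : ℕ) : ℝ) + 1) * Real.exp (-(K * h x)) *
          (2 * Real.exp (K * e * h x)) := by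
          have h9 : 1 + Real.exp (K * (h x / x) * ((pIter v z k).2 - δ' * m)) ≤
              2 * Real.exp (K * e * h x) := by linarith
          gcongr
      _ = 2 * C * (((k + m : ℕ) : ℝ) + 1) *
          (Real.exp (-(K * h x)) * Real.exp (K * e * h x)) := by ring
      _ = 2 * C * (((k + m : ℕ) : ℝ) + 1) * Real.exp (-(K * (1 - e) * h x)) := by rw [h8]
  refine (Finset.sum_le_sum hterm).trans ?_
  rw [Finset.sum_const, Finset.card_range, nsmul_eq_mul, ← ENNReal.ofReal_natCast,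
    ← ENNReal.ofReal_mul (by positivity)]
  refine ENNReal.ofReal_le_ofReal (le_of_eq ?_)
  push_cast
  ring

end Pool.Agent.Lib.MP_04add8_pr.Cv
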