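import Mathlib
import Pool.Agent.Lib.MP_04add8_pr.Cv.Base

open MeasureTheory ProbabilityTheory Filter Topology
open scoped ENNReal

set_option linter.unusedSectionVars false

namespace Pool.Agent.Lib.MP_04add8_pr.Cv

open Pool.Agent.Lib.MP_04add8_pr.Gen

variable {h h' : ℝ → ℝ}

/-- `h' X / h' y` is close to `1` when `X / y` is close to `1`, uniformly in `y` -/
theorem HazC.deriv_near (H : HazC h h') {τ : ℝ} (hτ : 0 < τ) :
    ∃ w : ℝ, 0 < w ∧ w ≤ 1 / 2 ∧ ∀ y X : ℝ, 0 < y → |X - y| ≤ w * y →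
      |h' X - h' y| ≤ τ * h' y := by
  obtain ⟨C, hC, hd⟩ := H.doubling
  have hc : Tendsto (fun w : ℝ => (1 / (1 - w)) ^ C) (𝓝[>] 0) (𝓝 1) := by
    have h1 : Tendsto (fun w : ℝ => 1 / (1 - w)) (𝓝 0) (𝓝 (1 / (1 - 0))) :=
      tendsto_const_nhds.div (tendsto_const_nhds.sub tendsto_id) (by norm_num)
    have h2 := h1.rpow_const (p := C) (Or.inl (by norm_num))
    rw [sub_zero, div_one, Real.one_rpow] at h2
    exact h2.mono_left nhdsWithin_le_nhds
  obtain ⟨w, ⟨hw1, hw2⟩, hw3⟩ := ((hc.eventually_lt_const (show (1 : ℝ) < 1 + τ by linarith)).and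
    (eventually_nhdsWithin_of_eventually_nhds (gt_mem_nhds (show (0 : ℝ) < 1 / 2 by norm_num)))
    |>.and self_mem_nhdsWithin).exists
  have hw0 : 0 < w := hw3
  refine ⟨w, hw0, hw2.le, fun y X hy hX => ?_⟩
  have hX1 := abs_le.1 hX
  have hwy : w * y ≤ 1 / 2 * y := mul_le_mul_of_nonneg_right hw2.le hy.le
  have hX0 : 0 < X := by linarith
  have hpy : 0 < h' y := H.pos y hy
  have hpX : 0 < h' X := H.pos X hX0
  have hone : ∀ l : ℝ, 1 ≤ l → l ≤ 1 / (1 - w) → l ^ C ≤ 1 + τ := by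
    intro l hl1 hl2
    exact (Real.rpow_le_rpow (by linarith) hl2 hC).trans hw1.le
  have h1w : 0 < 1 - w := by linarith
  rcases le_total y X with hyX | hyX
  · have hl1 : 1 ≤ X / y := by rw [le_div_iff₀ hy]; linarith
    have hl2 : X / y ≤ 1 / (1 - w) := by
      rw [div_le_div_iff₀ hy h1w]
      have h2 : X * (1 - w) ≤ ((1 + w) * y) * (1 - w) :=
        mul_le_mul_of_nonneg_right (by linarith) h1w.le
      nlinarith [mul_nonneg (mul_nonneg hw0.le hw0.le) hy.le]
    have h2 := hd y (X / y) hy hl1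
    rw [div_mul_cancel₀ _ hy.ne'] at h2
    have h3 : h' y ≤ (1 + τ) * h' X := h2.trans (mul_le_mul_of_nonneg_right (hone _ hl1 hl2) hpX.le)
    have h4 := H.anti y X hy hyX
    rw [abs_le]
    constructor
    · nlinarith
    · nlinarith
  · have hl1 : 1 ≤ y / X := by rw [le_div_iff₀ hX0]; linarith
    have hl2 : y / X ≤ 1 / (1 - w) := by
      rw [div_le_div_iff₀ hX0 h1w]
      linarith
    have h2 := hd X (y / X) hX0 hl1
    rw [div_mul_cancel₀ _ hX0.ne'] at h2
    have h3 : h' X ≤ (1 + τ) * h' y := h2.trans (mul_le_mul_of_nonneg_right (hone _ hl1 hl2) hpy.le)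
    have h4 := H.anti X y hX0 hyX
    rw [abs_le]
    constructor <;> nlinarith

end Pool.Agent.Lib.MP_04add8_pr.Cv
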