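import Mathlib
import Pool.Agent.Lib.MP_04add8_pr.Cv.Opt
import Pool.Agent.Lib.MP_04add8_pr.Cv.Beta
import Pool.Agent.Lib.MP_04add8_pr.Cv.TailInt

open MeasureTheory ProbabilityTheory Filter Topology
open scoped ENNReal

set_option linter.unusedSectionVars false

namespace Pool.Agent.Lib.MP_04add8_pr.Cv

open Pool.Agent.Lib.MP_04add8_pr.Gen

variable {h h' : ℝ → ℝ} {μ ν : Measure ℝ} [IsProbabilityMeasure μ]
  [IsProbabilityMeasure ν]

lemma fOneH_pos (S : StdC μ ν h h') {K : ℕ} {x : ℝ} (hx : 0 < x) :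
    0 < fOneH h h' μ ν K x := by
  unfold fOneH
  have h2 := two_lt_eta S
  have h1 : 0 < eta μ ν * x := by
    have : 0 < eta μ ν := by linarith
    positivity
  have h3 := S.haz.pos _ h1
  have h4 := S.hlt
  have h5 : 0 < 2 * (∫ t, t ∂ν) - ∫ s, s ∂μ := by linarith
  positivity

lemma Qf_pos (H : HazC h h') {x : ℝ} (hx : 0 < x) : 0 < Qf h h' x := by
  unfold Qf
  have h3 := H.pos x hx
  positivity

/-- from `gopt`, `gbeta_limit`, `gbeta_expand` -/
theorem grate_close (S : StdC μ ν h h') {K : ℕ} (hK : 1 ≤ K) {ω : ℝ} (hω : 0 < ω) :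
    ∀ᶠ x : ℝ in atTop, |hRate h (cramerRoot μ ν K) x - h (eta μ ν * x)| ≤
      ω * (x * h' (eta μ ν * x)) := by
  obtain ⟨β1, hβ1⟩ := gbeta_expand S hK
  have h2 := two_lt_eta S
  filter_upwards [gopt S.haz (show 1 < eta μ ν by linarith)
    (β := cramerRoot μ ν K) (fun θ => cramerRoot_nonneg (μ := μ) (ν := ν) K θ) (gbeta_limit S hK) hβ1 hω] with x hx
  obtain ⟨θ, X, -, -, -, -, -, -, h6, -⟩ := hx
  exact h6

end Pool.Agent.Lib.MP_04add8_pr.Cv
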