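import Mathlib
import Pool.Agent.Lib.MP_04add8_pr.Cv.Opt
import Pool.Agent.Lib.MP_04add8_pr.Cv.Beta
import Pool.Agent.Lib.MP_04add8_pr.Cv.TailInt
import Pool.Agent.Lib.MP_04add8_pr.Cv.ErrA

open MeasureTheory ProbabilityTheory Filter Topology
open scoped ENNReal

set_option linter.unusedSectionVars false

namespace Pool.Agent.Lib.MP_04add8_pr.Cv

open Pool.Agent.Lib.MP_04add8_pr.Gen

variable {h h' : ℝ → ℝ} {μ ν : Measure ℝ} [IsProbabilityMeasure μ]
  [IsProbabilityMeasure ν]

/-- powers are negligible against `exp (κ h)` -/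
private lemma ErrB_poly (H : HazC h h') {κ : ℝ} (hκ : 0 < κ) (p : ℝ) :
    Tendsto (fun x : ℝ => x ^ p * Real.exp (-(κ * h x))) atTop (𝓝 0) := by
  refine squeeze_zero' ?_ ?_ tendsto_inv_atTop_zero
  · filter_upwards [eventually_gt_atTop (0 : ℝ)] with x hx
    positivity
  · filter_upwards [H.log_le ((|p| + 1) / κ), eventually_ge_atTop (1 : ℝ)] with x h1 hx
    have hx0 : 0 < x := by linarith
    have hl : 0 ≤ Real.log x := Real.log_nonneg hx
    have h2 : (|p| + 1) * Real.log x ≤ κ * h x := by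
      have h3 := mul_le_mul_of_nonneg_left h1 hκ.le
      have h4 : κ * ((|p| + 1) / κ * Real.log x) = (|p| + 1) * Real.log x := by
        field_simp
      linarith
    have h3 : p * Real.log x ≤ |p| * Real.log x :=
      mul_le_mul_of_nonneg_right (le_abs_self p) hl
    rw [Real.rpow_def_of_pos hx0, ← Real.exp_add]
    calc Real.exp (Real.log x * p + -(κ * h x)) ≤ Real.exp (-(Real.log x)) := by
          apply Real.exp_le_exp.2
          linarith
      _ = x⁻¹ := by rw [Real.exp_neg, Real.exp_log hx0]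

private lemma ErrB_lin {κ : ℝ} (hκ : 0 < κ) :
    Tendsto (fun t : ℝ => (1 + t) * Real.exp (-(κ * t))) atTop (𝓝 0) := by
  have h0 : Tendsto (fun t : ℝ => κ * t) atTop atTop := tendsto_id.const_mul_atTop hκ
  have h1 := (Real.tendsto_pow_mul_exp_neg_atTop_nhds_zero 0).comp h0
  have h2 := ((Real.tendsto_pow_mul_exp_neg_atTop_nhds_zero 1).comp h0).const_mul κ⁻¹
  have h3 := h1.add h2
  rw [mul_zero, add_zero] at h3
  refine h3.congr fun t => ?_
  simp only [Function.comp_apply, pow_zero, pow_one]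
  have : κ ≠ 0 := hκ.ne'
  field_simp

private lemma ErrB_t (S : StdC μ ν h h') :
    Tendsto (fun x : ℝ => x * h' (eta μ ν * x)) atTop atTop := by
  have hη : 0 < eta μ ν := by
    have := two_lt_eta S
    linarith
  have h1 : Tendsto (fun x : ℝ => eta μ ν * x) atTop atTop := tendsto_id.const_mul_atTop hη
  have h2 := (S.haz.big.comp h1).const_mul_atTop (inv_pos.2 hη)
  refine h2.congr fun x => ?_
  simp only [Function.comp_apply]
  field_simp

/-- errors with a margin `δ x h' (η x)` and no polynomial factor -/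
theorem gerr_phi (S : StdC μ ν h h') {K : ℕ} (hK : 1 ≤ K) {δ ω : ℝ} (hδ : 0 < δ) (hω : 0 < ω)
    (C : ℝ) :
    ∀ᶠ x : ℝ in atTop, C * (1 + x * h' (eta μ ν * x)) *
        Real.exp (-(h (eta μ ν * x) + δ * (x * h' (eta μ ν * x)))) / h' (eta μ ν * x) ≤
      ω * fOneH h h' μ ν K x := by
  have hη : 0 < eta μ ν := by
    have := two_lt_eta S
    linarith
  have hD : 0 < 2 * (∫ t, t ∂ν) - ∫ s, s ∂μ := by
    have := S.hlt
    linarith
  set D : ℝ := 2 * (∫ t, t ∂ν) - ∫ s, s ∂μ with hDdef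
  have h1 := ((ErrB_lin (κ := δ / 2) (by positivity)).comp (ErrB_t S)).const_mul C
  rw [mul_zero] at h1
  have h2 := h1.eventually_lt_const (show (0 : ℝ) < ω / D by positivity)
  filter_upwards [grate_close S hK (ω := δ / 2) (by positivity), h2, eventually_gt_atTop (0 : ℝ)]
    with x h3 h4 hx
  simp only [Function.comp_apply] at h4
  have hp : 0 < h' (eta μ ν * x) := S.haz.pos _ (by positivity)
  set t : ℝ := x * h' (eta μ ν * x) with ht
  have h5 := (abs_le.1 h3).2
  have h6 : C * (1 + t) * Real.exp (-(h (eta μ ν * x) + δ * t)) ≤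
      ω / D * Real.exp (-(hRate h (cramerRoot μ ν K) x)) := by
    have e1 : C * (1 + t) * Real.exp (-(h (eta μ ν * x) + δ * t)) =
        C * ((1 + t) * Real.exp (-(δ / 2 * t))) *
          Real.exp (-(h (eta μ ν * x) + δ / 2 * t)) := by
      have e2 : Real.exp (-(h (eta μ ν * x) + δ * t)) = Real.exp (-(δ / 2 * t)) *
          Real.exp (-(h (eta μ ν * x) + δ / 2 * t)) := by
        rw [← Real.exp_add]
        congr 1
        ring
      rw [e2]
      ring
    rw [e1]
    calc C * ((1 + t) * Real.exp (-(δ / 2 * t))) * Real.exp (-(h (eta μ ν * x) + δ / 2 * t))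
        ≤ ω / D * Real.exp (-(h (eta μ ν * x) + δ / 2 * t)) :=
          mul_le_mul_of_nonneg_right h4.le (Real.exp_pos _).le
      _ ≤ ω / D * Real.exp (-(hRate h (cramerRoot μ ν K) x)) := by
          apply mul_le_mul_of_nonneg_left _ (by positivity)
          apply Real.exp_le_exp.2
          linarith
  unfold fOneH
  rw [← hDdef, div_le_iff₀ hp]
  refine h6.trans (le_of_eq ?_)
  field_simp

/-- errors with a margin `δ h (η x)` and a polynomial factor -/
theorem gerr_one (S : StdC μ ν h h') {K : ℕ} (hK : 1 ≤ K) {δ ω : ℝ} (hδ : 0 < δ) (hω : 0 < ω)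
    (C p : ℝ) :
    ∀ᶠ x : ℝ in atTop, C * x ^ p * Real.exp (-((1 + δ) * h (eta μ ν * x))) ≤
      ω * fOneH h h' μ ν K x := by
  have hη : 0 < eta μ ν := by
    have := two_lt_eta S
    linarith
  have hη1 : 1 ≤ eta μ ν := by
    have := two_lt_eta S
    linarith
  have hD : 0 < 2 * (∫ t, t ∂ν) - ∫ s, s ∂μ := by
    have := S.hlt
    linarith
  set D : ℝ := 2 * (∫ t, t ∂ν) - ∫ s, s ∂μ with hDdef
  have hlin : Tendsto (fun x : ℝ => eta μ ν * x) atTop atTop := tendsto_id.const_mul_atTop hη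
  have h1 := ((ErrB_poly S.haz (κ := δ / 2) (by positivity) p).comp hlin).const_mul
    (C * (eta μ ν) ^ (-p))
  rw [mul_zero] at h1
  have h2 := h1.eventually_lt_const (show (0 : ℝ) < ω / D by positivity)
  have h4 := (S.haz.tendsto_deriv.comp hlin).eventually_lt_const (show (0 : ℝ) < 1 by norm_num)
  have h5 := (S.haz.tendsto_h.comp hlin).eventually_gt_atTop 0
  filter_upwards [grate_close S hK (ω := δ / 2) (by positivity), h2, h4, h5,
    eventually_gt_atTop (0 : ℝ)] with x hr h6 h8 h9 hx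
  simp only [Function.comp_apply] at h6 h8 h9
  have hp : 0 < h' (eta μ ν * x) := S.haz.pos _ (by positivity)
  have hr2 := (abs_le.1 hr).2
  have h7 := S.haz.mul_deriv_le (show 0 < eta μ ν * x by positivity)
  have h10 : x * h' (eta μ ν * x) ≤ h (eta μ ν * x) := by
    have h11 : x * h' (eta μ ν * x) ≤ eta μ ν * x * h' (eta μ ν * x) := by
      have : x ≤ eta μ ν * x := by nlinarith
      exact mul_le_mul_of_nonneg_right this hp.le
    linarith
  have h12 : hRate h (cramerRoot μ ν K) x ≤ (1 + δ / 2) * h (eta μ ν * x) := by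
    have : δ / 2 * (x * h' (eta μ ν * x)) ≤ δ / 2 * h (eta μ ν * x) :=
      mul_le_mul_of_nonneg_left h10 (by positivity)
    linarith
  have hxp : (eta μ ν) ^ (-p) * (eta μ ν * x) ^ p = x ^ p := by
    rw [Real.mul_rpow hη.le hx.le, ← mul_assoc, ← Real.rpow_add hη, neg_add_cancel,
      Real.rpow_zero, one_mul]
  have h13 : C * x ^ p * Real.exp (-(δ / 2 * h (eta μ ν * x))) ≤ ω / D := by
    refine (le_of_eq ?_).trans h6.le
    rw [← hxp]
    ring
  have e2 : Real.exp (-((1 + δ) * h (eta μ ν * x))) = Real.exp (-(δ / 2 * h (eta μ ν * x))) *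
      Real.exp (-((1 + δ / 2) * h (eta μ ν * x))) := by
    rw [← Real.exp_add]
    congr 1
    ring
  unfold fOneH
  rw [← hDdef, e2]
  calc C * x ^ p * (Real.exp (-(δ / 2 * h (eta μ ν * x))) *
        Real.exp (-((1 + δ / 2) * h (eta μ ν * x))))
      = C * x ^ p * Real.exp (-(δ / 2 * h (eta μ ν * x))) *
        Real.exp (-((1 + δ / 2) * h (eta μ ν * x))) := by ring
    _ ≤ ω / D * Real.exp (-((1 + δ / 2) * h (eta μ ν * x))) :=
        mul_le_mul_of_nonneg_right h13 (Real.exp_pos _).le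
    _ ≤ ω / D * Real.exp (-(hRate h (cramerRoot μ ν K) x)) := by
        apply mul_le_mul_of_nonneg_left _ (by positivity)
        apply Real.exp_le_exp.2
        linarith
    _ = ω * (Real.exp (-(hRate h (cramerRoot μ ν K) x)) / (D * 1)) := by
        rw [mul_one]
        ring
    _ ≤ ω * (Real.exp (-(hRate h (cramerRoot μ ν K) x)) / (D * h' (eta μ ν * x))) := by
        apply mul_le_mul_of_nonneg_left _ hω.le
        apply div_le_div_of_nonneg_left (Real.exp_pos _).le (by positivity)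
        exact mul_le_mul_of_nonneg_left h8.le hD.le

theorem gerr_two (H : HazC h h') {δ ω : ℝ} (hδ : 0 < δ) (hω : 0 < ω) (C p : ℝ) :
    ∀ᶠ x : ℝ in atTop, C * x ^ p * Real.exp (-((2 + δ) * h x)) ≤ ω * (Qf h h' x) ^ 2 := by
  have h1 := (ErrB_poly H hδ p).const_mul C
  rw [mul_zero] at h1
  have h4 := H.tendsto_deriv.eventually_lt_const (show (0 : ℝ) < 1 by norm_num)
  filter_upwards [h1.eventually_lt_const hω, h4, eventually_gt_atTop (0 : ℝ)] with x h2 h5 hx
  have hp := H.pos x hx
  have e : Real.exp (-((2 + δ) * h x)) = Real.exp (-(δ * h x)) * Real.exp (-(h x)) ^ 2 := by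
    rw [← Real.exp_nat_mul, ← Real.exp_add]
    congr 1
    push_cast
    ring
  have hQ : Real.exp (-(h x)) ≤ Qf h h' x := by
    unfold Qf
    rw [le_div_iff₀ hp]
    calc Real.exp (-(h x)) * h' x ≤ Real.exp (-(h x)) * 1 :=
          mul_le_mul_of_nonneg_left h5.le (Real.exp_pos _).le
      _ = Real.exp (-(h x)) := mul_one _
  calc C * x ^ p * Real.exp (-((2 + δ) * h x))
      = C * (x ^ p * Real.exp (-(δ * h x))) * Real.exp (-(h x)) ^ 2 := by rw [e]; ring
    _ ≤ ω * Real.exp (-(h x)) ^ 2 := mul_le_mul_of_nonneg_right h2.le (by positivity)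
    _ ≤ ω * (Qf h h' x) ^ 2 := by
        apply mul_le_mul_of_nonneg_left _ hω.le
        exact pow_le_pow_left₀ (Real.exp_pos _).le hQ 2

end Pool.Agent.Lib.MP_04add8_pr.Cv
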