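import Mathlib
import Pool.Agent.Lib.MP_04add8_pr.Cv.RV
import Pool.Agent.Lib.MP_04add8_pr.One.Mix

open MeasureTheory ProbabilityTheory Filter Topology
open scoped ENNReal NNReal

set_option linter.unusedSectionVars false

namespace Pool.Agent.Lib.MP_04add8_pr.Cv

open Pool.Agent.Lib.MP_04add8_pr.Gen

variable {h h' : ℝ → ℝ} {μ ν : Measure ℝ} [IsProbabilityMeasure μ]
  [IsProbabilityMeasure ν]

/-- **Gaussian mixture of tilts**. Original: `mix` in `One/Mix.lean` (`Mix_exp`, `Mix_sq`,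
`Mix_trunc` are reused). `γ` is `(1 - 2 exp (-q))⁻¹` times the centred Gaussian of variance
`v = 2 C h' X / X` (`C` from `HazC.curv_low`) restricted to `|u| ≤ κ h' X`; truncation error:
`v ε X ≤ κ h' X / 4`, `q = κ² h'(X)² / (4 v) = κ² X h' X / (8 C) → ∞` because
`X h' X → ∞`; the last integral: `4 C ω2` small. -/
theorem gmix (H : HazC h h') {ω : ℝ} (hω : 0 < ω) :
    ∃ ω2 : ℝ, 0 < ω2 ∧ ∀ κ : ℝ, 0 < κ → κ ≤ 1 / 2 → ∃ ε : ℝ, 0 < ε ∧ ε ≤ 1 / 2 ∧
      ∀ᶠ X : ℝ in atTop, ∃ γ : Measure ℝ, IsFiniteMeasure γ ∧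
        (∀ᵐ u ∂γ, |u| ≤ κ * h' X) ∧
        (∀ D : ℝ, |D| ≤ ε * X → ENNReal.ofReal (Real.exp (-(h (X + D)))) ≤
          ENNReal.ofReal (Real.exp (-(h X))) *
            ∫⁻ u, ENNReal.ofReal (Real.exp (-((h' X - u) * D))) ∂γ) ∧
        ∫⁻ u, ENNReal.ofReal (Real.exp (ω2 * X * u ^ 2 / h' X)) ∂γ ≤
          ENNReal.ofReal (1 + ω) := by
  obtain ⟨C, hC, hcurv⟩ := H.curv_low
  set t0 := (1 + ω) / (1 + ω / 3) with ht0
  have ht1 : 1 < t0 := by
    rw [ht0, lt_div_iff₀ (by positivity)]; linarith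
  have ht00 : 0 < t0 := by linarith
  have hti : (t0 ^ 2)⁻¹ < 1 := inv_lt_one_of_one_lt₀ (by nlinarith)
  have hti2 : 0 < 1 - (t0 ^ 2)⁻¹ := by linarith
  set ω2 := (1 - (t0 ^ 2)⁻¹) / (4 * C) with hω2
  have hω20 : 0 < ω2 := by positivity
  refine ⟨ω2, hω20, ?_⟩
  intro κ hκ hκ2
  set ε : ℝ := min (1 / 2) (κ / (8 * C)) with hε
  have hε0 : 0 < ε := lt_min (by norm_num) (by positivity)
  have hε1 : ε ≤ 1 / 2 := min_le_left _ _
  have hε2 : 8 * C * ε ≤ κ := by
    have h1 : ε ≤ κ / (8 * C) := min_le_right _ _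
    rw [le_div_iff₀ (by positivity)] at h1
    linarith
  refine ⟨ε, hε0, hε1, ?_⟩
  set cq := κ ^ 2 / (8 * C) with hcq
  have hcq0 : 0 < cq := by positivity
  have hev : ∀ᶠ X : ℝ in atTop,
      1 ≤ (1 + ω / 3) * (1 - 2 * Real.exp (-(cq * (X * h' X)))) := by
    have h8 : Tendsto (fun x : ℝ => Real.exp (-(cq * (x * h' x)))) atTop (𝓝 0) :=
      Real.tendsto_exp_neg_atTop_nhds_zero.comp (H.big.const_mul_atTop hcq0)
    have h9 : Tendsto (fun x : ℝ => (1 + ω / 3) * (1 - 2 * Real.exp (-(cq * (x * h' x)))))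
        atTop (𝓝 ((1 + ω / 3) * (1 - 2 * 0))) :=
      ((h8.const_mul 2).const_sub 1).const_mul _
    have h10 : (1 : ℝ) < (1 + ω / 3) * (1 - 2 * 0) := by
      rw [mul_zero, sub_zero, mul_one]; linarith
    exact (h9.eventually (lt_mem_nhds h10)).mono fun x hx => hx.le
  filter_upwards [hev, eventually_gt_atTop 0] with X hX hX0
  set g := h' X with hg
  have hg0 : 0 < g := H.pos X hX0
  set ζ : ℝ := 2 * C * (g / X) with hζ
  have hζ0 : 0 < ζ := by positivity
  set v : ℝ≥0 := ⟨ζ, hζ0.le⟩ with hv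
  have hvζ : (v : ℝ) = ζ := rfl
  have hvne : v ≠ 0 := by
    intro h0
    have : (v : ℝ) = 0 := by rw [h0]; rfl
    rw [hvζ] at this
    linarith
  set r := κ * g with hr
  have hr0 : 0 < r := by positivity
  set N := gaussianReal 0 v with hN
  set A : Set ℝ := {u : ℝ | |u| ≤ r} with hA
  have hAm : MeasurableSet A := measurableSet_le (by fun_prop) measurable_const
  refine ⟨ENNReal.ofReal (1 + ω / 3) • N.restrict A, ?_, ?_, ?_, ?_⟩
  · exact Measure.smul_finite _ ENNReal.ofReal_ne_top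
  · apply Measure.ae_smul_measure
    filter_upwards [ae_restrict_mem hAm] with u hu
    exact hu
  · intro D hD
    rw [lintegral_smul_measure, smul_eq_mul]
    -- the Gaussian part
    have hvD : (v : ℝ) * |D| ≤ r / 4 := by
      rw [hvζ, hr, hζ]
      calc 2 * C * (g / X) * |D| ≤ 2 * C * (g / X) * (ε * X) := by gcongr
        _ = g * (8 * C * ε) / 4 := by field_simp; ring
        _ ≤ g * κ / 4 := by gcongr
        _ = _ := by ring
    have hq : cq * (X * g) ≤ r ^ 2 / (4 * v) := by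
      rw [hvζ, hr, hζ, hcq]
      apply le_of_eq
      field_simp
      ring
    have htr := Mix_trunc hvne hr0 hvD hq
    rw [← hN, ← hA] at htr
    set I := ∫⁻ u in A, ENNReal.ofReal (Real.exp (u * D)) ∂N with hI
    have hIle : I ≤ ENNReal.ofReal (Real.exp (v * D ^ 2 / 2)) := by
      rw [← Mix_exp v D]
      exact setLIntegral_le_lintegral _ _
    have hIfin : I ≠ ∞ := ne_top_of_le_ne_top ENNReal.ofReal_ne_top hIle
    have hIr : I = ENNReal.ofReal I.toReal := (ENNReal.ofReal_toReal hIfin).symm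
    have hI0 : 0 ≤ I.toReal := ENNReal.toReal_nonneg
    set G := Real.exp (v * D ^ 2 / 2) with hG
    have hG0 : 0 < G := Real.exp_pos _
    have hG1 : G ≤ (1 + ω / 3) * I.toReal := by
      rw [hIr, ← ENNReal.ofReal_add hI0 (by positivity)] at htr
      rw [ENNReal.ofReal_le_ofReal_iff (by positivity)] at htr
      have h3 : (1 - 2 * Real.exp (-(cq * (X * g)))) * G ≤ I.toReal := by
        linarith
      calc G = 1 * G := (one_mul G).symm
        _ ≤ ((1 + ω / 3) * (1 - 2 * Real.exp (-(cq * (X * g))))) * G := by gcongr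
        _ = (1 + ω / 3) * ((1 - 2 * Real.exp (-(cq * (X * g)))) * G) := by ring
        _ ≤ _ := by gcongr
    have hI2 : ∫⁻ u, ENNReal.ofReal (Real.exp (-((g - u) * D))) ∂(N.restrict A) =
        ENNReal.ofReal (Real.exp (-(g * D))) * I := by
      rw [hI, ← lintegral_const_mul _ (by fun_prop)]
      refine lintegral_congr (fun u => ?_)
      rw [← ENNReal.ofReal_mul (Real.exp_pos _).le, ← Real.exp_add]
      congr 2
      ring
    rw [hI2, hIr, ← ENNReal.ofReal_mul (Real.exp_pos _).le, ← ENNReal.ofReal_mul (by positivity),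
      ← ENNReal.ofReal_mul (Real.exp_pos _).le]
    apply ENNReal.ofReal_le_ofReal
    have hD2 : |D| ≤ X / 2 := by
      have h3 : ε * X ≤ 1 / 2 * X := mul_le_mul_of_nonneg_right hε1 hX0.le
      linarith
    have hT := hcurv X D hX0 hD2
    rw [← hg] at hT
    have hT2 : h X + g * D - ζ * D ^ 2 / 2 ≤ h (X + D) := by
      have e : ζ * D ^ 2 / 2 = C * (g / X) * D ^ 2 := by rw [hζ]; ring
      rw [e]
      exact hT
    calc Real.exp (-(h (X + D))) ≤ Real.exp (-(h X) + (-(g * D) + v * D ^ 2 / 2)) := by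
          apply Real.exp_le_exp.mpr
          rw [hvζ]
          linarith
      _ = Real.exp (-(h X)) * (Real.exp (-(g * D)) * G) := by
          rw [Real.exp_add, Real.exp_add]
      _ ≤ Real.exp (-(h X)) * (Real.exp (-(g * D)) * ((1 + ω / 3) * I.toReal)) := by gcongr
      _ = _ := by ring
  · rw [lintegral_smul_measure, smul_eq_mul]
    have e3 : ∀ u : ℝ, ω2 * X * u ^ 2 / g = (ω2 * X / g) * u ^ 2 := fun u => by ring
    simp only [e3]
    have hc : 1 ≤ t0 ^ 2 * (1 - 2 * (ω2 * X / g) * v) := by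
      have e4 : 2 * (ω2 * X / g) * v = 1 - (t0 ^ 2)⁻¹ := by
        rw [hvζ, hζ, hω2]
        field_simp
        ring
      rw [e4, sub_sub_cancel]
      apply le_of_eq
      field_simp
    calc ENNReal.ofReal (1 + ω / 3) *
          ∫⁻ u in A, ENNReal.ofReal (Real.exp ((ω2 * X / g) * u ^ 2)) ∂N
        ≤ ENNReal.ofReal (1 + ω / 3) *
          ∫⁻ u, ENNReal.ofReal (Real.exp ((ω2 * X / g) * u ^ 2)) ∂N := by
          gcongr
          exact Measure.restrict_le_self
      _ ≤ ENNReal.ofReal (1 + ω / 3) * ENNReal.ofReal t0 := by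
          gcongr
          exact Mix_sq hvne ht00.le hc
      _ = ENNReal.ofReal (1 + ω) := by
          rw [← ENNReal.ofReal_mul (by positivity), ht0]
          congr 1
          field_simp

end Pool.Agent.Lib.MP_04add8_pr.Cv
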