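import Mathlib
import Pool.Agent.Lib.MP_04add8_pr.Cv.Base
import Pool.Agent.Lib.MP_04add8_pr.One.OneMain

open MeasureTheory ProbabilityTheory Filter Topology
open scoped ENNReal

set_option linter.unusedSectionVars false

namespace Pool.Agent.Lib.MP_04add8_pr.Cv

open Pool.Agent.Lib.MP_04add8_pr.Gen

variable {h h' : ℝ → ℝ} {μ ν : Measure ℝ} [IsProbabilityMeasure μ]
  [IsProbabilityMeasure ν]

/-! Original: `om_pointwise`, `om_integrated` in `One/OneMain.lean` (`omV`, `omS`,
`tiltOne_eq`, `measurable_tiltOne` are reused); `max V 0` is not needed because `h` is constant on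
`(-∞, 0]`. `T` is the tilt of the first error term, `T1` its constant. -/

lemma gom_pointwise (H : HazC h h') {y θ X ε c P T T1 : ℝ} {γ : Measure ℝ}
    (hy : 0 < y) (hθX : h' X = θ)
    (hε : 0 < ε) (hε1 : ε ≤ 1 / 2) (hXy : |X - y| ≤ (ε / 4) * y)
    (hmix : ∀ D : ℝ, |D| ≤ ε * X → ENNReal.ofReal (Real.exp (-(h (X + D)))) ≤
          ENNReal.ofReal (Real.exp (-(h X))) *
            ∫⁻ u, ENNReal.ofReal (Real.exp (-((h' X - u) * D))) ∂γ)
    (hpt : ∀ X' : ℝ, ε / 4 * y < |X' - y| →
      Real.exp (-(h X')) ≤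
        Real.exp (T1 - T * X') +
        Real.exp (-(P + c * h' y * (X' - y))) +
        Real.exp (-(h (2 * y)))) (V : ℝ) :
    ENNReal.ofReal (Real.exp (-(h V))) ≤
      (∫⁻ u, ENNReal.ofReal (Real.exp (-(h X) + (θ - u) * X)) *
        ENNReal.ofReal (Real.exp (-((θ - u) * V))) ∂γ) +
      ENNReal.ofReal (Real.exp T1) * ENNReal.ofReal (Real.exp (-(T * V))) +
      ENNReal.ofReal (Real.exp (-P + c * h' y * y)) *
        ENNReal.ofReal (Real.exp (-(c * h' y * V))) +
      ENNReal.ofReal (Real.exp (-(h (2 * y)))) := by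
  by_cases hV : |V - y| ≤ ε / 4 * y
  · have h1 := abs_le.1 hV
    have h2 := abs_le.1 hXy
    have hX : y / 2 ≤ X := by nlinarith
    have hD : |V - X| ≤ ε * X := by
      rw [abs_le]
      constructor <;> nlinarith
    have h3 := hmix (V - X) hD
    rw [add_sub_cancel, hθX] at h3
    rw [← lintegral_const_mul' _ _ ENNReal.ofReal_ne_top] at h3
    refine le_trans h3 ?_
    refine le_trans (le_of_eq ?_) (le_trans le_self_add (le_trans le_self_add le_self_add))
    refine lintegral_congr fun u => ?_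
    rw [← ENNReal.ofReal_mul (Real.exp_nonneg _), ← ENNReal.ofReal_mul (Real.exp_nonneg _),
      ← Real.exp_add, ← Real.exp_add]
    congr 2
    ring
  · have h3 := hpt V (not_le.1 hV)
    have h4 : ENNReal.ofReal (Real.exp (-(h V))) ≤
      ENNReal.ofReal (Real.exp T1) * ENNReal.ofReal (Real.exp (-(T * V))) +
      ENNReal.ofReal (Real.exp (-P + c * h' y * y)) *
        ENNReal.ofReal (Real.exp (-(c * h' y * V))) +
      ENNReal.ofReal (Real.exp (-(h (2 * y)))) := by
      rw [← ENNReal.ofReal_mul (Real.exp_nonneg _), ← ENNReal.ofReal_mul (Real.exp_nonneg _),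
        ← Real.exp_add, ← Real.exp_add,
        ← ENNReal.ofReal_add (Real.exp_nonneg _) (Real.exp_nonneg _),
        ← ENNReal.ofReal_add (by positivity) (Real.exp_nonneg _)]
      refine ENNReal.ofReal_le_ofReal (h3.trans (le_of_eq ?_))
      have e1 : T1 - T * V = T1 + -(T * V) := by ring
      have e2 : -(P + c * h' y * (V - y)) = -P + c * h' y * y + -(c * h' y * V) := by ring
      rw [e1, e2]
    refine h4.trans ?_
    rw [add_assoc, add_assoc, add_assoc]
    exact le_add_self

end Pool.Agent.Lib.MP_04add8_pr.Cv
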