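import Mathlib
import Pool.Agent.Lib.MP_04add8_pr.Cv.LawM
import Pool.Agent.Lib.MP_04add8_pr.One.Phi
import Pool.Agent.Lib.MP_04add8_pr.Cv.PhiA

open MeasureTheory ProbabilityTheory Filter Topology
open scoped ENNReal

set_option linter.unusedSectionVars false

namespace Pool.Agent.Lib.MP_04add8_pr.Cv

open Pool.Agent.Lib.MP_04add8_pr.Gen

variable {h h' : ℝ → ℝ} {μ ν : Measure ℝ} [IsProbabilityMeasure μ]
  [IsProbabilityMeasure ν]

theorem gphi_lower (S : StdC μ ν h h') (K : ℕ) :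
    ∃ C : ℝ, 0 ≤ C ∧ ∀ B : ℝ, 0 ≤ B → ∀ β θ : ℝ, 0 ≤ β → β ≤ 1 → 0 ≤ θ →
      ENNReal.ofReal (momPoly μ K β * lap ν (β + θ) - C * Real.exp (-(h B / 2))) ≤
        trPhi μ ν B β θ := by
  have H := S.haz
  have L := S.law
  have hν := S.hν
  have hpos := L.nn
  have hi : Integrable (fun s : ℝ => ∑ j ∈ Finset.range (K + 1),
      s ^ j * Real.exp (1 / 2 * h s)) μ :=
    integrable_finsetSum _ fun j _ => law_integrable H L (by norm_num) j
  have hC0 : ∀ᵐ s ∂μ, 0 ≤ ∑ j ∈ Finset.range (K + 1), s ^ j * Real.exp (1 / 2 * h s) := by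
    filter_upwards [hpos] with s hs
    positivity
  refine ⟨∫ s, ∑ j ∈ Finset.range (K + 1), s ^ j * Real.exp (1 / 2 * h s) ∂μ,
    integral_nonneg_of_ae hC0, ?_⟩
  intro B hB β θ hβ hβ1 hθ
  set C := ∫ s, ∑ j ∈ Finset.range (K + 1), s ^ j * Real.exp (1 / 2 * h s) ∂μ with hC
  have hC' : 0 ≤ C := integral_nonneg_of_ae hC0
  have hl := phi_lap hν (add_nonneg hβ hθ)
  have hm := phiA_momPoly H L K β
  have hle : ∀ᵐ s ∂μ, ENNReal.ofReal (∑ j ∈ Finset.range (K + 1), (β * s) ^ j / (j.factorial : ℝ) -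
        Real.exp (-(h B / 2)) * ∑ j ∈ Finset.range (K + 1), s ^ j * Real.exp (1 / 2 * h s)) ≤
      (Set.Iic B).indicator (fun _ => (1 : ℝ≥0∞)) s * ENNReal.ofReal (Real.exp (β * s)) := by
    filter_upwards [hpos] with s hs
    by_cases hsx : s ∈ Set.Iic B
    · rw [Set.indicator_of_mem hsx, one_mul]
      apply ENNReal.ofReal_le_ofReal
      have h1 := Real.sum_le_exp_of_nonneg (mul_nonneg hβ hs) (K + 1)
      have h2 : 0 ≤ Real.exp (-(h B / 2)) *
        ∑ j ∈ Finset.range (K + 1), s ^ j * Real.exp (1 / 2 * h s) := by positivity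
      linarith
    · rw [Set.indicator_of_notMem hsx, zero_mul]
      have hsB : B < s := not_le.1 hsx
      rw [nonpos_iff_eq_zero, ENNReal.ofReal_eq_zero, sub_nonpos, Finset.mul_sum]
      refine Finset.sum_le_sum fun j _ => ?_
      have h1 : (1 : ℝ) ≤ Real.exp (-(h B / 2)) * Real.exp (1 / 2 * h s) := by
        rw [← Real.exp_add]
        apply Real.one_le_exp
        have : h B ≤ h s := H.mono hsB.le
        linarith
      have h2 : (β * s) ^ j / (j.factorial : ℝ) ≤ s ^ j := by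
        have h3 : (β * s) ^ j ≤ s ^ j := by
          apply pow_le_pow_left₀ (by positivity)
          nlinarith
        have h4 : (1 : ℝ) ≤ (j.factorial : ℝ) := by
          exact_mod_cast Nat.one_le_iff_ne_zero.2 (Nat.factorial_ne_zero j)
        rw [div_le_iff₀ (by positivity)]
        have h5 : 0 ≤ s ^ j := by positivity
        nlinarith
      calc (β * s) ^ j / (j.factorial : ℝ) ≤ s ^ j := h2
        _ = s ^ j * 1 := (mul_one _).symm
        _ ≤ s ^ j * (Real.exp (-(h B / 2)) * Real.exp (1 / 2 * h s)) := by gcongr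
        _ = _ := by ring
  have hint : ENNReal.ofReal (momPoly μ K β - Real.exp (-(h B / 2)) * C) ≤
      ∫⁻ s, (Set.Iic B).indicator (fun _ => (1 : ℝ≥0∞)) s *
      ENNReal.ofReal (Real.exp (β * s)) ∂μ := by
    refine le_trans ?_ (lintegral_mono_ae hle)
    have h1 : momPoly μ K β - Real.exp (-(h B / 2)) * C =
        ∫ s, (∑ j ∈ Finset.range (K + 1), (β * s) ^ j / (j.factorial : ℝ) -
        Real.exp (-(h B / 2)) *
          ∑ j ∈ Finset.range (K + 1), s ^ j * Real.exp (1 / 2 * h s)) ∂μ := by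
      rw [integral_sub hm.1 (hi.const_mul _), hm.2, integral_const_mul]
    rw [h1]
    exact phi_ofReal_le (hm.1.sub (hi.const_mul _))
  rw [phi_factor hν hβ hθ]
  refine le_trans ?_ (mul_le_mul_left hint _)
  rw [← ENNReal.ofReal_mul' hl.2.1]
  apply ENNReal.ofReal_le_ofReal
  have h9 : 0 ≤ C * Real.exp (-(h B / 2)) := by positivity
  nlinarith [mul_le_mul_of_nonneg_left hl.2.2 h9]

end Pool.Agent.Lib.MP_04add8_pr.Cv
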