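import Mathlib
import Pool.Agent.Lib.MP_04add8_pr.Cv.RV

open MeasureTheory ProbabilityTheory Filter Topology
open scoped ENNReal

set_option linter.unusedSectionVars false

namespace Pool.Agent.Lib.MP_04add8_pr.Cv

open Pool.Agent.Lib.MP_04add8_pr.Gen

variable {h h' : ℝ → ℝ}

/-! Regime (i): `h' x ≤ x ^ (-d)` eventually, with `(K + 1) d > 1`. -/

/-- `x h' x → ∞` forces `d < 1` -/
lemma HazC.rate_lt_one (H : HazC h h') {d : ℝ} (hd : ∀ᶠ x : ℝ in atTop, h' x ≤ x ^ (-d)) :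
    d < 1 := by
  by_contra hc
  push Not at hc
  obtain ⟨x, h1, h2, h3⟩ := (hd.and ((H.big.eventually_gt_atTop 1).and
    (eventually_ge_atTop (1 : ℝ)))).exists
  have hx : 0 < x := by linarith
  have h4 : x ^ (-d) ≤ x ^ (-1 : ℝ) := Real.rpow_le_rpow_of_exponent_le h3 (by linarith)
  have h5 : x * h' x ≤ 1 := by
    calc x * h' x ≤ x * x ^ (-1 : ℝ) := mul_le_mul_of_nonneg_left (h1.trans h4) hx.le
      _ = 1 := by rw [Real.rpow_neg_one, mul_inv_cancel₀ hx.ne']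
  linarith

lemma HazC.one_le_of_rate (H : HazC h h') {d : ℝ} (hd : ∀ᶠ x : ℝ in atTop, h' x ≤ x ^ (-d))
    {K : ℕ} (hK : 1 < (K + 1) * d) : 1 ≤ K := by
  by_contra hcon
  have h0 : K = 0 := by omega
  subst h0
  have := H.rate_lt_one hd
  norm_num at hK
  linarith

private lemma Rate_pos {d : ℝ} {K : ℕ} (hK : 1 < (K + 1) * d) : 0 < d := by
  by_contra hc
  push Not at hc
  have : ((K : ℝ) + 1) * d ≤ 0 := mul_nonpos_of_nonneg_of_nonpos (by positivity) hc
  linarith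

/-- `h x ≤ C x ^ (1 - d)` -/
lemma HazC.le_rpow (H : HazC h h') {d : ℝ} (hd0 : 0 < d)
    (hd : ∀ᶠ x : ℝ in atTop, h' x ≤ x ^ (-d)) :
    ∃ C : ℝ, 0 < C ∧ ∀ᶠ x : ℝ in atTop, h x / x ≤ C * x ^ (-d) := by
  have hd1 := H.rate_lt_one hd
  obtain ⟨x1, hx1⟩ := hd.exists_forall_of_atTop
  obtain ⟨x0, hx0, hx01⟩ : ∃ x0 : ℝ, x1 ≤ x0 ∧ 1 ≤ x0 := ⟨max x1 1, le_max_left _ _, le_max_right _ _⟩
  have h1d : 0 < 1 - d := by linarith
  set C : ℝ := 1 / (1 - d) with hC
  have hC0 : 0 < C := by positivity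
  have hmono : MonotoneOn (fun x : ℝ => C * x ^ (1 - d) - h x) (Set.Ici x0) := by
    apply monotoneOn_of_hasDerivWithinAt_nonneg
      (f' := fun x => C * ((1 - d) * x ^ (1 - d - 1)) - h' x) (convex_Ici x0)
    · apply ContinuousOn.sub _ H.cont.continuousOn
      apply ContinuousOn.mul continuousOn_const
      exact (Real.continuous_rpow_const h1d.le).continuousOn
    · intro x hx
      rw [interior_Ici] at hx
      have hxpos : 0 < x := lt_trans (by linarith) hx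
      exact (((Real.hasDerivAt_rpow_const (Or.inl hxpos.ne')).const_mul C).sub
        (H.deriv x hxpos)).hasDerivWithinAt
    · intro x hx
      rw [interior_Ici] at hx
      have hx' : x0 < x := hx
      have h2 := hx1 x (by linarith)
      have h3 : C * ((1 - d) * x ^ (1 - d - 1)) = x ^ (-d) := by
        rw [hC, show (1 : ℝ) - d - 1 = -d by ring]
        field_simp
      rw [h3]
      linarith
  refine ⟨C + 1, by positivity, ?_⟩
  have hev : ∀ᶠ x : ℝ in atTop, h x0 ≤ x ^ (1 - d) := (tendsto_rpow_atTop h1d).eventually_ge_atTop _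
  filter_upwards [hev, eventually_ge_atTop x0] with x h2 h3
  have hx : 0 < x := by linarith
  have h4 := hmono (Set.mem_Ici.2 le_rfl) (Set.mem_Ici.2 h3) h3
  simp only at h4
  have h5 : 0 ≤ C * x0 ^ (1 - d) := mul_nonneg hC0.le (Real.rpow_nonneg (by linarith) _)
  rw [div_le_iff₀ hx]
  have h6 : (C + 1) * x ^ (-d) * x = (C + 1) * x ^ (1 - d) := by
    rw [mul_assoc, show (1 : ℝ) - d = -d + 1 by ring, Real.rpow_add_one hx.ne']
  rw [h6]
  linarith

private lemma Rate_pow {K : ℕ} {d : ℝ} (hK : 1 < (K + 1) * d) :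
    Tendsto (fun x : ℝ => x * (x ^ (-d)) ^ (K + 1)) atTop (𝓝 0) := by
  have he : 0 < (K + 1) * d - 1 := by linarith
  refine (tendsto_rpow_neg_atTop he).congr' ?_
  filter_upwards [eventually_gt_atTop 0] with x hx
  rw [← Real.rpow_natCast, ← Real.rpow_mul hx.le]
  push_cast
  have : x * x ^ (-d * ((K : ℝ) + 1)) = x ^ (1 + -d * ((K : ℝ) + 1)) := by
    rw [Real.rpow_add hx, Real.rpow_one]
  rw [this]
  congr 1
  ring

/-- `x (h x / x) ^ (K + 1) → 0` -/
lemma HazC.mul_pow_div (H : HazC h h') {d : ℝ} (hd : ∀ᶠ x : ℝ in atTop, h' x ≤ x ^ (-d))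
    {K : ℕ} (hK : 1 < (K + 1) * d) :
    Tendsto (fun x : ℝ => x * (h x / x) ^ (K + 1)) atTop (𝓝 0) := by
  obtain ⟨C, hC, hev⟩ := H.le_rpow (Rate_pos hK) hd
  have h1 := (Rate_pow hK).const_mul (C ^ (K + 1))
  rw [mul_zero] at h1
  refine tendsto_of_tendsto_of_tendsto_of_le_of_le' tendsto_const_nhds h1 ?_ ?_
  · filter_upwards [eventually_gt_atTop 0] with x hx
    exact mul_nonneg hx.le (pow_nonneg (div_nonneg (H.nonneg x) hx.le) _)
  · filter_upwards [hev, eventually_gt_atTop 0] with x hx hx0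
    calc x * (h x / x) ^ (K + 1) ≤ x * (C * x ^ (-d)) ^ (K + 1) := by
          have := pow_le_pow_left₀ (div_nonneg (H.nonneg x) hx0.le) hx (K + 1)
          gcongr
      _ = C ^ (K + 1) * (x * (x ^ (-d)) ^ (K + 1)) := by rw [mul_pow]; ring

/-- `x (h' (c x)) ^ (K + 1) → 0` -/
lemma HazC.mul_pow_deriv (H : HazC h h') {d : ℝ} (hd : ∀ᶠ x : ℝ in atTop, h' x ≤ x ^ (-d))
    {K : ℕ} (hK : 1 < (K + 1) * d) {c : ℝ} (hc : 0 < c) :
    Tendsto (fun x : ℝ => x * (h' (c * x)) ^ (K + 1)) atTop (𝓝 0) := by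
  have hcx : Tendsto (fun x : ℝ => c * x) atTop atTop := tendsto_id.const_mul_atTop hc
  have h1 := ((Rate_pow hK).comp hcx).const_mul (1 / c)
  rw [mul_zero] at h1
  refine tendsto_of_tendsto_of_tendsto_of_le_of_le' tendsto_const_nhds h1 ?_ ?_
  · filter_upwards [eventually_gt_atTop 0] with x hx
    exact mul_nonneg hx.le (pow_nonneg (H.pos _ (mul_pos hc hx)).le _)
  · filter_upwards [hcx.eventually hd, eventually_gt_atTop 0] with x hx hx0
    have h2 := pow_le_pow_left₀ (H.pos _ (mul_pos hc hx0)).le hx (K + 1)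
    calc x * (h' (c * x)) ^ (K + 1) ≤ x * ((c * x) ^ (-d)) ^ (K + 1) := by gcongr
      _ = 1 / c * (((c * x) * ((c * x) ^ (-d)) ^ (K + 1))) := by field_simp
      _ = _ := rfl

end Pool.Agent.Lib.MP_04add8_pr.Cv
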