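import Mathlib
import Pool.Agent.Lib.MP_04add8_pr.Cv.Phi
import Pool.Agent.Lib.MP_04add8_pr.Cv.Beta
import Pool.Agent.Lib.MP_04add8_pr.Cv.QU
import Pool.Agent.Lib.MP_04add8_pr.Cv.Rate
import Pool.Agent.Lib.MP_04add8_pr.Cv.SLvl
import Pool.Agent.Lib.MP_04add8_pr.One.OneMain

open MeasureTheory ProbabilityTheory Filter Topology
open scoped ENNReal

set_option linter.unusedSectionVars false

namespace Pool.Agent.Lib.MP_04add8_pr.Cv

open Pool.Agent.Lib.MP_04add8_pr.Gen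

variable {h h' : ℝ → ℝ} {μ ν : Measure ℝ} [IsProbabilityMeasure μ]
  [IsProbabilityMeasure ν]

private lemma OmTilt1_mono {h : ℝ → ℝ} {θ θ' B : ℝ} (hT : Tilt h θ' B) (hθ : θ ≤ θ') :
    Tilt h θ B :=
  fun s hs hsB => (mul_le_mul_of_nonneg_right hθ hs).trans (hT s hs hsB)

/-- Original: `om_tilt` in `One/OneMain.lean`. `tilt_upper` with
`φ = 1 + C1 β^(K+1)`, `β = cramerRoot θ ≤ η' θ ≤ A' h x / x`, `φ ^ N ≤ 1 + ω` because
`x (h x / x)^(K+1) → 0` (`HazC.mul_pow_div`). -/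
lemma gom_tilt (S : StdC μ ν h h') {B : ℝ → ℝ} (T : SLvl h B) {d : ℝ}
    (hd : ∀ᶠ x : ℝ in atTop, h' x ≤ x ^ (-d)) {K : ℕ} (hK : 1 < (K + 1) * d) (A : ℝ) :
    ∀ ω C : ℝ, 0 < ω →
    ∀ᶠ x : ℝ in atTop, ∀ θ : ℝ, 0 < θ → θ ≤ A * (h x / x) → ∀ N : ℕ, (N : ℝ) ≤ C * x →
      ∀ w : ℝ × ℝ, 0 ≤ w.1 → w.1 ≤ w.2 →
      ∑ n ∈ Finset.range N, tiltOne μ ν x (B x) θ n w ≤
        (∑ n ∈ Finset.range N, lvlA μ ν (B x) θ n) * ENNReal.ofReal (1 + ω) *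
          ENNReal.ofReal (Real.exp (-((θ + cramerRoot μ ν K θ) * (x - w.2)))) := by
  have H := S.haz
  have hK1 := H.one_le_of_rate hd hK
  obtain ⟨θ0, hθ0, hbas⟩ := gbeta_basic S hK1
  have hlim := gbeta_limit S hK1
  obtain ⟨θ1, hθ1, hsm⟩ := OneMainAux.ev_small hlim (σ := 1) one_pos
  obtain ⟨C1, hC1, hphi⟩ := gphi_upper S K
  have hη0 : 0 < eta μ ν := by linarith [two_lt_eta S]
  intro ω C hω
  have hx1 : Tendsto (fun x : ℝ => |A| * (h x / x)) atTop (𝓝 0) := by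
    simpa using H.tendsto_div.const_mul |A|
  have hev1 := hx1.eventually_lt_const hθ0
  have hev2 := hx1.eventually_lt_const hθ1
  obtain ⟨D, hD⟩ : ∃ D : ℝ, D = C1 * (eta μ ν * |A|) ^ (K + 1) := ⟨_, rfl⟩
  have hD0 : 0 ≤ D := by rw [hD]; positivity
  have hx2 : Tendsto (fun x : ℝ => |C| * D * (x * (h x / x) ^ (K + 1))) atTop (𝓝 0) := by
    simpa using (H.mul_pow_div hd hK).const_mul (|C| * D)
  have hev3 := hx2.eventually_lt_const (show 0 < Real.log (1 + ω) from Real.log_pos (by linarith))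
  filter_upwards [hev1, hev2, hev3, T.tilt (eta μ ν * |A|), eventually_gt_atTop 0] with x h1 h2 h3 h4 hx
    θ hθ hθ' N hN w hw0 hw1
  obtain ⟨r, hr⟩ : ∃ r : ℝ, r = h x / x := ⟨_, rfl⟩
  rw [← hr] at h1 h2 h3 h4 hθ'
  have hr0 : 0 ≤ r := by rw [hr]; exact div_nonneg (H.nonneg x) hx.le
  have hθ'' : θ ≤ |A| * r := hθ'.trans (mul_le_mul_of_nonneg_right (le_abs_self A) hr0)
  obtain ⟨hb1, hb2, -⟩ := hbas θ hθ (lt_of_le_of_lt hθ'' h1)
  obtain ⟨-, hs2⟩ := hsm θ hθ (lt_of_le_of_lt hθ'' h2)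
  set β := cramerRoot μ ν K θ with hβ
  have hβ0 : 0 ≤ β := hθ.le.trans hb1
  have hβ1 : β ≤ eta μ ν * |A| * r := by
    have h5 : β ≤ eta μ ν * θ := by linarith
    have h6 : eta μ ν * θ ≤ eta μ ν * (|A| * r) := mul_le_mul_of_nonneg_left hθ'' hη0.le
    linarith
  have hφ : trPhi μ ν (B x) β θ ≤ ENNReal.ofReal (1 + D * r ^ (K + 1)) := by
    refine (hphi (B x) β θ hβ0 hθ.le (OmTilt1_mono h4 hβ1)).trans (ENNReal.ofReal_le_ofReal ?_)
    rw [hb2]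
    have h5 : β ^ (K + 1) ≤ (eta μ ν * |A| * r) ^ (K + 1) := pow_le_pow_left₀ hβ0 hβ1 _
    rw [mul_pow] at h5
    calc 1 + C1 * β ^ (K + 1) ≤ 1 + C1 * ((eta μ ν * |A|) ^ (K + 1) * r ^ (K + 1)) := by gcongr
      _ = _ := by rw [hD]; ring
  have hφ1 : (1 : ℝ≥0∞) ≤ ENNReal.ofReal (1 + D * r ^ (K + 1)) := by
    rw [← ENNReal.ofReal_one]
    exact ENNReal.ofReal_le_ofReal (by linarith [show 0 ≤ D * r ^ (K + 1) by positivity])
  have h6 := tilt_upper (μ := μ) (ν := ν) hθ.le hb1 hφ1 hφ N x hw0 hw1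
  refine h6.trans ?_
  gcongr
  rw [← ENNReal.ofReal_pow (by positivity)]
  refine ENNReal.ofReal_le_ofReal ?_
  calc (1 + D * r ^ (K + 1)) ^ N
      ≤ (Real.exp (D * r ^ (K + 1))) ^ N := by
        refine pow_le_pow_left₀ (by positivity) ?_ _
        rw [add_comm]
        exact Real.add_one_le_exp _
    _ = Real.exp (N * (D * r ^ (K + 1))) := by rw [← Real.exp_nat_mul]
    _ ≤ Real.exp (Real.log (1 + ω)) := by
        refine Real.exp_le_exp.2 (le_trans ?_ h3.le)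
        have : (N : ℝ) ≤ |C| * x := hN.trans (mul_le_mul_of_nonneg_right (le_abs_self C) hx.le)
        calc (N : ℝ) * (D * r ^ (K + 1)) ≤ (|C| * x) * (D * r ^ (K + 1)) := by
              gcongr
          _ = _ := by ring
    _ = 1 + ω := Real.exp_log (by linarith)

end Pool.Agent.Lib.MP_04add8_pr.Cv
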