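import Mathlib
import Pool.Agent.Lib.MP_04add8_pr.Cv.RV

open MeasureTheory ProbabilityTheory Filter Topology
open scoped ENNReal

set_option linter.unusedSectionVars false

namespace Pool.Agent.Lib.MP_04add8_pr.Cv

open Pool.Agent.Lib.MP_04add8_pr.Gen

variable {h h' : ℝ → ℝ} {μ ν : Measure ℝ} [IsProbabilityMeasure μ]
  [IsProbabilityMeasure ν]

/-- pointwise bound far from `y`. Original: `One/Pt.lean`. `X' < (1-ε/4) y`: the bound
`exp (-h X') ≤ 1`. `(1+ε/4) y < X' ≤ 2 y`: `h X' ≥ h y + (X' - y) h' (2y)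
≥ h y + 2 c h' y (X' - y)`, `2 c = 2^(-C)` (`HazC.doubling`), `δ = c ε / 4`. `X' > 2 y`: the last
term. -/
theorem gpt (H : HazC h h') {ε : ℝ} (hε : 0 < ε) (hε1 : ε ≤ 1 / 2) :
    ∃ δ c : ℝ, 0 < δ ∧ 0 < c ∧ c ≤ 1 ∧ ∀ y : ℝ, 0 < y → ∀ T : ℝ, 0 ≤ T →
      ∀ X' : ℝ, ε / 4 * y < |X' - y| →
      Real.exp (-(h X')) ≤
        Real.exp (T * ((1 - ε / 4) * y) - T * X') +
        Real.exp (-(h y + δ * (y * h' y) + c * h' y * (X' - y))) +
        Real.exp (-(h (2 * y))) := by
  obtain ⟨C, hC, hdb⟩ := H.doubling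
  set q : ℝ := ((2 : ℝ) ^ C)⁻¹ with hq
  have h2C : (1 : ℝ) ≤ 2 ^ C := Real.one_le_rpow (by norm_num) hC
  have hq0 : 0 < q := by positivity
  have hq1 : q ≤ 1 := inv_le_one_of_one_le₀ h2C
  refine ⟨q * ε / 8, q / 2, by positivity, by positivity, by linarith, ?_⟩
  intro y hy T hT X' hX
  have e1 := Real.exp_pos (T * ((1 - ε / 4) * y) - T * X')
  have e2 := Real.exp_pos (-(h y + q * ε / 8 * (y * h' y) + q / 2 * h' y * (X' - y)))
  have e3 := Real.exp_pos (-(h (2 * y)))
  by_cases hc : X' < y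
  · have h1 : X' < (1 - ε / 4) * y := by
      rw [abs_of_neg (by linarith)] at hX
      linarith
    have h2 : Real.exp (-(h X')) ≤ Real.exp (T * ((1 - ε / 4) * y) - T * X') := by
      apply Real.exp_le_exp.mpr
      have h3 := H.nonneg X'
      have h4 : T * X' ≤ T * ((1 - ε / 4) * y) := mul_le_mul_of_nonneg_left h1.le hT
      linarith
    linarith
  · push Not at hc
    have h1 : ε / 4 * y < X' - y := by
      rwa [abs_of_nonneg (by linarith)] at hX
    have hX0 : 0 < X' := by linarith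
    by_cases h4 : 2 * y ≤ X'
    · have h2 : Real.exp (-(h X')) ≤ Real.exp (-(h (2 * y))) :=
        Real.exp_le_exp.mpr (neg_le_neg (H.mono h4))
      linarith
    · push Not at h4
      have h5 := H.lower_deriv hy.le hc hX0
      have h6 : h' (2 * y) ≤ h' X' := H.anti X' (2 * y) hX0 h4.le
      have h7 : q * h' y ≤ h' (2 * y) := by
        have h8 := hdb y 2 hy (by norm_num)
        rw [hq, inv_mul_le_iff₀ (by positivity)]
        exact h8
      have hpy : 0 < h' y := H.pos y hy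
      have h9 : (X' - y) * (q * h' y) ≤ h X' - h y :=
        (mul_le_mul_of_nonneg_left (h7.trans h6) (by linarith)).trans h5
      have h10 : ε / 4 * y * (q * h' y) ≤ (X' - y) * (q * h' y) :=
        mul_le_mul_of_nonneg_right h1.le (by positivity)
      have h2 : Real.exp (-(h X')) ≤
          Real.exp (-(h y + q * ε / 8 * (y * h' y) + q / 2 * h' y * (X' - y))) := by
        apply Real.exp_le_exp.mpr
        nlinarith
      linarith

end Pool.Agent.Lib.MP_04add8_pr.Cv
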