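import Mathlib
import Pool.Agent.Lib.MP_04add8_pr.Cv.ConeA
import Pool.Agent.Lib.MP_04add8_pr.Cv.OnePt
import Pool.Agent.Lib.MP_04add8_pr.Cv.LinM

open MeasureTheory ProbabilityTheory Filter Topology
open scoped ENNReal

set_option linter.unusedSectionVars false

namespace Pool.Agent.Lib.MP_04add8_pr.Cv

open Pool.Agent.Lib.MP_04add8_pr.Gen

variable {h h' : ℝ → ℝ} {μ ν : Measure ℝ} [IsProbabilityMeasure μ]
  [IsProbabilityMeasure ν]

private lemma ConeB_ge {b R : ℝ} (hb : 0 < b) {w : ℝ × ℝ} : w.2 ≤ bigA b R w := by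
  unfold bigA
  have : 0 ≤ √(w.1 ^ 2 + R ^ 2) / b := div_nonneg (Real.sqrt_nonneg _) hb.le
  linarith

private lemma ConeB_up {b R : ℝ} (hb : 0 < b) (hR : 0 < R) {w : ℝ × ℝ} (h0 : 0 ≤ w.1)
    (h1 : w.1 ≤ w.2) (h2 : R ≤ w.2) : bigA b R w ≤ 2 * (1 + 1 / b) * w.2 := by
  have h3 : √(w.1 ^ 2 + R ^ 2) ≤ w.2 + R := by
    apply Real.sqrt_le_iff.mpr
    constructor
    · linarith
    · nlinarith
  have h4 : √(w.1 ^ 2 + R ^ 2) / b ≤ (w.2 + w.2) / b :=
    div_le_div_of_nonneg_right (by linarith) hb.le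
  have h5 : 2 * (1 + 1 / b) * w.2 = w.2 + (w.2 + w.2) / b + w.2 := by
    field_simp
    ring
  rw [h5]
  unfold bigA
  linarith

/-- **nonsmall job after a start close to the level `v x`** -/
theorem late_sum (S : StdC μ ν h h') {B v : ℝ → ℝ} (TB : SLvl h B)
    (hv : ∀ e : ℝ, 0 < e → ∀ᶠ x : ℝ in atTop, v x ≤ e * x)
    (hvt : Tendsto v atTop atTop)
    (hlin : ∀ M : ℝ, ∀ᶠ x : ℝ in atTop, ∀ w : ℝ, 0 ≤ w → w ≤ v x → M * h' x * w ≤ h w) {d : ℝ}
    (hd : ∀ᶠ x : ℝ in atTop, h' x ≤ x ^ (-d)) {K : ℕ} (hK : 1 < (K + 1) * d)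
    (hmid : ∀ M : ℝ, ∀ᶠ x : ℝ in atTop, ∀ π : Measure (ℝ × ℝ), IsStationaryKW μ ν π →
      ∫⁻ w, ({w : ℝ × ℝ | v x / 2 ≤ w.2 ∧ w.2 ≤ v x}).indicator
        (fun w => ENNReal.ofReal (Real.exp (h w.2 / 4))) w ∂π ≤ ENNReal.ofReal (x ^ (-M)))
    {ω : ℝ} (hω : 0 < ω) :
    ∀ᶠ x : ℝ in atTop, ∀ π : Measure (ℝ × ℝ), IsStationaryKW μ ν π → ∀ N : ℕ,
      (N : ℝ) ≤ 2 * x ^ 20 →
      ∑ k ∈ Finset.range N, ∑ m ∈ Finset.range N, (π.prod (noise μ ν))
        (Clate x (v x) (B x) k m) ≤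
      ENNReal.ofReal (ω * (fOneH h h' μ ν K x + (Qf h h' x) ^ 2)) := by
  have H := S.haz
  have hη2 := two_lt_eta S
  obtain ⟨η, hη⟩ : ∃ η, η = eta μ ν := ⟨_, rfl⟩
  have hη0 : 0 < η := by rw [hη]; linarith
  have hη1 : 1 ≤ η := by rw [hη]; linarith
  obtain ⟨ε0, hε0, hε1, hpt⟩ := gone_pt S TB hd hK
  obtain ⟨b, hb, hb1, hbm⟩ := exists_b S.hm S.hgt S.hlt
  obtain ⟨R, C, θ0, hR, hC, hθ0, hmom⟩ := glin_mom S hb hb1 hbm
  obtain ⟨κ, hκ⟩ : ∃ κ : ℝ, κ = 2 * (1 + 1 / b) := ⟨_, rfl⟩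
  have hκ0 : 0 < κ := by rw [hκ]; positivity
  have hηt : Tendsto (fun x : ℝ => η * x) atTop atTop := tendsto_id.const_mul_atTop hη0
  have ht1 : Tendsto (fun x => 2 * η * h' (η * x)) atTop (𝓝 (2 * η * 0)) :=
    (H.tendsto_deriv.comp hηt).const_mul _
  rw [mul_zero] at ht1
  have ht2 : Tendsto (fun x => 16 / ε0 * (h x / x)) atTop (𝓝 (16 / ε0 * 0)) :=
    H.tendsto_div.const_mul _
  rw [mul_zero] at ht2
  filter_upwards [hpt, H.log_le 21, ht1.eventually (ge_mem_nhds hθ0),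
    ht2.eventually (ge_mem_nhds hθ0), TB.tilt (2 * η / b), TB.tilt (16 / ε0 / b),
    hlin (8 * η * κ), hv (ε0 / (2 * κ)) (by positivity), hvt.eventually_ge_atTop (2 * R),
    hmid 41, gerr_two H (δ := 6) (ω := ω / 2) (by norm_num) (by positivity)
      (4 * (1 + 2 * C)) 60,
    eventually_ge_atTop (16 * (2 + 4 * C) / ω), eventually_ge_atTop 2,
    H.tendsto_h.eventually_gt_atTop 0] with x e1 e2 e3 e4 e5 e6 e7 e8 e9 e10 e11 e12 hx2 hhx
    π hπ N hN
  have hx : 0 < x := by linarith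
  have hp : IsProbabilityMeasure π := hπ.1
  obtain ⟨f, hf⟩ : ∃ f, f = fOneH h h' μ ν K x := ⟨_, rfl⟩
  have hf0 : 0 < f := by rw [hf]; exact fOneH_pos S hx
  obtain ⟨Q2, hQ2⟩ : ∃ Q2, Q2 = (Qf h h' x) ^ 2 := ⟨_, rfl⟩
  have hQ20 : 0 ≤ Q2 := by rw [hQ2]; positivity
  rw [← hf, ← hQ2, ← hη] at e1
  rw [← hQ2] at e11
  rw [← hf, ← hQ2]
  have hNe : (N : ℝ) ≤ Real.exp (h x) := by
    refine hN.trans ?_
    have h1 : Real.exp (21 * Real.log x) = x ^ 21 := by
      rw [mul_comm, Real.exp_mul, Real.exp_log hx]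
      norm_cast
    have h2 : Real.exp (21 * Real.log x) ≤ Real.exp (h x) := Real.exp_le_exp.2 e2
    rw [h1] at h2
    refine le_trans ?_ h2
    have h3 : x ^ 21 = x * x ^ 20 := by ring
    rw [h3]
    gcongr
  have hxη : 0 < η * x := by positivity
  have hhη : 0 < h' (η * x) := H.pos _ hxη
  have hh'le : h' (η * x) ≤ h' x := H.anti _ _ hx (le_mul_of_one_le_left hx.le hη1)
  have hh'x : h' x ≤ h x / x := by
    rw [le_div_iff₀ hx]
    have := H.mul_deriv_le hx
    linarith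
  have hq : 0 < h x / x := by positivity
  obtain ⟨θ, hθ⟩ : ∃ θ, θ = 2 * η * h' (η * x) := ⟨_, rfl⟩
  have hθp : 0 < θ := by rw [hθ]; positivity
  obtain ⟨T, hT⟩ : ∃ T, T = 16 / ε0 * (h x / x) := ⟨_, rfl⟩
  have hTp : 0 < T := by rw [hT]; positivity
  rw [← hθ] at e1 e3
  rw [← hT] at e4
  have hTε : T * (ε0 * x) = 16 * h x := by rw [hT]; field_simp
  have htilt1 : ∀ s : ℝ, 0 ≤ s → s ≤ B x → θ * (s / b) ≤ h s / 2 := by
    intro s hs hsB
    have h1 := e5 s hs hsB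
    have h2 : θ * (s / b) ≤ 2 * η / b * (h x / x) * s := by
      have h3 : θ ≤ 2 * η * (h x / x) := by
        rw [hθ]
        gcongr
        linarith
      calc θ * (s / b) ≤ 2 * η * (h x / x) * (s / b) := by gcongr
        _ = 2 * η / b * (h x / x) * s := by ring
    have := H.nonneg s
    linarith
  have htilt2 : ∀ s : ℝ, 0 ≤ s → s ≤ B x → T * (s / b) ≤ h s / 2 := by
    intro s hs hsB
    have h1 := e6 s hs hsB
    have h2 : T * (s / b) = 16 / ε0 / b * (h x / x) * s := by rw [hT]; ring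
    have := H.nonneg s
    linarith
  have hm1 := hmom θ (B x) hθp e3 htilt1
  have hm2 := hmom T (B x) hTp e4 htilt2
  obtain ⟨c1, hc1⟩ : ∃ c1, c1 = 8 * (f + Q2) := ⟨_, rfl⟩
  have hc10 : 0 ≤ c1 := by rw [hc1]; positivity
  obtain ⟨c2, hc2⟩ : ∃ c2, c2 = N * Real.exp (-(16 * h x)) := ⟨_, rfl⟩
  have hc20 : 0 ≤ c2 := by rw [hc2]; positivity
  rw [← hc1] at e1
  have hpp : ∀ y : ℝ × ℝ, 0 ≤ y.1 → y.1 ≤ y.2 →
      ∑ m ∈ Finset.range N, (noise μ ν) {z' | (y, z') ∈ oneBig x (B x) (B x) m} ≤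
        ENNReal.ofReal (c1 * Real.exp (θ * bigA b R y)) +
          ENNReal.ofReal (c2 * Real.exp (T * bigA b R y)) := by
    intro y hy0 hy1
    rcases le_or_gt y.2 (ε0 * x) with hy | hy
    · refine (e1 y hy0 hy1 hy N hNe).trans (le_trans ?_ le_self_add)
      apply ENNReal.ofReal_le_ofReal
      apply mul_le_mul_of_nonneg_left _ hc10
      exact Real.exp_le_exp.2 (mul_le_mul_of_nonneg_left (ConeB_ge hb) hθp.le)
    · refine le_trans ?_ le_add_self
      have h1 : ∑ m ∈ Finset.range N, (noise μ ν) {z' | (y, z') ∈ oneBig x (B x) (B x) m} ≤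
          ∑ m ∈ Finset.range N, (1 : ℝ≥0∞) := Finset.sum_le_sum fun m _ => prob_le_one
      refine h1.trans ?_
      rw [Finset.sum_const, Finset.card_range, nsmul_eq_mul, mul_one, ← ENNReal.ofReal_natCast]
      apply ENNReal.ofReal_le_ofReal
      have h2 : 16 * h x ≤ T * bigA b R y := by
        rw [← hTε]
        exact mul_le_mul_of_nonneg_left (hy.le.trans (ConeB_ge hb)) hTp.le
      have h3 : 1 ≤ Real.exp (-(16 * h x)) * Real.exp (T * bigA b R y) := by
        rw [← Real.exp_add]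
        exact Real.one_le_exp (by linarith)
      calc (N : ℝ) = N * 1 := by ring
        _ ≤ N * (Real.exp (-(16 * h x)) * Real.exp (T * bigA b R y)) := by gcongr
        _ = c2 * Real.exp (T * bigA b R y) := by rw [hc2]; ring
  -- constants
  obtain ⟨c, hc⟩ : ∃ c, c = c1 * (1 + C * N) := ⟨_, rfl⟩
  have hc0 : 0 ≤ c := by rw [hc]; positivity
  obtain ⟨T1, hT1⟩ : ∃ T1, T1 = N * (1 + C * N) * Real.exp (-(8 * h x)) := ⟨_, rfl⟩
  have hT10 : 0 ≤ T1 := by rw [hT1]; positivity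
  have hk : ∀ k ∈ Finset.range N, ∑ m ∈ Finset.range N, (π.prod (noise μ ν))
      (Clate x (v x) (B x) k m) ≤ ENNReal.ofReal (c * x ^ (-(41 : ℝ)) + T1) := by
    intro k hk
    have hkN : (k : ℝ) ≤ N := by exact_mod_cast (Finset.mem_range.1 hk).le
    have hk0 : (0 : ℝ) ≤ k := Nat.cast_nonneg k
    refine Clate_pi (h := h) hc0 hT10 hπ (by positivity) ?_ (e10 π hπ)
    intro w hw0 hw1 hw2 hw3
    have hwR : R ≤ w.2 := by linarith
    have hw20 : 0 ≤ w.2 := hw0.trans hw1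
    have hA : bigA b R w ≤ κ * w.2 := by rw [hκ]; exact ConeB_up hb hR hw0 hw1 hwR
    have hA1 : θ * bigA b R w ≤ h w.2 / 4 := by
      have h1 := e7 w.2 hw20 hw3
      have h2 : θ * bigA b R w ≤ 2 * η * h' x * (κ * w.2) := by
        rw [hθ]
        have : 2 * η * h' (η * x) ≤ 2 * η * h' x := by gcongr
        calc 2 * η * h' (η * x) * bigA b R w ≤ 2 * η * h' (η * x) * (κ * w.2) := by gcongr
          _ ≤ _ := by gcongr
      linarith
    have hA2 : T * bigA b R w ≤ 8 * h x := by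
      have h1 : κ * w.2 ≤ ε0 * x / 2 := by
        calc κ * w.2 ≤ κ * (ε0 / (2 * κ) * x) := by
              apply mul_le_mul_of_nonneg_left (hw3.trans e8) hκ0.le
          _ = ε0 * x / 2 := by field_simp
      calc T * bigA b R w ≤ T * (ε0 * x / 2) :=
            mul_le_mul_of_nonneg_left (hA.trans h1) hTp.le
        _ = T * (ε0 * x) / 2 := by ring
        _ = 8 * h x := by rw [hTε]; ring
    refine (Clate_w hc10 hc20 hw0 hw1 hpp (hm1 w hw0 hw1 k) (hm2 w hw0 hw1 k)).trans ?_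
    apply add_le_add
    · apply ENNReal.ofReal_le_ofReal
      have h1 : Real.exp (θ * bigA b R w) ≤ Real.exp (h w.2 / 4) := Real.exp_le_exp.2 hA1
      have h2 : 1 ≤ Real.exp (h w.2 / 4) := Real.one_le_exp (by
        have := H.nonneg w.2
        positivity)
      have h3 : C * k ≤ C * N * Real.exp (h w.2 / 4) := by
        calc C * (k : ℝ) ≤ C * N := by gcongr
          _ = C * N * 1 := by ring
          _ ≤ _ := by gcongr
      calc c1 * (Real.exp (θ * bigA b R w) + C * k) ≤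
          c1 * (Real.exp (h w.2 / 4) + C * N * Real.exp (h w.2 / 4)) := by gcongr
        _ = c * Real.exp (h w.2 / 4) := by rw [hc]; ring
    · apply ENNReal.ofReal_le_ofReal
      have h1 : Real.exp (T * bigA b R w) ≤ Real.exp (8 * h x) := Real.exp_le_exp.2 hA2
      have h2 : 1 ≤ Real.exp (8 * h x) := Real.one_le_exp (by positivity)
      have h3 : C * k ≤ C * N * Real.exp (8 * h x) := by
        calc C * (k : ℝ) ≤ C * N := by gcongr
          _ = C * N * 1 := by ring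
          _ ≤ _ := by gcongr
      have h4 : Real.exp (-(16 * h x)) * Real.exp (8 * h x) = Real.exp (-(8 * h x)) := by
        rw [← Real.exp_add]
        congr 1
        ring
      calc c2 * (Real.exp (T * bigA b R w) + C * k) ≤
          c2 * (Real.exp (8 * h x) + C * N * Real.exp (8 * h x)) := by gcongr
        _ = N * (1 + C * N) * (Real.exp (-(16 * h x)) * Real.exp (8 * h x)) := by
            rw [hc2]; ring
        _ = T1 := by rw [h4, hT1]
  refine (Finset.sum_le_sum hk).trans ?_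
  rw [Finset.sum_const, Finset.card_range, nsmul_eq_mul, ← ENNReal.ofReal_natCast,
    ← ENNReal.ofReal_mul (Nat.cast_nonneg N)]
  apply ENNReal.ofReal_le_ofReal
  have hN0 : (0 : ℝ) ≤ N := Nat.cast_nonneg N
  have hx1 : 1 ≤ x := by linarith
  have hx20 : 1 ≤ x ^ 20 := one_le_pow₀ hx1
  have hN1 : (1 : ℝ) + C * N ≤ (1 + 2 * C) * x ^ 20 := by
    have : C * N ≤ C * (2 * x ^ 20) := by gcongr
    linarith
  have h41 : x ^ 40 * x ^ (-(41 : ℝ)) = 1 / x := by
    have h1 : x ^ (-(41 : ℝ)) = (x ^ 41)⁻¹ := by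
      rw [Real.rpow_neg hx.le]
      norm_cast
    rw [h1]
    field_simp
  have hA : (N : ℝ) * (c * x ^ (-(41 : ℝ))) ≤ ω / 2 * (f + Q2) := by
    have hp41 : 0 ≤ x ^ (-(41 : ℝ)) := by positivity
    calc (N : ℝ) * (c * x ^ (-(41 : ℝ))) = N * ((1 + C * N) * (c1 * x ^ (-(41 : ℝ)))) := by
          rw [hc]; ring
      _ ≤ 2 * x ^ 20 * ((1 + 2 * C) * x ^ 20 * (c1 * x ^ (-(41 : ℝ)))) := by gcongr
      _ = (2 + 4 * C) * c1 * (x ^ 40 * x ^ (-(41 : ℝ))) := by ring
      _ = 8 * (2 + 4 * C) / x * (f + Q2) := by rw [h41, hc1]; ring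
      _ ≤ ω / 2 * (f + Q2) := by
          apply mul_le_mul_of_nonneg_right _ (by positivity)
          rw [div_le_iff₀ hx]
          rw [div_le_iff₀ hω] at e12
          linarith
  have hB : (N : ℝ) * T1 ≤ ω / 2 * Q2 := by
    refine le_trans ?_ e11
    have h60 : x ^ (60 : ℝ) = x ^ 60 := by norm_cast
    have h8 : (2 + 6 : ℝ) * h x = 8 * h x := by ring
    rw [h60, h8]
    calc (N : ℝ) * T1 = N * (N * (1 + C * N) * Real.exp (-(8 * h x))) := by rw [hT1]
      _ ≤ 2 * x ^ 20 * (2 * x ^ 20 * ((1 + 2 * C) * x ^ 20) * Real.exp (-(8 * h x))) := by gcongr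
      _ = 4 * (1 + 2 * C) * x ^ 60 * Real.exp (-(8 * h x)) := by ring
  have h3 : 0 ≤ ω / 2 * f := by positivity
  rw [mul_add]
  nlinarith

/-- **only small jobs** -/
theorem csm_sum (S : StdC μ ν h h') {B v : ℝ → ℝ} (TB : SLvl h B)
    (hv : ∀ e : ℝ, 0 < e → ∀ᶠ x : ℝ in atTop, v x ≤ e * x)
    {ω : ℝ} (hω : 0 < ω) :
    ∀ᶠ x : ℝ in atTop, ∀ π : Measure (ℝ × ℝ), IsStationaryKW μ ν π → ∀ N : ℕ,
      (N : ℝ) ≤ 2 * x ^ 20 →
      ∑ n ∈ Finset.range N, (π.prod (noise μ ν)) (Csm x (v x) (B x) (n + 1)) ≤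
      ENNReal.ofReal (ω * (Qf h h' x) ^ 2) := by
  have H := S.haz
  obtain ⟨δ', C, hδ', hC, hso⟩ := gsmall_only S TB
  filter_upwards [hso 8 (by norm_num), hv (1 / 2) (by norm_num),
    gerr_two H (δ := 2) (ω := ω) (by norm_num) hω (24 * C) 40, eventually_ge_atTop 1,
    H.tendsto_h.eventually_gt_atTop 0] with x e1 e2 e3 hx1 hhx π hπ N hN
  have hx : 0 < x := by linarith
  have hp : IsProbabilityMeasure π := hπ.1
  have hone : ∀ n ∈ Finset.range N, (π.prod (noise μ ν)) (Csm x (v x) (B x) (n + 1)) ≤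
      ENNReal.ofReal (2 * C * (N + 1) * Real.exp (-(4 * h x))) := by
    intro n hn
    have hnN : (n : ℝ) + 1 ≤ N := by exact_mod_cast Finset.mem_range.1 hn
    rw [Measure.prod_apply (measurableSet_Csm _ _ _ _)]
    calc ∫⁻ w, (noise μ ν) (Prod.mk w ⁻¹' Csm x (v x) (B x) (n + 1)) ∂π ≤
        ∫⁻ _w, ENNReal.ofReal (2 * C * (N + 1) * Real.exp (-(4 * h x))) ∂π := by
          apply lintegral_mono_ae
          filter_upwards [hπ.ae_ordered] with w hw
          by_cases hwv : w.2 ≤ v x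
          · refine (measure_mono (t := allLe (B x) (n + 1) ∩ {z | x < (pIter w z (n + 1)).1})
              ?_).trans ((e1 w hw.1 hw.2 (n + 1)).trans ?_)
            · intro z hz
              exact ⟨hz.2.1, hz.2.2⟩
            · apply ENNReal.ofReal_le_ofReal
              have h1 : 8 * (h x / x) * (w.2 - δ' * ((n + 1 : ℕ) : ℝ)) ≤ 4 * h x := by
                have h2 : w.2 - δ' * ((n + 1 : ℕ) : ℝ) ≤ x / 2 := by
                  have : 0 ≤ δ' * ((n + 1 : ℕ) : ℝ) := by positivity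
                  linarith
                calc 8 * (h x / x) * (w.2 - δ' * ((n + 1 : ℕ) : ℝ)) ≤ 8 * (h x / x) * (x / 2) :=
                      mul_le_mul_of_nonneg_left h2 (by positivity)
                  _ = 4 * h x := by field_simp; norm_num
              have h3 : Real.exp (8 * (h x / x) * (w.2 - δ' * ((n + 1 : ℕ) : ℝ))) ≤
                  Real.exp (4 * h x) := Real.exp_le_exp.2 h1
              have h4 : (1 : ℝ) ≤ Real.exp (4 * h x) := Real.one_le_exp (by positivity)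
              have h5 : Real.exp (-(8 * h x)) * Real.exp (4 * h x) = Real.exp (-(4 * h x)) := by
                rw [← Real.exp_add]
                congr 1
                ring
              have h6 : ((n + 1 : ℕ) : ℝ) + 1 ≤ N + 1 := by push_cast; linarith
              calc C * (((n + 1 : ℕ) : ℝ) + 1) * Real.exp (-(8 * h x)) *
                  (1 + Real.exp (8 * (h x / x) * (w.2 - δ' * ((n + 1 : ℕ) : ℝ)))) ≤
                  C * (N + 1) * Real.exp (-(8 * h x)) * (2 * Real.exp (4 * h x)) := by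
                    have h7 : 1 + Real.exp (8 * (h x / x) * (w.2 - δ' * ((n + 1 : ℕ) : ℝ))) ≤
                      2 * Real.exp (4 * h x) := by linarith
                    gcongr
                _ = 2 * C * (N + 1) * (Real.exp (-(8 * h x)) * Real.exp (4 * h x)) := by ring
                _ = 2 * C * (N + 1) * Real.exp (-(4 * h x)) := by rw [h5]
          · have : Prod.mk w ⁻¹' Csm x (v x) (B x) (n + 1) = ∅ := by
              ext z
              simp only [Set.mem_preimage, Set.mem_empty_iff_false, iff_false]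
              intro hz
              exact hwv hz.1
            rw [this, measure_empty]
            exact zero_le
      _ = ENNReal.ofReal (2 * C * (N + 1) * Real.exp (-(4 * h x))) := by
          rw [lintegral_const, measure_univ, mul_one]
  refine (Finset.sum_le_sum hone).trans ?_
  rw [Finset.sum_const, Finset.card_range, nsmul_eq_mul, ← ENNReal.ofReal_natCast,
    ← ENNReal.ofReal_mul (Nat.cast_nonneg N)]
  apply ENNReal.ofReal_le_ofReal
  refine le_trans ?_ e3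
  have hN0 : (0 : ℝ) ≤ N := Nat.cast_nonneg N
  have hx20 : 1 ≤ x ^ 20 := one_le_pow₀ hx1
  have hN1 : (N : ℝ) + 1 ≤ 3 * x ^ 20 := by linarith
  have h40 : x ^ (40 : ℝ) = x ^ 40 := by norm_cast
  have h4 : (2 + 2 : ℝ) * h x = 4 * h x := by ring
  rw [h40, h4]
  calc (N : ℝ) * (2 * C * (N + 1) * Real.exp (-(4 * h x))) ≤
      2 * x ^ 20 * (2 * C * (3 * x ^ 20) * Real.exp (-(4 * h x))) := by gcongr
    _ = 12 * C * x ^ 40 * Real.exp (-(4 * h x)) := by ring
    _ ≤ 24 * C * x ^ 40 * Real.exp (-(4 * h x)) := by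
        have : 0 ≤ C * x ^ 40 * Real.exp (-(4 * h x)) := by positivity
        nlinarith

end Pool.Agent.Lib.MP_04add8_pr.Cv
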