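import Mathlib
import Pool.Agent.Lib.MP_04add8_pr.Cv.Lin
import Pool.Agent.Lib.MP_04add8_pr.Cv.Err
import Pool.Agent.Lib.MP_04add8_pr.Cv.TailInt
import Pool.Agent.Lib.MP_04add8_pr.Two.Det1
import Pool.Agent.Lib.MP_04add8_pr.One.Union

open MeasureTheory ProbabilityTheory Filter Topology
open scoped ENNReal

set_option linter.unusedSectionVars false

namespace Pool.Agent.Lib.MP_04add8_pr.Cv

open Pool.Agent.Lib.MP_04add8_pr.Gen

variable {h h' : ℝ → ℝ} {μ ν : Measure ℝ} [IsProbabilityMeasure μ]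
  [IsProbabilityMeasure ν]

private lemma OneFar_bigA_le {bh R x y : ℝ} (hbh : 0 < bh) (hR : 0 < R) {v : ℝ × ℝ}
    (h1 : 0 ≤ v.1) (h2 : v.1 ≤ x) (h3 : v.2 ≤ y) : bigA bh R v ≤ y + (x + R) / bh := by
  unfold bigA
  have h4 : √(v.1 ^ 2 + R ^ 2) ≤ x + R := by
    rw [Real.sqrt_le_iff]
    constructor
    · linarith
    · nlinarith
  have h5 : √(v.1 ^ 2 + R ^ 2) / bh ≤ (x + R) / bh := div_le_div_of_nonneg_right h4 hbh.le
  linarith

private lemma OneFar_bigA_ge {bh R : ℝ} (hbh : 0 < bh) {v : ℝ × ℝ} : v.2 ≤ bigA bh R v := by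
  unfold bigA
  have : 0 ≤ √(v.1 ^ 2 + R ^ 2) / bh := div_nonneg (Real.sqrt_nonneg _) hbh.le
  linarith

/-- the bound for one `n` -/
private lemma OneFar_one (S : StdC μ ν h h') {bh R δ C1 B0 x : ℝ} {n : ℕ} (hbh : 0 < bh)
    (hR : 0 < R) (hδ : 0 < δ) (hx : 0 < x)
    (hg : ∀ v : ℝ × ℝ, 0 ≤ v.1 → v.1 ≤ v.2 → ∀ (n : ℕ) (Y : ℝ),
        (noise μ ν) (allLe B0 n ∩ {z | Y ≤ bigA bh R (pIter v z n)}) ≤
          ENNReal.ofReal (C1 * (n + 1) *
            Real.exp (-(6 * (h x / x) * (Y - max (bigA bh R v - δ * n) 0)))))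
    (hn : x + (x + R) / bh ≤ δ / 2 * n) {π : Measure (ℝ × ℝ)} (hπ : IsStationaryKW μ ν π) :
    (π.prod (noise μ ν)) (oneBig x B0 B0 n ∩ {q | q.1.2 ≤ x}) ≤
      μ (Set.Ioi (δ / 2 * n)) + ENNReal.ofReal (C1 * (n + 1) * Real.exp (-(6 * h x))) := by
  have hprob := hπ.1
  set E : Set ((ℝ × ℝ) × (ℕ → ℝ × ℝ)) := oneBig x B0 B0 n ∩ {q | q.1.2 ≤ x} with hE
  have hEm : MeasurableSet E := (measurableSet_oneBig _ _ _ _).inter
    (measurableSet_le (measurable_snd.comp measurable_fst) measurable_const)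
  set B := ENNReal.ofReal (C1 * (n + 1) * Real.exp (-(6 * h x))) with hB
  have hnn1 : ∀ᵐ p ∂(μ.prod ν), 0 ≤ p.1 :=
    Measure.quasiMeasurePreserving_fst.ae S.law.nn
  have hnn2 : ∀ᵐ p ∂(μ.prod ν), 0 ≤ p.2 := by
    have h1 : ∀ᵐ t ∂ν, 0 ≤ t := by
      have h2 : ν {t | ¬ 0 ≤ t} = 0 := by
        have h3 : {t : ℝ | ¬ 0 ≤ t} = Set.Iio 0 := by ext t; simp
        rw [h3]
        exact S.hν
      exact h2
    exact Measure.quasiMeasurePreserving_snd.ae h1
  -- fixed start `w`
  have hw : ∀ w : ℝ × ℝ, 0 ≤ w.1 → w.1 ≤ w.2 →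
      (noise μ ν) (Prod.mk w ⁻¹' E) ≤ μ (Set.Ioi (δ / 2 * n)) + B := by
    intro w hw0 hw1
    have hAm : MeasurableSet (Prod.mk w ⁻¹' E) := measurable_prodMk_left hEm
    rw [← lintegral_indicator_one hAm,
      lintegral_noise_cons (measurable_one.indicator hAm)]
    have hpt : ∀ᵐ p ∂(μ.prod ν), ∫⁻ z, (Prod.mk w ⁻¹' E).indicator 1 (gcons p z) ∂(noise μ ν) ≤
        (Prod.fst ⁻¹' Set.Ioi (δ / 2 * n)).indicator 1 p + B := by
      filter_upwards [hnn1, hnn2] with p hp1 hp2
      by_cases hc : δ / 2 * n < p.1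
      · have h1 : (Prod.fst ⁻¹' Set.Ioi (δ / 2 * n)).indicator (1 : ℝ × ℝ → ℝ≥0∞) p = 1 := by
          rw [Set.indicator_of_mem]
          · rfl
          · exact hc
        rw [h1]
        refine le_trans ?_ le_self_add
        calc ∫⁻ z, (Prod.mk w ⁻¹' E).indicator 1 (gcons p z) ∂(noise μ ν) ≤
            ∫⁻ z, 1 ∂(noise μ ν) := by
              apply lintegral_mono
              intro z
              exact Set.indicator_le_self' (fun _ _ => zero_le) _
          _ = 1 := by simp
      · push Not at hc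
        refine le_trans ?_ le_add_self
        have hmg : Measurable (fun z : ℕ → ℝ × ℝ => gcons p z) :=
          measurable_gcons.comp (measurable_const.prodMk measurable_id)
        have h1 : ∫⁻ z, (Prod.mk w ⁻¹' E).indicator 1 (gcons p z) ∂(noise μ ν) =
            (noise μ ν) ((fun z => gcons p z) ⁻¹' (Prod.mk w ⁻¹' E)) := by
          rw [← lintegral_indicator_one (hmg hAm)]
          rfl
        rw [h1]
        by_cases hwx : w.2 ≤ x
        · set v := kwStep w p.1 p.2 with hv
          have hv0 : 0 ≤ v.1 := kwStep_fst_nonneg _ _ _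
          have hv1 : v.1 ≤ v.2 := kwStep_fst_le_snd _ _ _
          have hv2 : v.1 ≤ x := by
            have h2 : v.1 ≤ max (w.2 - p.2) 0 := min_le_right _ _
            refine h2.trans (max_le (by linarith) hx.le)
          have hv3 : v.2 ≤ x + δ / 2 * n := by
            have h2 : v.2 = max (max (w.1 + p.1 - p.2) 0) (max (w.2 - p.2) 0) := rfl
            rw [h2]
            have h3 : 0 ≤ δ / 2 * n := by positivity
            refine max_le (max_le (by linarith) (by linarith)) (max_le (by linarith) (by linarith))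
          have hbA : bigA bh R v - δ * n ≤ 0 := by
            have := OneFar_bigA_le (y := x + δ / 2 * n) hbh hR hv0 hv2 hv3
            linarith
          have h2 := hg v hv0 hv1 n x
          rw [max_eq_right hbA, sub_zero] at h2
          have h3 : 6 * (h x / x) * x = 6 * h x := by field_simp
          rw [h3] at h2
          refine le_trans (measure_mono ?_) h2
          intro z hz
          have hz' : (w, gcons p z) ∈ E := hz
          rw [hE] at hz'
          obtain ⟨⟨hz1, hz2, hz3⟩, hz4⟩ := hz'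
          refine ⟨fun i hi => hz2 i hi, ?_⟩
          have h4 : x < (pIter v z n).1 := by
            have := hz3
            rwa [pIter_gcons] at this
          have h5 := pIter_ordered hv0 hv1 z n
          have h6 : (pIter v z n).2 ≤ bigA bh R (pIter v z n) := OneFar_bigA_ge hbh
          exact (h4.le.trans h5.2).trans h6
        · have h2 : (fun z => gcons p z) ⁻¹' (Prod.mk w ⁻¹' E) = ∅ := by
            ext z
            simp only [Set.mem_preimage, Set.mem_empty_iff_false, iff_false]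
            intro hz
            exact hwx hz.2
          rw [h2, measure_empty]
          exact zero_le
    refine (lintegral_mono_ae hpt).trans ?_
    rw [lintegral_add_right _ measurable_const, lintegral_const, measure_univ, mul_one,
      lintegral_indicator_one (measurable_fst measurableSet_Ioi)]
    have h1 : (μ.prod ν) (Prod.fst ⁻¹' Set.Ioi (δ / 2 * n)) = μ (Set.Ioi (δ / 2 * n)) := by
      have h2 : (Prod.fst ⁻¹' Set.Ioi (δ / 2 * n) : Set (ℝ × ℝ)) =
          Set.Ioi (δ / 2 * n) ×ˢ Set.univ := by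
        ext p; simp
      rw [h2, Measure.prod_prod, measure_univ, mul_one]
    rw [h1]
  rw [Measure.prod_apply hEm]
  calc ∫⁻ w, (noise μ ν) (Prod.mk w ⁻¹' E) ∂π ≤ ∫⁻ _, (μ (Set.Ioi (δ / 2 * n)) + B) ∂π := by
        apply lintegral_mono_ae
        filter_upwards [hπ.ae_ordered] with w hw'
        exact hw w hw'.1 hw'.2
    _ = μ (Set.Ioi (δ / 2 * n)) + B := by
        rw [lintegral_const, measure_univ, mul_one]

/-- **One big job, far part `n ≥ C x`** (new; replaces the bound `N ≤ C x` of the number of steps).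
For fixed `w.2 ≤ x` and `n`: either the big job is larger than `c n` (`c = δ/2`, `δ` the drift of
`glin_x`), or after step `0` `bigA ≤ c n + (1+1/b) x + R/b ≤ δ n` (`n ≥ C x`, `C` large) and
`glin_x` gives `C0 (n+1) exp (-K h x)` (`K = 6`, jobs `≤ b x`). Sum over
`C x ≤ n < N ≤ exp (h x)`: the first by `sum_tail` and `Qf_two` (`c C ≥ 2 η`) and
`fOneH`-comparison (`gerr_phi`), the second by `gerr_two`. -/
theorem gone_far (S : StdC μ ν h h') {B : ℝ → ℝ} (T : SLvl h B) {K : ℕ} (hK : 1 ≤ K) :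
    ∃ C : ℝ, 0 < C ∧ ∀ ω : ℝ, 0 < ω →
      ∀ᶠ x : ℝ in atTop, ∀ π : Measure (ℝ × ℝ), IsStationaryKW μ ν π → ∀ N : ℕ,
        (N : ℝ) ≤ Real.exp (h x) →
        ∑ n ∈ (Finset.range N).filter (fun n : ℕ => C * x ≤ (n : ℝ)), (π.prod (noise μ ν))
          (oneBig x (B x) (B x) n ∩ {q | q.1.2 ≤ x}) ≤
        ENNReal.ofReal (ω * (fOneH h h' μ ν K x + (Qf h h' x) ^ 2)) := by
  have H := S.haz
  have hm := S.hm
  have hgt := S.hgt
  have hlt := S.hlt
  set mν := ∫ t, t ∂ν with hmν
  set mμ := ∫ s, s ∂μ with hmμ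
  set bh : ℝ := mμ / (2 * mν) with hbh
  have hbh0 : 0 < bh := div_pos (by linarith) (by linarith)
  have hbh1 : bh < 1 := by
    rw [hbh, div_lt_one (by linarith)]
    exact hlt
  have hbm : mμ < (1 + bh) * mν := by
    have h1 : bh * mν = mμ / 2 := by
      rw [hbh]
      field_simp
    nlinarith
  obtain ⟨R, δ, C1, hR, hδ, hC1, hlin⟩ := glin_x S T hbh0 hbh1 hbm
  set η := eta μ ν with hη
  have hη0 : 0 < η := by
    rw [hη, eta]
    exact div_pos (by linarith) (by linarith)
  set C : ℝ := 2 / δ * (1 + 2 / bh) + 4 * η / δ with hC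
  have hC0 : 0 < C := by positivity
  refine ⟨C, hC0, ?_⟩
  intro ω hω
  obtain ⟨C3, hC3, hup⟩ := S.law.up
  obtain ⟨C2, hC2, hsum⟩ := sum_tail H (c := δ / 2) (by positivity)
  obtain ⟨c', hc', hQ2⟩ := Qf_two H (ω := 1) one_pos
  have hηt : Tendsto (fun x : ℝ => η * x) atTop atTop := tendsto_id.const_mul_atTop hη0
  have hCt : Tendsto (fun x : ℝ => C * x) atTop atTop := tendsto_id.const_mul_atTop hC0
  filter_upwards [hlin 6 (by norm_num), hCt.eventually hsum, hηt.eventually hQ2,
    gerr_phi S hK (δ := c' * η) (ω := ω) (by positivity) hω (C3 * C2),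
    gerr_two H (δ := 2) (ω := ω) (by norm_num) hω C1 0, eventually_gt_atTop 0,
    eventually_ge_atTop R] with x e1 e2 e3 e4 e5 hx hxR π hπ N hN
  have hηx : 0 < η * x := mul_pos hη0 hx
  have hhη := H.pos _ hηx
  -- bound for one `n`
  have hone : ∀ n ∈ (Finset.range N).filter (fun n : ℕ => C * x ≤ (n : ℝ)),
      (π.prod (noise μ ν)) (oneBig x (B x) (B x) n ∩ {q | q.1.2 ≤ x}) ≤
      ENNReal.ofReal (C3 * Real.exp (-(h (δ / 2 * n)))) +
        ENNReal.ofReal (C1 * (n + 1) * Real.exp (-(6 * h x))) := by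
    intro n hn
    rw [Finset.mem_filter] at hn
    have hn2 : x + (x + R) / bh ≤ δ / 2 * n := by
      have h1 : δ / 2 * (C * x) ≤ δ / 2 * n := mul_le_mul_of_nonneg_left hn.2 (by positivity)
      have h2 : δ / 2 * (C * x) = x + 2 * x / bh + 2 * (η * x) := by
        rw [hC]
        field_simp
        ring
      have h3 : (x + R) / bh ≤ 2 * x / bh := div_le_div_of_nonneg_right (by linarith) hbh0.le
      linarith
    refine (OneFar_one S hbh0 hR hδ hx e1 hn2 hπ).trans ?_
    exact add_le_add_left (hup _) _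
  refine (Finset.sum_le_sum hone).trans ?_
  rw [Finset.sum_add_distrib, ← ENNReal.ofReal_sum_of_nonneg (fun n _ => by positivity),
    ← ENNReal.ofReal_sum_of_nonneg (fun n _ => by positivity), mul_add,
    ENNReal.ofReal_add (mul_nonneg hω.le (fOneH_pos S hx).le) (by positivity)]
  apply add_le_add
  · apply ENNReal.ofReal_le_ofReal
    rw [← Finset.mul_sum]
    have h1 := e2 ((Finset.range N).filter (fun n : ℕ => C * x ≤ (n : ℝ)))
      (fun n hn => (Finset.mem_filter.1 hn).2)
    have h2 : 2 * (η * x) ≤ δ / 2 * (C * x) := by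
      have h2 : δ / 2 * (C * x) = x + 2 * x / bh + 2 * (η * x) := by
        rw [hC]
        field_simp
        ring
      have h3 : 0 ≤ 2 * x / bh := by positivity
      linarith
    have h3 := e3 _ h2
    rw [one_mul] at h3
    have h4 : Qf h h' (η * x) * Real.exp (-(c' * (η * x * h' (η * x)))) =
        Real.exp (-(h (η * x) + c' * η * (x * h' (η * x)))) / h' (η * x) := by
      unfold Qf
      rw [div_mul_eq_mul_div, ← Real.exp_add]
      congr 2
      ring
    rw [h4] at h3
    calc C3 * ∑ n ∈ (Finset.range N).filter (fun n : ℕ => C * x ≤ (n : ℝ)),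
          Real.exp (-(h (δ / 2 * n))) ≤ C3 * (C2 *
          (Real.exp (-(h (η * x) + c' * η * (x * h' (η * x)))) / h' (η * x))) := by
          apply mul_le_mul_of_nonneg_left _ hC3
          exact h1.trans (mul_le_mul_of_nonneg_left h3 hC2)
      _ = C3 * C2 * 1 * Real.exp (-(h (η * x) + c' * η * (x * h' (η * x)))) / h' (η * x) := by
          ring
      _ ≤ C3 * C2 * (1 + x * h' (η * x)) *
          Real.exp (-(h (η * x) + c' * η * (x * h' (η * x)))) / h' (η * x) := by
          apply div_le_div_of_nonneg_right _ hhη.le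
          apply mul_le_mul_of_nonneg_right _ (Real.exp_pos _).le
          apply mul_le_mul_of_nonneg_left _ (mul_nonneg hC3 hC2)
          have : 0 < x * h' (η * x) := mul_pos hx hhη
          linarith
      _ ≤ ω * fOneH h h' μ ν K x := e4
  · apply ENNReal.ofReal_le_ofReal
    rw [Real.rpow_zero, mul_one] at e5
    refine le_trans ?_ e5
    have h1 : ∑ n ∈ (Finset.range N).filter (fun n : ℕ => C * x ≤ (n : ℝ)),
        C1 * ((n : ℝ) + 1) * Real.exp (-(6 * h x)) ≤
        ∑ n ∈ Finset.range N, C1 * (N : ℝ) * Real.exp (-(6 * h x)) := by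
      refine (Finset.sum_le_sum_of_subset_of_nonneg (Finset.filter_subset _ _)
        (fun n _ _ => by positivity)).trans ?_
      apply Finset.sum_le_sum
      intro n hn
      have h2 : (n : ℝ) + 1 ≤ N := by exact_mod_cast Finset.mem_range.1 hn
      apply mul_le_mul_of_nonneg_right _ (Real.exp_pos _).le
      exact mul_le_mul_of_nonneg_left h2 hC1
    refine h1.trans ?_
    rw [Finset.sum_const, Finset.card_range, nsmul_eq_mul]
    have h3 : (N : ℝ) * (C1 * (N : ℝ) * Real.exp (-(6 * h x))) ≤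
        Real.exp (h x) * (C1 * Real.exp (h x) * Real.exp (-(6 * h x))) := by
      gcongr
    refine h3.trans (le_of_eq ?_)
    have h4 : Real.exp (-((2 + 2) * h x)) =
        Real.exp (h x) * (Real.exp (h x) * Real.exp (-(6 * h x))) := by
      rw [← Real.exp_add, ← Real.exp_add]
      congr 1
      ring
    rw [h4]
    ring

end Pool.Agent.Lib.MP_04add8_pr.Cv
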