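import Mathlib
import Pool.Agent.Lib.MP_04add8_pr.Cv.OneMain
import Pool.Agent.Lib.MP_04add8_pr.Cv.OneFar
import Pool.Agent.Lib.MP_04add8_pr.Cv.StepOne
import Pool.Agent.Lib.MP_04add8_pr.Cv.LinB2
import Pool.Agent.Lib.MP_04add8_pr.One.Union

open MeasureTheory ProbabilityTheory Filter Topology
open scoped ENNReal

set_option linter.unusedSectionVars false

namespace Pool.Agent.Lib.MP_04add8_pr.Cv

open Pool.Agent.Lib.MP_04add8_pr.Gen

variable {h h' : ℝ → ℝ} {μ ν : Measure ℝ} [IsProbabilityMeasure μ]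
  [IsProbabilityMeasure ν]

/-- one value of `n` -/
private lemma OneSum_one (S : StdC μ ν h h') {x B0 v F C1 : ℝ} {n : ℕ} (hx : 0 < x)
    (hb : 0 ≤ B0) (hbe : B0 ≤ 1 / 2 * x) (he : v ≤ 1 / 2 * x) (hF : 0 ≤ F) (hC1 : 0 ≤ C1)
    (hFx : ∀ X : ℝ, B0 ≤ X → μ (Set.Ioi X) ≤ ENNReal.ofReal (F * Real.exp (-(h X))))
    (hret : ∀ e : ℝ, 0 ≤ e → ∀ v' : ℝ × ℝ, 0 ≤ v'.1 → v'.1 ≤ v'.2 → ∀ n : ℕ,
        (noise μ ν) (allLe B0 n ∩ {z | (∃ k ≤ n, (pIter v' z k).2 ≤ e * x) ∧
          x < (pIter v' z n).1}) ≤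
          ENNReal.ofReal (C1 * (n + 1) ^ 2 * Real.exp (-(8 * (1 - e) * h x))))
    {π : Measure (ℝ × ℝ)} (hπ : IsStationaryKW μ ν π) :
    (π.prod (noise μ ν)) (oneBig x B0 B0 n ∩ {q | q.1.2 ≤ v}) ≤
      ∫⁻ w, ({w : ℝ × ℝ | w.2 ≤ v}).indicator
        (fun w => ENNReal.ofReal F * mainH μ ν h x B0 n w) w ∂π +
      ENNReal.ofReal (C1 * (n + 1) ^ 2 * Real.exp (-(4 * h x))) := by
  have hp : IsProbabilityMeasure π := hπ.1
  have hh : 0 ≤ h x := S.haz.nonneg x
  set T : Set (ℝ × ℝ) := {w | w.2 ≤ v} with hT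
  have hTm : MeasurableSet T := measurableSet_le measurable_snd measurable_const
  have hm2 : MeasurableSet (oneBig x B0 B0 n ∩ {q | q.1.2 ≤ v}) :=
    (measurableSet_oneBig _ _ _ _).inter
      (measurableSet_le (measurable_snd.comp measurable_fst) measurable_const)
  rw [Measure.prod_apply hm2]
  have hpt : ∀ᵐ w ∂π, (noise μ ν) (Prod.mk w ⁻¹' (oneBig x B0 B0 n ∩
      {q | q.1.2 ≤ v})) ≤ T.indicator (fun w => ENNReal.ofReal F *
        mainH μ ν h x B0 n w) w +
        ENNReal.ofReal (C1 * (n + 1) ^ 2 * Real.exp (-(4 * h x))) := by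
    filter_upwards [hπ.ae_ordered] with w hw
    by_cases hwS : w ∈ T
    · rw [Set.indicator_of_mem hwS]
      have hwS' : w.2 ≤ v := hwS
      refine (measure_mono ?_).trans (goneBig_small S (e := 1 / 2 * x) hx.le
        (by positivity) hb hbe hF hFx n ?_ hw.1 hw.2 (hwS'.trans he))
      · intro z hz
        exact hz.1
      · intro v' hv0 hv1
        refine (hret (1 / 2) (by norm_num) v' hv0 hv1 n).trans (ENNReal.ofReal_le_ofReal ?_)
        have h5 : Real.exp (-(8 * (1 - 1 / 2) * h x)) = Real.exp (-(4 * h x)) := by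
          congr 1
          ring
        rw [h5]
    · have : Prod.mk w ⁻¹' (oneBig x B0 B0 n ∩ {q | q.1.2 ≤ v}) = ∅ := by
        ext z
        simp only [Set.mem_preimage, Set.mem_inter_iff, Set.mem_empty_iff_false, iff_false]
        intro h
        exact hwS h.2
      rw [this, measure_empty]
      exact zero_le
  refine (lintegral_mono_ae hpt).trans ?_
  rw [lintegral_add_right _ measurable_const, lintegral_const, measure_univ, mul_one]

/-- the main part -/
private lemma OneSum_main (S : StdC μ ν h h') {x B0 v F ω0 : ℝ} {N : ℕ} (hx : 0 < x)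
    (hF : 0 ≤ F) (hω0 : 0 < ω0) {f : ℝ} (hf : 0 ≤ f)
    (hη : 1 ≤ eta μ ν)
    (hmain : ∀ w : ℝ × ℝ, 0 ≤ w.1 → w.1 ≤ w.2 → w.2 ≤ v →
        ∑ n ∈ Finset.range N, mainH μ ν h x B0 n w ≤
          ENNReal.ofReal ((1 + ω0) * f * Real.exp (2 * eta μ ν * h' (eta μ ν * x) * w.2)))
    {π : Measure (ℝ × ℝ)} (hπ : IsStationaryKW μ ν π)
    (hepi : ∫⁻ w, ({w : ℝ × ℝ | w.2 ≤ v}).indicator
        (fun w => ENNReal.ofReal (Real.exp (2 * eta μ ν * h' x * w.2))) w ∂π ≤
        ENNReal.ofReal (1 + ω0)) :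
    ∑ n ∈ Finset.range N, ∫⁻ w, ({w : ℝ × ℝ | w.2 ≤ v}).indicator
        (fun w => ENNReal.ofReal F * mainH μ ν h x B0 n w) w ∂π ≤
      ENNReal.ofReal (F * ((1 + ω0) * f) * (1 + ω0)) := by
  have hp : IsProbabilityMeasure π := hπ.1
  set T : Set (ℝ × ℝ) := {w | w.2 ≤ v} with hT
  have hTm : MeasurableSet T := measurableSet_le measurable_snd measurable_const
  have hmeas : ∀ n, AEMeasurable (fun w : ℝ × ℝ => T.indicator
      (fun w => ENNReal.ofReal F * mainH μ ν h x B0 n w) w) π := fun n =>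
    (((measurable_mainH S.haz x B0 n).const_mul _).indicator hTm).aemeasurable
  rw [← lintegral_finsetSum' _ fun n _ => hmeas n]
  have hpt : ∀ᵐ w ∂π, ∑ n ∈ Finset.range N, T.indicator
      (fun w => ENNReal.ofReal F * mainH μ ν h x B0 n w) w ≤
      ENNReal.ofReal (F * ((1 + ω0) * f)) * ({w : ℝ × ℝ | w.2 ≤ v}).indicator
        (fun w => ENNReal.ofReal (Real.exp (2 * eta μ ν * h' x * w.2))) w := by
    filter_upwards [hπ.ae_ordered] with w hw
    by_cases hwS : w ∈ T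
    · have hwS' : w.2 ≤ v := hwS
      have hw2 : 0 ≤ w.2 := hw.1.trans hw.2
      rw [Set.indicator_of_mem (by exact hwS')]
      have e1 : ∑ n ∈ Finset.range N, T.indicator
          (fun w => ENNReal.ofReal F * mainH μ ν h x B0 n w) w =
          ENNReal.ofReal F * ∑ n ∈ Finset.range N, mainH μ ν h x B0 n w := by
        rw [Finset.mul_sum]
        apply Finset.sum_congr rfl
        intro n _
        rw [Set.indicator_of_mem hwS]
      rw [e1]
      have h1 := hmain w hw.1 hw.2 hwS'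
      have hηx : x ≤ eta μ ν * x := le_mul_of_one_le_left hx.le hη
      have h2 : h' (eta μ ν * x) ≤ h' x := S.haz.anti _ _ hx hηx
      calc ENNReal.ofReal F * ∑ n ∈ Finset.range N, mainH μ ν h x B0 n w ≤
          ENNReal.ofReal F * ENNReal.ofReal ((1 + ω0) * f *
            Real.exp (2 * eta μ ν * h' (eta μ ν * x) * w.2)) := by gcongr
        _ ≤ ENNReal.ofReal F * ENNReal.ofReal ((1 + ω0) * f *
            Real.exp (2 * eta μ ν * h' x * w.2)) := by gcongr
        _ = ENNReal.ofReal (F * ((1 + ω0) * f)) *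
            ENNReal.ofReal (Real.exp (2 * eta μ ν * h' x * w.2)) := by
            rw [← ENNReal.ofReal_mul hF, ← ENNReal.ofReal_mul (by positivity), mul_assoc F]
    · have e1 : ∑ n ∈ Finset.range N, T.indicator
          (fun w => ENNReal.ofReal F * mainH μ ν h x B0 n w) w = 0 := by
        apply Finset.sum_eq_zero
        intro n _
        rw [Set.indicator_of_notMem hwS]
      rw [e1]
      exact zero_le
  refine (lintegral_mono_ae hpt).trans ?_
  rw [lintegral_const_mul' _ _ ENNReal.ofReal_ne_top,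
    ENNReal.ofReal_mul (show 0 ≤ F * ((1 + ω0) * f) by positivity)]
  exact mul_le_mul' le_rfl hepi

/-- **One big job, small initial workload, exponentially long window**. Original: the main part of
`upper_one` in `One/OneUpper.lean`. `n < C x`: `goneBig_small` (with `F = 1 + ω'`, `B x`,
`x / 2`), `greturn_small` (`K = 8`), `gone_main`, the exponential moment hypothesis `hepi`
(`h' (η x) ≤ h' x`); `n ≥ C x`: `gone_far`. -/
theorem gone_sum (S : StdC μ ν h h') {B v : ℝ → ℝ} (TB : SLvl h B)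
    (hv : ∀ e : ℝ, 0 < e → ∀ᶠ x : ℝ in atTop, v x ≤ e * x) {d : ℝ}
    (hd : ∀ᶠ x : ℝ in atTop, h' x ≤ x ^ (-d)) {K : ℕ} (hK : 1 < (K + 1) * d)
    (hepi : ∀ A ω : ℝ, 0 < A → 0 < ω → ∀ᶠ x : ℝ in atTop, ∀ π : Measure (ℝ × ℝ),
      IsStationaryKW μ ν π → ∫⁻ w, ({w : ℝ × ℝ | w.2 ≤ v x}).indicator
        (fun w => ENNReal.ofReal (Real.exp (A * h' x * w.2))) w ∂π ≤ ENNReal.ofReal (1 + ω))
    {ω : ℝ} (hω : 0 < ω) :
    ∀ᶠ x : ℝ in atTop, ∀ π : Measure (ℝ × ℝ), IsStationaryKW μ ν π → ∀ N : ℕ,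
        (N : ℝ) ≤ Real.exp (h x) →
        ∑ n ∈ Finset.range N, (π.prod (noise μ ν))
          (oneBig x (B x) (B x) n ∩ {q | q.1.2 ≤ v x}) ≤
        ENNReal.ofReal ((1 + ω) * fOneH h h' μ ν K x + ω * (Qf h h' x) ^ 2) := by
  have H := S.haz
  have hK1 : 1 ≤ K := H.one_le_of_rate hd hK
  have hη2 := two_lt_eta S
  set η := eta μ ν with hη
  -- slack
  obtain ⟨ω0, hω0, hω01⟩ : ∃ ω0 : ℝ, 0 < ω0 ∧ (1 + ω0) * (1 + ω0) * (1 + ω0) ≤ 1 + ω / 2 := by
    refine ⟨min 1 (ω / 16), lt_min one_pos (by positivity), ?_⟩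
    have h3 : min 1 (ω / 16) ≤ 1 := min_le_left _ _
    have h4 : min 1 (ω / 16) ≤ ω / 16 := min_le_right _ _
    have h5 : 0 < min 1 (ω / 16) := lt_min one_pos (by positivity)
    set t := min 1 (ω / 16)
    have h6 : t * t ≤ t := by nlinarith
    have h7 : t * t * t ≤ t := by nlinarith [mul_nonneg h5.le h5.le]
    nlinarith
  obtain ⟨ε0, hε0, hmain⟩ := gone_main S TB hd hK hω0
  obtain ⟨Cf, hCf, hfar⟩ := gone_far S TB hK1
  obtain ⟨C1, hC1, hret⟩ := greturn_small S TB (K := 8) (by norm_num)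
  obtain ⟨X0, hX0⟩ := (S.law.asy ω0 hω0).exists_forall_of_atTop
  filter_upwards [hmain (Cf + 1), hfar (ω / 4) (by positivity),
    hret, hepi (2 * η) ω0 (by positivity) hω0, TB.top.eventually_ge_atTop X0,
    gerr_two H (δ := 2) (ω := ω / 4) (by norm_num) (by positivity) (C1 * (Cf + 2) ^ 3) 3,
    hv ε0 hε0, hv (1 / 2) (by norm_num), TB.le H (e := 1 / 2) (by norm_num),
    TB.top.eventually_ge_atTop 0, eventually_ge_atTop 1]
    with x e1 e2 e3 e4 e5 e6 e7 e8 e9 e10 hx1 π hπ N hN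
  have hx : 0 < x := by linarith
  have hp : IsProbabilityMeasure π := hπ.1
  set f := fOneH h h' μ ν K x with hf
  have hf0 : 0 < f := fOneH_pos S hx
  have hFx : ∀ X : ℝ, B x ≤ X → μ (Set.Ioi X) ≤
      ENNReal.ofReal ((1 + ω0) * Real.exp (-(h X))) := fun X hX => (hX0 X (e5.trans hX)).2
  set N' := ⌈Cf * x⌉₊ with hN'
  have hN'u : (N' : ℝ) ≤ (Cf + 1) * x := by
    have := (Nat.ceil_lt_add_one (show 0 ≤ Cf * x by positivity)).le
    nlinarith
  -- splitting of the sum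
  rw [← Finset.sum_filter_add_sum_filter_not (Finset.range N) (fun n : ℕ => Cf * x ≤ (n : ℝ))]
  have hfarpart : ∑ n ∈ (Finset.range N).filter (fun n : ℕ => Cf * x ≤ (n : ℝ)),
      (π.prod (noise μ ν)) (oneBig x (B x) (B x) n ∩ {q | q.1.2 ≤ v x}) ≤
      ENNReal.ofReal (ω / 4 * (f + (Qf h h' x) ^ 2)) := by
    refine le_trans (Finset.sum_le_sum fun n _ => measure_mono ?_) (e2 π hπ N hN)
    intro q hq
    refine ⟨hq.1, ?_⟩
    have h1 : q.1.2 ≤ v x := hq.2
    have h2 : v x ≤ x := by linarith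
    exact h1.trans h2
  have hnear : ∑ n ∈ (Finset.range N).filter (fun n : ℕ => ¬ Cf * x ≤ (n : ℝ)),
      (π.prod (noise μ ν)) (oneBig x (B x) (B x) n ∩ {q | q.1.2 ≤ v x}) ≤
      ENNReal.ofReal ((1 + ω0) * ((1 + ω0) * f) * (1 + ω0)) +
        ENNReal.ofReal (ω / 4 * (Qf h h' x) ^ 2) := by
    have hsub : (Finset.range N).filter (fun n : ℕ => ¬ Cf * x ≤ (n : ℝ)) ⊆
        Finset.range N' := by
      intro n hn
      rw [Finset.mem_filter] at hn
      rw [Finset.mem_range, hN', Nat.lt_ceil]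
      exact not_le.mp hn.2
    refine (Finset.sum_le_sum_of_subset hsub).trans ?_
    refine (Finset.sum_le_sum fun n _ => OneSum_one S (F := 1 + ω0) (C1 := C1) hx e10 e9 e8
      (by positivity) hC1 hFx e3 hπ).trans ?_
    rw [Finset.sum_add_distrib]
    apply add_le_add
    · exact OneSum_main S hx (by positivity) hω0 hf0.le (by linarith)
        (fun w hw0 hw1 hw2 => e1 w hw0 hw1 (hw2.trans e7) N' hN'u) hπ (e4 π hπ)
    · rw [← ENNReal.ofReal_sum_of_nonneg (fun n _ => by positivity)]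
      apply ENNReal.ofReal_le_ofReal
      refine le_trans ?_ e6
      have h1 : ∑ n ∈ Finset.range N', C1 * ((n : ℝ) + 1) ^ 2 * Real.exp (-(4 * h x)) ≤
          ∑ n ∈ Finset.range N', C1 * ((Cf + 2) * x) ^ 2 * Real.exp (-(4 * h x)) := by
        apply Finset.sum_le_sum
        intro n hn
        have h2 : (n : ℝ) + 1 ≤ N' := by exact_mod_cast Finset.mem_range.1 hn
        have h3 : (n : ℝ) + 1 ≤ (Cf + 2) * x := by nlinarith
        gcongr
      refine h1.trans ?_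
      rw [Finset.sum_const, Finset.card_range, nsmul_eq_mul]
      have h4 : (N' : ℝ) * (C1 * ((Cf + 2) * x) ^ 2 * Real.exp (-(4 * h x))) ≤
          ((Cf + 2) * x) * (C1 * ((Cf + 2) * x) ^ 2 * Real.exp (-(4 * h x))) := by
        apply mul_le_mul_of_nonneg_right _ (by positivity)
        nlinarith
      refine h4.trans (le_of_eq ?_)
      have h5 : x ^ (3 : ℝ) = x ^ 3 := by norm_cast
      have h6 : (2 + 2 : ℝ) * h x = 4 * h x := by ring
      rw [h5, h6]
      ring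
  refine (add_le_add hfarpart hnear).trans ?_
  rw [← ENNReal.ofReal_add (by positivity) (by positivity),
    ← ENNReal.ofReal_add (by positivity) (by positivity)]
  apply ENNReal.ofReal_le_ofReal
  have h1 : (1 + ω0) * ((1 + ω0) * f) * (1 + ω0) ≤ (1 + ω / 2) * f := by
    calc (1 + ω0) * ((1 + ω0) * f) * (1 + ω0) = ((1 + ω0) * (1 + ω0) * (1 + ω0)) * f := by ring
      _ ≤ _ := by gcongr
  have h2 : 0 ≤ (Qf h h' x) ^ 2 := sq_nonneg _
  nlinarith [mul_nonneg hω.le hf0.le, mul_nonneg hω.le h2]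

end Pool.Agent.Lib.MP_04add8_pr.Cv
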