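import Mathlib
import Pool.Agent.Lib.MP_04add8_pr.Cv.VOne
import Pool.Agent.Lib.MP_04add8_pr.Cv.VMeas
import Pool.Agent.Lib.MP_04add8_pr.Cv.PathB
import Pool.Agent.Lib.MP_04add8_pr.Cv.PathDefs
import Pool.Agent.Lib.MP_04add8_pr.Cv.PotLin
import Pool.Agent.Lib.MP_04add8_pr.Cv.ThrF

open MeasureTheory ProbabilityTheory Filter Topology
open scoped ENNReal

set_option linter.unusedSectionVars false

namespace Pool.Agent.Lib.MP_04add8_pr.Cv

open Pool.Agent.Lib.MP_04add8_pr.Gen

variable {h h' : ℝ → ℝ} {μ ν : Measure ℝ} [IsProbabilityMeasure μ]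
  [IsProbabilityMeasure ν]

variable {B v : ℝ → ℝ}

private noncomputable def excLD_a (B v : ℝ) (i : ℕ) (w p : ℝ × ℝ) : ℝ≥0∞ :=
  if i = 0 then {p : ℝ × ℝ | p.1 ≤ B ∧ 0 ≤ p.1 ∧ 0 ≤ p.2}.indicator (fun _ => 1) p
  else {q : (ℝ × ℝ) × (ℝ × ℝ) | v < q.1.2 ∧ q.2.1 ≤ B}.indicator (fun _ => 1) (w, p)

private noncomputable def excLD_U (β D θ v M : ℝ) (i : ℕ) (w : ℝ × ℝ) : ℝ≥0∞ :=
  if i = 0 then {w : ℝ × ℝ | w.2 ≤ v}.piecewise (fun _ => ENNReal.ofReal M) (fun _ => ⊤) w
  else ENNReal.ofReal (HF β D θ w)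

private lemma excLD_meas_a (B v : ℝ) (i : ℕ) :
    Measurable (fun q : (ℝ × ℝ) × (ℝ × ℝ) => excLD_a B v i q.1 q.2) := by
  unfold excLD_a
  by_cases hi : i = 0
  · simp only [hi, if_true]
    have hs : MeasurableSet {p : ℝ × ℝ | p.1 ≤ B ∧ 0 ≤ p.1 ∧ 0 ≤ p.2} := by
      refine MeasurableSet.inter ?_ (MeasurableSet.inter ?_ ?_)
      · exact measurableSet_le measurable_fst measurable_const
      · exact measurableSet_le measurable_const measurable_fst
      · exact measurableSet_le measurable_const measurable_snd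
    exact (measurable_const.indicator hs).comp measurable_snd
  · simp only [hi, if_false]
    have hs : MeasurableSet {q : (ℝ × ℝ) × (ℝ × ℝ) | v < q.1.2 ∧ q.2.1 ≤ B} := by
      refine MeasurableSet.inter ?_ ?_
      · exact measurableSet_lt measurable_const (measurable_snd.comp measurable_fst)
      · exact measurableSet_le (measurable_fst.comp measurable_snd) measurable_const
    exact measurable_const.indicator hs

private lemma excLD_meas_HF (β D θ : ℝ) : Measurable (fun w : ℝ × ℝ => HF β D θ w) := by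
  unfold HF
  fun_prop

private lemma excLD_meas_U (β D θ v M : ℝ) (i : ℕ) : Measurable (excLD_U β D θ v M i) := by
  unfold excLD_U
  by_cases hi : i = 0
  · simp only [hi, if_true]
    exact Measurable.piecewise (measurableSet_le measurable_snd measurable_const)
      measurable_const measurable_const
  · simp only [hi, if_false]
    exact (excLD_meas_HF β D θ).ennreal_ofReal

private lemma excLD_step {c C D C8 β θ B v : ℝ} (hC1 : 1 ≤ C) (hD : 4 * C ≤ D)
    (hV : ∀ (β θ e B : ℝ) (w : ℝ × ℝ), 0 < θ → (1 + c) * θ ≤ β → β ≤ C * θ →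
      0 ≤ e → 2 * (e * θ) ≤ 1 - lap ν θ → Tilt h β B →
      trPhi μ ν B β θ ≤ ENNReal.ofReal (1 - e * θ) → 0 ≤ w.1 → w.1 ≤ w.2 → C8 ≤ θ * w.2 →
      ∫⁻ p, (Set.Iic B).indicator (fun _ => (1 : ℝ≥0∞)) p.1 *
        ENNReal.ofReal (HF β D θ (kwStep w p.1 p.2)) ∂(μ.prod ν) ≤
        ENNReal.ofReal ((1 - e * θ) * HF β D θ w))
    (hθ : 0 < θ) (hβ0 : 0 ≤ β) (hβ1 : (1 + c) * θ ≤ β) (hβ2 : β ≤ C * θ)
    (hlap : 2 * (0 * θ) ≤ 1 - lap ν θ) (hT : Tilt h β B)
    (hphi : trPhi μ ν B β θ ≤ ENNReal.ofReal (1 - 0 * θ)) (hv : C8 ≤ θ * v) (hBv : B ≤ v)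
    (hv0 : 0 ≤ v) (i : ℕ) (w : ℝ × ℝ) (h0 : 0 ≤ w.1) (h1 : w.1 ≤ w.2) :
    ∫⁻ p, excLD_a B v i w p *
      excLD_U β D θ v ((1 + D) * Real.exp (4 * C * θ * v)) (i + 1) (kwStep w p.1 p.2) ∂(μ.prod ν) ≤
      1 * excLD_U β D θ v ((1 + D) * Real.exp (4 * C * θ * v)) i w := by
  have hD0 : 0 ≤ D := by linarith
  rw [one_mul]
  by_cases hi : i = 0
  · subst hi
    by_cases hw : w.2 ≤ v
    · have hU : excLD_U β D θ v ((1 + D) * Real.exp (4 * C * θ * v)) 0 w =
          ENNReal.ofReal ((1 + D) * Real.exp (4 * C * θ * v)) := by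
        simp [excLD_U, Set.piecewise, hw]
      rw [hU]
      have hpt : ∀ p : ℝ × ℝ, excLD_a B v 0 w p *
          excLD_U β D θ v ((1 + D) * Real.exp (4 * C * θ * v)) (0 + 1) (kwStep w p.1 p.2) ≤
          ENNReal.ofReal ((1 + D) * Real.exp (4 * C * θ * v)) := by
        intro p
        by_cases hp : p.1 ≤ B ∧ 0 ≤ p.1 ∧ 0 ≤ p.2
        · have ha : excLD_a B v 0 w p = 1 := by
            simp only [excLD_a, if_true]
            exact Set.indicator_of_mem (show p ∈ {p : ℝ × ℝ | p.1 ≤ B ∧ 0 ≤ p.1 ∧ 0 ≤ p.2} from hp) _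
          have hU1 : excLD_U β D θ v ((1 + D) * Real.exp (4 * C * θ * v)) (0 + 1)
              (kwStep w p.1 p.2) = ENNReal.ofReal (HF β D θ (kwStep w p.1 p.2)) := by
            simp [excLD_U]
          rw [ha, hU1, one_mul]
          refine ENNReal.ofReal_le_ofReal ?_
          obtain ⟨hp1, hp2, hp3⟩ := hp
          have hX : max (w.1 + p.1 - p.2) 0 ≤ 2 * v := max_le (by linarith) (by linarith)
          have hY : max (w.2 - p.2) 0 ≤ 2 * v := max_le (by linarith) (by linarith)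
          have hkw : kwStep w p.1 p.2 = (min (max (w.1 + p.1 - p.2) 0) (max (w.2 - p.2) 0),
            max (max (w.1 + p.1 - p.2) 0) (max (w.2 - p.2) 0)) := rfl
          have hm := HF_mono (β := β) (D := D) (θ := θ) hβ0 hD0 hθ.le
            (w := kwStep w p.1 p.2) (w' := (2 * v, 2 * v))
            (by rw [hkw]; exact (min_le_left _ _).trans hX) (by rw [hkw]; exact max_le hX hY)
          refine hm.trans ?_
          unfold HF
          have e1 : (1 : ℝ) ≤ Real.exp (β * (2 * v)) :=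
            Real.one_le_exp (mul_nonneg hβ0 (by linarith))
          have e2 : Real.exp (β * (2 * v)) + D ≤ (1 + D) * Real.exp (β * (2 * v)) := by
            nlinarith
          calc Real.exp (θ * (2 * v)) * (Real.exp (β * (2 * v)) + D)
              ≤ Real.exp (θ * (2 * v)) * ((1 + D) * Real.exp (β * (2 * v))) :=
                mul_le_mul_of_nonneg_left e2 (Real.exp_pos _).le
            _ = (1 + D) * Real.exp (θ * (2 * v) + β * (2 * v)) := by
                rw [Real.exp_add]; ring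
            _ ≤ (1 + D) * Real.exp (4 * C * θ * v) := by
                refine mul_le_mul_of_nonneg_left (Real.exp_le_exp.2 ?_) (by linarith)
                have e3 : β * v ≤ C * θ * v := mul_le_mul_of_nonneg_right hβ2 hv0
                have e4 : θ * v ≤ C * θ * v := by
                  have : 0 ≤ θ * v := mul_nonneg hθ.le hv0
                  nlinarith
                linarith
        · have ha : excLD_a B v 0 w p = 0 := by
            simp only [excLD_a, if_true]
            exact Set.indicator_of_notMem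
              (show p ∉ {p : ℝ × ℝ | p.1 ≤ B ∧ 0 ≤ p.1 ∧ 0 ≤ p.2} from hp) _
          rw [ha, zero_mul]
          exact zero_le
      calc _ ≤ ∫⁻ _p : ℝ × ℝ, ENNReal.ofReal ((1 + D) * Real.exp (4 * C * θ * v)) ∂(μ.prod ν) :=
            lintegral_mono hpt
        _ = _ := by rw [lintegral_const, measure_univ, mul_one]
    · have hU : excLD_U β D θ v ((1 + D) * Real.exp (4 * C * θ * v)) 0 w = ⊤ := by
        simp [excLD_U, Set.piecewise, hw]
      rw [hU]
      exact le_top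
  · have hU : excLD_U β D θ v ((1 + D) * Real.exp (4 * C * θ * v)) i w =
        ENNReal.ofReal (HF β D θ w) := by
      simp [excLD_U, hi]
    have hU1 : ∀ u : ℝ × ℝ, excLD_U β D θ v ((1 + D) * Real.exp (4 * C * θ * v)) (i + 1) u =
        ENNReal.ofReal (HF β D θ u) := by
      intro u
      simp [excLD_U]
    rw [hU]
    simp only [hU1]
    by_cases hw : v < w.2
    · have ha : ∀ p : ℝ × ℝ, excLD_a B v i w p ≤
          (Set.Iic B).indicator (fun _ => (1 : ℝ≥0∞)) p.1 := by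
        intro p
        simp only [excLD_a, hi, if_false]
        by_cases hp : p.1 ≤ B
        · rw [Set.indicator_of_mem (show p.1 ∈ Set.Iic B from hp)]
          exact Set.indicator_le_self' (fun _ _ => zero_le) _
        · rw [Set.indicator_of_notMem]
          · exact zero_le
          · exact fun hq => hp hq.2
      have hC8 : C8 ≤ θ * w.2 := hv.trans (mul_le_mul_of_nonneg_left hw.le hθ.le)
      have hmain := hV β θ 0 B w hθ hβ1 hβ2 le_rfl hlap hT hphi h0 h1 hC8
      refine le_trans (lintegral_mono fun p => ?_) (hmain.trans (le_of_eq ?_))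
      · exact mul_le_mul' (ha p) le_rfl
      · congr 1
        ring
    · have ha : ∀ p : ℝ × ℝ, excLD_a B v i w p = 0 := by
        intro p
        simp only [excLD_a, hi, if_false]
        exact Set.indicator_of_notMem (fun hq => hw hq.1) _
      simp [ha]

/-- the bound for a fixed slope -/
private lemma excLD_core {c C D C8 β θ B v : ℝ} (hC1 : 1 ≤ C) (hD : 4 * C ≤ D)
    (hV : ∀ (β θ e B : ℝ) (w : ℝ × ℝ), 0 < θ → (1 + c) * θ ≤ β → β ≤ C * θ →
      0 ≤ e → 2 * (e * θ) ≤ 1 - lap ν θ → Tilt h β B →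
      trPhi μ ν B β θ ≤ ENNReal.ofReal (1 - e * θ) → 0 ≤ w.1 → w.1 ≤ w.2 → C8 ≤ θ * w.2 →
      ∫⁻ p, (Set.Iic B).indicator (fun _ => (1 : ℝ≥0∞)) p.1 *
        ENNReal.ofReal (HF β D θ (kwStep w p.1 p.2)) ∂(μ.prod ν) ≤
        ENNReal.ofReal ((1 - e * θ) * HF β D θ w))
    (hθ : 0 < θ) (hβ0 : 0 ≤ β) (hβ1 : (1 + c) * θ ≤ β) (hβ2 : β ≤ C * θ)
    (hlap : 2 * (0 * θ) ≤ 1 - lap ν θ) (hT : Tilt h β B)
    (hphi : trPhi μ ν B β θ ≤ ENNReal.ofReal (1 - 0 * θ)) (hv : C8 ≤ θ * v) (hBv : B ≤ v)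
    (hv0 : 0 ≤ v) (w : ℝ × ℝ) (h0 : 0 ≤ w.1) (h1 : w.1 ≤ w.2) (hw : w.2 ≤ v) (y : ℝ) (j : ℕ) :
    (noise μ ν) {z | (∀ i < j + 1, (z i).1 ≤ B ∧ 0 ≤ (z i).1 ∧ 0 ≤ (z i).2 ∧
        v < (pIter w z (i + 1)).2) ∧ y ≤ (pIter w z (j + 1)).2} ≤
      ENNReal.ofReal ((1 + D) * Real.exp (4 * C * θ * v - θ * y)) := by
  have hD0 : 0 ≤ D := by linarith
  set M : ℝ := (1 + D) * Real.exp (4 * C * θ * v) with hM
  have hpath := path_bound (μ := μ) (ν := ν) (j + 1) (a := excLD_a B v) (U := excLD_U β D θ v M)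
    (k := fun _ => 1) (excLD_meas_a B v) (excLD_meas_U β D θ v M)
    (fun i _ u hu0 hu1 => excLD_step hC1 hD hV hθ hβ0 hβ1 hβ2 hlap hT hphi hv hBv hv0 i u hu0 hu1)
    w h0 h1
  have hU0 : excLD_U β D θ v M 0 w = ENNReal.ofReal M := by
    simp [excLD_U, Set.piecewise, hw]
  rw [hU0, Finset.prod_const_one, one_mul] at hpath
  set E : Set (ℕ → ℝ × ℝ) := {z | (∀ i < j + 1, (z i).1 ≤ B ∧ 0 ≤ (z i).1 ∧ 0 ≤ (z i).2 ∧
        v < (pIter w z (i + 1)).2) ∧ y ≤ (pIter w z (j + 1)).2} with hE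
  have hpw : ∀ n : ℕ, Measurable (fun z : ℕ → ℝ × ℝ => pIter w z n) := fun n =>
    (measurable_pIter n).comp (measurable_const.prodMk measurable_id)
  have hEm : MeasurableSet E := by
    have h2 : E = (⋂ i ∈ Finset.range (j + 1), {z : ℕ → ℝ × ℝ | (z i).1 ≤ B ∧ 0 ≤ (z i).1 ∧
        0 ≤ (z i).2 ∧ v < (pIter w z (i + 1)).2}) ∩ {z | y ≤ (pIter w z (j + 1)).2} := by
      ext z
      simp [hE]
    rw [h2]
    refine MeasurableSet.inter (Finset.measurableSet_biInter _ fun i _ => ?_) ?_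
    · have hz1 : Measurable (fun z : ℕ → ℝ × ℝ => (z i).1) := by fun_prop
      have hz2 : Measurable (fun z : ℕ → ℝ × ℝ => (z i).2) := by fun_prop
      refine MeasurableSet.inter (measurableSet_le hz1 measurable_const)
        (MeasurableSet.inter (measurableSet_le measurable_const hz1)
          (MeasurableSet.inter (measurableSet_le measurable_const hz2)
            (measurableSet_lt measurable_const (measurable_snd.comp (hpw (i + 1))))))
    · exact measurableSet_le measurable_const (measurable_snd.comp (hpw (j + 1)))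
  have hpt : ∀ z : ℕ → ℝ × ℝ, E.indicator (fun _ => ENNReal.ofReal (Real.exp (θ * y))) z ≤
      (∏ i ∈ Finset.range (j + 1), excLD_a B v i (pIter w z i) (z i)) *
        excLD_U β D θ v M (j + 1) (pIter w z (j + 1)) := by
    intro z
    by_cases hz : z ∈ E
    · rw [Set.indicator_of_mem hz]
      obtain ⟨hz1, hz2⟩ := hz
      have hprod : ∏ i ∈ Finset.range (j + 1), excLD_a B v i (pIter w z i) (z i) = 1 := by
        refine Finset.prod_eq_one fun i hi => ?_
        rw [Finset.mem_range] at hi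
        by_cases hi0 : i = 0
        · subst hi0
          simp only [excLD_a, if_true]
          exact Set.indicator_of_mem
            (show z 0 ∈ {p : ℝ × ℝ | p.1 ≤ B ∧ 0 ≤ p.1 ∧ 0 ≤ p.2} from
              ⟨(hz1 0 hi).1, (hz1 0 hi).2.1, (hz1 0 hi).2.2.1⟩) _
        · obtain ⟨k, rfl⟩ := Nat.exists_eq_succ_of_ne_zero hi0
          simp only [excLD_a, hi0, if_false]
          exact Set.indicator_of_mem
            (show (pIter w z (k + 1), z (k + 1)) ∈
              {q : (ℝ × ℝ) × (ℝ × ℝ) | v < q.1.2 ∧ q.2.1 ≤ B} from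
              ⟨(hz1 k (by omega)).2.2.2, (hz1 (k + 1) hi).1⟩) _
      have hU : excLD_U β D θ v M (j + 1) (pIter w z (j + 1)) =
          ENNReal.ofReal (HF β D θ (pIter w z (j + 1))) := by
        simp [excLD_U]
      rw [hprod, hU, one_mul]
      refine ENNReal.ofReal_le_ofReal ?_
      unfold HF
      have e1 : Real.exp (θ * y) ≤ Real.exp (θ * (pIter w z (j + 1)).2) :=
        Real.exp_le_exp.2 (mul_le_mul_of_nonneg_left hz2 hθ.le)
      have e2 : (1 : ℝ) ≤ Real.exp (β * (pIter w z (j + 1)).1) + D := by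
        have := Real.exp_pos (β * (pIter w z (j + 1)).1)
        linarith
      calc Real.exp (θ * y) ≤ Real.exp (θ * (pIter w z (j + 1)).2) * 1 := by rw [mul_one]; exact e1
        _ ≤ _ := mul_le_mul_of_nonneg_left e2 (Real.exp_pos _).le
    · rw [Set.indicator_of_notMem hz]
      exact zero_le
  have hint : ENNReal.ofReal (Real.exp (θ * y)) * (noise μ ν) E ≤ ENNReal.ofReal M := by
    calc ENNReal.ofReal (Real.exp (θ * y)) * (noise μ ν) E
        = ∫⁻ z, E.indicator (fun _ => ENNReal.ofReal (Real.exp (θ * y))) z ∂(noise μ ν) := by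
          rw [lintegral_indicator_const hEm]
      _ ≤ _ := lintegral_mono hpt
      _ ≤ _ := hpath
  have hinv : ENNReal.ofReal (Real.exp (-(θ * y))) * ENNReal.ofReal (Real.exp (θ * y)) = 1 := by
    rw [← ENNReal.ofReal_mul (Real.exp_pos _).le, ← Real.exp_add, neg_add_cancel, Real.exp_zero,
      ENNReal.ofReal_one]
  calc (noise μ ν) E = ENNReal.ofReal (Real.exp (-(θ * y))) *
        (ENNReal.ofReal (Real.exp (θ * y)) * (noise μ ν) E) := by
        rw [← mul_assoc, hinv, one_mul]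
    _ ≤ ENNReal.ofReal (Real.exp (-(θ * y))) * ENNReal.ofReal M := mul_le_mul' le_rfl hint
    _ = _ := by
        rw [← ENNReal.ofReal_mul (Real.exp_pos _).le, hM]
        congr 1
        rw [sub_eq_add_neg, Real.exp_add]
        ring

/-- **Large deviations of an excursion with small jobs.** `P` from `exists_pot` (`e = 0`), `D = 4 C`, `θ = h' (B x) / (8 C)`;
`θ ≤ θ0` for large `x` (`Thr.tendsto_B`, `H.tendsto_deriv`); `Tilt h (C θ) B` because `C θ s = h' B s / 8 ≤ s h' s / 8 ≤ h s / 8`.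
`j = 0`: `ε x ≤ w₂ ≤ v` is impossible for large `x` (`Thr.ld_aux`). `j ≥ 1`: the first step gives `w₂(1) ≤ v + B ≤ 2 v`, so
`HF (β θ) D θ (w(1)) ≤ (1 + D) e^{4 C θ v}` (`β θ ≤ C θ`, `1 ≤ C`). From `w(1)`: `path_bound` for `j - 1` steps with
`a w p = 1{v < w₂, p.1 ≤ B}`, `U = ofReal (HF (β θ) D θ w)`, `k = 1`: this is `V_one` with `e = 0` (`C8 ≤ θ v` by `Thr.ld_aux`:
`v h' B → ∞`). Final value `HF ≥ e^{θ ε x}`. So the probability is `≤ (1 + D) e^{4 C θ v - θ ε x} ≤ (1 + D) e^{-θ ε x/2}`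
(`8 C v ≤ ε x`), and `θ ε x / 2 = (ε / (16 C)) x h' (B x) ≥ (|K|+1) log x + h (a x)` (`Thr.ld`), `1 + D ≤ x`. -/
theorem exc_ld (S : StdC μ ν h h') (T : Thr h h' B v) {ε : ℝ} (hε : 0 < ε) (K a : ℝ) :
    ∀ᶠ x : ℝ in atTop, ∀ w : ℝ × ℝ, 0 ≤ w.1 → w.1 ≤ w.2 → w.2 ≤ v x → ∀ j : ℕ,
      (noise μ ν) {z | (∀ i < j, (z i).1 ≤ B x ∧ 0 ≤ (z i).1 ∧ 0 ≤ (z i).2 ∧
          v x < (pIter w z (i + 1)).2) ∧ ε * x ≤ (pIter w z j).2} ≤
        ENNReal.ofReal (x ^ (-K) * Real.exp (-(h (a * x)))) := by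
  have H : HazC h h' := S.haz
  obtain ⟨β, θ0, c, C, P⟩ := exists_pot S
  have hC1 : 1 ≤ C := by have := P.pC; have := P.pc; linarith
  have hC0 : 0 < C := by linarith
  obtain ⟨C8, hC8, hV⟩ := V_one (μ := μ) (ν := ν) (D := 4 * C) S P.pc P.pC le_rfl
  have hθsmall : ∀ᶠ x : ℝ in atTop, h' (B x) / (8 * C) ≤ θ0 := by
    have h1 : Tendsto (fun x => h' (B x)) atTop (𝓝 0) := H.tendsto_deriv.comp (T.tendsto_B H)
    have h2 : (0 : ℝ) < 8 * C * θ0 := mul_pos (by linarith) P.pθ
    filter_upwards [h1.eventually (gt_mem_nhds h2)] with x hx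
    rw [div_le_iff₀ (by linarith)]
    linarith
  have hxh : ∀ᶠ x : ℝ in atTop, (|K| + 1) * Real.log x + h (a * x) ≤
      ε / (16 * C) * (x * h' (B x)) := T.ld H (|K| + 1) a (by positivity)
  filter_upwards [hθsmall, hxh, T.pos, T.le, T.ld_aux H (8 * C * C8), T.ld_aux H (8 * C / ε),
    eventually_ge_atTop (1 + 4 * C), eventually_ge_atTop (1 : ℝ)] with x hx1 hx2 hBpos hBv hx3 hx4
    hx5 hx6
  intro w h0 h1 hw j
  have hv0 : 0 < v x := hBpos.trans_le hBv
  have hh' : 0 < h' (B x) := H.pos _ hBpos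
  have h8v : 8 * C * v x ≤ ε * x := by
    have h3 := mul_le_mul_of_nonneg_left hx4.2 hε.le
    have h4 : ε * (8 * C / ε * v x) = 8 * C * v x := by
      field_simp
    linarith
  cases j with
  | zero =>
    have hemp : {z : ℕ → ℝ × ℝ | (∀ i < 0, (z i).1 ≤ B x ∧ 0 ≤ (z i).1 ∧ 0 ≤ (z i).2 ∧
        v x < (pIter w z (i + 1)).2) ∧ ε * x ≤ (pIter w z 0).2} = ∅ := by
      ext z
      simp only [Set.mem_ofPred_eq, Set.mem_empty_iff_false, iff_false, not_and, not_le]
      intro _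
      change w.2 < ε * x
      nlinarith
    rw [hemp, measure_empty]
    exact zero_le
  | succ j =>
    set θ : ℝ := h' (B x) / (8 * C) with hθd
    have hθ : 0 < θ := by positivity
    have hCθ : C * θ = h' (B x) / 8 := by
      rw [hθd]; field_simp
    have hβ1 := P.low θ hθ hx1
    have hβ2 := P.up θ hθ hx1
    have hβ0 : 0 ≤ β θ := by
      have : 0 < (1 + c) * θ := mul_pos (by have := P.pc; linarith) hθ
      linarith
    have hTC : Tilt h (C * θ) (B x) := by
      intro s hs0 hsB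
      rcases hs0.eq_or_lt with rfl | hs
      · rw [mul_zero]
        have := H.zero
        linarith
      · have h3 := H.anti s (B x) hs hsB
        have h4 := H.mul_deriv_le hs
        have h5 : s * h' (B x) ≤ s * h' s := mul_le_mul_of_nonneg_left h3 hs.le
        have h6 : 0 ≤ s * h' (B x) := mul_nonneg hs.le hh'.le
        rw [hCθ]
        nlinarith
    have hTβ : Tilt h (β θ) (B x) := by
      intro s hs0 hsB
      exact (mul_le_mul_of_nonneg_right hβ2 hs0).trans (hTC s hs0 hsB)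
    have hv8 : C8 ≤ θ * v x := by
      rw [hθd, div_mul_eq_mul_div, le_div_iff₀ (by linarith)]
      have := hx3.1
      linarith
    have hcore := excLD_core (μ := μ) (ν := ν) (h := h) (c := c) (C := C) (D := 4 * C) (C8 := C8)
      (β := β θ) (θ := θ) (B := B x) (v := v x) hC1 le_rfl hV hθ hβ0 hβ1 hβ2
      (P.lapl θ hθ hx1) hTβ (P.sub θ (B x) hθ hx1 hTC) hv8 hBv hv0.le w h0 h1 hw (ε * x) j
    refine hcore.trans (ENNReal.ofReal_le_ofReal ?_)
    have hx0 : 0 < x := by linarith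
    have e0 : θ * (8 * C * v x) ≤ θ * (ε * x) := mul_le_mul_of_nonneg_left h8v hθ.le
    have e1 : 4 * C * θ * v x - θ * (ε * x) ≤ -(ε / (16 * C) * (x * h' (B x))) := by
      have e2 : ε / (16 * C) * (x * h' (B x)) = θ * (ε * x) / 2 := by
        rw [hθd]
        field_simp
        ring
      rw [e2]
      nlinarith
    have e3 : 4 * C * θ * v x - θ * (ε * x) ≤ -((|K| + 1) * Real.log x) + -(h (a * x)) := by
      linarith
    have e4 : Real.exp (-((|K| + 1) * Real.log x)) = x ^ (-(|K| + 1)) := by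
      rw [Real.rpow_def_of_pos hx0]
      congr 1
      ring
    calc (1 + 4 * C) * Real.exp (4 * C * θ * v x - θ * (ε * x))
        ≤ (1 + 4 * C) * Real.exp (-((|K| + 1) * Real.log x) + -(h (a * x))) :=
          mul_le_mul_of_nonneg_left (Real.exp_le_exp.2 e3) (by linarith)
      _ = (1 + 4 * C) * (x ^ (-(|K| + 1)) * Real.exp (-(h (a * x)))) := by
          rw [Real.exp_add, e4]
      _ ≤ x * (x ^ (-(|K| + 1)) * Real.exp (-(h (a * x)))) := by
          refine mul_le_mul_of_nonneg_right hx5 ?_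
          have := Real.rpow_pos_of_pos hx0 (-(|K| + 1))
          positivity
      _ = x ^ (-|K|) * Real.exp (-(h (a * x))) := by
          rw [← mul_assoc]
          congr 1
          rw [show (-|K| : ℝ) = 1 + -(|K| + 1) by ring, Real.rpow_add hx0, Real.rpow_one]
      _ ≤ x ^ (-K) * Real.exp (-(h (a * x))) := by
          refine mul_le_mul_of_nonneg_right ?_ (Real.exp_pos _).le
          refine Real.rpow_le_rpow_of_exponent_le hx6 ?_
          have := le_abs_self K
          linarith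

/-- integrated form -/
theorem exc_ld_pi (S : StdC μ ν h h') (T : Thr h h' B v) {ε : ℝ} (hε : 0 < ε) (K a : ℝ) :
    ∀ᶠ x : ℝ in atTop, ∀ π : Measure (ℝ × ℝ), IsStationaryKW μ ν π → ∀ j : ℕ,
      (π.prod (noise μ ν)) {q | q ∈ Okq ∧ q.1.2 ≤ v x ∧
          (∀ i < j, (q.2 i).1 ≤ B x ∧ v x < (pIter q.1 q.2 (i + 1)).2) ∧
          ε * x ≤ (pIter q.1 q.2 j).2} ≤
        ENNReal.ofReal (x ^ (-K) * Real.exp (-(h (a * x)))) := by
  filter_upwards [exc_ld S T hε K a] with x hx π hπ j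
  have hπp : IsProbabilityMeasure π := hπ.1
  set G : Set ((ℝ × ℝ) × (ℕ → ℝ × ℝ)) := {q | q ∈ Okq ∧ q.1.2 ≤ v x ∧
          (∀ i < j, (q.2 i).1 ≤ B x ∧ v x < (pIter q.1 q.2 (i + 1)).2) ∧
          ε * x ≤ (pIter q.1 q.2 j).2} with hG
  have hGm : MeasurableSet G := by
    have h2 : G = Okq ∩ ({q | q.1.2 ≤ v x} ∩
        ((⋂ i ∈ Finset.range j, {q : (ℝ × ℝ) × (ℕ → ℝ × ℝ) | (q.2 i).1 ≤ B x ∧
          v x < (pIter q.1 q.2 (i + 1)).2}) ∩ {q | ε * x ≤ (pIter q.1 q.2 j).2})) := by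
      ext q
      simp only [hG, Set.mem_inter_iff, Set.mem_iInter, Finset.mem_range, Set.mem_ofPred_eq]
    rw [h2]
    refine measurableSet_Okq.inter (MeasurableSet.inter ?_ (MeasurableSet.inter
      (Finset.measurableSet_biInter _ fun i _ => ?_) ?_))
    · exact measurableSet_le (measurable_snd.comp measurable_fst) measurable_const
    · have hz1 : Measurable (fun q : (ℝ × ℝ) × (ℕ → ℝ × ℝ) => (q.2 i).1) := by fun_prop
      exact MeasurableSet.inter (measurableSet_le hz1 measurable_const)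
        (measurableSet_lt measurable_const (measurable_snd.comp (measurable_pIter (i + 1))))
    · exact measurableSet_le measurable_const (measurable_snd.comp (measurable_pIter j))
  rw [Measure.prod_apply hGm]
  calc ∫⁻ w, (noise μ ν) (Prod.mk w ⁻¹' G) ∂π
      ≤ ∫⁻ _w : ℝ × ℝ, ENNReal.ofReal (x ^ (-K) * Real.exp (-(h (a * x)))) ∂π := by
        refine lintegral_mono fun w => ?_
        by_cases hw : 0 ≤ w.1 ∧ w.1 ≤ w.2 ∧ w.2 ≤ v x
        · refine le_trans (measure_mono ?_) (hx w hw.1 hw.2.1 hw.2.2 j)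
          intro z hz
          obtain ⟨hok, -, hz1, hz2⟩ := hz
          refine ⟨fun i hi => ⟨(hz1 i hi).1, (hok.2.2 i).1, (hok.2.2 i).2, (hz1 i hi).2⟩, hz2⟩
        · have hemp : Prod.mk w ⁻¹' G = ∅ := by
            ext z
            simp only [Set.mem_preimage, Set.mem_empty_iff_false, iff_false]
            rintro ⟨hok, hwv, -⟩
            exact hw ⟨hok.1, hok.2.1, hwv⟩
          rw [hemp, measure_empty]
          exact zero_le
    _ = _ := by rw [lintegral_const, measure_univ, mul_one]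

end Pool.Agent.Lib.MP_04add8_pr.Cv
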