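import Mathlib
import Pool.Agent.Lib.MP_04add8_pr.Cv.ExcLD
import Pool.Agent.Lib.MP_04add8_pr.Cv.VTwo
import Pool.Agent.Lib.MP_04add8_pr.Cv.MY
import Pool.Agent.Lib.MP_04add8_pr.Cv.RRf
import Pool.Agent.Lib.MP_04add8_pr.Cv.HLog

open MeasureTheory ProbabilityTheory Filter Topology
open scoped ENNReal

set_option linter.unusedSectionVars false

namespace Pool.Agent.Lib.MP_04add8_pr.Cv

open Pool.Agent.Lib.MP_04add8_pr.Gen

variable {h h' : ℝ → ℝ} {μ ν : Measure ℝ} [IsProbabilityMeasure μ]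
  [IsProbabilityMeasure ν]

variable {B v : ℝ → ℝ}

/-- the step of the big job -/
private lemma coneTwo_jump (S : StdC μ ν h h') {β : ℝ → ℝ} {θ0 c C D Y G b v B R : ℝ}
    (P : Pot μ ν h β θ0 c C 0) (hD : 0 ≤ D) (hv : 0 < v) (hvθ : h' v ≤ θ0)
    (hG : h ((2 + C) * b) ≤ G)
    (hR : ∫⁻ s, (Set.Iic Y).indicator (fun _ => (1 : ℝ≥0∞)) s *
      ENNReal.ofReal (Real.exp (h s)) ∂μ ≤ ENNReal.ofReal R)
    (w : ℝ × ℝ) (h0 : 0 ≤ w.1) (h1 : w.1 ≤ w.2) (hw : w.2 < b) :
    ∫⁻ p, (if B < p.1 ∧ p.1 ≤ Y ∧ v < (kwStep w p.1 p.2).2 then (1 : ℝ≥0∞) else 0) *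
      VV h β D θ0 (kwStep w p.1 p.2) ∂(μ.prod ν) ≤
        ENNReal.ofReal ((1 + D) * Real.exp G * R) := by
  have H := S.haz
  have hC1 : 1 ≤ C := by have := P.pc; have := P.pC; linarith
  have hb : 0 ≤ b := by linarith
  have hae := law_prod_nonneg S.law S.hν
  have hpt : ∀ᵐ p ∂(μ.prod ν),
      (if B < p.1 ∧ p.1 ≤ Y ∧ v < (kwStep w p.1 p.2).2 then (1 : ℝ≥0∞) else 0) *
      VV h β D θ0 (kwStep w p.1 p.2) ≤
      ENNReal.ofReal ((1 + D) * Real.exp G) *
        ((Set.Iic Y).indicator (fun _ => (1 : ℝ≥0∞)) p.1 *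
          ENNReal.ofReal (Real.exp (h p.1))) := by
    filter_upwards [hae] with p hp
    by_cases hc : B < p.1 ∧ p.1 ≤ Y ∧ v < (kwStep w p.1 p.2).2
    · rw [if_pos hc, one_mul, Set.indicator_of_mem (show p.1 ∈ Set.Iic Y from hc.2.1), one_mul,
        ← ENNReal.ofReal_mul (by positivity)]
      have hw1 : (kwStep w p.1 p.2).1 ≤ w.2 := by
        refine (min_le_right _ _).trans (max_le ?_ (h0.trans h1))
        linarith [hp.2]
      have hw2 : (kwStep w p.1 p.2).2 ≤ p.1 + w.1 + w.2 := by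
        refine max_le (max_le ?_ ?_) (max_le ?_ ?_) <;> linarith [hp.1, hp.2]
      have hw0 : 0 ≤ (kwStep w p.1 p.2).1 := kwStep_fst_nonneg _ _ _
      have hw3 : 0 < (kwStep w p.1 p.2).2 := hv.trans hc.2.2
      have hCw : C * (kwStep w p.1 p.2).1 ≤ C * w.2 :=
        mul_le_mul_of_nonneg_left hw1 (by linarith)
      have hCw0 : 0 ≤ C * (kwStep w p.1 p.2).1 := mul_nonneg (by linarith) hw0
      have hth : h' ((kwStep w p.1 p.2).2 + C * (kwStep w p.1 p.2).1) ≤ θ0 := by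
        refine (H.anti v _ hv ?_).trans hvθ
        linarith [hc.2.2]
      refine (VV_le_h H P hD hw0 hw3 hth).trans (ENNReal.ofReal_le_ofReal ?_)
      have hle : (kwStep w p.1 p.2).2 + C * (kwStep w p.1 p.2).1 ≤ p.1 + (2 + C) * b := by
        have : C * w.2 ≤ C * b := mul_le_mul_of_nonneg_left hw.le (by linarith)
        linarith
      have hh : h ((kwStep w p.1 p.2).2 + C * (kwStep w p.1 p.2).1) ≤ h p.1 + G := by
        refine (H.mono hle).trans ((H.add_le hp.1 (by positivity)).trans ?_)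
        linarith
      calc (1 + D) * Real.exp (h ((kwStep w p.1 p.2).2 + C * (kwStep w p.1 p.2).1))
          ≤ (1 + D) * Real.exp (h p.1 + G) := by
            refine mul_le_mul_of_nonneg_left (Real.exp_le_exp.2 hh) (by linarith)
        _ = (1 + D) * Real.exp G * Real.exp (h p.1) := by
            rw [Real.exp_add]; ring
    · rw [if_neg hc, zero_mul]
      exact zero_le
  have hm : Measurable (fun s : ℝ => (Set.Iic Y).indicator (fun _ => (1 : ℝ≥0∞)) s *
      ENNReal.ofReal (Real.exp (h s))) :=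
    (measurable_const.indicator measurableSet_Iic).mul
      (ENNReal.measurable_ofReal.comp (Real.continuous_exp.comp H.cont).measurable)
  have hfst : ∫⁻ p, ((Set.Iic Y).indicator (fun _ => (1 : ℝ≥0∞)) p.1 *
      ENNReal.ofReal (Real.exp (h p.1))) ∂(μ.prod ν) =
      ∫⁻ s, (Set.Iic Y).indicator (fun _ => (1 : ℝ≥0∞)) s *
        ENNReal.ofReal (Real.exp (h s)) ∂μ := by
    have h3 : AEMeasurable (fun p : ℝ × ℝ => (Set.Iic Y).indicator (fun _ => (1 : ℝ≥0∞)) p.1 *
        ENNReal.ofReal (Real.exp (h p.1))) (μ.prod ν) := (hm.comp measurable_fst).aemeasurable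
    rw [lintegral_prod _ h3]
    refine lintegral_congr fun s => ?_
    show ∫⁻ _, ((Set.Iic Y).indicator (fun _ => (1 : ℝ≥0∞)) s *
      ENNReal.ofReal (Real.exp (h s))) ∂ν = _
    rw [lintegral_const, measure_univ, mul_one]
  refine (lintegral_mono_ae hpt).trans ?_
  rw [lintegral_const_mul' _ _ ENNReal.ofReal_ne_top, hfst,
    ENNReal.ofReal_mul (by positivity : 0 ≤ (1 + D) * Real.exp G)]
  gcongr

/-- the path with one big job at the step `j` -/
private lemma coneTwo_path {β : ℝ → ℝ} {θ0 D Y b v B x : ℝ} {L c0 : ℝ≥0∞}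
    (hjump : ∀ w : ℝ × ℝ, 0 ≤ w.1 → w.1 ≤ w.2 → w.2 < b →
      ∫⁻ p, (if B < p.1 ∧ p.1 ≤ Y ∧ v < (kwStep w p.1 p.2).2 then (1 : ℝ≥0∞) else 0) *
        VV h β D θ0 (kwStep w p.1 p.2) ∂(μ.prod ν) ≤ c0)
    (hsmall : ∀ w : ℝ × ℝ, 0 ≤ w.1 → w.1 ≤ w.2 → v < w.2 →
      ∫⁻ p, (Set.Iic B).indicator (fun _ => (1 : ℝ≥0∞)) p.1 *
        VV h β D θ0 (kwStep w p.1 p.2) ∂(μ.prod ν) ≤ VV h β D θ0 w)
    (hfin : ∀ w : ℝ × ℝ, 0 ≤ w.1 → w.1 ≤ w.2 → x < w.1 → L ≤ VV h β D θ0 w)
    {π : Measure (ℝ × ℝ)} (hπ : IsStationaryKW μ ν π) {n j : ℕ} (hj : j < n) :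
    L * (π.prod (noise μ ν)) {q | q ∈ Okq ∧ (pIter q.1 q.2 j).2 < b ∧ B < (q.2 j).1 ∧
      (q.2 j).1 ≤ Y ∧ v < (pIter q.1 q.2 (j + 1)).2 ∧
      (∀ i, j < i → i < n → (q.2 i).1 ≤ B ∧ v < (pIter q.1 q.2 i).2) ∧
      x < (pIter q.1 q.2 n).1} ≤ c0 := by
  have hp : IsProbabilityMeasure π := hπ.1
  have hn : IsProbabilityMeasure (noise μ ν) := inferInstance
  set a : ℕ → ℝ × ℝ → ℝ × ℝ → ℝ≥0∞ := fun i w p =>
    if i < j then 1 else if i = j then
      (if w.2 < b ∧ (B < p.1 ∧ p.1 ≤ Y ∧ v < (kwStep w p.1 p.2).2) then 1 else 0)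
    else (if v < w.2 ∧ p.1 ≤ B then 1 else 0) with ha
  set U : ℕ → ℝ × ℝ → ℝ≥0∞ := fun i w => if i ≤ j then c0 else VV h β D θ0 w with hU
  have hkw : Measurable (fun q : (ℝ × ℝ) × (ℝ × ℝ) => (kwStep q.1 q.2.1 q.2.2).2) :=
    measurable_snd.comp measurable_kwStep
  have ham : ∀ i, Measurable (fun q : (ℝ × ℝ) × (ℝ × ℝ) => a i q.1 q.2) := by
    intro i
    rcases lt_trichotomy i j with h1 | h1 | h1
    · have : (fun q : (ℝ × ℝ) × (ℝ × ℝ) => a i q.1 q.2) = fun _ => 1 := by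
        funext q
        simp only [ha, if_pos h1]
      rw [this]
      exact measurable_const
    · have : (fun q : (ℝ × ℝ) × (ℝ × ℝ) => a i q.1 q.2) = fun q =>
          (if q.1.2 < b ∧ (B < q.2.1 ∧ q.2.1 ≤ Y ∧ v < (kwStep q.1 q.2.1 q.2.2).2)
            then (1 : ℝ≥0∞) else 0) := by
        funext q
        simp only [ha, if_neg (show ¬ i < j by omega), if_pos h1]
      rw [this]
      refine Measurable.ite ?_ measurable_const measurable_const
      refine (measurableSet_lt (measurable_snd.comp measurable_fst) measurable_const).inter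
        ((measurableSet_lt measurable_const (measurable_fst.comp measurable_snd)).inter
          ((measurableSet_le (measurable_fst.comp measurable_snd) measurable_const).inter
            (measurableSet_lt measurable_const hkw)))
    · have : (fun q : (ℝ × ℝ) × (ℝ × ℝ) => a i q.1 q.2) = fun q =>
          (if v < q.1.2 ∧ q.2.1 ≤ B then (1 : ℝ≥0∞) else 0) := by
        funext q
        simp only [ha, if_neg (show ¬ i < j by omega), if_neg (show ¬ i = j by omega)]
      rw [this]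
      refine Measurable.ite ?_ measurable_const measurable_const
      exact (measurableSet_lt measurable_const (measurable_snd.comp measurable_fst)).inter
        (measurableSet_le (measurable_fst.comp measurable_snd) measurable_const)
  have hUm : ∀ i, Measurable (U i) := by
    intro i
    by_cases h1 : i ≤ j
    · have : U i = fun _ => c0 := by
        funext w
        simp only [hU, if_pos h1]
      rw [this]
      exact measurable_const
    · have : U i = VV h β D θ0 := by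
        funext w
        simp only [hU, if_neg h1]
      rw [this]
      exact measurable_VV β D θ0
  have hstep : ∀ i < n, ∀ w : ℝ × ℝ, 0 ≤ w.1 → w.1 ≤ w.2 →
      ∫⁻ p, a i w p * U (i + 1) (kwStep w p.1 p.2) ∂(μ.prod ν) ≤ (fun _ => 1 : ℕ → ℝ≥0∞) i *
        U i w := by
    intro i _ w h0 h1
    rw [one_mul]
    rcases lt_trichotomy i j with h2 | h2 | h2
    · have e1 : ∀ p : ℝ × ℝ, a i w p * U (i + 1) (kwStep w p.1 p.2) = c0 := by
        intro p
        simp only [ha, hU, if_pos h2, if_pos (show i + 1 ≤ j by omega), one_mul]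
      simp only [e1]
      rw [lintegral_const, measure_univ, mul_one]
      simp only [hU, if_pos h2.le]
      exact le_rfl
    · by_cases h3 : w.2 < b
      · have e1 : ∀ p : ℝ × ℝ, a i w p * U (i + 1) (kwStep w p.1 p.2) =
            (if B < p.1 ∧ p.1 ≤ Y ∧ v < (kwStep w p.1 p.2).2 then (1 : ℝ≥0∞) else 0) *
              VV h β D θ0 (kwStep w p.1 p.2) := by
          intro p
          simp only [ha, hU, if_neg (show ¬ i < j by omega), if_pos h2,
            if_neg (show ¬ i + 1 ≤ j by omega), h3, true_and]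
        simp only [e1]
        refine (hjump w h0 h1 h3).trans ?_
        simp only [hU, if_pos h2.le]
        exact le_rfl
      · have e1 : ∀ p : ℝ × ℝ, a i w p * U (i + 1) (kwStep w p.1 p.2) = 0 := by
          intro p
          simp only [ha, if_neg (show ¬ i < j by omega), if_pos h2, h3, false_and, if_false,
            zero_mul]
        simp only [e1, lintegral_zero]
        exact zero_le
    · by_cases h3 : v < w.2
      · have e1 : ∀ p : ℝ × ℝ, a i w p * U (i + 1) (kwStep w p.1 p.2) =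
            (Set.Iic B).indicator (fun _ => (1 : ℝ≥0∞)) p.1 *
              VV h β D θ0 (kwStep w p.1 p.2) := by
          intro p
          simp only [ha, hU, if_neg (show ¬ i < j by omega), if_neg (show ¬ i = j by omega),
            if_neg (show ¬ i + 1 ≤ j by omega), h3, true_and, Set.indicator_apply, Set.mem_Iic]
        simp only [e1]
        refine (hsmall w h0 h1 h3).trans ?_
        simp only [hU, if_neg (show ¬ i ≤ j by omega)]
        exact le_rfl
      · have e1 : ∀ p : ℝ × ℝ, a i w p * U (i + 1) (kwStep w p.1 p.2) = 0 := by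
          intro p
          simp only [ha, if_neg (show ¬ i < j by omega), if_neg (show ¬ i = j by omega), h3,
            false_and, if_false, zero_mul]
        simp only [e1, lintegral_zero]
        exact zero_le
  set G : (ℝ × ℝ) × (ℕ → ℝ × ℝ) → ℝ≥0∞ := fun q =>
    (∏ i ∈ Finset.range n, a i (pIter q.1 q.2 i) (q.2 i)) * U n (pIter q.1 q.2 n) with hG
  have hGm : Measurable G := by
    refine Measurable.mul ?_ ((hUm n).comp (measurable_pIter n))
    refine Finset.measurable_prod _ (fun i _ => ?_)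
    exact (ham i).comp ((measurable_pIter i).prodMk
      ((measurable_pi_apply i).comp measurable_snd))
  have hsub : {q : (ℝ × ℝ) × (ℕ → ℝ × ℝ) | q ∈ Okq ∧ (pIter q.1 q.2 j).2 < b ∧ B < (q.2 j).1 ∧
      (q.2 j).1 ≤ Y ∧ v < (pIter q.1 q.2 (j + 1)).2 ∧
      (∀ i, j < i → i < n → (q.2 i).1 ≤ B ∧ v < (pIter q.1 q.2 i).2) ∧
      x < (pIter q.1 q.2 n).1} ⊆ {q | L ≤ G q} := by
    rintro q ⟨hok, hq1, hq2, hq3, hq4, hq5, hq6⟩
    show L ≤ G q
    have hprod : ∏ i ∈ Finset.range n, a i (pIter q.1 q.2 i) (q.2 i) = 1 := by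
      refine Finset.prod_eq_one fun i hi => ?_
      have hi' := Finset.mem_range.1 hi
      rcases lt_trichotomy i j with h1 | h1 | h1
      · simp only [ha, if_pos h1]
      · subst h1
        have h2 : v < (kwStep (pIter q.1 q.2 i) (q.2 i).1 (q.2 i).2).2 := by
          rw [← pIter_succ]
          exact hq4
        simp only [ha, if_neg (lt_irrefl i), if_true]
        rw [if_pos ⟨hq1, hq2, hq3, h2⟩]
      · obtain ⟨h2, h3⟩ := hq5 i h1 hi'
        simp only [ha, if_neg (show ¬ i < j by omega), if_neg (show ¬ i = j by omega)]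
        rw [if_pos ⟨h3, h2⟩]
    have hord := pIter_ordered hok.1 hok.2.1 q.2 n
    have hUn : U n (pIter q.1 q.2 n) = VV h β D θ0 (pIter q.1 q.2 n) := by
      simp only [hU, if_neg (show ¬ n ≤ j by omega)]
    simp only [hG, hprod, hUn, one_mul]
    exact hfin _ hord.1 hord.2 hq6
  calc L * (π.prod (noise μ ν)) {q | q ∈ Okq ∧ (pIter q.1 q.2 j).2 < b ∧ B < (q.2 j).1 ∧
      (q.2 j).1 ≤ Y ∧ v < (pIter q.1 q.2 (j + 1)).2 ∧
      (∀ i, j < i → i < n → (q.2 i).1 ≤ B ∧ v < (pIter q.1 q.2 i).2) ∧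
      x < (pIter q.1 q.2 n).1}
      ≤ L * (π.prod (noise μ ν)) {q | L ≤ G q} := by
        gcongr
    _ ≤ ∫⁻ q, G q ∂(π.prod (noise μ ν)) := mul_meas_ge_le_lintegral hGm L
    _ = ∫⁻ w, ∫⁻ z, G (w, z) ∂(noise μ ν) ∂π := lintegral_prod _ hGm.aemeasurable
    _ ≤ ∫⁻ _, c0 ∂π := by
        refine lintegral_mono_ae ?_
        filter_upwards [hπ.ae_ordered] with w hw
        have h1 := path_bound (μ := μ) (ν := ν) n (a := a) (U := U) (k := fun _ => 1) ham hUm
          hstep w hw.1 hw.2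
        refine h1.trans ?_
        simp only [Finset.prod_const_one, one_mul]
        simp only [hU, if_pos (Nat.zero_le j)]
        exact le_rfl
    _ = c0 := by rw [lintegral_const, measure_univ, mul_one]

private lemma coneTwo_cover (x v B Y ε : ℝ) (n : ℕ) :
    Cone x v B Y n ⊆
      {q | q ∈ Okq ∧ q.1.2 ≤ v ∧ (∀ i < n, (q.2 i).1 ≤ B ∧ v < (pIter q.1 q.2 (i + 1)).2) ∧
          1 * x ≤ (pIter q.1 q.2 n).2} ∪
      ⋃ j ∈ Finset.range n,
        ({q | q ∈ Okq ∧ q.1.2 ≤ v ∧ (∀ i < j, (q.2 i).1 ≤ B ∧ v < (pIter q.1 q.2 (i + 1)).2) ∧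
          ε * x ≤ (pIter q.1 q.2 j).2} ∪
        {q | q ∈ Okq ∧ (pIter q.1 q.2 j).2 < ε * x ∧ B < (q.2 j).1 ∧
          (q.2 j).1 ≤ Y ∧ v < (pIter q.1 q.2 (j + 1)).2 ∧
          (∀ i, j < i → i < n → (q.2 i).1 ≤ B ∧ v < (pIter q.1 q.2 i).2) ∧
          x < (pIter q.1 q.2 n).1}) := by
  rintro q ⟨⟨hok, hq1, hq2, hq3⟩, hone⟩
  by_cases hs : ∀ i < n, (q.2 i).1 ≤ B
  · left
    refine ⟨hok, hq1, fun i hi => ⟨hs i hi, (hq2 i hi).1⟩, ?_⟩
    have := pIter_ordered hok.1 hok.2.1 q.2 n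
    rw [one_mul]
    exact hq3.le.trans this.2
  · right
    push Not at hs
    obtain ⟨j, hj, hjB⟩ := hs
    have hsm : ∀ i < n, i ≠ j → (q.2 i).1 ≤ B := by
      intro i hi hij
      by_contra hc
      exact hij (hone i hi j hj (not_le.1 hc) hjB)
    simp only [Set.mem_iUnion, Finset.mem_range]
    refine ⟨j, hj, ?_⟩
    by_cases hε : ε * x ≤ (pIter q.1 q.2 j).2
    · left
      exact ⟨hok, hq1, fun i hi => ⟨hsm i (hi.trans hj) hi.ne, (hq2 i (hi.trans hj)).1⟩, hε⟩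
    · right
      refine ⟨hok, not_le.1 hε, hjB, (hq2 j hj).2.2, (hq2 j hj).1, fun i hji hin => ⟨hsm i hin
        hji.ne', ?_⟩, hq3⟩
      obtain ⟨m, rfl⟩ : ∃ m, i = m + 1 := ⟨i - 1, by omega⟩
      exact (hq2 m (by omega)).1

/-- **At most one nonsmall job is negligible when the one-job rate is larger than `(2 + δ) h`.**
`D = 4 C`, `N = ⌈x²⁰⌉`. As `RR x ≤ h ((1+C) x)` (`RR_le_h`), `2 h x ≤ h (a x)` with `a = 1 + C`. Let `q ∈ Cone x v B (x²) n`, `n ≤ N`.
(0) All the jobs `i < n` small: then `x < w₁(n) ≤ w₂(n)`, `exc_ld_pi` with `ε = 1`, `j = n`.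
(1) Exactly one nonsmall job, at the step `j < n`. Choose `ε > 0` with `h ((2 + C) ε x) ≤ (δ/2) h x` eventually (`hsm`).
 If `ε x ≤ w₂(j)`: `exc_ld_pi`. Otherwise `y = w(j)` has `y₂ < ε x`. Path: integrate out the first `j` steps (probability `≤ 1`), then
 the step `j`: `u = (q.2 j).1 ∈ (B, x²]`, `w' = kwStep y u t`, `v < w'₂`, and `VV w' ≤ (1+D) e^{h (w'₂ + C w'₁)}` (`VV_le_h`;
 `h' (w'₂ + C w'₁) ≤ h' v ≤ θ0`), `w'₂ + C w'₁ ≤ (y₁ + u) + y₂ + C y₂ ≤ u + (2 + C) ε x`, so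
 `VV w' ≤ (1+D) e^{h u} e^{(δ/2) h x}` (`H.add_le`, monotonicity); `∫_{u ≤ x²} e^{h u} dμ ≤ x³` (`law_exp_trunc_lin`). Then the steps
 `j+1, …, n-1` are small with `v < w₂`: `V_two` at the level `v x` (`e = 0`, `Tilt h (C h' v) B` by `Thr.tilt`), and the final
 value is `VV (w(n)) ≥ e^{RR x} ≥ e^{(2+δ) h x}` (`VV_ge_RR`, `h2`). So `P ≤ (1+D) x³ e^{(δ/2) h x - (2+δ) h x}
 ≤ x^(-K-50) e^{-2 h x}` (`H.log_le`). Use `path_bound` from time `0` with `a i = 1{p.1 ≤ B}` (`i < j`), `U i = ` the constant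
 `ofReal ((1+D) x³ e^{(δ/2) h x})` for `i ≤ j` (trivial steps, `k = 1`), `a j w p = 1{w₂ < ε x, B < p.1 ≤ x², v < (kwStep w p.1 p.2).2}`,
 `U (i) = VV` for `i > j`, `a i = 1{v < w₂, p.1 ≤ B}` for `i > j`, `k = 1`; `PathEv.path_event` may be used.
Sum over `j < n ≤ N`. -/
theorem cone_two (S : StdC μ ν h h') (T : Thr h h' B v) {β : ℝ → ℝ} {θ0 c C : ℝ}
    (P : Pot μ ν h β θ0 c C 0) {δ : ℝ} (hδ : 0 < δ)
    (h2 : ∀ᶠ x : ℝ in atTop, (2 + δ) * h x ≤ RR h β θ0 x)
    (hsm : ∀ δ' : ℝ, 0 < δ' → ∃ ε : ℝ, 0 < ε ∧ ∀ᶠ x : ℝ in atTop, h (ε * x) ≤ δ' * h x)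
    (K : ℝ) :
    ∀ᶠ x : ℝ in atTop, ∀ π : Measure (ℝ × ℝ), IsStationaryKW μ ν π →
      ∑ n ∈ Finset.Icc 1 ⌈x ^ 20⌉₊, (π.prod (noise μ ν)) (Cone x (v x) (B x) (x ^ 2) n) ≤
        ENNReal.ofReal (x ^ (-K) * Real.exp (-(2 * h x))) := by
  have H := S.haz
  have hC1 : 1 ≤ C := by have := P.pc; have := P.pC; linarith
  have hC0 : 0 < C := by linarith
  obtain ⟨ε0, hε0, hsm0⟩ := hsm (δ / 2) (by positivity)
  set ε : ℝ := ε0 / (2 + C) with hεdef
  have hε : 0 < ε := by positivity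
  have hεC : (2 + C) * ε = ε0 := by
    rw [hεdef]
    field_simp
  obtain ⟨CM, hCM1, hCM⟩ := law_exp_trunc_lin (μ := μ) H S.law
  obtain ⟨v1, hv1, hV⟩ := V_two (μ := μ) (ν := ν) S (θ0 := θ0) (c := c) (C := C) (D := 4 * C)
    P.pθ P.pc P.pC le_rfl
  have hld1 := exc_ld_pi (μ := μ) (ν := ν) S T (ε := 1) one_pos (K + 50) (1 + C)
  have hldε := exc_ld_pi (μ := μ) (ν := ν) S T hε (K + 50) (1 + C)
  have hvt := T.tendsto_v H
  have hder : ∀ᶠ x : ℝ in atTop, h' (v x) ≤ θ0 :=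
    (H.tendsto_deriv.comp hvt).eventually_le_const P.pθ
  have hderx : ∀ᶠ x : ℝ in atTop, h' ((1 + C) * x) ≤ θ0 :=
    (H.tendsto_deriv.comp (tendsto_id.const_mul_atTop (by linarith : 0 < 1 + C))).eventually_le_const
      P.pθ
  filter_upwards [hld1, hldε, h2, hsm0, hder, hderx, hvt.eventually_ge_atTop v1,
    T.tilt H C, H.log_le ((K + 50) * 2 / δ), eventually_ge_atTop (2 : ℝ),
    eventually_ge_atTop (1 + 4 * C), eventually_ge_atTop (2 * CM)] with x hx1 hxε hx2 hxs hxd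
    hxdx hxv hxt hxlog hx hxD hxM
  intro π hπ
  have hp : IsProbabilityMeasure π := hπ.1
  have hx0 : 0 < x := by linarith
  have hvpos : 0 < v x := by linarith
  have hRRx : (2 + δ) * h x ≤ h ((1 + C) * x) := hx2.trans (RR_le_h H P hx0 hxdx)
  have hhx := H.nonneg x
  set r0 : ℝ := x ^ (-(K + 50)) * Real.exp (-(h ((1 + C) * x))) with hr0
  set c0 : ℝ := (1 + 4 * C) * Real.exp (δ / 2 * h x) * x ^ 3 with hc0
  set r1 : ℝ := c0 * Real.exp (-((2 + δ) * h x)) with hr1
  have hr0n : 0 ≤ r0 := by positivity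
  have hc0n : 0 ≤ c0 := by positivity
  have hr1n : 0 ≤ r1 := by positivity
  -- one big job at the step `j`
  have hF : ∀ n j : ℕ, j < n →
      (π.prod (noise μ ν)) {q | q ∈ Okq ∧ (pIter q.1 q.2 j).2 < ε * x ∧ B x < (q.2 j).1 ∧
        (q.2 j).1 ≤ x ^ 2 ∧ v x < (pIter q.1 q.2 (j + 1)).2 ∧
        (∀ i, j < i → i < n → (q.2 i).1 ≤ B x ∧ v x < (pIter q.1 q.2 i).2) ∧
        x < (pIter q.1 q.2 n).1} ≤ ENNReal.ofReal r1 := by
    intro n j hj
    have hR : ∫⁻ s, (Set.Iic (x ^ 2)).indicator (fun _ => (1 : ℝ≥0∞)) s *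
        ENNReal.ofReal (Real.exp (h s)) ∂μ ≤ ENNReal.ofReal (x ^ 3) := by
      refine (hCM (x ^ 2) (by positivity)).trans (ENNReal.ofReal_le_ofReal ?_)
      nlinarith [sq_nonneg x, mul_nonneg (by linarith : 0 ≤ x - 2 * CM) (sq_nonneg x)]
    have hGb : h ((2 + C) * (ε * x)) ≤ δ / 2 * h x := by
      rw [← mul_assoc, hεC]
      exact hxs
    have hjump := fun (w : ℝ × ℝ) (h0 : 0 ≤ w.1) (h1 : w.1 ≤ w.2) (hw : w.2 < ε * x) =>
      coneTwo_jump (μ := μ) (ν := ν) (B := B x) S P (D := 4 * C) (by positivity) hvpos hxd hGb hR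
        w h0 h1 hw
    have hsmall : ∀ w : ℝ × ℝ, 0 ≤ w.1 → w.1 ≤ w.2 → v x < w.2 →
        ∫⁻ p, (Set.Iic (B x)).indicator (fun _ => (1 : ℝ≥0∞)) p.1 *
          VV h β (4 * C) θ0 (kwStep w p.1 p.2) ∂(μ.prod ν) ≤ VV h β (4 * C) θ0 w := by
      intro w h0 h1 h3
      have h4 := hV β 0 (v x) (B x) w P hxv hxt h0 h1 h3.le
      simpa using h4
    have hfin : ∀ w : ℝ × ℝ, 0 ≤ w.1 → w.1 ≤ w.2 → x < w.1 →
        ENNReal.ofReal (Real.exp ((2 + δ) * h x)) ≤ VV h β (4 * C) θ0 w := by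
      intro w h0 h1 h3
      refine le_trans (ENNReal.ofReal_le_ofReal (Real.exp_le_exp.2 hx2))
        (VV_ge_RR H P (by positivity) hx0.le h3.le h1)
    have h5 := coneTwo_path (μ := μ) (ν := ν) hjump hsmall hfin hπ hj
    have h6 : ENNReal.ofReal r1 * ENNReal.ofReal (Real.exp ((2 + δ) * h x)) =
        ENNReal.ofReal c0 := by
      rw [← ENNReal.ofReal_mul hr1n, hr1, mul_assoc, ← Real.exp_add, neg_add_cancel,
        Real.exp_zero, mul_one]
    rw [← h6, mul_comm] at h5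
    exact (ENNReal.mul_le_mul_iff_left
      (by rw [Ne, ENNReal.ofReal_eq_zero, not_le]; exact Real.exp_pos _)
      ENNReal.ofReal_ne_top).1 h5
  -- one length
  have hone : ∀ n : ℕ, (π.prod (noise μ ν)) (Cone x (v x) (B x) (x ^ 2) n) ≤
      ENNReal.ofReal r0 + n * (ENNReal.ofReal r0 + ENNReal.ofReal r1) := by
    intro n
    refine (measure_mono (coneTwo_cover x (v x) (B x) (x ^ 2) ε n)).trans
      ((measure_union_le _ _).trans ?_)
    refine add_le_add (hx1 π hπ n) ((measure_biUnion_finset_le _ _).trans ?_)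
    calc ∑ j ∈ Finset.range n, (π.prod (noise μ ν))
          ({q | q ∈ Okq ∧ q.1.2 ≤ v x ∧
              (∀ i < j, (q.2 i).1 ≤ B x ∧ v x < (pIter q.1 q.2 (i + 1)).2) ∧
              ε * x ≤ (pIter q.1 q.2 j).2} ∪
            {q | q ∈ Okq ∧ (pIter q.1 q.2 j).2 < ε * x ∧ B x < (q.2 j).1 ∧
              (q.2 j).1 ≤ x ^ 2 ∧ v x < (pIter q.1 q.2 (j + 1)).2 ∧
              (∀ i, j < i → i < n → (q.2 i).1 ≤ B x ∧ v x < (pIter q.1 q.2 i).2) ∧
              x < (pIter q.1 q.2 n).1})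
        ≤ ∑ j ∈ Finset.range n, (ENNReal.ofReal r0 + ENNReal.ofReal r1) := by
          refine Finset.sum_le_sum fun j hj => (measure_union_le _ _).trans ?_
          exact add_le_add (hxε π hπ j) (hF n j (Finset.mem_range.1 hj))
      _ = n * (ENNReal.ofReal r0 + ENNReal.ofReal r1) := by
          rw [Finset.sum_const, Finset.card_range, nsmul_eq_mul]
  -- the sum
  set N : ℕ := ⌈x ^ 20⌉₊ with hN
  have hNle : (N : ℝ) ≤ x ^ 21 := by
    have h3 : (N : ℝ) < x ^ 20 + 1 := Nat.ceil_lt_add_one (by positivity)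
    have h4 : (1 : ℝ) ≤ x ^ 20 := one_le_pow₀ (by linarith)
    have h5 : x ^ 21 = x * x ^ 20 := by ring
    nlinarith
  calc ∑ n ∈ Finset.Icc 1 N, (π.prod (noise μ ν)) (Cone x (v x) (B x) (x ^ 2) n)
      ≤ ∑ n ∈ Finset.Icc 1 N, (ENNReal.ofReal r0 + N * (ENNReal.ofReal r0 + ENNReal.ofReal r1)) := by
        refine Finset.sum_le_sum fun n hn => (hone n).trans ?_
        have hnN : n ≤ N := (Finset.mem_Icc.1 hn).2
        gcongr
    _ = ENNReal.ofReal (N * (r0 + N * (r0 + r1))) := by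
        rw [Finset.sum_const, Nat.card_Icc, Nat.add_sub_cancel, nsmul_eq_mul,
          ENNReal.ofReal_mul (Nat.cast_nonneg _), ENNReal.ofReal_natCast,
          ENNReal.ofReal_add hr0n (by positivity), ENNReal.ofReal_mul (Nat.cast_nonneg _),
          ENNReal.ofReal_natCast, ENNReal.ofReal_add hr0n hr1n]
    _ ≤ ENNReal.ofReal (x ^ (-K) * Real.exp (-(2 * h x))) := by
        refine ENNReal.ofReal_le_ofReal ?_
        set E : ℝ := Real.exp (-(2 * h x)) with hE
        have hE0 : 0 < E := Real.exp_pos _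
        set X : ℝ := x ^ (-(K + 50)) with hX
        have hX0 : 0 < X := Real.rpow_pos_of_pos hx0 _
        have hr0le : r0 ≤ X * E := by
          refine mul_le_mul_of_nonneg_left (Real.exp_le_exp.2 ?_) hX0.le
          nlinarith
        have hlogx : Real.exp (-(δ / 2 * h x)) ≤ X := by
          rw [hX, Real.rpow_def_of_pos hx0]
          refine Real.exp_le_exp.2 ?_
          have h3 : δ / 2 * ((K + 50) * 2 / δ * Real.log x) ≤ δ / 2 * h x :=
            mul_le_mul_of_nonneg_left hxlog (by positivity)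
          have h4 : δ / 2 * ((K + 50) * 2 / δ * Real.log x) = (K + 50) * Real.log x := by
            field_simp
          linarith
        have hr1le : r1 ≤ x ^ 4 * (X * E) := by
          have h3 : r1 = (1 + 4 * C) * x ^ 3 * (Real.exp (-(δ / 2 * h x)) * E) := by
            rw [hr1, hc0, hE, ← Real.exp_add]
            have h4 : -(δ / 2 * h x) + -(2 * h x) = δ / 2 * h x + -((2 + δ) * h x) := by ring
            rw [h4, Real.exp_add]
            ring
          rw [h3]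
          calc (1 + 4 * C) * x ^ 3 * (Real.exp (-(δ / 2 * h x)) * E)
              ≤ x * x ^ 3 * (X * E) := by gcongr
            _ = x ^ 4 * (X * E) := by ring
        have hXE : 0 < X * E := mul_pos hX0 hE0
        have hx1' : 1 ≤ x := by linarith
        have h21 : (1 : ℝ) ≤ x ^ 21 := one_le_pow₀ hx1'
        have h4' : (1 : ℝ) ≤ x ^ 4 := one_le_pow₀ hx1'
        calc (N : ℝ) * (r0 + N * (r0 + r1))
            ≤ x ^ 21 * (X * E + x ^ 21 * (X * E + x ^ 4 * (X * E))) := by gcongr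
          _ = (X * E) * (x ^ 21 * (1 + x ^ 21 * (1 + x ^ 4))) := by ring
          _ ≤ (X * E) * (x ^ 21 * (x ^ 21 * x ^ 4 * x ^ 2)) := by
              refine mul_le_mul_of_nonneg_left (mul_le_mul_of_nonneg_left ?_ (by positivity))
                hXE.le
              have h5 : 1 + x ^ 21 * (1 + x ^ 4) ≤ x ^ 21 * x ^ 4 + x ^ 21 * (x ^ 4 + x ^ 4) := by
                have h6 : (1 : ℝ) ≤ x ^ 21 * x ^ 4 := one_le_mul_of_one_le_of_one_le h21 h4'
                gcongr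
              refine h5.trans ?_
              have h7 : (4 : ℝ) ≤ x ^ 2 := by nlinarith
              have h8 : 0 ≤ x ^ 21 * x ^ 4 := by positivity
              nlinarith
          _ = (X * x ^ 48) * E := by ring
          _ ≤ x ^ (-K) * E := by
              refine mul_le_mul_of_nonneg_right ?_ hE0.le
              rw [hX, ← Real.rpow_natCast, ← Real.rpow_add hx0]
              refine Real.rpow_le_rpow_of_exponent_le hx1' ?_
              push_cast
              linarith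

end Pool.Agent.Lib.MP_04add8_pr.Cv
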