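import Mathlib
import Pool.Agent.Lib.MP_04add8_pr.Cv.Defs
import Pool.Agent.Lib.MP_04add8_pr.Crit.LowBoth

open MeasureTheory ProbabilityTheory Filter Topology
open scoped ENNReal

set_option linter.unusedSectionVars false

namespace Pool.Agent.Lib.MP_04add8_pr.Cv

open Pool.Agent.Lib.MP_04add8_pr.Gen

variable {h h' : ℝ → ℝ} {μ ν : Measure ℝ} [IsProbabilityMeasure μ]
  [IsProbabilityMeasure ν]

private lemma glowBoth_allLe {y ε : ℝ} (hε0 : 0 ≤ ε) (hε : μ (Set.Ioi y) ≤ ENNReal.ofReal ε)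
    (P : ℕ) :
    ENNReal.ofReal (1 - P * ε) ≤ (noise μ ν) (allLe y P) := by
  have hsub : (allLe y P)ᶜ ⊆ ⋃ i ∈ Finset.range P, {z : ℕ → ℝ × ℝ | y < (z i).1} := by
    intro z hz
    simp only [allLe, Set.mem_compl_iff, Set.mem_ofPred_eq, not_forall, not_le] at hz
    obtain ⟨i, hi, hzi⟩ := hz
    rw [Set.mem_iUnion₂]
    exact ⟨i, Finset.mem_range.2 hi, hzi⟩
  have h1 : (noise μ ν) (allLe y P)ᶜ ≤ ENNReal.ofReal (P * ε) := by
    refine (measure_mono hsub).trans ((measure_biUnion_finset_le _ _).trans ?_)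
    calc ∑ i ∈ Finset.range P, (noise μ ν) {z : ℕ → ℝ × ℝ | y < (z i).1}
        ≤ ∑ i ∈ Finset.range P, ENNReal.ofReal ε :=
          Finset.sum_le_sum fun i _ => by rw [LowBoth_eval]; exact hε
      _ = ENNReal.ofReal (P * ε) := by
          rw [Finset.sum_const, Finset.card_range, nsmul_eq_mul,
            ENNReal.ofReal_mul (Nat.cast_nonneg P), ENNReal.ofReal_natCast]
      _ ≤ _ := le_rfl
  have h2 : (noise μ ν) (allLe y P) + (noise μ ν) (allLe y P)ᶜ = 1 := by
    rw [measure_add_measure_compl (measurableSet_allLe y P), measure_univ]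
  rw [ENNReal.ofReal_sub _ (by positivity), ENNReal.ofReal_one, tsub_le_iff_right, ← h2]
  gcongr

/-- Original: `lower_both` in `Crit/LowBoth.lean` (`LowBoth_ev`, `LowBoth_meas`, `LowBoth_eval`,
`LowBoth_prob`, `LowBoth_mem` are reused; only `LowBoth_allLe` has to be restated with a bound `ε`
for the tail of `μ`). -/
theorem glower_both {π : Measure (ℝ × ℝ)} (hπ : IsStationaryKW μ ν π) {x B ε : ℝ} (hx : 0 < x)
    (hB : B ≤ x / 2) (hε0 : 0 ≤ ε) (hε : μ (Set.Ioi (x / 2)) ≤ ENNReal.ofReal ε)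
    (M P n0 : ℕ) (L : ℕ → ℝ≥0∞)
    (hL : ∀ n < M, ∀ w : ℝ × ℝ, 0 ≤ w.1 → w.1 ≤ w.2 →
      L n ≤ (noise μ ν) {z | (w, z) ∈ oneBig x (x / 2) B n}) :
    ENNReal.ofReal (1 - P * ε) * ∑ n ∈ Finset.range M, L n +
      ∑ p ∈ Finset.range P ×ˢ Finset.range P,
        (π.prod (noise μ ν)) (lowEvent x p.1 (n0 + p.2)) ≤ π {w | x < w.1} := by
  have hp : IsProbabilityMeasure π := hπ.1
  set T := P + M + n0 + P + 2 with hT
  have e0 := Union_law hπ x T
  set S : ℕ × ℕ → Set ((ℝ × ℝ) × (ℕ → ℝ × ℝ)) := fun p =>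
    pathShift (T - (p.1 + (n0 + p.2) + 2)) ⁻¹' lowEvent x p.1 (n0 + p.2) with hS
  set E : ℕ → Set ((ℝ × ℝ) × (ℕ → ℝ × ℝ)) := fun n =>
    pathShift (T - (P + n + 1)) ⁻¹' LowBoth_ev x B P n with hE
  have hle : ∀ p ∈ Finset.range P ×ˢ Finset.range P, p.1 + (n0 + p.2) + 2 ≤ T := by
    intro p hp'
    rw [Finset.mem_product, Finset.mem_range, Finset.mem_range] at hp'
    omega
  have hdisj : Set.PairwiseDisjoint (↑(Finset.range P ×ˢ Finset.range P) : Set (ℕ × ℕ)) S := by
    intro p hp' q hq' hne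
    apply lowEvent_disjoint (p := (p.1, n0 + p.2)) (q := (q.1, n0 + q.2)) (hle p hp') (hle q hq')
    intro he
    apply hne
    have h1 := congrArg Prod.fst he
    have h2 := congrArg Prod.snd he
    simp only at h1 h2
    exact Prod.ext h1 (by omega)
  have hmeas : ∀ p ∈ Finset.range P ×ˢ Finset.range P, MeasurableSet (S p) := by
    intro p _
    exact measurable_pathShift _ (measurableSet_lowEvent _ _ _)
  have hEmeas : ∀ n ∈ Finset.range M, MeasurableSet (E n) := by
    intro n _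
    exact measurable_pathShift _ (LowBoth_meas _ _ _ _)
  -- the events `E n` are pairwise disjoint
  have hEdisj : Set.PairwiseDisjoint (↑(Finset.range M) : Set ℕ) E := by
    have key : ∀ n n' : ℕ, n < n' → n' < M → ∀ q, q ∈ E n → q ∈ E n' → False := by
      intro n n' hnn' hn' q hq hq'
      rw [hE] at hq hq'
      simp only at hq hq'
      rw [LowBoth_mem] at hq hq'
      have h1 := hq.2.1
      have h2 := hq'.2.2.1 (n' - n - 1) (by omega)
      have h3 : T - (P + n' + 1) + (P + (n' - n - 1 + 1)) = T - (P + n + 1) + P := by omega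
      rw [h3] at h2
      linarith
    intro n hn n' hn' hne
    have hn1 : n < M := Finset.mem_range.1 (Finset.mem_coe.1 hn)
    have hn2 : n' < M := Finset.mem_range.1 (Finset.mem_coe.1 hn')
    refine Set.disjoint_left.2 fun q hq hq' => ?_
    rcases lt_or_gt_of_ne hne with hlt | hlt
    · exact key n n' hlt hn2 q hq hq'
    · exact key n' n hlt hn1 q hq' hq
  -- the two families are disjoint
  have hAB : Disjoint (⋃ n ∈ Finset.range M, E n)
      (⋃ p ∈ Finset.range P ×ˢ Finset.range P, S p) := by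
    rw [Set.disjoint_left]
    intro q hq1 hq2
    rw [Set.mem_iUnion₂] at hq1 hq2
    obtain ⟨n, hn, hqE⟩ := hq1
    obtain ⟨p, hp', hqS⟩ := hq2
    have hn1 : n < M := Finset.mem_range.1 hn
    have hleT := hle p hp'
    rw [Finset.mem_product, Finset.mem_range, Finset.mem_range] at hp'
    rw [hE] at hqE
    simp only at hqE
    rw [LowBoth_mem] at hqE
    obtain ⟨hE1, hE2, hE3, -⟩ := hqE
    obtain ⟨⟨hS1, hS2, hS3, hS4⟩, -⟩ := hqS
    have hS1' : x / 2 < (q.2 (T - (p.1 + (n0 + p.2) + 2) + 0)).1 := hS1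
    have hS3' : x / 2 < (q.2 (T - (p.1 + (n0 + p.2) + 2) + (p.1 + 1))).1 := hS3
    have hS4' : ∀ i < n0 + p.2,
        (q.2 (T - (p.1 + (n0 + p.2) + 2) + (p.1 + (i + 1) + 1))).1 ≤ x / 2 := hS4
    rcases lt_trichotomy n (n0 + p.2) with hlt | heq | hgt
    · have h1 := hS4' (n0 + p.2 - n - 1) (by omega)
      have h2 : T - (p.1 + (n0 + p.2) + 2) + (p.1 + (n0 + p.2 - n - 1 + 1) + 1) =
          T - (P + n + 1) + P := by omega
      rw [h2] at h1
      linarith
    · have h1 := hE1 (P - 1 - p.1) (by omega)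
      have h2 : T - (P + n + 1) + (P - 1 - p.1) = T - (p.1 + (n0 + p.2) + 2) + 0 := by omega
      rw [h2] at h1
      linarith
    · have h1 := hE3 (n - (n0 + p.2) - 1) (by omega)
      have h2 : T - (P + n + 1) + (P + (n - (n0 + p.2) - 1 + 1)) =
          T - (p.1 + (n0 + p.2) + 2) + (p.1 + 1) := by omega
      rw [h2] at h1
      linarith
  -- the sums
  have h1 : ∑ p ∈ Finset.range P ×ˢ Finset.range P,
      (π.prod (noise μ ν)) (lowEvent x p.1 (n0 + p.2)) =
      (π.prod (noise μ ν)) (⋃ p ∈ Finset.range P ×ˢ Finset.range P, S p) := by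
    rw [measure_biUnion_finset hdisj hmeas]
    apply Finset.sum_congr rfl
    intro p _
    exact ((hπ.measurePreserving_path _).measure_preimage
      (measurableSet_lowEvent _ _ _).nullMeasurableSet).symm
  have h2 : ENNReal.ofReal (1 - P * ε) * ∑ n ∈ Finset.range M, L n ≤
      (π.prod (noise μ ν)) (⋃ n ∈ Finset.range M, E n) := by
    rw [measure_biUnion_finset hEdisj hEmeas, Finset.mul_sum]
    apply Finset.sum_le_sum
    intro n hn
    have h3 : (π.prod (noise μ ν)) (E n) = (π.prod (noise μ ν)) (LowBoth_ev x B P n) :=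
      (hπ.measurePreserving_path _).measure_preimage (LowBoth_meas _ _ _ _).nullMeasurableSet
    rw [h3]
    refine le_trans ?_ (LowBoth_prob hπ P n (hL n (Finset.mem_range.1 hn)))
    gcongr
    exact glowBoth_allLe hε0 hε P
  have hBm : MeasurableSet (⋃ p ∈ Finset.range P ×ˢ Finset.range P, S p) :=
    Finset.measurableSet_biUnion _ hmeas
  rw [e0, h1]
  refine (add_le_add_left h2 _).trans ?_
  rw [← measure_union hAB hBm]
  apply measure_mono
  rintro q (hq | hq)
  · rw [Set.mem_iUnion₂] at hq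
    obtain ⟨n, hn, hq⟩ := hq
    have hn1 : n < M := Finset.mem_range.1 hn
    rw [hE] at hq
    simp only at hq
    rw [LowBoth_mem] at hq
    have h3 : T - (P + n + 1) + (P + (n + 1)) = T := by omega
    have h4 := hq.2.2.2
    rw [h3] at h4
    exact h4
  · rw [Set.mem_iUnion₂] at hq
    obtain ⟨p, hp', hq⟩ := hq
    have h2 := hle p hp'
    have h3 : x < (pIter (pIter q.1 q.2 (T - (p.1 + (n0 + p.2) + 2)))
      (fun k => q.2 (T - (p.1 + (n0 + p.2) + 2) + k)) (p.1 + (n0 + p.2) + 2)).1 := hq.2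
    rw [← pIter_add, Nat.sub_add_cancel h2] at h3
    exact h3

end Pool.Agent.Lib.MP_04add8_pr.Cv
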