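import Mathlib
import Pool.Agent.Lib.MP_04add8_pr.Cv.LawM
import Pool.Agent.Lib.MP_04add8_pr.Two.LowerEvent

open MeasureTheory ProbabilityTheory Filter Topology
open scoped ENNReal

set_option linter.unusedSectionVars false

namespace Pool.Agent.Lib.MP_04add8_pr.Cv

open Pool.Agent.Lib.MP_04add8_pr.Gen

variable {h h' : ℝ → ℝ} {μ ν : Measure ℝ} [IsProbabilityMeasure μ]
  [IsProbabilityMeasure ν]

/-- Original: `lower_event` in `Two/LowerEvent.lean` (the Weibull hypothesis is only used for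
`0 ≤ s` a.e.; use `law_prod_nonneg`, `law_noise_nonneg`). -/
lemma glower_event (S : StdC μ ν h h') {x E m κ δ : ℝ} {n1 n2 : ℕ} (hx : 0 < x) (hδ : 0 < δ)
    (hδ1 : δ ≤ 1) (hκ : 0 < κ) (hE : 0 < E) (hm : 0 < m) (hmE : m < E) (hEδ : E ≤ δ * κ)
    (hM : (E + m + 8) * (n1 + n2 + κ) ≤ x / 4)
    {π : Measure (ℝ × ℝ)} (hπ : IsStationaryKW μ ν π) :
    (noise μ ν) (Good E m κ δ) ^ 2 * ν (Set.Iic (δ * κ)) ^ 2 *
      (μ.prod μ) {p : ℝ × ℝ | max (thr1 x m κ δ n1 n2 - p.1) 0 +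
        max (thr2 x E m κ δ n1 n2 - p.2) 0 < avail E κ δ n2} ≤
      (π.prod (noise μ ν)) (lowEvent x n1 n2) := by
  have hp : IsProbabilityMeasure π := hπ.1
  set V : Set (ℝ × ℝ) := {p : ℝ × ℝ | max (thr1 x m κ δ n1 n2 - p.1) 0 +
        max (thr2 x E m κ δ n1 n2 - p.2) 0 < avail E κ δ n2} with hVdef
  have hVm : MeasurableSet V := measurableSet_lt (by fun_prop) measurable_const
  have hGm := measurableSet_Good E m κ δ
  set G := Good E m κ δ with hG
  set T : Set ℝ := Set.Iic (δ * κ) with hT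
  have hTm : MeasurableSet T := measurableSet_Iic
  set gG : (ℕ → ℝ × ℝ) → ℝ≥0∞ := G.indicator 1 with hgG
  set gT : ℝ → ℝ≥0∞ := T.indicator 1 with hgT
  set gV : ℝ × ℝ → ℝ≥0∞ := V.indicator 1 with hgV
  have hgGm : Measurable gG := measurable_one.indicator hGm
  have hgTm : Measurable gT := measurable_one.indicator hTm
  have hgVm : Measurable gV := measurable_one.indicator hVm
  have hjobs : ∀ᵐ p ∂(μ.prod ν), 0 ≤ p.1 ∧ 0 ≤ p.2 := law_prod_nonneg S.law S.hν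
  have hnn := law_noise_nonneg (ν := ν) S.law S.hν
  -- the product integral
  have hprod : ∫⁻ p1, ∫⁻ z1, ∫⁻ p2, ∫⁻ z2, gG z1 * (gG z2 * (gT p1.2 * (gT p2.2 *
      gV (p1.1, p2.1)))) ∂(noise μ ν) ∂(μ.prod ν) ∂(noise μ ν) ∂(μ.prod ν) =
      (noise μ ν) G ^ 2 * ν T ^ 2 * (μ.prod μ) V := by
    have e1 : ∀ (p1 : ℝ × ℝ) (z1 : ℕ → ℝ × ℝ) (p2 : ℝ × ℝ),
        ∫⁻ z2, gG z1 * (gG z2 * (gT p1.2 * (gT p2.2 * gV (p1.1, p2.1)))) ∂(noise μ ν) =
        gG z1 * ((noise μ ν) G * (gT p1.2 * (gT p2.2 * gV (p1.1, p2.1)))) := by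
      intro p1 z1 p2
      rw [lintegral_const_mul _ (by fun_prop), lintegral_mul_const _ hgGm,
        hgG, lintegral_indicator_one hGm]
    have e2 : ∀ (p1 : ℝ × ℝ) (z1 : ℕ → ℝ × ℝ),
        ∫⁻ p2, gG z1 * ((noise μ ν) G * (gT p1.2 * (gT p2.2 * gV (p1.1, p2.1)))) ∂(μ.prod ν) =
        gG z1 * ((noise μ ν) G * (gT p1.2 * (ν T * ∫⁻ y, gV (p1.1, y) ∂μ))) := by
      intro p1 z1
      have hm1 : Measurable fun p2 : ℝ × ℝ => gT p2.2 * gV (p1.1, p2.1) := by fun_prop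
      rw [lintegral_const_mul _ (by fun_prop), lintegral_const_mul _ (by fun_prop),
        lintegral_const_mul _ (by fun_prop)]
      congr 3
      have e3 : ∫⁻ p2 : ℝ × ℝ, gT p2.2 * gV (p1.1, p2.1) ∂(μ.prod ν) =
          ∫⁻ p2 : ℝ × ℝ, (fun y => gV (p1.1, y)) p2.1 * gT p2.2 ∂(μ.prod ν) := by
        apply lintegral_congr
        intro p2
        rw [mul_comm]
      rw [e3, lintegral_prod_mul (f := fun y => gV (p1.1, y)) (g := gT)
        (by fun_prop) hgTm.aemeasurable, hgT, lintegral_indicator_one hTm, mul_comm]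
    have e4 : ∀ (p1 : ℝ × ℝ),
        ∫⁻ z1, gG z1 * ((noise μ ν) G * (gT p1.2 * (ν T * ∫⁻ y, gV (p1.1, y) ∂μ))) ∂(noise μ ν) =
        (noise μ ν) G * ((noise μ ν) G * (gT p1.2 * (ν T * ∫⁻ y, gV (p1.1, y) ∂μ))) := by
      intro p1
      rw [lintegral_mul_const _ hgGm, hgG, lintegral_indicator_one hGm]
    simp only [e1, e2, e4]
    have hm2 : Measurable fun y1 : ℝ => ∫⁻ y, gV (y1, y) ∂μ :=
      Measurable.lintegral_prod_right' (f := gV) hgVm
    rw [lintegral_const_mul _ (by fun_prop), lintegral_const_mul _ (by fun_prop)]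
    have e5 : ∫⁻ p1 : ℝ × ℝ, gT p1.2 * (ν T * ∫⁻ y, gV (p1.1, y) ∂μ) ∂(μ.prod ν) =
        ∫⁻ p1 : ℝ × ℝ, (fun y1 => ν T * ∫⁻ y, gV (y1, y) ∂μ) p1.1 * gT p1.2 ∂(μ.prod ν) := by
      apply lintegral_congr
      intro p1
      rw [mul_comm]
    rw [e5, lintegral_prod_mul (f := fun y1 => ν T * ∫⁻ y, gV (y1, y) ∂μ) (g := gT)
      (by fun_prop) hgTm.aemeasurable, hgT, lintegral_indicator_one hTm,
      lintegral_const_mul _ hm2]
    have e6 : ∫⁻ y1, ∫⁻ y, gV (y1, y) ∂μ ∂μ = (μ.prod μ) V := by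
      rw [← lintegral_prod _ hgVm.aemeasurable, hgV, lintegral_indicator_one hVm]
    rw [e6]
    ring
  rw [← hprod, Measure.prod_apply (measurableSet_lowEvent _ _ _)]
  calc ∫⁻ p1, ∫⁻ z1, ∫⁻ p2, ∫⁻ z2, gG z1 * (gG z2 * (gT p1.2 * (gT p2.2 *
      gV (p1.1, p2.1)))) ∂(noise μ ν) ∂(μ.prod ν) ∂(noise μ ν) ∂(μ.prod ν)
      = ∫⁻ _ : ℝ × ℝ, (∫⁻ p1, ∫⁻ z1, ∫⁻ p2, ∫⁻ z2, gG z1 * (gG z2 * (gT p1.2 * (gT p2.2 *
      gV (p1.1, p2.1)))) ∂(noise μ ν) ∂(μ.prod ν) ∂(noise μ ν) ∂(μ.prod ν)) ∂π := by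
        simp
    _ ≤ _ := by
        apply lintegral_mono_ae
        filter_upwards [hπ.ae_ordered] with w hw
        have hSm : MeasurableSet (Prod.mk w ⁻¹' lowEvent x n1 n2) :=
          measurable_prodMk_left (measurableSet_lowEvent _ _ _)
        rw [← lintegral_indicator_one hSm,
          lintegral_noise_four n1 (measurable_one.indicator hSm)]
        apply lintegral_mono_ae
        filter_upwards [hjobs] with p1 hp1
        apply lintegral_mono_ae
        filter_upwards [hnn] with z1 hz1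
        apply lintegral_mono_ae
        filter_upwards [hjobs] with p2 hp2
        apply lintegral_mono_ae
        filter_upwards [hnn] with z2 hz2
        by_cases hz1G : z1 ∈ G
        swap
        · rw [hgG, Set.indicator_of_notMem hz1G, zero_mul]; exact zero_le
        by_cases hz2G : z2 ∈ G
        swap
        · rw [hgG, Set.indicator_of_notMem hz2G, zero_mul, mul_zero]; exact zero_le
        by_cases ht1 : p1.2 ∈ T
        swap
        · rw [hgT, Set.indicator_of_notMem ht1, zero_mul, mul_zero, mul_zero]; exact zero_le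
        by_cases ht2 : p2.2 ∈ T
        swap
        · rw [hgT, Set.indicator_of_notMem ht2, zero_mul, mul_zero, mul_zero, mul_zero]
          exact zero_le
        by_cases hpV : (p1.1, p2.1) ∈ V
        swap
        · rw [hgV, Set.indicator_of_notMem hpV, mul_zero, mul_zero, mul_zero, mul_zero]
          exact zero_le
        have hmem : four n1 p1 z1 p2 z2 ∈ Prod.mk w ⁻¹' lowEvent x n1 n2 :=
          lower_path hx hδ hδ1 hκ hE hm hmE hEδ hM hw.1 hw.2 hp1 hp2 hz1 hz2 hz1G hz2G ht1 ht2 hpV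
        rw [Set.indicator_of_mem hmem, hgG, hgT, hgV, Set.indicator_of_mem hz1G,
          Set.indicator_of_mem hz2G, Set.indicator_of_mem ht1, Set.indicator_of_mem ht2,
          Set.indicator_of_mem hpV]
        simp


end Pool.Agent.Lib.MP_04add8_pr.Cv
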