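import Mathlib
import Pool.Agent.Lib.MP_04add8_pr.Cv.Base
import Pool.Agent.Lib.MP_04add8_pr.Two.LowerTwo

open MeasureTheory ProbabilityTheory Filter Topology
open scoped ENNReal

set_option linter.unusedSectionVars false

namespace Pool.Agent.Lib.MP_04add8_pr.Cv

open Pool.Agent.Lib.MP_04add8_pr.Gen

variable {h h' : ℝ → ℝ} {μ ν : Measure ℝ} [IsProbabilityMeasure μ]
  [IsProbabilityMeasure ν]

/-- numerical lower bound for one pair of steps. Original: `numeric_lower` in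
`Two/LowerTwo.lean`, with the hazard `u = h' x`; the tangent lines are `HazC.tangent`. -/
lemma gnumeric_lower (H : HazC h h') {x u E m κ δ θ : ℝ} {n1 n0 j : ℕ} (hx : 0 < x)
    (hu : u = h' x) (hδ : 0 < δ) (hδ1 : δ < 1) (hE : 0 < E) (hm : 0 < m) (hlt : E < 2 * m)
    (hEδ : 8 * δ ≤ E) (hκ : u * κ = 1)
    (hθ1 : (1 - δ) * u ≤ θ) (hθ2 : θ ≤ u)
    (hn0 : 4 * δ * κ ≤ (E - 4 * δ) * n0) (hn0' : u * n0 ≤ 9 * δ / E)
    (hX2 : 0 ≤ thr2 x E m κ δ n1 (n0 + j)) :
    Real.exp (-(h x)) ^ 2 *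
      Real.exp (-(12 * δ + (2 * m - E + (7 + E) * δ) * (9 * δ / E))) *
      (Real.exp (-((2 * m - E + 3 * δ) * (u * n1))) *
        ((1 + (1 - δ) * (E - 4 * δ) * (u * j)) *
          Real.exp (-((2 * m - E + (7 + E) * δ) * (u * j))))) ≤
    Real.exp (-(h (thr1 x m κ δ n1 (n0 + j)))) * Real.exp (-(h (thr2 x E m κ δ n1 (n0 + j)))) *
        ((1 + θ * avail E κ δ (n0 + j)) * Real.exp (θ * avail E κ δ (n0 + j))) := by
  have hh0 : 0 < u := by rw [hu]; exact H.pos x hx
  set X1 := thr1 x m κ δ n1 (n0 + j) with hX1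
  set X2 := thr2 x E m κ δ n1 (n0 + j) with hX2'
  set v := avail E κ δ (n0 + j) with hv
  have hκ0 : 0 < κ := by
    by_contra hcon
    push Not at hcon
    have : u * κ ≤ 0 := mul_nonpos_of_nonneg_of_nonpos hh0.le hcon
    linarith
  have hn1 : (0 : ℝ) ≤ n1 := by positivity
  have hj : (0 : ℝ) ≤ j := by positivity
  have hn0n : (0 : ℝ) ≤ n0 := by positivity
  have hX1eq : X1 - x = m * (n1 + (n0 + j)) + δ * (n1 + (n0 + j) + 4 * κ) := by
    rw [hX1, thr1]; push_cast; ring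
  have hX2eq : X2 - x = m * (n0 + j) - (E - m) * n1 + 2 * δ * (n1 + (n0 + j) + 2 * κ) := by
    rw [hX2', thr2]; push_cast; ring
  have hueq : v = E * (n0 + j) - 4 * δ * (n0 + j + κ) := by
    rw [hv, avail]; push_cast; ring
  have hX1x : 0 ≤ X1 - x := by rw [hX1eq]; positivity
  have t1 : h X1 ≤ h x + u * (X1 - x) := by
    have := H.tangent hx (y := X1 - x) (by linarith)
    rwa [add_sub_cancel, ← hu] at this
  have t2 : h X2 ≤ h x + u * (X2 - x) := by
    have := H.tangent hx (y := X2 - x) (by linarith)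
    rwa [add_sub_cancel, ← hu] at this
  have huj : (E - 4 * δ) * j ≤ v := by
    rw [hueq]
    nlinarith
  have hE4 : 0 ≤ E - 4 * δ := by linarith
  have hu0 : 0 ≤ v := le_trans (by positivity) huj
  have h1δ : 0 ≤ 1 - δ := by linarith
  have hθ0 : 0 ≤ θ := le_trans (by positivity) hθ1
  have hθu1 : (1 - δ) * u * v ≤ θ * v := by gcongr
  have hlow : 1 + (1 - δ) * (E - 4 * δ) * (u * j) ≤ 1 + θ * v := by
    have : (1 - δ) * u * ((E - 4 * δ) * j) ≤ (1 - δ) * u * v := by gcongr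
    have e : (1 - δ) * u * ((E - 4 * δ) * j) = (1 - δ) * (E - 4 * δ) * (u * j) := by ring
    linarith
  have hc2 : 0 ≤ 2 * m - E + (7 + E) * δ := by
    have : 0 ≤ (7 + E) * δ := by positivity
    linarith
  have hexpo : -(h x) + -(h x) + -(12 * δ + (2 * m - E + (7 + E) * δ) * (9 * δ / E)) +
      (-((2 * m - E + 3 * δ) * (u * n1)) + -((2 * m - E + (7 + E) * δ) * (u * j))) ≤
      -(h X1) + -(h X2) + θ * v := by
    have s1 : (2 * m - E + (7 + E) * δ) * (u * n0) ≤ (2 * m - E + (7 + E) * δ) * (9 * δ / E) := by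
      gcongr
    have s2 : u * (X1 - x) + u * (X2 - x) =
        (2 * m - E + 3 * δ) * (u * n1) + 2 * m * (u * n0) + 2 * m * (u * j) +
          3 * δ * (u * n0) + 3 * δ * (u * j) + 8 * δ * (u * κ) := by
      rw [hX1eq, hX2eq]; ring
    have s3 : (1 - δ) * u * v = (1 - δ) * (E * (u * n0) + E * (u * j)) -
        (1 - δ) * (4 * δ * (u * n0 + u * j + u * κ)) := by
      rw [hueq]; ring
    have s4 : (1 - δ) * (4 * δ * (u * n0 + u * j + u * κ)) ≤
        1 * (4 * δ * (u * n0 + u * j + u * κ)) := by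
      gcongr
      linarith
    rw [hκ] at s2 s3 s4
    nlinarith
  calc _ = (1 + (1 - δ) * (E - 4 * δ) * (u * j)) *
        Real.exp (-(h x) + -(h x) +
          -(12 * δ + (2 * m - E + (7 + E) * δ) * (9 * δ / E)) +
      (-((2 * m - E + 3 * δ) * (u * n1)) + -((2 * m - E + (7 + E) * δ) * (u * j)))) := by
        rw [Real.exp_add, Real.exp_add, Real.exp_add, Real.exp_add]
        ring
    _ ≤ (1 + θ * v) * Real.exp (-(h X1) + -(h X2) + θ * v) := by
        have : 0 ≤ 1 + θ * v := by positivity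
        gcongr
    _ = _ := by
        rw [Real.exp_add, Real.exp_add]
        ring

end Pool.Agent.Lib.MP_04add8_pr.Cv
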