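import Mathlib
import Pool.Agent.Lib.MP_04add8_pr.Cv.LowTwo
import Pool.Agent.Lib.MP_04add8_pr.Cv.LowBoth

open MeasureTheory ProbabilityTheory Filter Topology
open scoped ENNReal

set_option linter.unusedSectionVars false

namespace Pool.Agent.Lib.MP_04add8_pr.Cv

open Pool.Agent.Lib.MP_04add8_pr.Gen

variable {h h' : ℝ → ℝ} {μ ν : Measure ℝ} [IsProbabilityMeasure μ]
  [IsProbabilityMeasure ν]

/-- **Lower bound**, two big jobs only, in every regime. `glower_both` without one-job events. -/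
theorem glower_twojobs (S : StdC μ ν h h') {ω : ℝ} (hω : 0 < ω) :
    ∀ᶠ x : ℝ in atTop, ∀ π : Measure (ℝ × ℝ), IsStationaryKW μ ν π →
      ENNReal.ofReal ((K2 μ ν - ω) * (Qf h h' x) ^ 2) ≤ π {w | x < w.1} := by
  filter_upwards [glower_two_sum S hω, eventually_gt_atTop 0] with x h2 hx π hπ
  obtain ⟨n0, P, -, h2⟩ := h2
  have hb := glower_both (μ := μ) (ν := ν) hπ hx (B := 0) (ε := 1) (by positivity) zero_le_one
    (by rw [ENNReal.ofReal_one]; exact prob_le_one) 0 P n0 (fun _ => 0)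
    (fun n hn => absurd hn (Nat.not_lt_zero n))
  rw [Finset.range_zero, Finset.sum_empty, mul_zero, zero_add] at hb
  exact (h2 π hπ).trans hb

end Pool.Agent.Lib.MP_04add8_pr.Cv
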