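import Mathlib
import Pool.Agent.Lib.MP_04add8_pr.Cv.LawM
import Pool.Agent.Lib.MP_04add8_pr.One.QL

open MeasureTheory ProbabilityTheory Filter Topology
open scoped ENNReal

set_option linter.unusedSectionVars false

namespace Pool.Agent.Lib.MP_04add8_pr.Cv

open Pool.Agent.Lib.MP_04add8_pr.Gen

variable {h h' : ℝ → ℝ} {μ ν : Measure ℝ} [IsProbabilityMeasure μ]
  [IsProbabilityMeasure ν]

/-- lower bound for the truncated transform at the diagonal -/
private lemma gql_trPhi (S : StdC μ ν h h')
    {δ θ : ℝ} (hδ : 0 < δ) (hθ : 0 < θ) :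
    ENNReal.ofReal (1 - θ * ((2 * (∫ t, t ∂ν) - ∫ s, s ∂μ) +
      (1 / δ ^ 2 + 1 / δ) * (∫ s, s ^ 2 ∂μ) * θ)) ≤ trPhi μ ν (δ / θ) θ θ := by
  have hνi := S.hνi
  have h1 : Integrable (fun s : ℝ => s) μ := by
    simpa using law_integrable_pow S.haz S.law 1
  have h2 : Integrable (fun s : ℝ => s ^ 2) μ := law_integrable_pow S.haz S.law 2
  set E := ∫ s, s ∂μ with hE
  set m := ∫ t, t ∂ν with hm
  set E2 := ∫ s, s ^ 2 ∂μ with hE2
  have hB0 : 0 < δ / θ := by positivity
  set K := 1 / δ ^ 2 + 1 / δ with hK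
  -- the real function below the integrand
  set g : ℝ × ℝ → ℝ := fun p => 1 + θ * p.1 - 2 * θ * p.2 - K * θ ^ 2 * p.1 ^ 2 with hg
  have i1 : Integrable (fun p : ℝ × ℝ => p.1) (μ.prod ν) := h1.comp_fst ν
  have i2 : Integrable (fun p : ℝ × ℝ => p.1 ^ 2) (μ.prod ν) := h2.comp_fst ν
  have i3 : Integrable (fun p : ℝ × ℝ => p.2) (μ.prod ν) := hνi.comp_snd μ
  have hgi : Integrable g (μ.prod ν) :=
    (((integrable_const _).add (i1.const_mul _)).sub (i3.const_mul _)).sub (i2.const_mul _)
  have hgI : ∫ p, g p ∂(μ.prod ν) = 1 - θ * ((2 * m - E) + K * E2 * θ) := by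
    rw [hg, integral_sub, integral_sub, integral_add, integral_const_mul, integral_const_mul,
      integral_const_mul]
    · have e1 : ∫ p : ℝ × ℝ, p.1 ∂(μ.prod ν) = E := by
        rw [integral_prod _ i1]; simp [hE]
      have e2 : ∫ p : ℝ × ℝ, p.1 ^ 2 ∂(μ.prod ν) = E2 := by
        rw [integral_prod _ i2]; simp [hE2]
      have e3 : ∫ p : ℝ × ℝ, p.2 ∂(μ.prod ν) = m := by
        rw [integral_prod _ i3]; simp [hm]
      rw [e1, e2, e3]
      simp
      ring
    · exact integrable_const _
    · exact i1.const_mul _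
    · exact (integrable_const _).add (i1.const_mul _)
    · exact i3.const_mul _
    · exact ((integrable_const _).add (i1.const_mul _)).sub (i3.const_mul _)
    · exact i2.const_mul _
  have hpos : ∀ᵐ p ∂(μ.prod ν), 0 ≤ p.1 ∧ 0 ≤ p.2 := law_prod_nonneg S.law S.hν
  rw [← hgI]
  calc ENNReal.ofReal (∫ p, g p ∂(μ.prod ν))
      ≤ ENNReal.ofReal (∫ p, max (g p) 0 ∂(μ.prod ν)) := by
        apply ENNReal.ofReal_le_ofReal
        exact integral_mono hgi hgi.pos_part fun p => le_max_left _ _
    _ = ∫⁻ p, ENNReal.ofReal (max (g p) 0) ∂(μ.prod ν) := by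
        rw [ofReal_integral_eq_lintegral_ofReal hgi.pos_part
          (Filter.Eventually.of_forall fun p => le_max_right _ _)]
    _ ≤ _ := by
        unfold trPhi
        apply lintegral_mono_ae
        filter_upwards [hpos] with p hp
        by_cases hp1 : p.1 ∈ Set.Iic (δ / θ)
        · rw [Set.indicator_of_mem hp1, one_mul]
          apply ENNReal.ofReal_le_ofReal
          apply max_le _ (Real.exp_pos _).le
          have h3 := Real.add_one_le_exp (θ * (p.1 - p.2) - θ * p.2)
          have h4 : 0 ≤ K * θ ^ 2 * p.1 ^ 2 := by positivity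
          rw [hg]
          simp only
          linarith
        · rw [Set.indicator_of_notMem hp1, zero_mul]
          have h5 : δ / θ < p.1 := not_le.mp hp1
          have h6 : δ < θ * p.1 := by
            rw [div_lt_iff₀ hθ] at h5
            linarith
          have h7 : g p ≤ 0 := by
            rw [hg]
            simp only
            have h8 : 1 ≤ 1 / δ ^ 2 * (θ * p.1) ^ 2 := by
              rw [one_div, inv_mul_eq_div, one_le_div (by positivity)]
              gcongr
            have h9 : θ * p.1 ≤ 1 / δ * (θ * p.1) ^ 2 := by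
              have : 0 < θ * p.1 := hδ.trans h6
              rw [one_div, inv_mul_eq_div, le_div_iff₀ hδ]
              nlinarith
            have h10 : 0 ≤ 2 * θ * p.2 := by
              have := hp.2
              positivity
            rw [hK]
            nlinarith
          rw [max_eq_right h7]
          simp

/-- Original: `qsum_lower` in `One/QL.lean` (only the second moment of the service law is used;
`ql_succ`, `ql_aux`, `ql_tail` are reused). -/
theorem gqsum_lower (S : StdC μ ν h h') {δ ω : ℝ} (hδ : 0 < δ) (hω : 0 < ω) :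
    ∃ A θ0 : ℝ, 0 < A ∧ 0 < θ0 ∧ ∀ θ, 0 < θ → θ < θ0 → ∀ J : ℕ, A ≤ J * θ →
      ENNReal.ofReal ((1 - ω) / ((2 * (∫ t, t ∂ν) - ∫ s, s ∂μ) * θ)) ≤
        ∑ n ∈ Finset.range J, lvlA μ ν (δ / θ) θ n := by
  set D := 2 * (∫ t, t ∂ν) - ∫ s, s ∂μ with hD
  have hlt := S.hlt
  have hD0 : 0 < D := by linarith
  rcases le_or_gt 1 ω with h1 | h1
  · refine ⟨1, 1, one_pos, one_pos, ?_⟩
    intro θ hθ _ J _
    have : (1 - ω) / (D * θ) ≤ 0 := div_nonpos_of_nonpos_of_nonneg (by linarith) (by positivity)
    rw [ENNReal.ofReal_of_nonpos this]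
    simp
  set K := (1 / δ ^ 2 + 1 / δ) * (∫ s, s ^ 2 ∂μ) with hK
  have hK0 : 0 ≤ K := by
    have : 0 ≤ ∫ s, s ^ 2 ∂μ := integral_nonneg fun s => by positivity
    positivity
  -- the constants
  set A := max 1 (-(Real.log (ω / 2)) / D) with hA
  have hA0 : 0 < A := lt_of_lt_of_le one_pos (le_max_left _ _)
  have hAD : Real.exp (-(D * A)) ≤ ω / 2 := by
    have h2 : -(Real.log (ω / 2)) / D ≤ A := le_max_right _ _
    rw [div_le_iff₀ hD0] at h2
    rw [← Real.le_log_iff_exp_le (by positivity)]
    linarith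
  set θ0 := min (1 / (2 * (D + K + 1))) (D * ω / (2 * (K + 1))) with hθ0
  have hθ00 : 0 < θ0 := lt_min (by positivity) (by positivity)
  refine ⟨A, θ0, hA0, hθ00, ?_⟩
  intro θ hθ hθlt J hJ
  have hθ1 : θ * (2 * (D + K + 1)) < 1 := by
    have : θ < 1 / (2 * (D + K + 1)) := hθlt.trans_le (min_le_left _ _)
    rwa [lt_div_iff₀ (by positivity)] at this
  have hθ2 : θ * (2 * (K + 1)) < D * ω := by
    have : θ < D * ω / (2 * (K + 1)) := hθlt.trans_le (min_le_right _ _)
    rwa [lt_div_iff₀ (by positivity)] at this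
  have hθle1 : θ ≤ 1 := by nlinarith
  set u := θ * (D + K * θ) with hu
  have hu0 : 0 < u := by positivity
  have hu1 : u < 1 := by
    have : K * θ ≤ K := mul_le_of_le_one_right hK0 hθle1
    rw [hu]
    nlinarith
  have hphi : ENNReal.ofReal (1 - u) ≤ trPhi μ ν (δ / θ) θ θ := gql_trPhi S hδ hθ
  have hterm : ∀ n : ℕ, ENNReal.ofReal ((1 - u) ^ n) ≤ lvlA μ ν (δ / θ) θ n := by
    intro n
    have h3 := ql_aux (μ := μ) (ν := ν) (B := δ / θ) hθ.le n 0 le_rfl
    rw [mul_zero, Real.exp_zero, ENNReal.ofReal_one, one_mul] at h3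
    rw [ENNReal.ofReal_pow (by linarith)]
    exact (pow_le_pow_left₀ bot_le hphi n).trans h3
  calc ENNReal.ofReal ((1 - ω) / (D * θ)) ≤
        ENNReal.ofReal (∑ n ∈ Finset.range J, (1 - u) ^ n) := by
        apply ENNReal.ofReal_le_ofReal
        have h4 : (∑ n ∈ Finset.range J, (1 - u) ^ n) = (1 - (1 - u) ^ J) / u := by
          rw [geom_sum_eq (by linarith)]
          rw [div_eq_div_iff (by linarith) hu0.ne']
          ring
        rw [h4]
        have h5 : (1 - u) ^ J ≤ ω / 2 := by
          have h6 : 1 - u ≤ Real.exp (-u) := by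
            have := Real.add_one_le_exp (-u)
            linarith
          calc (1 - u) ^ J ≤ Real.exp (-u) ^ J := pow_le_pow_left₀ (by linarith) h6 J
            _ = Real.exp (-(J * u)) := by
                rw [← Real.exp_nat_mul]
                congr 1
                ring
            _ ≤ Real.exp (-(D * A)) := by
                apply Real.exp_le_exp.mpr
                have h7 : D * A ≤ D * (J * θ) := by gcongr
                have h8 : D * (J * θ) ≤ J * u := by
                  rw [hu]
                  have : 0 ≤ (J : ℝ) * θ * (K * θ) := by positivity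
                  nlinarith
                linarith
            _ ≤ ω / 2 := hAD
        rw [div_le_div_iff₀ (by positivity) hu0]
        have h9 : (1 - ω) * (D + K * θ) ≤ (1 - ω / 2) * D := by
          have h10 : K * θ ≤ D * ω / 2 := by nlinarith
          have h11 : (1 - ω) * (K * θ) ≤ 1 * (D * ω / 2) := by
            apply mul_le_mul (by linarith) h10 (by positivity) zero_le_one
          nlinarith
        calc (1 - ω) * u = θ * ((1 - ω) * (D + K * θ)) := by rw [hu]; ring
          _ ≤ θ * ((1 - ω / 2) * D) := by gcongr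
          _ = (1 - ω / 2) * (D * θ) := by ring
          _ ≤ (1 - (1 - u) ^ J) * (D * θ) := by gcongr
    _ = ∑ n ∈ Finset.range J, ENNReal.ofReal ((1 - u) ^ n) := by
        rw [ENNReal.ofReal_sum_of_nonneg]
        intro n _
        have : 0 ≤ 1 - u := by linarith
        positivity
    _ ≤ _ := Finset.sum_le_sum fun n _ => hterm n

end Pool.Agent.Lib.MP_04add8_pr.Cv
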