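import Mathlib
import Pool.Agent.Lib.MP_04add8_pr.Gen.LowCore
import Pool.Agent.Lib.MP_04add8_pr.Cv.LowEv
import Pool.Agent.Lib.MP_04add8_pr.Cv.Opt
import Pool.Agent.Lib.MP_04add8_pr.Cv.Beta
import Pool.Agent.Lib.MP_04add8_pr.Cv.Phi
import Pool.Agent.Lib.MP_04add8_pr.Cv.QU
import Pool.Agent.Lib.MP_04add8_pr.Cv.QL
import Pool.Agent.Lib.MP_04add8_pr.Crit.LowOne

open MeasureTheory ProbabilityTheory Filter Topology
open scoped ENNReal

set_option linter.unusedSectionVars false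

namespace Pool.Agent.Lib.MP_04add8_pr.Cv

open Pool.Agent.Lib.MP_04add8_pr.Gen

variable {h h' : ℝ → ℝ} {μ ν : Measure ℝ} [IsProbabilityMeasure μ]
  [IsProbabilityMeasure ν]

private lemma lowOne_zero_nonneg (hμ0 : ∀ᵐ s ∂μ, 0 ≤ s) (K : ℕ) (θ : ℝ) :
    0 ≤ momPoly μ K 0 * lap ν (0 + θ) := by
  apply mul_nonneg
  · unfold momPoly
    apply Finset.sum_nonneg
    intro j _
    apply div_nonneg _ (by positivity)
    apply mul_nonneg _ (by positivity)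
    apply integral_nonneg_of_ae
    filter_upwards [hμ0] with s hs
    have : 0 ≤ s := hs
    positivity
  · unfold lap
    exact integral_nonneg fun t => (Real.exp_pos _).le

private lemma lowOne_tilt {β β' B B' : ℝ} (h1 : Tilt h β B) (hβ : β' ≤ β) (hB : B' ≤ B) :
    Tilt h β' B' := by
  intro s hs hsB
  exact (mul_le_mul_of_nonneg_right hβ hs).trans (h1 s hs (hsB.trans hB))

/-- a tilt `β ≤ η θ` is harmless for jobs `≤ t / θ` as soon as `h (t / θ)` is large -/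
private lemma lowOne_small (H : HazC h h') {θ t β η : ℝ} (hθ : 0 < θ) (ht : 0 < t) (_hβ0 : 0 ≤ β)
    (hr2 : β ≤ η * θ) (hhB : 4 * (η * t) ≤ h (t / θ)) : Tilt h β (t / θ) := by
  intro s hs hsB
  rcases hs.eq_or_lt with rfl | hs
  · have := H.zero
    rw [mul_zero]
    linarith
  · have h1 := H.mul_le hs hsB
    -- `s * h (t / θ) ≤ t / θ * h s`
    have h2 : s * (4 * (η * t)) ≤ t / θ * h s :=
      (mul_le_mul_of_nonneg_left hhB hs.le).trans h1
    have h3 : θ * (s * (4 * (η * t))) ≤ t * h s := by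
      calc θ * (s * (4 * (η * t))) ≤ θ * (t / θ * h s) := mul_le_mul_of_nonneg_left h2 hθ.le
        _ = t * h s := by field_simp
    have h4 : t * (4 * (η * θ * s)) ≤ t * h s := by linarith
    have h5 := le_of_mul_le_mul_left h4 ht
    have h6 : β * s ≤ η * θ * s := mul_le_mul_of_nonneg_right hr2 hs.le
    linarith

/-- one point -/
private lemma lowOne_point (S : StdC μ ν h h') {x θ β t τ D d η A b C1 C2 p : ℝ} {K : ℕ}
    (hK1 : 1 ≤ K)
    (hη2 : 2 < η) (hd : 0 < d) (hD : 0 < D) (ht : 0 < t) (ht4 : t ≤ 1 / 4) (hηt : η * t ≤ 1)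
    (hτ : 0 ≤ τ) (hντ : ENNReal.ofReal (1 - t) ≤ ν (Set.Iic τ)) (hx1 : 1 ≤ x) (hθ : 0 < θ)
    (hC1 : 0 ≤ C1) (hC2 : 0 ≤ C2) (hb0 : 0 < b) (_hp : 0 < p)
    (hθ2h : p / 2 ≤ θ) (hθ3h : θ ≤ 2 * p)
    (hβ0 : 0 ≤ β) (hr1 : (1 + (η - 2) / 2) * θ ≤ β) (hr2 : β ≤ η * θ)
    (hθ1 : θ ≤ 1) (hθτ : θ ≤ t / (τ + 1)) (hθη : θ ≤ 1 / (η + 1))
    (hθd : θ ≤ d / (4 * (C1 * η ^ (K + 1) + 1)))
    (hM1a : 4 * t ≤ x * p) (hM1b : 2 * A ≤ x * p)
    (hM1c : 2 * t / (b * η) ≤ x * p)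
    (hM1d : 2 * |Real.log (t / 2)| ≤ x * p)
    (hM1e : 8 * |Real.log (t / 4)| / (η - 2) ≤ x * p)
    (hA : 0 < A)
    (hhB : 4 * (η * t) ≤ h (t / θ))
    (hφu : ∀ B β θ : ℝ, 0 ≤ β → 0 ≤ θ → Tilt h β B →
      trPhi μ ν B β θ ≤
        ENNReal.ofReal (momPoly μ K β * lap ν (β + θ) + C1 * β ^ (K + 1)))
    (hφl : ∀ B : ℝ, 0 ≤ B → ∀ β θ : ℝ, 0 ≤ β → β ≤ 1 → 0 ≤ θ →
      ENNReal.ofReal (momPoly μ K β * lap ν (β + θ) - C2 * Real.exp (-(h B / 2))) ≤
        trPhi μ ν B β θ)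
    (hroot : momPoly μ K β * lap ν (β + θ) = 1)
    (hslope : ∀ β' : ℝ, 0 ≤ β' → β' ≤ β →
      momPoly μ K β' * lap ν (β' + θ) ≤ 1 - d / 2 * (β - β'))
    (ev3 : Real.exp ((8 / d + 3) * x * (C1 * (2 * η * p) ^ (K + 1))) ≤ 1 + t)
    (ev4 : (8 / d + 3) * C2 * x * Real.exp (-(h (t / θ) / 2)) ≤ t)
    (hQL : ∀ J : ℕ, A ≤ J * θ → ENNReal.ofReal ((1 - t) / (D * θ)) ≤
        ∑ n ∈ Finset.range J, lvlA μ ν (t / θ) θ n)
    (hQU : ∀ B : ℝ, Tilt h θ B → ∀ N : ℕ, ∑ n ∈ Finset.range N, lvlA μ ν B θ n ≤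
      ENNReal.ofReal ((1 + 1) / (D * θ))) :
    ∃ (B : ℝ) (M : ℕ), 0 ≤ B ∧ B ≤ x / 2 ∧
    ENNReal.ofReal (lowC η t * (Real.exp (-(hG h θ + x * (θ + β))) / (D * θ))) ≤
      glowU μ ν (hG h θ) x B θ τ M := by
  have hη0 : 0 < η := by linarith
  have hx0 : 0 < x := by linarith
  have hy0 : 0 < η * x := by positivity
  obtain ⟨hBx, hBby, hAθ, hxθ⟩ := B_facts (t := t) (b := b) (η := η) (A := A) hx0 hθ hb0 hη0
    hθ2h hM1a hM1b hM1c
  have hθB : θ * (t / θ) = t := by field_simp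
  have hB0 : 0 ≤ t / θ := by positivity
  have h8x : 0 < 8 * x / d := by positivity
  have hNl : 8 * x / d ≤ ⌈8 * x / d⌉₊ := Nat.le_ceil _
  have hNu : (⌈8 * x / d⌉₊ : ℝ) ≤ 8 * x / d + 1 := (Nat.ceil_lt_add_one h8x.le).le
  have hJl : A / θ ≤ ⌈A / θ⌉₊ := Nat.le_ceil _
  have hJu : (⌈A / θ⌉₊ : ℝ) ≤ A / θ + 1 := (Nat.ceil_lt_add_one (by positivity)).le
  have hNpos : 0 < ⌈8 * x / d⌉₊ := Nat.ceil_pos.mpr h8x
  have hN1 : (1 : ℝ) ≤ ⌈8 * x / d⌉₊ := by exact_mod_cast hNpos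
  generalize ⌈8 * x / d⌉₊ = N at hNl hNu hNpos hN1
  generalize ⌈A / θ⌉₊ = J at hJl hJu
  obtain ⟨hNJ, hNle⟩ := NJ_fact hx1 hNu hJu hAθ
  have hθβ : θ ≤ β := by
    have : 0 ≤ (η - 2) / 2 * θ := by
      have : 0 < η - 2 := by linarith
      positivity
    linarith
  have htB : Tilt h β (t / θ) := lowOne_small S.haz hθ ht hβ0 hr2 hhB
  have hβc : β ≤ 2 * η * p := by
    calc β ≤ η * θ := hr2
      _ ≤ η * (2 * p) := by gcongr
      _ = 2 * η * p := by ring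
  have hΦu : trPhi μ ν (t / θ) β θ ≤ ENNReal.ofReal (1 + C1 * β ^ (K + 1)) := by
    have := hφu (t / θ) β θ hβ0 hθ.le htB
    rwa [hroot] at this
  have hc1x : 0 ≤ (8 / d + 3) * x := by positivity
  have hpow : ∀ M : ℕ, (M : ℝ) ≤ (8 / d + 3) * x → (max 1 (trPhi μ ν (t / θ) β θ)) ^ M ≤
      ENNReal.ofReal (1 + t) := fun M hM => low_hpow hC1 hβ0 hΦu hM hβc hc1x ev3
  have hΦ1 : ENNReal.ofReal (1 - t) ≤ trPhi μ ν (t / θ) β θ ^ N := by
    have hβ1' : β ≤ 1 := by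
      calc β ≤ η * θ := hr2
        _ ≤ η * (1 / (η + 1)) := by gcongr
        _ ≤ 1 := by rw [mul_one_div, div_le_one (by positivity)]; linarith
    have h6 := hφl (t / θ) hB0 β θ hβ0 hβ1' hθ.le
    rw [hroot] at h6
    refine low_hPhi1 h6 (by positivity) ?_ hN1 ht4
    calc N * (C2 * Real.exp (-(h (t / θ) / 2)))
        ≤ ((8 / d + 3) * x) * (C2 * Real.exp (-(h (t / θ) / 2))) := by gcongr
      _ = (8 / d + 3) * C2 * x * Real.exp (-(h (t / θ) / 2)) := by ring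
      _ ≤ t := ev4
  have hΦl : trPhi μ ν (t / θ) (β - θ) θ ^ N ≤ ENNReal.ofReal (Real.exp (-(2 * θ * x))) := by
    have hβθ : 0 ≤ β - θ := by linarith
    have h5 := hφu (t / θ) (β - θ) θ hβθ hθ.le (lowOne_tilt htB (by linarith) le_rfl)
    have h6 := hslope (β - θ) hβθ (by linarith)
    have e1 : β - (β - θ) = θ := by ring
    rw [e1] at h6
    have h7 : C1 * (β - θ) ^ (K + 1) ≤ d / 4 * θ :=
      low_err hK1 hC1 hη0 hθ hθ1 hd hθd hβθ (by linarith)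
    have h8 : trPhi μ ν (t / θ) (β - θ) θ ≤ ENNReal.ofReal (1 - d / 4 * θ) := by
      refine h5.trans (ENNReal.ofReal_le_ofReal ?_)
      linarith
    have h9 : d / 4 * θ ≤ 1 := by
      have h12 := hslope 0 le_rfl hβ0
      have h13 := lowOne_zero_nonneg (ν := ν) S.law.nn K θ
      rw [sub_zero] at h12
      have h14 : d / 2 * θ ≤ d / 2 * β := by gcongr
      have h15 : 0 < d * θ := by positivity
      linarith
    exact low_hPhil hd hθ h8 h9 hNl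
  have hQ : ENNReal.ofReal ((1 - 2 * t) / (D * θ)) ≤
      ∑ n ∈ Finset.range J, lvlA μ ν (t / θ) θ n := by
    refine le_trans (ENNReal.ofReal_le_ofReal ?_) (hQL J (by rwa [div_le_iff₀ hθ] at hJl))
    have hDθ : 0 < D * θ := by positivity
    apply div_le_div_of_nonneg_right _ hDθ.le
    linarith
  have hQ2 : ∑ n ∈ Finset.range (N + J), lvlA μ ν (t / θ) θ n ≤
      ENNReal.ofReal (2 / (D * θ)) := by
    have h5 := hQU (t / θ) (lowOne_tilt htB hθβ le_rfl) (N + J)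
    have e1 : (1 : ℝ) + 1 = 2 := by norm_num
    rwa [e1] at h5
  have hβB : β * (t / θ) ≤ η * t := by
    calc β * (t / θ) ≤ (η * θ) * (t / θ) := by gcongr
      _ = η * (θ * (t / θ)) := by ring
      _ = η * t := by rw [hθB]
  have hs1 : 2 * Real.exp (-(θ * x)) ≤ t := by
    apply low_exp ht _ two_pos
    have : 2 * |Real.log (t / 2)| ≤ 2 * (x * θ) := hM1d.trans hxθ
    rw [mul_comm θ x]
    exact le_of_mul_le_mul_left this two_pos
  have hs2 : 4 * Real.exp (-((β - θ) * x / 2)) ≤ t :=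
    low_exp ht (s2_fact hx0 hη2 hM1e hxθ hr1) (by norm_num)
  have h2t : ENNReal.ofReal (1 + t) ≤ ENNReal.ofReal 2 :=
    ENNReal.ofReal_le_ofReal (by linarith)
  refine ⟨t / θ, N + J, hB0, hBx, ?_⟩
  exact glower_core_sum (η := η) (D := D) (hh := θ) (N := N) (J := J) (β := β)
    (B := t / θ) (G := hG h θ) S.law.nn S.hν hx0 hθ hθ hD ht ht4 hB0 hθB.le hBx hτ hντ
    (tau_fact hτ hθ hθτ) hθβ hβB hηt hQ hQ2 hΦ1 (hpow N hNle) ((hpow (N + J) hNJ).trans h2t)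
    hΦl hs1 hs2

/-- **Lower bound**, one big job, as a sum. Original: `lower_point_sum` and `lower_one_sum` in
`Crit/LowOne.lean` (and the numerical lemmas `exists_t`, `exists_tau`, `exists_range`,
`theta_facts`, `NJ_fact`, `low_hpow`, `low_hPhi1`, `low_hPhil`, `low_err`, `low_exp`, ... of
`One/OneLower.lean`). `θ` from `gopt` (`|θ - h' (η x)| ≤ ω' h' (η x)`),
`β = cramerRoot θ ∈ [(1 + (η-2)/2) θ, η θ]`, `B = t / θ`, `N = ⌈8 x / (E - m)⌉₊`,
`J = ⌈A / θ⌉₊`, both `≤ C x`. `gphi_upper` with `Tilt h β (t / θ)` (`lowOne_small`: `h (t / θ)` is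
large). `gphi_lower` and `glow_trunc` for `Φ1`,
`glow_pow` for `Φ2`, `Φ3`. `glower_core_sum` with `hh = θ` (so `hQ`, `hQ2` are `gqsum_lower`
with `δ = t`, `ω = t` and `gqsum_upper` with `ω = 1`), `G = hG h θ`; at the end
`1 / θ ≥ (1 - ω') / h' (η x)`. -/
theorem glower_one_sum (S : StdC μ ν h h') {d : ℝ} (hd : ∀ᶠ x : ℝ in atTop, h' x ≤ x ^ (-d))
    {K : ℕ} (hK : 1 < (K + 1) * d) {ω : ℝ} (hω : 0 < ω) :
    ∀ᶠ x : ℝ in atTop, ∃ (B θ τ : ℝ) (M : ℕ), 0 ≤ B ∧ B ≤ x / 2 ∧ 0 < θ ∧ 0 ≤ τ ∧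
      ENNReal.ofReal ((1 - ω) * fOneH h h' μ ν K x) ≤ ∑ n ∈ Finset.range M,
        ν (Set.Iic τ) * ENNReal.ofReal (Real.exp (-(hG h θ + θ * (B + τ)))) *
          midOne μ ν x B θ n := by
  obtain ⟨hK1, hdp⟩ := glow_K S.haz hd hK
  set E := ∫ s, s ∂μ with hE
  set m := ∫ t, t ∂ν with hmdef
  have hEm : m < E := S.hgt
  have hE2m : E < 2 * m := S.hlt
  have hd0 : 0 < E - m := by linarith
  have hη2 : 2 < eta μ ν := two_lt_eta S
  set η := eta μ ν with hη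
  have hη0 : 0 < η := by linarith
  have hD : 0 < 2 * m - E := by linarith
  set ω1 : ℝ := min ω 1 with hω1
  have hω10 : 0 < ω1 := lt_min hω one_pos
  have hω11 : ω1 ≤ 1 := min_le_right _ _
  have hω1ω : ω1 ≤ ω := min_le_left _ _
  obtain ⟨t, ht, ht4, hηt, hlow⟩ := exists_t (ω := ω1 / 2) hη0 (by positivity)
  obtain ⟨τ, hτ, hντ⟩ := exists_tau (ν := ν) ht
  obtain ⟨A, θ0, hA, hθ0, hQL⟩ := gqsum_lower S (δ := t) (ω := t) ht ht
  obtain ⟨θ0', hθ0', hQU⟩ := gqsum_upper S (ω := 1) one_pos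
  obtain ⟨b, hb0⟩ : ∃ b : ℝ, 0 < b := ⟨1, one_pos⟩
  obtain ⟨C1, hC1, hφu⟩ := gphi_upper S K
  obtain ⟨C2, hC2, hφl⟩ := gphi_lower S K
  obtain ⟨θ1, hθ1, hbeta⟩ := gbeta_basic S hK1
  obtain ⟨β1, hβ1⟩ := gbeta_expand S hK1
  have hblim := gbeta_limit S hK1
  rw [← hη] at hblim
  rw [← hE, ← hmdef] at hbeta
  obtain ⟨θ2, hθ2, hrange⟩ := exists_range hη2 hblim
  set ω' := min (min (t / 2) (1 / 2)) (ω1 / 2) with hω'
  have hω'0 : 0 < ω' := lt_min (lt_min (by positivity) (by norm_num)) (by positivity)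
  have hopt := gopt S.haz (show 1 < η by linarith) (cramerRoot_nonneg K) hblim hβ1 hω'0
  set Z := min (min (min θ0 θ1) θ0') (min (min θ2 1) (min (t / (τ + 1))
    (min (1 / (η + 1)) ((E - m) / (4 * (C1 * η ^ (K + 1) + 1)))))) with hZ
  have hZ0 : 0 < Z := by
    refine lt_min (lt_min (lt_min hθ0 hθ1) hθ0') (lt_min (lt_min hθ2 one_pos)
      (lt_min (by positivity) (lt_min (by positivity) (by positivity))))
  set M1 : ℝ := max (max (4 * t) (2 * A)) (max (2 * t / (b * η)) (max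
    (2 * |Real.log (t / 2)|) (8 * |Real.log (t / 4)| / (η - 2)))) with hM1
  set c1 : ℝ := 8 / (E - m) + 3 with hc1
  have hc10 : 0 < c1 := by positivity
  have hbig : ∀ᶠ x : ℝ in atTop, 4 * (η * t) ≤ h (t / (2 * h' (η * x))) := by
    have e1 : Tendsto (fun x : ℝ => 2 * h' (η * x)) atTop (𝓝[>] 0) := by
      rw [tendsto_nhdsWithin_iff]
      constructor
      · have e2 := (S.haz.tendsto_deriv.comp (tendsto_id.const_mul_atTop hη0)).const_mul 2
        rw [mul_zero] at e2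
        exact e2
      · filter_upwards [eventually_gt_atTop 0] with x hx
        have : 0 < h' (η * x) := S.haz.pos _ (by positivity)
        exact mul_pos two_pos this
    have e3 : Tendsto (fun x : ℝ => t / (2 * h' (η * x))) atTop atTop := by
      have e4 := (tendsto_inv_nhdsGT_zero.comp e1).const_mul_atTop ht
      exact e4
    exact (S.haz.tendsto_h.comp e3).eventually_ge_atTop _
  filter_upwards [hopt, hbig,
    glow_xh S.haz hη0 M1 hZ0, glow_pow S.haz hd hK (η := η) (C := c1) (C1 := C1) (c := 2 * η) hη0 ht,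
    glow_trunc S.haz hdp hd (η := η) (t := t) (C := c1 * C2) hη0 ht ht, eventually_ge_atTop 1]
    with x hopt hbt ev1 ev3 ev4 hx1
  obtain ⟨ev2, ev1⟩ := ev1
  obtain ⟨θ, X, hθ, hX, hX', hθh, -, hR, -, -⟩ := hopt
  have hx0 : 0 < x := by linarith
  have hy0 : 0 < η * x := by positivity
  set p := h' (η * x) with hpdef
  have hp : 0 < p := S.haz.pos _ hy0
  have hω'1 : ω' ≤ t / 2 := (min_le_left _ _).trans (min_le_left _ _)
  have hω'2 : ω' ≤ 1 / 2 := (min_le_left _ _).trans (min_le_right _ _)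
  have hω'3 : ω' ≤ ω1 / 2 := min_le_right _ _
  have hZ1 : Z ≤ θ0 := (min_le_left _ _).trans ((min_le_left _ _).trans (min_le_left _ _))
  have hZ2 : Z ≤ θ1 := (min_le_left _ _).trans ((min_le_left _ _).trans (min_le_right _ _))
  have hZ2' : Z ≤ θ0' := (min_le_left _ _).trans (min_le_right _ _)
  have hZ3 : Z ≤ θ2 := (min_le_right _ _).trans ((min_le_left _ _).trans (min_le_left _ _))
  have hZ4 : Z ≤ 1 := (min_le_right _ _).trans ((min_le_left _ _).trans (min_le_right _ _))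
  have hZ5 : Z ≤ t / (τ + 1) := (min_le_right _ _).trans
    ((min_le_right _ _).trans (min_le_left _ _))
  have hZ6 : Z ≤ 1 / (η + 1) := (min_le_right _ _).trans
    ((min_le_right _ _).trans ((min_le_right _ _).trans (min_le_left _ _)))
  have hZ7 : Z ≤ (E - m) / (4 * (C1 * η ^ (K + 1) + 1)) := (min_le_right _ _).trans
    ((min_le_right _ _).trans ((min_le_right _ _).trans (min_le_right _ _)))
  have hM1a := ((le_max_left (4 * t) (2 * A)).trans (le_max_left _ _)).trans ev2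
  have hM1b := ((le_max_right (4 * t) (2 * A)).trans (le_max_left _ _)).trans ev2
  have hM1c : 2 * t / (b * η) ≤ x * p :=
    ((le_max_left _ _).trans (le_max_right _ _)).trans ev2
  have hM1d : 2 * |Real.log (t / 2)| ≤ x * p :=
    (((le_max_left _ _).trans (le_max_right _ _)).trans (le_max_right _ _)).trans ev2
  have hM1e : 8 * |Real.log (t / 4)| / (η - 2) ≤ x * p :=
    (((le_max_right _ _).trans (le_max_right _ _)).trans (le_max_right _ _)).trans ev2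
  obtain ⟨hf1, hf2, -⟩ := theta_facts hp hω'1 hω'2 hθh
  have hθZ : θ < Z := lt_of_le_of_lt hf2 ev1
  obtain ⟨hb1, hb2, hb3⟩ := hbeta θ hθ (hθZ.trans_le hZ2)
  obtain ⟨hr1, hr2⟩ := hrange θ hθ (hθZ.trans_le hZ3)
  have hhB : 4 * (η * t) ≤ h (t / θ) := by
    refine hbt.trans (S.haz.mono ?_)
    exact div_le_div_of_nonneg_left ht.le hθ hf2
  obtain ⟨B, M, hB, hBx, hfin⟩ := lowOne_point (K := K) (b := b) (C1 := C1) (C2 := C2) (p := p)
    (A := A) (β := cramerRoot μ ν K θ) S hK1 hη2 hd0 hD ht ht4 hηt hτ hντ hx1 hθ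
    hC1 hC2 hb0 hp hf1 hf2 (cramerRoot_nonneg K θ) hr1 hr2
    (hθZ.le.trans hZ4) (hθZ.le.trans hZ5) (hθZ.le.trans hZ6) (hθZ.le.trans hZ7)
    hM1a hM1b hM1c hM1d hM1e hA hhB hφu hφl hb2 hb3 ev3 (ev4 θ hθ hf2)
    (hQL θ hθ (hθZ.trans_le hZ1)) (hQU θ hθ (hθZ.le.trans hZ2'))
  refine ⟨B, θ, τ, M, hB, hBx, hθ, hτ, ?_⟩
  refine le_trans (ENNReal.ofReal_le_ofReal ?_) hfin
  have e1 : fOneH h h' μ ν K x = Real.exp (-(hG h θ + x * (θ + cramerRoot μ ν K θ))) /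
      ((2 * m - E) * p) := by
    unfold fOneH
    rw [hR]
  rw [e1]
  set e := Real.exp (-(hG h θ + x * (θ + cramerRoot μ ν K θ))) with he
  have he0 : 0 < e := Real.exp_pos _
  have hDp : 0 < (2 * m - E) * p := mul_pos hD hp
  have hDθ : 0 < (2 * m - E) * θ := mul_pos hD hθ
  have hθp : θ ≤ (1 + ω1 / 2) * p := by
    have h1 := (abs_le.mp hθh).2
    have h2 : ω' * p ≤ ω1 / 2 * p := mul_le_mul_of_nonneg_right hω'3 hp.le
    linarith
  have k1 : (1 - ω1 / 2) * (e / ((2 * m - E) * p)) ≤ e / ((2 * m - E) * θ) := by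
    rw [mul_div_assoc', div_le_div_iff₀ hDp hDθ]
    have h3 : (1 - ω1 / 2) * θ ≤ p := by
      have h4 : (1 - ω1 / 2) * θ ≤ (1 - ω1 / 2) * ((1 + ω1 / 2) * p) :=
        mul_le_mul_of_nonneg_left hθp (by linarith)
      have h5 : (1 - ω1 / 2) * ((1 + ω1 / 2) * p) = p - ω1 ^ 2 / 4 * p := by ring
      have h6 : 0 ≤ ω1 ^ 2 / 4 * p := by positivity
      linarith
    calc (1 - ω1 / 2) * e * ((2 * m - E) * θ) = e * (2 * m - E) * ((1 - ω1 / 2) * θ) := by ring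
      _ ≤ e * (2 * m - E) * p := mul_le_mul_of_nonneg_left h3 (by positivity)
      _ = e * ((2 * m - E) * p) := by ring
  have k2 : 0 ≤ e / ((2 * m - E) * p) := by positivity
  calc (1 - ω) * (e / ((2 * m - E) * p))
      ≤ (1 - ω1 / 2) * ((1 - ω1 / 2) * (e / ((2 * m - E) * p))) := by
        have h7 : 1 - ω ≤ (1 - ω1 / 2) * (1 - ω1 / 2) := by nlinarith
        calc (1 - ω) * (e / ((2 * m - E) * p))
            ≤ ((1 - ω1 / 2) * (1 - ω1 / 2)) * (e / ((2 * m - E) * p)) :=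
              mul_le_mul_of_nonneg_right h7 k2
          _ = _ := by ring
    _ ≤ (1 - ω1 / 2) * (e / ((2 * m - E) * θ)) :=
        mul_le_mul_of_nonneg_left k1 (by linarith)
    _ ≤ lowC η t * (e / ((2 * m - E) * θ)) :=
        mul_le_mul_of_nonneg_right hlow (by positivity)

end Pool.Agent.Lib.MP_04add8_pr.Cv
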