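import Mathlib
import Pool.Agent.Lib.MP_04add8_pr.Cv.LawM
import Pool.Agent.Lib.MP_04add8_pr.Cv.Opt
import Pool.Agent.Lib.MP_04add8_pr.Crit.LowPt

open MeasureTheory ProbabilityTheory Filter Topology
open scoped ENNReal

set_option linter.unusedSectionVars false

namespace Pool.Agent.Lib.MP_04add8_pr.Cv

open Pool.Agent.Lib.MP_04add8_pr.Gen

variable {h h' : ℝ → ℝ} {μ ν : Measure ℝ} [IsProbabilityMeasure μ]
  [IsProbabilityMeasure ν]

/-- one big job: lower bound, for every initial state. Original: `Crit/LowPt.lean`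
(`det_one_lower` is reused). In `midOne` the required size
`X = 2x + B + τ + sumA - reflW ≥ x / 2`, and `h X ≤ hG θ + θ X` (`le_hG`). -/
theorem goneBig_lower_pt (S : StdC μ ν h h') {F x B θ τ : ℝ} (hF : 0 ≤ F) (hx : 0 < x)
    (hB : 0 ≤ B) (hθ : 0 < θ) (hτ : 0 ≤ τ)
    (hFx : ∀ X : ℝ, x / 2 ≤ X → ENNReal.ofReal (F * Real.exp (-(h X))) ≤ μ (Set.Ioi X))
    (n : ℕ) {w : ℝ × ℝ} (h0 : 0 ≤ w.1) (h1 : w.1 ≤ w.2) :
    ENNReal.ofReal F * (ν (Set.Iic τ) * ENNReal.ofReal (Real.exp (-(hG h θ + θ * (B + τ)))) *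
      midOne μ ν x B θ n) ≤ (noise μ ν) {z | (w, z) ∈ oneBig x (x / 2) B n} := by
  have hmeas := measurableSet_oneBig x (x / 2) B n
  have hnn := law_noise_nonneg (μ := μ) (ν := ν) S.law S.hν
  have hr := measurable_reflW_right 0 n
  have hA := measurable_sumA n
  set X : (ℕ → ℝ × ℝ) → ℝ := fun z => 2 * x + B + τ + sumA z n - reflW 0 z n with hX
  have hXm : Measurable X := by rw [hX]; fun_prop
  set S0 : Set (ℕ → ℝ × ℝ) := allLe B n ∩ {z | x < reflW 0 z n ∧ reflW 0 z n ≤ 3 / 2 * x} with hS0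
  have hSm : MeasurableSet S0 := (measurableSet_allLe B n).inter
    ((measurableSet_lt measurable_const hr).inter (measurableSet_le hr measurable_const))
  set T : Set ((ℝ × ℝ) × (ℕ → ℝ × ℝ)) := {q | q.2 ∈ S0 ∧ (X q.2 < q.1.1 ∧ q.1.2 ≤ τ)} with hT
  have hTm : MeasurableSet T := by
    refine MeasurableSet.inter (measurable_snd hSm) ?_
    refine MeasurableSet.inter (measurableSet_lt (hXm.comp measurable_snd) ?_) ?_
    · exact measurable_fst.comp measurable_fst
    · exact measurableSet_le (measurable_snd.comp measurable_fst) measurable_const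
  have hpp : ∀ᵐ p ∂(μ.prod ν), 0 ≤ p.1 ∧ 0 ≤ p.2 := law_prod_nonneg S.law S.hν
  have hTI : ∫⁻ p, ∫⁻ z, T.indicator (fun _ => (1 : ℝ≥0∞)) (p, z) ∂(noise μ ν) ∂(μ.prod ν) ≥
      ENNReal.ofReal F * (ν (Set.Iic τ) * ENNReal.ofReal (Real.exp (-(hG h θ + θ * (B + τ)))) *
        midOne μ ν x B θ n) := by
    have hFm : Measurable (T.indicator (fun _ => (1 : ℝ≥0∞))) := measurable_const.indicator hTm
    have hFm' : AEMeasurable (Function.uncurry fun (p : ℝ × ℝ) (z : ℕ → ℝ × ℝ) =>
        T.indicator (fun _ => (1 : ℝ≥0∞)) (p, z)) ((μ.prod ν).prod (noise μ ν)) :=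
      hFm.aemeasurable
    rw [lintegral_lintegral_swap hFm']
    unfold midOne
    rw [ge_iff_le, ← mul_assoc, ← lintegral_const_mul' _ _
      (ENNReal.mul_ne_top ENNReal.ofReal_ne_top
        (ENNReal.mul_ne_top (measure_ne_top _ _) ENNReal.ofReal_ne_top))]
    apply lintegral_mono_ae
    filter_upwards [hnn] with z hz
    by_cases hzS : z ∈ S0
    · obtain ⟨hz1, hz2, hz3⟩ := hzS
      rw [Set.indicator_of_mem hz1, if_pos ⟨hz2, hz3⟩]
      have hA0 : 0 ≤ sumA z n := Finset.sum_nonneg fun i _ => (hz i).2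
      have hX0 : 0 ≤ X z := by
        simp only [hX]
        linarith
      have e1 : (fun p : ℝ × ℝ => T.indicator (fun _ => (1 : ℝ≥0∞)) (p, z)) =
          (Set.Ioi (X z) ×ˢ Set.Iic τ).indicator 1 := by
        funext p
        by_cases hpz : X z < p.1 ∧ p.2 ≤ τ
        · rw [Set.indicator_of_mem (s := T) ⟨⟨hz1, hz2, hz3⟩, hpz⟩,
            Set.indicator_of_mem (s := Set.Ioi (X z) ×ˢ Set.Iic τ) ⟨hpz.1, hpz.2⟩]
          rfl
        · rw [Set.indicator_of_notMem (s := T) (fun h => hpz h.2),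
            Set.indicator_of_notMem (s := Set.Ioi (X z) ×ˢ Set.Iic τ)
              (fun h => hpz ⟨h.1, h.2⟩)]
      rw [e1, lintegral_indicator_one (measurableSet_Ioi.prod measurableSet_Iic),
        Measure.prod_prod]
      have hX2 : x / 2 ≤ X z := by
        simp only [hX]
        linarith
      have h5 := le_hG S.haz hθ hX0
      have e2 : θ * X z = θ * (B + τ) + θ * (2 * x + sumA z n - reflW 0 z n) := by
        simp only [hX]; ring
      rw [e2] at h5
      calc ENNReal.ofReal F * (ν (Set.Iic τ) *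
            ENNReal.ofReal (Real.exp (-(hG h θ + θ * (B + τ))))) *
            ENNReal.ofReal (Real.exp (-(θ * (2 * x + sumA z n - reflW 0 z n))))
          = ENNReal.ofReal (F * Real.exp (-(hG h θ + θ * (B + τ) +
              θ * (2 * x + sumA z n - reflW 0 z n)))) * ν (Set.Iic τ) := by
            have e3 : F * Real.exp (-(hG h θ + θ * (B + τ) +
                θ * (2 * x + sumA z n - reflW 0 z n))) =
                F * (Real.exp (-(hG h θ + θ * (B + τ))) *
                  Real.exp (-(θ * (2 * x + sumA z n - reflW 0 z n)))) := by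
              rw [← Real.exp_add]
              congr 2
              ring
            rw [e3, ENNReal.ofReal_mul hF, ENNReal.ofReal_mul (Real.exp_pos _).le]
            ring
        _ ≤ ENNReal.ofReal (F * Real.exp (-(h (X z)))) * ν (Set.Iic τ) := by
            gcongr
            linarith
        _ ≤ μ (Set.Ioi (X z)) * ν (Set.Iic τ) := by
            gcongr
            exact hFx _ hX2
    · have e0 : (allLe B n).indicator (fun z => if x < reflW 0 z n ∧
          reflW 0 z n ≤ 3 / 2 * x then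
          ENNReal.ofReal (Real.exp (-(θ * (2 * x + sumA z n - reflW 0 z n)))) else 0) z = 0 := by
        by_cases hz1 : z ∈ allLe B n
        · rw [Set.indicator_of_mem hz1, if_neg]
          intro h
          exact hzS ⟨hz1, h⟩
        · rw [Set.indicator_of_notMem hz1]
      rw [e0, mul_zero]
      exact zero_le
  refine hTI.trans ?_
  have hw : 0 ≤ w.1 ∧ w.1 ≤ w.2 := ⟨h0, h1⟩
  change _ ≤ (noise μ ν) (Prod.mk w ⁻¹' oneBig x (x / 2) B n)
  have hmw : MeasurableSet (Prod.mk w ⁻¹' oneBig x (x / 2) B n) := measurable_prodMk_left hmeas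
  rw [← lintegral_indicator_one hmw, lintegral_noise_cons (measurable_one.indicator hmw)]
  apply lintegral_mono_ae
  filter_upwards [hpp] with p hp'
  apply lintegral_mono_ae
  filter_upwards [hnn] with z hz
  by_cases hT' : (p, z) ∈ T
  · obtain ⟨⟨h1, h2, h3⟩, h4, h5⟩ := hT'
    have hA0 : 0 ≤ sumA z n := Finset.sum_nonneg fun i _ => (hz i).2
    have h4' : 2 * x + B + τ + sumA z n - reflW 0 z n < p.1 := h4
    have h3' : reflW 0 z n ≤ 3 / 2 * x := h3
    have h5' : p.2 ≤ τ := h5
    have hmem : gcons p z ∈ Prod.mk w ⁻¹' oneBig x (x / 2) B n := by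
      refine ⟨?_, ?_, ?_⟩
      · change x / 2 < p.1
        linarith
      · intro i hi
        exact h1 i hi
      · change x < (pIter w (gcons p z) (n + 1)).1
        rw [pIter_gcons]
        apply det_one_lower hx.le hB hw.1 hw.2 hp' hz n (fun k hk => h1 k hk) h2
        linarith
    rw [Set.indicator_of_mem hmem]
    exact Set.indicator_le_self' (by simp) _
  · rw [Set.indicator_of_notMem hT']
    exact zero_le


end Pool.Agent.Lib.MP_04add8_pr.Cv
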