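import Mathlib
import Pool.Agent.Lib.MP_04add8_pr.Cv.LawM
import Pool.Agent.Lib.MP_04add8_pr.Exist
import Pool.Agent.Lib.MP_04add8_pr.DriftInt
import Pool.Agent.Lib.MP_04add8_pr.Upper

open MeasureTheory ProbabilityTheory Filter Topology
open scoped ENNReal

set_option linter.unusedSectionVars false

namespace Pool.Agent.Lib.MP_04add8_pr.Cv

open Pool.Agent.Lib.MP_04add8_pr.Gen

variable {h h' : ℝ → ℝ} {μ ν : Measure ℝ} [IsProbabilityMeasure μ]
  [IsProbabilityMeasure ν]

private lemma exC_max (x y : ℝ) (hxy : x ≤ y) : (max x 0) ^ 2 ≤ y ^ 2 := by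
  rcases le_total x 0 with h1 | h1
  · rw [max_eq_right h1]
    have := sq_nonneg y
    simpa using this
  · rw [max_eq_left h1]
    exact pow_le_pow_left₀ h1 hxy 2

private lemma exC_step {w : ℝ × ℝ} {s t T : ℝ} (hT : T ≤ t) :
    (kwStep w s t).1 ^ 2 + (kwStep w s t).2 ^ 2 ≤ (w.1 + s - T) ^ 2 + (w.2 - T) ^ 2 := by
  have h1 := exC_max (w.1 + s - t) (w.1 + s - T) (by linarith)
  have h2 := exC_max (w.2 - t) (w.2 - T) (by linarith)
  have h3 : (kwStep w s t).1 ^ 2 + (kwStep w s t).2 ^ 2 =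
      (max (w.1 + s - t) 0) ^ 2 + (max (w.2 - t) 0) ^ 2 := by
    unfold kwStep
    simp only
    rcases le_total (max (w.1 + s - t) 0) (max (w.2 - t) 0) with h4 | h4
    · rw [min_eq_left h4, max_eq_right h4]
    · rw [min_eq_right h4, max_eq_left h4, add_comm]
  rw [h3]
  exact add_le_add h1 h2

/-- existence of a stationary law, by the quadratic Lyapunov function `w.1 ^ 2 + w.2 ^ 2`:
with `T = min t τ`, `∫ min t τ` close to the mean, the drift is at most
`2 w.1 (E - m_τ) - 2 w.2 m_τ + C ≤ - 2 (2 m_τ - E) w.2 + C`. -/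
theorem gexists_stationary (S : StdC μ ν h h') : ∃ π : Measure (ℝ × ℝ), IsStationaryKW μ ν π := by
  have hgt := S.hgt
  have hlt := S.hlt
  have hm := S.hm
  have i1 : Integrable (fun s : ℝ => s) μ := by
    simpa using law_integrable_pow S.haz S.law 1
  have i2 : Integrable (fun s : ℝ => s ^ 2) μ := law_integrable_pow S.haz S.law 2
  set E := ∫ s, s ∂μ with hE
  set m := ∫ t, t ∂ν with hmm
  set E2 := ∫ s, s ^ 2 ∂μ with hE2
  have hE20 : 0 ≤ E2 := integral_nonneg fun s => sq_nonneg s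
  -- the truncation
  have hlim := tendsto_integral_min S.hν S.hνi
  have hev : ∀ᶠ n : ℕ in atTop, 0 < 2 * (∫ t, min t (n : ℝ) ∂ν) - E := by
    have h1 : Tendsto (fun n : ℕ => 2 * (∫ t, min t (n : ℝ) ∂ν) - E) atTop (𝓝 (2 * m - E)) :=
      (hlim.const_mul 2).sub_const E
    exact h1.eventually_const_lt (by linarith)
  obtain ⟨n0, hn0⟩ := hev.exists
  set τ : ℝ := (n0 : ℝ) with hτ
  have hτ0 : 0 ≤ τ := Nat.cast_nonneg n0
  have j1 : Integrable (fun t => min t τ) ν := min_integrable S.hν hτ0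
  set mτ := ∫ t, min t τ ∂ν with hmτ
  have hmτle : mτ ≤ m := integral_mono_ae j1 S.hνi (Eventually.of_forall fun t => min_le_left _ _)
  set c : ℝ := 2 * (2 * mτ - E) with hc
  have hc0 : 0 < c := by rw [hc]; linarith
  have hE0 : 0 < E := by linarith
  -- the constant
  set K : ℝ := E2 + 2 * τ ^ 2 with hK
  have hK0 : 0 ≤ K := by positivity
  have hae : ∀ᵐ p ∂(μ.prod ν), 0 ≤ p.1 ∧ 0 ≤ p.2 := law_prod_nonneg S.law S.hν
  have I1 : Integrable (fun p : ℝ × ℝ => p.1) (μ.prod ν) := i1.comp_fst ν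
  have I2 : Integrable (fun p : ℝ × ℝ => p.1 ^ 2) (μ.prod ν) := i2.comp_fst ν
  have I3 : Integrable (fun p : ℝ × ℝ => min p.2 τ) (μ.prod ν) := j1.comp_snd μ
  have e1 : ∫ p : ℝ × ℝ, p.1 ∂(μ.prod ν) = E := by
    rw [integral_prod _ I1]; simp [hE]
  have e2 : ∫ p : ℝ × ℝ, p.1 ^ 2 ∂(μ.prod ν) = E2 := by
    rw [integral_prod _ I2]; simp [hE2]
  have e3 : ∫ p : ℝ × ℝ, min p.2 τ ∂(μ.prod ν) = mτ := by
    rw [integral_prod _ I3]; simp [hmτ]
  refine exists_stationary_of_drift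
    (H := fun w => ENNReal.ofReal (w.1 ^ 2 + w.2 ^ 2)) (g := fun w => ENNReal.ofReal (c * w.2))
    (by fun_prop) (by fun_prop) (fun w => ENNReal.ofReal_ne_top) K hK0 ?_ ?_
  · intro w hw0 hw1
    have hw2 : 0 ≤ w.2 := hw0.trans hw1
    -- an integrable upper bound
    set f : ℝ × ℝ → ℝ := fun p => w.1 ^ 2 + w.2 ^ 2 + 2 * w.1 * p.1 - 2 * (w.1 + w.2) * min p.2 τ +
      p.1 ^ 2 + 2 * τ ^ 2 with hf
    have hle : ∀ᵐ p ∂(μ.prod ν), (kwStep w p.1 p.2).1 ^ 2 + (kwStep w p.1 p.2).2 ^ 2 ≤ f p := by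
      filter_upwards [hae] with p hp
      refine (exC_step (w := w) (s := p.1) (t := p.2) (T := min p.2 τ) (min_le_left _ _)).trans ?_
      have hT0 : 0 ≤ min p.2 τ := le_min hp.2 hτ0
      have hT1 : min p.2 τ ≤ τ := min_le_right _ _
      have hT2 : (min p.2 τ) ^ 2 ≤ τ ^ 2 := pow_le_pow_left₀ hT0 hT1 2
      have hT3 : 0 ≤ p.1 * min p.2 τ := mul_nonneg hp.1 hT0
      simp only [hf]
      nlinarith
    have hfi : Integrable f (μ.prod ν) :=
      (((((integrable_const _).add (I1.const_mul _)).sub (I3.const_mul _)).add I2).add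
        (integrable_const _))
    have hfI : ∫ p, f p ∂(μ.prod ν) =
        w.1 ^ 2 + w.2 ^ 2 + 2 * w.1 * E - 2 * (w.1 + w.2) * mτ + E2 + 2 * τ ^ 2 := by
      rw [hf, integral_add, integral_add, integral_sub, integral_add, integral_const_mul,
        integral_const_mul, e1, e2, e3]
      · simp
      · exact integrable_const _
      · exact I1.const_mul _
      · exact (integrable_const _).add (I1.const_mul _)
      · exact I3.const_mul _
      · exact ((integrable_const _).add (I1.const_mul _)).sub (I3.const_mul _)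
      · exact I2
      · exact (((integrable_const _).add (I1.const_mul _)).sub (I3.const_mul _)).add I2
      · exact integrable_const _
    have hf0 : ∀ᵐ p ∂(μ.prod ν), 0 ≤ f p := by
      filter_upwards [hle] with p hp
      exact le_trans (by positivity) hp
    have h1 : ∫⁻ p, ENNReal.ofReal ((kwStep w p.1 p.2).1 ^ 2 + (kwStep w p.1 p.2).2 ^ 2)
        ∂(μ.prod ν) ≤ ENNReal.ofReal (∫ p, f p ∂(μ.prod ν)) := by
      rw [ofReal_integral_eq_lintegral_ofReal hfi hf0]
      refine lintegral_mono_ae ?_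
      filter_upwards [hle] with p hp
      exact ENNReal.ofReal_le_ofReal hp
    have h2 : 0 ≤ ∫ p, f p ∂(μ.prod ν) := integral_nonneg_of_ae hf0
    refine (add_le_add_left h1 _).trans ?_
    rw [← ENNReal.ofReal_add h2 (by positivity), ← ENNReal.ofReal_add (by positivity) hK0]
    refine ENNReal.ofReal_le_ofReal ?_
    rw [hfI, hc, hK]
    have h3 : w.1 * (E - mτ) ≤ w.2 * (E - mτ) := mul_le_mul_of_nonneg_right hw1 (by linarith)
    nlinarith
  · intro N
    refine ⟨N / c, fun w _ _ hw => ?_⟩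
    rw [div_lt_iff₀ hc0] at hw
    rw [← ENNReal.ofReal_natCast]
    exact ENNReal.ofReal_le_ofReal (by linarith)

end Pool.Agent.Lib.MP_04add8_pr.Cv
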