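import Mathlib
import Pool.Agent.Lib.MP_04add8_pr.Cv.Exact
import Pool.Agent.Lib.MP_04add8_pr.Cv.ExactI
import Pool.Agent.Lib.MP_04add8_pr.Cv.Ext
import Pool.Agent.Lib.MP_04add8_pr.Cv.ExistC
import Pool.Agent.Lib.MP_04add8_pr.Cv.Rate
import Pool.Agent.Lib.MP_04add8_pr.Exist2

open MeasureTheory ProbabilityTheory Filter Topology
open scoped ENNReal

set_option linter.unusedSectionVars false

namespace Pool.Agent.Lib.MP_04add8_pr.Cv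

open Pool.Agent.Lib.MP_04add8_pr.Gen

/-- Assembly: from a hazard rate given on a half line to the structure `StdC`. -/
theorem exists_stdC (μ ν : Measure ℝ) [IsProbabilityMeasure μ] [IsProbabilityMeasure ν]
    (hμ : μ (Set.Iio 0) = 0) (hν : ν (Set.Iio 0) = 0) (hνi : Integrable (fun t : ℝ => t) ν)
    (h q : ℝ → ℝ) (x₀ : ℝ) (hx₀ : 0 ≤ x₀)
    (hd : ∀ x : ℝ, x₀ < x → HasDerivAt h (q x) x) (hq : ∀ x : ℝ, x₀ < x → 0 < q x)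
    (hanti : ∀ x y : ℝ, x₀ < x → x ≤ y → q y ≤ q x)
    (hcurv : ∃ C : ℝ, ∀ x y : ℝ, x₀ < x → x ≤ y → x ^ C * q x ≤ y ^ C * q y)
    (hlim : Tendsto q atTop (𝓝 0)) (hbig : Tendsto (fun x : ℝ => x * q x) atTop atTop)
    (htail : Tendsto (fun x : ℝ => μ.real (Set.Ioi x) / Real.exp (-(h x))) atTop (𝓝 1))
    (ρ : ℝ) (hρ : ρ = (∫ s, s ∂μ) / (∫ t, t ∂ν)) (hρ1 : 1 < ρ) (hρ2 : ρ < 2) :
    ∃ g g' : ℝ → ℝ, StdC μ ν g g' ∧ (∀ᶠ x : ℝ in atTop, g x = h x) ∧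
      (∀ᶠ x : ℝ in atTop, g' x = q x) := by
  obtain ⟨hm, hgt, hlt, -⟩ := load_facts (a := 1) one_pos hν hρ hρ1 hρ2
  obtain ⟨g, g', H, hg, hg'⟩ := exists_hazC hx₀ hd hq hanti hcurv hlim hbig
  have hlim2 : Tendsto (fun x : ℝ => μ.real (Set.Ioi x) / Real.exp (-(g x))) atTop (𝓝 1) := by
    refine htail.congr' ?_
    filter_upwards [hg] with x hx
    rw [hx]
  exact ⟨g, g', ⟨H, exists_lawC H hμ hlim2, hν, hνi, hm, hgt, hlt⟩, hg, hg'⟩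

private lemma finC_facts {μ ν : Measure ℝ} [IsProbabilityMeasure μ] [IsProbabilityMeasure ν]
    (hν : ν (Set.Iio 0) = 0) {ρ : ℝ} (hρ : ρ = (∫ s, s ∂μ) / (∫ t, t ∂ν)) (hρ1 : 1 < ρ)
    (hρ2 : ρ < 2) :
    2 * (∫ t, t ∂ν) - ∫ s, s ∂μ = (2 - ρ) * ∫ t, t ∂ν ∧ eta μ ν = ρ / (ρ - 1) ∧
      2 / ((2 - ρ) ^ 3 * (∫ t, t ∂ν) ^ 2) = K2 μ ν := by
  obtain ⟨hm, hgt, hlt, hη0⟩ := load_facts (a := 1) one_pos hν hρ hρ1 hρ2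
  have h1 : 2 * (∫ t, t ∂ν) - ∫ s, s ∂μ = (2 - ρ) * ∫ t, t ∂ν := by
    rw [hρ]; field_simp
  have h2 : (2 - ρ) ≠ 0 := by linarith
  refine ⟨h1, ?_, ?_⟩
  · unfold eta
    rw [hη0]
  · unfold K2
    rw [h1]
    field_simp

/-- Assembly, regime (ii): the two-big-jobs law of the tail. -/
theorem final_two {μ ν : Measure ℝ} [IsProbabilityMeasure μ] [IsProbabilityMeasure ν]
    {g g' : ℝ → ℝ} (S : StdC μ ν g g') {ρ : ℝ} (hρ : ρ = (∫ s, s ∂μ) / (∫ t, t ∂ν))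
    (hρ1 : 1 < ρ) (hρ2 : ρ < 2) {π : Measure (ℝ × ℝ)} (hπ : IsStationaryKW μ ν π)
    (hup : ∀ ω : ℝ, 0 < ω → ∀ᶠ x : ℝ in atTop, π {w | x < w.1} ≤
      ENNReal.ofReal ((K2 μ ν + ω) * (Qf g g' x) ^ 2)) :
    Tendsto (fun x : ℝ => π.real {w | x < w.1} /
      (2 / ((2 - ρ) ^ 3 * (∫ t, t ∂ν) ^ 2) * integratedTail μ x ^ 2)) atTop (𝓝 1) := by
  obtain ⟨-, -, e⟩ := finC_facts S.hν hρ hρ1 hρ2
  rw [e]
  exact gexactII_of S hπ hup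

/-- Assembly, regime (i): one big job and two big jobs. -/
theorem final_one {μ ν : Measure ℝ} [IsProbabilityMeasure μ] [IsProbabilityMeasure ν]
    {g g' : ℝ → ℝ} (S : StdC μ ν g g') {d : ℝ} (hd : ∀ᶠ x : ℝ in atTop, g' x ≤ x ^ (-d)) {K : ℕ}
    (hK : 1 < (K + 1) * d) {ρ : ℝ} (hρ : ρ = (∫ s, s ∂μ) / (∫ t, t ∂ν))
    (hρ1 : 1 < ρ) (hρ2 : ρ < 2) {π : Measure (ℝ × ℝ)} (hπ : IsStationaryKW μ ν π)
    (hup : ∀ ω : ℝ, 0 < ω → ∀ᶠ x : ℝ in atTop, π {w | x < w.1} ≤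
      ENNReal.ofReal ((1 + ω) * fOneH g g' μ ν K x + (K2 μ ν + ω) * (Qf g g' x) ^ 2)) :
    Tendsto (fun x : ℝ => π.real {w | x < w.1} /
      (Real.exp (-(tRate μ (cramerRoot μ ν K) x)) / ((2 - ρ) * (∫ t, t ∂ν)) *
          (integratedTail μ (ρ / (ρ - 1) * x) / μ.real (Set.Ioi (ρ / (ρ - 1) * x))) +
        2 / ((2 - ρ) ^ 3 * (∫ t, t ∂ν) ^ 2) * integratedTail μ x ^ 2)) atTop (𝓝 1) := by
  obtain ⟨h1, e2, e⟩ := finC_facts S.hν hρ hρ1 hρ2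
  have hfin := gexact_intr_of S (S.haz.one_le_of_rate hd hK) (gexact_of S hd hK hπ hup)
  rw [e]
  refine hfin.congr fun x => ?_
  rw [h1, e2]
  congr 2
  ring

end Pool.Agent.Lib.MP_04add8_pr.Cv
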