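import Mathlib
import Pool.Agent.Lib.MP_04add8_pr.Cv.PathW
import Pool.Agent.Lib.MP_04add8_pr.Cv.PathEv

open MeasureTheory ProbabilityTheory Filter Topology
open scoped ENNReal

set_option linter.unusedSectionVars false

namespace Pool.Agent.Lib.MP_04add8_pr.Cv

open Pool.Agent.Lib.MP_04add8_pr.Gen

variable {h h' : ℝ → ℝ} {μ ν : Measure ℝ} [IsProbabilityMeasure μ]
  [IsProbabilityMeasure ν]

variable {B v : ℝ → ℝ}

/-- the product of weights: all at least `1`, two of them at least `ζ` -/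
private lemma killFour_prod {n i j : ℕ} {ζ : ℝ≥0∞} {a : ℕ → ℝ≥0∞} (hij : i < j) (hj : j < n)
    (h1 : ∀ k < n, 1 ≤ a k) (hi : ζ ≤ a i) (hj' : ζ ≤ a j) :
    ζ * ζ ≤ ∏ k ∈ Finset.range n, a k := by
  have hs : ({i, j} : Finset ℕ) ⊆ Finset.range n := by
    intro k hk
    simp only [Finset.mem_insert, Finset.mem_singleton] at hk
    rw [Finset.mem_range]
    rcases hk with rfl | rfl <;> omega
  calc ζ * ζ ≤ a i * a j := mul_le_mul' hi hj'
    _ = ∏ k ∈ ({i, j} : Finset ℕ), a k := (Finset.prod_pair (by omega)).symm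
    _ ≤ ∏ k ∈ Finset.range n, a k := by
      refine Finset.prod_le_prod_of_subset_of_one_le' hs ?_
      intro k hk _
      exact h1 k (Finset.mem_range.1 hk)

/-- `(1 + 1/N)^m ≤ 3` for `m ≤ N` -/
private lemma killFour_pow {N m : ℕ} (hN : 0 < N) (hm : m ≤ N) :
    (1 + ENNReal.ofReal (1 / (N : ℝ))) ^ m ≤ ENNReal.ofReal 3 := by
  have hN0 : (0 : ℝ) < N := by exact_mod_cast hN
  have h0 : (0 : ℝ) ≤ 1 / (N : ℝ) := by positivity
  rw [← ENNReal.ofReal_one, ← ENNReal.ofReal_add zero_le_one h0, ← ENNReal.ofReal_pow (by linarith)]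
  refine ENNReal.ofReal_le_ofReal ?_
  have h1 : 1 + 1 / (N : ℝ) ≤ Real.exp (1 / (N : ℝ)) := by
    have := Real.add_one_le_exp (1 / (N : ℝ))
    linarith
  calc (1 + 1 / (N : ℝ)) ^ m ≤ (1 + 1 / (N : ℝ)) ^ N :=
        pow_le_pow_right₀ (by linarith) hm
    _ ≤ (Real.exp (1 / (N : ℝ))) ^ N := pow_le_pow_left₀ (by linarith) h1 N
    _ = Real.exp 1 := by
        rw [← Real.exp_nat_mul]
        congr 1
        field_simp
    _ ≤ 3 := by
        have := Real.exp_one_lt_d9
        linarith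

/-- the real arithmetic at the end -/
private lemma killFour_real {x K KA K0 γ N R E z : ℝ} (hx : 12 ≤ x) (hK0 : |K| + KA + 60 ≤ K0)
    (hγ : Real.exp γ = x ^ K0) (hγ0 : 0 ≤ γ) (hN0 : 0 < N) (hN : N ≤ 2 * x ^ 20)
    (hz : z = Real.exp γ / (N * x ^ 3)) :
    3 * (x ^ 3 * Real.exp (-γ)) * x ^ KA ≤
      x ^ (-K) * (Real.exp (-R) + Real.exp (-E)) *
        (z * z * min (Real.exp (R - γ)) (Real.exp (E - 2 * γ))) := by
  have hx0 : 0 < x := by linarith
  have hx1 : 1 ≤ x := by linarith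
  -- the minimum
  have hm : Real.exp (-(2 * γ)) ≤ (Real.exp (-R) + Real.exp (-E)) *
      min (Real.exp (R - γ)) (Real.exp (E - 2 * γ)) := by
    have p1 := Real.exp_pos (-R)
    have p2 := Real.exp_pos (-E)
    rcases min_choice (Real.exp (R - γ)) (Real.exp (E - 2 * γ)) with hh | hh
    · rw [hh]
      have e1 : Real.exp (-R) * Real.exp (R - γ) = Real.exp (-γ) := by
        rw [← Real.exp_add]; congr 1; ring
      have e2 : Real.exp (-(2 * γ)) ≤ Real.exp (-γ) := Real.exp_le_exp.2 (by linarith)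
      have e3 : 0 ≤ Real.exp (-E) * Real.exp (R - γ) := by positivity
      rw [add_mul]
      linarith
    · rw [hh]
      have e1 : Real.exp (-E) * Real.exp (E - 2 * γ) = Real.exp (-(2 * γ)) := by
        rw [← Real.exp_add]; congr 1; ring
      have e3 : 0 ≤ Real.exp (-R) * Real.exp (E - 2 * γ) := by positivity
      rw [add_mul]
      linarith
  have hzz : z * z * Real.exp (-(2 * γ)) = 1 / (N * x ^ 3) ^ 2 := by
    have e1 : Real.exp (-(2 * γ)) = 1 / (Real.exp γ * Real.exp γ) := by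
      rw [← Real.exp_add, one_div, ← Real.exp_neg]; congr 1; ring
    rw [hz, e1]
    have := (Real.exp_pos γ).ne'
    field_simp
  have hz0 : 0 ≤ z * z := mul_self_nonneg z
  have hNx : (N * x ^ 3) ^ 2 ≤ 4 * x ^ 46 := by
    have e1 : N * x ^ 3 ≤ 2 * x ^ 23 := by
      calc N * x ^ 3 ≤ 2 * x ^ 20 * x ^ 3 := by gcongr
        _ = 2 * x ^ 23 := by ring
    calc (N * x ^ 3) ^ 2 ≤ (2 * x ^ 23) ^ 2 := by gcongr
      _ = 4 * x ^ 46 := by ring
  have hNx0 : 0 < (N * x ^ 3) ^ 2 := by positivity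
  have h1 : 1 / (4 * x ^ 46) ≤ z * z * Real.exp (-(2 * γ)) := by
    rw [hzz]
    exact one_div_le_one_div_of_le hNx0 hNx
  have h2 : z * z * Real.exp (-(2 * γ)) ≤ (Real.exp (-R) + Real.exp (-E)) *
      (z * z * min (Real.exp (R - γ)) (Real.exp (E - 2 * γ))) := by
    calc z * z * Real.exp (-(2 * γ)) ≤ z * z * ((Real.exp (-R) + Real.exp (-E)) *
          min (Real.exp (R - γ)) (Real.exp (E - 2 * γ))) := mul_le_mul_of_nonneg_left hm hz0
      _ = _ := by ring
  -- the key inequality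
  have key : 12 * (x ^ 49 * x ^ KA * x ^ K) ≤ Real.exp γ := by
    rw [hγ]
    have e1 : x * (x ^ 49 * x ^ KA * x ^ K) = x ^ ((50 : ℝ) + KA + K) := by
      rw [Real.rpow_add hx0, Real.rpow_add hx0]
      have : x ^ (50 : ℝ) = x ^ 50 := by
        rw [← Real.rpow_natCast]; norm_num
      rw [this]
      ring
    have e2 : x ^ ((50 : ℝ) + KA + K) ≤ x ^ K0 := by
      refine Real.rpow_le_rpow_of_exponent_le hx1 ?_
      have := le_abs_self K
      linarith
    have e3 : 12 * (x ^ 49 * x ^ KA * x ^ K) ≤ x * (x ^ 49 * x ^ KA * x ^ K) := by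
      refine mul_le_mul_of_nonneg_right hx ?_
      positivity
    linarith
  have hKK : x ^ (-K) * x ^ K = 1 := by
    rw [← Real.rpow_add hx0]; simp
  have hxK : 0 < x ^ (-K) := Real.rpow_pos_of_pos hx0 _
  have hxK' : 0 < x ^ K := Real.rpow_pos_of_pos hx0 _
  have h3 : 3 * (x ^ 3 * Real.exp (-γ)) * x ^ KA ≤ x ^ (-K) * (1 / (4 * x ^ 46)) := by
    have e1 : Real.exp (-γ) = 1 / Real.exp γ := by rw [Real.exp_neg, one_div]
    have e2 : x ^ (-K) = 1 / x ^ K := by rw [Real.rpow_neg hx0.le, one_div]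
    rw [e1, e2]
    have hE := Real.exp_pos γ
    rw [one_div_mul_one_div, mul_one_div, mul_div_assoc', div_mul_eq_mul_div,
      div_le_div_iff₀ hE (by positivity)]
    calc 3 * x ^ 3 * x ^ KA * (x ^ K * (4 * x ^ 46)) = 12 * (x ^ 49 * x ^ KA * x ^ K) := by ring
      _ ≤ Real.exp γ := key
      _ = 1 * Real.exp γ := (one_mul _).symm
  calc 3 * (x ^ 3 * Real.exp (-γ)) * x ^ KA ≤ x ^ (-K) * (1 / (4 * x ^ 46)) := h3
    _ ≤ x ^ (-K) * ((Real.exp (-R) + Real.exp (-E)) *
        (z * z * min (Real.exp (R - γ)) (Real.exp (E - 2 * γ)))) :=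
      mul_le_mul_of_nonneg_left (h1.trans h2) hxK.le
    _ = _ := by ring

/-- **Two nonsmall jobs after the entry are negligible.** `D = 4 C`, `path_consts` with `K0` large (`K0 ≥ K + KA + 60`),
`γ = K0 log x`, `N = ⌈x²⁰⌉`, `ζ = e^γ / (N x³) ≥ 1`. `path_event` (up to time `n`) with `a 0 = enW (x²) v`,
`a i = smZ B v (x²) + ζ • bgZ B (x²) v (x²)` for `i ≥ 1`, `U 0 = EP`, `U i = UU γ (2γ)` for `i ≥ 1`, `k 0 = x³ e^{-γ}`,
`k i = 1 + ζ x³ e^{-γ} = 1 + 1/N`. On `Cfour` every step `i ≥ 1` has weight `1` or `ζ ≥ 1`, and two different steps have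
weight `ζ`, so `∏ a_i ≥ ζ²`; `U n ≥ min (e^{RR x - γ}) (e^{2 h x - 2γ})` (`UU_ge_final`). Hence
`P (Cfour) ≤ ζ⁻² · 3 x³ e^{-γ} x^KA · (e^{-RR + γ} + e^{-2h + 2γ})`, `(1 + 1/N)^(n-1) ≤ 3`, and `ζ⁻² = N² x⁶ e^{-2γ}`, `N ≤ 2 x²⁰`. -/
theorem kill_four (S : StdC μ ν h h') (T : Thr h h' B v) {β : ℝ → ℝ} {θ0 c C : ℝ}
    (P : Pot μ ν h β θ0 c C 0) (K : ℝ) :
    ∀ᶠ x : ℝ in atTop, ∀ π : Measure (ℝ × ℝ), IsStationaryKW μ ν π → ∀ n ≤ ⌈x ^ 20⌉₊,
      (π.prod (noise μ ν)) (Cfour x (v x) (B x) (x ^ 2) n) ≤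
        ENNReal.ofReal (x ^ (-K) *
          (Real.exp (-(RR h β θ0 x)) + Real.exp (-(2 * h x)))) := by
  have H := S.haz
  have hC1 : 1 ≤ C := by have := P.pC; have := P.pc; linarith
  obtain ⟨KA, cW, hKA, hcW, hP⟩ := path_consts S T P (D := 4 * C) le_rfl
  set K0 : ℝ := |K| + KA + 60 with hK0
  have hK00 : 0 ≤ K0 := by
    have := abs_nonneg K
    linarith
  filter_upwards [hP K0 hK00, eventually_ge_atTop (12 : ℝ)] with x hx hx12
  intro π hπ n hn
  have hx0 : 0 < x := by linarith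
  have hx1 : 1 ≤ x := by linarith
  rcases Nat.eq_zero_or_pos n with hn0 | hn0
  · have he : Cfour x (v x) (B x) (x ^ 2) n = ∅ := by
      refine Set.eq_empty_of_forall_notMem ?_
      rintro q ⟨_, i, j, _, hj, _⟩
      omega
    rw [he, measure_empty]
    exact zero_le
  set N : ℕ := ⌈x ^ 20⌉₊ with hN
  have hx20 : (1 : ℝ) ≤ x ^ 20 := one_le_pow₀ hx1
  have hN1 : x ^ 20 ≤ (N : ℝ) := Nat.le_ceil _
  have hN2 : (N : ℝ) ≤ 2 * x ^ 20 := by
    have := (Nat.ceil_lt_add_one (by positivity : (0 : ℝ) ≤ x ^ 20)).le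
    linarith
  have hN0 : (0 : ℝ) < N := by linarith
  have hN0' : 0 < N := by exact_mod_cast hN0
  set γ : ℝ := K0 * Real.log x with hγ
  have hγ0 : 0 ≤ γ := hx.hγ
  have hexpγ : Real.exp γ = x ^ K0 := by rw [Real.rpow_def_of_pos hx0, hγ, mul_comm]
  set z : ℝ := Real.exp γ / (N * x ^ 3) with hz
  have hz1 : 1 ≤ z := by
    rw [hz, one_le_div (by positivity), hexpγ]
    have e1 : (N : ℝ) * x ^ 3 ≤ x ^ 24 := by
      calc (N : ℝ) * x ^ 3 ≤ 2 * x ^ 20 * x ^ 3 := by gcongr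
        _ = 2 * x ^ 23 := by ring
        _ ≤ x * x ^ 23 := by gcongr; linarith
        _ = x ^ 24 := by ring
    have e2 : x ^ 24 ≤ x ^ K0 := by
      have : x ^ 24 = x ^ (24 : ℝ) := by
        rw [← Real.rpow_natCast]; norm_num
      rw [this]
      refine Real.rpow_le_rpow_of_exponent_le hx1 ?_
      have := abs_nonneg K
      linarith
    linarith
  have hz0 : 0 < z := by linarith
  set ζ : ℝ≥0∞ := ENNReal.ofReal z with hζ
  have hζ1 : 1 ≤ ζ := by rw [hζ, ENNReal.one_le_ofReal]; exact hz1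
  -- weights, potentials and constants
  set U1 : ℝ × ℝ → ℝ≥0∞ := UU h β (4 * C) θ0 γ (2 * γ) (B x) with hU1
  have hU1m : Measurable U1 := measurable_UU H β (4 * C) θ0 γ (2 * γ) (B x)
  set W1 : ℝ × ℝ → ℝ × ℝ → ℝ≥0∞ := fun w p =>
    smZ (B x) (v x) (x ^ 2) w p + ζ * bgZ (B x) (x ^ 2) (v x) (x ^ 2) w p with hW1
  have hW1m : Measurable (fun q : (ℝ × ℝ) × (ℝ × ℝ) => W1 q.1 q.2) := by
    simp only [hW1]
    exact (measurable_smZ (B x) (v x) (x ^ 2)).add
      ((measurable_bgZ (B x) (x ^ 2) (v x) (x ^ 2)).const_mul ζ)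
  set a : ℕ → ℝ × ℝ → ℝ × ℝ → ℝ≥0∞ := fun i => if i = 0 then enW (x ^ 2) (v x) else W1 with ha
  set U : ℕ → ℝ × ℝ → ℝ≥0∞ := fun i => if i = 0 then EP h β (4 * C) θ0 else U1 with hU
  set k : ℕ → ℝ≥0∞ := fun i => if i = 0 then ENNReal.ofReal (x ^ 3 * Real.exp (-γ)) else
    1 + ENNReal.ofReal (1 / (N : ℝ)) with hk
  set L : ℝ≥0∞ := ζ * ζ * ENNReal.ofReal (min (Real.exp (RR h β θ0 x - γ))
    (Real.exp (2 * h x - 2 * γ))) with hL
  have hstep1 : ∀ w : ℝ × ℝ, 0 ≤ w.1 → w.1 ≤ w.2 →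
      ∫⁻ p, W1 w p * U1 (kwStep w p.1 p.2) ∂(μ.prod ν) ≤
        (1 + ENNReal.ofReal (1 / (N : ℝ))) * U1 w := by
    intro w h0 h1
    have s1 := hx.sm γ (2 * γ) (x ^ 2) w (by linarith) h0 h1
    have s2 := hx.bg (x ^ 2) w h0 h1
    have hm1 : Measurable fun p : ℝ × ℝ => smZ (B x) (v x) (x ^ 2) w p *
        U1 (kwStep w p.1 p.2) := by
      refine Measurable.mul ?_ ?_
      · exact (measurable_smZ (B x) (v x) (x ^ 2)).comp (measurable_const.prodMk measurable_id)
      · refine hU1m.comp ?_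
        unfold kwStep
        fun_prop
    have e1 : (fun p : ℝ × ℝ => W1 w p * U1 (kwStep w p.1 p.2)) = fun p =>
        smZ (B x) (v x) (x ^ 2) w p * U1 (kwStep w p.1 p.2) +
          ζ * (bgZ (B x) (x ^ 2) (v x) (x ^ 2) w p * U1 (kwStep w p.1 p.2)) := by
      funext p
      simp only [hW1]
      rw [add_mul, mul_assoc]
    rw [e1, lintegral_add_left hm1, lintegral_const_mul' _ _ (by
      rw [hζ]; exact ENNReal.ofReal_ne_top), add_mul, one_mul]
    refine add_le_add s1 ?_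
    calc ζ * ∫⁻ p, bgZ (B x) (x ^ 2) (v x) (x ^ 2) w p * U1 (kwStep w p.1 p.2) ∂(μ.prod ν)
        ≤ ζ * (ENNReal.ofReal (x ^ 3 * Real.exp (-γ)) * U1 w) := mul_le_mul' le_rfl s2
      _ = ENNReal.ofReal (1 / (N : ℝ)) * U1 w := by
        rw [← mul_assoc, hζ, ← ENNReal.ofReal_mul hz0.le]
        congr 2
        rw [hz, Real.exp_neg]
        have := (Real.exp_pos γ).ne'
        field_simp
  have hmain := path_event hπ (measurableSet_Cfour x (v x) (B x) (x ^ 2) n)
    (v := v x) (by rintro q ⟨hq, -⟩; exact hq.2.1) n (a := a) (U := U) (k := k) (L := L)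
    (by
      intro i
      by_cases hi : i = 0
      · simp only [ha, if_pos hi]
        exact measurable_enW (x ^ 2) (v x)
      · simp only [ha, if_neg hi]
        exact hW1m)
    (by
      intro i
      by_cases hi : i = 0
      · simp only [hU, if_pos hi]
        exact measurable_EP H β (4 * C) θ0
      · simp only [hU, if_neg hi]
        exact hU1m)
    (by
      simp only [hk, if_pos]
      rw [Ne, ENNReal.ofReal_eq_zero, not_le]
      positivity)
    (by
      intro i _ w h0 h1 hi0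
      by_cases hi : i = 0
      · have s0 := hx.ent γ (2 * γ) w h0 h1 (hi0 hi)
        rw [min_eq_left (by linarith : γ ≤ 2 * γ)] at s0
        have hi1 : ¬ (i + 1 = 0) := by omega
        simp only [ha, hU, hk, if_pos hi, if_neg hi1]
        exact s0
      · have hi1 : ¬ (i + 1 = 0) := by omega
        simp only [ha, hU, hk, if_neg hi, if_neg hi1]
        exact hstep1 w h0 h1)
    (by
      rintro q ⟨hq, i, j, hij, hj, hi1, hj1⟩
      obtain ⟨hok, hqv, hall, hend⟩ := hq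
      have hn' : ¬ (n = 0) := by omega
      have hord := pIter_ordered hok.1 hok.2.1 q.2 n
      refine mul_le_mul' ?_ ?_
      · refine killFour_prod (i := i + 1) (j := j + 1) (by omega) (by omega) ?_ ?_ ?_
        · intro m hm
          by_cases hm0 : m = 0
          · simp only [ha, if_pos hm0]
            obtain ⟨b1, b2, b3⟩ := hall m hm
            unfold enW
            rw [if_pos]
            exact ⟨b3, b1⟩
          · simp only [ha, if_neg hm0, hW1]
            obtain ⟨m', rfl⟩ : ∃ m', m = m' + 1 := ⟨m - 1, by omega⟩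
            obtain ⟨b1, b2, b3⟩ := hall m' (by omega)
            obtain ⟨c1, c2, c3⟩ := hall (m' + 1) hm
            by_cases hB : (q.2 (m' + 1)).1 ≤ B x
            · refine le_trans ?_ le_self_add
              unfold smZ
              rw [if_pos ⟨b1, b2, hB⟩]
            · refine le_trans ?_ le_add_self
              unfold bgZ
              rw [if_pos ⟨b1, b2, not_le.1 hB, c3⟩, mul_one]
              exact hζ1
        · have hi0 : ¬ (i + 1 = 0) := by omega
          simp only [ha, if_neg hi0, hW1]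
          obtain ⟨b1, b2, b3⟩ := hall i (by omega)
          obtain ⟨c1, c2, c3⟩ := hall (i + 1) (by omega)
          refine le_trans ?_ le_add_self
          unfold bgZ
          rw [if_pos ⟨b1, b2, hi1, c3⟩, mul_one]
        · have hi0 : ¬ (j + 1 = 0) := by omega
          simp only [ha, if_neg hi0, hW1]
          obtain ⟨b1, b2, b3⟩ := hall j (by omega)
          obtain ⟨c1, c2, c3⟩ := hall (j + 1) (by omega)
          refine le_trans ?_ le_add_self
          unfold bgZ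
          rw [if_pos ⟨b1, b2, hj1, c3⟩, mul_one]
      · simp only [hU, if_neg hn', hU1]
        exact UU_ge_final H P (by linarith) hx0.le hend.le hord.2)
  -- the product of the constants
  have hprod : ∏ i ∈ Finset.range n, k i ≤ ENNReal.ofReal (3 * (x ^ 3 * Real.exp (-γ))) := by
    obtain ⟨m, rfl⟩ : ∃ m, n = m + 1 := ⟨n - 1, by omega⟩
    rw [Finset.prod_range_succ', ENNReal.ofReal_mul (by norm_num)]
    refine mul_le_mul' ?_ ?_
    · have e1 : ∀ i ∈ Finset.range m, k (i + 1) = 1 + ENNReal.ofReal (1 / (N : ℝ)) := by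
        intro i _
        have hi0 : ¬ (i + 1 = 0) := by omega
        simp only [hk, if_neg hi0]
      rw [Finset.prod_congr rfl e1, Finset.prod_const, Finset.card_range]
      exact killFour_pow hN0' (by omega)
    · simp only [hk, if_pos]
      exact le_rfl
  have hint : ∫⁻ w, ({w : ℝ × ℝ | w.2 ≤ v x}).indicator (U 0) w ∂π ≤ ENNReal.ofReal (x ^ KA) := by
    have e1 : U 0 = EP h β (4 * C) θ0 := by simp only [hU, if_pos]
    rw [e1]
    exact hx.mom π hπ
  have hxKA : 0 < x ^ KA := Real.rpow_pos_of_pos hx0 _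
  have h4 : L * (π.prod (noise μ ν)) (Cfour x (v x) (B x) (x ^ 2) n) ≤
      ENNReal.ofReal (3 * (x ^ 3 * Real.exp (-γ)) * x ^ KA) := by
    rw [ENNReal.ofReal_mul (by positivity)]
    exact hmain.trans (mul_le_mul' hprod hint)
  have hmin0 : 0 < min (Real.exp (RR h β θ0 x - γ)) (Real.exp (2 * h x - 2 * γ)) :=
    lt_min (Real.exp_pos _) (Real.exp_pos _)
  have hLr : L = ENNReal.ofReal (z * z * min (Real.exp (RR h β θ0 x - γ))
      (Real.exp (2 * h x - 2 * γ))) := by
    rw [hL, hζ, ← ENNReal.ofReal_mul hz0.le, ← ENNReal.ofReal_mul (by positivity)]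
  have hL0 : L ≠ 0 := by
    rw [hLr, Ne, ENNReal.ofReal_eq_zero, not_le]
    positivity
  have hLt : L ≠ ∞ := by
    rw [hLr]
    exact ENNReal.ofReal_ne_top
  have h5 := killFour_real (R := RR h β θ0 x) (E := 2 * h x) hx12 hK0.symm.le hexpγ hγ0 hN0 hN2 hz
  have h6 : L * (π.prod (noise μ ν)) (Cfour x (v x) (B x) (x ^ 2) n) ≤
      L * ENNReal.ofReal (x ^ (-K) *
        (Real.exp (-(RR h β θ0 x)) + Real.exp (-(2 * h x)))) := by
    refine h4.trans ?_
    rw [hLr, ← ENNReal.ofReal_mul (by positivity)]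
    refine ENNReal.ofReal_le_ofReal (h5.trans (le_of_eq ?_))
    ring
  exact (ENNReal.mul_le_mul_iff_right hL0 hLt).1 h6

end Pool.Agent.Lib.MP_04add8_pr.Cv
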