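import Mathlib
import Pool.Agent.Lib.MP_04add8_pr.Cv.PathDefs

open MeasureTheory ProbabilityTheory Filter Topology
open scoped ENNReal

set_option linter.unusedSectionVars false

namespace Pool.Agent.Lib.MP_04add8_pr.Cv

open Pool.Agent.Lib.MP_04add8_pr.Gen

variable {h h' : ℝ → ℝ} {μ ν : Measure ℝ} [IsProbabilityMeasure μ]
  [IsProbabilityMeasure ν]

private lemma lastLow_cov {x v Y : ℝ} (hvx : v ≤ x) (N : ℕ)
    {q : (ℝ × ℝ) × (ℕ → ℝ × ℝ)} (h0 : 0 ≤ q.1.1) (h1 : q.1.1 ≤ q.1.2)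
    (h2 : ∀ k, 0 ≤ (q.2 k).1 ∧ 0 ≤ (q.2 k).2) (hx : x < (pIter q.1 q.2 N).1)
    (hY : ∀ k ≤ N, (pIter q.1 q.2 k).2 ≤ Y) (hJ : ∀ k < N, (q.2 k).1 ≤ Y) :
    q ∈ NoLow v Y N ∨ ∃ n, 1 ≤ n ∧ n ≤ N ∧ pathShift (N - n) q ∈ Gn x v Y n := by
  classical
  by_cases hl : ∃ k ≤ N, (pIter q.1 q.2 k).2 ≤ v
  · right
    obtain ⟨k0, hk0, hk0'⟩ := hl
    set l := Nat.findGreatest (fun k => (pIter q.1 q.2 k).2 ≤ v) N with hldef
    have hPl : (pIter q.1 q.2 l).2 ≤ v :=
      Nat.findGreatest_spec (P := fun k => (pIter q.1 q.2 k).2 ≤ v) hk0 hk0'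
    have hlN : l ≤ N := Nat.findGreatest_le N
    have hgr : ∀ k, l < k → k ≤ N → v < (pIter q.1 q.2 k).2 := by
      intro k hk hkN
      exact not_le.1 (Nat.findGreatest_is_greatest (P := fun k => (pIter q.1 q.2 k).2 ≤ v)
        hk hkN)
    have hlt : l < N := by
      rcases hlN.eq_or_lt with he | he
      · exfalso
        have h3 := (pIter_ordered h0 h1 q.2 N).2
        rw [he] at hPl
        linarith
      · exact he
    have hor := pIter_ordered h0 h1 q.2 l
    refine ⟨N - l, by omega, by omega, ?_⟩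
    have e : N - (N - l) = l := by omega
    rw [e]
    refine ⟨⟨hor.1, hor.2, fun i => h2 (l + i)⟩, hPl, ?_, ?_⟩
    · intro k hk
      have e1 : pIter (pathShift l q).1 (pathShift l q).2 (k + 1) =
          pIter q.1 q.2 (l + (k + 1)) := (pIter_add q.1 q.2 l (k + 1)).symm
      rw [e1]
      exact ⟨hgr _ (by omega) (by omega), hY _ (by omega), hJ (l + k) (by omega)⟩
    · have e1 : pIter (pathShift l q).1 (pathShift l q).2 (N - l) =
          pIter q.1 q.2 (l + (N - l)) := (pIter_add q.1 q.2 l (N - l)).symm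
      rw [e1]
      have e2 : l + (N - l) = N := by omega
      rw [e2]
      exact hx
  · left
    have hl' : ∀ k ≤ N, v < (pIter q.1 q.2 k).2 := by
      intro k hk
      by_contra hc
      exact hl ⟨k, hk, not_lt.1 hc⟩
    refine ⟨⟨h0, h1, h2⟩, hl' 0 (Nat.zero_le _), hY 0 (Nat.zero_le _), ?_⟩
    intro k hk
    exact ⟨hl' (k + 1) (by omega), hY (k + 1) (by omega), hJ k hk⟩

private lemma lastLow_eval (y : ℝ) (i : ℕ) :
    (noise μ ν) {z : ℕ → ℝ × ℝ | y < (z i).1} = μ (Set.Ioi y) := by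
  have hm : MeasurableSet {p : ℝ × ℝ | y < p.1} := measurableSet_lt measurable_const measurable_fst
  have h1 := (measurePreserving_eval_infinitePi (fun _ : ℕ => μ.prod ν) i).measure_preimage
    (s := {p : ℝ × ℝ | y < p.1}) hm.nullMeasurableSet
  have h2 : (μ.prod ν) {p : ℝ × ℝ | y < p.1} = μ (Set.Ioi y) := by
    have : {p : ℝ × ℝ | y < p.1} = Set.Ioi y ×ˢ (Set.univ : Set ℝ) := by ext p; simp
    rw [this, Measure.prod_prod, measure_univ, mul_one]
  exact h1.trans h2

/-- **Last low time.** By stationarity (`path_marginal`) `π {x < w₁} = P {x < (pIter q.1 q.2 N).1}`, `P = π.prod noise`; almost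
every `q` is in `Okq` (`law_path`). On this event: if `Y < (pIter q.1 q.2 k).2` for some `k ≤ N` or `Y < (q.2 k).1` for some
`k < N`: first two terms (union bound, `path_marginal`; the law of `(q.2 k).1` is `μ`). Otherwise let `l` be the last `k ≤ N`
with `(pIter q.1 q.2 k).2 ≤ v`; if there is none, `q ∈ NoLow v Y N`. `l < N` because `(pIter .. N).2 ≥ (pIter .. N).1 > x ≥ v`.
Then `pathShift l q ∈ Gn x v Y (N - l)` (`pIter_add`), and `P (pathShift l ⁻¹' G) = P G`
(`IsStationaryKW.measurePreserving_path`); sum over `l`, `n = N - l ∈ [1, N]`. -/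
theorem last_low (S : StdC μ ν h h') {π : Measure (ℝ × ℝ)} (hπ : IsStationaryKW μ ν π)
    {x v Y : ℝ} (hvx : v ≤ x) (N : ℕ) :
    π {w | x < w.1} ≤ (N + 1 : ℕ) * π {w | Y < w.2} + N * μ (Set.Ioi Y) +
      (π.prod (noise μ ν)) (NoLow v Y N) +
      ∑ n ∈ Finset.Icc 1 N, (π.prod (noise μ ν)) (Gn x v Y n) := by
  have hp : IsProbabilityMeasure π := hπ.1
  set SY : Set ((ℝ × ℝ) × (ℕ → ℝ × ℝ)) :=
    ⋃ k ∈ Finset.range (N + 1), {q | Y < (pIter q.1 q.2 k).2} with hSY
  set SJ : Set ((ℝ × ℝ) × (ℕ → ℝ × ℝ)) :=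
    ⋃ k ∈ Finset.range N, {q | Y < (q.2 k).1} with hSJ
  set SM : Set ((ℝ × ℝ) × (ℕ → ℝ × ℝ)) :=
    ⋃ n ∈ Finset.Icc 1 N, pathShift (N - n) ⁻¹' Gn x v Y n with hSM
  have e0 : π {w | x < w.1} = (π.prod (noise μ ν)) {q | x < (pIter q.1 q.2 N).1} := by
    have := path_marginal hπ N (S := {w : ℝ × ℝ | x < w.1})
      (measurableSet_lt measurable_const measurable_fst)
    exact this.symm
  have hY : (π.prod (noise μ ν)) SY ≤ (N + 1 : ℕ) * π {w | Y < w.2} := by
    refine (measure_biUnion_finset_le _ _).trans ?_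
    have : ∀ k ∈ Finset.range (N + 1),
        (π.prod (noise μ ν)) {q | Y < (pIter q.1 q.2 k).2} = π {w | Y < w.2} := by
      intro k _
      exact path_marginal hπ k (S := {w : ℝ × ℝ | Y < w.2})
        (measurableSet_lt measurable_const measurable_snd)
    rw [Finset.sum_congr rfl this, Finset.sum_const, Finset.card_range, nsmul_eq_mul]
  have hJ : (π.prod (noise μ ν)) SJ ≤ N * μ (Set.Ioi Y) := by
    refine (measure_biUnion_finset_le _ _).trans ?_
    have : ∀ k ∈ Finset.range N,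
        (π.prod (noise μ ν)) {q | Y < (q.2 k).1} = μ (Set.Ioi Y) := by
      intro k _
      have e1 : {q : (ℝ × ℝ) × (ℕ → ℝ × ℝ) | Y < (q.2 k).1} =
          (Set.univ : Set (ℝ × ℝ)) ×ˢ {z : ℕ → ℝ × ℝ | Y < (z k).1} := by
        ext q; simp
      rw [e1, Measure.prod_prod, measure_univ, one_mul]
      exact lastLow_eval Y k
    rw [Finset.sum_congr rfl this, Finset.sum_const, Finset.card_range, nsmul_eq_mul]
  have hM : (π.prod (noise μ ν)) SM ≤
      ∑ n ∈ Finset.Icc 1 N, (π.prod (noise μ ν)) (Gn x v Y n) := by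
    refine (measure_biUnion_finset_le _ _).trans ?_
    apply Finset.sum_le_sum
    intro n _
    rw [(hπ.measurePreserving_path _).measure_preimage
      (measurableSet_Gn _ _ _ _).nullMeasurableSet]
  rw [e0]
  calc (π.prod (noise μ ν)) {q | x < (pIter q.1 q.2 N).1}
      ≤ (π.prod (noise μ ν)) (SY ∪ SJ ∪ NoLow v Y N ∪ SM) := by
        apply measure_mono_ae
        filter_upwards [law_path S.law S.hν hπ] with q hq hqx
        by_cases c1 : ∃ k ≤ N, Y < (pIter q.1 q.2 k).2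
        · obtain ⟨k, hk, hk'⟩ := c1
          refine Or.inl (Or.inl (Or.inl ?_))
          rw [hSY, Set.mem_iUnion₂]
          exact ⟨k, Finset.mem_range.2 (Nat.lt_succ_of_le hk), hk'⟩
        by_cases c2 : ∃ k < N, Y < (q.2 k).1
        · obtain ⟨k, hk, hk'⟩ := c2
          refine Or.inl (Or.inl (Or.inr ?_))
          rw [hSJ, Set.mem_iUnion₂]
          exact ⟨k, Finset.mem_range.2 hk, hk'⟩
        have c1' : ∀ k ≤ N, (pIter q.1 q.2 k).2 ≤ Y := by
          intro k hk
          by_contra hc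
          exact c1 ⟨k, hk, not_le.1 hc⟩
        have c2' : ∀ k < N, (q.2 k).1 ≤ Y := by
          intro k hk
          by_contra hc
          exact c2 ⟨k, hk, not_le.1 hc⟩
        rcases lastLow_cov hvx N hq.1.1 hq.1.2 hq.2 hqx c1' c2' with hc | ⟨n, hn1, hnN, hc⟩
        · exact Or.inl (Or.inr hc)
        · refine Or.inr ?_
          rw [hSM, Set.mem_iUnion₂]
          exact ⟨n, Finset.mem_Icc.2 ⟨hn1, hnN⟩, hc⟩
    _ ≤ (π.prod (noise μ ν)) SY + (π.prod (noise μ ν)) SJ +
          (π.prod (noise μ ν)) (NoLow v Y N) + (π.prod (noise μ ν)) SM := by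
        refine (measure_union_le _ _).trans ?_
        gcongr
        refine (measure_union_le _ _).trans ?_
        gcongr
        exact measure_union_le _ _
    _ ≤ _ := by
        gcongr

end Pool.Agent.Lib.MP_04add8_pr.Cv
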