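import Mathlib
import Pool.Agent.Lib.MP_04add8_pr.Cv.PathEv
import Pool.Agent.Lib.MP_04add8_pr.Cv.StepC
import Pool.Agent.Lib.MP_04add8_pr.Cv.PotLin
import Pool.Agent.Lib.MP_04add8_pr.Cv.PotE
import Pool.Agent.Lib.MP_04add8_pr.Cv.RRf
import Pool.Agent.Lib.MP_04add8_pr.Cv.ThrF
import Pool.Agent.Lib.MP_04add8_pr.Cv.HLog

open MeasureTheory ProbabilityTheory Filter Topology
open scoped ENNReal

set_option linter.unusedSectionVars false

namespace Pool.Agent.Lib.MP_04add8_pr.Cv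

open Pool.Agent.Lib.MP_04add8_pr.Gen

variable {h h' : ℝ → ℝ} {μ ν : Measure ℝ} [IsProbabilityMeasure μ]
  [IsProbabilityMeasure ν]

variable {B v : ℝ → ℝ}

/-- the weights of the steps of `NoLow` -/
private noncomputable def NoLowB_a (v Y : ℝ) (_ : ℕ) (w p : ℝ × ℝ) : ℝ≥0∞ :=
  {q : (ℝ × ℝ) × (ℝ × ℝ) | v < q.1.2 ∧ q.1.2 ≤ Y ∧ q.2.1 ≤ Y}.indicator (fun _ => 1) (w, p)

private lemma NoLowB_meas (v Y : ℝ) (i : ℕ) :
    Measurable (fun q : (ℝ × ℝ) × (ℝ × ℝ) => NoLowB_a v Y i q.1 q.2) := by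
  have m1 : Measurable (fun q : (ℝ × ℝ) × (ℝ × ℝ) => q.1.2) := by fun_prop
  have m2 : Measurable (fun q : (ℝ × ℝ) × (ℝ × ℝ) => q.2.1) := by fun_prop
  have hm : MeasurableSet {q : (ℝ × ℝ) × (ℝ × ℝ) | v < q.1.2 ∧ q.1.2 ≤ Y ∧ q.2.1 ≤ Y} :=
    (measurableSet_lt measurable_const m1).inter
      ((measurableSet_le m1 measurable_const).inter (measurableSet_le m2 measurable_const))
  exact measurable_const.indicator hm

private lemma NoLowB_core (S : StdC μ ν h h') {π : Measure (ℝ × ℝ)} (hπ : IsStationaryKW μ ν π)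
    {β : ℝ → ℝ} {D θ0 c C e : ℝ} (P : Pot μ ν h β θ0 c C e) (hD : 0 ≤ D) {γ b u Y k : ℝ}
    (hγ : 0 ≤ γ) (hbY : b ≤ Y) (hk : 0 < k) {N : ℕ}
    (hstep : ∀ w : ℝ × ℝ, 0 ≤ w.1 → w.1 ≤ w.2 → u < w.2 → w.2 ≤ Y →
      ∫⁻ p, (Set.Iic Y).indicator (fun _ => (1 : ℝ≥0∞)) p.1 *
        UU h β D θ0 γ (2 * γ) b (kwStep w p.1 p.2) ∂(μ.prod ν) ≤
        ENNReal.ofReal k * UU h β D θ0 γ (2 * γ) b w) :
    ENNReal.ofReal (Real.exp (-(2 * γ))) * (π.prod (noise μ ν)) (NoLow u Y N) ≤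
      ENNReal.ofReal (k ^ N * Real.exp (2 * h Y)) := by
  have H := S.haz
  have hp : IsProbabilityMeasure π := hπ.1
  have key := path_event (μ := μ) (ν := ν) hπ (measurableSet_NoLow u Y N) (v := Y)
    (fun q hq => hq.2.2.1) N (a := NoLowB_a u Y) (U := fun _ => UU h β D θ0 γ (2 * γ) b)
    (k := fun _ => ENNReal.ofReal k) (L := ENNReal.ofReal (Real.exp (-(2 * γ))))
    (NoLowB_meas u Y) (fun _ => measurable_UU H β D θ0 γ (2 * γ) b)
    (by simpa using hk)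
    (by
      intro i _ w h0 h1 _
      by_cases hw : u < w.2 ∧ w.2 ≤ Y
      · refine le_trans (lintegral_mono fun p => ?_) (hstep w h0 h1 hw.1 hw.2)
        refine mul_le_mul_left ?_ _
        by_cases hp1 : p.1 ≤ Y
        · rw [Set.indicator_of_mem (show p.1 ∈ Set.Iic Y from hp1)]
          unfold NoLowB_a
          exact Set.indicator_le_self _ _ _
        · unfold NoLowB_a
          rw [Set.indicator_of_notMem (fun hq => hp1 hq.2.2)]
          exact zero_le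
      · have : ∀ p : ℝ × ℝ, NoLowB_a u Y i w p *
            UU h β D θ0 γ (2 * γ) b (kwStep w p.1 p.2) = 0 := by
          intro p
          unfold NoLowB_a
          rw [Set.indicator_of_notMem (fun hq => hw ⟨hq.1, hq.2.1⟩), zero_mul]
        simp only [this, lintegral_zero]
        exact zero_le)
    (by
      intro q hq
      obtain ⟨hok, hv, hY, hk'⟩ := hq
      have hprod : ∏ i ∈ Finset.range N, NoLowB_a u Y i (pIter q.1 q.2 i) (q.2 i) = 1 := by
        refine Finset.prod_eq_one fun i hi => ?_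
        rw [Finset.mem_range] at hi
        unfold NoLowB_a
        refine Set.indicator_of_mem ?_ _
        refine ⟨?_, ?_, (hk' i hi).2.2⟩
        · rcases Nat.eq_zero_or_pos i with h0 | h0
          · subst h0
            exact hv
          · obtain ⟨j, rfl⟩ := Nat.exists_eq_succ_of_ne_zero h0.ne'
            exact (hk' j (by omega)).1
        · rcases Nat.eq_zero_or_pos i with h0 | h0
          · subst h0
            exact hY
          · obtain ⟨j, rfl⟩ := Nat.exists_eq_succ_of_ne_zero h0.ne'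
            exact (hk' j (by omega)).2.1
      rw [hprod, one_mul]
      have ho := pIter_ordered hok.1 hok.2.1 q.2 N
      refine le_trans ?_ (UU_ge H P hD (by linarith) ho.1 ho.2)
      refine ENNReal.ofReal_le_ofReal (Real.exp_le_exp.2 ?_)
      have := H.nonneg (pIter q.1 q.2 N).2
      linarith)
  refine key.trans ?_
  rw [Finset.prod_const, Finset.card_range, ENNReal.ofReal_mul (pow_nonneg hk.le _),
    ENNReal.ofReal_pow hk.le]
  refine mul_le_mul_right ?_ _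
  have hb : ∫⁻ w, ({w : ℝ × ℝ | w.2 ≤ Y}).indicator (UU h β D θ0 γ (2 * γ) b) w ∂π ≤
      ∫⁻ _, ENNReal.ofReal (Real.exp (2 * h Y)) ∂π := by
    apply lintegral_mono_ae
    filter_upwards [hπ.ae_ordered] with w hw
    by_cases hwY : w.2 ≤ Y
    · rw [Set.indicator_of_mem (s := {w : ℝ × ℝ | w.2 ≤ Y}) hwY]
      unfold UU WW
      refine (min_le_right _ _).trans ?_
      rw [← ENNReal.ofReal_mul (Real.exp_pos _).le, ← Real.exp_add]
      refine ENNReal.ofReal_le_ofReal (Real.exp_le_exp.2 ?_)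
      have h1 : h (max w.1 b) ≤ h Y := H.mono (max_le (hw.2.trans hwY) hbY)
      have h2 : h w.2 ≤ h Y := H.mono hwY
      linarith
    · rw [Set.indicator_of_notMem (s := {w : ℝ × ℝ | w.2 ≤ Y}) hwY]
      exact zero_le
  refine hb.trans ?_
  rw [lintegral_const, measure_univ, mul_one]

/-- the final numerical estimate -/
private lemma NoLowB_num (H : HazC h h') (K a : ℝ) :
    ∀ᶠ x : ℝ in atTop, Real.exp (24 * Real.log x) *
      ((1 - x⁻¹ ^ 6) ^ ⌈x ^ 20⌉₊ * Real.exp (2 * h (x ^ 2))) ≤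
      x ^ (-K) * Real.exp (-(h (a * x))) := by
  obtain ⟨C, hC1, hC⟩ := h_lin H
  set M : ℝ := 24 + |K| + C * (1 + |a|) + 4 * C with hM
  filter_upwards [eventually_ge_atTop 1, eventually_ge_atTop M] with x hx1 hxM
  have hx0 : 0 < x := by linarith
  have hlog0 : 0 ≤ Real.log x := Real.log_nonneg hx1
  have hlogx : Real.log x ≤ x := by
    have := Real.log_le_sub_one_of_pos hx0
    linarith
  have hinv : x⁻¹ ≤ 1 := inv_le_one_of_one_le₀ hx1
  have hinv0 : 0 < x⁻¹ := inv_pos.2 hx0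
  have hk1 : x⁻¹ ^ 6 ≤ 1 := pow_le_one₀ hinv0.le hinv
  have hpow : (1 - x⁻¹ ^ 6) ^ ⌈x ^ 20⌉₊ ≤ Real.exp (-(x ^ 14)) := by
    have h1 : (1 - x⁻¹ ^ 6) ≤ Real.exp (-(x⁻¹ ^ 6)) := by
      have := Real.add_one_le_exp (-(x⁻¹ ^ 6))
      linarith
    calc (1 - x⁻¹ ^ 6) ^ ⌈x ^ 20⌉₊ ≤ (Real.exp (-(x⁻¹ ^ 6))) ^ ⌈x ^ 20⌉₊ :=
          pow_le_pow_left₀ (by linarith) h1 _
      _ = Real.exp (-(x⁻¹ ^ 6) * (⌈x ^ 20⌉₊ : ℝ)) := by
          rw [← Real.exp_nat_mul]
          ring_nf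
      _ ≤ Real.exp (-(x ^ 14)) := by
          refine Real.exp_le_exp.2 ?_
          have h2 : x ^ 20 ≤ (⌈x ^ 20⌉₊ : ℝ) := Nat.le_ceil _
          have h3 : x⁻¹ ^ 6 * x ^ 20 = x ^ 14 := by
            field_simp
          have h4 : x⁻¹ ^ 6 * x ^ 20 ≤ x⁻¹ ^ 6 * (⌈x ^ 20⌉₊ : ℝ) :=
            mul_le_mul_of_nonneg_left h2 (by positivity)
          linarith
  have hrp : x ^ (-K) = Real.exp (-K * Real.log x) := by
    rw [Real.rpow_def_of_pos hx0]
    ring_nf
  rw [hrp, ← Real.exp_add]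
  calc Real.exp (24 * Real.log x) * ((1 - x⁻¹ ^ 6) ^ ⌈x ^ 20⌉₊ * Real.exp (2 * h (x ^ 2)))
      ≤ Real.exp (24 * Real.log x) * (Real.exp (-(x ^ 14)) * Real.exp (2 * h (x ^ 2))) := by
        gcongr
    _ = Real.exp (24 * Real.log x + (-(x ^ 14) + 2 * h (x ^ 2))) := by
        rw [Real.exp_add, Real.exp_add]
    _ ≤ _ := by
        refine Real.exp_le_exp.2 ?_
        have h1 : h (x ^ 2) ≤ C * (1 + x ^ 2) := hC _ (by positivity)
        have h2 : h (a * x) ≤ C * (1 + |a| * x) := by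
          refine le_trans (H.mono ?_) (hC (|a| * x) (by positivity))
          exact mul_le_mul_of_nonneg_right (le_abs_self a) hx0.le
        have h3 : K * Real.log x ≤ |K| * x := by
          calc K * Real.log x ≤ |K| * Real.log x :=
                mul_le_mul_of_nonneg_right (le_abs_self K) hlog0
            _ ≤ |K| * x := mul_le_mul_of_nonneg_left hlogx (abs_nonneg K)
        have hxx : x ≤ x ^ 2 := by nlinarith
        have h5 : M * x ^ 2 ≤ x ^ 14 := by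
          have h6 : x ≤ x ^ 12 := by
            calc x = x ^ 1 := (pow_one x).symm
              _ ≤ x ^ 12 := pow_le_pow_right₀ hx1 (by norm_num)
          calc M * x ^ 2 ≤ x ^ 12 * x ^ 2 :=
                mul_le_mul_of_nonneg_right (hxM.trans h6) (by positivity)
            _ = x ^ 14 := by ring
        have hx2 : 1 ≤ x ^ 2 := by nlinarith
        have e1 : 24 * x ≤ 24 * x ^ 2 := by linarith
        have e2 : |K| * x ≤ |K| * x ^ 2 := mul_le_mul_of_nonneg_left hxx (abs_nonneg K)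
        have e3 : C * (1 + |a| * x) ≤ C * (1 + |a|) * x ^ 2 := by
          have : (1 + |a| * x) ≤ (1 + |a|) * x ^ 2 := by
            have := mul_le_mul_of_nonneg_left hxx (abs_nonneg a)
            nlinarith
          calc C * (1 + |a| * x) ≤ C * ((1 + |a|) * x ^ 2) :=
                mul_le_mul_of_nonneg_left this (by linarith)
            _ = _ := by ring
        have e4 : C * (1 + x ^ 2) ≤ 2 * C * x ^ 2 := by
          have : C * 1 ≤ C * x ^ 2 := mul_le_mul_of_nonneg_left hx2 (by linarith)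
          linarith
        have h7 : M * x ^ 2 = 24 * x ^ 2 + |K| * x ^ 2 + C * (1 + |a|) * x ^ 2 + 4 * C * x ^ 2 := by
          rw [hM]
          ring
        nlinarith

/-- **No visit to the low level.** `P` from `exists_pot`, `ε = x⁻³`, `pot_slack`: potentials `βε` with `e = κe x⁻³` (and `c/2`),
`D = 4 C`, `γ = 12 log x`, `Y = x²`, `U = UU h βε D θ0 γ (2γ) (B x)`, `v = v x`. Weights `a_i w p = 1{v < w₂ ≤ Y, p.1 ≤ Y}` (all `i < N`),
`U_i = U`. `step_small`(a): `∫_{s≤B} U w' ≤ (1 - min e (cW gg B)/w₂) U w ≤ (1 - κe x⁻⁵) U w`; `step_big`: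
`∫_{B<s≤Y} U w' ≤ CM (1+x²) x⁻¹² U w`. So `k_i = 1 - x⁻⁶` for large `x`. On `NoLow` all the weights are `1`, and
`U (w N) ≥ e^{h w₂ - 2γ} ≥ x⁻²⁴` (`UU_ge`). `path_bound` gives `P_w (NoLow) ≤ x²⁴ (1 - x⁻⁶)^N U (w 0)` and
`U w ≤ VV w ≤ (1+D) e^{h (w₂ + C w₁)} ≤ (1+D) e^{h ((1+C) x²)}` (`VV_le_h`, `v < w₂ ≤ x²`), `h ((1+C) x²) ≤ C' (1 + x²)`
(`h_lin`), `(1 - x⁻⁶)^N ≤ e^{-x¹⁴}` (`N ≥ x²⁰`). (Here the start satisfies `v < w₂ ≤ Y`, so `path_event` is used with
`v := Y`; `U 0 := 1{v < w₂ ≤ Y} U + ...`, or apply `path_bound` and integrate directly.) -/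
theorem no_low (S : StdC μ ν h h') (T : Thr h h' B v) (K a : ℝ) :
    ∀ᶠ x : ℝ in atTop, ∀ π : Measure (ℝ × ℝ), IsStationaryKW μ ν π →
      (π.prod (noise μ ν)) (NoLow (v x) (x ^ 2) ⌈x ^ 20⌉₊) ≤
        ENNReal.ofReal (x ^ (-K) * Real.exp (-(h (a * x)))) := by
  have H := S.haz
  obtain ⟨β, θ0, c, C, P⟩ := exists_pot (μ := μ) (ν := ν) S
  obtain ⟨ε1, κe, hε1, _, hκ, hPot⟩ := pot_slack S P
  have hC : 1 + c / 2 ≤ C := by
    have h1 := P.pC
    have h2 := P.pc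
    linarith
  have hC0 : 0 ≤ C := by
    have h2 := P.pc
    linarith
  obtain ⟨v1, cW, G0, hv1, hcW, hG0, hsmall⟩ := step_small (μ := μ) (ν := ν) S (θ0 := θ0)
    (c := c / 2) (C := C) (D := 4 * C) P.pθ (by have := P.pc; linarith) hC le_rfl
  obtain ⟨CM, hCM, hbig⟩ := step_big (μ := μ) (ν := ν) S
  filter_upwards [NoLowB_num H K a, eventually_ge_atTop 3, eventually_ge_atTop (ε1⁻¹),
    eventually_ge_atTop ((2 * CM + 1) / κe), eventually_ge_atTop (2 * CM + 1), T.lev H (C := C) (v1 := v1) (G0 := G0) hC0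
      (by norm_num : (0 : ℝ) ≤ 12), T.g (κe / cW), T.le, T.sq, T.pos] with
    x hnum hx3 hxε hxκ hxC hlev hg hBv hvs hB0 π hπ
  have hx0 : 0 < x := by linarith
  have hx1 : 1 ≤ x := by linarith
  have hlog1 : 1 ≤ Real.log x := by
    rw [Real.le_log_iff_exp_le hx0]
    have := Real.exp_one_lt_d9
    linarith
  have hinv : x⁻¹ ≤ 1 := inv_le_one_of_one_le₀ hx1
  have hinv0 : 0 < x⁻¹ := inv_pos.2 hx0
  set γ : ℝ := 12 * Real.log x with hγ
  have hγ0 : 0 ≤ γ := by positivity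
  have hεle : x⁻¹ ^ 3 ≤ ε1 := by
    have h1 : x⁻¹ ^ 3 ≤ x⁻¹ := by
      calc x⁻¹ ^ 3 ≤ x⁻¹ ^ 1 := pow_le_pow_of_le_one hinv0.le hinv (by norm_num)
        _ = x⁻¹ := pow_one _
    refine h1.trans ?_
    exact inv_le_of_inv_le₀ hε1 hxε
  have P' := hPot (x⁻¹ ^ 3) (by positivity) hεle
  have hsqx : √x ≤ x := by
    rw [Real.sqrt_le_left hx0.le]
    nlinarith
  have hxx : x ≤ x ^ 2 := by nlinarith
  have hvx : v x ≤ x ^ 2 := (hvs.trans hsqx).trans hxx
  have hgg : γ ≤ gg h h' (B x) := by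
    have := hlev.lg
    linarith
  have hggpos : 0 ≤ gg h h' (B x) := hγ0.trans hgg
  have hκg : κe * x⁻¹ ^ 3 ≤ cW * gg h h' (B x) := by
    have h1 : x⁻¹ ^ 3 ≤ 1 := pow_le_one₀ hinv0.le hinv
    have h2 : κe / cW * Real.log x ≤ gg h h' (B x) := hg
    have h3 : κe * Real.log x ≤ cW * gg h h' (B x) := by
      have h4 := mul_le_mul_of_nonneg_left h2 hcW.le
      calc κe * Real.log x = cW * (κe / cW * Real.log x) := by
            field_simp
        _ ≤ _ := h4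
    calc κe * x⁻¹ ^ 3 ≤ κe * 1 := mul_le_mul_of_nonneg_left h1 hκ.le
      _ ≤ κe * Real.log x := mul_le_mul_of_nonneg_left hlog1 hκ.le
      _ ≤ _ := h3
  have hexpγ : Real.exp (-γ) = x⁻¹ ^ 12 := by
    rw [hγ, Real.exp_neg, show 12 * Real.log x = ((12 : ℕ) : ℝ) * Real.log x by norm_num,
      Real.exp_nat_mul, Real.exp_log hx0, inv_pow]
  have hk6 : x⁻¹ ^ 6 < 1 := by
    have : x⁻¹ < 1 := inv_lt_one_of_one_lt₀ (by linarith)
    exact pow_lt_one₀ hinv0.le this (by norm_num)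
  have hκx : 2 * CM + 1 ≤ κe * x := by
    rw [div_le_iff₀ hκ] at hxκ
    linarith
  have hbignum : CM * (1 + x ^ 2) * Real.exp (-γ) ≤ 2 * CM * x⁻¹ ^ 6 := by
    rw [hexpγ]
    have e1 : (1 + x ^ 2) * x⁻¹ ^ 12 ≤ 2 * x⁻¹ ^ 6 := by
      have h1 : 1 + x ^ 2 ≤ 2 * x ^ 6 := by
        have : x ^ 2 ≤ x ^ 6 := pow_le_pow_right₀ hx1 (by norm_num)
        have : 1 ≤ x ^ 6 := one_le_pow₀ hx1
        linarith
      calc (1 + x ^ 2) * x⁻¹ ^ 12 ≤ 2 * x ^ 6 * x⁻¹ ^ 12 :=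
            mul_le_mul_of_nonneg_right h1 (by positivity)
        _ = 2 * x⁻¹ ^ 6 := by field_simp
    have := mul_le_mul_of_nonneg_left e1 (by linarith : (0 : ℝ) ≤ CM)
    linarith
  have hknum : (1 - κe * x⁻¹ ^ 5) + CM * (1 + x ^ 2) * Real.exp (-γ) ≤ 1 - x⁻¹ ^ 6 := by
    have e3 : κe * x⁻¹ ^ 5 = κe * x * x⁻¹ ^ 6 := by field_simp
    have e4 : (2 * CM + 1) * x⁻¹ ^ 6 ≤ κe * x * x⁻¹ ^ 6 :=
      mul_le_mul_of_nonneg_right hκx (by positivity)
    linarith
  have hknum2 : CM * (1 + x ^ 2) * Real.exp (-γ) ≤ 1 - x⁻¹ ^ 6 := by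
    have e4 : (2 * CM + 1) * x⁻¹ ^ 6 ≤ x * x⁻¹ ^ 6 :=
      mul_le_mul_of_nonneg_right hxC (by positivity)
    have e5 : x * x⁻¹ ^ 6 = x⁻¹ ^ 5 := by field_simp
    have e6 : x⁻¹ ^ 5 ≤ 1 := pow_le_one₀ hinv0.le hinv
    linarith
  have hcore := NoLowB_core (μ := μ) (ν := ν) S hπ (D := 4 * C) (γ := γ) (b := B x) (u := v x)
    (Y := x ^ 2) (k := 1 - x⁻¹ ^ 6) (N := ⌈x ^ 20⌉₊) P' (by linarith) hγ0 (hBv.trans hvx)
    (by linarith) (by
      intro w h0 h1 hvw hwY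
      have hw2 : 0 < w.2 := (hB0.trans_le hBv).trans hvw
      have hs := (hsmall (fun θ => (1 - x⁻¹ ^ 3) * β θ) (κe * x⁻¹ ^ 3) (v x) (B x) γ γ (2 * γ) w P'
        hlev (by linarith) h0 h1 (by linarith [hB0.trans_le hBv])).1
      have hb := hbig (fun θ => (1 - x⁻¹ ^ 3) * β θ) θ0 (c / 2) C (4 * C) (κe * x⁻¹ ^ 3) (B x) γ
        (x ^ 2) w P' (by linarith) hB0 hγ0 hgg h0 h1 (by linarith) (by positivity)
      have hsplit : ∀ p : ℝ × ℝ, (Set.Iic (x ^ 2)).indicator (fun _ => (1 : ℝ≥0∞)) p.1 *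
          UU h (fun θ => (1 - x⁻¹ ^ 3) * β θ) (4 * C) θ0 γ (2 * γ) (B x) (kwStep w p.1 p.2) =
          (Set.Iic (B x)).indicator (fun _ => (1 : ℝ≥0∞)) p.1 *
          UU h (fun θ => (1 - x⁻¹ ^ 3) * β θ) (4 * C) θ0 γ (2 * γ) (B x) (kwStep w p.1 p.2) +
          (Set.Ioc (B x) (x ^ 2)).indicator (fun _ => (1 : ℝ≥0∞)) p.1 *
          UU h (fun θ => (1 - x⁻¹ ^ 3) * β θ) (4 * C) θ0 γ (2 * γ) (B x) (kwStep w p.1 p.2) := by
        intro p
        rw [← add_mul]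
        congr 1
        by_cases hp1 : p.1 ≤ B x
        · rw [Set.indicator_of_mem (show p.1 ∈ Set.Iic (x ^ 2) from
              hp1.trans (hBv.trans hvx)), Set.indicator_of_mem (show p.1 ∈ Set.Iic (B x) from hp1),
            Set.indicator_of_notMem (show p.1 ∉ Set.Ioc (B x) (x ^ 2) from
              fun hq => absurd hq.1 (not_lt.2 hp1)), add_zero]
        · by_cases hp2 : p.1 ≤ x ^ 2
          · rw [Set.indicator_of_mem (show p.1 ∈ Set.Iic (x ^ 2) from hp2),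
              Set.indicator_of_notMem (show p.1 ∉ Set.Iic (B x) from hp1),
              Set.indicator_of_mem (show p.1 ∈ Set.Ioc (B x) (x ^ 2) from
                ⟨not_le.1 hp1, hp2⟩), zero_add]
          · rw [Set.indicator_of_notMem (show p.1 ∉ Set.Iic (x ^ 2) from hp2),
              Set.indicator_of_notMem (show p.1 ∉ Set.Iic (B x) from hp1),
              Set.indicator_of_notMem (show p.1 ∉ Set.Ioc (B x) (x ^ 2) from
                fun hq => hp2 hq.2), add_zero]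
      have hUm : Measurable (fun p : ℝ × ℝ =>
          UU h (fun θ => (1 - x⁻¹ ^ 3) * β θ) (4 * C) θ0 γ (2 * γ) (B x)
            (kwStep w p.1 p.2)) := by
        refine (measurable_UU H _ _ _ _ _ _).comp ?_
        unfold kwStep
        fun_prop
      have hfm : Measurable (fun p : ℝ × ℝ => (Set.Iic (B x)).indicator
          (fun _ => (1 : ℝ≥0∞)) p.1 *
          UU h (fun θ => (1 - x⁻¹ ^ 3) * β θ) (4 * C) θ0 γ (2 * γ) (B x)
            (kwStep w p.1 p.2)) :=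
        Measurable.mul (Measurable.comp (measurable_const.indicator measurableSet_Iic)
          measurable_fst) hUm
      rw [lintegral_congr hsplit, lintegral_add_left hfm]
      refine (add_le_add hs hb).trans ?_
      rw [← add_mul]
      refine mul_le_mul_left ?_ _
      have hmin : min (κe * x⁻¹ ^ 3) (cW * gg h h' (B x)) = κe * x⁻¹ ^ 3 := min_eq_left hκg
      rw [hmin]
      have hdiv : κe * x⁻¹ ^ 5 ≤ κe * x⁻¹ ^ 3 / w.2 := by
        rw [le_div_iff₀ hw2]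
        calc κe * x⁻¹ ^ 5 * w.2 ≤ κe * x⁻¹ ^ 5 * x ^ 2 :=
              mul_le_mul_of_nonneg_left hwY (by positivity)
          _ = κe * x⁻¹ ^ 3 := by field_simp
      have hb0 : 0 ≤ CM * (1 + x ^ 2) * Real.exp (-γ) := by
        have : (0 : ℝ) ≤ CM := by linarith
        positivity
      rcases le_or_gt 0 (1 - κe * x⁻¹ ^ 3 / w.2) with hpos | hneg
      · rw [← ENNReal.ofReal_add hpos hb0]
        exact ENNReal.ofReal_le_ofReal (by linarith)
      · rw [ENNReal.ofReal_of_nonpos hneg.le, zero_add]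
        exact ENNReal.ofReal_le_ofReal hknum2)
  have hmul : (π.prod (noise μ ν)) (NoLow (v x) (x ^ 2) ⌈x ^ 20⌉₊) =
      ENNReal.ofReal (Real.exp (2 * γ)) * (ENNReal.ofReal (Real.exp (-(2 * γ))) *
        (π.prod (noise μ ν)) (NoLow (v x) (x ^ 2) ⌈x ^ 20⌉₊)) := by
    rw [← mul_assoc, ← ENNReal.ofReal_mul (Real.exp_pos _).le, ← Real.exp_add, add_neg_cancel,
      Real.exp_zero, ENNReal.ofReal_one, one_mul]
  rw [hmul]
  refine (mul_le_mul_right hcore _).trans ?_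
  rw [← ENNReal.ofReal_mul (Real.exp_pos _).le]
  refine ENNReal.ofReal_le_ofReal ?_
  have : 2 * γ = 24 * Real.log x := by
    rw [hγ]
    ring
  rw [this]
  exact hnum

end Pool.Agent.Lib.MP_04add8_pr.Cv
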