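import Mathlib
import Pool.Agent.Lib.MP_04add8_pr.Cv.AP
import Pool.Agent.Lib.MP_04add8_pr.Cv.PotLin

open MeasureTheory ProbabilityTheory Filter Topology
open scoped ENNReal

set_option linter.unusedSectionVars false

namespace Pool.Agent.Lib.MP_04add8_pr.Cv

open Pool.Agent.Lib.MP_04add8_pr.Gen

variable {h h' : ℝ → ℝ} {μ ν : Measure ℝ} [IsProbabilityMeasure μ]
  [IsProbabilityMeasure ν]

variable {B v : ℝ → ℝ}

/-- **Tail of the larger workload.** `P` from `exists_pot`, `D = 4 C`, `KA`, `y0` from `ap_bound`. For `z ≥ y0`: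
`π {z < w₂ ≤ z²} e^{h z} ≤ ∫_{w₂ ≤ z²} EP dπ ≤ z^(2 KA)` (`EP_ge`, Markov). With `K' = |K| + 2` and
`gap_sqrt (K' + 2 KA) (|a| + 1)`: `h z ≥ h ((|a|+1) √z) + (K' + 2 KA) log z` for large `z`. For `z_j = x^(2^j)`, `j ≥ 1`:
`√z_j ≥ x`, so `π {z_j < w₂ ≤ z_j²} ≤ e^{-h z_j} z_j^(2KA) ≤ e^{-h ((|a|+1) x)} z_j^(-K') ≤ e^{-h (a x)} x^(-2 j K')`
(`2^j ≥ 2j`). Sum the geometric series over `j ≥ 1` (`measure_iUnion_le`, `{x² < w₂} = ⋃_{j≥1} {z_j < w₂ ≤ z_j²}`). -/
theorem ptail (S : StdC μ ν h h') (T : Thr h h' B v) (K a : ℝ) :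
    ∀ᶠ x : ℝ in atTop, ∀ π : Measure (ℝ × ℝ), IsStationaryKW μ ν π →
      π {w | x ^ 2 < w.2} ≤ ENNReal.ofReal (x ^ (-K) * Real.exp (-(h (a * x)))) := by
  obtain ⟨β, θ0, c, C, P⟩ := exists_pot S
  obtain ⟨KA, y0, hKA, hy0, hap⟩ := ap_bound S T P (le_refl (4 * C))
  have H := S.haz
  have hC : 0 ≤ 4 * C := by
    have h1 := P.pC
    have h2 := P.pc
    linarith
  obtain ⟨y1, hy1⟩ := (H.gap_sqrt (|K| + 1 + 2 * KA) (|a| + 1)).exists_forall_of_atTop
  filter_upwards [eventually_ge_atTop (max (max y0 y1) 2)] with x hx π hπ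
  have hx0 : y0 ≤ x := (le_max_left _ _).trans ((le_max_left _ _).trans hx)
  have hx1 : y1 ≤ x := (le_max_right _ _).trans ((le_max_left _ _).trans hx)
  have hx2 : 2 ≤ x := (le_max_right _ _).trans hx
  have hx3 : 1 ≤ x := by linarith
  have hxpos : 0 < x := by linarith
  have : IsProbabilityMeasure π := hπ.1
  set A : ℝ := x ^ (-K) * Real.exp (-(h (a * x))) with hA
  have hA0 : 0 ≤ A := mul_nonneg (Real.rpow_nonneg hxpos.le _) (Real.exp_pos _).le
  have hlx : 0 ≤ Real.log x := Real.log_nonneg hx3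
  have shell : ∀ j : ℕ, π {w : ℝ × ℝ | x ^ 2 ^ (j + 1) < w.2 ∧ w.2 ≤ (x ^ 2 ^ (j + 1)) ^ 2} ≤
      ENNReal.ofReal (A / 2 / 2 ^ j) := by
    intro j
    set z : ℝ := x ^ 2 ^ (j + 1) with hz
    have hj2 : j + 2 ≤ 2 ^ (j + 1) := Nat.lt_two_pow_self (n := j + 1)
    have hz2 : x ^ 2 ≤ z := pow_le_pow_right₀ hx3 (by omega)
    have hzx : x ≤ z := by nlinarith
    have hzpos : 0 < z := by linarith
    have hzz : z ≤ z ^ 2 := by nlinarith
    have hE : MeasurableSet {w : ℝ × ℝ | z < w.2 ∧ w.2 ≤ z ^ 2} := by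
      apply MeasurableSet.inter
      · exact measurableSet_lt measurable_const measurable_snd
      · exact measurableSet_le measurable_snd measurable_const
    have hmark : ENNReal.ofReal (Real.exp (h z)) * π {w : ℝ × ℝ | z < w.2 ∧ w.2 ≤ z ^ 2} ≤
        ENNReal.ofReal ((z ^ 2) ^ KA) := by
      rw [← lintegral_indicator_const hE]
      refine le_trans (lintegral_mono_ae ?_) (hap (z ^ 2) (hx0.trans (hzx.trans hzz)) π hπ)
      filter_upwards [hπ.ae_ordered] with w hw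
      by_cases hwE : w ∈ {w : ℝ × ℝ | z < w.2 ∧ w.2 ≤ z ^ 2}
      · have hwE2 : w ∈ {w : ℝ × ℝ | w.2 ≤ z ^ 2} := hwE.2
        rw [Set.indicator_of_mem hwE, Set.indicator_of_mem hwE2]
        refine le_trans (ENNReal.ofReal_le_ofReal (Real.exp_le_exp.2 ?_)) (EP_ge H P hC hw.1 hw.2)
        exact H.mono hwE.1.le
      · rw [Set.indicator_of_notMem hwE]
        exact zero_le
    have h1 : π {w : ℝ × ℝ | z < w.2 ∧ w.2 ≤ z ^ 2} ≤
        ENNReal.ofReal (Real.exp (-(h z)) * (z ^ 2) ^ KA) := by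
      have h2 : ENNReal.ofReal (Real.exp (-(h z))) * ENNReal.ofReal (Real.exp (h z)) = 1 := by
        rw [← ENNReal.ofReal_mul (Real.exp_pos _).le, ← Real.exp_add, neg_add_cancel,
          Real.exp_zero, ENNReal.ofReal_one]
      calc π {w : ℝ × ℝ | z < w.2 ∧ w.2 ≤ z ^ 2}
          = ENNReal.ofReal (Real.exp (-(h z))) * (ENNReal.ofReal (Real.exp (h z)) *
              π {w : ℝ × ℝ | z < w.2 ∧ w.2 ≤ z ^ 2}) := by
            rw [← mul_assoc, h2, one_mul]
        _ ≤ ENNReal.ofReal (Real.exp (-(h z))) * ENNReal.ofReal ((z ^ 2) ^ KA) :=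
            mul_le_mul' le_rfl hmark
        _ = _ := by rw [← ENNReal.ofReal_mul (Real.exp_pos _).le]
    refine h1.trans (ENNReal.ofReal_le_ofReal ?_)
    -- the real inequality
    have hlz : Real.log z = (2 ^ (j + 1) : ℕ) * Real.log x := by
      rw [hz, Real.log_pow]
    have hlz2 : ((j : ℝ) + 2) * Real.log x ≤ Real.log z := by
      rw [hlz]
      refine mul_le_mul_of_nonneg_right ?_ hlx
      exact_mod_cast hj2
    have h3 := hy1 z (hx1.trans hzx)
    have h4 : h (a * x) ≤ h ((|a| + 1) * √z) := by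
      apply H.mono
      have h5 : x ≤ √z := Real.le_sqrt_of_sq_le hz2
      have h6 : a ≤ |a| := le_abs_self a
      have h7 : 0 ≤ |a| := abs_nonneg a
      nlinarith
    have h8 : (z ^ 2) ^ KA = Real.exp (2 * KA * Real.log z) := by
      rw [Real.rpow_def_of_pos (by positivity), Real.log_pow]
      congr 1
      push_cast
      ring
    have h9 : x ^ (-K) = Real.exp (-K * Real.log x) := by
      rw [Real.rpow_def_of_pos hxpos]
      congr 1
      ring
    have h10 : Real.exp (-(((j : ℝ) + 1) * Real.log x)) ≤ 1 / 2 / 2 ^ j := by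
      rw [Real.exp_neg]
      have h11 : Real.exp (((j : ℝ) + 1) * Real.log x) = x ^ (j + 1) := by
        rw [show ((j : ℝ) + 1) * Real.log x = ((j + 1 : ℕ) : ℝ) * Real.log x by push_cast; ring,
          ← Real.log_pow, Real.exp_log (by positivity)]
      rw [h11]
      have h12 : (2 : ℝ) ^ (j + 1) ≤ x ^ (j + 1) := pow_le_pow_left₀ (by norm_num) hx2 _
      calc (x ^ (j + 1))⁻¹ ≤ ((2 : ℝ) ^ (j + 1))⁻¹ := inv_anti₀ (by positivity) h12
        _ = 1 / 2 / 2 ^ j := by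
            rw [pow_succ]
            field_simp
    have hK0 : 0 ≤ |K| := abs_nonneg K
    have hKK : K ≤ |K| := le_abs_self K
    have h13 : -(h z) + 2 * KA * Real.log z ≤
        -K * Real.log x + -(h (a * x)) + -(((j : ℝ) + 1) * Real.log x) := by
      have h14 : (|K| + 1) * (((j : ℝ) + 2) * Real.log x) ≤ (|K| + 1) * Real.log z :=
        mul_le_mul_of_nonneg_left hlz2 (by linarith)
      have h15 : K * Real.log x ≤ |K| * Real.log x := mul_le_mul_of_nonneg_right hKK hlx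
      have h16 : 0 ≤ |K| * (((j : ℝ) + 1) * Real.log x) := by positivity
      nlinarith
    calc Real.exp (-(h z)) * (z ^ 2) ^ KA
        = Real.exp (-(h z) + 2 * KA * Real.log z) := by rw [h8, ← Real.exp_add]
      _ ≤ Real.exp (-K * Real.log x + -(h (a * x)) + -(((j : ℝ) + 1) * Real.log x)) :=
          Real.exp_le_exp.2 h13
      _ = A * Real.exp (-(((j : ℝ) + 1) * Real.log x)) := by
          rw [Real.exp_add, Real.exp_add, hA, h9]
      _ ≤ A * (1 / 2 / 2 ^ j) := mul_le_mul_of_nonneg_left h10 hA0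
      _ = A / 2 / 2 ^ j := by ring
  have hcover : {w : ℝ × ℝ | x ^ 2 < w.2} ⊆
      ⋃ j : ℕ, {w : ℝ × ℝ | x ^ 2 ^ (j + 1) < w.2 ∧ w.2 ≤ (x ^ 2 ^ (j + 1)) ^ 2} := by
    intro w hw
    have hw' : x ^ 2 < w.2 := hw
    have hex : ∃ n : ℕ, w.2 ≤ x ^ 2 ^ (n + 1) := by
      obtain ⟨n, hn⟩ := pow_unbounded_of_one_lt w.2 (show (1 : ℝ) < 2 by norm_num)
      refine ⟨n, ?_⟩
      have h1 : n ≤ 2 ^ (n + 1) := (Nat.lt_two_pow_self (n := n)).le.trans
        (Nat.pow_le_pow_right (by norm_num) (by omega))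
      calc w.2 ≤ 2 ^ n := hn.le
        _ ≤ x ^ n := pow_le_pow_left₀ (by norm_num) hx2 _
        _ ≤ x ^ 2 ^ (n + 1) := pow_le_pow_right₀ hx3 h1
    classical
    have hn0 := Nat.find_spec hex
    have hn1 := @Nat.find_min _ _ hex
    set n := Nat.find hex with hn
    rcases Nat.eq_zero_or_pos n with h0 | h0
    · rw [h0] at hn0
      simp only [zero_add, pow_one] at hn0
      linarith
    · obtain ⟨j, hj⟩ := Nat.exists_eq_succ_of_ne_zero h0.ne'
      refine Set.mem_iUnion.2 ⟨j, ?_, ?_⟩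
      · have := hn1 (m := j) (by omega)
        exact not_le.1 this
      · rw [← pow_mul, ← pow_succ]
        rw [hj] at hn0
        exact hn0
  calc π {w : ℝ × ℝ | x ^ 2 < w.2}
      ≤ π (⋃ j : ℕ, {w : ℝ × ℝ | x ^ 2 ^ (j + 1) < w.2 ∧ w.2 ≤ (x ^ 2 ^ (j + 1)) ^ 2}) :=
        measure_mono hcover
    _ ≤ ∑' j : ℕ, π {w : ℝ × ℝ | x ^ 2 ^ (j + 1) < w.2 ∧ w.2 ≤ (x ^ 2 ^ (j + 1)) ^ 2} :=
        measure_iUnion_le _
    _ ≤ ∑' j : ℕ, ENNReal.ofReal (A / 2 / 2 ^ j) := ENNReal.tsum_le_tsum shell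
    _ = ENNReal.ofReal (∑' j : ℕ, A / 2 / 2 ^ j) := by
        rw [ENNReal.ofReal_tsum_of_nonneg (fun n => by positivity) (summable_geometric_two' A)]
    _ = ENNReal.ofReal A := by rw [tsum_geometric_two']

end Pool.Agent.Lib.MP_04add8_pr.Cv
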