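import Mathlib
import Pool.Agent.Lib.MP_04add8_pr.Cv.DefsP
import Pool.Agent.Lib.MP_04add8_pr.Cv.Beta
import Pool.Agent.Lib.MP_04add8_pr.Cv.Phi

open MeasureTheory ProbabilityTheory Filter Topology
open scoped ENNReal

set_option linter.unusedSectionVars false

namespace Pool.Agent.Lib.MP_04add8_pr.Cv

open Pool.Agent.Lib.MP_04add8_pr.Gen

variable {h h' : ℝ → ℝ} {μ ν : Measure ℝ} [IsProbabilityMeasure μ]
  [IsProbabilityMeasure ν]

/-- the slope of the potentials of regime (i): the truncated Cramer root, lowered by the Taylor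
error -/
noncomputable def betaK (μ ν : Measure ℝ) (K : ℕ) (A θ : ℝ) : ℝ :=
  cramerRoot μ ν K θ - A * θ ^ (K + 1)

/-- the expansion gives the derivative -/
private lemma PotK_der {β β1 : ℝ → ℝ} {ω θ0 : ℝ} (hω : 0 < ω)
    (hexp : ∀ θ, 0 < θ → θ < θ0 → ∀ u : ℝ, |u| ≤ θ / 2 →
      |β (θ + u) - β θ - β1 θ * u| ≤ ω / θ * u ^ 2) :
    ∀ θ, 0 < θ → θ < θ0 → HasDerivAt β (β1 θ) θ := by
  intro θ h0 h1
  rw [hasDerivAt_iff_isLittleO_nhds_zero]
  rw [Asymptotics.isLittleO_iff]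
  intro c hc
  have : ∀ᶠ u : ℝ in 𝓝 0, |u| < min (θ / 2) (c * θ / ω) := by
    have := Metric.ball_mem_nhds (0 : ℝ) (lt_min (by linarith) (by positivity) :
      0 < min (θ / 2) (c * θ / ω))
    filter_upwards [this] with u hu
    simpa [Real.dist_eq] using hu
  filter_upwards [this] with u hu
  have hu1 : |u| ≤ θ / 2 := (hu.le.trans (min_le_left _ _))
  have hu2 : |u| ≤ c * θ / ω := (hu.le.trans (min_le_right _ _))
  have h3 := hexp θ h0 h1 u hu1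
  rw [Real.norm_eq_abs, Real.norm_eq_abs]
  have e : β (θ + u) - β θ - u • β1 θ = β (θ + u) - β θ - β1 θ * u := by
    rw [smul_eq_mul, mul_comm]
  rw [e]
  refine h3.trans ?_
  have h4 : ω / θ * u ^ 2 = (ω / θ * |u|) * |u| := by
    rw [mul_assoc, ← pow_two, sq_abs]
  rw [h4]
  apply mul_le_mul_of_nonneg_right _ (abs_nonneg u)
  calc ω / θ * |u| ≤ ω / θ * (c * θ / ω) := by gcongr
    _ = c := by field_simp

/-- the derivative of `β` tends to `η - 1` -/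
private lemma PotK_beta1 {η : ℝ} {β : ℝ → ℝ}
    (hlim : Tendsto (fun θ => β θ / θ) (𝓝[>] 0) (𝓝 (η - 1))) {β1 : ℝ → ℝ}
    (hexp : ∀ ω : ℝ, 0 < ω → ∃ θ0 : ℝ, 0 < θ0 ∧ ∀ θ, 0 < θ → θ < θ0 → ∀ u : ℝ, |u| ≤ θ / 2 →
      |β (θ + u) - β θ - β1 θ * u| ≤ ω / θ * u ^ 2) {τ : ℝ} (hτ : 0 < τ) :
    ∃ d : ℝ, 0 < d ∧ ∀ θ, 0 < θ → θ < d → |β1 θ - (η - 1)| ≤ τ ∧
      |β θ - (η - 1) * θ| ≤ τ * θ := by
  have h1 : ∀ᶠ θ in 𝓝[>] (0 : ℝ), |β θ / θ - (η - 1)| < τ / 10 := by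
    have := hlim.eventually (Metric.ball_mem_nhds (η - 1) (by positivity : 0 < τ / 10))
    filter_upwards [this] with θ h
    rwa [Real.dist_eq] at h
  rw [eventually_nhdsWithin_iff, Metric.eventually_nhds_iff] at h1
  obtain ⟨d, hd, hd2⟩ := h1
  have hb : ∀ θ, 0 < θ → θ < d → |β θ - (η - 1) * θ| ≤ τ / 10 * θ := by
    intro θ h0 h2
    have h3 := (hd2 (y := θ) (by rw [Real.dist_eq]; simpa [abs_of_pos h0] using h2) h0).le
    have h4 : β θ - (η - 1) * θ = (β θ / θ - (η - 1)) * θ := by field_simp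
    rw [h4, abs_mul, abs_of_pos h0]
    exact mul_le_mul_of_nonneg_right h3 h0.le
  obtain ⟨θ0, hθ0, hexp0⟩ := hexp (τ / 10) (by positivity)
  refine ⟨min (d / 2) θ0, lt_min (by positivity) hθ0, fun θ h0 h2 => ?_⟩
  have h3 : θ < d / 2 := h2.trans_le (min_le_left _ _)
  have h4 : θ < θ0 := h2.trans_le (min_le_right _ _)
  have b1 := abs_le.1 (hb θ h0 (by linarith))
  have b2 := abs_le.1 (hb (θ + θ / 2) (by linarith) (by linarith))
  have b3 := abs_le.1 (hexp0 θ h0 h4 (θ / 2) (by rw [abs_of_pos (by linarith)]))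
  have e : τ / 10 / θ * (θ / 2) ^ 2 = τ / 40 * θ := by
    field_simp
    ring
  rw [e] at b3
  constructor
  · rw [abs_le]
    constructor
    · by_contra hcon
      push Not at hcon
      have h5 : (β1 θ - (η - 1)) * θ < -τ * θ := mul_lt_mul_of_pos_right hcon h0
      nlinarith [b1.1, b1.2, b2.1, b2.2, b3.1, b3.2]
    · by_contra hcon
      push Not at hcon
      have h5 : τ * θ < (β1 θ - (η - 1)) * θ := mul_lt_mul_of_pos_right hcon h0
      nlinarith [b1.1, b1.2, b2.1, b2.2, b3.1, b3.2]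
  · rw [abs_le]
    have h6 : 0 < τ * θ := by positivity
    constructor <;> nlinarith [b1.1, b1.2]

/-- **the potential of regime (i)** -/
theorem potK (S : StdC μ ν h h') {K : ℕ} (hK : 1 ≤ K) :
    ∃ A θ0 c : ℝ, 0 ≤ A ∧ 0 < θ0 ∧ θ0 ≤ 1 ∧
      ∀ θ1 : ℝ, 0 < θ1 → θ1 ≤ θ0 → Pot μ ν h (betaK μ ν K A) θ1 c (eta μ ν) 0 := by
  have hη2 := two_lt_eta S
  obtain ⟨C1, hC1, hφ⟩ := gphi_upper S K
  obtain ⟨θa, hθa, hbas⟩ := gbeta_basic S hK
  obtain ⟨β1, hβ1⟩ := gbeta_expand S hK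
  have hlim := gbeta_limit S hK
  have hgt := S.hgt
  set E := ∫ s, s ∂μ with hE
  set m := ∫ t, t ∂ν with hm
  set η := eta μ ν with hη
  have hη0 : 0 < η := by linarith
  have hEm : 0 < E - m := by linarith
  -- the constants
  obtain ⟨A, hA⟩ : ∃ A : ℝ, A = 2 * C1 * η ^ (K + 1) / (E - m) := ⟨_, rfl⟩
  have hA0 : 0 ≤ A := by rw [hA]; positivity
  obtain ⟨τ, hτ0, hτ1, hτ2⟩ : ∃ τ : ℝ, 0 < τ ∧ τ ≤ (η - 2) / 4 ∧ τ ≤ 1 / 2 :=
    ⟨min ((η - 2) / 4) (1 / 2), lt_min (by linarith) (by norm_num), min_le_left _ _,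
      min_le_right _ _⟩
  obtain ⟨θb, hθb, hsm⟩ := PotK_beta1 hlim hβ1 hτ0
  obtain ⟨θc, hθc, hexp⟩ := hβ1 1 one_pos
  have hder := PotK_der one_pos hexp
  obtain ⟨AK, hAK⟩ : ∃ AK : ℝ, AK = A * (K + 1) := ⟨_, rfl⟩
  have hAK0 : 0 ≤ AK := by rw [hAK]; positivity
  have hAAK : A ≤ AK := by
    rw [hAK]
    have : (0 : ℝ) ≤ K := Nat.cast_nonneg K
    nlinarith
  obtain ⟨θ0, hθ0, h1, h2, h3, h4, h5⟩ : ∃ θ0 : ℝ, 0 < θ0 ∧ θ0 ≤ 1 ∧ θ0 < θa ∧ θ0 < θb ∧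
      θ0 < θc ∧ θ0 * (AK + 1) ≤ τ := by
    refine ⟨min (min 1 (θa / 2)) (min (min (θb / 2) (θc / 2)) (τ / (AK + 1))), by positivity,
      ?_, ?_, ?_, ?_, ?_⟩
    · exact (min_le_left _ _).trans (min_le_left _ _)
    · have : min (min 1 (θa / 2)) (min (min (θb / 2) (θc / 2)) (τ / (AK + 1))) ≤ θa / 2 :=
        (min_le_left _ _).trans (min_le_right _ _)
      linarith
    · have : min (min 1 (θa / 2)) (min (min (θb / 2) (θc / 2)) (τ / (AK + 1))) ≤ θb / 2 :=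
        (min_le_right _ _).trans ((min_le_left _ _).trans (min_le_left _ _))
      linarith
    · have : min (min 1 (θa / 2)) (min (min (θb / 2) (θc / 2)) (τ / (AK + 1))) ≤ θc / 2 :=
        (min_le_right _ _).trans ((min_le_left _ _).trans (min_le_right _ _))
      linarith
    · have : min (min 1 (θa / 2)) (min (min (θb / 2) (θc / 2)) (τ / (AK + 1))) ≤
        τ / (AK + 1) := (min_le_right _ _).trans (min_le_right _ _)
      rwa [le_div_iff₀ (by positivity)] at this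
  -- the Taylor error is small
  have hpow : ∀ θ : ℝ, 0 < θ → θ ≤ θ0 → AK * θ ^ K ≤ τ := by
    intro θ hθ hθ'
    have e1 : θ ^ K ≤ θ := pow_le_of_le_one hθ.le (hθ'.trans h1) (by omega)
    calc AK * θ ^ K ≤ AK * θ := mul_le_mul_of_nonneg_left e1 hAK0
      _ ≤ (AK + 1) * θ0 := by nlinarith
      _ ≤ τ := by linarith
  have hpow2 : ∀ θ : ℝ, 0 < θ → θ ≤ θ0 → 0 ≤ A * θ ^ (K + 1) ∧ A * θ ^ (K + 1) ≤ τ * θ := by
    intro θ hθ hθ'
    refine ⟨by positivity, ?_⟩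
    have e1 := hpow θ hθ hθ'
    have e2 : A * θ ^ K ≤ AK * θ ^ K := mul_le_mul_of_nonneg_right hAAK (by positivity)
    calc A * θ ^ (K + 1) = (A * θ ^ K) * θ := by ring
      _ ≤ τ * θ := mul_le_mul_of_nonneg_right (e2.trans e1) hθ.le
  have hlow : ∀ θ : ℝ, 0 < θ → θ ≤ θ0 → (1 + (η - 2 - 2 * τ)) * θ ≤ betaK μ ν K A θ := by
    intro θ hθ hθ'
    have e1 := (abs_le.1 (hsm θ hθ (hθ'.trans_lt h3)).2).1
    have e2 := (hpow2 θ hθ hθ').2
    unfold betaK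
    linarith
  have hup : ∀ θ : ℝ, 0 < θ → θ ≤ θ0 → betaK μ ν K A θ ≤ η * θ := by
    intro θ hθ hθ'
    have e1 := (abs_le.1 (hsm θ hθ (hθ'.trans_lt h3)).2).2
    have e2 := (hpow2 θ hθ hθ').1
    have e3 : τ * θ ≤ 1 / 2 * θ := mul_le_mul_of_nonneg_right hτ2 hθ.le
    unfold betaK
    linarith
  have hmono : MonotoneOn (betaK μ ν K A) (Set.Ioc 0 θ0) := by
    apply monotoneOn_of_hasDerivWithinAt_nonneg
      (f' := fun θ => β1 θ - A * (((K + 1 : ℕ) : ℝ) * θ ^ (K + 1 - 1))) (convex_Ioc 0 θ0)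
    · intro θ hθ
      have d1 := (hder θ hθ.1 (hθ.2.trans_lt h4)).sub
        ((hasDerivAt_pow (K + 1) θ).const_mul A)
      exact d1.continuousAt.continuousWithinAt
    · intro θ hθ
      have hθ' := interior_subset hθ
      have d1 := (hder θ hθ'.1 (hθ'.2.trans_lt h4)).sub
        ((hasDerivAt_pow (K + 1) θ).const_mul A)
      exact d1.hasDerivWithinAt
    · intro θ hθ
      have hθ' := interior_subset hθ
      have e1 := (abs_le.1 (hsm θ hθ'.1 (hθ'.2.trans_lt h3)).1).1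
      have e2 := hpow θ hθ'.1 hθ'.2
      have e3 : A * (((K + 1 : ℕ) : ℝ) * θ ^ (K + 1 - 1)) = AK * θ ^ K := by
        rw [hAK, Nat.add_sub_cancel]
        push_cast
        ring
      rw [e3]
      linarith
  refine ⟨A, θ0, η - 2 - 2 * τ, hA0, hθ0, h1, ?_⟩
  intro θ1 hθ1 hθ10
  have hroot0 : ∀ θ : ℝ, 0 < θ → θ ≤ θ1 → 0 ≤ betaK μ ν K A θ := by
    intro θ hθ hθ'
    have e1 := hlow θ hθ (hθ'.trans hθ10)
    have e2 : 0 ≤ (1 + (η - 2 - 2 * τ)) * θ := mul_nonneg (by linarith) hθ.le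
    linarith
  refine ⟨hθ1, by linarith, by linarith, le_rfl, fun θ hθ hθ' => hlow θ hθ (hθ'.trans hθ10),
    fun θ hθ hθ' => hup θ hθ (hθ'.trans hθ10), ?_, ?_, ?_⟩
  · intro θ θ' hθ hθθ' hθ'
    exact hmono ⟨hθ, (hθθ'.trans hθ').trans hθ10⟩ ⟨hθ.trans_le hθθ', hθ'.trans hθ10⟩ hθθ'
  · intro θ hθ hθ'
    have := (phi_lap S.hν hθ.le).2.2
    linarith
  · intro θ B hθ hθ' hT
    have hθ0' := hθ'.trans hθ10
    have hb0 := hroot0 θ hθ hθ'
    have hbC := hup θ hθ hθ0'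
    have hT' : Tilt h (betaK μ ν K A θ) B := fun s hs hsB =>
      (mul_le_mul_of_nonneg_right hbC hs).trans (hT s hs hsB)
    refine (hφ B (betaK μ ν K A θ) θ hb0 hθ.le hT').trans (ENNReal.ofReal_le_ofReal ?_)
    obtain ⟨-, -, g3⟩ := hbas θ hθ (hθ0'.trans_lt h2)
    have e1 := g3 (betaK μ ν K A θ) hb0 (by
      unfold betaK
      linarith [(hpow2 θ hθ hθ0').1])
    have e2 : cramerRoot μ ν K θ - betaK μ ν K A θ = A * θ ^ (K + 1) := by
      unfold betaK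
      ring
    rw [e2] at e1
    have e3 : (E - m) / 2 * (A * θ ^ (K + 1)) = C1 * (η ^ (K + 1) * θ ^ (K + 1)) := by
      rw [hA]
      field_simp
    have e4 : C1 * betaK μ ν K A θ ^ (K + 1) ≤ C1 * (η ^ (K + 1) * θ ^ (K + 1)) := by
      rw [← mul_pow]
      exact mul_le_mul_of_nonneg_left (pow_le_pow_left₀ hb0 hbC _) hC1
    rw [zero_mul, sub_zero]
    linarith

end Pool.Agent.Lib.MP_04add8_pr.Cv
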