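import Mathlib
import Pool.Agent.Lib.MP_04add8_pr.Cv.RRf
import Pool.Agent.Lib.MP_04add8_pr.Cv.PotK
import Pool.Agent.Lib.MP_04add8_pr.Cv.Rate
import Pool.Agent.Lib.MP_04add8_pr.Cv.Err

open MeasureTheory ProbabilityTheory Filter Topology
open scoped ENNReal

set_option linter.unusedSectionVars false

namespace Pool.Agent.Lib.MP_04add8_pr.Cv

open Pool.Agent.Lib.MP_04add8_pr.Gen

variable {h h' : ℝ → ℝ} {μ ν : Measure ℝ} [IsProbabilityMeasure μ]
  [IsProbabilityMeasure ν]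

/-- **the rate of the potential against the true rate**: for `θ ≤ M h x / x` the Taylor error
`x A θ ^ (K + 1)` tends to `0`, for `θ ≥ M h x / x` the value is at least `M h x`, `M = 2 η` -/
theorem RR_cmp (S : StdC μ ν h h') {d : ℝ} (hd : ∀ᶠ x : ℝ in atTop, h' x ≤ x ^ (-d)) {K : ℕ}
    (hK : 1 < (K + 1) * d) {A θ0 c : ℝ} (hA : 0 ≤ A)
    (P : Pot μ ν h (betaK μ ν K A) θ0 c (eta μ ν) 0) :
    ∀ᶠ x : ℝ in atTop,
      hRate h (cramerRoot μ ν K) x - 1 ≤ RR h (betaK μ ν K A) θ0 x := by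
  have H := S.haz
  have hK1 := H.one_le_of_rate hd hK
  have hη2 := two_lt_eta S
  have hcr : ∀ θ : ℝ, 0 ≤ cramerRoot μ ν K θ := cramerRoot_nonneg (μ := μ) (ν := ν) K
  have hP0 := P.pθ
  have hPlow := P.low
  have hclose := grate_close S hK1 one_pos
  have hle : ∀ R x : ℝ, (∀ θ : ℝ, 0 < θ → θ ≤ θ0 →
      R ≤ hG h θ + x * (θ + betaK μ ν K A θ)) → R ≤ RR h (betaK μ ν K A) θ0 x :=
    fun R x hR => le_RR H P hR
  have hPc := P.pc
  generalize eta μ ν = η at hη2 hclose
  have hη0 : 0 < η := by linarith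
  obtain ⟨M, hM⟩ : ∃ M : ℝ, M = 2 * η := ⟨_, rfl⟩
  have hM0 : 0 < M := by rw [hM]; positivity
  have hlim : Tendsto (fun x : ℝ => A * M ^ (K + 1) * (x * (h x / x) ^ (K + 1))) atTop
      (𝓝 0) := by
    simpa using (H.mul_pow_div hd hK).const_mul (A * M ^ (K + 1))
  filter_upwards [hclose, hlim.eventually_le_const (show (0 : ℝ) < 1 from one_pos),
    eventually_gt_atTop 0] with x h1 h2 hx
  have hηx : 0 < η * x := by positivity
  have hhx := H.nonneg x
  have e1 : h (η * x) ≤ η * h x := H.mul_ge (by linarith) hx.le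
  have e2 : x * h' (η * x) ≤ h (η * x) := by
    have e3 := H.mul_deriv_le hηx
    have e4 : x * h' (η * x) ≤ η * x * h' (η * x) := by
      have := (H.pos _ hηx).le
      have e5 : x ≤ η * x := by nlinarith
      exact mul_le_mul_of_nonneg_right e5 this
    linarith
  have hR := (abs_le.1 h1).2
  have hR2 : hRate h (cramerRoot μ ν K) x ≤ M * h x := by
    rw [hM]
    linarith
  refine hle _ _ fun θ hθ hθ' => ?_
  rcases le_total θ (M * (h x / x)) with hc | hc
  · -- small tilts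
    have f1 : hRate h (cramerRoot μ ν K) x ≤ hG h θ + x * (θ + cramerRoot μ ν K θ) := by
      refine csInf_le ⟨0, ?_⟩ ⟨θ, hθ, rfl⟩
      rintro _ ⟨θ', hθ', rfl⟩
      have hθ'' : (0 : ℝ) < θ' := hθ'
      have f2 := hG_nonneg H hθ''
      have f3 := hcr θ'
      change 0 ≤ hG h θ' + x * (θ' + cramerRoot μ ν K θ')
      positivity
    have f2 : x * (A * θ ^ (K + 1)) ≤ 1 := by
      refine le_trans ?_ h2
      have f3 : θ ^ (K + 1) ≤ (M * (h x / x)) ^ (K + 1) := pow_le_pow_left₀ hθ.le hc _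
      calc x * (A * θ ^ (K + 1)) ≤ x * (A * (M * (h x / x)) ^ (K + 1)) := by gcongr
        _ = A * M ^ (K + 1) * (x * (h x / x) ^ (K + 1)) := by rw [mul_pow]; ring
    have f3 : hG h θ + x * (θ + betaK μ ν K A θ) =
        hG h θ + x * (θ + cramerRoot μ ν K θ) - x * (A * θ ^ (K + 1)) := by
      unfold betaK
      ring
    rw [f3]
    linarith
  · -- large tilts
    have f1 := hG_nonneg H hθ
    have f2 := hPlow θ hθ hθ'
    have f3 : 0 ≤ betaK μ ν K A θ := by
      have : 0 ≤ (1 + c) * θ := by positivity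
      linarith
    have f4 : M * h x ≤ x * θ := by
      calc M * h x = x * (M * (h x / x)) := by field_simp
        _ ≤ x * θ := mul_le_mul_of_nonneg_left hc hx.le
    have f5 : 0 ≤ x * betaK μ ν K A θ := by positivity
    have f6 : x * (θ + betaK μ ν K A θ) = x * θ + x * betaK μ ν K A θ := by ring
    rw [f6]
    linarith

/-- `exp (-RR x)` is negligible against the one-big-job term (no factor `1 / h'`) -/
theorem RR_err (S : StdC μ ν h h') {d : ℝ} (hd : ∀ᶠ x : ℝ in atTop, h' x ≤ x ^ (-d)) {K : ℕ}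
    (hK : 1 < (K + 1) * d) {A θ0 c : ℝ} (hA : 0 ≤ A)
    (P : Pot μ ν h (betaK μ ν K A) θ0 c (eta μ ν) 0) {ω : ℝ} (hω : 0 < ω) :
    ∀ᶠ x : ℝ in atTop,
      Real.exp (-(RR h (betaK μ ν K A) θ0 x)) ≤ ω * fOneH h h' μ ν K x := by
  have H := S.haz
  have hη0 : 0 < eta μ ν := by linarith [two_lt_eta S]
  have hD : 0 < 2 * (∫ t, t ∂ν) - ∫ s, s ∂μ := by
    have := S.hlt
    linarith
  set D : ℝ := 2 * (∫ t, t ∂ν) - ∫ s, s ∂μ with hDdef
  have hηx : Tendsto (fun x : ℝ => eta μ ν * x) atTop atTop := tendsto_id.const_mul_atTop hη0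
  have h0 : (0 : ℝ) < ω / (D * Real.exp 1) := by
    have := Real.exp_pos 1
    positivity
  filter_upwards [RR_cmp S hd hK hA P, (H.tendsto_deriv.comp hηx).eventually_le_const h0,
    eventually_gt_atTop 0] with x h1 h2 hx
  simp only [Function.comp_apply] at h2
  have hp : 0 < h' (eta μ ν * x) := H.pos _ (by positivity)
  have h3 : Real.exp (-(RR h (betaK μ ν K A) θ0 x)) ≤
      Real.exp 1 * Real.exp (-(hRate h (cramerRoot μ ν K) x)) := by
    rw [← Real.exp_add]
    exact Real.exp_le_exp.2 (by linarith)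
  refine h3.trans ?_
  unfold fOneH
  rw [← hDdef, ← mul_div_assoc, le_div_iff₀ (by positivity)]
  have h4 : Real.exp 1 * (D * h' (eta μ ν * x)) ≤ ω := by
    rw [le_div_iff₀ (by positivity)] at h2
    linarith
  calc Real.exp 1 * Real.exp (-(hRate h (cramerRoot μ ν K) x)) * (D * h' (eta μ ν * x))
      = (Real.exp 1 * (D * h' (eta μ ν * x))) * Real.exp (-(hRate h (cramerRoot μ ν K) x)) := by
        ring
    _ ≤ ω * Real.exp (-(hRate h (cramerRoot μ ν K) x)) :=
        mul_le_mul_of_nonneg_right h4 (Real.exp_pos _).le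

end Pool.Agent.Lib.MP_04add8_pr.Cv
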