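import Mathlib
import Pool.Agent.Lib.MP_04add8_pr.Cv.RRf
import Pool.Agent.Lib.MP_04add8_pr.Cv.PotLin
import Pool.Agent.Lib.MP_04add8_pr.Cv.HLog

open MeasureTheory ProbabilityTheory Filter Topology
open scoped ENNReal

set_option linter.unusedSectionVars false

namespace Pool.Agent.Lib.MP_04add8_pr.Cv

open Pool.Agent.Lib.MP_04add8_pr.Gen

variable {h h' : ℝ → ℝ} {μ ν : Measure ℝ} [IsProbabilityMeasure μ]
  [IsProbabilityMeasure ν]

private lemma regTwo_eta (S : StdC μ ν h h') : 2 < eta μ ν := by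
  have h1 := S.hgt
  have h2 := S.hlt
  unfold eta
  rw [lt_div_iff₀ (by linarith)]
  linarith

/-- `b0 = (E - m)/m`, `eta = E/(E-m) = 1 + 1/b0`. Choose `b ∈ (b0, 1)` with `(1 + 1/b)/eta · (2 + δ0) ≥ 2 + δ0/2`. `pot_lin`
(weakened to `e = 0`). `RR x = inf_θ (hG θ + (1 + 1/b) x θ) ≥ h ((1 + 1/b) x)` (`hG_ge`, `le_RR`), and
`h ((1+1/b) x) ≥ ((1+1/b)/eta) h (eta x)` (`H.mul_le`-type concavity inequality, `h 0 ≥ 0`) `≥ (2 + δ0/2) h x`. -/
theorem reg_two (S : StdC μ ν h h') {δ0 : ℝ} (hδ0 : 0 < δ0)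
    (h2 : ∀ᶠ x : ℝ in atTop, (2 + δ0) * h x ≤ h (eta μ ν * x)) :
    ∃ (β : ℝ → ℝ) (θ0 c C : ℝ), Pot μ ν h β θ0 c C 0 ∧
      ∀ᶠ x : ℝ in atTop, (2 + δ0 / 2) * h x ≤ RR h β θ0 x := by
  have H := S.haz
  have hη := regTwo_eta S
  have hm := S.hm
  have hgt := S.hgt
  have hηd : eta μ ν = (∫ s, s ∂μ) / ((∫ s, s ∂μ) - ∫ t, t ∂ν) := rfl
  set η := eta μ ν with hηdef
  set E := ∫ s, s ∂μ with hE
  set m := ∫ t, t ∂ν with hmdef
  have hEm : 0 < E - m := by linarith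
  have hηE : η * (E - m) = E := by
    rw [hηd]
    field_simp
  set r : ℝ := (2 + δ0 / 2) / (2 + δ0) with hr
  have hr1 : r < 1 := by
    rw [hr, div_lt_one (by linarith)]
    linarith
  have hr0 : r * (2 + δ0) = 2 + δ0 / 2 := by
    rw [hr]
    field_simp
  obtain ⟨t, ht1, ht2, ht3⟩ : ∃ t : ℝ, 1 < t ∧ t < η - 1 ∧ r * η ≤ 1 + t := by
    refine ⟨max (η / 2) ((r + 1) * η / 2 - 1), ?_, ?_, ?_⟩
    · exact lt_of_lt_of_le (by linarith) (le_max_left _ _)
    · refine max_lt (by linarith) ?_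
      nlinarith
    · have h3 : (r + 1) * η / 2 - 1 ≤ max (η / 2) ((r + 1) * η / 2 - 1) := le_max_right _ _
      nlinarith
  have ht0 : 0 < t := by linarith
  obtain ⟨θ0, e, h7, h8, P⟩ := pot_lin S (b := 1 / t) (by positivity) (by
      rw [div_mul_eq_mul_div, one_mul, lt_div_iff₀ ht0]
      have h9 : (E - m) * t < (E - m) * (η - 1) := mul_lt_mul_of_pos_left ht2 hEm
      nlinarith) (by
      rw [div_lt_one ht0]
      exact ht1)
  have P0 : Pot μ ν h (fun θ => θ / (1 / t)) θ0 (1 / (1 / t) - 1) (1 / (1 / t)) 0 := by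
    refine ⟨P.pθ, P.pc, P.pC, le_rfl, P.low, P.up, P.mono, ?_, ?_⟩
    · intro θ h9 h10
      have h11 := P.lapl θ h9 h10
      have h12 := mul_pos h8 h9
      linarith
    · intro θ B h9 h10 hT
      refine (P.sub θ B h9 h10 hT).trans (ENNReal.ofReal_le_ofReal ?_)
      have h12 := mul_pos h8 h9
      linarith
  refine ⟨_, θ0, _, _, P0, ?_⟩
  filter_upwards [h2, eventually_gt_atTop (0 : ℝ)] with x hx hx0
  refine le_RR H P0 fun θ hθ hθ0 => ?_
  have h3 : θ / (1 / t) = t * θ := by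
    field_simp
  have h4 : 0 ≤ (1 + t) * x := by positivity
  have h5 := hG_ge H hθ h4
  have h6 : (1 + t) * x ≤ η * x := mul_le_mul_of_nonneg_right (by linarith) hx0.le
  have h9 := H.mul_le (show 0 < (1 + t) * x by positivity) h6
  have h10 : (1 + t) * h (η * x) ≤ η * h ((1 + t) * x) := by
    have h11 : x * ((1 + t) * h (η * x)) ≤ x * (η * h ((1 + t) * x)) := by
      calc x * ((1 + t) * h (η * x)) = (1 + t) * x * h (η * x) := by ring
        _ ≤ η * x * h ((1 + t) * x) := h9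
        _ = x * (η * h ((1 + t) * x)) := by ring
    exact le_of_mul_le_mul_left h11 hx0
  have h12 : (2 + δ0 / 2) * h x ≤ h ((1 + t) * x) := by
    have h13 : η * ((2 + δ0 / 2) * h x) ≤ η * h ((1 + t) * x) := by
      calc η * ((2 + δ0 / 2) * h x) = (r * η) * ((2 + δ0) * h x) := by
            rw [← hr0]
            ring
        _ ≤ (1 + t) * ((2 + δ0) * h x) :=
            mul_le_mul_of_nonneg_right ht3 (mul_nonneg (by linarith) (H.nonneg x))
        _ ≤ (1 + t) * h (η * x) := mul_le_mul_of_nonneg_left hx (by linarith)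
        _ ≤ _ := h10
    exact le_of_mul_le_mul_left h13 (by linarith)
  show (2 + δ0 / 2) * h x ≤ hG h θ + x * (θ + θ / (1 / t))
  rw [h3]
  calc (2 + δ0 / 2) * h x ≤ h ((1 + t) * x) := h12
    _ ≤ hG h θ + θ * ((1 + t) * x) := h5
    _ = hG h θ + x * (θ + t * θ) := by ring

/-- iterate `h (x / eta) ≤ (1/2) h x` -/
theorem reg_two_small (S : StdC μ ν h h') {δ0 : ℝ} (hδ0 : 0 < δ0)
    (h2 : ∀ᶠ x : ℝ in atTop, (2 + δ0) * h x ≤ h (eta μ ν * x)) :
    ∀ δ' : ℝ, 0 < δ' → ∃ ε : ℝ, 0 < ε ∧ ∀ᶠ x : ℝ in atTop, h (ε * x) ≤ δ' * h x := by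
  intro δ' hδ'
  have H := S.haz
  have hη := regTwo_eta S
  have hη0 : 0 < eta μ ν := by linarith
  have h3 : ∀ᶠ x : ℝ in atTop, h ((eta μ ν)⁻¹ * x) ≤ 1 / 2 * h x := by
    have h4 : Tendsto (fun x : ℝ => (eta μ ν)⁻¹ * x) atTop atTop :=
      tendsto_id.const_mul_atTop (inv_pos.2 hη0)
    filter_upwards [h4.eventually h2] with x hx
    rw [← mul_assoc, mul_inv_cancel₀ hη0.ne', one_mul] at hx
    have h5 := H.nonneg ((eta μ ν)⁻¹ * x)
    nlinarith
  have key : ∀ n : ℕ, ∀ᶠ x : ℝ in atTop, h (((eta μ ν)⁻¹) ^ n * x) ≤ (1 / 2) ^ n * h x := by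
    intro n
    induction n with
    | zero => exact Eventually.of_forall fun x => by simp
    | succ n ih =>
      have h4 : Tendsto (fun x : ℝ => ((eta μ ν)⁻¹) ^ n * x) atTop atTop :=
        tendsto_id.const_mul_atTop (pow_pos (inv_pos.2 hη0) n)
      filter_upwards [ih, h4.eventually h3] with x hx1 hx2
      calc h (((eta μ ν)⁻¹) ^ (n + 1) * x) = h ((eta μ ν)⁻¹ * (((eta μ ν)⁻¹) ^ n * x)) := by
            congr 1
            ring
        _ ≤ 1 / 2 * h (((eta μ ν)⁻¹) ^ n * x) := hx2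
        _ ≤ 1 / 2 * ((1 / 2) ^ n * h x) := mul_le_mul_of_nonneg_left hx1 (by norm_num)
        _ = (1 / 2) ^ (n + 1) * h x := by ring
  obtain ⟨n, hn⟩ := exists_pow_lt_of_lt_one hδ' (show (1 / 2 : ℝ) < 1 by norm_num)
  refine ⟨((eta μ ν)⁻¹) ^ n, pow_pos (inv_pos.2 hη0) n, ?_⟩
  filter_upwards [key n] with x hx
  exact hx.trans (mul_le_mul_of_nonneg_right hn.le (H.nonneg x))

end Pool.Agent.Lib.MP_04add8_pr.Cv
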