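import Mathlib
import Pool.Agent.Lib.MP_04add8_pr.Cv.ThrF

open MeasureTheory ProbabilityTheory Filter Topology
open scoped ENNReal

set_option linter.unusedSectionVars false

namespace Pool.Agent.Lib.MP_04add8_pr.Cv

open Pool.Agent.Lib.MP_04add8_pr.Gen

variable {h h' : ℝ → ℝ} {μ ν : Measure ℝ} [IsProbabilityMeasure μ]
  [IsProbabilityMeasure ν]

/-- **Thresholds from `h' ≤ x^(-d)`.** `d < 1` (because `x h' x → ∞`). `Thr.of_pair` with `B0 x = x ^ (d/2)`. `h' (B0 x) ≥ M / B0 x`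
for every `M`, while `h' x ≤ x^(-d) = x^(-d/2) / B0 x`: so `K h' x ≤ h' (B0 x)`. For `gg`: let `y = B0 x`, `z = y ^ (d/2)`; then
`h' y ≤ y^(-d) = 1/z²`, so `gg y ≥ h z - z h' y` (`gg_mono` proof: `h y - y h' y ≥ h z - z h' y`) `≥ h z - 1/z ≥ h z - 1`, and
`h z ≥ M log z = M (d/2)(d/2) log x` for every `M` (`H.log_le`). -/
theorem Thr.of_pow (H : HazC h h') {d : ℝ} (hd0 : 0 < d)
    (hd : ∀ᶠ x : ℝ in atTop, h' x ≤ x ^ (-d)) : ∃ B v : ℝ → ℝ, Thr h h' B v := by
  obtain ⟨e, he0, he1, he⟩ : ∃ e : ℝ, 0 < e ∧ e ≤ 1 ∧ ∀ᶠ x : ℝ in atTop, h' x ≤ x ^ (-e) := by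
    refine ⟨min d 1, lt_min hd0 one_pos, min_le_right _ _, ?_⟩
    filter_upwards [hd, eventually_ge_atTop (1 : ℝ)] with x h1 h2
    refine h1.trans (Real.rpow_le_rpow_of_exponent_le h2 ?_)
    have := min_le_left d 1
    linarith
  have he2 : 0 < e / 2 := by positivity
  have tB : Tendsto (fun x : ℝ => x ^ (e / 2)) atTop atTop := tendsto_rpow_atTop he2
  have tz : Tendsto (fun x : ℝ => (x ^ (e / 2)) ^ (e / 2)) atTop atTop := tB.comp tB |>.congr
    (fun x => rfl)
  refine Thr.of_pair H (B0 := fun x => x ^ (e / 2)) ?_ ?_ ?_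
  · filter_upwards [eventually_gt_atTop (0 : ℝ)] with x hx
    exact Real.rpow_pos_of_pos hx _
  · intro K
    filter_upwards [tz.eventually (H.log_le ((|K| + 1) / (e / 2 * (e / 2)))),
      tB.eventually he, eventually_ge_atTop (1 : ℝ),
      Real.tendsto_log_atTop.eventually_ge_atTop 1] with x h1 h2 h3 h4
    set y : ℝ := x ^ (e / 2) with hy
    set z : ℝ := y ^ (e / 2) with hz
    have hy1 : 1 ≤ y := Real.one_le_rpow h3 he2.le
    have hz1 : 1 ≤ z := Real.one_le_rpow hy1 he2.le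
    have hy0 : 0 < y := by linarith
    have hzy : z ≤ y := by
      calc z ≤ y ^ (1 : ℝ) := Real.rpow_le_rpow_of_exponent_le hy1 (by linarith)
        _ = y := Real.rpow_one y
    have h5 := H.lower_deriv (by linarith : (0 : ℝ) ≤ z) hzy hy0
    have h6 : z * h' y ≤ 1 := by
      calc z * h' y ≤ z * y ^ (-e) := mul_le_mul_of_nonneg_left h2 (by linarith)
        _ = y ^ (e / 2 + -e) := by rw [hz, ← Real.rpow_add hy0]
        _ ≤ y ^ (0 : ℝ) := Real.rpow_le_rpow_of_exponent_le hy1 (by linarith)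
        _ = 1 := Real.rpow_zero y
    have h7 : Real.log z = e / 2 * (e / 2 * Real.log x) := by
      rw [hz, Real.log_rpow hy0, hy, Real.log_rpow (by linarith)]
    have h8 : (|K| + 1) / (e / 2 * (e / 2)) * Real.log z = (|K| + 1) * Real.log x := by
      rw [h7]; field_simp
    rw [h8] at h1
    have h9 : K * Real.log x ≤ |K| * Real.log x :=
      mul_le_mul_of_nonneg_right (le_abs_self K) (by linarith)
    show K * Real.log x ≤ h y - y * h' y
    nlinarith
  · intro K
    filter_upwards [tB.eventually (H.deriv_ge |K|), he, eventually_ge_atTop (1 : ℝ)] with x h1 h2 h3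
    have hx0 : 0 < x := by linarith
    set y : ℝ := x ^ (e / 2) with hy
    have hy1 : 1 ≤ y := Real.one_le_rpow h3 he2.le
    have hy0 : 0 < y := by linarith
    have h4 : h' x ≤ 1 / y := by
      calc h' x ≤ x ^ (-e) := h2
        _ ≤ x ^ (-(e / 2)) := Real.rpow_le_rpow_of_exponent_le h3 (by linarith)
        _ = 1 / y := by rw [Real.rpow_neg hx0.le, one_div]
    calc K * h' x ≤ |K| * h' x :=
          mul_le_mul_of_nonneg_right (le_abs_self K) (H.pos x hx0).le
      _ ≤ |K| * (1 / y) := mul_le_mul_of_nonneg_left h4 (abs_nonneg K)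
      _ = |K| / y := by ring
      _ ≤ h' y := h1

end Pool.Agent.Lib.MP_04add8_pr.Cv
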