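import Mathlib
import Pool.Agent.Lib.MP_04add8_pr.Cv.ClassThree
import Pool.Agent.Lib.MP_04add8_pr.Cv.KillFour
import Pool.Agent.Lib.MP_04add8_pr.Cv.NoLowB
import Pool.Agent.Lib.MP_04add8_pr.Cv.LastLow
import Pool.Agent.Lib.MP_04add8_pr.Cv.PTail

open MeasureTheory ProbabilityTheory Filter Topology
open scoped ENNReal

set_option linter.unusedSectionVars false

namespace Pool.Agent.Lib.MP_04add8_pr.Cv

open Pool.Agent.Lib.MP_04add8_pr.Gen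

variable {h h' : ℝ → ℝ} {μ ν : Measure ℝ} [IsProbabilityMeasure μ]
  [IsProbabilityMeasure ν]

variable {B v : ℝ → ℝ}

/-- **Generic upper bound.** `last_low` with `N = ⌈x²⁰⌉`, `Y = x²`, `v x ≤ √x ≤ x`; `(N + 1) π {x² < w₂}` by `ptail` with `a = 1 + C`,
`K + 30`; `N μ (Ioi x²) ≤ N C₁ e^{-h (x²)}` (`Law.up`, `gap_pow`); `no_low`; `Gn_sum`; `kill_four` summed over `n ≤ N`; `class_three`.
`e^{-h ((1+C) x)} ≤ e^{-RR x}` by `RR_le_h`; `x^(-K') e^{-2 h x} ≤ (ω/4) Qf²`. -/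
theorem up_gen (S : StdC μ ν h h') (T : Thr h h' B v) {β : ℝ → ℝ} {θ0 c C : ℝ}
    (P : Pot μ ν h β θ0 c C 0) {ω : ℝ} (hω : 0 < ω) (K : ℝ) :
    ∀ᶠ x : ℝ in atTop, ∀ π : Measure (ℝ × ℝ), IsStationaryKW μ ν π →
      π {w | x < w.1} ≤
        ∑ n ∈ Finset.Icc 1 ⌈x ^ 20⌉₊, (π.prod (noise μ ν)) (Cone x (v x) (B x) (x ^ 2) n) +
        ENNReal.ofReal (x ^ (-K) * Real.exp (-(RR h β θ0 x)) +
          (K2 μ ν + ω) * (Qf h h' x) ^ 2) := by
  have H := S.haz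
  obtain ⟨C1, hC1, hup⟩ := S.law.up
  have hω2 : 0 < ω / 2 := by linarith
  have hC := P.pC
  have hc := P.pc
  have hθ := P.pθ
  have e1 := ptail S T (|K| + 30) (1 + C)
  have e2 := H.gap_pow (|K| + 30) (1 + C)
  have e3 := no_low S T (|K| + 30) (1 + C)
  have e4 := kill_four S T P (|K| + 30)
  have e5 := class_three S T P hω2 (K + 1)
  have e6 : ∀ᶠ x : ℝ in atTop, h' ((1 + C) * x) < θ0 :=
    (H.tendsto_deriv.comp (tendsto_id.const_mul_atTop (by linarith : (0 : ℝ) < 1 + C))).eventually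
      (gt_mem_nhds hθ)
  have e7 : ∀ᶠ x : ℝ in atTop, h' x < 1 := H.tendsto_deriv.eventually (gt_mem_nhds one_pos)
  filter_upwards [e1, e2, e3, e4, e5, e6, e7, T.sq,
    eventually_ge_atTop (max 2 (max (12 + 4 * C1) (4 / ω)))] with
    x f1 f2 f3 f4 f5 f6 f7 f8 hx π hπ
  have hx2 : 2 ≤ x := (le_max_left _ _).trans hx
  have hxC : 12 + 4 * C1 ≤ x := (le_max_left _ _).trans ((le_max_right _ _).trans hx)
  have hxω : 4 / ω ≤ x := (le_max_right _ _).trans ((le_max_right _ _).trans hx)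
  have hx1 : 1 ≤ x := by linarith
  have hx0 : 0 < x := by linarith
  have hvx : v x ≤ x := by
    refine f8.trans ?_
    rw [Real.sqrt_le_left hx0.le]
    nlinarith
  obtain ⟨N, hN⟩ : ∃ N : ℕ, N = ⌈x ^ 20⌉₊ := ⟨_, rfl⟩
  rw [← hN] at f3 f4 f5 ⊢
  have hx20 : 1 ≤ x ^ 20 := one_le_pow₀ hx1
  have hNle : (N : ℝ) ≤ 2 * x ^ 20 := by
    have h1 : (N : ℝ) < x ^ 20 + 1 := by
      rw [hN]
      exact Nat.ceil_lt_add_one (by positivity)
    linarith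
  have hN1 : ((N + 1 : ℕ) : ℝ) ≤ 3 * x ^ 20 := by
    push_cast
    linarith
  -- real quantities
  obtain ⟨E1, hE1⟩ : ∃ E : ℝ, E = Real.exp (-(RR h β θ0 x)) := ⟨_, rfl⟩
  obtain ⟨E2, hE2⟩ : ∃ E : ℝ, E = Real.exp (-(2 * h x)) := ⟨_, rfl⟩
  obtain ⟨Eh, hEh⟩ : ∃ E : ℝ, E = Real.exp (-(h ((1 + C) * x))) := ⟨_, rfl⟩
  obtain ⟨X, hX⟩ : ∃ X : ℝ, X = x ^ (-(|K| + 30)) := ⟨_, rfl⟩
  have hE1p : 0 < E1 := by rw [hE1]; exact Real.exp_pos _
  have hE2p : 0 < E2 := by rw [hE2]; exact Real.exp_pos _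
  have hEhp : 0 < Eh := by rw [hEh]; exact Real.exp_pos _
  have hXp : 0 < X := by rw [hX]; exact Real.rpow_pos_of_pos hx0 _
  have hEE : Eh ≤ E1 := by
    rw [hEh, hE1]
    apply Real.exp_le_exp.2
    have := RR_le_h H P hx0 f6.le
    linarith
  have hT2 : Real.exp (-(h (x ^ 2))) ≤ X * Eh := by
    have h1 : X = Real.exp (-(|K| + 30) * Real.log x) := by
      rw [hX, Real.rpow_def_of_pos hx0]
      congr 1
      ring
    rw [h1, hEh, ← Real.exp_add]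
    apply Real.exp_le_exp.2
    linarith
  obtain ⟨Q, hQ⟩ : ∃ Q : ℝ, Q = (Qf h h' x) ^ 2 := ⟨_, rfl⟩
  have hQE : E2 ≤ Q := by
    have hp := H.pos x hx0
    have h1 : Real.exp (-(h x)) ≤ Qf h h' x := by
      unfold Qf
      rw [le_div_iff₀ hp]
      have := Real.exp_pos (-(h x))
      nlinarith
    have h2 : E2 = Real.exp (-(h x)) ^ 2 := by
      rw [hE2, ← Real.exp_nat_mul]
      congr 1
      push_cast
      ring
    rw [h2, hQ]
    exact pow_le_pow_left₀ (Real.exp_pos _).le h1 2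
  have hQ0 : 0 < Q := lt_of_lt_of_le hE2p hQE
  have hK2 : 0 ≤ K2 μ ν := by
    have h1 := S.hlt
    have h2 := S.hm
    unfold K2
    have h3 : 0 < 2 * (∫ t, t ∂ν) - ∫ s, s ∂μ := by linarith
    positivity
  -- the powers of x
  obtain ⟨Y, hY⟩ : ∃ Y : ℝ, Y = x ^ (-K) := ⟨_, rfl⟩
  have hYp : 0 < Y := by rw [hY]; exact Real.rpow_pos_of_pos hx0 _
  have hXx : x ^ 20 * X ≤ x⁻¹ * Y := by
    rw [hX, hY, ← Real.rpow_natCast, ← Real.rpow_add hx0, ← Real.rpow_neg_one,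
      ← Real.rpow_add hx0]
    apply Real.rpow_le_rpow_of_exponent_le hx1
    have := le_abs_self K
    push_cast
    linarith
  have hXx' : x ^ 20 * X ≤ x⁻¹ := by
    rw [hX, ← Real.rpow_natCast, ← Real.rpow_add hx0, ← Real.rpow_neg_one]
    apply Real.rpow_le_rpow_of_exponent_le hx1
    have := abs_nonneg K
    push_cast
    linarith
  have hK1 : x ^ (-(K + 1)) = x⁻¹ * Y := by
    rw [hY, ← Real.rpow_neg_one, ← Real.rpow_add hx0]
    congr 1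
    ring
  have hinv : 0 < x⁻¹ := inv_pos.2 hx0
  have hi2 : x⁻¹ ≤ 1 / 2 := by
    rw [inv_le_comm₀ hx0 (by norm_num)]
    linarith
  have hiC : (6 + 2 * C1) * x⁻¹ ≤ 1 / 2 := by
    rw [mul_inv_le_iff₀ hx0]
    linarith
  have hiω : 2 * x⁻¹ ≤ ω / 2 := by
    rw [div_le_iff₀ hω] at hxω
    rw [mul_inv_le_iff₀ hx0]
    linarith
  -- collect
  have g1 := f1 π hπ
  have g3 := f3 π hπ
  have g4 := f4 π hπ
  have g5 := f5 π hπ
  rw [← hX, ← hEh] at g1 g3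
  rw [hK1, ← hE1, ← hQ] at g5
  rw [← hY, ← hE1, ← hQ]
  have hmain := last_low S hπ (Y := x ^ 2) hvx N
  have hsum := Gn_sum (π.prod (noise μ ν)) x (v x) (B x) (x ^ 2) N
  have hA1 : ((N + 1 : ℕ) : ℝ≥0∞) * π {w | x ^ 2 < w.2} ≤
      ENNReal.ofReal (3 * x ^ 20 * (X * E1)) := by
    have h1 : ((N + 1 : ℕ) : ℝ≥0∞) = ENNReal.ofReal ((N + 1 : ℕ) : ℝ) := by
      rw [ENNReal.ofReal_natCast]
    rw [h1]
    refine (mul_le_mul' le_rfl g1).trans ?_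
    rw [← ENNReal.ofReal_mul (by positivity)]
    apply ENNReal.ofReal_le_ofReal
    have h2 : X * Eh ≤ X * E1 := mul_le_mul_of_nonneg_left hEE hXp.le
    exact mul_le_mul hN1 h2 (by positivity) (by positivity)
  have hA2 : (N : ℝ≥0∞) * μ (Set.Ioi (x ^ 2)) ≤
      ENNReal.ofReal (2 * x ^ 20 * (C1 * (X * E1))) := by
    have h1 : (N : ℝ≥0∞) = ENNReal.ofReal (N : ℝ) := by
      rw [ENNReal.ofReal_natCast]
    rw [h1]
    refine (mul_le_mul' le_rfl (hup (x ^ 2))).trans ?_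
    rw [← ENNReal.ofReal_mul (by positivity)]
    apply ENNReal.ofReal_le_ofReal
    have h2 : X * Eh ≤ X * E1 := mul_le_mul_of_nonneg_left hEE hXp.le
    have h3 : C1 * Real.exp (-(h (x ^ 2))) ≤ C1 * (X * E1) :=
      mul_le_mul_of_nonneg_left (hT2.trans h2) hC1
    have h4 : 0 ≤ C1 * Real.exp (-(h (x ^ 2))) := mul_nonneg hC1 (Real.exp_pos _).le
    exact mul_le_mul hNle h3 h4 (by positivity)
  have hA3 : (π.prod (noise μ ν)) (NoLow (v x) (x ^ 2) N) ≤ ENNReal.ofReal (X * E1) :=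
    g3.trans (ENNReal.ofReal_le_ofReal (mul_le_mul_of_nonneg_left hEE hXp.le))
  have hA4 : ∑ n ∈ Finset.Icc 1 N, (π.prod (noise μ ν)) (Cfour x (v x) (B x) (x ^ 2) n) ≤
      ENNReal.ofReal (2 * x ^ 20 * (X * (E1 + E2))) := by
    have h0 : ∀ n ∈ Finset.Icc 1 N, (π.prod (noise μ ν)) (Cfour x (v x) (B x) (x ^ 2) n) ≤
        ENNReal.ofReal (X * (E1 + E2)) := by
      intro n hn
      have h1 := g4 n (Finset.mem_Icc.1 hn).2
      rwa [← hX, ← hE1, ← hE2] at h1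
    refine (Finset.sum_le_sum h0).trans ?_
    rw [Finset.sum_const, Nat.card_Icc, nsmul_eq_mul]
    have h1 : ((N + 1 - 1 : ℕ) : ℝ≥0∞) = ENNReal.ofReal (N : ℝ) := by
      rw [ENNReal.ofReal_natCast, Nat.add_sub_cancel]
    rw [h1, ← ENNReal.ofReal_mul (by positivity)]
    apply ENNReal.ofReal_le_ofReal
    exact mul_le_mul_of_nonneg_right hNle (by positivity)
  have hfin : 3 * x ^ 20 * (X * E1) + 2 * x ^ 20 * (C1 * (X * E1)) + X * E1 +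
      (2 * x ^ 20 * (X * (E1 + E2)) + (x⁻¹ * Y * E1 + (K2 μ ν + ω / 2) * Q)) ≤
      Y * E1 + (K2 μ ν + ω) * Q := by
    have a1 : X ≤ x ^ 20 * X := by nlinarith
    have a2 : (3 + 2 * C1 + 1 + 2) * (x ^ 20 * X) ≤ (6 + 2 * C1) * (x⁻¹ * Y) := by
      have : (3 + 2 * C1 + 1 + 2) = (6 + 2 * C1) := by ring
      rw [this]
      exact mul_le_mul_of_nonneg_left hXx (by linarith)
    have a3 : (6 + 2 * C1) * (x⁻¹ * Y) ≤ 1 / 2 * Y := by
      calc (6 + 2 * C1) * (x⁻¹ * Y) = ((6 + 2 * C1) * x⁻¹) * Y := by ring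
        _ ≤ 1 / 2 * Y := mul_le_mul_of_nonneg_right hiC hYp.le
    have a4 : x⁻¹ * Y ≤ 1 / 2 * Y := mul_le_mul_of_nonneg_right hi2 hYp.le
    have a5 : 2 * (x ^ 20 * X) * E2 ≤ ω / 2 * Q := by
      calc 2 * (x ^ 20 * X) * E2 ≤ 2 * x⁻¹ * E2 :=
            mul_le_mul_of_nonneg_right (by linarith) hE2p.le
        _ ≤ ω / 2 * E2 := mul_le_mul_of_nonneg_right hiω hE2p.le
        _ ≤ ω / 2 * Q := mul_le_mul_of_nonneg_left hQE hω2.le
    have a6 : (3 + 2 * C1 + 1 + 2) * (x ^ 20 * X) * E1 ≤ 1 / 2 * Y * E1 :=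
      mul_le_mul_of_nonneg_right (a2.trans a3) hE1p.le
    have a7 : x⁻¹ * Y * E1 ≤ 1 / 2 * Y * E1 := mul_le_mul_of_nonneg_right a4 hE1p.le
    have a8 : X * E1 ≤ (x ^ 20 * X) * E1 := mul_le_mul_of_nonneg_right a1 hE1p.le
    have a9 : 3 * x ^ 20 * (X * E1) + 2 * x ^ 20 * (C1 * (X * E1)) + X * E1 +
        (2 * x ^ 20 * (X * (E1 + E2)) + (x⁻¹ * Y * E1 + (K2 μ ν + ω / 2) * Q)) =
        ((3 + 2 * C1 + 2) * (x ^ 20 * X) * E1 + X * E1) + 2 * (x ^ 20 * X) * E2 +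
          x⁻¹ * Y * E1 + (K2 μ ν + ω / 2) * Q := by ring
    rw [a9]
    have b1 : (3 + 2 * C1 + 2) * (x ^ 20 * X) * E1 + X * E1 ≤
        (3 + 2 * C1 + 1 + 2) * (x ^ 20 * X) * E1 := by
      have b2 : (3 + 2 * C1 + 1 + 2) * (x ^ 20 * X) * E1 =
          (3 + 2 * C1 + 2) * (x ^ 20 * X) * E1 + (x ^ 20 * X) * E1 := by ring
      rw [b2]
      linarith
    have b3 : (K2 μ ν + ω) * Q = ω / 2 * Q + (K2 μ ν + ω / 2) * Q := by ring
    rw [b3]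
    linarith
  have h20 : 0 < x ^ 20 := by positivity
  have p1 : 0 ≤ 3 * x ^ 20 * (X * E1) := by positivity
  have p2 : 0 ≤ 2 * x ^ 20 * (C1 * (X * E1)) := by positivity
  have p3 : 0 ≤ X * E1 := by positivity
  have p4 : 0 ≤ 2 * x ^ 20 * (X * (E1 + E2)) := by positivity
  have p5 : 0 ≤ x⁻¹ * Y * E1 + (K2 μ ν + ω / 2) * Q := by positivity
  have htot : ENNReal.ofReal (3 * x ^ 20 * (X * E1)) +
      ENNReal.ofReal (2 * x ^ 20 * (C1 * (X * E1))) + ENNReal.ofReal (X * E1) +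
      (ENNReal.ofReal (2 * x ^ 20 * (X * (E1 + E2))) +
        ENNReal.ofReal (x⁻¹ * Y * E1 + (K2 μ ν + ω / 2) * Q)) ≤
      ENNReal.ofReal (Y * E1 + (K2 μ ν + ω) * Q) := by
    rw [← ENNReal.ofReal_add p1 p2, ← ENNReal.ofReal_add (add_nonneg p1 p2) p3,
      ← ENNReal.ofReal_add p4 p5, ← ENNReal.ofReal_add (add_nonneg (add_nonneg p1 p2) p3)
        (add_nonneg p4 p5)]
    exact ENNReal.ofReal_le_ofReal hfin
  calc π {w | x < w.1} ≤ (N + 1 : ℕ) * π {w | x ^ 2 < w.2} + N * μ (Set.Ioi (x ^ 2)) +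
        (π.prod (noise μ ν)) (NoLow (v x) (x ^ 2) N) +
        ∑ n ∈ Finset.Icc 1 N, (π.prod (noise μ ν)) (Gn x (v x) (x ^ 2) n) := hmain
    _ ≤ ENNReal.ofReal (3 * x ^ 20 * (X * E1)) +
          ENNReal.ofReal (2 * x ^ 20 * (C1 * (X * E1))) + ENNReal.ofReal (X * E1) +
        (∑ n ∈ Finset.Icc 1 N, (π.prod (noise μ ν)) (Cone x (v x) (B x) (x ^ 2) n) +
          ENNReal.ofReal (2 * x ^ 20 * (X * (E1 + E2))) +
          ENNReal.ofReal (x⁻¹ * Y * E1 + (K2 μ ν + ω / 2) * Q)) := by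
        refine add_le_add (add_le_add (add_le_add hA1 hA2) hA3) (hsum.trans ?_)
        exact add_le_add (add_le_add le_rfl hA4) g5
    _ = ∑ n ∈ Finset.Icc 1 N, (π.prod (noise μ ν)) (Cone x (v x) (B x) (x ^ 2) n) +
        (ENNReal.ofReal (3 * x ^ 20 * (X * E1)) +
          ENNReal.ofReal (2 * x ^ 20 * (C1 * (X * E1))) + ENNReal.ofReal (X * E1) +
        (ENNReal.ofReal (2 * x ^ 20 * (X * (E1 + E2))) +
          ENNReal.ofReal (x⁻¹ * Y * E1 + (K2 μ ν + ω / 2) * Q))) := by ring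
    _ ≤ _ := add_le_add le_rfl htot

end Pool.Agent.Lib.MP_04add8_pr.Cv
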