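import Mathlib
import Pool.Agent.Lib.MP_04add8_pr.Cv.ConeI
import Pool.Agent.Lib.MP_04add8_pr.Cv.RRcmp
import Pool.Agent.Lib.MP_04add8_pr.Cv.UpGen

open MeasureTheory ProbabilityTheory Filter Topology
open scoped ENNReal

set_option linter.unusedSectionVars false

namespace Pool.Agent.Lib.MP_04add8_pr.Cv

open Pool.Agent.Lib.MP_04add8_pr.Gen

variable {h h' : ℝ → ℝ} {μ ν : Measure ℝ} [IsProbabilityMeasure μ]
  [IsProbabilityMeasure ν]

variable {B v : ℝ → ℝ}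

/-- **Upper bound, regime (i)**: `potK`, `up_gen`, `cone_sum`, `RR_err`. -/
theorem gupperI (S : StdC μ ν h h') (T : Thr h h' B v) {d : ℝ}
    (hd : ∀ᶠ x : ℝ in atTop, h' x ≤ x ^ (-d)) {K : ℕ} (hK : 1 < (K + 1) * d)
    {ω : ℝ} (hω : 0 < ω) :
    ∀ᶠ x : ℝ in atTop, ∀ π : Measure (ℝ × ℝ), IsStationaryKW μ ν π →
      π {w | x < w.1} ≤ ENNReal.ofReal ((1 + ω) * fOneH h h' μ ν K x +
        (K2 μ ν + ω) * (Qf h h' x) ^ 2) := by
  have H := S.haz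
  have hK1 : 1 ≤ K := H.one_le_of_rate hd hK
  obtain ⟨A, θ0, c, hA, hθ0, hθ1, hP⟩ := potK S hK1
  have P := hP θ0 hθ0 le_rfl
  filter_upwards [up_gen S T P (ω := ω / 4) (by positivity) 0,
    cone_sum S T hd hK (ω := ω / 4) (by positivity),
    RR_err S hd hK hA P (ω := ω / 4) (by positivity), eventually_ge_atTop 1]
    with x e1 e2 e3 hx1 π hπ
  have hx : 0 < x := by linarith
  obtain ⟨f, hf⟩ : ∃ f, f = fOneH h h' μ ν K x := ⟨_, rfl⟩
  have hf0 : 0 < f := by rw [hf]; exact fOneH_pos S hx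
  have hQ0 : 0 ≤ (Qf h h' x) ^ 2 := sq_nonneg _
  have hK2 : 0 ≤ K2 μ ν := by
    have h1 := S.hlt
    have h2 := S.hm
    unfold K2
    positivity
  have hN : (⌈x ^ 20⌉₊ : ℝ) ≤ 2 * x ^ 20 := by
    have h1 := (Nat.ceil_lt_add_one (show 0 ≤ x ^ 20 by positivity)).le
    have h2 : 1 ≤ x ^ 20 := one_le_pow₀ hx1
    linarith
  rw [← hf] at e2 e3 ⊢
  rw [neg_zero, Real.rpow_zero, one_mul] at e1
  refine (e1 π hπ).trans ((add_le_add_left (e2 π hπ (x ^ 2) _ hN) _).trans ?_)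
  have h1 := Real.exp_pos (-(RR h (betaK μ ν K A) θ0 x))
  rw [← ENNReal.ofReal_add (by positivity) (by positivity)]
  apply ENNReal.ofReal_le_ofReal
  nlinarith [mul_nonneg hω.le hf0.le, mul_nonneg hω.le hQ0]

end Pool.Agent.Lib.MP_04add8_pr.Cv
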