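import Mathlib
import Pool.Agent.Lib.MP_04add8_pr.Cv.UpperOne
import Pool.Agent.Lib.MP_04add8_pr.Cv.ThrPow
import Pool.Agent.Lib.MP_04add8_pr.Cv.FinC

open MeasureTheory ProbabilityTheory Filter Topology
open scoped ENNReal

set_option linter.unusedSectionVars false

namespace Pool.Agent.Lib.MP_04add8_pr.Cv

open Pool.Agent.Lib.MP_04add8_pr.Gen

/-- **Regime (i)**: exact asymptotics for every concave hazard function whose hazard rate `q` is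
at most `x ^ (-d)`; no regular variation. -/
theorem res_one (μ ν : Measure ℝ) [IsProbabilityMeasure μ] [IsProbabilityMeasure ν]
    (hμ : μ (Set.Iio 0) = 0) (hν : ν (Set.Iio 0) = 0) (hνi : Integrable (fun t : ℝ => t) ν)
    (h q : ℝ → ℝ) (x₀ : ℝ) (hx₀ : 0 ≤ x₀)
    (hd : ∀ x : ℝ, x₀ < x → HasDerivAt h (q x) x) (hq : ∀ x : ℝ, x₀ < x → 0 < q x)
    (hanti : ∀ x y : ℝ, x₀ < x → x ≤ y → q y ≤ q x)
    (hcurv : ∃ C : ℝ, ∀ x y : ℝ, x₀ < x → x ≤ y → x ^ C * q x ≤ y ^ C * q y)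
    (hbig : Tendsto (fun x : ℝ => x * q x) atTop atTop)
    (htail : Tendsto (fun x : ℝ => μ.real (Set.Ioi x) / Real.exp (-(h x))) atTop (𝓝 1))
    (ρ : ℝ) (hρ : ρ = (∫ s, s ∂μ) / (∫ t, t ∂ν)) (hρ1 : 1 < ρ) (hρ2 : ρ < 2)
    (d : ℝ) (hd0 : 0 < d) (hpow : ∀ᶠ x : ℝ in atTop, q x ≤ x ^ (-d))
    (K : ℕ) (hK : 1 < (K + 1) * d) :
    (∃ π : Measure (ℝ × ℝ), IsStationaryKW μ ν π) ∧
    ∀ π : Measure (ℝ × ℝ), IsStationaryKW μ ν π →
      Tendsto (fun x : ℝ => π.real {w | x < w.1} /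
        (Real.exp (-(tRate μ (cramerRoot μ ν K) x)) / ((2 - ρ) * (∫ t, t ∂ν)) *
            (integratedTail μ (ρ / (ρ - 1) * x) / μ.real (Set.Ioi (ρ / (ρ - 1) * x))) +
          2 / ((2 - ρ) ^ 3 * (∫ t, t ∂ν) ^ 2) * integratedTail μ x ^ 2)) atTop (𝓝 1) := by
  have hlim : Tendsto q atTop (𝓝 0) := by
    refine tendsto_of_tendsto_of_tendsto_of_le_of_le' tendsto_const_nhds
      (tendsto_rpow_neg_atTop hd0) ?_ hpow
    filter_upwards [eventually_gt_atTop x₀] with x hx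
    exact (hq x hx).le
  obtain ⟨g, g', S, hg, hg'⟩ := exists_stdC μ ν hμ hν hνi h q x₀ hx₀ hd hq hanti hcurv hlim hbig
    htail ρ hρ hρ1 hρ2
  have hpow' : ∀ᶠ x : ℝ in atTop, g' x ≤ x ^ (-d) := by
    filter_upwards [hpow, hg'] with x h1 h2
    rw [h2]
    exact h1
  obtain ⟨B, v, T⟩ := Thr.of_pow S.haz hd0 hpow'
  refine ⟨gexists_stationary S, fun π hπ => ?_⟩
  refine final_one S hpow' hK hρ hρ1 hρ2 hπ fun ω hω => ?_
  filter_upwards [gupperI S T hpow' hK hω] with x hx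
  exact hx π hπ

end Pool.Agent.Lib.MP_04add8_pr.Cv
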