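import Mathlib
import Pool.Agent.Lib.MP_04add8_pr.Cv.ThrF

open MeasureTheory ProbabilityTheory Filter Topology
open scoped ENNReal

set_option linter.unusedSectionVars false

namespace Pool.Agent.Lib.MP_04add8_pr.Cv

open Pool.Agent.Lib.MP_04add8_pr.Gen

private lemma thrB_mono {h q : ℝ → ℝ} {x₀ : ℝ} (hx₀ : 0 ≤ x₀)
    (hd : ∀ x : ℝ, x₀ < x → HasDerivAt h (q x) x)
    (hanti : ∀ x y : ℝ, x₀ < x → x ≤ y → q y ≤ q x) {y z : ℝ} (hy : x₀ < y) (hyz : y ≤ z) :
    h y - y * q y ≤ h z - z * q z := by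
  rcases hyz.eq_or_lt with rfl | hlt
  · exact le_rfl
  · have hc : ContinuousOn h (Set.Icc y z) := fun w hw =>
      (hd w (lt_of_lt_of_le hy hw.1)).continuousAt.continuousWithinAt
    obtain ⟨c, hc1, hc2⟩ := exists_hasDerivAt_eq_slope h q hlt hc
      (fun w hw => hd w (hy.trans hw.1))
    have h1 : q z ≤ q c := hanti c z (hy.trans hc1.1) hc1.2.le
    have h2 : h z - h y = q c * (z - y) := by
      rw [hc2, div_mul_cancel₀ _ (sub_pos.2 hlt).ne']
    have h3 : q z * (z - y) ≤ q c * (z - y) := mul_le_mul_of_nonneg_right h1 (by linarith)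
    have h4 : q z ≤ q y := hanti y z hy hyz
    have h5 : 0 ≤ y * (q y - q z) := mul_nonneg (by linarith) (by linarith)
    nlinarith

/-- the separation condition in terms of the original hazard function -/
theorem Thr.of_sep {h q g g' : ℝ → ℝ} (H : HazC g g') {x₀ : ℝ} (hx₀ : 0 ≤ x₀)
    (hd : ∀ x : ℝ, x₀ < x → HasDerivAt h (q x) x) (hq : ∀ x : ℝ, x₀ < x → 0 < q x)
    (hanti : ∀ x y : ℝ, x₀ < x → x ≤ y → q y ≤ q x)
    (hg : ∀ᶠ x : ℝ in atTop, g x = h x) (hg' : ∀ᶠ x : ℝ in atTop, g' x = q x)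
    (b : ℝ → ℝ) (hb0 : ∀ᶠ x : ℝ in atTop, x₀ < b x)
    (hb1 : Tendsto (fun x : ℝ => (h (b x) - b x * q (b x)) / Real.log x) atTop atTop)
    (hb2 : Tendsto (fun x : ℝ => q (b x) / q x) atTop atTop) :
    ∃ B v : ℝ → ℝ, Thr g g' B v := by
  have hF : Tendsto (fun x : ℝ => h (b x) - b x * q (b x)) atTop atTop := by
    have h1 := hb1.atTop_mul_atTop₀ Real.tendsto_log_atTop
    refine h1.congr' ?_
    filter_upwards [eventually_gt_atTop (1 : ℝ)] with x hx
    rw [div_mul_cancel₀ _ (Real.log_pos hx).ne']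
  have hbt : Tendsto b atTop atTop := by
    rw [tendsto_atTop]
    intro M
    set M' := max M (x₀ + 1) with hM'
    have hM1 : x₀ < M' := lt_of_lt_of_le (by linarith) (le_max_right _ _)
    filter_upwards [hb0, hF.eventually_gt_atTop (h M' - M' * q M')] with x h1 h2
    by_contra hcon
    push Not at hcon
    have h3 : b x ≤ M' := hcon.le.trans (le_max_left _ _)
    have h4 := thrB_mono hx₀ hd hanti h1 h3
    linarith
  have e1 := hbt.eventually hg
  have e2 := hbt.eventually hg'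
  refine Thr.of_pair H (B0 := b) ?_ ?_ ?_
  · filter_upwards [hbt.eventually_gt_atTop 0] with x hx using hx
  · intro K
    filter_upwards [e1, e2, hb1.eventually_ge_atTop K, eventually_gt_atTop (1 : ℝ)]
      with x h1 h2 h3 h4
    unfold gg
    rw [h1, h2]
    rwa [le_div_iff₀ (Real.log_pos h4)] at h3
  · intro K
    filter_upwards [hg', e2, hb2.eventually_ge_atTop K, eventually_gt_atTop x₀] with x h1 h2 h3 h4
    rw [h1, h2]
    rwa [le_div_iff₀ (hq x h4)] at h3

end Pool.Agent.Lib.MP_04add8_pr.Cv
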