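import Mathlib
import Pool.Agent.Lib.MP_04add8_pr.Cv.UpGen
import Pool.Agent.Lib.MP_04add8_pr.Cv.ConeTwo
import Pool.Agent.Lib.MP_04add8_pr.Cv.RegTwo

open MeasureTheory ProbabilityTheory Filter Topology
open scoped ENNReal

set_option linter.unusedSectionVars false

namespace Pool.Agent.Lib.MP_04add8_pr.Cv

open Pool.Agent.Lib.MP_04add8_pr.Gen

variable {h h' : ℝ → ℝ} {μ ν : Measure ℝ} [IsProbabilityMeasure μ]
  [IsProbabilityMeasure ν]

variable {B v : ℝ → ℝ}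

/-- **Upper bound, two-jobs regime**: `reg_two`, `reg_two_small`, `up_gen` and `cone_two` with `ω/2`; `e^{-RR x} ≤ e^{-2 h x} ≤ Qf²`. -/
theorem gupperII (S : StdC μ ν h h') (T : Thr h h' B v) {δ0 : ℝ} (hδ0 : 0 < δ0)
    (h2 : ∀ᶠ x : ℝ in atTop, (2 + δ0) * h x ≤ h (eta μ ν * x)) {ω : ℝ} (hω : 0 < ω) :
    ∀ᶠ x : ℝ in atTop, ∀ π : Measure (ℝ × ℝ), IsStationaryKW μ ν π →
      π {w | x < w.1} ≤ ENNReal.ofReal ((K2 μ ν + ω) * (Qf h h' x) ^ 2) := by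
  have H := S.haz
  obtain ⟨β, θ0, c, C, P, hR⟩ := reg_two S hδ0 h2
  filter_upwards [up_gen S T P (ω := ω / 2) (by positivity) 1,
    cone_two S T P (δ := δ0 / 2) (by positivity) hR (reg_two_small S hδ0 h2) 1, hR,
    H.tendsto_deriv.eventually (gt_mem_nhds one_pos),
    eventually_ge_atTop (max 1 (4 / ω))] with x e1 e2 e3 e4 hx π hπ
  have hx1 : 1 ≤ x := (le_max_left _ _).trans hx
  have hxω : 4 / ω ≤ x := (le_max_right _ _).trans hx
  have hx0 : 0 < x := by linarith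
  refine (e1 π hπ).trans ((add_le_add_left (e2 π hπ) _).trans ?_)
  rw [Real.rpow_neg_one]
  obtain ⟨Q, hQ⟩ : ∃ Q, Q = (Qf h h' x) ^ 2 := ⟨_, rfl⟩
  obtain ⟨E, hE⟩ : ∃ E, E = Real.exp (-(2 * h x)) := ⟨_, rfl⟩
  obtain ⟨R, hRd⟩ : ∃ R, R = Real.exp (-(RR h β θ0 x)) := ⟨_, rfl⟩
  have hE0 : 0 < E := by rw [hE]; exact Real.exp_pos _
  have hR0 : 0 < R := by rw [hRd]; exact Real.exp_pos _
  have hRE : R ≤ E := by
    rw [hRd, hE]
    apply Real.exp_le_exp.2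
    have h3 : 0 ≤ δ0 / 2 * h x := mul_nonneg (by positivity) (H.nonneg x)
    nlinarith
  have hEQ : E ≤ Q := by
    have hp := H.pos x hx0
    have h1 : Real.exp (-(h x)) ≤ Qf h h' x := by
      have h3 := Real.exp_pos (-(h x))
      unfold Qf
      rw [le_div_iff₀ hp]
      nlinarith
    have h2 : E = Real.exp (-(h x)) ^ 2 := by
      rw [hE, ← Real.exp_nat_mul]
      congr 1
      push_cast
      ring
    rw [h2, hQ]
    exact pow_le_pow_left₀ (Real.exp_pos _).le h1 2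
  have hQ0 : 0 < Q := hE0.trans_le hEQ
  have hK2 : 0 ≤ K2 μ ν := by
    have h1 := S.hlt
    have h2 := S.hm
    have h3 : 0 < 2 * (∫ t, t ∂ν) - ∫ s, s ∂μ := by linarith
    unfold K2
    positivity
  have hxi : x⁻¹ ≤ ω / 4 := by
    rw [inv_le_comm₀ hx0 (by positivity), inv_div]
    exact hxω
  have hxi0 : 0 < x⁻¹ := inv_pos.2 hx0
  rw [← hE, ← hRd, ← hQ, ← ENNReal.ofReal_add (by positivity) (by positivity)]
  apply ENNReal.ofReal_le_ofReal
  have h5 : x⁻¹ * E ≤ ω / 4 * Q := mul_le_mul hxi hEQ hE0.le (by positivity)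
  have h6 : x⁻¹ * R ≤ ω / 4 * Q := mul_le_mul hxi (hRE.trans hEQ) hR0.le (by positivity)
  nlinarith

end Pool.Agent.Lib.MP_04add8_pr.Cv
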